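import Pool.Agent.Lib.MP_adc574_ag_LZ.Defs

/-!
# JOB FrD: derivations of fraction fields

* `exists_exD`: a derivation `D` of a domain `S` extends uniquely to `Frac S`. Proof of the existence as in `MPadcHM.exists_DK`
  (HM/DK.lean): `FractionRing S` is formally etale over `S`, so `KaehlerDifferential.isBaseChange_of_formallyEtale`; here with
  `ℤ` instead of `κ` and `d : Derivation ℤ S (FractionRing S)` the composition of `D` with `algebraMap` (`(Algebra.linearMap S _).compDer D`).
  `exD D` is the extension (`exD_alg`), `exD_unique` the uniqueness (every element is `a / b`), `exD_comm`: extensions of commuting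
  derivations commute (the commutator is a derivation which vanishes on `S`: quotient rule, or `exD_unique` applied to a derivation
  `⁅_, _⁆`, `Derivation.commutator_apply`).
* `cderD D` : the coefficientwise derivation of `K[x]` as a derivation (`cderD_apply : cderD D P = cder D P`, see `cder` in HM/Defs;
  additivity of `cder`: it is `P.sum`-like, `cder D P = ∑ e ∈ s, monomial e (D (coeff e P))` for every finite `s ⊇ P.support`; Leibniz: `MvPolynomial.induction_on`
  or monomials), it commutes with `pderiv i`.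
* `dx i` : the extension of `∂ / ∂ x_i` to `K(x)`, `DF D` the extension of `cderD D`; `dx_comm`, `DF_dx`: `exD_comm`. `dx_smul`, `DF_smul`: `c • x = algebraMap (C c) * x`, Leibniz.
* `inR_*`, `inRj_*`: `InR h g` means `g * Y ^ m` is a polynomial, `Y = ∏ h_i` (`InRj`: `Y_j = ∏_{i ≠ j} h_i`). Derivatives: from `g * Y ^ m = P` (same exponent `m`) `∂ g * Y ^ m + g * ∂ (Y ^ m) = ∂ P`, multiply by `Y ^ m`;
  sums: bring to the same exponent; inverses: `h_i⁻¹ * Y = ∏_{k ≠ i} h_k`. Prove first a general lemma: for one polynomial `Y` the set of `g` with `g * Y ^ m ∈ K[x]` for some `m`.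
-/

set_option autoImplicit false

namespace MPadcLZ

open MvPolynomial MPadcHM

universe u

private theorem frd_gen {R S : Type*} [CommRing R] [CommRing S] [IsDomain S] [Algebra R S]
    (D : S → S) (hadd : ∀ a b, D (a + b) = D a + D b)
    (hmul : ∀ a b, D (a * b) = a * D b + b * D a)
    (hR : ∀ (r : R) (a : S), D (r • a) = r • D a) :
    ∃ f : FractionRing S → FractionRing S, (∀ x y, f (x + y) = f x + f y) ∧
      (∀ x y, f (x * y) = x * f y + y * f x) ∧
      ∀ s : S, f (algebraMap S (FractionRing S) s) = algebraMap S (FractionRing S) (D s) := by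
  have het : Algebra.FormallyEtale S (FractionRing S) :=
    Algebra.FormallyEtale.of_isLocalization (Rₘ := FractionRing S) (nonZeroDivisors S)
  have hbc : IsBaseChange (FractionRing S) (KaehlerDifferential.map R R S (FractionRing S)) :=
    KaehlerDifferential.isBaseChange_of_formallyEtale R S (FractionRing S)
  let D₀ : Derivation R S S := Derivation.mk' ⟨⟨D, hadd⟩, hR⟩ hmul
  let d : Derivation R S (FractionRing S) := (Algebra.linearMap S (FractionRing S)).compDer D₀
  refine ⟨fun x => hbc.lift d.liftKaehlerDifferential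
    (KaehlerDifferential.D R (FractionRing S) x), ?_, ?_, ?_⟩
  · intro x y
    beta_reduce
    rw [map_add, map_add]
  · intro x y
    beta_reduce
    rw [Derivation.leibniz, map_add, map_smul, map_smul, smul_eq_mul, smul_eq_mul]
  · intro s
    beta_reduce
    have h1 : KaehlerDifferential.D R (FractionRing S) (algebraMap S (FractionRing S) s)
        = KaehlerDifferential.map R R S (FractionRing S) (KaehlerDifferential.D R S s) := by
      rw [KaehlerDifferential.map_D]
    rw [h1, hbc.lift_eq, Derivation.liftKaehlerDifferential_comp_D]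
    rfl

theorem exists_exD {S : Type*} [CommRing S] [IsDomain S] (D : Derivation ℤ S S) :
    ∃ D' : Derivation ℤ (FractionRing S) (FractionRing S),
      ∀ s : S, D' (algebraMap S (FractionRing S) s) = algebraMap S (FractionRing S) (D s) := by
  obtain ⟨f, h1, h2, h3⟩ := frd_gen (R := ℤ) (S := S) (fun s => D s) (fun a b => map_add D a b)
    (fun a b => D.leibniz a b) (fun r a => by
      rw [Algebra.smul_def, Algebra.smul_def, eq_intCast, ← zsmul_eq_mul, ← zsmul_eq_mul]
      exact map_zsmul D r a)
  have hs : ∀ (c : ℤ) (x : FractionRing S),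
      f ((c : FractionRing S) * x) = (c : FractionRing S) * f x := by
    intro c x
    rw [← zsmul_eq_mul, ← zsmul_eq_mul]
    exact map_zsmul (AddMonoidHom.mk' f h1) c x
  refine ⟨{ toFun := f
            map_add' := h1
            map_smul' := ?_
            map_one_eq_zero' := ?_
            leibniz' := h2 }, h3⟩
  · intro c x
    have e1 : (RingHom.id ℤ) c • f x = (c : FractionRing S) * f x := zsmul_eq_mul (f x) c
    rw [e1, ← hs]
    congr 1
    rw [Algebra.smul_def, eq_intCast]
  · have h0 := h2 1 1
    rw [mul_one, one_mul] at h0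
    have h4 : f 1 = 0 := by linear_combination -h0
    exact h4

/-- The extension of a derivation to the fraction field. -/
noncomputable def exD {S : Type*} [CommRing S] [IsDomain S] (D : Derivation ℤ S S) :
    Derivation ℤ (FractionRing S) (FractionRing S) := Classical.choose (exists_exD D)

theorem exD_alg {S : Type*} [CommRing S] [IsDomain S] (D : Derivation ℤ S S) (s : S) :
    exD D (algebraMap S (FractionRing S) s) = algebraMap S (FractionRing S) (D s) :=
  Classical.choose_spec (exists_exD D) s

theorem exD_unique {S : Type*} [CommRing S] [IsDomain S] {E : Type*} [Field E]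
    (j : FractionRing S →+* E) (D₁ D₂ : FractionRing S →+ E)
    (h₁ : ∀ a b, D₁ (a * b) = j a * D₁ b + j b * D₁ a)
    (h₂ : ∀ a b, D₂ (a * b) = j a * D₂ b + j b * D₂ a)
    (h : ∀ s : S, D₁ (algebraMap S (FractionRing S) s) = D₂ (algebraMap S (FractionRing S) s))
    (x : FractionRing S) : D₁ x = D₂ x := by
  obtain ⟨a, b, hb, rfl⟩ := IsFractionRing.div_surjective (A := S) x
  have hb0 : algebraMap S (FractionRing S) b ≠ 0 := by
    have := nonZeroDivisors.ne_zero hb
    simpa using this
  have hjb : j (algebraMap S (FractionRing S) b) ≠ 0 := by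
    rw [Ne, map_eq_zero]
    exact hb0
  obtain ⟨x, hx⟩ : ∃ x, x = algebraMap S (FractionRing S) a / algebraMap S (FractionRing S) b :=
    ⟨_, rfl⟩
  rw [← hx]
  have hxb : x * algebraMap S (FractionRing S) b = algebraMap S (FractionRing S) a := by
    rw [hx, div_mul_cancel₀ _ hb0]
  have e1 := h₁ x (algebraMap S (FractionRing S) b)
  have e2 := h₂ x (algebraMap S (FractionRing S) b)
  rw [hxb] at e1 e2
  have e3 := h a
  have e4 := h b
  have e5 : j (algebraMap S (FractionRing S) b) * (D₁ x - D₂ x) = 0 := by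
    rw [e1, e2, e4] at e3
    linear_combination e3
  rcases mul_eq_zero.1 e5 with h6 | h6
  · exact absurd h6 hjb
  · exact sub_eq_zero.1 h6

theorem exD_comm {S : Type*} [CommRing S] [IsDomain S] (D₁ D₂ : Derivation ℤ S S)
    (h : ∀ s, D₁ (D₂ s) = D₂ (D₁ s)) (x : FractionRing S) :
    exD D₁ (exD D₂ x) = exD D₂ (exD D₁ x) := by
  have key := exD_unique (S := S) (E := FractionRing S) (RingHom.id _)
    (AddMonoidHom.mk' (fun x => exD D₁ (exD D₂ x) - exD D₂ (exD D₁ x)) (fun x y => by
      rw [map_add, map_add, map_add, map_add]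
      ring)) 0 (fun a b => by
        change exD D₁ (exD D₂ (a * b)) - exD D₂ (exD D₁ (a * b)) =
          a * (exD D₁ (exD D₂ b) - exD D₂ (exD D₁ b)) +
          b * (exD D₁ (exD D₂ a) - exD D₂ (exD D₁ a))
        simp only [Derivation.leibniz, smul_eq_mul, map_add]
        ring) (fun a b => by simp) (fun s => by
        change exD D₁ (exD D₂ (algebraMap S (FractionRing S) s)) -
          exD D₂ (exD D₁ (algebraMap S (FractionRing S) s)) = 0
        rw [exD_alg, exD_alg, exD_alg, exD_alg, h, sub_self]) x
  exact sub_eq_zero.1 key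

variable {K : Type*} [Field K] {N : ℕ}

private theorem frd_coeff (D : Derivation ℤ K K) (P : MvPolynomial (Fin N) K)
    (m : Fin N →₀ ℕ) : coeff m (cder D P) = D (coeff m P) := by
  classical
  unfold cder
  rw [coeff_sum]
  simp only [coeff_monomial]
  rw [Finset.sum_ite_eq' P.support m (fun e => D (coeff e P))]
  by_cases h : m ∈ P.support
  · rw [if_pos h]
  · rw [if_neg h]
    rw [MvPolynomial.notMem_support_iff] at h
    rw [h, map_zero]

theorem exists_cderD (D : Derivation ℤ K K) :
    ∃ D' : Derivation ℤ (MvPolynomial (Fin N) K) (MvPolynomial (Fin N) K),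
      ∀ P, D' P = cder D P := by
  classical
  have hadd : ∀ P Q : MvPolynomial (Fin N) K, cder D (P + Q) = cder D P + cder D Q := by
    intro P Q
    ext m
    rw [frd_coeff, coeff_add, coeff_add, map_add, frd_coeff, frd_coeff]
  have hmul : ∀ P Q : MvPolynomial (Fin N) K,
      cder D (P * Q) = P * cder D Q + Q * cder D P := by
    intro P Q
    ext m
    have h1 : Q * cder D P = cder D P * Q := mul_comm _ _
    rw [frd_coeff, coeff_add, h1, coeff_mul, map_sum, coeff_mul, coeff_mul,
      ← Finset.sum_add_distrib]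
    refine Finset.sum_congr rfl fun x _ => ?_
    rw [Derivation.leibniz, frd_coeff, frd_coeff, smul_eq_mul, smul_eq_mul,
      mul_comm (coeff x.2 Q)]
  exact ⟨Derivation.mk' (AddMonoidHom.mk' (fun P : MvPolynomial (Fin N) K => cder D P)
    hadd).toIntLinearMap hmul, fun P => rfl⟩

/-- The coefficientwise derivation. -/
noncomputable def cderD (D : Derivation ℤ K K) :
    Derivation ℤ (MvPolynomial (Fin N) K) (MvPolynomial (Fin N) K) :=
  Classical.choose (exists_cderD D)

theorem cderD_apply (D : Derivation ℤ K K) (P : MvPolynomial (Fin N) K) :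
    cderD D P = cder D P := Classical.choose_spec (exists_cderD D) P

theorem coeff_cderD (D : Derivation ℤ K K) (e : Fin N →₀ ℕ) (P : MvPolynomial (Fin N) K) :
    coeff e (cderD D P) = D (coeff e P) := by
  rw [cderD_apply, frd_coeff]

theorem cderD_monomial (D : Derivation ℤ K K) (e : Fin N →₀ ℕ) (c : K) :
    cderD D (monomial e c) = monomial e (D c) := by
  classical
  ext m
  rw [coeff_cderD, coeff_monomial, coeff_monomial]
  split_ifs with h
  · rfl
  · exact map_zero D

theorem cderD_pderiv (D : Derivation ℤ K K) (i : Fin N) (P : MvPolynomial (Fin N) K) :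
    cderD D (pderiv i P) = pderiv i (cderD D P) := by
  induction P using MvPolynomial.induction_on' with
  | add p q hp hq => rw [map_add, map_add, map_add, map_add, hp, hq]
  | monomial u a =>
    rw [pderiv_monomial, cderD_monomial, cderD_monomial, pderiv_monomial, Derivation.leibniz,
      Derivation.map_natCast, smul_zero, zero_add, smul_eq_mul, mul_comm]

/-- `∂ / ∂ x_i` on `K(x)`. -/
noncomputable def dx (K : Type*) [Field K] {N : ℕ} (i : Fin N) : Derivation ℤ (FF K N) (FF K N) :=
  exD ((pderiv i : Derivation K (MvPolynomial (Fin N) K) (MvPolynomial (Fin N) K)).restrictScalars ℤ)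

/-- The coefficientwise derivation on `K(x)`. -/
noncomputable def DF (D : Derivation ℤ K K) {N : ℕ} : Derivation ℤ (FF K N) (FF K N) :=
  exD (cderD D)

theorem dx_alg (i : Fin N) (P : MvPolynomial (Fin N) K) :
    dx K i (algebraMap _ (FF K N) P) = algebraMap _ (FF K N) (pderiv i P) := exD_alg _ _

theorem DF_alg (D : Derivation ℤ K K) (P : MvPolynomial (Fin N) K) :
    DF D (algebraMap _ (FF K N) P) = algebraMap _ (FF K N) (cderD D P) := exD_alg _ _

private theorem frd_pp (i j : Fin N) (P : MvPolynomial (Fin N) K) :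
    pderiv i (pderiv j P) = pderiv j (pderiv i P) := by
  have h : (⁅(pderiv i : Derivation K (MvPolynomial (Fin N) K) (MvPolynomial (Fin N) K)),
      pderiv j⁆ : Derivation K (MvPolynomial (Fin N) K) (MvPolynomial (Fin N) K)) = 0 := by
    refine MvPolynomial.derivation_ext fun k => ?_
    rw [Derivation.commutator_apply, pderiv_X, pderiv_X]
    classical
    simp only [Pi.single_apply]
    split_ifs <;> simp
  have h1 := congrArg (fun E : Derivation K (MvPolynomial (Fin N) K) (MvPolynomial (Fin N) K) =>
    E P) h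
  simp only [Derivation.commutator_apply, Derivation.zero_apply] at h1
  exact sub_eq_zero.1 h1

theorem dx_comm (i j : Fin N) (x : FF K N) : dx K i (dx K j x) = dx K j (dx K i x) :=
  exD_comm _ _ (fun s => frd_pp i j s) x

theorem DF_dx (D : Derivation ℤ K K) (j : Fin N) (x : FF K N) :
    DF D (dx K j x) = dx K j (DF D x) :=
  exD_comm _ _ (fun s => cderD_pderiv D j s) x

private theorem frd_smul (c : K) (x : FF K N) :
    c • x = algebraMap (MvPolynomial (Fin N) K) (FF K N) (C c) * x := by
  rw [Algebra.smul_def, IsScalarTower.algebraMap_apply K (MvPolynomial (Fin N) K) (FF K N)]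
  rfl

theorem dx_smul (j : Fin N) (c : K) (x : FF K N) : dx K j (c • x) = c • dx K j x := by
  rw [frd_smul, frd_smul, Derivation.leibniz, dx_alg, pderiv_C, map_zero, smul_zero, add_zero,
    smul_eq_mul]

theorem DF_smul (D : Derivation ℤ K K) (c : K) (x : FF K N) :
    DF D (c • x) = D c • x + c • DF D x := by
  have h1 : cderD D (C c : MvPolynomial (Fin N) K) = C (D c) := cderD_monomial D 0 c
  rw [frd_smul, frd_smul, frd_smul, Derivation.leibniz, DF_alg, h1, smul_eq_mul, smul_eq_mul]
  ring

private def frdIn (Y : MvPolynomial (Fin N) K) (g : FF K N) : Prop :=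
  ∃ (m : ℕ) (P : MvPolynomial (Fin N) K), g * algebraMap _ (FF K N) Y ^ m =
    algebraMap _ (FF K N) P

private theorem frd_mul {Y : MvPolynomial (Fin N) K} {g g' : FF K N} (hg : frdIn Y g)
    (hg' : frdIn Y g') : frdIn Y (g * g') := by
  obtain ⟨m, P, hP⟩ := hg
  obtain ⟨m', P', hP'⟩ := hg'
  refine ⟨m + m', P * P', ?_⟩
  rw [map_mul, ← hP, ← hP', pow_add]
  ring

private theorem frd_add {Y : MvPolynomial (Fin N) K} {g g' : FF K N} (hg : frdIn Y g)
    (hg' : frdIn Y g') : frdIn Y (g + g') := by
  obtain ⟨m, P, hP⟩ := hg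
  obtain ⟨m', P', hP'⟩ := hg'
  refine ⟨m + m', P * Y ^ m' + P' * Y ^ m, ?_⟩
  rw [map_add, map_mul, map_mul, map_pow, map_pow, ← hP, ← hP', pow_add]
  ring

private theorem frd_der {Y : MvPolynomial (Fin N) K} {g : FF K N} (hg : frdIn Y g)
    (δ : Derivation ℤ (FF K N) (FF K N))
    (δ₀ : MvPolynomial (Fin N) K → MvPolynomial (Fin N) K)
    (hδ : ∀ P, δ (algebraMap _ (FF K N) P) = algebraMap _ (FF K N) (δ₀ P)) :
    frdIn Y (δ g) := by
  obtain ⟨m, P, hP⟩ := hg
  refine ⟨m + m, δ₀ P * Y ^ m - P * δ₀ (Y ^ m), ?_⟩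
  have h1 := congrArg δ hP
  rw [Derivation.leibniz, ← map_pow, hδ, hδ, smul_eq_mul, smul_eq_mul, map_pow] at h1
  rw [map_sub, map_mul, map_mul, map_pow, ← hP, ← h1, pow_add]
  ring

private theorem frd_inv {Y h Z : MvPolynomial (Fin N) K} (hh : h ≠ 0) (hY : Y = h * Z) :
    frdIn Y ((algebraMap _ (FF K N) h)⁻¹) := by
  refine ⟨1, Z, ?_⟩
  have h0 : algebraMap (MvPolynomial (Fin N) K) (FF K N) h ≠ 0 := by
    rw [Ne, FaithfulSMul.algebraMap_eq_zero_iff]
    exact hh
  rw [pow_one, hY, map_mul, ← mul_assoc, inv_mul_cancel₀ h0, one_mul]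

theorem inR_dx {h : Fin N → MvPolynomial (Fin N) K} {g : FF K N} (hg : InR h g) (j : Fin N) :
    InR h (dx K j g) :=
  frd_der hg (dx K j) (pderiv j) (dx_alg j)

theorem inR_DF {h : Fin N → MvPolynomial (Fin N) K} {g : FF K N} (hg : InR h g)
    (D : Derivation ℤ K K) : InR h (DF D g) :=
  frd_der hg (DF D) (cderD D) (DF_alg D)

theorem inR_mul {h : Fin N → MvPolynomial (Fin N) K} {g g' : FF K N} (hg : InR h g)
    (hg' : InR h g') : InR h (g * g') :=
  frd_mul hg hg'

theorem inR_add {h : Fin N → MvPolynomial (Fin N) K} {g g' : FF K N} (hg : InR h g)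
    (hg' : InR h g') : InR h (g + g') :=
  frd_add hg hg'

theorem inR_alg {h : Fin N → MvPolynomial (Fin N) K} (P : MvPolynomial (Fin N) K) :
    InR h (algebraMap _ (FF K N) P) := ⟨0, P, by simp⟩

theorem inR_inv {h : Fin N → MvPolynomial (Fin N) K} (hh : ∀ i, h i ≠ 0) (i : Fin N) :
    InR h ((algebraMap _ (FF K N) (h i))⁻¹) :=
  frd_inv (hh i) (Finset.mul_prod_erase Finset.univ h (Finset.mem_univ i)).symm

theorem inRj_dx {h : Fin N → MvPolynomial (Fin N) K} {i : Fin N} {g : FF K N} (hg : InRj h i g)
    (j : Fin N) : InRj h i (dx K j g) :=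
  frd_der hg (dx K j) (pderiv j) (dx_alg j)

theorem inRj_mul {h : Fin N → MvPolynomial (Fin N) K} {i : Fin N} {g g' : FF K N}
    (hg : InRj h i g) (hg' : InRj h i g') : InRj h i (g * g') :=
  frd_mul hg hg'

theorem inRj_add {h : Fin N → MvPolynomial (Fin N) K} {i : Fin N} {g g' : FF K N}
    (hg : InRj h i g) (hg' : InRj h i g') : InRj h i (g + g') :=
  frd_add hg hg'

theorem inRj_alg {h : Fin N → MvPolynomial (Fin N) K} (i : Fin N) (P : MvPolynomial (Fin N) K) :
    InRj h i (algebraMap _ (FF K N) P) := ⟨0, P, by simp⟩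

theorem inRj_inv {h : Fin N → MvPolynomial (Fin N) K} (hh : ∀ i, h i ≠ 0) {i j : Fin N}
    (hij : j ≠ i) : InRj h i ((algebraMap _ (FF K N) (h j))⁻¹) :=
  frd_inv (hh j) (Finset.mul_prod_erase (Finset.univ.erase i) h
    (Finset.mem_erase.2 ⟨hij, Finset.mem_univ j⟩)).symm

theorem inR_of_inRj {h : Fin N → MvPolynomial (Fin N) K} {i : Fin N} {g : FF K N}
    (hg : InRj h i g) : InR h g := by
  obtain ⟨m, P, hP⟩ := hg
  refine ⟨m, P * h i ^ m, ?_⟩
  rw [← Finset.mul_prod_erase Finset.univ h (Finset.mem_univ i), map_mul, map_mul, ← hP, map_pow,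
    mul_pow]
  ring

end MPadcLZ
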