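import Pool.Agent.Lib.MP_adc574_ag_LZ.Intf
import Pool.Agent.Lib.MP_adc574_ag_LZ.FrD

/-!
# The module `P_K`

`PKm d F = K[x] / (∑ (∂_i + F_i) K[x] + monomials outside W0)`.
-/

set_option autoImplicit false

namespace MPadcLZ

open MvPolynomial MPadcHM

universe u

section

variable {K : Type*} [Field K] {N : ℕ}

/-- The relations of `P_K`. -/
noncomputable def relZ (d : ℕ) (F : MvPolynomial (Fin N) K) : Submodule K (MvPolynomial (Fin N) K) :=
  Submodule.span K ({P | ∃ i Q, P = dl F i Q} ∪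
    {P | ∃ e : Fin N →₀ ℕ, ¬ d ∣ dg e + N ∧ P = monomial e 1})

/-- The module `P_K`. -/
abbrev PKm (d : ℕ) (F : MvPolynomial (Fin N) K) : Type _ := MvPolynomial (Fin N) K ⧸ relZ d F

/-- The class of a polynomial. -/
noncomputable def brP (d : ℕ) (F : MvPolynomial (Fin N) K) :
    MvPolynomial (Fin N) K →ₗ[K] PKm d F := (relZ d F).mkQ

theorem brP_surj (d : ℕ) (F : MvPolynomial (Fin N) K) : Function.Surjective (brP d F) :=
  (relZ d F).mkQ_surjective

theorem brP_dl (d : ℕ) (F : MvPolynomial (Fin N) K) (i : Fin N) (Q : MvPolynomial (Fin N) K) :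
    brP d F (dl F i Q) = 0 :=
  (Submodule.Quotient.mk_eq_zero _).2 (Submodule.subset_span (Or.inl ⟨i, Q, rfl⟩))

theorem brP_out (d : ℕ) (F : MvPolynomial (Fin N) K) (e : Fin N →₀ ℕ) (he : ¬ d ∣ dg e + N) :
    brP d F (monomial e 1) = 0 :=
  (Submodule.Quotient.mk_eq_zero _).2 (Submodule.subset_span (Or.inr ⟨e, he, rfl⟩))

/-- Linear maps out of `P_K`. -/
theorem exists_lift (d : ℕ) (F : MvPolynomial (Fin N) K) {V : Type*} [AddCommGroup V]
    [Module K V] (c : MvPolynomial (Fin N) K →ₗ[K] V) (h₁ : ∀ i Q, c (dl F i Q) = 0)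
    (h₂ : ∀ e : Fin N →₀ ℕ, ¬ d ∣ dg e + N → c (monomial e 1) = 0) :
    ∃ c' : PKm d F →ₗ[K] V, ∀ P, c' (brP d F P) = c P := by
  have h : relZ d F ≤ LinearMap.ker c := by
    unfold relZ
    rw [Submodule.span_le]
    rintro P (⟨i, Q, rfl⟩ | ⟨e, he, rfl⟩)
    · exact h₁ i Q
    · exact h₂ e he
  exact ⟨(relZ d F).liftQ c h, fun P => (relZ d F).liftQ_apply c P⟩

end

section

variable {κ : Type u} [Field κ] {N : ℕ}

/-- The statement KEY: determinants of flat functionals with values in an extension of `K = κ(t)` in which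
`K` is algebraically closed, on independent vectors of `P_K`, are not zero. -/
def KeyHyp (d : ℕ) (F : MvPolynomial (Fin N) (RatFunc κ)) : Prop :=
  ∀ (L : Type u) (_ : Field L) (_ : Algebra (RatFunc κ) L) (DL : Derivation ℤ L L),
    (∀ x, DL (algebraMap (RatFunc κ) L x) = algebraMap (RatFunc κ) L (DK κ x)) →
    (∀ x : L, IsAlgebraic (RatFunc κ) x → x ∈ (algebraMap (RatFunc κ) L).range) →
    ∀ (V : Type) (_ : Fintype V) (_ : DecidableEq V) (c : V → PKm d F →ₗ[RatFunc κ] L)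
      (ν : Matrix V V L),
      (∀ v P, DL (c v (brP d F P)) = c v (brP d F (nb (DZ κ) F P)) +
        ∑ v', ν v v' * c v' (brP d F P)) →
      (∀ lam : V → L, (∀ x, ∑ v, lam v * c v x = 0) → lam = 0) →
      ∀ f : V → PKm d F, LinearIndependent (RatFunc κ) f →
        (Matrix.of fun v u : V => c v (f u)).det ≠ 0

end

end MPadcLZ
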