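import Pool.Agent.Lib.MP_adc574_ag_LZ.GeoMain
import Pool.Agent.Lib.MP_adc574_ag_HM.PCoreA

/-!
# JOBS MapZa, MapZb: base change

* `PDat.map`, `ok_map` (MapZa): the fields of `Ok` are polynomial identities and units. `(S.map φ).ft = S.ft.map (Polynomial.mapRingHom φ)` (`ft_map`), `(S.map φ).del = S.del.map φ` (`del_map`: `Polynomial.map_prod`), `(S.map φ).hes j = (S.hes j).map φ` (`pderiv_map`, `eval_map`: `eval (φ ∘ x) (P.map φ) = φ (eval x P)`).
  `gen`, `ann`: `Ideal.mem_map_of_mem` and `Ideal.map_span` (`Jac` is mapped to `Jac` of the image: `pderiv_map`). `Hm` of a map: the support shrinks.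
* `fk_map`: for fields `κ₀`, `κ` and `φ : κ₀ →+* κ`: `(S.map φ).FK = S.ft.map (pred φ)` (`pred` in HM/PCoreA: `(algebraMap κ[X] (RatFunc κ)).comp (Polynomial.mapRingHom φ)`).
* `isLef_comap`: `j : κ₀ →+* κ` a homomorphism of fields; `IsSing G H τ x` gives `IsSing (G.map j) (H.map j) (j τ) (j ∘ x)`. `node`: `v` over `κ₀` in the kernel: `j ∘ v = c • j ∘ x`; `x i ≠ 0` for some `i`, `c = j (v i / x i)`, so `v = (v i / x i) • x` (`j` injective). `uniq` in the same way.
* `desc_jac` (MapZb): `A` a domain, `ι : A →+* K` injective, `K` a field, `F, P` over `A`: if `P.map ι ∈ Jac (F.map ι)` then there is `a ≠ 0` with `C a * P ∈ Jac F`. Compare `MPadcGM.jac_descend` (GM/JacA.lean; use it if it applies) : `P.map ι = ∑ Q_j ∂_j (F.map ι)`; choose an additive (`Frac A`-linear) retraction `K → Frac A` (a basis of the vector space `K` over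
  `Frac A`), apply it to the coefficients of `Q_j` to get `Q_j` over `Frac A`, and clear the denominators (`IsLocalization.integerNormalization`, or a common denominator of the finitely many coefficients).
* `smooth_desc`: `R` a domain in an algebraically closed field `Ω`; `S : PDat Ω N`, `S.Ok`, `S.G`, `S.H` the images of `G`, `H`: `Jac S.ft` contains `C δ * x^e` for `dg e = M` (`gen`, `ann`): `C δ * monomial e 1 = C δ * (monomial e 1 - C ξ * ell^M) + C ξ * (C δ * ell^M)`. Over `K' = RatFunc Ω` `δ` is invertible, so `(x^e).map ∈ Jac`; `desc_jac` for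
  `ι : R[t] → RatFunc Ω` (`pred`, injective) gives `a_e ≠ 0`; `a = ∏ a_e` over the finitely many `e` with `dg e = M`; for `dg e ≥ M`, `e = e' + e''` with `dg e' = M`.
-/

set_option autoImplicit false

namespace MPadcLZ

open MvPolynomial MPadcHM

universe u

section

variable {R : Type u} [CommRing R] {R' : Type u} [CommRing R'] {N : ℕ}

/-- Base change. -/
noncomputable def PDat.map (S : PDat R N) (φ : R →+* R') : PDat R' N where
  d := S.d
  G := S.G.map φ
  H := S.H.map φ
  ell := S.ell.map φ
  J := S.J
  tau := fun j => φ (S.tau j)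
  sig := fun j i => φ (S.sig j i)
  M := S.M

private theorem mapza_eval (φ : R →+* R') (x : Fin N → R) (P : MvPolynomial (Fin N) R) :
    eval (fun i => φ (x i)) (P.map φ) = φ (eval x P) := by
  rw [eval_map]
  induction P using MvPolynomial.induction_on with
  | C a => rw [eval₂_C, eval_C]
  | add p q hp hq => rw [eval₂_add, hp, hq, map_add, map_add]
  | mul_X p i hp => rw [eval₂_mul, eval₂_X, hp, map_mul, eval_X, map_mul]

private theorem mapza_jac {A B : Type*} [CommRing A] [CommRing B] (φ : A →+* B) (F P : MvPolynomial (Fin N) A)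
    (h : P ∈ Jac F) : P.map φ ∈ Jac (F.map φ) := by
  have h1 := Ideal.mem_map_of_mem (MvPolynomial.map φ) h
  unfold Jac at h1 ⊢
  rw [Ideal.map_span] at h1
  refine Ideal.span_mono ?_ h1
  rintro _ ⟨_, ⟨i, rfl⟩, rfl⟩
  exact ⟨i, pderiv_map⟩

private theorem mapza_hm (φ : R →+* R') (m : ℕ) (P : MvPolynomial (Fin N) R) (h : Hm m P) : Hm m (P.map φ) :=
  fun e he => h e (support_map_subset φ P he)

private theorem mapza_sub (φ : R →+* R') (G H : MvPolynomial (Fin N) R) (τ : R) :
    G.map φ - C (φ τ) * H.map φ = (G - C τ * H).map φ := by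
  rw [map_sub, map_mul, map_C]

private theorem mapza_C (φ : R →+* R') (P : MvPolynomial (Fin N) R) :
    (P.map Polynomial.C).map (Polynomial.mapRingHom φ) = (P.map φ).map Polynomial.C := by
  rw [map_map, map_map, Polynomial.mapRingHom_comp_C]

theorem ft_map (S : PDat R N) (φ : R →+* R') :
    (S.map φ).ft = S.ft.map (Polynomial.mapRingHom φ) := by
  unfold PDat.ft
  rw [map_sub, map_mul, map_C, mapza_C, mapza_C, Polynomial.coe_mapRingHom, Polynomial.map_X]
  rfl

theorem del_map (S : PDat R N) (φ : R →+* R') : (S.map φ).del = S.del.map φ := by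
  unfold PDat.del
  rw [Polynomial.map_prod]
  refine Finset.prod_congr rfl fun j _ => ?_
  rw [Polynomial.map_sub, Polynomial.map_X, Polynomial.map_C]
  rfl

private theorem mapza_hes (S : PDat R N) (φ : R →+* R') (j : Fin S.J) :
    (S.map φ).hes j = (S.hes j).map φ := by
  ext a b
  show eval (fun i => φ (S.sig j i)) (pderiv a (pderiv b (S.G.map φ - C (φ (S.tau j)) * S.H.map φ))) =
    φ (eval (S.sig j) (pderiv a (pderiv b (S.G - C (S.tau j) * S.H))))
  rw [mapza_sub, pderiv_map, pderiv_map, mapza_eval]

theorem ok_map (S : PDat R N) (hS : S.Ok) (φ : R →+* R') : (S.map φ).Ok where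
  hN := hS.hN
  hd := hS.hd
  homG := mapza_hm φ _ _ hS.homG
  homH := mapza_hm φ _ _ hS.homH
  homl := mapza_hm φ _ _ hS.homl
  sep := by
    intro i j hij
    have h := (hS.sep i j hij).map φ
    rw [map_sub] at h
    exact h
  crit := by
    intro j i
    show eval (fun i => φ (S.sig j i)) (pderiv i (S.G.map φ)) =
      φ (S.tau j) * eval (fun i => φ (S.sig j i)) (pderiv i (S.H.map φ))
    rw [pderiv_map, pderiv_map, mapza_eval, mapza_eval, hS.crit j i, map_mul]
  one := by
    intro j
    show eval (fun i => φ (S.sig j i)) (S.ell.map φ) = 1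
    rw [mapza_eval, hS.one j, map_one]
  Hu := by
    intro j
    show IsUnit (eval (fun i => φ (S.sig j i)) (S.H.map φ))
    rw [mapza_eval]
    exact (hS.Hu j).map φ
  hess := by
    intro j
    obtain ⟨B, lam, hB⟩ := hS.hess j
    refine ⟨B.map φ, fun i => φ (lam i), ?_⟩
    rw [mapza_hes S φ j, ← Matrix.map_mul, hB]
    ext a b
    rw [Matrix.map_apply, Matrix.sub_apply, Matrix.sub_apply, map_sub, Matrix.vecMulVec_apply, Matrix.vecMulVec_apply, map_mul]
    refine congrArg₂ (· - ·) ?_ rfl
    rw [Matrix.one_apply, Matrix.one_apply, apply_ite φ, map_one, map_zero]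
  gen := by
    intro e he
    obtain ⟨xi, hxi⟩ := hS.gen e he
    refine ⟨xi.map φ, ?_⟩
    have h := mapza_jac (Polynomial.mapRingHom φ) _ _ hxi
    rw [← ft_map, map_sub, map_mul, map_pow, map_C, mapza_C, map_monomial, map_one, Polynomial.coe_mapRingHom] at h
    exact h
  ann := by
    have h := mapza_jac (Polynomial.mapRingHom φ) _ _ hS.ann
    rw [← ft_map, map_mul, map_pow, map_C, mapza_C, Polynomial.coe_mapRingHom, ← del_map] at h
    exact h

theorem smH_map (S : PDat R N) (hS : S.SmH) (φ : R →+* R') : (S.map φ).SmH := by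
  intro e he
  have h := mapza_jac φ _ _ (hS e he)
  rw [map_monomial, map_one] at h
  exact h

end

section

variable {κ₀ κ : Type u} [Field κ₀] [Field κ] {N : ℕ}

theorem fk_map (S : PDat κ₀ N) (φ : κ₀ →+* κ) : (S.map φ).FK = S.ft.map (pred φ) := by
  unfold PDat.FK pred
  rw [ft_map, map_map]

private theorem mapza_sing (j : κ₀ →+* κ) {G H : MvPolynomial (Fin N) κ₀} {τ : κ₀} {x : Fin N → κ₀}
    (h : IsSing G H τ x) : IsSing (G.map j) (H.map j) (j τ) (fun i => j (x i)) := by
  refine ⟨?_, ?_⟩
  · intro h0
    apply h.1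
    funext i
    have h1 : j (x i) = 0 := congrFun h0 i
    exact (map_eq_zero j).mp h1
  · intro i
    rw [pderiv_map, pderiv_map, mapza_eval, mapza_eval, h.2 i, map_mul]

private theorem mapza_smul (j : κ₀ →+* κ) {x v : Fin N → κ₀} (hx : x ≠ 0) (c : κ)
    (hc : (fun i => j (v i)) = c • (fun i => j (x i))) : ∃ c : κ₀, v = c • x := by
  obtain ⟨i, hi⟩ := Function.ne_iff.mp hx
  have hi0 : x i ≠ 0 := hi
  have h1 : j (v i) = c * j (x i) := congrFun hc i
  have hji : j (x i) ≠ 0 := fun h => hi0 ((map_eq_zero j).mp h)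
  refine ⟨v i / x i, ?_⟩
  funext k
  apply j.injective
  have h2 : j (v k) = c * j (x k) := congrFun hc k
  rw [h2, Pi.smul_apply, smul_eq_mul, map_mul, map_div₀, h1, mul_div_cancel_right₀ _ hji]

theorem isLef_comap (j : κ₀ →+* κ) {G H : MvPolynomial (Fin N) κ₀}
    (h : IsLef (G.map j) (H.map j)) : IsLef G H where
  base := by
    intro τ x hx h0
    apply h.base _ _ (mapza_sing j hx)
    rw [mapza_eval, h0, map_zero]
  node := by
    intro τ x hx v hv
    obtain ⟨c, hc⟩ := h.node _ _ (mapza_sing j hx) (fun i => j (v i)) (by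
      intro a
      have h1 := congrArg j (hv a)
      rw [map_sum, map_zero] at h1
      rw [← h1]
      refine Finset.sum_congr rfl fun b _ => ?_
      rw [map_mul, mapza_sub, pderiv_map, pderiv_map, mapza_eval])
    exact mapza_smul j hx.1 c hc
  uniq := by
    intro τ x y hx hy
    obtain ⟨c, hc⟩ := h.uniq _ _ _ (mapza_sing j hx) (mapza_sing j hy)
    exact mapza_smul j hx.1 c hc

theorem smooth_comap (j : κ₀ →+* κ) {H : MvPolynomial (Fin N) κ₀}
    (h : ∀ x, (∀ i, eval x (pderiv i (H.map j)) = 0) → x = 0) :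
    ∀ x, (∀ i, eval x (pderiv i H) = 0) → x = 0 := by
  intro x hx
  have h1 := h (fun i => j (x i)) (by
    intro i
    rw [pderiv_map, mapza_eval, hx i, map_zero])
  funext i
  have h2 : j (x i) = 0 := congrFun h1 i
  exact (map_eq_zero j).mp h2

end

section

variable {N : ℕ}

private noncomputable def mapzb_retr {K k : Type*} [Field K] [Field k] [Algebra K k]
    (π : k →ₗ[K] K) {m : ℕ} (q : MvPolynomial (Fin m) k) : MvPolynomial (Fin m) K :=
  ∑ d ∈ q.support, monomial d (π (q.coeff d))

private theorem mapzb_coeff {K k : Type*} [Field K] [Field k] [Algebra K k] (π : k →ₗ[K] K)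
    {m : ℕ} (q : MvPolynomial (Fin m) k) (d : Fin m →₀ ℕ) :
    (mapzb_retr π q).coeff d = π (q.coeff d) := by
  classical
  unfold mapzb_retr
  rw [MvPolynomial.coeff_sum]
  simp only [MvPolynomial.coeff_monomial]
  rw [Finset.sum_ite_eq']
  split_ifs with h
  · rfl
  · rw [MvPolynomial.notMem_support_iff.1 h, map_zero]

/-- Membership in an ideal generated over the smaller field descends. -/
private theorem mapzb_field {K k : Type*} [Field K] [Field k] [Algebra K k] {m : ℕ} {ι : Type*}
    [Fintype ι] (v : ι → MvPolynomial (Fin m) K) (P : MvPolynomial (Fin m) K)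
    (h : map (algebraMap K k) P ∈
      Ideal.span (Set.range fun j => map (algebraMap K k) (v j))) :
    P ∈ Ideal.span (Set.range v) := by
  classical
  obtain ⟨π, hπ⟩ := LinearMap.exists_leftInverse_of_injective (Algebra.linearMap K k)
    (LinearMap.ker_eq_bot.2 (algebraMap K k).injective)
  have hπ' : ∀ a : K, π (algebraMap K k a) = a := fun a => by
    have := LinearMap.congr_fun hπ a
    simpa using this
  rw [Ideal.mem_span_range_iff_exists_fun] at h ⊢
  obtain ⟨c, hc⟩ := h
  refine ⟨fun j => mapzb_retr π (c j), ?_⟩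
  apply MvPolynomial.ext
  intro d
  have h1 := congrArg (fun q => π (q.coeff d)) hc
  simp only [MvPolynomial.coeff_map, hπ'] at h1
  rw [← h1, MvPolynomial.coeff_sum, MvPolynomial.coeff_sum, map_sum]
  apply Finset.sum_congr rfl
  intro j _
  rw [MvPolynomial.coeff_mul, MvPolynomial.coeff_mul, map_sum]
  apply Finset.sum_congr rfl
  intro x _
  rw [mapzb_coeff, MvPolynomial.coeff_map, mul_comm (coeff x.1 (c j)), ← Algebra.smul_def,
    map_smul, smul_eq_mul, mul_comm]

/-- Clearing denominators. -/
private theorem mapzb_clear {A K : Type*} [CommRing A] [IsDomain A] [Field K] [Algebra A K]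
    [IsFractionRing A K] {m : ℕ} (I : Ideal (MvPolynomial (Fin m) A)) (P : MvPolynomial (Fin m) A)
    (h : map (algebraMap A K) P ∈ Ideal.map (map (algebraMap A K)) I) :
    ∃ a : A, a ≠ 0 ∧ C a * P ∈ I := by
  let : Algebra (MvPolynomial (Fin m) A) (MvPolynomial (Fin m) K) := algebraMvPolynomial
  have hloc : IsLocalization ((nonZeroDivisors A).map (C : A →+* MvPolynomial (Fin m) A))
      (MvPolynomial (Fin m) K) := MvPolynomial.isLocalization _ _
  have h' : algebraMap (MvPolynomial (Fin m) A) (MvPolynomial (Fin m) K) P ∈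
      Ideal.map (algebraMap (MvPolynomial (Fin m) A) (MvPolynomial (Fin m) K)) I := h
  rw [IsLocalization.mem_map_algebraMap_iff
    ((nonZeroDivisors A).map (C : A →+* MvPolynomial (Fin m) A))] at h'
  obtain ⟨⟨x, s⟩, hx⟩ := h'
  obtain ⟨a, ha, has⟩ := s.2
  refine ⟨a, nonZeroDivisors.ne_zero ha, ?_⟩
  rw [← map_mul] at hx
  have hinj : Function.Injective
      (algebraMap (MvPolynomial (Fin m) A) (MvPolynomial (Fin m) K)) :=
    MvPolynomial.map_injective _ (IsFractionRing.injective A K)
  have h2 := hinj hx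
  have h3 : C a * P = (x : MvPolynomial (Fin m) A) := by
    rw [mul_comm, ← h2]
    exact congrArg (P * ·) has
  rw [h3]
  exact x.2

theorem desc_jac {A : Type*} [CommRing A] [IsDomain A] {K : Type*} [Field K] (ι : A →+* K)
    (hι : Function.Injective ι) (F P : MvPolynomial (Fin N) A) (h : P.map ι ∈ Jac (F.map ι)) :
    ∃ a : A, a ≠ 0 ∧ C a * P ∈ Jac F := by
  let : Algebra A K := ι.toAlgebra
  have hinj : Function.Injective (algebraMap A K) := hι
  let ψ : FractionRing A →+* K := IsFractionRing.lift hinj
  let : Algebra (FractionRing A) K := ψ.toAlgebra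
  have hψ : (algebraMap (FractionRing A) K).comp (algebraMap A (FractionRing A)) = ι := by
    apply RingHom.ext
    intro x
    exact IsFractionRing.lift_algebraMap hinj x
  have h1 : map (algebraMap (FractionRing A) K) (map (algebraMap A (FractionRing A)) P) ∈
      Ideal.span (Set.range fun j => map (algebraMap (FractionRing A) K)
        (map (algebraMap A (FractionRing A)) (pderiv j F))) := by
    have h2 : (fun j => map (algebraMap (FractionRing A) K)
        (map (algebraMap A (FractionRing A)) (pderiv j F))) =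
        fun j => pderiv j (F.map ι) := by
      funext j
      rw [map_map, hψ, pderiv_map]
    rw [h2, map_map, hψ]
    exact h
  have h3 := mapzb_field _ _ h1
  have h4 : map (algebraMap A (FractionRing A)) P ∈
      Ideal.map (map (algebraMap A (FractionRing A)))
        (Ideal.span (Set.range fun j : Fin N => pderiv j F)) := by
    rw [Ideal.map_span, ← Set.range_comp]
    exact h3
  exact mapzb_clear _ _ h4

/-- A monomial of large degree is divisible by a monomial of degree `M`. -/
private theorem mapzb_le (M : ℕ) : ∀ (k : ℕ) (e : Fin N →₀ ℕ), dg e = M + k →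
    ∃ e' ≤ e, dg e' = M := by
  intro k
  induction k with
  | zero => intro e he; exact ⟨e, le_refl _, he⟩
  | succ k ih =>
    intro e he
    have h0 : ∃ i, e i ≠ 0 := by
      by_contra hc
      push Not at hc
      have : dg e = 0 := Finset.sum_eq_zero fun i _ => hc i
      omega
    obtain ⟨i, hi⟩ := h0
    have hle : Finsupp.single i 1 ≤ e := by
      rw [Finsupp.single_le_iff]
      omega
    have hdg : dg (e - Finsupp.single i 1) = M + k := by
      have h1 : e - Finsupp.single i 1 + Finsupp.single i 1 = e := tsub_add_cancel_of_le hle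
      have h2 : dg e = dg (e - Finsupp.single i 1) + 1 := by
        conv_lhs => rw [← h1]
        unfold dg
        simp only [Finsupp.add_apply]
        rw [Finset.sum_add_distrib]
        congr 1
        rw [Finset.sum_eq_single i]
        · rw [Finsupp.single_eq_same]
        · intro b _ hb
          rw [Finsupp.single_apply, if_neg (Ne.symm hb)]
        · intro h
          exact absurd (Finset.mem_univ i) h
      omega
    obtain ⟨e', he', hM⟩ := ih _ hdg
    exact ⟨e', he'.trans tsub_le_self, hM⟩

/-- The Jacobian ideal is mapped into the Jacobian ideal of the image. -/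
private theorem mapzb_jac {A B : Type*} [CommRing A] [CommRing B] (φ : A →+* B)
    {F P : MvPolynomial (Fin N) A} (h : P ∈ Jac F) : P.map φ ∈ Jac (F.map φ) := by
  have h1 := Ideal.mem_map_of_mem (MvPolynomial.map (σ := Fin N) φ) h
  unfold Jac at h1 ⊢
  rw [Ideal.map_span, ← Set.range_comp] at h1
  have h2 : (MvPolynomial.map φ ∘ fun j : Fin N => pderiv j F) = fun j => pderiv j (F.map φ) := by
    funext j
    rw [Function.comp_apply, pderiv_map]
  rw [h2] at h1
  exact h1

theorem smooth_desc {R : Type u} [CommRing R] [IsDomain R] {Ω : Type u} [Field Ω] (j : R →+* Ω)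
    (hj : Function.Injective j) (G H : MvPolynomial (Fin N) R) (S : PDat Ω N) (hS : S.Ok)
    (hG : S.G = G.map j) (hH : S.H = H.map j) :
    ∃ (a : Polynomial R) (M : ℕ), a ≠ 0 ∧ ∀ e : Fin N →₀ ℕ, M ≤ dg e →
      C a * monomial e 1 ∈ Jac (G.map Polynomial.C - C Polynomial.X * H.map Polynomial.C) := by
  classical
  have hφ : Function.Injective (pred j) :=
    (RatFunc.algebraMap_injective Ω).comp (Polynomial.map_injective j hj)
  have hC : (pred j).comp Polynomial.C =
      ((algebraMap (Polynomial Ω) (RatFunc Ω)).comp Polynomial.C).comp j := by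
    apply RingHom.ext
    intro r
    rw [RingHom.comp_apply, RingHom.comp_apply, RingHom.comp_apply, pred, RingHom.comp_apply,
      Polynomial.coe_mapRingHom, Polynomial.map_C]
  have hX : pred j Polynomial.X = algebraMap (Polynomial Ω) (RatFunc Ω) Polynomial.X := by
    rw [pred, RingHom.comp_apply, Polynomial.coe_mapRingHom, Polynomial.map_X]
  have hF : (G.map Polynomial.C - C Polynomial.X * H.map Polynomial.C :
      MvPolynomial (Fin N) (Polynomial R)).map (pred j) =
      S.ft.map (algebraMap (Polynomial Ω) (RatFunc Ω)) := by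
    rw [PDat.ft, hG, hH]
    simp only [map_sub, map_mul, map_C, map_map]
    rw [hC, hX, RingHom.comp_assoc]
  have hdel : algebraMap (Polynomial Ω) (RatFunc Ω) S.del ≠ 0 := by
    rw [Ne, map_eq_zero_iff _ (RatFunc.algebraMap_injective Ω)]
    exact Finset.prod_ne_zero_iff.2 fun i _ => Polynomial.X_sub_C_ne_zero _
  have hK : ∀ e : Fin N →₀ ℕ, dg e = S.M → monomial e (1 : RatFunc Ω) ∈
      Jac ((G.map Polynomial.C - C Polynomial.X * H.map Polynomial.C :
        MvPolynomial (Fin N) (Polynomial R)).map (pred j)) := by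
    intro e he
    obtain ⟨xi, hxi⟩ := hS.gen e he
    have h1 : C S.del * monomial e 1 ∈ Jac S.ft := by
      have h2 := add_mem (Ideal.mul_mem_left _ (C S.del) hxi)
        (Ideal.mul_mem_left _ (C xi) hS.ann)
      have h3 : C S.del * (monomial e 1 - C xi * S.ell.map Polynomial.C ^ S.M) +
          C xi * (C S.del * S.ell.map Polynomial.C ^ S.M) = C S.del * monomial e 1 := by
        ring
      rw [h3] at h2
      exact h2
    have h4 := mapzb_jac (algebraMap (Polynomial Ω) (RatFunc Ω)) h1
    rw [map_mul, map_C, map_monomial, map_one] at h4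
    have h5 := Ideal.mul_mem_left _ (C (algebraMap (Polynomial Ω) (RatFunc Ω) S.del)⁻¹) h4
    rw [← mul_assoc, ← C_mul, inv_mul_cancel₀ hdel, C_1, one_mul] at h5
    rw [hF]
    exact h5
  have hA : ∀ e : Fin N →₀ ℕ, ∃ a : Polynomial R, a ≠ 0 ∧ (dg e = S.M →
      C a * monomial e 1 ∈ Jac (G.map Polynomial.C - C Polynomial.X * H.map Polynomial.C)) := by
    intro e
    by_cases he : dg e = S.M
    · obtain ⟨a, ha, ha'⟩ := desc_jac (pred j) hφ
        (G.map Polynomial.C - C Polynomial.X * H.map Polynomial.C) (monomial e 1) (by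
          rw [map_monomial, map_one]
          exact hK e he)
      exact ⟨a, ha, fun _ => ha'⟩
    · exact ⟨1, one_ne_zero, fun h => absurd h he⟩
  choose a ha ha' using hA
  refine ⟨∏ e ∈ Finset.finsuppAntidiag (Finset.univ : Finset (Fin N)) S.M, a e, S.M,
    Finset.prod_ne_zero_iff.2 fun e _ => ha e, ?_⟩
  intro e he
  obtain ⟨e', hle, he'⟩ := mapzb_le S.M (dg e - S.M) e (by omega)
  have hmem : e' ∈ Finset.finsuppAntidiag (Finset.univ : Finset (Fin N)) S.M := by
    rw [Finset.mem_finsuppAntidiag]
    exact ⟨he', Finset.subset_univ _⟩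
  have h1 : (monomial e (1 : Polynomial R)) = monomial (e - e') 1 * monomial e' 1 := by
    rw [monomial_mul, one_mul, tsub_add_cancel_of_le hle]
  rw [← Finset.mul_prod_erase _ _ hmem, C_mul, h1]
  have h2 : C (a e') * C (∏ x ∈ (Finset.finsuppAntidiag (Finset.univ : Finset (Fin N)) S.M).erase e',
      a x) * (monomial (e - e') 1 * monomial e' 1) =
      (C (∏ x ∈ (Finset.finsuppAntidiag (Finset.univ : Finset (Fin N)) S.M).erase e', a x) *
        monomial (e - e') 1) * (C (a e') * monomial e' 1) := by
    ring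
  rw [h2]
  exact Ideal.mul_mem_left _ _ (ha' e' he')

end

end MPadcLZ
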