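import Pool.Agent.Lib.MP_adc574_ag_LZ.KeyZ
import Pool.Agent.Lib.MP_adc574_ag_LZ.MapZ

/-!
# JOB FinZ: the statement KEY and smoothness for Lefschetz pencils over a domain

`R` a domain of characteristic 0, `j : R →+* Ω` injective, `Ω` algebraically closed, `G`, `H` over `R` homogeneous of degree `d`, `H` smooth and `G - t H` Lefschetz over `Ω`.
* `key_final`: let `F₀ = FractionRing R`; `Ω` and `κ` are algebras over `F₀` (`IsFractionRing.lift`, `RingHom.toAlgebra`), `Q = algebraicClosure F₀ Ω` (an intermediate field; algebraically closed: `(algebraicClosure.isAlgClosure F₀ Ω).isAlgClosed`, as in `isDomain_tensor`, HM/RegC.lean; `Algebra.IsAlgebraic F₀ Q`). `IsAlgClosed.lift : Q →ₐ[F₀] κ`.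
  `G`, `H` over `Q`: `G.map j₀`, `j₀ : R →+* Q`. `isLef_comap`, `smooth_comap` for `Q → Ω`; `exists_jac` gives `M₀`, `exists_pdat` with this `M₀` gives `S : PDat Q N`, `S.Ok`, `S.SmH`. With `φ : Q →+* κ`: `ok_map`, `smH_map`, `key_lef` for `S.map φ`; `(S.map φ).FK = S.ft.map (pred φ)` (`fk_map`) is `(G.map C - C X * H.map C).map (pred ρ)` because `φ ∘ j₀ = ρ`
  (`map_map`; the ring homomorphisms agree on constants and on `X`; `Polynomial.ringHom_ext`).
* `smooth_final`: `exists_pdat` over `Ω` and `smooth_desc`.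
-/

set_option autoImplicit false

namespace MPadcLZ

open MvPolynomial MPadcHM

universe u

variable {R : Type u} [CommRing R] [IsDomain R] [CharZero R] {N d : ℕ}

omit [IsDomain R] [CharZero R] in
private theorem finz_hm {R' : Type*} [CommRing R'] (φ : R →+* R') {P : MvPolynomial (Fin N) R}
    (h : Hm d P) : Hm d (P.map φ) := by
  intro e he
  exact h e (support_map_subset _ _ he)

omit [IsDomain R] [CharZero R] in
private theorem finz_ft {Q κ : Type u} [Field Q] [Field κ] (j₀ : R →+* Q) (φ : Q →+* κ)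
    (ρ : R →+* κ) (h : φ.comp j₀ = ρ) (G H : MvPolynomial (Fin N) R) :
    ((G.map j₀).map Polynomial.C - C Polynomial.X * (H.map j₀).map Polynomial.C).map (pred φ) =
      (G.map Polynomial.C - C Polynomial.X * H.map Polynomial.C).map (pred ρ) := by
  have h1 : ((pred φ).comp Polynomial.C).comp j₀ = (pred ρ).comp Polynomial.C := by
    apply RingHom.ext
    intro r
    rw [RingHom.comp_apply, RingHom.comp_apply, RingHom.comp_apply, pred_C, pred_C, ← h,
      RingHom.comp_apply]
  have h2 : ∀ P : MvPolynomial (Fin N) R, ((P.map j₀).map Polynomial.C).map (pred φ) =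
      (P.map Polynomial.C).map (pred ρ) := by
    intro P
    rw [map_map, map_map, map_map, ← h1, RingHom.comp_assoc]
  rw [map_sub, map_sub, map_mul, map_mul, map_C, map_C, h2, h2, pred_X, pred_X]

theorem key_final (hN : 3 ≤ N) (hd : 3 ≤ d) (G H : MvPolynomial (Fin N) R) (hG : Hm d G)
    (hH : Hm d H) {Ω : Type u} [Field Ω] [IsAlgClosed Ω] (j : R →+* Ω)
    (hj : Function.Injective j) (hs : ∀ x, (∀ i, eval x (pderiv i (H.map j)) = 0) → x = 0)
    (hL : IsLef (G.map j) (H.map j)) {κ : Type u} [Field κ] [CharZero κ] [IsAlgClosed κ]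
    (ρ : R →+* κ) (hρ : Function.Injective ρ) :
    KeyHyp d ((G.map Polynomial.C - C Polynomial.X * H.map Polynomial.C).map (pred ρ)) := by
  classical
  let a₁ : FractionRing R →+* Ω := IsFractionRing.lift hj
  let a₂ : FractionRing R →+* κ := IsFractionRing.lift hρ
  let : Algebra (FractionRing R) Ω := a₁.toAlgebra
  let : Algebra (FractionRing R) κ := a₂.toAlgebra
  let Q := algebraicClosure (FractionRing R) Ω
  have hQ : IsAlgClosed Q :=
    (algebraicClosure.isAlgClosure (FractionRing R) Ω).isAlgClosed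
  have hQa : Algebra.IsAlgebraic (FractionRing R) Q :=
    (algebraicClosure.isAlgClosure (FractionRing R) Ω).isAlgebraic
  have hczΩ : CharZero Ω := charZero_of_injective_ringHom hj
  have hczQ : CharZero Q := (algebraMap Q Ω).charZero
  let φ : Q →ₐ[FractionRing R] κ := IsAlgClosed.lift
  let j₀ : R →+* Q := (algebraMap (FractionRing R) Q).comp (algebraMap R (FractionRing R))
  have hij : (algebraMap Q Ω).comp j₀ = j := by
    apply RingHom.ext
    intro r
    have h1 : (algebraMap Q Ω) (j₀ r) = a₁ (algebraMap R (FractionRing R) r) := rfl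
    rw [RingHom.comp_apply, h1]
    exact IsFractionRing.lift_algebraMap hj r
  have hφ : (φ : Q →+* κ).comp j₀ = ρ := by
    apply RingHom.ext
    intro r
    have h1 : (φ : Q →+* κ) (j₀ r) = a₂ (algebraMap R (FractionRing R) r) :=
      φ.commutes (algebraMap R (FractionRing R) r)
    rw [RingHom.comp_apply, h1]
    exact IsFractionRing.lift_algebraMap hρ r
  have hmap : ∀ P : MvPolynomial (Fin N) R, (P.map j₀).map (algebraMap Q Ω) = P.map j := by
    intro P
    rw [map_map, hij]
  have hLQ : IsLef (G.map j₀) (H.map j₀) := by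
    refine isLef_comap (algebraMap Q Ω) ?_
    rw [hmap, hmap]
    exact hL
  have hsQ : ∀ x, (∀ i, eval x (pderiv i (H.map j₀)) = 0) → x = 0 := by
    refine smooth_comap (algebraMap Q Ω) ?_
    rw [hmap]
    exact hs
  obtain ⟨M₀, hM₀⟩ := exists_jac (H.map j₀) hsQ
  obtain ⟨S, hSd, hSG, hSH, hSM, hS⟩ := exists_pdat hN hd (G.map j₀) (H.map j₀)
    (finz_hm j₀ hG) (finz_hm j₀ hH) hLQ M₀
  have hSm : S.SmH := by
    intro e he
    rw [hSH]
    exact hM₀ e (hSM.trans he)
  have h1 := key_lef (S.map (φ : Q →+* κ)) (ok_map S hS _) (smH_map S hSm _)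
  rw [fk_map] at h1
  have h2 : (S.map (φ : Q →+* κ)).d = d := hSd
  rw [h2, PDat.ft, hSG, hSH, finz_ft j₀ (φ : Q →+* κ) ρ hφ] at h1
  exact h1

theorem smooth_final (hN : 3 ≤ N) (hd : 3 ≤ d) (G H : MvPolynomial (Fin N) R) (hG : Hm d G)
    (hH : Hm d H) {Ω : Type u} [Field Ω] [IsAlgClosed Ω] (j : R →+* Ω)
    (hj : Function.Injective j) (hL : IsLef (G.map j) (H.map j)) :
    ∃ (a : Polynomial R) (M : ℕ), a ≠ 0 ∧ ∀ e : Fin N →₀ ℕ, M ≤ dg e →
      C a * monomial e 1 ∈ Jac (G.map Polynomial.C - C Polynomial.X * H.map Polynomial.C) := by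
  have hczΩ : CharZero Ω := charZero_of_injective_ringHom hj
  obtain ⟨S, _, hSG, hSH, _, hS⟩ := exists_pdat hN hd (G.map j) (H.map j)
    (finz_hm j hG) (finz_hm j hH) hL 0
  exact smooth_desc j hj G H S hS hSG hSH

end MPadcLZ
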