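import Pool.Agent.Lib.MP_adc574_ag_LZ.Intf

/-!
# JOB LatF: the abstract step of the lattice data

`hl` is the Leibniz rule for polynomials. `Epl hl E = {x ∈ E | nab x ∈ E}`.
* `ld_step` (`α ≠ 0`, `δ`, `δ'` coprime). For `x ∈ E` let `nab x - p • u ∈ E`. Choose `c` with `δ ∣ p - c α δ'` (Bezout: `a δ + b δ' = 1`, `c = α⁻¹ b p`). Then `y = x - c • (δ • u) ∈ E` and `nab y = nab x - c' • (δ u) - c • nab (δ u)`, modulo `E`
  (`δ u ∈ E`, `nab (δ u) = α δ' u` mod `E`) it is `(p - c α δ') • u = r • (δ • u) ∈ E`: so `y ∈ Epl E`. This is the last statement (`E = E⁺ + κ[t] δ u`).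
  LD of `(E⁺, δ u, α + 1)`: `fg`: a submodule of a finitely generated module over the noetherian ring `κ[t]` (`E⁺ ≤ E`; `Submodule.FG` of `E` makes `E` a noetherian module; `isNoetherian_of_fg_of_noetherian`); `spn`: `δ • E ≤ E⁺` (`x ∈ E`: `nab (δ x) = δ' x + δ nab x`, `δ nab x = δ e + p • (δ u) ∈ E`);
  `nabE`: `x ∈ E⁺`: `z = nab x ∈ E`, the last statement for `z`: `z - c • (δ u) ∈ E⁺`. `delu`: `δ • (δ • u) ∈ δ • E ≤ E⁺`. `res`: `nab (δ • (δ • u)) - (α + 1) δ' • (δ • u) = δ • (nab (δ u) - α δ' • u)` (Leibniz), in `δ • E ≤ E⁺`.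
* `near_step`: `q • u ∈ E`, `q(τ) ≠ 0`: `q^2 • (δ • u) ∈ E⁺`: in `E` clear; `nab (q^2 • (δ u)) = 2 q q' • (δ u) + q^2 • nab (δ u)`, `nab (δ u) = α δ' u + e`.
* `stab_near` (`α ≠ 0`, `δ'(τ) ≠ 0`): `nab (δ u)` is near in `E` (stability), so `(α δ') • u` is near in `E`.
* `stab_iter`: `NearIn E τ y → NearIn E τ (nab y)`: `q • y ∈ E`, `nab (q • y) = q' • y + q • nab y` near in `E`: `q1 • nab (q y) ∈ E`, so `(q q1 q) • nab y = q • (q1 • nab (q y)) - (q1 q') • (q • y) ∈ E`.
* `dd_top`: `E ≤ T`, `T` closed: `u ∈ T`. If `δ(τ) ≠ 0`: `δ • u ∈ E ≤ T`, saturated. If `NearIn E τ u`: the same. If `E` is not stable at `τ`: there is `x ∈ E` with `nab x` not near in `E`; `nab x - p • u ∈ E`; if `p(τ) ≠ 0` then `p • u ∈ T`, `u ∈ T`. If `p(τ) = 0`: `p = (X - C τ) p1` and (`δ(τ) = 0`)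
  `δ = (X - C τ) δ1`, `δ1(τ) ≠ 0` (`δ'(τ) ≠ 0`): `δ1 • (p • u) = p1 • (δ • u) ∈ E`, so `p • u` and `nab x` would be near in `E`: contradiction.
* `ld_iter`: induction on `m` with `ld_step`, `near_step`. The last property (descent): from `E' ≤ T`, `del ^ m • u ∈ T` get `E ≤ T`: one step: `E⁺ ≤ T`, `δ u⁺..`: if `E⁺ ≤ T` and `δ • u ∈ T` then `E ≤ T` (last statement of `ld_step`), and `u ∈ T`: if `δ(τ) ≠ 0` by saturation; otherwise `δ'(τ) ≠ 0` (coprime) and
  `nab (δ u) ∈ T`, `nab (δ u) - (α δ') • u ∈ E ≤ T`, so `(α δ') • u ∈ T`, `u ∈ T`.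
-/

set_option autoImplicit false

namespace MPadcLZ

open MvPolynomial MPadcHM

universe u

variable {κ : Type u} [Field κ] {Mo : Type u} [AddCommGroup Mo] [Module (RatFunc κ) Mo]
  [Module (Polynomial κ) Mo] [IsScalarTower (Polynomial κ) (RatFunc κ) Mo] {nab : Mo →+ Mo}
  (hl : ∀ (c : Polynomial κ) (x : Mo), nab (c • x) = Polynomial.derivative c • x + c • nab x)
  {del : Polynomial κ} {E : Submodule (Polynomial κ) Mo} {u : Mo} {al : κ}

/-- `{x ∈ E | nab x ∈ E}`. -/
def Epl (E : Submodule (Polynomial κ) Mo) : Submodule (Polynomial κ) Mo where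
  carrier := {x | x ∈ E ∧ nab x ∈ E}
  zero_mem' := ⟨E.zero_mem, by rw [map_zero]; exact E.zero_mem⟩
  add_mem' := fun hx hy => ⟨E.add_mem hx.1 hy.1, by rw [map_add]; exact E.add_mem hx.2 hy.2⟩
  smul_mem' := fun c x hx => ⟨E.smul_mem c hx.1, by
    rw [hl]
    exact E.add_mem (E.smul_mem _ hx.1) (E.smul_mem _ hx.2)⟩

theorem mem_Epl {x : Mo} : x ∈ Epl hl E ↔ x ∈ E ∧ nab x ∈ E := Iff.rfl

include hl

theorem ld_step (hL : LD nab del E u al) (hal : al ≠ 0)
    (hcop : IsCoprime del (Polynomial.derivative del)) :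
    LD nab del (Epl hl E) (del • u) (al + 1) ∧
      ∀ x ∈ E, ∃ c : Polynomial κ, x - c • (del • u) ∈ Epl hl E := by
  have hd0 : del ≠ 0 := by
    intro h0
    rw [h0] at hcop
    rw [Polynomial.derivative_zero] at hcop
    exact not_isCoprime_zero_zero hcop
  have hdel : ∀ x ∈ E, del • x ∈ Epl hl E := by
    intro x hx
    refine ⟨E.smul_mem _ hx, ?_⟩
    rw [hl]
    obtain ⟨p, hp⟩ := hL.nabE x hx
    have e : del • nab x = del • (nab x - p • u) + p • (del • u) := by
      rw [smul_sub, smul_comm p del u, sub_add_cancel]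
    rw [e]
    exact E.add_mem (E.smul_mem _ hx) (E.add_mem (E.smul_mem _ hp) (E.smul_mem _ hL.delu))
  have hlast : ∀ x ∈ E, ∃ c : Polynomial κ, x - c • (del • u) ∈ Epl hl E := by
    intro x hx
    obtain ⟨p, hp⟩ := hL.nabE x hx
    obtain ⟨a, b, hab⟩ := hcop
    refine ⟨Polynomial.C al⁻¹ * b * p, E.sub_mem hx (E.smul_mem _ hL.delu), ?_⟩
    have hC : (Polynomial.C al⁻¹ * Polynomial.C al : Polynomial κ) = 1 := by
      rw [← Polynomial.C_mul, inv_mul_cancel₀ hal, Polynomial.C_1]
    have hpoly : p - (Polynomial.C al⁻¹ * b * p) * (Polynomial.C al * Polynomial.derivative del) = (p * a) * del := by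
      have h1 : (Polynomial.C al⁻¹ * b * p) * (Polynomial.C al * Polynomial.derivative del) =
          (Polynomial.C al⁻¹ * Polynomial.C al) * (p * (b * Polynomial.derivative del)) := by ring
      rw [h1, hC, one_mul]
      have h2 : b * Polynomial.derivative del = 1 - a * del := by
        rw [← hab]; ring
      rw [h2]; ring
    have hpu : (p - (Polynomial.C al⁻¹ * b * p) * (Polynomial.C al * Polynomial.derivative del)) • u ∈ E := by
      rw [hpoly, mul_smul]
      exact E.smul_mem _ hL.delu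
    have e : nab (x - (Polynomial.C al⁻¹ * b * p) • (del • u)) =
        (nab x - p • u) - Polynomial.derivative (Polynomial.C al⁻¹ * b * p) • (del • u)
          - (Polynomial.C al⁻¹ * b * p) • (nab (del • u) - (Polynomial.C al * Polynomial.derivative del) • u)
          + (p - (Polynomial.C al⁻¹ * b * p) * (Polynomial.C al * Polynomial.derivative del)) • u := by
      rw [map_sub, hl, smul_sub, sub_smul, mul_smul (Polynomial.C al⁻¹ * b * p)]
      abel
    rw [e]
    exact E.add_mem (E.sub_mem (E.sub_mem hp (E.smul_mem _ hL.delu)) (E.smul_mem _ hL.res)) hpu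
  refine ⟨⟨?_, ?_, ?_, ?_, ?_⟩, hlast⟩
  · have hN : IsNoetherian (Polynomial κ) E := isNoetherian_of_fg_of_noetherian E hL.fg
    exact isNoetherian_submodule.1 hN (Epl hl E) (fun x hx => hx.1)
  · intro x
    obtain ⟨q, hq, hqx⟩ := hL.spn x
    refine ⟨del * q, mul_ne_zero hd0 hq, ?_⟩
    rw [mul_smul]
    exact hdel _ hqx
  · intro x hx
    exact hlast _ hx.2
  · exact hdel _ hL.delu
  · have e : nab (del • (del • u)) - (Polynomial.C (al + 1) * Polynomial.derivative del) • (del • u) =
        del • (nab (del • u) - (Polynomial.C al * Polynomial.derivative del) • u) := by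
      rw [hl, Polynomial.C_add, Polynomial.C_1, add_mul, one_mul, add_smul, smul_sub,
        smul_comm del (Polynomial.C al * Polynomial.derivative del) u]
      abel
    rw [e]
    exact hdel _ hL.res

theorem near_step (hL : LD nab del E u al) {τ : κ} (h : NearIn E τ u) :
    NearIn (Epl hl E) τ (del • u) := by
  obtain ⟨q, hq, hqu⟩ := h
  refine ⟨q ^ 2, ?_, E.smul_mem _ hL.delu, ?_⟩
  · rw [Polynomial.eval_pow]
    exact pow_ne_zero 2 hq
  · rw [hl]
    have e : (q ^ 2) • nab (del • u) = (q ^ 2) • (nab (del • u) - (Polynomial.C al * Polynomial.derivative del) • u)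
        + (q * (Polynomial.C al * Polynomial.derivative del)) • (q • u) := by
      rw [smul_sub, ← mul_smul, ← mul_smul]
      have h1 : q ^ 2 * (Polynomial.C al * Polynomial.derivative del) =
          q * (Polynomial.C al * Polynomial.derivative del) * q := by ring
      rw [h1, sub_add_cancel]
    rw [e]
    exact E.add_mem (E.smul_mem _ hL.delu) (E.add_mem (E.smul_mem _ hL.res) (E.smul_mem _ hqu))

theorem stab_near (hL : LD nab del E u al) (hal : al ≠ 0) {τ : κ}
    (hτ : (Polynomial.derivative del).eval τ ≠ 0) (h : StabAt nab E τ) : NearIn E τ u := by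
  obtain ⟨q, hq, hqu⟩ := h _ hL.delu
  refine ⟨q * (Polynomial.C al * Polynomial.derivative del), ?_, ?_⟩
  · rw [Polynomial.eval_mul, Polynomial.eval_mul, Polynomial.eval_C]
    exact mul_ne_zero hq (mul_ne_zero hal hτ)
  · have e : (q * (Polynomial.C al * Polynomial.derivative del)) • u = q • nab (del • u) -
        q • (nab (del • u) - (Polynomial.C al * Polynomial.derivative del) • u) := by
      rw [smul_sub, mul_smul, sub_sub_cancel]
    rw [e]
    exact E.sub_mem hqu (E.smul_mem _ hL.res)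

theorem stab_iter {τ : κ} (h : StabAt nab E τ) {x : Mo} (hx : x ∈ E) (i : ℕ) :
    NearIn E τ (nab^[i] x) := by
  induction i with
  | zero =>
    refine ⟨1, ?_, ?_⟩
    · rw [Polynomial.eval_one]; exact one_ne_zero
    · rw [one_smul]; exact hx
  | succ i ih =>
    rw [Function.iterate_succ_apply']
    obtain ⟨q, hq, hqy⟩ := ih
    obtain ⟨q1, hq1, hq1y⟩ := h _ hqy
    refine ⟨q * q1 * q, ?_, ?_⟩
    · rw [Polynomial.eval_mul, Polynomial.eval_mul]
      exact mul_ne_zero (mul_ne_zero hq hq1) hq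
    · have e : (q * q1 * q) • nab (nab^[i] x) = q • (q1 • nab (q • nab^[i] x)) -
          (q1 * Polynomial.derivative q) • (q • nab^[i] x) := by
        rw [hl, smul_add, smul_add, ← mul_smul, ← mul_smul, ← mul_smul, ← mul_smul, ← mul_smul]
        have h1 : q * q1 * Polynomial.derivative q = q1 * Polynomial.derivative q * q := by ring
        rw [h1, add_sub_cancel_left]
      rw [e]
      exact E.sub_mem (E.smul_mem _ hq1y) (E.smul_mem _ hqy)

theorem dd_top (hL : LD nab del E u al) {τ : κ} {T : Submodule (Polynomial κ) Mo}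
    (hT : Cl nab τ T) (hE : E ≤ T)
    (hτ : del.eval τ ≠ 0 ∨ NearIn E τ u ∨
      (¬ StabAt nab E τ ∧ (Polynomial.derivative del).eval τ ≠ 0)) : u ∈ T := by
  rcases hτ with h1 | h2 | ⟨h3, h4⟩
  · exact hT.sat del u h1 (hE hL.delu)
  · obtain ⟨q, hq, hqu⟩ := h2
    exact hT.sat q u hq (hE hqu)
  · by_cases h1 : del.eval τ ≠ 0
    · exact hT.sat del u h1 (hE hL.delu)
    have h1' : del.eval τ = 0 := not_not.1 h1
    unfold StabAt at h3
    push Not at h3
    obtain ⟨x, hx, hnx⟩ := h3
    obtain ⟨p, hp⟩ := hL.nabE x hx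
    by_cases hpt : p.eval τ ≠ 0
    · refine hT.sat p u hpt ?_
      have e : p • u = nab x - (nab x - p • u) := by rw [sub_sub_cancel]
      rw [e]
      exact T.sub_mem (hT.stab _ (hE hx)) (hE hp)
    · exfalso
      have hpt' : p.eval τ = 0 := not_not.1 hpt
      obtain ⟨p1, hp1⟩ := Polynomial.dvd_iff_isRoot.2 hpt'
      obtain ⟨d1, hd1⟩ := Polynomial.dvd_iff_isRoot.2 h1'
      have hd1e : d1.eval τ ≠ 0 := by
        intro h0
        apply h4
        rw [hd1, Polynomial.derivative_mul, Polynomial.eval_add, Polynomial.eval_mul,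
          Polynomial.eval_mul, h0, Polynomial.eval_sub, Polynomial.eval_X, Polynomial.eval_C]
        ring
      apply hnx
      refine ⟨d1, hd1e, ?_⟩
      have e : d1 • nab x = d1 • (nab x - p • u) + p1 • (del • u) := by
        rw [smul_sub, ← mul_smul, ← mul_smul]
        have h5 : d1 * p = p1 * del := by
          rw [hp1, hd1]; ring
        rw [h5, sub_add_cancel]
      rw [e]
      exact E.add_mem (E.smul_mem _ hp) (E.smul_mem _ hL.delu)

theorem ld_iter (hcop : IsCoprime del (Polynomial.derivative del)) (hL : LD nab del E u al)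
    (m : ℕ) (hal : ∀ i < m, al + i ≠ 0) :
    ∃ E' : Submodule (Polynomial κ) Mo, LD nab del E' (del ^ m • u) (al + m) ∧ E' ≤ E ∧
      (∀ x, (∀ i ≤ m, nab^[i] x ∈ E) → x ∈ E') ∧
      (∀ τ, NearIn E τ u → NearIn E' τ (del ^ m • u)) ∧
      ∀ (τ : κ) (T : Submodule (Polynomial κ) Mo), Cl nab τ T → E' ≤ T → del ^ m • u ∈ T →
        E ≤ T := by
  induction m with
  | zero =>
    refine ⟨E, ?_, le_refl _, ?_, ?_, ?_⟩
    · rw [pow_zero, one_smul, Nat.cast_zero, add_zero]
      exact hL
    · intro x hx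
      exact hx 0 (le_refl _)
    · intro τ h
      rw [pow_zero, one_smul]
      exact h
    · intro τ T _ hET _
      exact hET
  | succ m ih =>
    obtain ⟨E', hL', hle, hmem, hnear, hdesc⟩ := ih (fun i hi => hal i (Nat.lt_succ_of_lt hi))
    have ham : al + (m : κ) ≠ 0 := hal m (Nat.lt_succ_self m)
    obtain ⟨hL2, hlast⟩ := ld_step hl hL' ham hcop
    have eu : del ^ (m + 1) • u = del • (del ^ m • u) := by
      rw [pow_succ', mul_smul]
    have ea : al + ((m + 1 : ℕ) : κ) = al + (m : κ) + 1 := by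
      rw [Nat.cast_add, Nat.cast_one, add_assoc]
    refine ⟨Epl hl E', ?_, ?_, ?_, ?_, ?_⟩
    · rw [eu, ea]
      exact hL2
    · exact fun x hx => hle hx.1
    · intro x hx
      refine ⟨hmem x (fun i hi => hx i (hi.trans (Nat.le_succ m))), hmem (nab x) (fun i hi => ?_)⟩
      rw [← Function.iterate_succ_apply]
      exact hx (i + 1) (Nat.succ_le_succ hi)
    · intro τ h
      rw [eu]
      exact near_step hl hL' (hnear τ h)
    · intro τ T hT hET huT
      rw [eu] at huT
      have hE'T : E' ≤ T := by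
        intro x hx
        obtain ⟨c, hc⟩ := hlast x hx
        have e : x = (x - c • (del • (del ^ m • u))) + c • (del • (del ^ m • u)) := by
          rw [sub_add_cancel]
        rw [e]
        exact T.add_mem (hET hc) (T.smul_mem _ huT)
      refine hdesc τ T hT hE'T ?_
      by_cases h1 : del.eval τ ≠ 0
      · exact hT.sat del _ h1 huT
      · have h1' : del.eval τ = 0 := not_not.1 h1
        have hd' : (Polynomial.derivative del).eval τ ≠ 0 := by
          intro h0
          obtain ⟨a, b, hab⟩ := hcop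
          have h2 := congrArg (Polynomial.eval τ) hab
          rw [Polynomial.eval_add, Polynomial.eval_mul, Polynomial.eval_mul, h1', h0,
            Polynomial.eval_one, mul_zero, mul_zero, add_zero] at h2
          exact zero_ne_one h2
        refine hT.sat (Polynomial.C (al + (m : κ)) * Polynomial.derivative del) _ ?_ ?_
        · rw [Polynomial.eval_mul, Polynomial.eval_C]
          exact mul_ne_zero ham hd'
        · have e : (Polynomial.C (al + (m : κ)) * Polynomial.derivative del) • (del ^ m • u) =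
              nab (del • (del ^ m • u)) - (nab (del • (del ^ m • u)) -
                (Polynomial.C (al + (m : κ)) * Polynomial.derivative del) • (del ^ m • u)) := by
            rw [sub_sub_cancel]
          rw [e]
          exact T.sub_mem (hT.stab _ huT) (hE'T hL'.res)

end MPadcLZ
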