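import Pool.Agent.Lib.MP_adc574_ag_LZ.LatE
import Pool.Agent.Lib.MP_adc574_ag_LZ.LatF

/-!
# PART II (owner: helper88): the lattices. FINAL STATEMENTS (fixed); the way is section 2 of
`/team-store/PAPER_MP_adc574_ag_LefschetzHyp.md`.

Plan. `EL`: `nab (EL k) ≤ EL (k + 1)`, `brt P ∈ EL k`; (G1), (G2) from `gen`, `ann`; `EL (k+1) ≤ EL k ⊔ span u_k` for
`M + N ≤ d (k + 2)`; (2.2) `nab (δ u_k) - α_k δ' u_k ∈ EL k`, `α_k = n/2 - 1 - k = (N - 1)/2 - 1 - k` (file NodeTr: the trace computation at a node).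
`LD` for `(EL k, u_k, α_k)`; the step `LD E u α → α ≠ 0 → LD (E⁺) (δ u) (α + 1)`, `E ≤ E⁺ + κ[t] u⁺`; iterate (`Ech i`, `δ^i u`). `N` even (n odd): `k ≥ n`.
`N` odd (n even): `m = k + 1 - n/2` steps.

# JOB LatMain
`ell_chain` is `ell_chain'`. `hl := nab_smul hG`, `hcop := del_sep hS`.
`lat_main`: choose `k ≥ k₁, N` with `M + N ≤ d (k + 2)` (`d ≥ 3`), `alk κ N k = (N - 1)/2 - 1 - k`, `2 alk = N - 3 - 2 k`.
* `N` even: `E = EL k`, `u = u_k`, `al = alk` (`ld_EL`); `2 al` is an odd integer `≤ 0`, so `al` is not an integer (`2 al = 2 z` in `ℤ`, `Int.cast_injective`), `al ≠ 0`. Monomials of level `< N / 2`: in `EL k` (`dg e + N ≤ d (N/2) ≤ d (k+1)`, `Submodule.subset_span`). At a node: if `E` is stable then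
  `stab_near` (`del_der`). `InDD`: trivial (`E ≤ T`).
* `N` odd, `N = 2 r + 1`, `1 ≤ r`, `N / 2 = r`, `alk = r - 1 - k = - m`, `m = k + 1 - r`. `ld_iter` with this `m` (`al + i = i - m ≠ 0` for `i < m`): `E = E'`, `u = δ^m • u_k`, `al = alk + m = 0`. Monomials with `dg e + N ≤ d r`, `d ∣ dg e + N`: `nab^[i] (br x^e) ∈ EL (r - 1 + i) ≤ EL k` for `i ≤ m` (`nab_EL`, induction),
  so they are in `E'`. The claim `NearIn (EL k) τ_j u_k → NearIn E τ_j u`: `ld_iter`. At a node: if `E` is stable at `τ_j`: `x = br (ell ^ (d r - N))` (`N ≤ d r`: `3 r ≥ 2 r + 1`) is in `E` (a `κ`-combination of monomials of degree `d r - N`: `Submodule.sum_mem`, `Polynomial.C c • br (monomial e 1)`), so `NearIn E τ_j (nab^[i] x)` (`stab_iter`), hence in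
  `EL k` (`E ≤ EL k`), and `ell_chain'` with `a = r - 1` gives `NearIn (EL k) τ_j u_k`, so `NearIn E τ_j u`. `InDD`: let `T` be closed, `E ≤ T`: `dd_top` gives `u ∈ T` (at a non-node `δ(τ) ≠ 0`: `del_root`; at a node by the alternative and `del_der`), and `ld_iter` gives `EL k ≤ T`.
-/

set_option autoImplicit false

namespace MPadcLZ

open MvPolynomial MPadcHM

universe u

variable {κ : Type u} [Field κ] [CharZero κ] {N : ℕ} (S : PDat κ N) {Mo : Type u}
  [AddCommGroup Mo] [Module (RatFunc κ) Mo] [Module (Polynomial κ) Mo]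
  [IsScalarTower (Polynomial κ) (RatFunc κ) Mo] {nab : Mo →+ Mo}
  {br : MvPolynomial (Fin N) (RatFunc κ) →ₗ[RatFunc κ] Mo}

/-- The lattice package. -/
theorem lat_main (hS : S.Ok) (hG : IsHG S nab br) (k₁ : ℕ) :
    ∃ (k : ℕ) (E : Submodule (Polynomial κ) Mo) (u : Mo) (al : κ),
      k₁ ≤ k ∧ S.M + N ≤ S.d * (k + 2) ∧ LD nab S.del E u al ∧
      (al = 0 ∨ ∀ z : ℤ, al ≠ z) ∧ (∃ z : ℤ, z ≤ 0 ∧ 2 * al = z) ∧ E ≤ EL S br k ∧
      (∀ e : Fin N →₀ ℕ, S.d ∣ dg e + N → dg e + N ≤ S.d * (N / 2) → br (monomial e 1) ∈ E) ∧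
      (∀ j, NearIn E (S.tau j) u ∨ ¬ StabAt nab E (S.tau j)) ∧
      (∀ j, NearIn (EL S br k) (S.tau j) (uu S br k) → NearIn E (S.tau j) u) ∧
      ∀ τ : κ, ∀ x ∈ EL S br k, InDD nab E τ x := by
  classical
  have hl : ∀ (c : Polynomial κ) (x : Mo),
      nab (c • x) = Polynomial.derivative c • x + c • nab x := nab_smul hG
  have hcop := del_sep hS
  have hN3 := hS.hN
  have hd3 := hS.hd
  obtain ⟨k, hkk, hkN, hkM⟩ : ∃ k : ℕ, k₁ ≤ k ∧ N ≤ k ∧ S.M + N ≤ S.d * (k + 2) :=
    ⟨k₁ + N + S.M, by omega, by omega,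
      le_trans (show S.M + N ≤ 3 * (k₁ + N + S.M + 2) by omega) (Nat.mul_le_mul_right _ hd3)⟩
  have hLk := ld_EL hS hG hkM
  obtain ⟨r, hr | hr⟩ := Nat.even_or_odd' N
  · -- even
    have h2 : 2 * alk κ N k = (((N : ℤ) - 3 - 2 * (k : ℤ) : ℤ) : κ) := by
      unfold alk
      push_cast
      field_simp
      ring
    have hni : ∀ z : ℤ, alk κ N k ≠ z := by
      intro z hz
      rw [hz] at h2
      have h3 : (2 : ℤ) * z = (N : ℤ) - 3 - 2 * (k : ℤ) := by
        have h4 : (((2 : ℤ) * z : ℤ) : κ) = (((N : ℤ) - 3 - 2 * (k : ℤ) : ℤ) : κ) := by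
          rw [← h2]
          push_cast
          ring
        exact_mod_cast h4
      omega
    have hal : alk κ N k ≠ 0 := by
      intro h
      exact hni 0 (by rw [h, Int.cast_zero])
    refine ⟨k, EL S br k, uu S br k, alk κ N k, hkk, hkM, hLk, Or.inr hni,
      ⟨(N : ℤ) - 3 - 2 * (k : ℤ), by omega, h2⟩, le_rfl, ?_, ?_, fun j h => h,
      fun τ x hx T hT hE => hE hx⟩
    · intro e he1 he2
      refine Submodule.subset_span ⟨e, he1, he2.trans (Nat.mul_le_mul_left _ (by omega)), rfl⟩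
    · intro j
      by_cases hst : StabAt nab (EL S br k) (S.tau j)
      · exact Or.inl (stab_near hl hLk hal (del_der hS j) hst)
      · exact Or.inr hst
  · -- odd
    obtain ⟨a, ha⟩ : ∃ a, N = 2 * a + 3 := ⟨r - 1, by omega⟩
    have hN2 : N / 2 = a + 1 := by omega
    have hak : a ≤ k := by omega
    have hNc : (N : κ) = 2 * (a : κ) + 3 := by
      have h3 : ((N : ℕ) : κ) = ((2 * a + 3 : ℕ) : κ) := congrArg Nat.cast ha
      rw [h3]
      push_cast
      ring
    have hal : alk κ N k = (a : κ) - k := by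
      unfold alk
      rw [hNc]
      field_simp
      ring
    have hal0 : alk κ N k + ((k - a : ℕ) : κ) = 0 := by
      rw [hal, Nat.cast_sub hak]
      ring
    have hali : ∀ i < k - a, alk κ N k + (i : κ) ≠ 0 := by
      intro i hi h
      rw [hal] at h
      have h3 : ((i + a : ℕ) : κ) = ((k : ℕ) : κ) := by
        push_cast
        linear_combination h
      have h4 := Nat.cast_injective h3
      omega
    obtain ⟨E', hL', hE', hin, hnear, hdesc⟩ := ld_iter hl hcop hLk (k - a) hali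
    rw [hal0] at hL'
    have hiter : ∀ x ∈ EL S br a, ∀ i, nab^[i] x ∈ EL S br (a + i) := by
      intro x hx i
      induction i with
      | zero => exact hx
      | succ i ih =>
        rw [Function.iterate_succ_apply']
        exact nab_EL hS hG ih
    have hmon : ∀ e : Fin N →₀ ℕ, S.d ∣ dg e + N → dg e + N ≤ S.d * (a + 1) →
        br (monomial e 1) ∈ E' := by
      intro e he1 he2
      refine hin _ fun i hi => ?_
      have h3 : br (monomial e 1) ∈ EL S br a := Submodule.subset_span ⟨e, he1, he2, rfl⟩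
      exact EL_mono (by omega) (hiter _ h3 i)
    have hNd : N ≤ S.d * (a + 1) :=
      le_trans (show N ≤ 3 * (a + 1) by omega) (Nat.mul_le_mul_right _ hd3)
    have hell : br (S.ell.map (algebraMap κ (RatFunc κ)) ^ (S.d * (a + 1) - N)) ∈ E' := by
      rw [← map_pow, ← brt_mapC]
      have h3 := Hm_pow hS.homl (S.d * (a + 1) - N)
      rw [mul_one] at h3
      generalize S.ell ^ (S.d * (a + 1) - N) = P at h3 ⊢
      conv => rw [MvPolynomial.as_sum P]
      rw [map_sum, brt_sum]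
      refine Submodule.sum_mem _ fun e he => ?_
      rw [MvPolynomial.map_monomial, brt_monomial]
      have h4 : dg e + N = S.d * (a + 1) := by
        rw [h3 e he]
        omega
      exact E'.smul_mem _ (hmon e ⟨a + 1, h4⟩ h4.le)
    have halt : ∀ j, NearIn E' (S.tau j) (S.del ^ (k - a) • uu S br k) ∨
        ¬ StabAt nab E' (S.tau j) := by
      intro j
      by_cases hst : StabAt nab E' (S.tau j)
      · refine Or.inl (hnear _ ?_)
        refine ell_chain' hS hG k a hkM hak hNd j fun i => ?_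
        obtain ⟨q, hq, hq2⟩ := stab_iter hl hst hell i
        exact ⟨q, hq, hE' hq2⟩
      · exact Or.inr hst
    refine ⟨k, E', S.del ^ (k - a) • uu S br k, 0, hkk, hkM, hL', Or.inl rfl,
      ⟨0, le_rfl, by rw [mul_zero, Int.cast_zero]⟩, hE', ?_, halt, fun j h => hnear _ h, ?_⟩
    · intro e he1 he2
      rw [hN2] at he2
      exact hmon e he1 he2
    · intro τ x hx T hT hE
      refine hdesc τ T hT hE ?_ hx
      refine dd_top hl hL' hT hE ?_
      by_cases hτ : S.del.eval τ = 0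
      · obtain ⟨j, rfl⟩ := del_root hτ
        rcases halt j with h | h
        · exact Or.inr (Or.inl h)
        · exact Or.inr (Or.inr ⟨h, del_der hS j⟩)
      · exact Or.inl hτ

/-- `∇^i [ell ^ m_a] = ± [ell ^ m_a H ^ i]` is `± ξ u_k` modulo `E_k` for `i = k + 1 - a`. -/
theorem ell_chain (hS : S.Ok) (hG : IsHG S nab br) (k a : ℕ) (hk : S.M + N ≤ S.d * (k + 2))
    (hak : a ≤ k) (ha : N ≤ S.d * (a + 1)) (j : Fin S.J)
    (h : ∀ i, NearIn (EL S br k) (S.tau j)
      (nab^[i] (br (S.ell.map (algebraMap κ (RatFunc κ)) ^ (S.d * (a + 1) - N))))) :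
    NearIn (EL S br k) (S.tau j) (uu S br k) :=
  ell_chain' hS hG k a hk hak ha j h

end MPadcLZ
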