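import Pool.Agent.Lib.MP_adc574_ag_LZ.LoE

/-!
# JOB LoG: assembly at a regular point

`L = FractionRing κ⟦X⟧`, `j = algebraMap κ⟦X⟧ L`, `DX` from `exists_DX`. `T0 = {x | NearIn E τ x}` `= {x | ∀ i, RegAt τ (b.repr x i)}` (`near_iff`), a `κ[t]`-submodule.
* `Cl.stab`: `repr_nab`, `reg_con`, `RegAt.DK`, `RegAt.add`, `RegAt.sum`, `RegAt.mul`. `Cl.sat`: `RegAt.of_mul`.
* `jt τ (b.repr (nab (b k)) i) = j (g i k)` (`reg_con`, `regAt_iff`). flat `e`: `Y (i, k) = jt τ (b.repr (e (b k)) i)` satisfies `j X * DX (Y (i, k)) = ∑ m, Y (i, m) * j (X * g m k) - ∑ m, j (X * g i m) * Y (m, k)` (`coord_e`, `jt_DK`), i.e. `reg_pole` with `σ = Fin r × Fin r` and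
  `A (i, k) (m, n) = (if m = i then X * g n k else 0) - (if n = k then X * g i m else 0)`. So all `b.repr (e (b k)) i` are regular, `repr_e`.
* flat `h`: `reg_pole` with `A i k = - X * g i k` (`repr_nab`, `nab h = 0`).
* `B z x`: `reg_pole` for `Y (i, k) = jt τ (B (b i) (b k))`, `coord_B`, then `B_coord`.
-/

set_option autoImplicit false

namespace MPadcLZ

open MPadcHM

universe u

variable {κ : Type u} [Field κ] [CharZero κ] {Mo : Type u} [AddCommGroup Mo]
  [Module (RatFunc κ) Mo]
  [Module (Polynomial κ) Mo] [IsScalarTower (Polynomial κ) (RatFunc κ) Mo] {nab : Mo →+ Mo}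
  {E : Submodule (Polynomial κ) Mo} {r : ℕ} {b : Module.Basis (Fin r) (RatFunc κ) Mo}

theorem loc_reg (leib : ∀ (c : RatFunc κ) (x : Mo), nab (c • x) = DK κ c • x + c • nab x)
    (hb : LB E b) (τ : κ) (hst : StabAt nab E τ)
    (B : Mo →ₗ[RatFunc κ] Mo →ₗ[RatFunc κ] RatFunc κ)
    (flat : ∀ x y, DK κ (B x y) = B (nab x) y + B x (nab y)) :
    ∃ T0 : Submodule (Polynomial κ) Mo, Cl nab τ T0 ∧ (∀ x ∈ T0, NearIn E τ x) ∧ E ≤ T0 ∧
      (∀ e : Mo →ₗ[RatFunc κ] Mo, (∀ x, e (nab x) = nab (e x)) → ∀ x ∈ E, e x ∈ T0) ∧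
      (∀ h, nab h = 0 → h ∈ T0) ∧ ∀ z ∈ T0, ∀ x ∈ E, RegAt τ (B z x) := by
  classical
  have con : ∀ i k, RegAt τ (b.repr (nab (b k)) i) := fun i k => reg_con hb hst i k
  have hg0 : ∀ i k, ∃ s : PowerSeries κ, jt τ (b.repr (nab (b k)) i) =
      algebraMap (PowerSeries κ) (FractionRing (PowerSeries κ)) s :=
    fun i k => (regAt_iff τ _).1 (con i k)
  choose g hg using hg0
  obtain ⟨DX, hDX⟩ := exists_DX κ
  let T0 : Submodule (Polynomial κ) Mo :=
    { carrier := {x | ∀ i, RegAt τ (b.repr x i)}
      add_mem' := by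
        intro x y hx hy i
        have h1 : b.repr (x + y) i = b.repr x i + b.repr y i := by
          rw [map_add, Finsupp.add_apply]
        rw [h1]
        exact (hx i).add (hy i)
      zero_mem' := by
        intro i
        have h1 : b.repr (0 : Mo) i = algebraMap (Polynomial κ) (RatFunc κ) 0 := by
          rw [map_zero, map_zero, Finsupp.zero_apply]
        rw [h1]
        exact regAt_poly τ 0
      smul_mem' := by
        intro p x hx i
        have h1 : b.repr (p • x) i = algebraMap (Polynomial κ) (RatFunc κ) p * b.repr x i := by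
          rw [← algebraMap_smul (RatFunc κ) p x, map_smul, Finsupp.smul_apply, smul_eq_mul]
        rw [h1]
        exact (regAt_poly τ p).mul (hx i) }
  have hT0 : ∀ x, x ∈ T0 ↔ ∀ i, RegAt τ (b.repr x i) := fun x => Iff.rfl
  have hE : ∀ x ∈ E, ∀ i, RegAt τ (b.repr x i) := by
    intro x hx i
    obtain ⟨p, hp⟩ := (hb x).1 hx i
    rw [hp]
    exact regAt_poly τ p
  refine ⟨T0, ⟨?_, ?_⟩, ?_, ?_, ?_, ?_, ?_⟩
  · intro x hx
    rw [hT0] at hx ⊢
    intro i
    rw [repr_nab leib b x i]
    exact (hx i).DK.add (RegAt.sum _ fun k _ => (con i k).mul (hx k))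
  · intro q x hq hx
    rw [hT0] at hx ⊢
    intro i
    apply RegAt.of_mul hq
    have h1 : b.repr (q • x) i = algebraMap (Polynomial κ) (RatFunc κ) q * b.repr x i := by
      rw [← algebraMap_smul (RatFunc κ) q x, map_smul, Finsupp.smul_apply, smul_eq_mul]
    rw [← h1]
    exact hx i
  · intro x hx
    exact (near_iff hb τ x).2 ((hT0 x).1 hx)
  · intro x hx
    exact (hT0 x).2 (hE x hx)
  · intro e he x hx
    rw [hT0]
    have hreg : ∀ i k, RegAt τ (b.repr (e (b k)) i) := by
      obtain ⟨Z, hZ⟩ := reg_pole hDX (σ := Fin r × Fin r)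
        (fun p => jt τ (b.repr (e (b p.2)) p.1))
        (Matrix.of fun p q => (if q.1 = p.1 then PowerSeries.X * g q.2 p.2 else 0) -
          (if q.2 = p.2 then PowerSeries.X * g p.1 q.1 else 0))
        (by
          rintro ⟨i, k⟩ ⟨m, n⟩
          simp only [Matrix.of_apply, map_sub]
          split_ifs <;> simp)
        (by
          rintro ⟨i, k⟩
          simp only [Matrix.of_apply]
          rw [jt_DK hDX, coord_e leib b e he i k]
          rw [Fintype.sum_prod_type]
          simp only [map_sub, map_sum, map_mul, hg, sub_mul, Finset.sum_sub_distrib, apply_ite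
            (algebraMap (PowerSeries κ) (FractionRing (PowerSeries κ))), map_zero, ite_mul,
            zero_mul]
          rw [Finset.sum_comm (f := fun m n => if m = i then _ else _)]
          simp only [Finset.sum_ite_eq', Finset.mem_univ, if_true, mul_sub, Finset.mul_sum]
          congr 1
          · refine Finset.sum_congr rfl fun m _ => ?_
            ring
          · refine Finset.sum_congr rfl fun m _ => ?_
            ring)
      intro i k
      exact (regAt_iff τ _).2 ⟨Z (i, k), hZ (i, k)⟩
    intro i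
    rw [repr_e b e x i]
    exact RegAt.sum _ fun k _ => (hreg i k).mul (hE x hx k)
  · intro h hh
    rw [hT0]
    obtain ⟨Z, hZ⟩ := reg_pole hDX (σ := Fin r)
      (fun i => jt τ (b.repr h i))
      (Matrix.of fun i k => -(PowerSeries.X * g i k))
      (by
        intro i k
        simp)
      (by
        intro i
        simp only [Matrix.of_apply]
        have h1 := repr_nab leib b h i
        rw [hh, map_zero, Finsupp.zero_apply] at h1
        have h2 : MPadcHM.DK κ (b.repr h i) = -∑ k, b.repr (nab (b k)) i * b.repr h k :=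
          eq_neg_of_add_eq_zero_left h1.symm
        rw [jt_DK hDX, h2]
        simp only [map_neg, map_sum, map_mul, hg, mul_neg, neg_mul, Finset.sum_neg_distrib,
          Finset.mul_sum]
        congr 1
        refine Finset.sum_congr rfl fun m _ => ?_
        ring)
    intro i
    exact (regAt_iff τ _).2 ⟨Z i, hZ i⟩
  · intro z hz x hx
    rw [hT0] at hz
    have hreg : ∀ i k, RegAt τ (B (b i) (b k)) := by
      obtain ⟨Z, hZ⟩ := reg_pole hDX (σ := Fin r × Fin r)
        (fun p => jt τ (B (b p.1) (b p.2)))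
        (Matrix.of fun p q => (if q.2 = p.2 then PowerSeries.X * g q.1 p.1 else 0) +
          (if q.1 = p.1 then PowerSeries.X * g q.2 p.2 else 0))
        (by
          rintro ⟨i, k⟩ ⟨m, n⟩
          simp only [Matrix.of_apply, map_add]
          split_ifs <;> simp)
        (by
          rintro ⟨i, k⟩
          simp only [Matrix.of_apply]
          rw [jt_DK hDX, coord_B b B flat i k]
          rw [Fintype.sum_prod_type]
          simp only [map_add, map_sum, map_mul, hg, add_mul, Finset.sum_add_distrib, apply_ite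
            (algebraMap (PowerSeries κ) (FractionRing (PowerSeries κ))), map_zero, ite_mul,
            zero_mul]
          rw [Finset.sum_comm (f := fun m n => if m = i then _ else _)]
          simp only [Finset.sum_ite_eq', Finset.mem_univ, if_true, mul_add, Finset.mul_sum]
          congr 1
          · refine Finset.sum_congr rfl fun m _ => ?_
            ring
          · refine Finset.sum_congr rfl fun m _ => ?_
            ring)
      intro i k
      exact (regAt_iff τ _).2 ⟨Z (i, k), hZ (i, k)⟩
    rw [B_coord b B z x]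
    exact RegAt.sum _ fun i _ => RegAt.sum _ fun k _ => ((hz i).mul (hreg i k)).mul (hE x hx k)

end MPadcLZ
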