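import Pool.Agent.Lib.MP_adc574_ag_LZ.LoF
import Pool.Agent.Lib.MP_adc574_ag_LZ.LoG

/-!
# PART IV (owner: helper4): the local theory. FINAL STATEMENT (fixed); the way is section 4 of
`/team-store/PAPER_MP_adc574_ag_LefschetzHyp.md`.
-/

set_option autoImplicit false

namespace MPadcLZ

open MvPolynomial MPadcHM

universe u

variable {κ : Type u} [Field κ] {Mo : Type u}
    [AddCommGroup Mo] [Module (RatFunc κ) Mo] [Module (Polynomial κ) Mo]
    [IsScalarTower (Polynomial κ) (RatFunc κ) Mo] {nab : Mo →+ Mo}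

/-- Regularity against `E` extends to the module generated by `E`. -/
theorem dd_reg {E T0 : Submodule (Polynomial κ) Mo} {τ : κ} (hT : Cl nab τ T0)
    (B : Mo →ₗ[RatFunc κ] Mo →ₗ[RatFunc κ] RatFunc κ)
    (flat : ∀ x y, DK κ (B x y) = B (nab x) y + B x (nab y))
    (h : ∀ z ∈ T0, ∀ x ∈ E, RegAt τ (B z x)) :
    ∀ z ∈ T0, ∀ y, InDD nab E τ y → RegAt τ (B z y) := by
  intro z hz y hy
  let T : Submodule (Polynomial κ) Mo :=
    { carrier := {y | ∀ z ∈ T0, RegAt τ (B z y)}
      add_mem' := by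
        intro a b ha hb z hz
        rw [map_add]
        exact (ha z hz).add (hb z hz)
      zero_mem' := by
        intro z hz
        rw [map_zero]
        simpa using regAt_poly τ 0
      smul_mem' := by
        intro q a ha z hz
        have h1 : q • a = algebraMap (Polynomial κ) (RatFunc κ) q • a := by
          rw [algebraMap_smul]
        rw [h1, map_smul, smul_eq_mul]
        exact (regAt_poly τ q).mul (ha z hz) }
  have hcl : Cl nab τ T := by
    constructor
    · intro x hx z hz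
      have h1 : B z (nab x) = DK κ (B z x) - B (nab z) x := by
        rw [flat]
        ring
      show RegAt τ (B z (nab x))
      rw [h1]
      exact (hx z hz).DK.sub (hx _ (hT.stab z hz))
    · intro q x hq hx z hz
      have h1 : q • x = algebraMap (Polynomial κ) (RatFunc κ) q • x := by
        rw [algebraMap_smul]
      have h2 := hx z hz
      rw [h1, map_smul, smul_eq_mul] at h2
      exact RegAt.of_mul hq h2
  exact hy T hcl (fun x hx z hz => h z hz x hx) z hz

theorem alOk_of {al : κ} (hal : al = 0 ∨ ∀ z : ℤ, al ≠ z)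
    (hal2 : ∃ z : ℤ, z ≤ 0 ∧ 2 * al = z) [CharZero κ] : AlOk al := by
  rcases hal with h | h
  · exact Or.inl h
  · obtain ⟨z, hz, h2⟩ := hal2
    rcases Int.even_or_odd' z with ⟨k, hk | hk⟩
    · exfalso
      apply h k
      rw [hk] at h2
      push_cast at h2
      exact mul_left_cancel₀ (two_ne_zero' κ) h2
    · right
      obtain ⟨m, hm⟩ : ∃ m : ℕ, (m : ℤ) = -(k + 1) := ⟨(-(k + 1)).toNat, by
        rw [Int.toNat_of_nonneg (by omega)]⟩
      refine ⟨m, ?_⟩
      rw [h2, hk]
      have h3 : (m : κ) = ((m : ℤ) : κ) := by push_cast; rfl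
      rw [h3, hm]
      push_cast
      ring

theorem loc_main {κ : Type u} [Field κ] [CharZero κ] {Mo : Type u}
    [AddCommGroup Mo] [Module (RatFunc κ) Mo] [Module (Polynomial κ) Mo]
    [IsScalarTower (Polynomial κ) (RatFunc κ) Mo] {nab : Mo →+ Mo}
    (leib : ∀ (c : RatFunc κ) (x : Mo), nab (c • x) = DK κ c • x + c • nab x)
    {del : Polynomial κ} {E : Submodule (Polynomial κ) Mo} {u : Mo} {al : κ}
    (hL : LD nab del E u al) (hal : al = 0 ∨ ∀ z : ℤ, al ≠ z) (hal2 : ∃ z : ℤ, z ≤ 0 ∧ 2 * al = z)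
    (B : Mo →ₗ[RatFunc κ] Mo →ₗ[RatFunc κ] RatFunc κ)
    (flat : ∀ x y, DK κ (B x y) = B (nab x) y + B x (nab y))
    (ndL : ∀ x, (∀ y, B x y = 0) → x = 0) (ndR : ∀ y, (∀ x, B x y = 0) → y = 0) (τ : κ)
    (hτ : StabAt nab E τ ∨ (del.eval τ = 0 ∧ (Polynomial.derivative del).eval τ ≠ 0 ∧
      ¬ NearIn E τ u ∧ ¬ StabAt nab E τ)) :
    ∃ T0 : Submodule (Polynomial κ) Mo, Cl nab τ T0 ∧ (∀ x ∈ T0, NearIn E τ x) ∧
      (StabAt nab E τ → E ≤ T0) ∧
      (∀ e : Mo →ₗ[RatFunc κ] Mo, (∀ x, e (nab x) = nab (e x)) → ∃ eps : κ,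
        (∀ x ∈ E, ∀ y, InDD nab E τ y →
          RegAt τ (B (e x) y - algebraMap κ (RatFunc κ) eps * B x y)) ∧
        ∀ x ∈ E, ∀ c : κ, e x = algebraMap κ (RatFunc κ) c • x → c = eps ∨ x ∈ T0) ∧
      (∀ h, nab h = 0 → ∀ y, InDD nab E τ y → RegAt τ (B h y)) ∧
      ∀ R : Submodule (RatFunc κ) Mo, (∀ x ∈ R, nab x ∈ R) → (∀ x ∈ R, ∀ y ∈ R, B x y = 0) →
        ∀ x ∈ R, x ∈ E → NearIn E τ (nab x) := by
  obtain ⟨r, b, hb⟩ := exists_LB hL.fg hL.spn
  rcases hτ with hst | ⟨h0, h1, hu, hst⟩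
  · obtain ⟨T0, hcl, hn, hE, he, hh, hB⟩ := loc_reg leib hb τ hst B flat
    refine ⟨T0, hcl, hn, fun _ => hE, ?_, ?_, ?_⟩
    · intro e hflat
      refine ⟨0, ?_, fun x hx c _ => Or.inr (hE hx)⟩
      intro x hx y hy
      rw [map_zero, zero_mul, sub_zero]
      exact dd_reg hcl B flat hB _ (he e hflat x hx) y hy
    · intro h hh0 y hy
      exact dd_reg hcl B flat hB _ (hh h hh0) y hy
    · intro R _ _ x _ hxE
      exact hst x hxE
  · obtain ⟨Γ, a0, l0, hΓ, hres, ha0, hl0, htr⟩ := node_data leib hb hL h0 h1 hu hst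
    obtain ⟨S, hS, hSΓ, -, -, -⟩ := exists_Lc Γ a0 l0 al (alOk_of hal hal2) htr ha0 hl0 hres
    obtain ⟨T0, hcl, hn, he, hh, hB, hR⟩ := loc_node leib hb τ S hS (by rw [hSΓ]; exact hΓ) B flat ndL
    refine ⟨T0, hcl, hn, fun h => absurd h hst, ?_, ?_, hR⟩
    · intro e hflat
      obtain ⟨eps, heps⟩ := he e hflat
      refine ⟨eps, ?_, ?_⟩
      · intro x hx y hy
        have h2 := dd_reg hcl B flat hB _ (heps x hx) y hy
        rw [map_sub, map_smul, LinearMap.sub_apply, LinearMap.smul_apply, smul_eq_mul] at h2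
        exact h2
      · intro x hx c hc
        by_cases hce : c = eps
        · exact Or.inl hce
        · right
          have h2 := heps x hx
          rw [hc, ← sub_smul, ← map_sub] at h2
          apply hcl.sat (Polynomial.C (c - eps)) x
          · rw [Polynomial.eval_C]
            exact sub_ne_zero.2 hce
          · have h3 : (Polynomial.C (c - eps) : Polynomial κ) • x =
                algebraMap κ (RatFunc κ) (c - eps) • x := by
              rw [← algebraMap_smul (RatFunc κ) (Polynomial.C (c - eps)) x]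
              rfl
            rw [h3]
            exact h2
    · intro h hh0 y hy
      exact dd_reg hcl B flat hB _ (hh h hh0) y hy

end MPadcLZ
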