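import Pool.Agent.Lib.MP_adc574_ag_LZ.MidB
import Pool.Agent.Lib.MP_adc574_ag_LZ.LatMain
import Pool.Agent.Lib.MP_adc574_ag_LZ.LocMain

/-!
# JOBS IrrPa, IrrPb, IrrPc: irreducibility of `P_K` (sections 5, 6, 8)

`Pk` = the lattice package of `lat_main`.
* `pk_exists`: `lat_main` with `k₁ = N`.
* `pk_tau` (IrrPa): if `NearIn E τ u` (`q u ∈ E`) then `StabAt`: for `x ∈ E`, `nab x - p u ∈ E` so `q • nab x ∈ E`. Otherwise `del(τ) = 0` (as `del u ∈ E`), so `τ = τ_j` (`Finset.prod_eq_zero_iff`), `del'(τ_j) = ∏_(i ≠ j) (τ_j - τ_i) ≠ 0` (`hS.sep`; `Polynomial.derivative_prod` or write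
  `del = (X - τ_j) R`, `del' (τ_j) = R(τ_j)`), `kind j`.
* `in_E`: `κ` algebraically closed, `∀ τ, NearIn E τ y` implies `y ∈ E`: the ideal `{q | q • y ∈ E}` of the PID `κ[t]` is generated by some `g`; if `g` is not a unit (and not 0: some `q ≠ 0` is in it) it has a root `τ`; but some `q` with `q(τ) ≠ 0` is in the ideal. (`Submodule.IsPrincipal.generator`.)
* `fg_sub`: a submodule of `E` is finitely generated (`κ[t]` noetherian, `E.FG`: `isNoetherian_submodule`, `isNoetherian_of_fg_of_noetherian`, `Submodule.FG`).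
* `noflat`: `nab h = 0 → h = 0`: by `nd_left` and `mo_span` it is enough that `B h [x^v] = 0` for `v` in W0, `dg v ≤ N (d-2)`. `[x^v] ∈ EL k` as `dg v + N ≤ N (d - 1) ≤ d (k + 1)` (`N ≤ k`), so `InDD` (`hK.dd`), so `RegAt τ (B h [x^v])` for all `τ` (`loc_main`, `pk_tau`); `Bd s (0 - W v)` by `inf_flat`, `hI.inW`, `inf_form`, `hI.pos`; `reg_bd_zero`.
* `nostab`: a f.g. `κ[t]`-submodule stable under `nab` is 0: `inf_stable`, `noflat`.
* `iso_bot` (IrrPb): `R` a stable `K`-subspace with `B(R, R) = 0`: for `x ∈ R ∩ E`, `nab x ∈ E`: `in_E`, `loc_main` (last part) at every `τ`. So `E' = E ⊓ R` (`R.restrictScalars κ[t]`) is stable and f.g. (`fg_sub`), so 0 (`nostab`). For `x ∈ R`: `q x ∈ E` with `q ≠ 0` (`hK.ld.spn`), `q x = 0`, `x = 0`.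
* `orth`: for a `K`-subspace `H'`, `H'' = {y | ∀ x ∈ H', B x y = 0}`; if `H'` is stable so is `H''` (`flat`). `R = H' ⊓ H''` is stable, `B(R,R) = 0`, so 0. `H' + H'' = ⊤`: the map `H' → Dual H'`, `y ↦ (x ↦ B x y)` is injective, so surjective (finite dimension, `mo_fin`, `Subspace.dual_finrank_eq`, `LinearMap.injective_iff_surjective_of_finrank_eq_finrank`);
  for `z : Mo` take `y ∈ H'` with `B x y = B x z` for all `x ∈ H'`; `z - y ∈ H''`.
* `exists_proj`: for stable complementary `H'`, `H''` there is `e : Mo →ₗ Mo`, `e x = x` on `H'`, `e x = 0` on `H''`, `e (nab x) = nab (e x)` (`H'.linearProjOfIsCompl H'' h` composed with `H'.subtype`; for `x = a + b`, `nab x = nab a + nab b`).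
* `loc_eps` : from `loc_main` for `e`: `eps : κ → κ` (choose) with the regularity statement `hreg` of `scalar_low` (`dg u = m₀`: `[x^u] ∈ E` by `hK.low`, since `m₀ + N ≤ d (N / 2)`: `m₀ < d`, `d ∣ m₀ + N`, so `m₀ + N` is the least multiple of `d` that is `≥ N`, and `d (N/2) ≥ N` is a multiple of `d`, as `d ≥ 3`, `N ≥ 3`).
* `kill` (IrrPc): `e` as in `exists_proj`, `e [x^u] = 0` for all `dg u = m₀`: then `H' = ⊥`. Proof: let `x = [ell^m₀]` (`ell^m₀` is homogeneous of degree `m₀`, a combination of monomials), `e x = 0`, `x ∈ E`. Let `x' ∈ H' ∩ E`; claim `nab x' ∈ E`; by `in_E` check at every `τ`. Take `T0`, `eps` of `loc_main`. If `StabAt`: clear. Otherwise `τ = τ_j`, `¬ NearIn E τ u`. Apply the eigenvalue statement to `x`, `c = 0`: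
  `0 = eps` or `x ∈ T0`. If `x ∈ T0` then all `nab^[i] x ∈ T0`, so `NearIn E`, so `NearIn (EL k)` (`hK.le`), and `ell_chain` (with `a`, `d (a + 1) = m₀ + N`, so `d (a+1) - N = m₀`; `a ≤ k`) gives `NearIn (EL k) u_k`, so `NearIn E u` (`hK.uk`), contradiction. So `eps = 0`; apply it to `x'`, `c = 1`: `1 = eps` is impossible, so `x' ∈ T0`, `nab x' ∈ T0`,
  `NearIn E τ (nab x')`. So `E ⊓ H'` is stable and f.g., hence 0, and `H' = ⊥` as in `iso_bot`.
* `irr_pdat`: `H'` stable: `orth`, `exists_proj`, `loc_eps`, `scalar_low`: `e [x^u] = g0 [x^u]`. `low_ne` gives `u` with `[x^u] ≠ 0` (`B [x^u][x^v] = ± rho ≠ 0`), `e^2 = e` gives `g0^2 = g0`. `g0 = 0`: `kill`: `H' = ⊥`. `g0 = 1`: `kill` for `(H'', H', 1 - e)`: `H'' = ⊥`, so `H' = ⊤`.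
-/

set_option autoImplicit false

namespace MPadcLZ

open MvPolynomial MPadcHM

universe u

section Def

variable {κ : Type u} [Field κ] {N : ℕ} (S : PDat κ N) {Mo : Type u}
  [AddCommGroup Mo] [Module (RatFunc κ) Mo] [Module (Polynomial κ) Mo]
  [IsScalarTower (Polynomial κ) (RatFunc κ) Mo]

/-- The lattice package. -/
structure Pk (nab : Mo →+ Mo) (br : MvPolynomial (Fin N) (RatFunc κ) →ₗ[RatFunc κ] Mo) (k : ℕ)
    (E : Submodule (Polynomial κ) Mo) (u : Mo) (al : κ) : Prop where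
  hN : N ≤ k
  hk : S.M + N ≤ S.d * (k + 2)
  ld : LD nab S.del E u al
  al1 : al = 0 ∨ ∀ z : ℤ, al ≠ z
  al2 : ∃ z : ℤ, z ≤ 0 ∧ 2 * al = z
  le : E ≤ EL S br k
  low : ∀ e : Fin N →₀ ℕ, S.d ∣ dg e + N → dg e + N ≤ S.d * (N / 2) → br (monomial e 1) ∈ E
  kind : ∀ j, NearIn E (S.tau j) u ∨ ¬ StabAt nab E (S.tau j)
  uk : ∀ j, NearIn (EL S br k) (S.tau j) (uu S br k) → NearIn E (S.tau j) u
  dd : ∀ τ : κ, ∀ x ∈ EL S br k, InDD nab E τ x

end Def

section Gen

variable {κ : Type u} [Field κ] {Mo : Type u}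
  [AddCommGroup Mo] [Module (RatFunc κ) Mo] [Module (Polynomial κ) Mo]
  [IsScalarTower (Polynomial κ) (RatFunc κ) Mo]

theorem in_E [IsAlgClosed κ] (E : Submodule (Polynomial κ) Mo) (y : Mo)
    (h : ∀ τ : κ, NearIn E τ y) : y ∈ E := by
  let I : Ideal (Polynomial κ) := E.comap (LinearMap.toSpanSingleton (Polynomial κ) Mo y)
  have hI : ∀ q : Polynomial κ, q ∈ I ↔ q • y ∈ E := by
    intro q
    change (LinearMap.toSpanSingleton (Polynomial κ) Mo y) q ∈ E ↔ q • y ∈ E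
    rw [LinearMap.toSpanSingleton_apply]
  obtain ⟨g, hg⟩ := (IsPrincipalIdealRing.principal I).principal
  have hg' : ∀ q : Polynomial κ, q ∈ I ↔ g ∣ q := by
    intro q
    rw [hg]
    exact Ideal.mem_span_singleton
  by_cases hdeg : g.degree = 0
  · have hu : IsUnit g := Polynomial.isUnit_iff_degree_eq_zero.2 hdeg
    have h1 : (1 : Polynomial κ) ∈ I := (hg' 1).2 hu.dvd
    have h2 := (hI 1).1 h1
    rwa [one_smul] at h2
  · obtain ⟨τ, hτ⟩ := IsAlgClosed.exists_root g hdeg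
    obtain ⟨q, hq, hqy⟩ := h τ
    obtain ⟨c, hc⟩ := (hg' q).1 ((hI q).2 hqy)
    exfalso
    apply hq
    rw [hc, Polynomial.eval_mul, show g.eval τ = 0 from hτ, zero_mul]

theorem fg_sub (E E' : Submodule (Polynomial κ) Mo) (hE : E.FG) (h : E' ≤ E) : E'.FG := by
  have h1 : IsNoetherian (Polynomial κ) E := isNoetherian_of_fg_of_noetherian E hE
  exact isNoetherian_submodule.1 h1 E' h

theorem exists_proj {nab : Mo →+ Mo} {H' H'' : Submodule (RatFunc κ) Mo}
    (h : IsCompl H' H'') (h' : ∀ x ∈ H', nab x ∈ H') (h'' : ∀ x ∈ H'', nab x ∈ H'') :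
    ∃ e : Mo →ₗ[RatFunc κ] Mo, (∀ x ∈ H', e x = x) ∧ (∀ x ∈ H'', e x = 0) ∧
      ∀ x, e (nab x) = nab (e x) := by
  refine ⟨H'.subtype.comp (H'.projectionOnto H'' h), ?_, ?_, ?_⟩
  · intro x hx
    have h1 := Submodule.projectionOnto_apply_left h ⟨x, hx⟩
    rw [LinearMap.comp_apply, h1]
    rfl
  · intro x hx
    have h1 := Submodule.projectionOnto_apply_right h ⟨x, hx⟩
    rw [LinearMap.comp_apply, h1, map_zero]
  · have hl : ∀ x ∈ H', (H'.subtype.comp (H'.projectionOnto H'' h)) x = x := by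
      intro x hx
      have h1 := Submodule.projectionOnto_apply_left h ⟨x, hx⟩
      rw [LinearMap.comp_apply, h1]
      rfl
    have hr : ∀ x ∈ H'', (H'.subtype.comp (H'.projectionOnto H'' h)) x = 0 := by
      intro x hx
      have h1 := Submodule.projectionOnto_apply_right h ⟨x, hx⟩
      rw [LinearMap.comp_apply, h1, map_zero]
    intro x
    have hx : x ∈ H' ⊔ H'' := by
      rw [h.sup_eq_top]
      trivial
    obtain ⟨a, ha, b, hb, rfl⟩ := Submodule.mem_sup.1 hx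
    rw [map_add nab, map_add, map_add, hl _ (h' a ha), hr _ (h'' b hb), hl a ha, hr b hb, add_zero,
      add_zero]

end Gen

variable {κ : Type u} [Field κ] [CharZero κ] {N : ℕ} (S : PDat κ N) {Mo : Type u}
  [AddCommGroup Mo] [Module (RatFunc κ) Mo] [Module (Polynomial κ) Mo]
  [IsScalarTower (Polynomial κ) (RatFunc κ) Mo] {nab : Mo →+ Mo}
  {br : MvPolynomial (Fin N) (RatFunc κ) →ₗ[RatFunc κ] Mo}
  {B : Mo →ₗ[RatFunc κ] Mo →ₗ[RatFunc κ] RatFunc κ}
  {rho : MvPolynomial (Fin N) (RatFunc κ) →ₗ[RatFunc κ] RatFunc κ}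
  {s r : ℕ} {g : Fin r → Mo} {w : Fin r → ℤ} {W : (Fin N →₀ ℕ) → ℕ}
  {k : ℕ} {E : Submodule (Polynomial κ) Mo} {u : Mo} {al : κ} {m₀ : ℕ}

theorem pk_exists (hS : S.Ok) (hG : IsHG S nab br) : ∃ k E u al, Pk S nab br k E u al := by
  obtain ⟨k, E, u, al, h1, h2, h3, h4, h5, h6, h7, h8, h9, h10⟩ := lat_main S hS hG N
  exact ⟨k, E, u, al, h1, h2, h3, h4, h5, h6, h7, h8, h9, h10⟩

theorem pk_tau (hS : S.Ok) (hK : Pk S nab br k E u al) (τ : κ) :
    StabAt nab E τ ∨ (S.del.eval τ = 0 ∧ (Polynomial.derivative S.del).eval τ ≠ 0 ∧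
      ¬ NearIn E τ u ∧ ¬ StabAt nab E τ) := by
  by_cases hu : NearIn E τ u
  · left
    intro x hx
    obtain ⟨p, hp⟩ := hK.ld.nabE x hx
    obtain ⟨q, hq, hqu⟩ := hu
    refine ⟨q, hq, ?_⟩
    have h1 : q • nab x = q • (nab x - p • u) + p • (q • u) := by
      rw [smul_sub, smul_comm p q u]
      abel
    rw [h1]
    exact E.add_mem (E.smul_mem q hp) (E.smul_mem p hqu)
  · have hdel : S.del.eval τ = 0 := by
      by_contra hne
      exact hu ⟨S.del, hne, hK.ld.delu⟩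
    have hj : ∃ j, τ = S.tau j := by
      unfold PDat.del at hdel
      rw [Polynomial.eval_prod, Finset.prod_eq_zero_iff] at hdel
      obtain ⟨j, -, hj⟩ := hdel
      refine ⟨j, ?_⟩
      rw [Polynomial.eval_sub, Polynomial.eval_X, Polynomial.eval_C] at hj
      exact sub_eq_zero.1 hj
    obtain ⟨j, rfl⟩ := hj
    right
    refine ⟨hdel, ?_, hu, (hK.kind j).resolve_left hu⟩
    have h1 : S.del = (Polynomial.X - Polynomial.C (S.tau j)) *
        ∏ i ∈ Finset.univ.erase j, (Polynomial.X - Polynomial.C (S.tau i)) := by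
      unfold PDat.del
      exact (Finset.mul_prod_erase Finset.univ
        (fun i => (Polynomial.X - Polynomial.C (S.tau i) : Polynomial κ))
        (Finset.mem_univ j)).symm
    rw [h1, Polynomial.derivative_mul, Polynomial.derivative_sub, Polynomial.derivative_X,
      Polynomial.derivative_C, sub_zero, one_mul, Polynomial.eval_add, Polynomial.eval_mul,
      Polynomial.eval_sub, Polynomial.eval_X, Polynomial.eval_C, sub_self, zero_mul, add_zero,
      Polynomial.eval_prod]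
    refine Finset.prod_ne_zero_iff.2 fun i hi => ?_
    rw [Polynomial.eval_sub, Polynomial.eval_X, Polynomial.eval_C]
    exact (hS.sep j i (Ne.symm (Finset.ne_of_mem_erase hi))).ne_zero

theorem noflat [IsAlgClosed κ] (hS : S.Ok) (hG : IsHG S nab br) (hP : IsPP S nab br B rho)
    (hI : InfW S nab br s r g w W) (hK : Pk S nab br k E u al) (h : Mo) (hh : nab h = 0) :
    h = 0 := by
  apply nd_left S hS hG hP h
  have hd3 : 3 ≤ S.d := hS.hd
  have hmain : B h = 0 := by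
    refine LinearMap.ext_on (mo_span S hS hG hP) ?_
    rintro x ⟨e, he1, he2, rfl⟩
    rw [LinearMap.zero_apply]
    have hb : Bd s (0 + -(W e : ℤ)) (B h (br (monomial e 1))) :=
      inf_form hG.leib hI.ok B hP.flat (inf_flat hG.leib hI.ok hh) (hI.inW e he1)
    have hW := hI.pos e he1
    refine reg_bd_zero (by omega) ?_ hb
    intro τ
    obtain ⟨T0, -, -, -, -, h5, -⟩ := loc_main hG.leib hK.ld hK.al1 hK.al2 B hP.flat
      (nd_left S hS hG hP) (nd_right S hS hG hP) τ (pk_tau S hS hK τ)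
    refine h5 h hh _ (hK.dd τ _ (Submodule.subset_span ⟨e, he1, ?_, rfl⟩))
    have h6 : N * (S.d - 2) + N ≤ N * S.d := by
      obtain ⟨c, hc⟩ : ∃ c, S.d = c + 2 := ⟨S.d - 2, by omega⟩
      rw [hc, Nat.add_sub_cancel]
      nlinarith
    have h7 : N * S.d ≤ S.d * (k + 1) := by
      rw [mul_comm N S.d]
      exact Nat.mul_le_mul_left _ (by have := hK.hN; omega)
    omega
  intro y
  rw [hmain, LinearMap.zero_apply]

theorem nostab [IsAlgClosed κ] (hS : S.Ok) (hG : IsHG S nab br) (hP : IsPP S nab br B rho)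
    (hI : InfW S nab br s r g w W) (hK : Pk S nab br k E u al)
    (E' : Submodule (Polynomial κ) Mo) (hfg : E'.FG) (hst : ∀ x ∈ E', nab x ∈ E') : E' = ⊥ := by
  by_contra hne
  obtain ⟨h, -, hne0, hflat⟩ := inf_stable hG.leib hI.ok B hP.flat (nd_left S hS hG hP) E' hfg
    hst hne
  exact hne0 (noflat S hS hG hP hI hK h hflat)

theorem stab_bot [IsAlgClosed κ] (hS : S.Ok) (hG : IsHG S nab br) (hP : IsPP S nab br B rho)
    (hI : InfW S nab br s r g w W) (hK : Pk S nab br k E u al) (R : Submodule (RatFunc κ) Mo)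
    (hR : ∀ x ∈ R, nab x ∈ R) (hRE : ∀ x ∈ R, x ∈ E → nab x ∈ E) : R = ⊥ := by
  have hE' : E ⊓ R.restrictScalars (Polynomial κ) = ⊥ := by
    refine nostab S hS hG hP hI hK _ (fg_sub E _ hK.ld.fg inf_le_left) ?_
    rintro x ⟨hx, hx'⟩
    exact ⟨hRE x hx' hx, hR x hx'⟩
  rw [eq_bot_iff]
  intro x hx
  obtain ⟨q, hq, hqx⟩ := hK.ld.spn x
  have hqR : q • x ∈ R := by
    rw [← algebraMap_smul (RatFunc κ) q x]
    exact R.smul_mem _ hx
  have h0 : q • x ∈ E ⊓ R.restrictScalars (Polynomial κ) := ⟨hqx, hqR⟩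
  rw [hE', Submodule.mem_bot, ← algebraMap_smul (RatFunc κ) q x] at h0
  have hq' : algebraMap (Polynomial κ) (RatFunc κ) q ≠ 0 :=
    (map_ne_zero_iff _ (RatFunc.algebraMap_injective κ)).2 hq
  rw [Submodule.mem_bot]
  exact (smul_eq_zero.1 h0).resolve_left hq'

theorem iso_bot [IsAlgClosed κ] (hS : S.Ok) (hG : IsHG S nab br) (hP : IsPP S nab br B rho)
    (hI : InfW S nab br s r g w W) (hK : Pk S nab br k E u al) (R : Submodule (RatFunc κ) Mo)
    (hR : ∀ x ∈ R, nab x ∈ R) (hRR : ∀ x ∈ R, ∀ y ∈ R, B x y = 0) : R = ⊥ := by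
  refine stab_bot S hS hG hP hI hK R hR ?_
  intro x hx hxE
  refine in_E E _ fun τ => ?_
  obtain ⟨T0, -, -, -, -, -, h⟩ := loc_main hG.leib hK.ld hK.al1 hK.al2 B hP.flat
    (nd_left S hS hG hP) (nd_right S hS hG hP) τ (pk_tau S hS hK τ)
  exact h R hR hRR x hx hxE

theorem orth [IsAlgClosed κ] (hS : S.Ok) (hG : IsHG S nab br) (hP : IsPP S nab br B rho)
    (hI : InfW S nab br s r g w W) (hK : Pk S nab br k E u al) (H' : Submodule (RatFunc κ) Mo)
    (hH : ∀ x ∈ H', nab x ∈ H') :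
    ∃ H'' : Submodule (RatFunc κ) Mo, IsCompl H' H'' ∧ ∀ x ∈ H'', nab x ∈ H'' := by
  let H'' : Submodule (RatFunc κ) Mo :=
    { carrier := {y | ∀ x ∈ H', B x y = 0}
      add_mem' := fun {a b} ha hb x hx => by
        rw [map_add, ha x hx, hb x hx, add_zero]
      zero_mem' := fun x _ => map_zero _
      smul_mem' := fun c a ha x hx => by
        rw [map_smul, ha x hx, smul_zero] }
  have hst : ∀ y ∈ H'', nab y ∈ H'' := by
    intro y hy x hx
    have h1 := hP.flat x y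
    rw [hy x hx, hy (nab x) (hH x hx), map_zero, zero_add] at h1
    exact h1.symm
  have hbot : H' ⊓ H'' = ⊥ := by
    refine iso_bot S hS hG hP hI hK _ ?_ ?_
    · rintro x ⟨hx, hx'⟩
      exact ⟨hH x hx, hst x hx'⟩
    · rintro x ⟨hx, -⟩ y ⟨-, hy⟩
      exact hy x hx
  have hfin : Module.Finite (RatFunc κ) Mo := mo_fin S hS hG hP
  let f : H' →ₗ[RatFunc κ] Module.Dual (RatFunc κ) H' :=
    B.flip.compl₁₂ H'.subtype H'.subtype
  have hfa : ∀ x y : H', f y x = B x y := fun _ _ => rfl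
  have hinj : Function.Injective f := by
    rw [injective_iff_map_eq_zero]
    intro y hy
    have h1 : (y : Mo) ∈ H' ⊓ H'' := by
      refine ⟨y.2, fun x hx => ?_⟩
      have h2 := hfa ⟨x, hx⟩ y
      rw [hy, LinearMap.zero_apply] at h2
      exact h2.symm
    rw [hbot, Submodule.mem_bot] at h1
    exact Subtype.ext h1
  have hsurj : Function.Surjective f :=
    (LinearMap.injective_iff_surjective_of_finrank_eq_finrank
      (Subspace.dual_finrank_eq (K := RatFunc κ) (V := H')).symm).1 hinj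
  refine ⟨H'', ⟨disjoint_iff.2 hbot, codisjoint_iff.2 ?_⟩, hst⟩
  rw [eq_top_iff]
  intro z _
  obtain ⟨y, hy⟩ := hsurj ((B.flip z).comp H'.subtype)
  rw [Submodule.mem_sup]
  refine ⟨y, y.2, z - y, fun x hx => ?_, add_sub_cancel _ _⟩
  have h3 : B x (y : Mo) = B x z := by
    have h4 := hfa ⟨x, hx⟩ y
    rw [hy] at h4
    exact h4.symm
  rw [map_sub, h3, sub_self]

theorem loc_eps (hS : S.Ok) (hG : IsHG S nab br) (hP : IsPP S nab br B rho)
    (hK : Pk S nab br k E u al) (e : Mo →ₗ[RatFunc κ] Mo) (he : ∀ x, e (nab x) = nab (e x))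
    (hm₀ : m₀ < S.d) (hm₀' : S.d ∣ m₀ + N) :
    ∃ eps : κ → κ, ∀ τ, ∀ u v : Fin N →₀ ℕ, dg u = m₀ → S.d ∣ dg v + N →
      dg v ≤ N * (S.d - 2) → RegAt τ (B (e (br (monomial u 1))) (br (monomial v 1)) -
        algebraMap κ (RatFunc κ) (eps τ) * B (br (monomial u 1)) (br (monomial v 1))) := by
  have key : ∀ τ : κ, ∃ ep : κ, ∀ x ∈ E, ∀ y, InDD nab E τ y →
      RegAt τ (B (e x) y - algebraMap κ (RatFunc κ) ep * B x y) := by
    intro τ
    obtain ⟨T0, -, -, -, h, -, -⟩ := loc_main hG.leib hK.ld hK.al1 hK.al2 B hP.flat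
      (nd_left S hS hG hP) (nd_right S hS hG hP) τ (pk_tau S hS hK τ)
    obtain ⟨ep, h1, -⟩ := h e he
    exact ⟨ep, h1⟩
  choose eps heps using key
  refine ⟨eps, fun τ u v hu hv hv' => ?_⟩
  have hN3 := hS.hN
  have hd3 := hS.hd
  refine heps τ _ ?_ _ ?_
  · refine hK.low u (by rw [hu]; exact hm₀') ?_
    rw [hu]
    obtain ⟨a, ha⟩ := hm₀'
    have h1 : N ≤ S.d * (N / 2) := by
      have h2 : 3 * (N / 2) ≤ S.d * (N / 2) := Nat.mul_le_mul_right _ hd3
      omega
    have h3 : S.d * a < S.d * (N / 2 + 1) := by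
      rw [← ha, Nat.mul_add, Nat.mul_one]
      omega
    have h4 : a < N / 2 + 1 := lt_of_mul_lt_mul_left h3 (Nat.zero_le _)
    rw [ha]
    exact Nat.mul_le_mul_left _ (by omega)
  · refine hK.dd τ _ (Submodule.subset_span ⟨v, hv, ?_, rfl⟩)
    have hkN := hK.hN
    obtain ⟨c, hc⟩ : ∃ c, S.d = c + 2 := ⟨S.d - 2, by omega⟩
    rw [hc] at hv' ⊢
    have h5 : c + 2 - 2 = c := by omega
    rw [h5] at hv'
    nlinarith

private theorem irrpc_low {N d m₀ : ℕ} (hN : 3 ≤ N) (hd : 3 ≤ d) (hm₀ : m₀ < d) (h : d ∣ m₀ + N) :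
    ∃ a, d * (a + 1) = m₀ + N ∧ a + 1 ≤ N / 2 := by
  obtain ⟨q, hq⟩ := h
  have hq0 : q ≠ 0 := by
    rintro rfl
    omega
  obtain ⟨a, rfl⟩ := Nat.exists_eq_succ_of_ne_zero hq0
  refine ⟨a, hq.symm, ?_⟩
  by_contra hc
  have h1 : N / 2 ≤ a := by omega
  have h2 : d * (N / 2) ≤ d * a := Nat.mul_le_mul_left d h1
  have h3 : 3 * (N / 2) ≤ d * (N / 2) := Nat.mul_le_mul_right _ hd
  have h4 : d * (a + 1) = d * a + d := by ring
  have h5 : m₀ + N = d * a + d := by
    rw [hq, Nat.succ_eq_add_one, h4]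
  omega

private theorem irrpc_hm {R : Type*} [CommRing R] {N : ℕ} {P : MvPolynomial (Fin N) R}
    (hP : Hm 1 P) (m : ℕ) : Hm m (P ^ m) := by
  classical
  induction m with
  | zero =>
    intro e he
    rw [pow_zero, MvPolynomial.mem_support_iff, MvPolynomial.coeff_one] at he
    have h0 : e = 0 := by
      by_contra h
      exact he (if_neg fun h' => h h'.symm)
    rw [h0]
    simp [dg]
  | succ m ih =>
    intro e he
    rw [pow_succ] at he
    obtain ⟨a, ha, b, hb, rfl⟩ := Finset.mem_add.1 (MvPolynomial.support_mul _ _ he)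
    rw [dg_add, ih a ha, hP b hb]

private theorem irrpc_C {κ : Type u} [Field κ] {Mo : Type u}
    [AddCommGroup Mo] [Module (RatFunc κ) Mo] [Module (Polynomial κ) Mo]
    [IsScalarTower (Polynomial κ) (RatFunc κ) Mo] (c : κ) (y : Mo) :
    (algebraMap κ (RatFunc κ) c) • y = (Polynomial.C c : Polynomial κ) • y := by
  rw [← IsScalarTower.algebraMap_smul (RatFunc κ) (Polynomial.C c : Polynomial κ) y]
  congr 1

theorem kill [IsAlgClosed κ] (hS : S.Ok) (hG : IsHG S nab br) (hP : IsPP S nab br B rho)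
    (hI : InfW S nab br s r g w W) (hK : Pk S nab br k E u al) (H' : Submodule (RatFunc κ) Mo)
    (hH : ∀ x ∈ H', nab x ∈ H') (e : Mo →ₗ[RatFunc κ] Mo) (he : ∀ x, e (nab x) = nab (e x))
    (he' : ∀ x ∈ H', e x = x) (hm₀ : m₀ < S.d) (hm₀' : S.d ∣ m₀ + N)
    (h0 : ∀ u : Fin N →₀ ℕ, dg u = m₀ → e (br (monomial u 1)) = 0) : H' = ⊥ := by
  have hd3 := hS.hd
  have hN3 := hS.hN
  obtain ⟨a, ha, haN⟩ := irrpc_low hN3 hd3 hm₀ hm₀'
  have hlow : m₀ + N ≤ S.d * (N / 2) := by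
    rw [← ha]
    exact Nat.mul_le_mul_left _ haN
  set L : MvPolynomial (Fin N) (RatFunc κ) := S.ell.map (algebraMap κ (RatFunc κ)) ^ m₀ with hL
  have hLmap : L = (S.ell ^ m₀).map (algebraMap κ (RatFunc κ)) := by rw [hL, map_pow]
  have hbrL : br L = ∑ v ∈ (S.ell ^ m₀).support,
      (algebraMap κ (RatFunc κ) (coeff v (S.ell ^ m₀))) • br (monomial v 1) := by
    have h1 : L = ∑ v ∈ (S.ell ^ m₀).support,
        (algebraMap κ (RatFunc κ) (coeff v (S.ell ^ m₀))) • monomial v (1 : RatFunc κ) := by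
      rw [hLmap]
      conv_lhs => rw [(S.ell ^ m₀).as_sum]
      rw [map_sum]
      refine Finset.sum_congr rfl fun v _ => ?_
      rw [map_monomial, smul_monomial, smul_eq_mul, mul_one]
    rw [h1, map_sum]
    refine Finset.sum_congr rfl fun v _ => ?_
    rw [map_smul]
  have hdg : ∀ v ∈ (S.ell ^ m₀).support, dg v = m₀ := irrpc_hm hS.homl m₀
  have heL : e (br L) = 0 := by
    rw [hbrL, map_sum]
    refine Finset.sum_eq_zero fun v hv => ?_
    rw [map_smul, h0 v (hdg v hv), smul_zero]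
  have hLE : br L ∈ E := by
    rw [hbrL]
    refine Submodule.sum_mem _ fun v hv => ?_
    rw [irrpc_C]
    refine Submodule.smul_mem _ _ (hK.low v ?_ ?_)
    · rw [hdg v hv]
      exact hm₀'
    · rw [hdg v hv]
      exact hlow
  refine stab_bot S hS hG hP hI hK H' hH fun x hx hxE => in_E E (nab x) fun τ => ?_
  have hτ := pk_tau S hS hK τ
  rcases id hτ with hst | ⟨hdel, _, hnu, _⟩
  · exact hst x hxE
  obtain ⟨j, hj⟩ : ∃ j, τ = S.tau j := by
    rw [PDat.del, Polynomial.eval_prod, Finset.prod_eq_zero_iff] at hdel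
    obtain ⟨j, _, hj⟩ := hdel
    rw [Polynomial.eval_sub, Polynomial.eval_X, Polynomial.eval_C, sub_eq_zero] at hj
    exact ⟨j, hj⟩
  obtain ⟨T0, hCl, hNear, _, heps, _, _⟩ := loc_main hG.leib hK.ld hK.al1 hK.al2 B hP.flat
    (nd_left S hS hG hP) (nd_right S hS hG hP) τ hτ
  obtain ⟨eps, _, h2⟩ := heps e he
  have hLT : br L ∉ T0 := by
    intro hT
    apply hnu
    have hT' : ∀ i, nab^[i] (br L) ∈ T0 := by
      intro i
      induction i with
      | zero => exact hT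
      | succ i ih =>
        rw [Function.iterate_succ_apply']
        exact hCl.stab _ ih
    have hma : S.d * (a + 1) - N = m₀ := by omega
    rw [hj]
    refine hK.uk j (ell_chain S hS hG k a hK.hk ?_ ?_ j fun i => ?_)
    · have := hK.hN
      omega
    · omega
    · rw [hma, ← hL, ← hj]
      obtain ⟨q, hq, hqE⟩ := hNear _ (hT' i)
      exact ⟨q, hq, hK.le hqE⟩
  have heps0 : 0 = eps := by
    rcases h2 (br L) hLE 0 (by rw [heL, map_zero, zero_smul]) with h | h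
    · exact h
    · exact absurd h hLT
  rcases h2 x hxE 1 (by rw [he' x hx, map_one, one_smul]) with h | h
  · rw [← heps0] at h
    exact absurd h one_ne_zero
  · exact hNear _ (hCl.stab _ h)

theorem irr_pdat [IsAlgClosed κ] (hS : S.Ok) (hG : IsHG S nab br) (hP : IsPP S nab br B rho)
    (hI : InfW S nab br s r g w W) (H' : Submodule (RatFunc κ) Mo)
    (hH : ∀ x ∈ H', nab x ∈ H') : H' = ⊥ ∨ H' = ⊤ := by
  obtain ⟨k, E, u, al, hK⟩ := pk_exists S hS hG
  obtain ⟨H'', hc, hH''⟩ := orth S hS hG hP hI hK H' hH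
  obtain ⟨e, he1, he2, he⟩ := exists_proj hc hH hH''
  have hd3 := hS.hd
  obtain ⟨m₀, hm₀, hm₀'⟩ : ∃ m₀, m₀ < S.d ∧ S.d ∣ m₀ + N := by
    refine ⟨(S.d - N % S.d) % S.d, Nat.mod_lt _ (by omega), ?_⟩
    rw [Nat.dvd_iff_mod_eq_zero, Nat.mod_add_mod]
    have h1 : N % S.d < S.d := Nat.mod_lt _ (by omega)
    have h2 : S.d - N % S.d + N = S.d * (N / S.d + 1) := by
      have h3 := Nat.div_add_mod N S.d
      rw [mul_add, mul_one]
      omega
    rw [h2, Nat.mul_mod_right]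
  obtain ⟨eps, heps⟩ := loc_eps S hS hG hP hK e he hm₀ hm₀'
  obtain ⟨g0, hg0⟩ := scalar_low S e hS hG hP hI he hm₀ hm₀' heps
  obtain ⟨v, v', hv, hv', hr⟩ := low_ne S hS hP m₀ hm₀
  have hne : br (monomial v 1) ≠ 0 := by
    intro h0
    have h1 := hP.mid v v' (by rw [hv]; exact hm₀') (by omega)
    rw [h0, map_zero, LinearMap.zero_apply] at h1
    have h2 : ((-1 : RatFunc κ)) ^ ((dg v + N) / S.d + 1) ≠ 0 :=
      pow_ne_zero _ (neg_ne_zero.2 one_ne_zero)
    exact mul_ne_zero h2 hr h1.symm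
  have hee : ∀ x, e (e x) = e x := by
    intro x
    obtain ⟨y, hy, z, hz, hyz⟩ : ∃ y ∈ H', ∃ z ∈ H'', y + z = x := by
      have h1 : x ∈ H' ⊔ H'' := by
        rw [hc.sup_eq_top]
        exact Submodule.mem_top
      exact Submodule.mem_sup.1 h1
    rw [← hyz, map_add, he1 y hy, he2 z hz, add_zero, he1 y hy]
  have hg2 : g0 * g0 = g0 := by
    have h1 := hee (br (monomial v 1))
    rw [hg0 v hv, map_smul, hg0 v hv, smul_smul] at h1
    have h2 : (g0 * g0 - g0) • br (monomial v 1) = 0 := by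
      rw [sub_smul, h1, sub_self]
    rcases smul_eq_zero.1 h2 with h3 | h3
    · exact sub_eq_zero.1 h3
    · exact absurd h3 hne
  have hg3 : g0 = 0 ∨ g0 = 1 := by
    have h1 : g0 * (g0 - 1) = 0 := by
      rw [mul_sub, hg2, mul_one, sub_self]
    rcases mul_eq_zero.1 h1 with h2 | h2
    · exact Or.inl h2
    · exact Or.inr (sub_eq_zero.1 h2)
  rcases hg3 with h0 | h1
  · left
    refine kill S hS hG hP hI hK H' hH e he he1 hm₀ hm₀' fun w hw => ?_
    rw [hg0 w hw, h0, zero_smul]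
  · right
    have h2 : H'' = ⊥ := by
      refine kill S hS hG hP hI hK H'' hH'' (LinearMap.id - e) ?_ ?_ hm₀ hm₀' ?_
      · intro x
        rw [LinearMap.sub_apply, LinearMap.sub_apply, LinearMap.id_apply, LinearMap.id_apply, he x,
          map_sub]
      · intro x hx
        rw [LinearMap.sub_apply, LinearMap.id_apply, he2 x hx, sub_zero]
      · intro w hw
        rw [LinearMap.sub_apply, LinearMap.id_apply, hg0 w hw, h1, one_smul, sub_self]
    have h3 := hc.sup_eq_top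
    rw [h2, sup_bot_eq] at h3
    exact h3

end MPadcLZ
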