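import Pool.Agent.Lib.MP_adc574_ag_LZ.LoB

/-!
# JOB LoC: flat nondegenerate pairings near a node, `α = 0`

`j = algebraMap F⟦X⟧ L`; `B i k = ⟨b_i, b_k⟩`, `X D B = Γᵀ B + B Γ`.

* `flat_B0` (`α = 0`): `B` is integral by `pole` (`σ = ι × ι`), `pole_theta`, `la_B`: not integral would give `m ≥ 1`, `Z` with `X Z' = m Z + Γᵀ Z + Z Γ`, `Z(0) ≠ 0`. Constant coefficients of the equation for `B1`, `Y = B1(0)`:
  `l0 i * (∑ j, a0 j * Y j k) + (∑ j, Y i j * a0 j) * l0 k = 0`; choose `l0 k₀ ≠ 0`: `∑ j, Y i j * a0 j = c l0 i`. `z_i = ∑ k, B1 i k * a k` solves the `l`-equation (`α = 0`): `uniq_l` gives `B1 a = c l`. `c ≠ 0`: otherwise `B a = 0`, `a ≠ 0` (`ha0`, `a0_ne`), contradiction to `hdet`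
  (`Matrix.exists_mulVec_eq_zero_iff`).
-/

set_option autoImplicit false

namespace MPadcLZ

open PowerSeries

namespace Lc

variable {ι : Type} [Fintype ι] [DecidableEq ι] {F : Type*} [Field F] [CharZero F]
  {L : Type*} [Field L] [Algebra F⟦X⟧ L] [IsFractionRing F⟦X⟧ L]

theorem flat_B0 {S : Lc ι F} (hS : S.Ok) {DL : L →+ L} (hDL : IsDL F DL) (hα : S.α = 0)
    (B : Matrix ι ι L)
    (hB : ∀ i k, algebraMap F⟦X⟧ L X * DL (B i k) =
      (∑ m, algebraMap _ L (S.Γ m i) * B m k) + ∑ m, B i m * algebraMap _ L (S.Γ m k))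
    (hdet : B.det ≠ 0) :
    ∃ (B1 : Matrix ι ι F⟦X⟧) (c : F), c ≠ 0 ∧ (∀ i k, B i k = algebraMap _ L (B1 i k)) ∧
      ∀ i, ∑ k, B1 i k * S.a k = C c * S.l i := by
  have hinj : Function.Injective (algebraMap F⟦X⟧ L) := IsFractionRing.injective F⟦X⟧ L
  have htr : ∑ i, S.l0 i * S.a0 i = 0 := by rw [hS.tr, hα]
  rcases pole (F := F) (L := L) (fun p : ι × ι => B p.1 p.2) with ⟨Z, hZ⟩ | ⟨m, Z, hm, hZ, ⟨p, hp⟩⟩
  · have hZ' : ∀ i k, B i k = algebraMap F⟦X⟧ L (Z (i, k)) := fun i k => hZ (i, k)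
    have heq : ∀ i k, X * derivative F (Z (i, k)) =
        (∑ m, S.Γ m i * Z (m, k)) + ∑ m, Z (i, m) * S.Γ m k := by
      intro i k
      apply hinj
      have h1 := hB i k
      rw [hZ' i k, hDL.alg, ← map_mul] at h1
      rw [h1, map_add, map_sum, map_sum]
      congr 1
      · exact Finset.sum_congr rfl fun m _ => by rw [map_mul, hZ' m k]
      · exact Finset.sum_congr rfl fun m _ => by rw [map_mul, hZ' i m]
    have hc : ∀ i k, S.l0 i * (∑ j, S.a0 j * constantCoeff (Z (j, k))) +
        (∑ j, constantCoeff (Z (i, j)) * S.a0 j) * S.l0 k = 0 := by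
      intro i k
      have h1 := congrArg constantCoeff (heq i k)
      rw [map_mul, constantCoeff_X, zero_mul, map_add, map_sum, map_sum] at h1
      have h2 : ∀ m, constantCoeff (Z (i, m) * S.Γ m k) =
          (constantCoeff (Z (i, m)) * S.a0 m) * S.l0 k := by
        intro m
        rw [map_mul, hS.res]
        ring
      have h3 : ∀ m, constantCoeff (S.Γ m i * Z (m, k)) =
          S.l0 i * (S.a0 m * constantCoeff (Z (m, k))) := by
        intro m
        rw [map_mul, hS.res]
        ring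
      rw [Finset.sum_congr rfl fun m _ => h2 m, Finset.sum_congr rfl fun m _ => h3 m,
        ← Finset.sum_mul, ← Finset.mul_sum] at h1
      exact h1.symm
    obtain ⟨k₀, hk₀⟩ := hS.l0_ne
    set c : F := -(∑ j, S.a0 j * constantCoeff (Z (j, k₀))) / S.l0 k₀ with hcdef
    have hc' : ∀ i, ∑ j, constantCoeff (Z (i, j)) * S.a0 j = c * S.l0 i := by
      intro i
      rw [hcdef]
      have h1 := hc i k₀
      field_simp
      linear_combination h1
    have hz0 : ∀ i, constantCoeff (∑ k, Z (i, k) * S.a k) = c * S.l0 i := by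
      intro i
      rw [map_sum, ← hc' i]
      exact Finset.sum_congr rfl fun k _ => by rw [map_mul, hS.ha0]
    have hzD : ∀ k, X * derivative F (∑ j, Z (k, j) * S.a j) =
        (∑ i, S.Γ i k * ∑ j, Z (i, j) * S.a j) - C S.α * ∑ j, Z (k, j) * S.a j := by
      intro k
      have h1 : derivative F (∑ j, Z (k, j) * S.a j) =
          ∑ j, (Z (k, j) * derivative F (S.a j) + S.a j * derivative F (Z (k, j))) := by
        rw [map_sum]
        refine Finset.sum_congr rfl fun j _ => ?_
        rw [Derivation.leibniz, smul_eq_mul, smul_eq_mul]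
      have h2 : ∀ j, X * (Z (k, j) * derivative F (S.a j) + S.a j * derivative F (Z (k, j))) =
          (∑ m, S.Γ m k * (Z (m, j) * S.a j)) +
            ((∑ m, Z (k, m) * S.Γ m j * S.a j) - ∑ m, Z (k, j) * S.Γ j m * S.a m) := by
        intro j
        have h3 : X * (Z (k, j) * derivative F (S.a j) + S.a j * derivative F (Z (k, j))) =
          Z (k, j) * (X * derivative F (S.a j)) + S.a j * (X * derivative F (Z (k, j))) := by ring
        rw [h3, hS.ha j, heq k j, hα, map_zero, zero_mul, add_zero, mul_neg, mul_add,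
          Finset.mul_sum, Finset.mul_sum, Finset.mul_sum]
        have e1 : ∑ m, S.a j * (S.Γ m k * Z (m, j)) = ∑ m, S.Γ m k * (Z (m, j) * S.a j) :=
          Finset.sum_congr rfl fun m _ => by ring
        have e2 : ∑ m, S.a j * (Z (k, m) * S.Γ m j) = ∑ m, Z (k, m) * S.Γ m j * S.a j :=
          Finset.sum_congr rfl fun m _ => by ring
        have e3 : ∑ m, Z (k, j) * (S.Γ j m * S.a m) = ∑ m, Z (k, j) * S.Γ j m * S.a m :=
          Finset.sum_congr rfl fun m _ => by ring
        rw [e1, e2, e3]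
        ring
      rw [h1, Finset.mul_sum, Finset.sum_congr rfl fun j _ => h2 j, Finset.sum_add_distrib,
        Finset.sum_sub_distrib, hα, map_zero, zero_mul, sub_zero]
      have e4 : ∑ j, ∑ m, Z (k, m) * S.Γ m j * S.a j = ∑ j, ∑ m, Z (k, j) * S.Γ j m * S.a m :=
        Finset.sum_comm
      rw [e4, sub_self, add_zero, Finset.sum_comm]
      exact Finset.sum_congr rfl fun m _ => (Finset.mul_sum _ _ _).symm
    have hfin : ∀ i, ∑ k, Z (i, k) * S.a k = C c * S.l i :=
      uniq_l hS (fun i => ∑ k, Z (i, k) * S.a k) hzD c hz0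
    refine ⟨Matrix.of fun i k => Z (i, k), c, ?_, fun i k => hZ' i k, fun i => hfin i⟩
    intro hc0
    apply hdet
    rw [← Matrix.exists_mulVec_eq_zero_iff]
    refine ⟨fun k => algebraMap F⟦X⟧ L (S.a k), ?_, ?_⟩
    · intro h
      obtain ⟨i₀, hi₀⟩ := hS.a0_ne
      apply hi₀
      have h1 := congrFun h i₀
      have h2 : S.a i₀ = 0 := hinj (by rw [map_zero]; exact h1)
      rw [← hS.ha0, h2, map_zero]
    · funext i
      show ∑ k, B i k * algebraMap F⟦X⟧ L (S.a k) = 0
      have h1 : ∀ k, B i k * algebraMap F⟦X⟧ L (S.a k) = algebraMap F⟦X⟧ L (Z (i, k) * S.a k) := by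
        intro k
        rw [map_mul, hZ' i k]
      rw [Finset.sum_congr rfl fun k _ => h1 k, ← map_sum, hfin i, hc0, map_zero, zero_mul, map_zero]
  · exfalso
    have hZ' : ∀ i k, algebraMap F⟦X⟧ L X ^ m * B i k = algebraMap F⟦X⟧ L (Z (i, k)) :=
      fun i k => hZ (i, k)
    have heq : ∀ i k, X * derivative F (Z (i, k)) =
        (m : F⟦X⟧) * Z (i, k) + ((∑ j, S.Γ j i * Z (j, k)) + ∑ j, Z (i, j) * S.Γ j k) := by
      intro i k
      apply hinj
      rw [pole_theta hDL m (B i k) (Z (i, k)) (hZ' i k), hB i k, map_add, map_mul, map_natCast,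
        map_add, map_sum, map_sum, mul_add, Finset.mul_sum, Finset.mul_sum]
      congr 2
      · refine Finset.sum_congr rfl fun j _ => ?_
        rw [map_mul, ← hZ' j k]
        ring
      · refine Finset.sum_congr rfl fun j _ => ?_
        rw [map_mul, ← hZ' i j]
        ring
    have hc : ∀ i k, (m : F) * constantCoeff (Z (i, k)) +
        (S.l0 i * (∑ j, S.a0 j * constantCoeff (Z (j, k))) +
          (∑ j, constantCoeff (Z (i, j)) * S.a0 j) * S.l0 k) = 0 := by
      intro i k
      have h1 := congrArg constantCoeff (heq i k)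
      rw [map_mul, constantCoeff_X, zero_mul, map_add, map_mul, map_natCast, map_add, map_sum,
        map_sum] at h1
      have h2 : ∀ j, constantCoeff (Z (i, j) * S.Γ j k) =
          (constantCoeff (Z (i, j)) * S.a0 j) * S.l0 k := by
        intro j
        rw [map_mul, hS.res]
        ring
      have h3 : ∀ j, constantCoeff (S.Γ j i * Z (j, k)) =
          S.l0 i * (S.a0 j * constantCoeff (Z (j, k))) := by
        intro j
        rw [map_mul, hS.res]
        ring
      rw [Finset.sum_congr rfl fun j _ => h2 j, Finset.sum_congr rfl fun j _ => h3 j,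
        ← Finset.sum_mul, ← Finset.mul_sum] at h1
      exact h1.symm
    exact hp (la_B S.a0 S.l0 htr hm (fun i k => constantCoeff (Z (i, k))) hc p.1 p.2)

end Lc

end MPadcLZ
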