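import Pool.Agent.Lib.MP_adc574_ag_LZ.LoE

/-!
# JOB LoE2: the data at a node

* `node_data`: `del • u ∈ E` has polynomial coordinates `eps i`; `nabE` for `x = b k`: `nab (b k) = ∑ E i k • b i + p k • u`, so `del * b.repr (nab (b k)) i = del * E i k + eps i * p k`. `del = (X - C τ) * d1`, `d1(τ) = del'(τ) ≠ 0`.
  `Γ i k := X * pl (E i k) + pl (eps i) * pl (p k) * (pl d1)⁻¹` (`pl d1` is a unit). `a0 i = eps i (τ)`, `l0 k = p k (τ) / del'(τ)`.
  `a0 ≠ 0`: if all `eps i (τ) = 0`, `eps i = (X - C τ) * eps' i` and `d1 • u = ∑ eps' i • b i ∈ E` (cancel `X - C τ`), contradiction to `¬ NearIn E τ u`. `l0 ≠ 0`: if all `p k (τ) = 0` then `nab (b k) = ∑ E i k • b i + p k • u` and `p k = (X - C τ) p' k`,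
  `d1 • nab (b k) = .. + p' k • (del • u) ∈ E`, and so `nab x` is near `E` for all `x ∈ E`, contradiction to `¬ StabAt`.
  trace: `res`: `nab (del • u) = ∑ eps i ' • b i + ∑ eps i • nab (b i)`, so `(∑ eps i * p i - C al * del') • u ∈ E`; its value at `τ` must be `0` (`¬ NearIn E τ u`).
* `near_of_lx`: `x ∈ E`; `jt (b.repr (nab x) i) * X = X * x_i' + ∑ Γ i k * x_k` (`repr_nab`, `jt_DK`) has constant coefficient `a0 i * ∑ l0 k * x_k(τ) = 0`, so it is `X * s`; `regAt_iff`, `near_iff`.
-/

set_option autoImplicit false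

namespace MPadcLZ

open MPadcHM

universe u

variable {κ : Type u} [Field κ] {Mo : Type u} [AddCommGroup Mo] [Module (RatFunc κ) Mo]
  [Module (Polynomial κ) Mo] [IsScalarTower (Polynomial κ) (RatFunc κ) Mo] {nab : Mo →+ Mo}
  {E : Submodule (Polynomial κ) Mo} {r : ℕ} {b : Module.Basis (Fin r) (RatFunc κ) Mo}

private theorem loe2_smul (b : Module.Basis (Fin r) (RatFunc κ) Mo) (p : Polynomial κ) (x : Mo)
    (i : Fin r) : b.repr (p • x) i = algebraMap (Polynomial κ) (RatFunc κ) p * b.repr x i := by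
  rw [← algebraMap_smul (RatFunc κ) p x, map_smul, Finsupp.smul_apply, smul_eq_mul]

private theorem loe2_pl_sub (τ : κ) (q : Polynomial κ) :
    MPadcLP.pl κ τ ((Polynomial.X - Polynomial.C τ) * q) = PowerSeries.X * MPadcLP.pl κ τ q := by
  rw [map_mul, pl_X_sub]

private theorem loe2_cc (τ : κ) (q : Polynomial κ) :
    PowerSeries.constantCoeff (MPadcLP.pl κ τ q) = q.eval τ := by
  rw [MPadcLP.constantCoeff_pl, Polynomial.coe_aeval_eq_eval]

theorem node_data (leib : ∀ (c : RatFunc κ) (x : Mo), nab (c • x) = DK κ c • x + c • nab x)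
    (hb : LB E b) {del : Polynomial κ} {u : Mo} {al : κ} (hL : LD nab del E u al) {τ : κ}
    (h0 : del.eval τ = 0) (h1 : (Polynomial.derivative del).eval τ ≠ 0) (hu : ¬ NearIn E τ u)
    (hst : ¬ StabAt nab E τ) :
    ∃ (Γ : Matrix (Fin r) (Fin r) (PowerSeries κ)) (a0 l0 : Fin r → κ),
      (∀ i k, algebraMap (PowerSeries κ) (FractionRing (PowerSeries κ)) PowerSeries.X *
        jt τ (b.repr (nab (b k)) i) =
          algebraMap (PowerSeries κ) (FractionRing (PowerSeries κ)) (Γ i k)) ∧
      (∀ i k, PowerSeries.constantCoeff (Γ i k) = a0 i * l0 k) ∧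
      (∃ i, a0 i ≠ 0) ∧ (∃ i, l0 i ≠ 0) ∧ ∑ i, l0 i * a0 i = al := by
  classical
  obtain ⟨d1, hd1⟩ := Polynomial.dvd_iff_isRoot.2 h0
  have hXne : algebraMap (Polynomial κ) (RatFunc κ) (Polynomial.X - Polynomial.C τ) ≠ 0 := by
    intro h
    exact Polynomial.X_sub_C_ne_zero τ
      ((map_eq_zero_iff _ (IsFractionRing.injective (Polynomial κ) (RatFunc κ))).1 h)
  have hdd : (Polynomial.derivative del).eval τ = d1.eval τ := by
    rw [hd1]
    simp
  have hd1τ : d1.eval τ ≠ 0 := by
    rw [← hdd]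
    exact h1
  have hbE : ∀ k, b k ∈ E := by
    intro k
    rw [hb]
    intro i
    refine ⟨if k = i then 1 else 0, ?_⟩
    rw [b.repr_self, Finsupp.single_apply]
    split_ifs <;> simp
  -- the polynomials
  have he0 := (hb _).1 hL.delu
  choose eps heps using he0
  have hp0 : ∀ k, ∃ p : Polynomial κ, nab (b k) - p • u ∈ E := fun k => hL.nabE _ (hbE k)
  choose p hp using hp0
  have hE0 : ∀ k i, ∃ q : Polynomial κ, b.repr (nab (b k) - p k • u) i =
      algebraMap (Polynomial κ) (RatFunc κ) q := fun k => (hb _).1 (hp k)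
  choose Ee hEe using hE0
  have hnab : ∀ i k, b.repr (nab (b k)) i = algebraMap (Polynomial κ) (RatFunc κ) (Ee k i) +
      algebraMap (Polynomial κ) (RatFunc κ) (p k) * b.repr u i := by
    intro i k
    rw [← hEe k i, ← loe2_smul b (p k) u i, ← Finsupp.add_apply, ← map_add, sub_add_cancel]
  have hu' : ∀ i, algebraMap (Polynomial κ) (RatFunc κ) (Polynomial.X - Polynomial.C τ) *
      (algebraMap (Polynomial κ) (RatFunc κ) d1 * b.repr u i) =
      algebraMap (Polynomial κ) (RatFunc κ) (eps i) := by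
    intro i
    rw [← heps i, loe2_smul, hd1, map_mul, mul_assoc]
  have hd1cc : PowerSeries.constantCoeff (MPadcLP.pl κ τ d1) ≠ 0 := by
    rw [loe2_cc]
    exact hd1τ
  have hjd1 : algebraMap (PowerSeries κ) (FractionRing (PowerSeries κ)) (MPadcLP.pl κ τ d1) *
      algebraMap (PowerSeries κ) (FractionRing (PowerSeries κ)) (MPadcLP.pl κ τ d1)⁻¹ = 1 := by
    rw [← map_mul, PowerSeries.mul_inv_cancel _ hd1cc, map_one]
  have hju : ∀ i, algebraMap (PowerSeries κ) (FractionRing (PowerSeries κ)) PowerSeries.X *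
      jt τ (b.repr u i) = algebraMap (PowerSeries κ) (FractionRing (PowerSeries κ))
        (MPadcLP.pl κ τ (eps i) * (MPadcLP.pl κ τ d1)⁻¹) := by
    intro i
    have e1 := congrArg (jt τ) (hu' i)
    rw [map_mul, map_mul, jt_poly, jt_poly, jt_poly, pl_X_sub] at e1
    rw [map_mul, ← e1]
    linear_combination (-(algebraMap (PowerSeries κ) (FractionRing (PowerSeries κ))
      PowerSeries.X * jt τ (b.repr u i))) * hjd1
  refine ⟨Matrix.of fun i k => PowerSeries.X * MPadcLP.pl κ τ (Ee k i) +
    MPadcLP.pl κ τ (p k) * (MPadcLP.pl κ τ (eps i) * (MPadcLP.pl κ τ d1)⁻¹),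
    fun i => (eps i).eval τ, fun k => (p k).eval τ * (d1.eval τ)⁻¹, ?_, ?_, ?_, ?_, ?_⟩
  · intro i k
    rw [Matrix.of_apply, hnab, map_add, map_mul, jt_poly, jt_poly, mul_add, mul_left_comm, hju]
    simp only [map_add, map_mul]
  · intro i k
    rw [Matrix.of_apply, map_add, map_mul, map_mul, map_mul, PowerSeries.constantCoeff_X,
      PowerSeries.constantCoeff_inv, zero_mul, zero_add, loe2_cc, loe2_cc, loe2_cc]
    ring
  · by_contra hne
    push Not at hne
    apply hu
    refine ⟨d1, hd1τ, (hb _).2 fun i => ?_⟩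
    obtain ⟨e', he'⟩ := Polynomial.dvd_iff_isRoot.2 (hne i)
    refine ⟨e', ?_⟩
    rw [loe2_smul]
    apply mul_left_cancel₀ hXne
    rw [hu' i, he', map_mul]
  · by_contra hne
    push Not at hne
    apply hst
    intro x hx
    rw [near_iff hb τ]
    have hpk : ∀ k, ∃ q, p k = (Polynomial.X - Polynomial.C τ) * q := by
      intro k
      apply Polynomial.dvd_iff_isRoot.2
      rcases mul_eq_zero.1 (hne k) with h | h
      · exact h
      · exact absurd (inv_eq_zero.1 h) hd1τ
    have hxr : ∀ k, RegAt τ (b.repr x k) := by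
      intro k
      obtain ⟨q, hq⟩ := (hb x).1 hx k
      rw [hq]
      exact regAt_poly τ q
    have hcon : ∀ i k, RegAt τ (b.repr (nab (b k)) i) := by
      intro i k
      rw [hnab]
      refine (regAt_poly τ _).add ?_
      obtain ⟨q, hq⟩ := hpk k
      apply RegAt.of_mul hd1τ
      have e1 : algebraMap (Polynomial κ) (RatFunc κ) d1 *
          (algebraMap (Polynomial κ) (RatFunc κ) (p k) * b.repr u i) =
          algebraMap (Polynomial κ) (RatFunc κ) (q * eps i) := by
        rw [map_mul, ← hu' i, hq, map_mul]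
        ring
      rw [e1]
      exact regAt_poly τ _
    intro i
    rw [repr_nab leib b x i]
    exact (hxr i).DK.add (RegAt.sum _ fun k _ => (hcon i k).mul (hxr k))
  · have hW : ((∑ k, p k * eps k) - Polynomial.C al * Polynomial.derivative del).eval τ = 0 := by
      by_contra hW
      apply hu
      refine ⟨_, hW, (hb _).2 fun i => ?_⟩
      obtain ⟨R, hR⟩ := (hb _).1 hL.res i
      refine ⟨R - (Polynomial.derivative (eps i) + ∑ k, Ee k i * eps k), ?_⟩
      have e1 : b.repr (nab (del • u)) i = algebraMap (Polynomial κ) (RatFunc κ)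
          (Polynomial.derivative (eps i)) + ∑ k, (algebraMap (Polynomial κ) (RatFunc κ) (Ee k i) +
            algebraMap (Polynomial κ) (RatFunc κ) (p k) * b.repr u i) *
            algebraMap (Polynomial κ) (RatFunc κ) (eps k) := by
        rw [repr_nab leib b (del • u) i, heps, DK_poly]
        congr 1
        refine Finset.sum_congr rfl fun k _ => ?_
        rw [hnab, heps]
      rw [map_sub, Finsupp.sub_apply, loe2_smul, e1] at hR
      rw [loe2_smul, map_sub, map_sub, ← hR]
      simp only [map_add, map_sum, map_mul, add_mul, Finset.sum_add_distrib, sub_mul]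
      have e2 : ∑ k, algebraMap (Polynomial κ) (RatFunc κ) (p k) * b.repr u i *
          algebraMap (Polynomial κ) (RatFunc κ) (eps k) =
          (∑ k, algebraMap (Polynomial κ) (RatFunc κ) (p k) *
            algebraMap (Polynomial κ) (RatFunc κ) (eps k)) * b.repr u i := by
        rw [Finset.sum_mul]
        refine Finset.sum_congr rfl fun k _ => ?_
        ring
      rw [e2]
      ring
    rw [Polynomial.eval_sub, Polynomial.eval_finsetSum, Polynomial.eval_mul, Polynomial.eval_C,
      hdd] at hW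
    have e3 : ∑ k, (p k).eval τ * (d1.eval τ)⁻¹ * (eps k).eval τ =
        (∑ k, (p k * eps k).eval τ) * (d1.eval τ)⁻¹ := by
      rw [Finset.sum_mul]
      refine Finset.sum_congr rfl fun k _ => ?_
      rw [Polynomial.eval_mul]
      ring
    rw [e3, sub_eq_zero.1 hW, mul_assoc, mul_inv_cancel₀ hd1τ, mul_one]

theorem near_of_lx (leib : ∀ (c : RatFunc κ) (x : Mo), nab (c • x) = DK κ c • x + c • nab x)
    (hb : LB E b) {τ : κ}
    (Γ : Matrix (Fin r) (Fin r) (PowerSeries κ)) (a0 l0 : Fin r → κ)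
    (hΓ : ∀ i k, algebraMap (PowerSeries κ) (FractionRing (PowerSeries κ)) PowerSeries.X *
        jt τ (b.repr (nab (b k)) i) =
          algebraMap (PowerSeries κ) (FractionRing (PowerSeries κ)) (Γ i k))
    (hres : ∀ i k, PowerSeries.constantCoeff (Γ i k) = a0 i * l0 k)
    (x : Mo) (z : Fin r → PowerSeries κ)
    (hz : ∀ i, jt τ (b.repr x i) =
      algebraMap (PowerSeries κ) (FractionRing (PowerSeries κ)) (z i))
    (h0 : ∑ i, l0 i * PowerSeries.constantCoeff (z i) = 0) : NearIn E τ (nab x) := by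
  obtain ⟨DX, hDX⟩ := exists_DX κ
  rw [near_iff hb τ]
  intro i
  rw [regAt_iff]
  have hjX : algebraMap (PowerSeries κ) (FractionRing (PowerSeries κ)) PowerSeries.X ≠ 0 := by
    intro h
    exact PowerSeries.X_ne_zero
      ((map_eq_zero_iff _ (IsFractionRing.injective (PowerSeries κ)
        (FractionRing (PowerSeries κ)))).1 h)
  have e1 : algebraMap (PowerSeries κ) (FractionRing (PowerSeries κ)) PowerSeries.X *
      jt τ (b.repr (nab x) i) = algebraMap (PowerSeries κ) (FractionRing (PowerSeries κ))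
        (PowerSeries.X * PowerSeries.derivative κ (z i) + ∑ k, Γ i k * z k) := by
    rw [repr_nab leib b x i, map_add, ← jt_DK hDX, hz i, hDX.alg, map_sum, mul_add,
      Finset.mul_sum, map_add, map_mul, map_sum]
    congr 1
    refine Finset.sum_congr rfl fun k _ => ?_
    rw [map_mul, hz k, map_mul, ← hΓ i k, mul_assoc]
  have e2 : PowerSeries.constantCoeff
      (PowerSeries.X * PowerSeries.derivative κ (z i) + ∑ k, Γ i k * z k) = 0 := by
    rw [map_add, map_mul, PowerSeries.constantCoeff_X, zero_mul, zero_add, map_sum]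
    have e3 : ∀ k, PowerSeries.constantCoeff (Γ i k * z k) =
        a0 i * (l0 k * PowerSeries.constantCoeff (z k)) := by
      intro k
      rw [map_mul, hres, mul_assoc]
    rw [Finset.sum_congr rfl fun k _ => e3 k, ← Finset.mul_sum, h0, mul_zero]
  obtain ⟨s, hs⟩ := PowerSeries.X_dvd_iff.2 e2
  refine ⟨s, ?_⟩
  apply mul_left_cancel₀ hjX
  rw [e1, hs, map_mul]

end MPadcLZ
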