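import Mathlib

/-!
# JOB LoA2: uniqueness and linear algebra

* `uniq_vec`: by strong induction on `n`, `coeff n (Y i) = 0` for all `i`: `coeff n (X * Y') = n * coeff n Y`, `coeff n (∑ A i j Y j) = ∑ j, A0 i j * coeff n (Y j)`
  (`coeff_mul`, the terms of the antidiagonal with second component `< n` vanish), and `hA n`.
* the linear algebra lemmas `la_*`, `m ≥ 1`, `α = 0` or `2 α = - (2 w + 1)` (so `m ± α ≠ 0`): apply `a0 .` or `l0 .` to the equation.
  E.g. `la_l'`: `s = ∑ a0 j * z j`: `m s + α s - α s = 0`, so `s = 0`, so `(m - α) z = 0`.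
  `la_e` (`N = a0 l0ᵀ`): `m Y + Y N - N Y = 0`, `u_i = ∑ Y i j a0 j`, `v_k = ∑ l0 j Y j k`, `s = ∑ l0 i u_i`. Apply `l0 .` and `. a0`: `m s + α s - α s = 0`, `s = 0`;
  `l0 .` alone: `m v_k + s l0_k - α v_k = 0`, `v = 0`; `. a0` alone: `m u_i + α u_i - a0_i s = 0`, `u = 0`; so `m Y = 0`. `la_B` the same with `α = 0`.
-/

set_option autoImplicit false

namespace MPadcLZ

open PowerSeries

theorem uniq_vec {F : Type*} [Field F] {σ : Type*} [Fintype σ] (A : Matrix σ σ F⟦X⟧)
    (hA : ∀ m : ℕ, 1 ≤ m → ∀ z : σ → F,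
      (∀ i, ∑ j, constantCoeff (A i j) * z j = (m : F) * z i) → ∀ i, z i = 0)
    (Y : σ → F⟦X⟧) (hY : ∀ i, X * derivative F (Y i) = ∑ j, A i j * Y j)
    (h0 : ∀ i, constantCoeff (Y i) = 0) : ∀ i, Y i = 0 := by
  have key : ∀ n : ℕ, ∀ i, coeff n (Y i) = 0 := by
    intro n
    induction n using Nat.strong_induction_on with
    | _ n ih =>
      rcases Nat.eq_zero_or_pos n with hn | hn
      · subst hn
        intro i
        rw [coeff_zero_eq_constantCoeff_apply]
        exact h0 i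
      · obtain ⟨k, rfl⟩ : ∃ k, n = k + 1 := ⟨n - 1, by omega⟩
        refine hA (k + 1) (by omega) (fun j => coeff (k + 1) (Y j)) ?_
        intro i
        have h1 := congrArg (coeff (k + 1)) (hY i)
        rw [coeff_succ_X_mul, coeff_derivative, map_sum] at h1
        have h2 : ∀ j ∈ Finset.univ, coeff (k + 1) (A i j * Y j) =
            constantCoeff (A i j) * coeff (k + 1) (Y j) := by
          intro j _
          rw [coeff_mul, Finset.sum_eq_single ((0 : ℕ), k + 1)]
          · rw [coeff_zero_eq_constantCoeff_apply]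
          · rintro ⟨a, b⟩ hab hne
            rw [Finset.HasAntidiagonal.mem_antidiagonal] at hab
            have hb : b < k + 1 := by
              rcases Nat.eq_zero_or_pos a with ha | ha
              · subst ha
                exfalso
                apply hne
                have hb' : b = k + 1 := by simpa using hab
                rw [hb']
              · omega
            show coeff a (A i j) * coeff b (Y j) = 0
            rw [ih b hb j, mul_zero]
          · intro h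
            exfalso
            apply h
            rw [Finset.HasAntidiagonal.mem_antidiagonal]
            exact zero_add _
        rw [Finset.sum_congr rfl h2] at h1
        rw [← h1]
        push_cast
        ring
  intro i
  ext n
  rw [key n i, map_zero]

/-- The exponent is `0` or a negative half-integer. -/
def AlOk {F : Type*} [Field F] (α : F) : Prop := α = 0 ∨ ∃ w : ℕ, 2 * α = -(2 * (w : F) + 1)

section LA

variable {F : Type*} [Field F] [CharZero F] {ι : Type*} [Fintype ι]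

theorem AlOk.add_ne {α : F} (h : AlOk α) {m : ℕ} (hm : 1 ≤ m) : (m : F) + α ≠ 0 := by
  intro h0
  rcases h with h | ⟨w, hw⟩
  · rw [h, add_zero] at h0
    have h1 : m = 0 := by exact_mod_cast h0
    omega
  · have h1 : (2 * (m : F)) = 2 * (w : F) + 1 := by linear_combination 2 * h0 - hw
    have h2 : 2 * m = 2 * w + 1 := by exact_mod_cast h1
    omega

theorem AlOk.sub_ne {α : F} (h : AlOk α) {m : ℕ} (hm : 1 ≤ m) : (m : F) - α ≠ 0 := by
  intro h0
  rcases h with h | ⟨w, hw⟩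
  · rw [h, sub_zero] at h0
    have h1 : m = 0 := by exact_mod_cast h0
    omega
  · have h1 : (2 * (m : F)) + 2 * (w : F) + 1 = 0 := by linear_combination 2 * h0 + hw
    have h2 : 2 * m + 2 * w + 1 = 0 := by exact_mod_cast h1
    omega

theorem AlOk.int {α : F} (h : AlOk α) : α = 0 ∨ ∀ m : ℤ, α ≠ m := by
  rcases h with h | ⟨w, hw⟩
  · exact Or.inl h
  · refine Or.inr fun m hm => ?_
    rw [hm] at hw
    have h2 : 2 * m = -(2 * (w : ℤ) + 1) := by exact_mod_cast hw
    omega

theorem la_l {α : F} (h : AlOk α) (a0 l0 : ι → F) (htr : ∑ i, l0 i * a0 i = α) {m : ℕ}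
    (hm : 1 ≤ m) (z : ι → F) (hz : ∀ i, (l0 i * ∑ j, a0 j * z j) - α * z i = (m : F) * z i)
    (i : ι) : z i = 0 := by
  have hm' : (m : F) ≠ 0 := by
    have : m ≠ 0 := by omega
    exact_mod_cast this
  have hs : (∑ j, a0 j * z j) = 0 := by
    have h1 : ∑ i, a0 i * ((l0 i * ∑ j, a0 j * z j) - α * z i) = ∑ i, a0 i * ((m : F) * z i) :=
      Finset.sum_congr rfl fun i _ => by rw [hz i]
    have h2 : ∑ i, a0 i * ((l0 i * ∑ j, a0 j * z j) - α * z i) =
        (∑ i, l0 i * a0 i) * (∑ j, a0 j * z j) - α * ∑ j, a0 j * z j := by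
      rw [Finset.sum_mul, Finset.mul_sum, ← Finset.sum_sub_distrib]
      exact Finset.sum_congr rfl fun i _ => by ring
    have h3 : ∑ i, a0 i * ((m : F) * z i) = (m : F) * ∑ j, a0 j * z j := by
      rw [Finset.mul_sum]
      exact Finset.sum_congr rfl fun i _ => by ring
    rw [h2, h3, htr, sub_self] at h1
    exact (mul_eq_zero.1 h1.symm).resolve_left hm'
  have h4 := hz i
  rw [hs, mul_zero, zero_sub] at h4
  have h5 : ((m : F) + α) * z i = 0 := by linear_combination -h4
  exact (mul_eq_zero.1 h5).resolve_left (h.add_ne hm)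

theorem la_l' {α : F} (h : AlOk α) (a0 l0 : ι → F) (htr : ∑ i, l0 i * a0 i = α) {m : ℕ}
    (hm : 1 ≤ m) (z : ι → F)
    (hz : ∀ i, (m : F) * z i + ((l0 i * ∑ j, a0 j * z j) - α * z i) = 0) (i : ι) : z i = 0 := by
  have hm' : (m : F) ≠ 0 := by
    have : m ≠ 0 := by omega
    exact_mod_cast this
  have hs : (∑ j, a0 j * z j) = 0 := by
    have h1 : ∑ i, a0 i * ((m : F) * z i + ((l0 i * ∑ j, a0 j * z j) - α * z i)) = 0 :=
      Finset.sum_eq_zero fun i _ => by rw [hz i, mul_zero]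
    have h2 : ∑ i, a0 i * ((m : F) * z i + ((l0 i * ∑ j, a0 j * z j) - α * z i)) =
        (m : F) * (∑ j, a0 j * z j) +
        ((∑ i, l0 i * a0 i) * (∑ j, a0 j * z j) - α * ∑ j, a0 j * z j) := by
      rw [Finset.sum_mul, Finset.mul_sum, Finset.mul_sum, ← Finset.sum_sub_distrib,
        ← Finset.sum_add_distrib]
      exact Finset.sum_congr rfl fun i _ => by ring
    rw [h2, htr, sub_self, add_zero] at h1
    exact (mul_eq_zero.1 h1).resolve_left hm'
  have h4 := hz i
  rw [hs, mul_zero, zero_sub] at h4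
  have h5 : ((m : F) - α) * z i = 0 := by linear_combination h4
  exact (mul_eq_zero.1 h5).resolve_left (h.sub_ne hm)

theorem la_h {α : F} (h : AlOk α) (a0 l0 : ι → F) (htr : ∑ i, l0 i * a0 i = α) {m : ℕ}
    (hm : 1 ≤ m) (z : ι → F) (hz : ∀ i, (m : F) * z i - (a0 i * ∑ j, l0 j * z j) = 0)
    (i : ι) : z i = 0 := by
  have hm' : (m : F) ≠ 0 := by
    have : m ≠ 0 := by omega
    exact_mod_cast this
  have hs : (∑ j, l0 j * z j) = 0 := by
    have h1 : ∑ i, l0 i * ((m : F) * z i - (a0 i * ∑ j, l0 j * z j)) = 0 :=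
      Finset.sum_eq_zero fun i _ => by rw [hz i, mul_zero]
    have h2 : ∑ i, l0 i * ((m : F) * z i - (a0 i * ∑ j, l0 j * z j)) =
        (m : F) * (∑ j, l0 j * z j) - (∑ i, l0 i * a0 i) * ∑ j, l0 j * z j := by
      rw [Finset.sum_mul, Finset.mul_sum, ← Finset.sum_sub_distrib]
      exact Finset.sum_congr rfl fun i _ => by ring
    rw [h2, htr] at h1
    have h3 : ((m : F) - α) * (∑ j, l0 j * z j) = 0 := by linear_combination h1
    exact (mul_eq_zero.1 h3).resolve_left (h.sub_ne hm)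
  have h4 := hz i
  rw [hs, mul_zero, sub_zero] at h4
  exact (mul_eq_zero.1 h4).resolve_left hm'

theorem la_e {α : F} (h : AlOk α) (a0 l0 : ι → F) (htr : ∑ i, l0 i * a0 i = α) {m : ℕ}
    (hm : 1 ≤ m) (Y : ι → ι → F)
    (hY : ∀ i k, (m : F) * Y i k + ((∑ j, Y i j * a0 j) * l0 k - a0 i * ∑ j, l0 j * Y j k) = 0)
    (i k : ι) : Y i k = 0 := by
  have hm' : (m : F) ≠ 0 := by
    have : m ≠ 0 := by omega
    exact_mod_cast this
  have hv : ∀ k, (m : F) * (∑ j, l0 j * Y j k) +
      ((∑ i, l0 i * ∑ j, Y i j * a0 j) * l0 k - α * ∑ j, l0 j * Y j k) = 0 := by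
    intro k
    have h1 : ∑ i, l0 i * ((m : F) * Y i k +
        ((∑ j, Y i j * a0 j) * l0 k - a0 i * ∑ j, l0 j * Y j k)) = 0 :=
      Finset.sum_eq_zero fun i _ => by rw [hY i k, mul_zero]
    rw [← h1, ← htr, Finset.sum_mul, Finset.sum_mul, Finset.mul_sum, ← Finset.sum_sub_distrib,
      ← Finset.sum_add_distrib]
    exact Finset.sum_congr rfl fun i _ => by ring
  have hs : (∑ i, l0 i * ∑ j, Y i j * a0 j) = 0 := by
    have h1 : ∑ k, a0 k * ((m : F) * (∑ j, l0 j * Y j k) +
      ((∑ i, l0 i * ∑ j, Y i j * a0 j) * l0 k - α * ∑ j, l0 j * Y j k)) = 0 :=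
      Finset.sum_eq_zero fun k _ => by rw [hv k, mul_zero]
    have h2 : ∑ k, a0 k * (∑ j, l0 j * Y j k) = ∑ i, l0 i * ∑ j, Y i j * a0 j := by
      simp only [Finset.mul_sum]
      rw [Finset.sum_comm]
      exact Finset.sum_congr rfl fun i _ => Finset.sum_congr rfl fun j _ => by ring
    have h3 : ∑ k, a0 k * ((m : F) * (∑ j, l0 j * Y j k) +
      ((∑ i, l0 i * ∑ j, Y i j * a0 j) * l0 k - α * ∑ j, l0 j * Y j k)) =
      (m : F) * (∑ k, a0 k * (∑ j, l0 j * Y j k)) +
      ((∑ i, l0 i * ∑ j, Y i j * a0 j) * (∑ k, l0 k * a0 k) -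
        α * ∑ k, a0 k * (∑ j, l0 j * Y j k)) := by
      rw [Finset.mul_sum, Finset.mul_sum, Finset.mul_sum, ← Finset.sum_sub_distrib,
        ← Finset.sum_add_distrib]
      exact Finset.sum_congr rfl fun i _ => by ring
    rw [h3, h2, htr] at h1
    have h4 : (m : F) * (∑ i, l0 i * ∑ j, Y i j * a0 j) = 0 := by linear_combination h1
    exact (mul_eq_zero.1 h4).resolve_left hm'
  have hv0 : ∀ k, (∑ j, l0 j * Y j k) = 0 := by
    intro k
    have h1 := hv k
    rw [hs] at h1
    have h2 : ((m : F) - α) * (∑ j, l0 j * Y j k) = 0 := by linear_combination h1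
    exact (mul_eq_zero.1 h2).resolve_left (h.sub_ne hm)
  have hu0 : ∀ i, (∑ j, Y i j * a0 j) = 0 := by
    intro i
    have h1 : ∑ k, ((m : F) * Y i k +
        ((∑ j, Y i j * a0 j) * l0 k - a0 i * ∑ j, l0 j * Y j k)) * a0 k = 0 :=
      Finset.sum_eq_zero fun k _ => by rw [hY i k, zero_mul]
    have h2 : ∑ k, ((m : F) * Y i k +
        ((∑ j, Y i j * a0 j) * l0 k - a0 i * ∑ j, l0 j * Y j k)) * a0 k =
        (m : F) * (∑ k, Y i k * a0 k) + (∑ j, Y i j * a0 j) * ∑ k, l0 k * a0 k := by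
      rw [Finset.mul_sum, Finset.mul_sum, ← Finset.sum_add_distrib]
      exact Finset.sum_congr rfl fun k _ => by rw [hv0 k]; ring
    rw [h2, htr] at h1
    have h3 : ((m : F) + α) * (∑ j, Y i j * a0 j) = 0 := by linear_combination h1
    exact (mul_eq_zero.1 h3).resolve_left (h.add_ne hm)
  have h5 := hY i k
  rw [hu0 i, hv0 k, zero_mul, mul_zero, sub_zero, add_zero] at h5
  exact (mul_eq_zero.1 h5).resolve_left hm'

/-- `α = 0`. -/
theorem la_B (a0 l0 : ι → F) (htr : ∑ i, l0 i * a0 i = 0) {m : ℕ}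
    (hm : 1 ≤ m) (Y : ι → ι → F)
    (hY : ∀ i k, (m : F) * Y i k + (l0 i * (∑ j, a0 j * Y j k) + (∑ j, Y i j * a0 j) * l0 k) = 0)
    (i k : ι) : Y i k = 0 := by
  have hm' : (m : F) ≠ 0 := by
    have : m ≠ 0 := by omega
    exact_mod_cast this
  have hu : ∀ k, (m : F) * (∑ j, a0 j * Y j k) +
      (∑ i, a0 i * ∑ j, Y i j * a0 j) * l0 k = 0 := by
    intro k
    have h1 : ∑ i, a0 i * ((m : F) * Y i k +
        (l0 i * (∑ j, a0 j * Y j k) + (∑ j, Y i j * a0 j) * l0 k)) = 0 :=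
      Finset.sum_eq_zero fun i _ => by rw [hY i k, mul_zero]
    have h2 : ∑ i, a0 i * ((m : F) * Y i k +
        (l0 i * (∑ j, a0 j * Y j k) + (∑ j, Y i j * a0 j) * l0 k)) =
        (m : F) * (∑ j, a0 j * Y j k) + ((∑ i, l0 i * a0 i) * (∑ j, a0 j * Y j k) +
          (∑ i, a0 i * ∑ j, Y i j * a0 j) * l0 k) := by
      rw [Finset.sum_mul, Finset.sum_mul, Finset.mul_sum, ← Finset.sum_add_distrib,
        ← Finset.sum_add_distrib]
      exact Finset.sum_congr rfl fun i _ => by ring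
    rw [h2, htr, zero_mul, zero_add] at h1
    exact h1
  have hs : (∑ i, a0 i * ∑ j, Y i j * a0 j) = 0 := by
    have h1 : ∑ k, ((m : F) * (∑ j, a0 j * Y j k) +
      (∑ i, a0 i * ∑ j, Y i j * a0 j) * l0 k) * a0 k = 0 :=
      Finset.sum_eq_zero fun k _ => by rw [hu k, zero_mul]
    have h2 : ∑ k, (∑ j, a0 j * Y j k) * a0 k = ∑ i, a0 i * ∑ j, Y i j * a0 j := by
      simp only [Finset.mul_sum, Finset.sum_mul]
      rw [Finset.sum_comm]
      exact Finset.sum_congr rfl fun i _ => Finset.sum_congr rfl fun j _ => by ring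
    have h3 : ∑ k, ((m : F) * (∑ j, a0 j * Y j k) +
      (∑ i, a0 i * ∑ j, Y i j * a0 j) * l0 k) * a0 k =
      (m : F) * (∑ k, (∑ j, a0 j * Y j k) * a0 k) +
      (∑ i, a0 i * ∑ j, Y i j * a0 j) * (∑ k, l0 k * a0 k) := by
      rw [Finset.mul_sum, Finset.mul_sum, ← Finset.sum_add_distrib]
      exact Finset.sum_congr rfl fun i _ => by ring
    rw [h3, h2, htr, mul_zero, add_zero] at h1
    exact (mul_eq_zero.1 h1).resolve_left hm'
  have hu0 : ∀ k, (∑ j, a0 j * Y j k) = 0 := by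
    intro k
    have h1 := hu k
    rw [hs, zero_mul, add_zero] at h1
    exact (mul_eq_zero.1 h1).resolve_left hm'
  have hv0 : ∀ i, (∑ j, Y i j * a0 j) = 0 := by
    intro i
    have h1 : ∑ k, ((m : F) * Y i k +
        (l0 i * (∑ j, a0 j * Y j k) + (∑ j, Y i j * a0 j) * l0 k)) * a0 k = 0 :=
      Finset.sum_eq_zero fun k _ => by rw [hY i k, zero_mul]
    have h2 : ∑ k, ((m : F) * Y i k +
        (l0 i * (∑ j, a0 j * Y j k) + (∑ j, Y i j * a0 j) * l0 k)) * a0 k =
        (m : F) * (∑ k, Y i k * a0 k) + (∑ j, Y i j * a0 j) * ∑ k, l0 k * a0 k := by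
      rw [Finset.mul_sum, Finset.mul_sum, ← Finset.sum_add_distrib]
      exact Finset.sum_congr rfl fun k _ => by rw [hu0 k]; ring
    rw [h2, htr, mul_zero, add_zero] at h1
    exact (mul_eq_zero.1 h1).resolve_left hm'
  have h5 := hY i k
  rw [hu0 k, hv0 i, mul_zero, zero_mul, add_zero, add_zero] at h5
  exact (mul_eq_zero.1 h5).resolve_left hm'

end LA

end MPadcLZ
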