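import Pool.Agent.Lib.MP_adc574_ag_LZ.LoA
import Pool.Agent.Lib.MP_adc574_ag_LZ.LoA2
import Pool.Agent.Lib.MP_adc574_ag_HM.LocA

/-!
# JOB LoB: the local data at a node, flat endomorphisms, flat vectors

`S : Lc ι F` : `Γ(0) = a0 l0ᵀ`, `l0 . a0 = α`, `a`, `l` the two horizontal series of HM/LocA. `j = algebraMap F⟦X⟧ L`.

* `uniq_l`: apply `uniq_vec` to `z - C c * l` with `A k i = Γ i k - δ_ik α` (`la_l`).
* `ltheta`: product rule and `hl`. `kerl`: `(Γ z)(0) = a0 (l0 . z(0)) = 0` as `l0 . z(0)` is the constant coefficient of `l . z`; so `X` divides `Γ z`; `X (l . z') = l . (X D z + Γ z) = X D(l . z) + α l . z = 0` (`ltheta`), cancel `X`.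
* `flat_e`: if not integral, `pole` (for `σ = ι × ι`) and `pole_theta` give `m ≥ 1` and `Z` with `Z(0) ≠ 0` and `X Z' = m Z + Z Γ - Γ Z`; constant coefficients: `la_e`. Constant coefficients of the
  equation for `e1`, `Y = e1(0)`: `(∑ j, Y i j * a0 j) * l0 k = a0 i * ∑ j, l0 j * Y j k`; with `a0 i₀ ≠ 0`: `∑ j, l0 j * Y j k = ε l0 k`.
  `z_k = ∑ i, l i * e1 i k` solves the `l`-equation (`X D z = (Γᵀ l - α l) e1 + l (e1 Γ - Γ e1)`): `uniq_l` gives `l e1 = ε l`.
* `flat_h`: `pole`, `la_h`; `s = l . h1` satisfies `X s' = - α s` (`ltheta`): coefficients `(m + α) s_m = 0`; `AlOk.add_ne` for `m ≥ 1`; `m = 0`: `α s_0 = 0`, and if `α = 0` the constant coefficients of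
  `X h1' + Γ h1 = 0` give `a0 i * (l0 . h1(0)) = 0` and `s_0 = l0 . h1(0)`.
-/

set_option autoImplicit false

namespace MPadcLZ

open PowerSeries

/-- Local data: connection `X d/dX + Γ`, `Γ(0) = a0 l0ᵀ`. -/
structure Lc (ι : Type) (F : Type*) [Field F] where
  Γ : Matrix ι ι F⟦X⟧
  a0 : ι → F
  l0 : ι → F
  α : F
  a : ι → F⟦X⟧
  l : ι → F⟦X⟧

structure Lc.Ok {ι : Type} [Fintype ι] {F : Type*} [Field F] (S : Lc ι F) : Prop where
  al : AlOk S.α
  tr : ∑ i, S.l0 i * S.a0 i = S.α
  a0_ne : ∃ i, S.a0 i ≠ 0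
  l0_ne : ∃ i, S.l0 i ≠ 0
  res : ∀ i j, constantCoeff (S.Γ i j) = S.a0 i * S.l0 j
  ha0 : ∀ i, constantCoeff (S.a i) = S.a0 i
  hl0 : ∀ i, constantCoeff (S.l i) = S.l0 i
  ha : ∀ i, X * derivative F (S.a i) = -(∑ k, S.Γ i k * S.a k) + C S.α * S.a i
  hl : ∀ k, X * derivative F (S.l k) = (∑ i, S.Γ i k * S.l i) - C S.α * S.l k
  hla : ∑ i, S.l i * S.a i = C S.α

variable {ι : Type} [Fintype ι] [DecidableEq ι] {F : Type*} [Field F] [CharZero F]

theorem exists_Lc (Γ : Matrix ι ι F⟦X⟧) (a0 l0 : ι → F) (α : F) (al : AlOk α)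
    (tr : ∑ i, l0 i * a0 i = α) (ha0 : ∃ i, a0 i ≠ 0) (hl0 : ∃ i, l0 i ≠ 0)
    (res : ∀ i j, constantCoeff (Γ i j) = a0 i * l0 j) :
    ∃ S : Lc ι F, S.Ok ∧ S.Γ = Γ ∧ S.a0 = a0 ∧ S.l0 = l0 ∧ S.α = α := by
  obtain ⟨a, h1, h2⟩ := MPadcHM.exists_series_a Γ a0 l0 α res tr al.int
  obtain ⟨l, h3, h4⟩ := MPadcHM.exists_series_l Γ a0 l0 α res tr al.int
  have h5 := MPadcHM.series_pair Γ α a l h2 h4 (by simp only [h1, h3]; exact tr)
  exact ⟨⟨Γ, a0, l0, α, a, l⟩, ⟨al, tr, ha0, hl0, res, h1, h3, h2, h4, h5⟩, rfl, rfl, rfl, rfl⟩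

namespace Lc

theorem uniq_l {S : Lc ι F} (hS : S.Ok) (z : ι → F⟦X⟧)
    (hz : ∀ k, X * derivative F (z k) = (∑ i, S.Γ i k * z i) - C S.α * z k) (c : F)
    (h0 : ∀ i, constantCoeff (z i) = c * S.l0 i) (i : ι) : z i = C c * S.l i := by
  classical
  have h1 : ∀ i, z i - C c * S.l i = 0 := by
    refine uniq_vec (Matrix.of fun k j => S.Γ j k - if j = k then C S.α else 0) ?_
      (fun i => z i - C c * S.l i) ?_ ?_
    · intro m hm y hy i
      refine la_l hS.al S.a0 S.l0 hS.tr hm y (fun i => ?_) i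
      rw [← hy i]
      have h2 : ∀ j, constantCoeff ((Matrix.of fun k j => S.Γ j k - if j = k then C S.α else 0) i j) * y j =
          S.l0 i * (S.a0 j * y j) - (if j = i then S.α * y j else 0) := by
        intro j
        rw [Matrix.of_apply, map_sub, hS.res]
        by_cases hj : j = i
        · rw [if_pos hj, if_pos hj, constantCoeff_C]
          ring
        · rw [if_neg hj, if_neg hj, map_zero]
          ring
      rw [Finset.sum_congr rfl fun j _ => h2 j, Finset.sum_sub_distrib, ← Finset.mul_sum,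
        Finset.sum_ite_eq' Finset.univ i (fun j => S.α * y j), if_pos (Finset.mem_univ i)]
    · intro k
      beta_reduce
      have h2 : ∀ j, (Matrix.of fun k j => S.Γ j k - if j = k then C S.α else 0) k j * (z j - C c * S.l j) =
          (S.Γ j k * z j - C c * (S.Γ j k * S.l j)) -
            (if j = k then C S.α * (z j - C c * S.l j) else 0) := by
        intro j
        rw [Matrix.of_apply]
        by_cases hj : j = k
        · rw [if_pos hj, if_pos hj]
          ring
        · rw [if_neg hj, if_neg hj]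
          ring
      rw [Finset.sum_congr rfl fun j _ => h2 j, Finset.sum_sub_distrib, Finset.sum_sub_distrib,
        ← Finset.mul_sum, Finset.sum_ite_eq' Finset.univ k (fun j => C S.α * (z j - C c * S.l j)),
        if_pos (Finset.mem_univ k)]
      have h3 : derivative F (z k - C c * S.l k) = derivative F (z k) - C c * derivative F (S.l k) := by
        rw [map_sub, ← smul_eq_C_mul, ← smul_eq_C_mul, Derivation.map_smul]
      rw [h3, mul_sub, hz k]
      have h4 : X * (C c * derivative F (S.l k)) = C c * (X * derivative F (S.l k)) := by ring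
      rw [h4, hS.hl k]
      ring
    · intro i
      beta_reduce
      rw [map_sub, map_mul, constantCoeff_C, h0, hS.hl0, sub_self]
  exact sub_eq_zero.1 (h1 i)

omit [DecidableEq ι] [CharZero F] in
theorem ltheta {S : Lc ι F} (hS : S.Ok) (x : ι → F⟦X⟧) :
    X * derivative F (∑ i, S.l i * x i) =
      (∑ i, S.l i * (X * derivative F (x i) + ∑ k, S.Γ i k * x k)) -
        C S.α * ∑ i, S.l i * x i := by
  have h1 : derivative F (∑ i, S.l i * x i) =
      ∑ i, (S.l i * derivative F (x i) + x i * derivative F (S.l i)) := by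
    rw [map_sum]
    refine Finset.sum_congr rfl fun i _ => ?_
    rw [Derivation.leibniz, smul_eq_mul, smul_eq_mul]
  have h2 : ∑ i, x i * ∑ k, S.Γ k i * S.l k = ∑ i, S.l i * ∑ k, S.Γ i k * x k := by
    simp only [Finset.mul_sum]
    rw [Finset.sum_comm]
    exact Finset.sum_congr rfl fun i _ => Finset.sum_congr rfl fun k _ => by ring
  have h3 : ∀ i, X * (S.l i * derivative F (x i) + x i * derivative F (S.l i)) =
      S.l i * (X * derivative F (x i)) + x i * (∑ k, S.Γ k i * S.l k) - C S.α * (S.l i * x i) := by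
    intro i
    have h4 := hS.hl i
    have h5 : X * (S.l i * derivative F (x i) + x i * derivative F (S.l i)) =
      S.l i * (X * derivative F (x i)) + x i * (X * derivative F (S.l i)) := by ring
    rw [h5, h4]
    ring
  rw [h1, Finset.mul_sum, Finset.sum_congr rfl fun i _ => h3 i, Finset.sum_sub_distrib,
    Finset.sum_add_distrib, h2, ← Finset.mul_sum, ← Finset.sum_add_distrib]
  congr 1
  exact Finset.sum_congr rfl fun i _ => by ring

omit [DecidableEq ι] [CharZero F] in
theorem kerl {S : Lc ι F} (hS : S.Ok) (z : ι → F⟦X⟧) (hz : ∑ i, S.l i * z i = 0) :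
    ∃ z' : ι → F⟦X⟧, (∀ i, X * z' i = X * derivative F (z i) + ∑ k, S.Γ i k * z k) ∧
      ∑ i, S.l i * z' i = 0 := by
  have h1 : ∀ i, ∃ q, ∑ k, S.Γ i k * z k = X * q := by
    intro i
    have h2 : (X : F⟦X⟧) ∣ ∑ k, S.Γ i k * z k := by
      rw [X_dvd_iff, map_sum]
      have h3 : ∀ k, constantCoeff (S.Γ i k * z k) = S.a0 i * constantCoeff (S.l k * z k) := by
        intro k
        rw [map_mul, map_mul, hS.res, hS.hl0]
        ring
      rw [Finset.sum_congr rfl fun k _ => h3 k, ← Finset.mul_sum, ← map_sum, hz, map_zero, mul_zero]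
    obtain ⟨q, hq⟩ := h2
    exact ⟨q, hq⟩
  choose q hq using h1
  have h2 : ∀ i, X * (derivative F (z i) + q i) = X * derivative F (z i) + ∑ k, S.Γ i k * z k := by
    intro i
    rw [hq i, mul_add]
  refine ⟨fun i => derivative F (z i) + q i, h2, ?_⟩
  have h3 : X * ∑ i, S.l i * (derivative F (z i) + q i) = 0 := by
    have h4 := ltheta hS z
    rw [hz, map_zero, mul_zero, mul_zero, sub_zero] at h4
    rw [Finset.mul_sum, h4]
    refine Finset.sum_congr rfl fun i _ => ?_
    rw [← h2 i]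
    ring
  rcases mul_eq_zero.1 h3 with h5 | h5
  · exact absurd h5 X_ne_zero
  · exact h5

variable {L : Type*} [Field L] [Algebra F⟦X⟧ L] [IsFractionRing F⟦X⟧ L]

theorem flat_e {S : Lc ι F} (hS : S.Ok) {DL : L →+ L} (hDL : IsDL F DL) (e : Matrix ι ι L)
    (he : ∀ i k, algebraMap F⟦X⟧ L X * DL (e i k) =
      (∑ m, e i m * algebraMap _ L (S.Γ m k)) - ∑ m, algebraMap _ L (S.Γ i m) * e m k) :
    ∃ (e1 : Matrix ι ι F⟦X⟧) (ε : F), (∀ i k, e i k = algebraMap _ L (e1 i k)) ∧
      ∀ k, ∑ i, S.l i * e1 i k = C ε * S.l k := by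
  have hinj : Function.Injective (algebraMap F⟦X⟧ L) := IsFractionRing.injective F⟦X⟧ L
  rcases pole (F := F) (L := L) (fun p : ι × ι => e p.1 p.2) with ⟨Z, hZ⟩ | ⟨m, Z, hm, hZ, ⟨p, hp⟩⟩
  · have hZ' : ∀ i k, e i k = algebraMap F⟦X⟧ L (Z (i, k)) := fun i k => hZ (i, k)
    have heq : ∀ i k, X * derivative F (Z (i, k)) =
        (∑ m, Z (i, m) * S.Γ m k) - ∑ m, S.Γ i m * Z (m, k) := by
      intro i k
      apply hinj
      have h1 := he i k
      rw [hZ' i k, hDL.alg, ← map_mul] at h1
      rw [h1, map_sub, map_sum, map_sum]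
      congr 1
      · exact Finset.sum_congr rfl fun m _ => by rw [map_mul, hZ' i m]
      · exact Finset.sum_congr rfl fun m _ => by rw [map_mul, hZ' m k]
    have hc : ∀ i k, (∑ j, constantCoeff (Z (i, j)) * S.a0 j) * S.l0 k =
        S.a0 i * ∑ j, S.l0 j * constantCoeff (Z (j, k)) := by
      intro i k
      have h1 := congrArg constantCoeff (heq i k)
      rw [map_mul, constantCoeff_X, zero_mul, map_sub, map_sum, map_sum] at h1
      have h2 : ∀ m, constantCoeff (Z (i, m) * S.Γ m k) =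
          (constantCoeff (Z (i, m)) * S.a0 m) * S.l0 k := by
        intro m
        rw [map_mul, hS.res]
        ring
      have h3 : ∀ m, constantCoeff (S.Γ i m * Z (m, k)) =
          S.a0 i * (S.l0 m * constantCoeff (Z (m, k))) := by
        intro m
        rw [map_mul, hS.res]
        ring
      rw [Finset.sum_congr rfl fun m _ => h2 m, Finset.sum_congr rfl fun m _ => h3 m,
        ← Finset.sum_mul, ← Finset.mul_sum] at h1
      exact (sub_eq_zero.1 h1.symm)
    obtain ⟨i₀, hi₀⟩ := hS.a0_ne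
    refine ⟨Matrix.of fun i k => Z (i, k), (∑ j, constantCoeff (Z (i₀, j)) * S.a0 j) / S.a0 i₀,
      fun i k => hZ' i k, ?_⟩
    have hz0 : ∀ k, constantCoeff (∑ i, S.l i * Z (i, k)) =
        ((∑ j, constantCoeff (Z (i₀, j)) * S.a0 j) / S.a0 i₀) * S.l0 k := by
      intro k
      rw [map_sum]
      have h1 : ∀ i, constantCoeff (S.l i * Z (i, k)) = S.l0 i * constantCoeff (Z (i, k)) := by
        intro i
        rw [map_mul, hS.hl0]
      rw [Finset.sum_congr rfl fun i _ => h1 i]
      have h2 := hc i₀ k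
      field_simp
      rw [h2]
      ring
    have hzD : ∀ k, X * derivative F (∑ i, S.l i * Z (i, k)) =
        (∑ i, S.Γ i k * ∑ j, S.l j * Z (j, i)) - C S.α * ∑ i, S.l i * Z (i, k) := by
      intro k
      rw [ltheta hS]
      congr 1
      have h1 : ∀ i, S.l i * (X * derivative F (Z (i, k)) + ∑ m, S.Γ i m * Z (m, k)) =
          ∑ m, S.Γ m k * (S.l i * Z (i, m)) := by
        intro i
        rw [heq i k, sub_add_cancel, Finset.mul_sum]
        exact Finset.sum_congr rfl fun m _ => by ring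
      rw [Finset.sum_congr rfl fun i _ => h1 i, Finset.sum_comm]
      exact Finset.sum_congr rfl fun i _ => (Finset.mul_sum _ _ _).symm
    intro k
    exact uniq_l hS (fun k => ∑ i, S.l i * Z (i, k)) hzD _ hz0 k
  · exfalso
    have hZ' : ∀ i k, algebraMap F⟦X⟧ L X ^ m * e i k = algebraMap F⟦X⟧ L (Z (i, k)) :=
      fun i k => hZ (i, k)
    have heq : ∀ i k, X * derivative F (Z (i, k)) =
        (m : F⟦X⟧) * Z (i, k) + ((∑ j, Z (i, j) * S.Γ j k) - ∑ j, S.Γ i j * Z (j, k)) := by
      intro i k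
      apply hinj
      rw [pole_theta hDL m (e i k) (Z (i, k)) (hZ' i k), he i k, map_add, map_mul, map_natCast,
        map_sub, map_sum, map_sum, mul_sub, Finset.mul_sum, Finset.mul_sum]
      congr 2
      · refine Finset.sum_congr rfl fun j _ => ?_
        rw [map_mul, ← hZ' i j]
        ring
      · refine Finset.sum_congr rfl fun j _ => ?_
        rw [map_mul, ← hZ' j k]
        ring
    have hc : ∀ i k, (m : F) * constantCoeff (Z (i, k)) +
        ((∑ j, constantCoeff (Z (i, j)) * S.a0 j) * S.l0 k -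
          S.a0 i * ∑ j, S.l0 j * constantCoeff (Z (j, k))) = 0 := by
      intro i k
      have h1 := congrArg constantCoeff (heq i k)
      rw [map_mul, constantCoeff_X, zero_mul, map_add, map_mul, map_natCast, map_sub, map_sum,
        map_sum] at h1
      have h2 : ∀ j, constantCoeff (Z (i, j) * S.Γ j k) =
          (constantCoeff (Z (i, j)) * S.a0 j) * S.l0 k := by
        intro j
        rw [map_mul, hS.res]
        ring
      have h3 : ∀ j, constantCoeff (S.Γ i j * Z (j, k)) =
          S.a0 i * (S.l0 j * constantCoeff (Z (j, k))) := by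
        intro j
        rw [map_mul, hS.res]
        ring
      rw [Finset.sum_congr rfl fun j _ => h2 j, Finset.sum_congr rfl fun j _ => h3 j,
        ← Finset.sum_mul, ← Finset.mul_sum] at h1
      exact h1.symm
    exact hp (la_e hS.al S.a0 S.l0 hS.tr hm (fun i k => constantCoeff (Z (i, k))) hc p.1 p.2)

theorem flat_h {S : Lc ι F} (hS : S.Ok) {DL : L →+ L} (hDL : IsDL F DL) (h : ι → L)
    (hh : ∀ i, algebraMap F⟦X⟧ L X * DL (h i) + ∑ k, algebraMap _ L (S.Γ i k) * h k = 0) :
    ∃ h1 : ι → F⟦X⟧, (∀ i, h i = algebraMap _ L (h1 i)) ∧ ∑ i, S.l i * h1 i = 0 := by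
  have hinj : Function.Injective (algebraMap F⟦X⟧ L) := IsFractionRing.injective F⟦X⟧ L
  rcases pole (F := F) (L := L) h with ⟨Z, hZ⟩ | ⟨m, Z, hm, hZ, ⟨p, hp⟩⟩
  · have heq : ∀ i, X * derivative F (Z i) + ∑ k, S.Γ i k * Z k = 0 := by
      intro i
      apply hinj
      have h1 := hh i
      rw [hZ i, hDL.alg, ← map_mul] at h1
      rw [map_add, map_sum, map_zero, ← h1]
      congr 1
      exact Finset.sum_congr rfl fun k _ => by rw [map_mul, hZ k]
    refine ⟨Z, hZ, ?_⟩
    have hs := ltheta hS Z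
    have hz0 : ∑ i, S.l i * (X * derivative F (Z i) + ∑ k, S.Γ i k * Z k) = 0 :=
      Finset.sum_eq_zero fun i _ => by rw [heq i, mul_zero]
    rw [hz0, zero_sub] at hs
    have h0 : constantCoeff (∑ i, S.l i * Z i) = 0 := by
      obtain ⟨i₀, hi₀⟩ := hS.a0_ne
      have h1 := congrArg constantCoeff (heq i₀)
      rw [map_add, map_mul, constantCoeff_X, zero_mul, zero_add, map_sum, map_zero] at h1
      have h2 : ∀ k, constantCoeff (S.Γ i₀ k * Z k) = S.a0 i₀ * constantCoeff (S.l k * Z k) := by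
        intro k
        rw [map_mul, map_mul, hS.res, hS.hl0]
        ring
      rw [Finset.sum_congr rfl fun k _ => h2 k, ← Finset.mul_sum, ← map_sum] at h1
      exact (mul_eq_zero.1 h1).resolve_left hi₀
    ext m
    rw [map_zero]
    rcases Nat.eq_zero_or_pos m with hm | hm
    · rw [hm, coeff_zero_eq_constantCoeff_apply, h0]
    · obtain ⟨n, rfl⟩ : ∃ n, m = n + 1 := ⟨m - 1, by omega⟩
      have h1 := congrArg (coeff (n + 1)) hs
      rw [coeff_succ_X_mul, coeff_derivative, map_neg, ← smul_eq_C_mul, map_smul, smul_eq_mul] at h1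
      have h2 : (((n + 1 : ℕ) : F) + S.α) * coeff (n + 1) (∑ i, S.l i * Z i) = 0 := by
        push_cast
        linear_combination h1
      exact (mul_eq_zero.1 h2).resolve_left (hS.al.add_ne hm)
  · exfalso
    have heq : ∀ i, X * derivative F (Z i) = (m : F⟦X⟧) * Z i - ∑ k, S.Γ i k * Z k := by
      intro i
      apply hinj
      have h1 : algebraMap F⟦X⟧ L X * DL (h i) = -∑ k, algebraMap _ L (S.Γ i k) * h k :=
        eq_neg_of_add_eq_zero_left (hh i)
      rw [pole_theta hDL m (h i) (Z i) (hZ i), h1, map_sub, map_mul, map_natCast, map_sum, mul_neg,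
        Finset.mul_sum, ← sub_eq_add_neg]
      congr 1
      refine Finset.sum_congr rfl fun k _ => ?_
      rw [map_mul, ← hZ k]
      ring
    have hc : ∀ i, (m : F) * constantCoeff (Z i) -
        (S.a0 i * ∑ j, S.l0 j * constantCoeff (Z j)) = 0 := by
      intro i
      have h1 := congrArg constantCoeff (heq i)
      rw [map_mul, constantCoeff_X, zero_mul, map_sub, map_mul, map_natCast, map_sum] at h1
      have h2 : ∀ k, constantCoeff (S.Γ i k * Z k) = S.a0 i * (S.l0 k * constantCoeff (Z k)) := by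
        intro k
        rw [map_mul, hS.res]
        ring
      rw [Finset.sum_congr rfl fun k _ => h2 k, ← Finset.mul_sum] at h1
      exact h1.symm
    exact hp (la_h hS.al S.a0 S.l0 hS.tr hm (fun i => constantCoeff (Z i)) hc p)

end Lc

end MPadcLZ
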