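import Pool.Agent.Lib.MP_adc574_ag_LZ.LoB

/-!
# JOB LoC2: flat nondegenerate pairings near a node, `2 α = -(2 w + 1)`

`j = algebraMap F⟦X⟧ L`; `B i k = ⟨b_i, b_k⟩`, `X D B = Γᵀ B + B Γ`.

* `flat_Bw` (`2 α = -(2 w + 1)`): `z_i = (j X)^(2 w + 1) * ∑ k, B i k * j (a k)` satisfies `j X * DL z_i = ∑ m, Γ m i z_m - α z_i` over `L` (`2 w + 1 + α = - α`); integral by `pole`, `pole_theta`, `la_l'`; constant coefficients:
  `l0 i * (∑ a0 z0) = α z0 i`, so `z0 = c₁ l0` (`α ≠ 0`), `uniq_l`: `z = c₁ l`. Same for `aᵀ B` (the transposed matrix satisfies the same equation): `z' = c₁' l`. `∑ a_i z_i = ∑ z'_k a_k` gives `c₁ α = c₁' α` (`hla`). Put `c = c₁ / α`,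
  `B' i k = B i k - j (C c) * (j X ^ (2 w + 1))⁻¹ * j (l i * l k)` : `B' a = 0 = aᵀ B'` (`hla`), `j X * DL B' = Γᵀ B' + B' Γ`; integral by `pole`: `Z(0) = Y` satisfies `Y a0 = 0 = a0ᵀ Y`
  (`Z a = X^m B' a = 0`, take constant coefficients) and `m Y + l0 (a0ᵀ Y) + (Y a0) l0ᵀ = 0`, so `Y = 0`. `c ≠ 0` because `B a ≠ 0` (`hdet`).
-/

set_option autoImplicit false

namespace MPadcLZ

open PowerSeries

namespace Lc

variable {ι : Type} [Fintype ι] [DecidableEq ι] {F : Type*} [Field F] [CharZero F]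
  {L : Type*} [Field L] [Algebra F⟦X⟧ L] [IsFractionRing F⟦X⟧ L]

omit [DecidableEq ι] [CharZero F] [IsFractionRing F⟦X⟧ L] [Fintype ι] in
private theorem loc2_pow {DL : L →+ L} (hDL : IsDL F DL) (n : ℕ) :
    algebraMap F⟦X⟧ L X * DL (algebraMap F⟦X⟧ L X ^ n) = (n : L) * algebraMap F⟦X⟧ L X ^ n := by
  have h1 : DL (algebraMap F⟦X⟧ L X) = 1 := by
    rw [hDL.alg, derivative_X, map_one]
  induction n with
  | zero =>
    have h2 : DL (1 : L) = 0 := by
      have h3 := hDL.alg (1 : F⟦X⟧)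
      rw [map_one, Derivation.map_one_eq_zero, map_zero] at h3
      exact h3
    rw [pow_zero, h2, Nat.cast_zero]
    ring
  | succ n ih =>
    rw [pow_succ, hDL.leib, h1, Nat.cast_succ]
    linear_combination algebraMap F⟦X⟧ L X * ih

private theorem loc2_lsol {S : Lc ι F} (hS : S.Ok) (hα : S.α ≠ 0) {DL : L →+ L}
    (hDL : IsDL F DL) (z : ι → L) (hz : ∀ i, algebraMap F⟦X⟧ L X * DL (z i) =
      (∑ m, algebraMap F⟦X⟧ L (S.Γ m i) * z m) - algebraMap F⟦X⟧ L (C S.α) * z i) :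
    ∃ c : F, ∀ i, z i = algebraMap F⟦X⟧ L (C c * S.l i) := by
  have hinj := IsFractionRing.injective F⟦X⟧ L
  rcases pole (F := F) z with ⟨Z, hZ⟩ | ⟨m, Z, hm, hZ, i0, hi0⟩
  · have h1 : ∀ i, X * derivative F (Z i) = (∑ m, S.Γ m i * Z m) - C S.α * Z i := by
      intro i
      apply hinj
      have e := hz i
      rw [hZ i, hDL.alg] at e
      rw [map_mul, e, map_sub, map_sum, map_mul]
      congr 1
      refine Finset.sum_congr rfl fun m _ => ?_
      rw [map_mul, hZ m]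
    have h2 : ∀ i, S.α * constantCoeff (Z i) =
        (∑ m, S.a0 m * constantCoeff (Z m)) * S.l0 i := by
      intro i
      have e := congrArg (constantCoeff (R := F)) (h1 i)
      rw [map_mul, constantCoeff_X, zero_mul, map_sub, map_sum, map_mul, constantCoeff_C] at e
      have e2 : ∀ m, constantCoeff (S.Γ m i * Z m) =
          S.a0 m * constantCoeff (Z m) * S.l0 i := by
        intro m
        rw [map_mul, hS.res]
        ring
      rw [Finset.sum_congr rfl fun m _ => e2 m, ← Finset.sum_mul] at e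
      linear_combination e
    refine ⟨(∑ m, S.a0 m * constantCoeff (Z m)) / S.α, fun i => ?_⟩
    rw [hZ i]
    congr 1
    refine uniq_l hS Z h1 _ (fun k => ?_) i
    rw [div_mul_eq_mul_div, eq_div_iff hα, mul_comm, h2 k]
  · exfalso
    apply hi0
    refine la_l' hS.al S.a0 S.l0 hS.tr hm (fun i => constantCoeff (Z i)) (fun i => ?_) i0
    have e := pole_theta hDL m (z i) (Z i) (hZ i)
    have e1 : X * derivative F (Z i) =
        C (m : F) * Z i + ((∑ k, S.Γ k i * Z k) - C S.α * Z i) := by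
      apply hinj
      rw [e, hz i, map_add, map_mul, map_natCast, map_natCast, mul_sub, Finset.mul_sum, map_sub,
        map_sum, map_mul]
      congr 2
      · refine Finset.sum_congr rfl fun k _ => ?_
        rw [map_mul, ← hZ k]
        ring
      · rw [← hZ i]
        ring
    have e2 := congrArg (constantCoeff (R := F)) e1
    rw [map_mul, constantCoeff_X, zero_mul, map_add, map_mul, map_sub, map_sum, map_mul,
      constantCoeff_C, constantCoeff_C] at e2
    have e3 : ∀ k, constantCoeff (S.Γ k i * Z k) =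
        S.l0 i * (S.a0 k * constantCoeff (Z k)) := by
      intro k
      rw [map_mul, hS.res]
      ring
    rw [Finset.sum_congr rfl fun k _ => e3 k, ← Finset.mul_sum] at e2
    exact e2.symm

private theorem loc2_Ba {S : Lc ι F} (hS : S.Ok) {DL : L →+ L} (hDL : IsDL F DL) (w : ℕ)
    (hα : 2 * S.α = -(2 * (w : F) + 1)) (hα0 : S.α ≠ 0) (B : Matrix ι ι L)
    (hB : ∀ i k, algebraMap F⟦X⟧ L X * DL (B i k) =
      (∑ m, algebraMap _ L (S.Γ m i) * B m k) + ∑ m, B i m * algebraMap _ L (S.Γ m k)) :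
    ∃ c : F, ∀ i, algebraMap F⟦X⟧ L X ^ (2 * w + 1) * ∑ k, B i k * algebraMap F⟦X⟧ L (S.a k) =
      algebraMap F⟦X⟧ L (C c * S.l i) := by
  refine loc2_lsol hS hα0 hDL (fun i => algebraMap F⟦X⟧ L X ^ (2 * w + 1) *
    ∑ k, B i k * algebraMap F⟦X⟧ L (S.a k)) (fun i => ?_)
  have hαL : (2 * (w : L) + 1) = -(2 * algebraMap F⟦X⟧ L (C S.α)) := by
    have e : (2 * (w : F⟦X⟧) + 1) = -(2 * C S.α) := by
      have e1 := congrArg (C (R := F)) hα
      simp only [map_mul, map_neg, map_add, map_one, map_natCast, map_ofNat] at e1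
      linear_combination e1
    have e2 := congrArg (algebraMap F⟦X⟧ L) e
    simp only [map_mul, map_neg, map_add, map_one, map_natCast, map_ofNat] at e2
    exact e2
  have hθa : ∀ k, algebraMap F⟦X⟧ L X * DL (algebraMap F⟦X⟧ L (S.a k)) =
      -(∑ m, algebraMap F⟦X⟧ L (S.Γ k m) * algebraMap F⟦X⟧ L (S.a m)) +
        algebraMap F⟦X⟧ L (C S.α) * algebraMap F⟦X⟧ L (S.a k) := by
    intro k
    rw [hDL.alg, ← map_mul, hS.ha k]
    simp only [map_add, map_neg, map_sum, map_mul]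
  have hθs : algebraMap F⟦X⟧ L X * DL (∑ k, B i k * algebraMap F⟦X⟧ L (S.a k)) =
      (∑ m, algebraMap F⟦X⟧ L (S.Γ m i) * ∑ k, B m k * algebraMap F⟦X⟧ L (S.a k)) +
        algebraMap F⟦X⟧ L (C S.α) * ∑ k, B i k * algebraMap F⟦X⟧ L (S.a k) := by
    rw [map_sum, Finset.mul_sum]
    have e1 : ∀ k, algebraMap F⟦X⟧ L X * DL (B i k * algebraMap F⟦X⟧ L (S.a k)) =
        ((∑ m, algebraMap F⟦X⟧ L (S.Γ m i) * (B m k * algebraMap F⟦X⟧ L (S.a k))) +
          algebraMap F⟦X⟧ L (C S.α) * (B i k * algebraMap F⟦X⟧ L (S.a k))) +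
        ((∑ m, B i m * algebraMap F⟦X⟧ L (S.Γ m k) * algebraMap F⟦X⟧ L (S.a k)) -
          ∑ m, B i k * algebraMap F⟦X⟧ L (S.Γ k m) * algebraMap F⟦X⟧ L (S.a m)) := by
      intro k
      have e2 : (∑ m, algebraMap F⟦X⟧ L (S.Γ m i) * (B m k * algebraMap F⟦X⟧ L (S.a k))) =
          (∑ m, algebraMap F⟦X⟧ L (S.Γ m i) * B m k) * algebraMap F⟦X⟧ L (S.a k) := by
        rw [Finset.sum_mul]
        refine Finset.sum_congr rfl fun m _ => ?_
        ring
      have e3 : (∑ m, B i m * algebraMap F⟦X⟧ L (S.Γ m k) * algebraMap F⟦X⟧ L (S.a k)) =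
          (∑ m, B i m * algebraMap F⟦X⟧ L (S.Γ m k)) * algebraMap F⟦X⟧ L (S.a k) := by
        rw [Finset.sum_mul]
      have e4 : (∑ m, B i k * algebraMap F⟦X⟧ L (S.Γ k m) * algebraMap F⟦X⟧ L (S.a m)) =
          B i k * ∑ m, algebraMap F⟦X⟧ L (S.Γ k m) * algebraMap F⟦X⟧ L (S.a m) := by
        rw [Finset.mul_sum]
        refine Finset.sum_congr rfl fun m _ => ?_
        ring
      rw [hDL.leib, e2, e3, e4]
      linear_combination B i k * hθa k + algebraMap F⟦X⟧ L (S.a k) * hB i k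
    rw [Finset.sum_congr rfl fun k _ => e1 k, Finset.sum_add_distrib, Finset.sum_add_distrib,
      Finset.sum_sub_distrib]
    have e5 : ∑ k, ∑ m, B i m * algebraMap F⟦X⟧ L (S.Γ m k) * algebraMap F⟦X⟧ L (S.a k) =
        ∑ k, ∑ m, B i k * algebraMap F⟦X⟧ L (S.Γ k m) * algebraMap F⟦X⟧ L (S.a m) :=
      Finset.sum_comm
    rw [e5, sub_self, add_zero, Finset.sum_comm, ← Finset.mul_sum]
    congr 1
    refine Finset.sum_congr rfl fun m _ => ?_
    rw [Finset.mul_sum]
  have hp := loc2_pow hDL (2 * w + 1)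
  have e6 : (∑ m, algebraMap F⟦X⟧ L (S.Γ m i) * (algebraMap F⟦X⟧ L X ^ (2 * w + 1) *
      ∑ k, B m k * algebraMap F⟦X⟧ L (S.a k))) = algebraMap F⟦X⟧ L X ^ (2 * w + 1) *
        ∑ m, algebraMap F⟦X⟧ L (S.Γ m i) * ∑ k, B m k * algebraMap F⟦X⟧ L (S.a k) := by
    rw [Finset.mul_sum]
    refine Finset.sum_congr rfl fun m _ => ?_
    ring
  rw [e6, hDL.leib]
  push_cast at hp
  linear_combination algebraMap F⟦X⟧ L X ^ (2 * w + 1) * hθs +
    (∑ k, B i k * algebraMap F⟦X⟧ L (S.a k)) * hp +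
    (algebraMap F⟦X⟧ L X ^ (2 * w + 1) * ∑ k, B i k * algebraMap F⟦X⟧ L (S.a k)) * hαL

theorem flat_Bw {S : Lc ι F} (hS : S.Ok) {DL : L →+ L} (hDL : IsDL F DL) (w : ℕ)
    (hα : 2 * S.α = -(2 * (w : F) + 1)) (B : Matrix ι ι L)
    (hB : ∀ i k, algebraMap F⟦X⟧ L X * DL (B i k) =
      (∑ m, algebraMap _ L (S.Γ m i) * B m k) + ∑ m, B i m * algebraMap _ L (S.Γ m k))
    (hdet : B.det ≠ 0) :
    ∃ (B1 : Matrix ι ι F⟦X⟧) (c : F), c ≠ 0 ∧
      ∀ i k, algebraMap F⟦X⟧ L X ^ (2 * w + 1) * B i k =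
        algebraMap _ L (X ^ (2 * w + 1) * B1 i k + C c * (S.l i * S.l k)) := by
  have hinj := IsFractionRing.injective F⟦X⟧ L
  have hα0 : S.α ≠ 0 := by
    intro h
    rw [h, mul_zero] at hα
    have h1 : ((2 * w + 1 : ℕ) : F) = 0 := by
      push_cast
      linear_combination hα
    exact absurd (Nat.cast_eq_zero.1 h1) (by omega)
  have hjX : algebraMap F⟦X⟧ L X ≠ 0 := by
    intro h
    exact X_ne_zero ((map_eq_zero_iff _ hinj).1 h)
  have hjXp : algebraMap F⟦X⟧ L X ^ (2 * w + 1) ≠ 0 := pow_ne_zero _ hjX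
  have hαL : (2 * (w : L) + 1) = -(2 * algebraMap F⟦X⟧ L (C S.α)) := by
    have e : (2 * (w : F⟦X⟧) + 1) = -(2 * C S.α) := by
      have e1 := congrArg (C (R := F)) hα
      simp only [map_mul, map_neg, map_add, map_one, map_natCast, map_ofNat] at e1
      linear_combination e1
    have e2 := congrArg (algebraMap F⟦X⟧ L) e
    simp only [map_mul, map_neg, map_add, map_one, map_natCast, map_ofNat] at e2
    exact e2
  have hlaL : ∑ i, algebraMap F⟦X⟧ L (S.l i) * algebraMap F⟦X⟧ L (S.a i) =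
      algebraMap F⟦X⟧ L (C S.α) := by
    rw [← hS.hla, map_sum]
    refine Finset.sum_congr rfl fun i _ => ?_
    rw [map_mul]
  obtain ⟨c1, hc1⟩ := loc2_Ba hS hDL w hα hα0 B hB
  obtain ⟨c2, hc2⟩ := loc2_Ba hS hDL w hα hα0 (Matrix.of fun i k => B k i) (by
    intro i k
    simp only [Matrix.of_apply]
    rw [hB k i, add_comm]
    congr 1
    · refine Finset.sum_congr rfl fun m _ => ?_
      ring
    · refine Finset.sum_congr rfl fun m _ => ?_
      ring)
  simp only [Matrix.of_apply] at hc2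
  have hc12 : c1 = c2 := by
    have e1 : ∑ i, algebraMap F⟦X⟧ L (S.a i) * (algebraMap F⟦X⟧ L X ^ (2 * w + 1) *
        ∑ k, B i k * algebraMap F⟦X⟧ L (S.a k)) =
        ∑ k, algebraMap F⟦X⟧ L (S.a k) * (algebraMap F⟦X⟧ L X ^ (2 * w + 1) *
          ∑ i, B i k * algebraMap F⟦X⟧ L (S.a i)) := by
      simp only [Finset.mul_sum]
      rw [Finset.sum_comm]
      refine Finset.sum_congr rfl fun k _ => Finset.sum_congr rfl fun i _ => ?_
      ring
    have e2 : ∀ c : F, ∑ i, algebraMap F⟦X⟧ L (S.a i) * algebraMap F⟦X⟧ L (C c * S.l i) =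
        algebraMap F⟦X⟧ L (C c) * algebraMap F⟦X⟧ L (C S.α) := by
      intro c
      rw [← hlaL, Finset.mul_sum]
      refine Finset.sum_congr rfl fun i _ => ?_
      rw [map_mul]
      ring
    have e4 : ∑ i, algebraMap F⟦X⟧ L (S.a i) * (algebraMap F⟦X⟧ L X ^ (2 * w + 1) *
        ∑ k, B i k * algebraMap F⟦X⟧ L (S.a k)) =
        ∑ i, algebraMap F⟦X⟧ L (S.a i) * algebraMap F⟦X⟧ L (C c1 * S.l i) :=
      Finset.sum_congr rfl fun i _ => by rw [hc1 i]
    have e5 : ∑ k, algebraMap F⟦X⟧ L (S.a k) * (algebraMap F⟦X⟧ L X ^ (2 * w + 1) *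
        ∑ i, B i k * algebraMap F⟦X⟧ L (S.a i)) =
        ∑ k, algebraMap F⟦X⟧ L (S.a k) * algebraMap F⟦X⟧ L (C c2 * S.l k) :=
      Finset.sum_congr rfl fun k _ => by rw [hc2 k]
    rw [e4, e5, e2, e2, ← map_mul, ← map_mul, ← map_mul, ← map_mul] at e1
    have e3 := C_injective (hinj e1)
    exact mul_right_cancel₀ hα0 e3
  have hc : c1 / S.α * S.α = c1 := div_mul_cancel₀ _ hα0
  have hcL : algebraMap F⟦X⟧ L (C (c1 / S.α)) * algebraMap F⟦X⟧ L (C S.α) =
      algebraMap F⟦X⟧ L (C c1) := by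
    rw [← map_mul, ← map_mul, hc]
  -- the modified pairing
  have hB'0 : ∀ i k, ∃ y : L, algebraMap F⟦X⟧ L X ^ (2 * w + 1) * y =
      algebraMap F⟦X⟧ L X ^ (2 * w + 1) * B i k - algebraMap F⟦X⟧ L (C (c1 / S.α)) *
        (algebraMap F⟦X⟧ L (S.l i) * algebraMap F⟦X⟧ L (S.l k)) := by
    intro i k
    exact ⟨_, mul_div_cancel₀ _ hjXp⟩
  choose B' hB' using hB'0
  have hBa : ∀ i, ∑ k, B' i k * algebraMap F⟦X⟧ L (S.a k) = 0 := by
    intro i
    apply mul_left_cancel₀ hjXp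
    rw [mul_zero, Finset.mul_sum]
    have e1 : ∀ k, algebraMap F⟦X⟧ L X ^ (2 * w + 1) * (B' i k * algebraMap F⟦X⟧ L (S.a k)) =
        algebraMap F⟦X⟧ L X ^ (2 * w + 1) * (B i k * algebraMap F⟦X⟧ L (S.a k)) -
        algebraMap F⟦X⟧ L (C (c1 / S.α)) * algebraMap F⟦X⟧ L (S.l i) *
          (algebraMap F⟦X⟧ L (S.l k) * algebraMap F⟦X⟧ L (S.a k)) := by
      intro k
      linear_combination algebraMap F⟦X⟧ L (S.a k) * hB' i k
    rw [Finset.sum_congr rfl fun k _ => e1 k, Finset.sum_sub_distrib, ← Finset.mul_sum,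
      ← Finset.mul_sum, hc1 i, hlaL, map_mul]
    linear_combination -(algebraMap F⟦X⟧ L (S.l i)) * hcL
  have haB : ∀ k, ∑ i, B' i k * algebraMap F⟦X⟧ L (S.a i) = 0 := by
    intro k
    apply mul_left_cancel₀ hjXp
    rw [mul_zero, Finset.mul_sum]
    have e1 : ∀ i, algebraMap F⟦X⟧ L X ^ (2 * w + 1) * (B' i k * algebraMap F⟦X⟧ L (S.a i)) =
        algebraMap F⟦X⟧ L X ^ (2 * w + 1) * (B i k * algebraMap F⟦X⟧ L (S.a i)) -
        algebraMap F⟦X⟧ L (C (c1 / S.α)) * algebraMap F⟦X⟧ L (S.l k) *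
          (algebraMap F⟦X⟧ L (S.l i) * algebraMap F⟦X⟧ L (S.a i)) := by
      intro i
      linear_combination algebraMap F⟦X⟧ L (S.a i) * hB' i k
    rw [Finset.sum_congr rfl fun k _ => e1 k, Finset.sum_sub_distrib, ← Finset.mul_sum,
      ← Finset.mul_sum, hc2 k, hlaL, map_mul, ← hc12]
    linear_combination -(algebraMap F⟦X⟧ L (S.l k)) * hcL
  have hθl : ∀ k, algebraMap F⟦X⟧ L X * DL (algebraMap F⟦X⟧ L (S.l k)) =
      (∑ m, algebraMap F⟦X⟧ L (S.Γ m k) * algebraMap F⟦X⟧ L (S.l m)) -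
        algebraMap F⟦X⟧ L (C S.α) * algebraMap F⟦X⟧ L (S.l k) := by
    intro k
    rw [hDL.alg, ← map_mul, hS.hl k]
    simp only [map_sub, map_sum, map_mul]
  have hθc : DL (algebraMap F⟦X⟧ L (C (c1 / S.α))) = 0 := by
    rw [hDL.alg, derivative_C, map_zero]
  have hp := loc2_pow hDL (2 * w + 1)
  have hθB' : ∀ i k, algebraMap F⟦X⟧ L X * DL (B' i k) =
      (∑ m, algebraMap F⟦X⟧ L (S.Γ m i) * B' m k) +
        ∑ m, B' i m * algebraMap F⟦X⟧ L (S.Γ m k) := by
    intro i k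
    apply mul_left_cancel₀ hjXp
    have e1 := congrArg (fun y => algebraMap F⟦X⟧ L X * DL y) (hB' i k)
    simp only [map_sub, hDL.leib, hθc] at e1
    have e2 : algebraMap F⟦X⟧ L X ^ (2 * w + 1) * ∑ m, algebraMap F⟦X⟧ L (S.Γ m i) * B' m k =
        algebraMap F⟦X⟧ L X ^ (2 * w + 1) * (∑ m, algebraMap F⟦X⟧ L (S.Γ m i) * B m k) -
        algebraMap F⟦X⟧ L (C (c1 / S.α)) * algebraMap F⟦X⟧ L (S.l k) *
          ∑ m, algebraMap F⟦X⟧ L (S.Γ m i) * algebraMap F⟦X⟧ L (S.l m) := by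
      rw [Finset.mul_sum, Finset.mul_sum, Finset.mul_sum, ← Finset.sum_sub_distrib]
      refine Finset.sum_congr rfl fun m _ => ?_
      linear_combination algebraMap F⟦X⟧ L (S.Γ m i) * hB' m k
    have e3 : algebraMap F⟦X⟧ L X ^ (2 * w + 1) * ∑ m, B' i m * algebraMap F⟦X⟧ L (S.Γ m k) =
        algebraMap F⟦X⟧ L X ^ (2 * w + 1) * (∑ m, B i m * algebraMap F⟦X⟧ L (S.Γ m k)) -
        algebraMap F⟦X⟧ L (C (c1 / S.α)) * algebraMap F⟦X⟧ L (S.l i) *
          ∑ m, algebraMap F⟦X⟧ L (S.Γ m k) * algebraMap F⟦X⟧ L (S.l m) := by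
      rw [Finset.mul_sum, Finset.mul_sum, Finset.mul_sum, ← Finset.sum_sub_distrib]
      refine Finset.sum_congr rfl fun m _ => ?_
      linear_combination algebraMap F⟦X⟧ L (S.Γ m k) * hB' i m
    rw [mul_add, e2, e3]
    push_cast at hp
    linear_combination e1 + (B i k - B' i k) * hp +
      algebraMap F⟦X⟧ L X ^ (2 * w + 1) * hB i k -
      algebraMap F⟦X⟧ L (C (c1 / S.α)) * (algebraMap F⟦X⟧ L (S.l i) * hθl k +
        algebraMap F⟦X⟧ L (S.l k) * hθl i) -
      (2 * (w : L) + 1) * hB' i k +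
      (algebraMap F⟦X⟧ L (C (c1 / S.α)) *
        (algebraMap F⟦X⟧ L (S.l i) * algebraMap F⟦X⟧ L (S.l k))) * hαL
  have hint : ∃ B1 : ι × ι → F⟦X⟧, ∀ p : ι × ι, B' p.1 p.2 = algebraMap F⟦X⟧ L (B1 p) := by
    rcases pole (F := F) (fun p : ι × ι => B' p.1 p.2) with ⟨Z, hZ⟩ | ⟨m, Z, hm, hZ, p0, hp0⟩
    · exact ⟨Z, hZ⟩
    · exfalso
      obtain ⟨i, k⟩ := p0
      have ha1 : ∑ n, constantCoeff (Z (i, n)) * S.a0 n = 0 := by
        have e1 : ∑ n, Z (i, n) * S.a n = 0 := by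
          apply hinj
          rw [map_zero, map_sum]
          have e2 : ∀ n, algebraMap F⟦X⟧ L (Z (i, n) * S.a n) =
              algebraMap F⟦X⟧ L X ^ m * (B' i n * algebraMap F⟦X⟧ L (S.a n)) := by
            intro n
            rw [map_mul, ← hZ (i, n), mul_assoc]
          rw [Finset.sum_congr rfl fun n _ => e2 n, ← Finset.mul_sum, hBa i, mul_zero]
        have e3 := congrArg (constantCoeff (R := F)) e1
        rw [map_sum, map_zero] at e3
        rw [← e3]
        refine Finset.sum_congr rfl fun n _ => ?_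
        rw [map_mul, hS.ha0]
      have ha2 : ∑ n, constantCoeff (Z (n, k)) * S.a0 n = 0 := by
        have e1 : ∑ n, Z (n, k) * S.a n = 0 := by
          apply hinj
          rw [map_zero, map_sum]
          have e2 : ∀ n, algebraMap F⟦X⟧ L (Z (n, k) * S.a n) =
              algebraMap F⟦X⟧ L X ^ m * (B' n k * algebraMap F⟦X⟧ L (S.a n)) := by
            intro n
            rw [map_mul, ← hZ (n, k), mul_assoc]
          rw [Finset.sum_congr rfl fun n _ => e2 n, ← Finset.mul_sum, haB k, mul_zero]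
        have e3 := congrArg (constantCoeff (R := F)) e1
        rw [map_sum, map_zero] at e3
        rw [← e3]
        refine Finset.sum_congr rfl fun n _ => ?_
        rw [map_mul, hS.ha0]
      have e := pole_theta hDL m (B' i k) (Z (i, k)) (hZ (i, k))
      have e1 : X * derivative F (Z (i, k)) = C (m : F) * Z (i, k) +
          ((∑ n, S.Γ n i * Z (n, k)) + ∑ n, Z (i, n) * S.Γ n k) := by
        apply hinj
        rw [e, hθB' i k, map_add, map_mul, map_natCast, map_natCast, mul_add, Finset.mul_sum,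
          Finset.mul_sum, map_add, map_sum, map_sum]
        congr 2
        · refine Finset.sum_congr rfl fun n _ => ?_
          rw [map_mul, ← hZ (n, k)]
          ring
        · refine Finset.sum_congr rfl fun n _ => ?_
          rw [map_mul, ← hZ (i, n)]
          ring
      have e2 := congrArg (constantCoeff (R := F)) e1
      rw [map_mul, constantCoeff_X, zero_mul, map_add, map_mul, map_add, map_sum, map_sum,
        constantCoeff_C] at e2
      have e3 : ∀ n, constantCoeff (S.Γ n i * Z (n, k)) =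
          S.l0 i * (constantCoeff (Z (n, k)) * S.a0 n) := by
        intro n
        rw [map_mul, hS.res]
        ring
      have e4 : ∀ n, constantCoeff (Z (i, n) * S.Γ n k) =
          S.l0 k * (constantCoeff (Z (i, n)) * S.a0 n) := by
        intro n
        rw [map_mul, hS.res]
        ring
      rw [Finset.sum_congr rfl fun n _ => e3 n, Finset.sum_congr rfl fun n _ => e4 n,
        ← Finset.mul_sum, ← Finset.mul_sum, ha1, ha2, mul_zero, mul_zero, add_zero,
        add_zero] at e2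
      rcases mul_eq_zero.1 e2.symm with h | h
      · exact absurd (Nat.cast_eq_zero.1 h) (by omega)
      · exact hp0 h
  obtain ⟨B1, hB1⟩ := hint
  refine ⟨Matrix.of fun i k => B1 (i, k), c1 / S.α, ?_, ?_⟩
  · intro h
    have hc0 : c1 = 0 := by
      rw [← hc, h, zero_mul]
    apply hdet
    rw [← Matrix.exists_mulVec_eq_zero_iff]
    refine ⟨fun k => algebraMap F⟦X⟧ L (S.a k), ?_, ?_⟩
    · intro h0
      obtain ⟨i, hi⟩ := hS.a0_ne
      apply hi
      have h1 := congrFun h0 i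
      have h2 : S.a i = 0 := (map_eq_zero_iff _ hinj).1 h1
      rw [← hS.ha0 i, h2, map_zero]
    · funext i
      have h1 := hc1 i
      rw [hc0, map_zero, zero_mul, map_zero] at h1
      rcases mul_eq_zero.1 h1 with h2 | h2
      · exact absurd h2 hjXp
      · exact h2
  · intro i k
    have e := hB' i k
    rw [Matrix.of_apply, map_add, map_mul, map_mul, map_mul, map_pow, ← hB1 (i, k)]
    linear_combination -e

end Lc

end MPadcLZ
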