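import Pool.Agent.Lib.MP_adc574_ag_LZ.BilB

/-!
# PART I (owner: helper90): the flat pairing
-/

set_option autoImplicit false

namespace MPadcLZ

open MvPolynomial MPadcHM

universe u

/-- The flat pairing on `K[x] / ∑ (∂_i + F_i) K[x]`. -/
structure IsPair {K : Type u} [Field K] {N : ℕ} (d : ℕ) (F : MvPolynomial (Fin N) K)
    (B : MvPolynomial (Fin N) K →ₗ[K] MvPolynomial (Fin N) K →ₗ[K] K)
    (rho : MvPolynomial (Fin N) K →ₗ[K] K) : Prop where
  relL : ∀ i Q y, B (dl F i Q) y = 0
  relR : ∀ i Q y, B y (dl F i Q) = 0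
  flat : ∀ (D : Derivation ℤ K K) x y, D (B x y) = B (nb D F x) y + B x (nb D F y)
  outL : ∀ (u : Fin N →₀ ℕ) y, ¬ d ∣ dg u + N → B (monomial u 1) y = 0
  outR : ∀ (u : Fin N →₀ ℕ) y, ¬ d ∣ dg u + N → B y (monomial u 1) = 0
  low : ∀ u v : Fin N →₀ ℕ, dg u + dg v < N * (d - 2) → B (monomial u 1) (monomial v 1) = 0
  mid : ∀ u v : Fin N →₀ ℕ, d ∣ dg u + N → dg u + dg v = N * (d - 2) →
    B (monomial u 1) (monomial v 1) = (-1) ^ ((dg u + N) / d + 1) * rho (monomial (u + v) 1)
  rho_jac : ∀ i Q, rho (pderiv i F * Q) = 0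
  rho_perf : ∀ m ≤ N * (d - 2), ∀ P, Hm m P →
    (∀ v : Fin N →₀ ℕ, dg v + m = N * (d - 2) → rho (P * monomial v 1) = 0) → P ∈ Jac F
  top : ∀ e : Fin N →₀ ℕ, N * (d - 2) < dg e → monomial e 1 ∈ Jac F

theorem hm_mono {K : Type u} [Field K] {N : ℕ} (u : Fin N →₀ ℕ) (c : K) :
    Hm (dg u) (monomial u c) := by
  classical
  intro e he
  rw [mem_support_iff, coeff_monomial] at he
  by_contra hne
  apply he
  rw [if_neg]
  rintro rfl
  exact hne rfl

theorem pairing {K : Type u} [Field K] [CharZero K] {N : ℕ} (hN : 1 ≤ N) {d : ℕ} (hd : 2 ≤ d)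
    (F : MvPolynomial (Fin N) K) (hF : Hm d F) (M : ℕ)
    (hM : ∀ i, (X i : MvPolynomial (Fin N) K) ^ M ∈ Jac F) :
    ∃ B rho, IsPair d F B rho := by
  have H : RegF (d - 1) F :=
    { sop := fun i => ⟨M, hM i⟩
      hom := fun j => hm_pderiv hF j
      he := by omega }
  have hde : d = (d - 1) + 1 := by omega
  have he2 : d - 1 - 1 = d - 2 := by omega
  have hh1 : ∀ P, rr (gr F) 1 P = resf (gr F) P := by
    intro P
    unfold rr
    congr 2
    funext j
    simp
  have hN2 : N * (d - 2) + 2 * N = N * d := by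
    have : N * (d - 2) + 2 * N = N * ((d - 2) + 2) := by ring
    rw [this]
    congr 1
    omega
  -- the residue kills the wrong degrees
  have hres : ∀ (m : ℕ) (P : MvPolynomial (Fin N) K), Hm m P → m ≠ N * (d - 2) →
      resf (gr F) P = 0 := by
    intro m P hP hm
    refine resf_hom H.sop (fun _ => d - 1) H.hom m P hP ?_
    rw [Finset.sum_const, Finset.card_univ, Fintype.card_fin, smul_eq_mul]
    intro hc
    apply hm
    have h3 : N * (d - 1) = N * (d - 2) + N := by
      have : N * (d - 2) + N = N * ((d - 2) + 1) := by ring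
      rw [this]
      congr 1
      omega
    omega
  refine ⟨Bil H d, resf (gr F), ?_⟩
  refine
    { relL := fun i Q y => bil_relL H hde hN hF i Q y
      relR := fun i Q y => bil_relR H hde hN hF i Q y
      flat := fun D x y => bil_flat H hde hF D x y
      outL := fun u y hu => bil_outL H (hm_mono u 1) hu y
      outR := fun u y hu => bil_outR H (hm_mono u 1) hu y
      low := ?_
      mid := ?_
      rho_jac := fun i Q => resf_mem H.sop _
        (Ideal.mul_mem_right _ _ (Ideal.subset_span ⟨i, rfl⟩))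
      rho_perf := ?_
      top := ?_ }
  · intro u v huv
    rw [bil_mon]
    unfold bmon
    split_ifs with h
    · obtain ⟨⟨A, hA⟩, B, hB⟩ := h
      have hd0 : 0 < d := by omega
      rw [hA, hB, Nat.mul_div_cancel_left _ hd0, Nat.mul_div_cancel_left _ hd0, bet_neg, mul_zero]
      have h1 : d * (A + B) < d * N := by
        have h2 : d * (A + B) = dg u + dg v + 2 * N := by
          rw [mul_add, ← hA, ← hB]
          ring
        have h3 : d * N = N * d := mul_comm _ _
        omega
      have h4 : A + B < N := lt_of_mul_lt_mul_left h1 (Nat.zero_le _)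
      omega
    · rfl
  · intro u v hu huv
    obtain ⟨A, hA⟩ := hu
    have hd0 : 0 < d := by omega
    have hAN : A ≤ N := by
      have h1 : d * A ≤ d * N := by
        rw [← hA]
        have h3 : d * N = N * d := mul_comm _ _
        omega
      exact le_of_mul_le_mul_left h1 hd0
    have hB : dg v + N = d * (N - A) := by
      have h1 : d * (N - A) + d * A = d * N := by
        rw [← mul_add]
        congr 1
        omega
      have h3 : d * N = N * d := mul_comm _ _
      omega
    rw [bil_mon]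
    unfold bmon
    rw [if_pos ⟨⟨A, hA⟩, ⟨N - A, hB⟩⟩, hA, hB, Nat.mul_div_cancel_left _ hd0,
      Nat.mul_div_cancel_left _ hd0]
    have h5 : ((A : ℤ) + ((N - A : ℕ) : ℤ) - N) = 0 := by
      omega
    rw [h5, bet_zero, monomial_mul, mul_one]
  · intro m hm P hP hv
    refine resf_nondeg H.sop (fun j => mem_X H.he (H.hom j)) P ?_
    intro v
    by_cases hc : dg v + m = N * (d - 2)
    · exact hv v hc
    · exact hres _ _ (hm_mul hP (hm_mono v 1)) (by omega)
  · intro u hu
    refine resf_nondeg H.sop (fun j => mem_X H.he (H.hom j)) _ ?_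
    intro v
    exact hres _ _ (hm_mul (hm_mono u 1) (hm_mono v 1)) (by omega)

end MPadcLZ
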