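import Pool.Agent.Lib.MP_adc574_ag_LZ.PK
import Pool.Agent.Lib.MP_adc574_ag_LZ.Pair

/-!
# JOB HGd: the module `P_K` of a pencil satisfies the interface

* `fk_eq`: `FK = G - t H` over `K = κ(t)`: `map_map`, `RatFunc.algebraMap_X`, `algebraMap κ (RatFunc κ) = (algebraMap κ[X] (RatFunc κ)).comp Polynomial.C` (`RatFunc.algebraMap_C`, `RatFunc.algebraMap_eq_C`).
* `fk_hom`: the support of `P.map φ` is contained in the support of `P`.
* `fk_jac`: `hS.gen`, `hS.ann` mapped to `K` (`Ideal.mem_map_of_mem`, `pderiv_map`: the image of `Jac ft` is in `Jac FK`): `C δ * ell^M ∈ Jac FK`, `δ ≠ 0` in `K` (a product of monic linear factors), so `ell^M ∈ Jac FK`, so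
  `monomial e 1 ∈ Jac FK` for `dg e = M`; take `e = Finsupp.single i M`.
* `nb_dl`: the connection commutes with `∂_i + F_i`: with `cderD D` (FrD: a derivation, `cderD_apply`, `cderD_pderiv`) both sides are
  `D ∂_i Q + D(F_i) Q + F_i D Q + (DF) ∂_i Q + (DF) F_i Q`.
* `nb_smul`: `nb D F (c • P) = D c • P + c • nb D F P`; `nb_add`.
* `exists_hg`: `relZ` is mapped into itself by `nb`: `Submodule.span_induction` (generators: `nb_dl`; `x^e` outside W0: `nb D F (x^e) = (DF) x^e` is a combination of monomials `x^(e+v)` with `dg v = d`, also outside W0, as `Hm d (cder D F)`; sums; multiples: `nb_smul`). So `nab`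
  on the quotient: `QuotientAddGroup.map`-like, or `Quotient.lift`; or `AddMonoidHom` from `Submodule.Quotient` by `QuotientAddGroup.lift`; or define `nab x := mk (nb .. (Classical.choose (mk_surjective x)))` and prove additivity. `leib`: choose representatives. `DK κ c = DZ κ c` (`DZ_apply`).
* `exists_pp`: `pairing` (Pair.lean) for `F = FK`, `K = RatFunc κ` (characteristic 0): `B'`, `rho` with `IsPair`. `relL`, `relR`, `outL`, `outR` give by `exists_lift` (twice; first `x ↦ B' x` as a map into `S_K →ₗ K`, then each `B'` in the second argument; e.g. lift the map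
  `x ↦ (lift of B' x)` which is linear by uniqueness: `brP_surj`) a bilinear `B` on `PKm` with `B (brP x) (brP y) = B' x y`. `flat` from `IsPair.flat` with `D = DZ κ`.
-/

set_option autoImplicit false

namespace MPadcLZ

open MvPolynomial MPadcHM

universe u

section

variable {K : Type*} [Field K] {N : ℕ}

theorem nb_add (D : Derivation ℤ K K) (F P Q : MvPolynomial (Fin N) K) :
    nb D F (P + Q) = nb D F P + nb D F Q := by
  simp only [nb, ← cderD_apply, map_add]
  ring

theorem nb_smul (D : Derivation ℤ K K) (F : MvPolynomial (Fin N) K) (c : K)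
    (P : MvPolynomial (Fin N) K) : nb D F (c • P) = D c • P + c • nb D F P := by
  have h : cderD D (C c) = (C (D c) : MvPolynomial (Fin N) K) := cderD_monomial D 0 c
  simp only [nb, ← cderD_apply, MvPolynomial.smul_eq_C_mul, Derivation.leibniz, smul_eq_mul, h]
  ring

theorem nb_dl (D : Derivation ℤ K K) (F : MvPolynomial (Fin N) K) (i : Fin N)
    (Q : MvPolynomial (Fin N) K) : nb D F (dl F i Q) = dl F i (nb D F Q) := by
  simp only [nb, dl, ← cderD_apply, map_add, Derivation.leibniz, cderD_pderiv, smul_eq_mul]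
  ring

end

section

variable {κ : Type u} [Field κ] [CharZero κ] {N : ℕ} (S : PDat κ N)

omit [CharZero κ] in
theorem fk_eq : S.FK = S.G.map (algebraMap κ (RatFunc κ)) -
    C RatFunc.X * S.H.map (algebraMap κ (RatFunc κ)) := by
  have h : (algebraMap (Polynomial κ) (RatFunc κ)).comp Polynomial.C =
      algebraMap κ (RatFunc κ) := by
    ext c
    rw [RingHom.comp_apply, RatFunc.algebraMap_C, RatFunc.algebraMap_eq_C]
  unfold PDat.FK PDat.ft
  rw [map_sub, map_mul, MvPolynomial.map_C, MvPolynomial.map_map, MvPolynomial.map_map,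
    RatFunc.algebraMap_X, h]

omit [CharZero κ] in
theorem fk_hom (hS : S.Ok) : Hm S.d S.FK := by
  intro e he
  have h1 : e ∈ S.ft.support := MvPolynomial.support_map_subset _ _ he
  rw [MvPolynomial.mem_support_iff] at h1
  by_contra hne
  apply h1
  have hG : MvPolynomial.coeff e S.G = 0 := by
    by_contra h2
    exact hne (hS.homG e (MvPolynomial.mem_support_iff.2 h2))
  have hH : MvPolynomial.coeff e S.H = 0 := by
    by_contra h2
    exact hne (hS.homH e (MvPolynomial.mem_support_iff.2 h2))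
  unfold PDat.ft
  rw [MvPolynomial.coeff_sub, MvPolynomial.coeff_C_mul, MvPolynomial.coeff_map,
    MvPolynomial.coeff_map, hG, hH]
  simp

private theorem hgda_jac {R R' : Type*} [CommRing R] [CommRing R'] {N : ℕ} (φ : R →+* R')
    {f P : MvPolynomial (Fin N) R} (h : P ∈ Jac f) : P.map φ ∈ Jac (f.map φ) := by
  have h1 : Jac f ≤ (Jac (f.map φ)).comap (MvPolynomial.map φ) := by
    unfold Jac
    rw [Ideal.span_le]
    rintro _ ⟨j, rfl⟩
    change MvPolynomial.map φ (pderiv j f) ∈ Ideal.span (Set.range fun j => pderiv j (f.map φ))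
    rw [← MvPolynomial.pderiv_map]
    exact Ideal.subset_span ⟨j, rfl⟩
  exact h1 h

omit [CharZero κ] in
private theorem hgda_del : algebraMap (Polynomial κ) (RatFunc κ) S.del ≠ 0 := by
  refine RatFunc.algebraMap_ne_zero ?_
  exact Finset.prod_ne_zero_iff.2 fun j _ => Polynomial.X_sub_C_ne_zero _

omit [CharZero κ] in
theorem fk_jac (hS : S.Ok) :
    ∃ M : ℕ, ∀ i, (X i : MvPolynomial (Fin N) (RatFunc κ)) ^ M ∈ Jac S.FK := by
  refine ⟨S.M, fun i => ?_⟩
  have h1 := hgda_jac (algebraMap (Polynomial κ) (RatFunc κ)) hS.ann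
  rw [map_mul, MvPolynomial.map_C] at h1
  have h2 : MvPolynomial.map (algebraMap (Polynomial κ) (RatFunc κ))
      (S.ell.map Polynomial.C ^ S.M) ∈ Jac S.FK := by
    have h3 := Ideal.mul_mem_left (Jac S.FK)
      (C (algebraMap (Polynomial κ) (RatFunc κ) S.del)⁻¹) h1
    rwa [← mul_assoc, ← C_mul, inv_mul_cancel₀ (hgda_del S), C_1, one_mul] at h3
  have he : dg (Finsupp.single i S.M) = S.M := by
    unfold dg
    simp [Finsupp.single_apply]
  obtain ⟨xi, hxi⟩ := hS.gen (Finsupp.single i S.M) he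
  have h4 := hgda_jac (algebraMap (Polynomial κ) (RatFunc κ)) hxi
  rw [map_sub, map_mul, MvPolynomial.map_monomial, map_one] at h4
  have h5 := (Jac S.FK).add_mem h4 (Ideal.mul_mem_left (Jac S.FK)
    (MvPolynomial.map (algebraMap (Polynomial κ) (RatFunc κ)) (C xi)) h2)
  rw [sub_add_cancel, ← MvPolynomial.X_pow_eq_monomial] at h5
  exact h5

private theorem hgdb_dg_add {N : ℕ} (e f : Fin N →₀ ℕ) : dg (e + f) = dg e + dg f := by
  unfold dg
  rw [← Finset.sum_add_distrib]
  exact Finset.sum_congr rfl fun i _ => Finsupp.add_apply _ _ _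

private theorem hgdb_out {K : Type*} [Field K] {N : ℕ} (d : ℕ) (F T : MvPolynomial (Fin N) K)
    (hT : ∀ e ∈ T.support, dg e = d) (e : Fin N →₀ ℕ) (he : ¬ d ∣ dg e + N) :
    T * monomial e 1 ∈ relZ d F := by
  have h : T * monomial e 1 = ∑ v ∈ T.support, coeff v T • monomial (e + v) (1 : K) := by
    conv_lhs => rw [T.as_sum]
    rw [Finset.sum_mul]
    refine Finset.sum_congr rfl fun v _ => ?_
    rw [monomial_mul, mul_one, smul_monomial, smul_eq_mul, mul_one, add_comm]
  rw [h]
  refine Submodule.sum_mem _ fun v hv => Submodule.smul_mem _ _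
    (Submodule.subset_span (Or.inr ⟨e + v, ?_, rfl⟩))
  rw [hgdb_dg_add, hT v hv]
  intro h'
  apply he
  have h2 : dg e + d + N = dg e + N + d := by ring
  rw [h2] at h'
  exact (Nat.dvd_add_left (dvd_refl d)).1 h'

private theorem hgdb_coeff {K : Type*} [Field K] {N : ℕ} (D : Derivation ℤ K K)
    (P : MvPolynomial (Fin N) K) (m : Fin N →₀ ℕ) : coeff m (cder D P) = D (coeff m P) := by
  rw [← cderD_apply, coeff_cderD]

private theorem hgdb_one {K : Type*} [Field K] {N : ℕ} (D : Derivation ℤ K K)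
    (e : Fin N →₀ ℕ) : cder D (monomial e (1 : K)) = 0 := by
  rw [← cderD_apply, cderD_monomial, Derivation.map_one_eq_zero, map_zero]

private theorem hgdb_zero {K : Type*} [Field K] {N : ℕ} (D : Derivation ℤ K K)
    (F : MvPolynomial (Fin N) K) : nb D F 0 = 0 := by
  unfold nb
  rw [← cderD_apply, map_zero, mul_zero, add_zero]

omit [CharZero κ] in
private theorem hgdb_mem (hS : S.Ok) (P : MvPolynomial (Fin N) (RatFunc κ))
    (hP : P ∈ relZ S.d S.FK) : nb (DZ κ) S.FK P ∈ relZ S.d S.FK := by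
  have hP' : P ∈ Submodule.span (RatFunc κ)
      ({P : MvPolynomial (Fin N) (RatFunc κ) | ∃ i Q, P = dl S.FK i Q} ∪
        {P | ∃ e : Fin N →₀ ℕ, ¬ S.d ∣ dg e + N ∧ P = monomial e 1}) := hP
  induction hP' using Submodule.span_induction with
  | mem x hx =>
    rcases hx with ⟨i, Q, rfl⟩ | ⟨e, he, rfl⟩
    · rw [nb_dl]
      exact Submodule.subset_span (Or.inl ⟨i, _, rfl⟩)
    · have h1 : nb (DZ κ) S.FK (monomial e 1) = cder (DZ κ) S.FK * monomial e 1 := by
        unfold nb
        rw [hgdb_one, zero_add]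
      rw [h1]
      refine hgdb_out S.d S.FK _ (fun v hv => ?_) e he
      refine fk_hom S hS v ?_
      rw [mem_support_iff] at hv ⊢
      intro h0
      apply hv
      rw [hgdb_coeff, h0, map_zero]
  | zero =>
    rw [hgdb_zero]
    exact Submodule.zero_mem _
  | add x y hx' hy' hx hy =>
    rw [nb_add]
    exact Submodule.add_mem _ (hx hx') (hy hy')
  | smul a x hx' hx =>
    rw [nb_smul]
    exact Submodule.add_mem _ (Submodule.smul_mem _ _ hx') (Submodule.smul_mem _ _ (hx hx'))

omit [CharZero κ] in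
private theorem hgdb_wd (hS : S.Ok) (P Q : MvPolynomial (Fin N) (RatFunc κ))
    (h : brP S.d S.FK P = brP S.d S.FK Q) :
    brP S.d S.FK (nb (DZ κ) S.FK P) = brP S.d S.FK (nb (DZ κ) S.FK Q) := by
  have h1 : P - Q ∈ relZ S.d S.FK := by
    rw [← Submodule.Quotient.mk_eq_zero]
    show brP S.d S.FK (P - Q) = 0
    rw [map_sub, h, sub_self]
  have h2 : brP S.d S.FK (nb (DZ κ) S.FK (P - Q)) = 0 :=
    (Submodule.Quotient.mk_eq_zero _).2 (hgdb_mem S hS _ h1)
  have h3 : P = Q + (P - Q) := by ring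
  rw [h3, nb_add, map_add, h2, add_zero]

omit [CharZero κ] in
theorem exists_hg (hS : S.Ok) :
    ∃ nab : PKm S.d S.FK →+ PKm S.d S.FK, IsHG S nab (brP S.d S.FK) := by
  have hs : ∀ x : PKm S.d S.FK, brP S.d S.FK (Classical.choose (brP_surj S.d S.FK x)) = x :=
    fun x => Classical.choose_spec (brP_surj S.d S.FK x)
  have key : ∀ P, brP S.d S.FK (nb (DZ κ) S.FK
      (Classical.choose (brP_surj S.d S.FK (brP S.d S.FK P)))) =
      brP S.d S.FK (nb (DZ κ) S.FK P) := fun P => hgdb_wd S hS _ _ (hs _)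
  let nab : PKm S.d S.FK →+ PKm S.d S.FK :=
    { toFun := fun x => brP S.d S.FK (nb (DZ κ) S.FK (Classical.choose (brP_surj S.d S.FK x)))
      map_zero' := by
        have h := key 0
        rw [map_zero, hgdb_zero, map_zero] at h
        exact h
      map_add' := fun x y => by
        obtain ⟨P, rfl⟩ := brP_surj S.d S.FK x
        obtain ⟨Q, rfl⟩ := brP_surj S.d S.FK y
        have h := key (P + Q)
        rw [map_add] at h
        rw [h, key P, key Q, nb_add, map_add] }
  have hn : ∀ P, nab (brP S.d S.FK P) = brP S.d S.FK (nb (DZ κ) S.FK P) := key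
  refine ⟨nab, ⟨fun c x => ?_, fun i Q => brP_dl S.d S.FK i Q,
    fun e he => brP_out S.d S.FK e he, hn, brP_surj S.d S.FK⟩⟩
  obtain ⟨P, rfl⟩ := brP_surj S.d S.FK x
  rw [← map_smul, hn, hn, nb_smul, map_add, map_smul, map_smul, DZ_apply]

theorem exists_pp (hS : S.Ok) {nab : PKm S.d S.FK →+ PKm S.d S.FK}
    (hG : IsHG S nab (brP S.d S.FK)) : ∃ B rho, IsPP S nab (brP S.d S.FK) B rho := by
  have hc1 : CharZero (RatFunc κ) :=
    charZero_of_injective_algebraMap (algebraMap κ (RatFunc κ)).injective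
  obtain ⟨M, hM⟩ := fk_jac S hS
  have hN : 1 ≤ N := le_trans (by norm_num) hS.hN
  have hd : 2 ≤ S.d := le_trans (by norm_num) hS.hd
  obtain ⟨B', rho, hB⟩ := pairing hN hd S.FK (fk_hom S hS) M hM
  obtain ⟨B1, hB1⟩ := exists_lift S.d S.FK B'
    (fun i Q => LinearMap.ext fun y => by rw [hB.relL, LinearMap.zero_apply])
    (fun e he => LinearMap.ext fun y => by rw [hB.outL e y he, LinearMap.zero_apply])
  obtain ⟨B2, hB2⟩ := exists_lift S.d S.FK B1.flip
    (fun i Q => LinearMap.ext fun x => by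
      obtain ⟨P, rfl⟩ := brP_surj S.d S.FK x
      rw [LinearMap.flip_apply, hB1, hB.relR, LinearMap.zero_apply])
    (fun e he => LinearMap.ext fun x => by
      obtain ⟨P, rfl⟩ := brP_surj S.d S.FK x
      rw [LinearMap.flip_apply, hB1, hB.outR e P he, LinearMap.zero_apply])
  have hBB : ∀ P Q, B2.flip (brP S.d S.FK P) (brP S.d S.FK Q) = B' P Q := by
    intro P Q
    rw [LinearMap.flip_apply, hB2, LinearMap.flip_apply, hB1]
  refine ⟨B2.flip, rho, ?_, ?_, ?_, hB.rho_jac, hB.rho_perf, hB.top⟩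
  · intro x y
    obtain ⟨P, rfl⟩ := brP_surj S.d S.FK x
    obtain ⟨Q, rfl⟩ := brP_surj S.d S.FK y
    rw [hG.nab_br, hG.nab_br, hBB, hBB, hBB, ← hB.flat (DZ κ), DZ_apply]
  · intro u v h
    rw [hBB]
    exact hB.low u v h
  · intro u v h1 h2
    rw [hBB]
    exact hB.mid u v h1 h2

/-- The module structures on `P_K` used in the interface are found. -/
example : IsScalarTower (Polynomial κ) (RatFunc κ) (PKm S.d S.FK) := inferInstance

end

end MPadcLZ
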