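import Pool.Agent.Lib.MP_adc574_ag_LZ.HGd

/-!
# JOB NdA, NdB: nondegeneracy and generators

`σ = N (d - 2)`.
* `jac_comp`: a homogeneous `P` of degree `m` in `Jac F`, `F` homogeneous of degree `d ≥ 1`: `P = ∑ F_i Q_i` with `Q_i` homogeneous of degree `m - (d - 1)` (all monomials `e` of `Q_i` satisfy `dg e + d = m + 1`). Proof: `Ideal.mem_span_range_iff_exists_fun`, keep in `Q_i`
  only the monomials with `dg e + d = m + 1` (compare coefficients of degree `m`; the other parts of `∑ F_i Q_i` have other degrees).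
* `br_red` (JOB NdA): if `P` is homogeneous of degree `m`, `P ∈ Jac FK`, then `br P = br P'` with `P'` homogeneous of degree `m - d` (`∀ e ∈ support, dg e + d = m`): `P = ∑ F_i Q_i`, `br (F_i Q_i) = - br (∂_i Q_i)` (`hG.rel`, `dl`), `∂_i Q_i` has degree `(m - d + 1) - 1`.
* `mo_span`: for every `e` in W0: `br (x^e)` is in the span (over `K`) of the `br (x^v)`, `v` in W0, `dg v ≤ σ`: strong induction on `dg e`: if `dg e > σ`, `x^e ∈ Jac` (`hP.top`), `br_red`, and every monomial of `P'` has degree `dg e - d` (again W0). Then `hG.surj`, `MvPolynomial` induction, `hG.out`.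
* `mo_fin`: a finite module (finitely many exponents with `dg v ≤ σ`; or: `Module.Finite` from a finite spanning set).
* `nd_left` (JOB NdB): if `∀ y, B x y = 0` then `x = 0`. Claim: for all `a : ℕ` and `P` with `∀ e ∈ P.support, d ∣ dg e + N ∧ dg e + N ≤ d * a`: `(∀ y, B (br P) y = 0) → br P = 0`. Induction on `a`. `a = 0`: `P = 0` as `N ≥ 3`. `a + 1`: `P = P₁ + P₀`, `P₁` the part with `dg e + N = d (a + 1)` (degree
  `m = d (a+1) - N`, if `N ≤ d (a+1)`, otherwise `P = 0`), `P₀` with `≤ d a`. If `m ≤ σ`: for `v` with `dg v + m = σ`: `B (br P₀) (br x^v) = 0` (`hP.low` for each monomial: `dg e ≤ m - d < m`), `B (br P₁) (br x^v) = ± rho (P₁ x^v)` (`hP.mid`, the sign depends only on `m`), so `rho (P₁ x^v) = 0`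
  and `P₁ ∈ Jac` (`hP.rho_perf`). If `m > σ`, `P₁ ∈ Jac` by `hP.top`. Then `br_red`: `br P = br (P₀ + P')` with monomials of level `≤ a`; induction. Every `x` is `br P` with `P` supported in W0 (`hG.surj`, remove the other monomials by `hG.out`).
* `nd_right`: the same with the arguments exchanged: `B (br x^v) (br P₁) = ± rho (x^v P₁)`, the sign depends on `dg v = σ - m`; `d ∣ dg v + N` because `σ + 2 N = N d`.
* `low_ne`: `rho (x^w) ≠ 0` for some `w` with `dg w = σ`: otherwise `hP.rho_perf` with `m = 0`, `P = 1`: `1 ∈ Jac`, impossible (the generators of `Jac FK` have no constant term, `d ≥ 3`: apply `constantCoeff`). If `m₀ < d` then `m₀ ≤ σ` (`N ≥ 3`, `d ≥ 3`): `w = u + v` with `dg u = m₀` (choose `u ≤ w`: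
  `exists_le_dg`: for `m ≤ dg w` there is `u ≤ w` with `dg u = m`, induction).
-/

set_option autoImplicit false

namespace MPadcLZ

open MvPolynomial MPadcHM

universe u

theorem dg_add {N : ℕ} (u v : Fin N →₀ ℕ) : dg (u + v) = dg u + dg v := by
  simp [dg, Finset.sum_add_distrib]

private theorem nda_single {N : ℕ} (i : Fin N) (k : ℕ) : dg (Finsupp.single i k : Fin N →₀ ℕ) = k := by
  classical
  unfold dg
  rw [Finset.sum_eq_single i]
  · rw [Finsupp.single_eq_same]
  · intro j _ hj
    rw [Finsupp.single_eq_of_ne hj]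
  · intro h
    exact absurd (Finset.mem_univ i) h

theorem exists_le_dg {N : ℕ} (w : Fin N →₀ ℕ) (m : ℕ) (hm : m ≤ dg w) :
    ∃ u v, u + v = w ∧ dg u = m := by
  classical
  induction m with
  | zero => exact ⟨0, w, zero_add w, by simp [dg]⟩
  | succ m ih =>
    obtain ⟨u, v, huv, hu⟩ := ih (by omega)
    have hv : dg v ≠ 0 := by
      have h1 := dg_add u v
      rw [huv] at h1
      omega
    obtain ⟨i, -, hi⟩ := Finset.exists_ne_zero_of_sum_ne_zero hv
    refine ⟨u + Finsupp.single i 1, v - Finsupp.single i 1, ?_, ?_⟩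
    · rw [← huv]
      ext j
      rw [Finsupp.add_apply, Finsupp.add_apply, Finsupp.add_apply, Finsupp.tsub_apply]
      by_cases hj : j = i
      · subst hj
        rw [Finsupp.single_eq_same]
        omega
      · rw [Finsupp.single_eq_of_ne hj]
        omega
    · rw [dg_add, hu, nda_single]

private theorem nda_hom {K : Type*} [Field K] {N m : ℕ} {P : MvPolynomial (Fin N) K} :
    Hm m P ↔ P.IsHomogeneous m := by
  have hdeg : ∀ e : Fin N →₀ ℕ, dg e = e.degree := by
    intro e
    rw [Finsupp.degree_eq_sum]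
    rfl
  constructor
  · intro h e he
    have h1 := h e (mem_support_iff.2 he)
    rw [hdeg, Finsupp.degree_eq_weight_one] at h1
    exact h1
  · intro h e he
    rw [hdeg]
    by_contra h1
    exact (mem_support_iff.1 he) (h.coeff_eq_zero h1)

private theorem nda_comp {K : Type*} [Field K] {N M e : ℕ} (a b : MvPolynomial (Fin N) K)
    (hb : b.IsHomogeneous e) : homogeneousComponent M (a * b) =
      if e ≤ M then homogeneousComponent (M - e) a * b else 0 := by
  classical
  have h1 : a * b = ∑ k ∈ Finset.range (a.totalDegree + 1), homogeneousComponent k a * b := by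
    rw [← Finset.sum_mul, sum_homogeneousComponent]
  have h2 : ∀ k, homogeneousComponent M (homogeneousComponent k a * b) =
      if M = k + e then homogeneousComponent k a * b else 0 := by
    intro k
    exact homogeneousComponent_of_mem ((homogeneousComponent_isHomogeneous k a).mul hb)
  rw [h1, map_sum, Finset.sum_congr rfl fun k _ => h2 k]
  split_ifs with h
  · by_cases h3 : M - e ∈ Finset.range (a.totalDegree + 1)
    · rw [Finset.sum_eq_single (M - e)]
      · rw [if_pos (by omega)]
      · intro k _ hk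
        rw [if_neg (by omega)]
      · intro h4
        exact absurd h3 h4
    · rw [Finset.sum_eq_zero, homogeneousComponent_eq_zero _ _ (by
        rw [Finset.mem_range] at h3
        omega), zero_mul]
      intro k hk
      rw [if_neg]
      rintro h4
      apply h3
      have h5 : M - e = k := by omega
      rw [h5]
      exact hk
  · refine Finset.sum_eq_zero fun k _ => ?_
    rw [if_neg (by omega)]

theorem jac_comp {K : Type*} [Field K] {N : ℕ} {d m : ℕ} (hd : 1 ≤ d)
    {F P : MvPolynomial (Fin N) K} (hF : Hm d F) (hP : Hm m P) (h : P ∈ Jac F) :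
    ∃ Q : Fin N → MvPolynomial (Fin N) K, P = ∑ i, pderiv i F * Q i ∧
      ∀ i, ∀ e ∈ (Q i).support, dg e + d = m + 1 := by
  classical
  obtain ⟨c, hc⟩ := (Submodule.mem_span_range_iff_exists_fun _).1 h
  simp only [smul_eq_mul] at hc
  have hF' := nda_hom.1 hF
  have hP' := nda_hom.1 hP
  have h0 := congrArg (homogeneousComponent m) hc
  rw [homogeneousComponent_eq_self hP', map_sum,
    Finset.sum_congr rfl fun j _ => nda_comp (M := m) (c j) _ (hF'.pderiv (i := j))] at h0
  by_cases hd1 : d - 1 ≤ m
  · refine ⟨fun j => homogeneousComponent (m - (d - 1)) (c j), ?_, ?_⟩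
    · rw [← h0]
      refine Finset.sum_congr rfl fun j _ => ?_
      rw [if_pos hd1, mul_comm]
    · intro i e he
      have h1 := nda_hom.2 (homogeneousComponent_isHomogeneous (m - (d - 1)) (c i)) e he
      omega
  · refine ⟨fun _ => 0, ?_, ?_⟩
    · rw [← h0]
      simp only [mul_zero, Finset.sum_const_zero]
      refine Finset.sum_eq_zero fun j _ => ?_
      rw [if_neg hd1]
    · intro i e he
      simp at he

private theorem ndb_split {K : Type*} [Field K] {N : ℕ} (P : MvPolynomial (Fin N) K)
    (p : (Fin N →₀ ℕ) → Prop) :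
    ∃ P1 P0 : MvPolynomial (Fin N) K, P = P1 + P0 ∧
      (∀ e ∈ P1.support, p e ∧ e ∈ P.support) ∧ (∀ e ∈ P0.support, ¬ p e ∧ e ∈ P.support) := by
  classical
  have key : ∀ (s : Finset (Fin N →₀ ℕ)), ∀ e ∈ (∑ x ∈ s, monomial x (coeff x P)).support, e ∈ s := by
    intro s e he
    rw [mem_support_iff, coeff_sum] at he
    by_contra hn
    apply he
    refine Finset.sum_eq_zero (fun x hx => ?_)
    rw [coeff_monomial, if_neg]
    intro h
    exact hn (h ▸ hx)
  refine ⟨∑ x ∈ P.support.filter p, monomial x (coeff x P),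
    ∑ x ∈ P.support.filter (fun x => ¬ p x), monomial x (coeff x P), ?_, ?_, ?_⟩
  · rw [Finset.sum_filter_add_sum_filter_not]
    exact (support_sum_monomial_coeff P).symm
  · intro e he
    have h := key _ e he
    rw [Finset.mem_filter] at h
    exact ⟨h.2, h.1⟩
  · intro e he
    have h := key _ e he
    rw [Finset.mem_filter] at h
    exact ⟨h.2, h.1⟩

private theorem ndb_exp {K : Type*} [Field K] {N : ℕ} {V : Type*} [AddCommGroup V] [Module K V]
    (f : MvPolynomial (Fin N) K →ₗ[K] V) (P : MvPolynomial (Fin N) K) :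
    f P = ∑ e ∈ P.support, coeff e P • f (monomial e 1) := by
  conv_lhs => rw [← support_sum_monomial_coeff P]
  rw [map_sum]
  refine Finset.sum_congr rfl (fun e _ => ?_)
  rw [← map_smul, smul_monomial, smul_eq_mul, mul_one]

private theorem ndb_jac {K : Type*} [Field K] {N : ℕ} (I : Ideal (MvPolynomial (Fin N) K))
    (P : MvPolynomial (Fin N) K) (h : ∀ e ∈ P.support, monomial e (1 : K) ∈ I) : P ∈ I := by
  rw [← support_sum_monomial_coeff P]
  refine Ideal.sum_mem _ (fun e he => ?_)
  have h1 : monomial e (coeff e P) = C (coeff e P) * monomial e (1 : K) := by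
    rw [C_mul_monomial, mul_one]
  rw [h1]
  exact Ideal.mul_mem_left _ _ (h e he)

variable {κ : Type u} [Field κ] [CharZero κ] {N : ℕ} (S : PDat κ N) {Mo : Type u}
  [AddCommGroup Mo] [Module (RatFunc κ) Mo] [Module (Polynomial κ) Mo]
  [IsScalarTower (Polynomial κ) (RatFunc κ) Mo] {nab : Mo →+ Mo}
  {br : MvPolynomial (Fin N) (RatFunc κ) →ₗ[RatFunc κ] Mo}
  {B : Mo →ₗ[RatFunc κ] Mo →ₗ[RatFunc κ] RatFunc κ}
  {rho : MvPolynomial (Fin N) (RatFunc κ) →ₗ[RatFunc κ] RatFunc κ}

theorem br_red (hS : S.Ok) (hG : IsHG S nab br) {m : ℕ}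
    {P : MvPolynomial (Fin N) (RatFunc κ)} (hPm : Hm m P) (hJ : P ∈ Jac S.FK) :
    ∃ P' : MvPolynomial (Fin N) (RatFunc κ), br P = br P' ∧ ∀ e ∈ P'.support, dg e + S.d = m := by
  classical
  have hd : 1 ≤ S.d := le_trans (by norm_num) hS.hd
  obtain ⟨Q, hQ, hQd⟩ := jac_comp hd (fk_hom S hS) hPm hJ
  refine ⟨-∑ i, pderiv i (Q i), ?_, ?_⟩
  · rw [hQ, map_sum, map_neg, map_sum, ← Finset.sum_neg_distrib]
    refine Finset.sum_congr rfl fun i _ => ?_
    have h1 := hG.rel i (Q i)
    unfold dl at h1
    rw [map_add] at h1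
    exact eq_neg_of_add_eq_zero_right h1
  · intro e he
    rw [mem_support_iff, coeff_neg, coeff_sum, neg_ne_zero] at he
    obtain ⟨i, -, hi⟩ := Finset.exists_ne_zero_of_sum_ne_zero he
    rw [coeff_pderiv] at hi
    have h1 : e + Finsupp.single i 1 ∈ (Q i).support :=
      mem_support_iff.2 fun h => hi (by rw [h, zero_mul])
    have h2 := hQd i _ h1
    rw [dg_add, nda_single] at h2
    omega

theorem mo_span (hS : S.Ok) (hG : IsHG S nab br) (hP : IsPP S nab br B rho) :
    Submodule.span (RatFunc κ) {x | ∃ e : Fin N →₀ ℕ, S.d ∣ dg e + N ∧ dg e ≤ N * (S.d - 2) ∧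
      x = br (monomial e 1)} = ⊤ := by
  classical
  obtain ⟨T, hT⟩ : ∃ T, T = Submodule.span (RatFunc κ) {x | ∃ e : Fin N →₀ ℕ, S.d ∣ dg e + N ∧
      dg e ≤ N * (S.d - 2) ∧ x = br (monomial e 1)} := ⟨_, rfl⟩
  rw [← hT]
  have hd := hS.hd
  have hsum : ∀ P : MvPolynomial (Fin N) (RatFunc κ), (∀ e ∈ P.support, br (monomial e 1) ∈ T) →
      br P ∈ T := by
    intro P hPe
    have h1 : P = ∑ e ∈ P.support, coeff e P • (monomial e (1 : RatFunc κ)) := by
      conv_lhs => rw [as_sum P]
      refine Finset.sum_congr rfl fun e _ => ?_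
      rw [smul_monomial, smul_eq_mul, mul_one]
    rw [h1, map_sum]
    refine Submodule.sum_mem _ fun e he => ?_
    rw [map_smul]
    exact Submodule.smul_mem _ _ (hPe e he)
  have key : ∀ n : ℕ, ∀ e : Fin N →₀ ℕ, dg e = n → S.d ∣ dg e + N → br (monomial e 1) ∈ T := by
    intro n
    induction n using Nat.strong_induction_on with
    | _ n ih =>
      intro e hen hed
      by_cases hle : dg e ≤ N * (S.d - 2)
      · rw [hT]
        exact Submodule.subset_span ⟨e, hed, hle, rfl⟩
      · have hHm : Hm (dg e) (monomial e (1 : RatFunc κ)) := by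
          intro e' he'
          have h1 := support_monomial_subset he'
          rw [Finset.mem_singleton] at h1
          rw [h1]
        obtain ⟨P', hP1, hP2⟩ := br_red S hS hG hHm (hP.top e (not_le.1 hle))
        rw [hP1]
        refine hsum P' fun e' he' => ?_
        have h2 := hP2 e' he'
        refine ih (dg e') (by omega) e' rfl ?_
        have h3 : dg e + N = dg e' + N + S.d := by omega
        rw [h3] at hed
        exact (Nat.dvd_add_left (dvd_refl _)).1 hed
  rw [eq_top_iff]
  intro x _
  obtain ⟨P, rfl⟩ := hG.surj x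
  refine hsum P fun e _ => ?_
  by_cases h1 : S.d ∣ dg e + N
  · exact key (dg e) e rfl h1
  · rw [hG.out e h1]
    exact Submodule.zero_mem _

theorem mo_fin (hS : S.Ok) (hG : IsHG S nab br) (hP : IsPP S nab br B rho) :
    Module.Finite (RatFunc κ) Mo := by
  classical
  rw [Module.finite_def, Submodule.fg_def]
  refine ⟨_, ?_, mo_span S hS hG hP⟩
  have h1 : (Set.Iic (Finsupp.equivFunOnFinite.symm (fun _ : Fin N => N * (S.d - 2)))).Finite :=
    Set.finite_Iic _
  refine (h1.image fun e : Fin N →₀ ℕ => br (monomial e 1)).subset ?_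
  rintro x ⟨e, -, h2, rfl⟩
  refine ⟨e, ?_, rfl⟩
  rw [Set.mem_Iic]
  intro i
  have h3 : e i ≤ dg e := Finset.single_le_sum (f := fun j => e j) (fun j _ => Nat.zero_le _)
    (Finset.mem_univ i)
  exact h3.trans h2

private theorem ndb_core (hS : S.Ok) (hG : IsHG S nab br) (hP : IsPP S nab br B rho)
    (L : Mo →ₗ[RatFunc κ] Mo →ₗ[RatFunc κ] RatFunc κ) (sg : ℕ → RatFunc κ)
    (hsg : ∀ m, sg m ≠ 0)
    (low : ∀ u v : Fin N →₀ ℕ, dg u + dg v < N * (S.d - 2) →
      L (br (monomial u 1)) (br (monomial v 1)) = 0)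
    (mid : ∀ u v : Fin N →₀ ℕ, S.d ∣ dg u + N → dg u + dg v = N * (S.d - 2) →
      L (br (monomial u 1)) (br (monomial v 1)) = sg (dg u) * rho (monomial (u + v) 1))
    (a : ℕ) : ∀ P : MvPolynomial (Fin N) (RatFunc κ),
      (∀ e ∈ P.support, S.d ∣ dg e + N ∧ dg e + N ≤ S.d * a) →
      (∀ y, L (br P) y = 0) → br P = 0 := by
  have hN := hS.hN
  have hd := hS.hd
  induction a with
  | zero =>
    intro P hs _
    have h0 : P = 0 := by
      rw [← support_eq_empty, Finset.eq_empty_iff_forall_notMem]
      intro e he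
      have := (hs e he).2
      rw [mul_zero] at this
      omega
    rw [h0, map_zero]
  | succ a ih =>
    intro P hs hz
    obtain ⟨P1, P0, hPP, h1, h0⟩ := ndb_split P (fun e => dg e + N = S.d * (a + 1))
    -- the part of lower level
    have hlow : ∀ e ∈ P0.support, S.d ∣ dg e + N ∧ dg e + N ≤ S.d * a := by
      intro e he
      obtain ⟨hne, he2⟩ := h0 e he
      obtain ⟨hdv, hle⟩ := hs e he2
      refine ⟨hdv, ?_⟩
      obtain ⟨c, hc⟩ := hdv
      rw [hc] at hne hle ⊢
      have hc1 : c ≤ a + 1 := Nat.le_of_mul_le_mul_left hle (by omega)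
      have hc2 : c ≠ a + 1 := fun h => hne (by rw [h])
      exact Nat.mul_le_mul_left _ (by omega)
    -- the top part is in the Jacobian ideal
    obtain ⟨m, hm⟩ : ∃ m, ∀ e ∈ P1.support, dg e = m := by
      refine ⟨S.d * (a + 1) - N, fun e he => ?_⟩
      have := (h1 e he).1
      omega
    have hred : ∃ P' : MvPolynomial (Fin N) (RatFunc κ), br P1 = br P' ∧
        ∀ e ∈ P'.support, S.d ∣ dg e + N ∧ dg e + N ≤ S.d * a := by
      by_cases hemp : P1 = 0
      · exact ⟨0, by rw [hemp], by simp⟩
      obtain ⟨e₀, he₀⟩ : ∃ e₀, e₀ ∈ P1.support := by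
        rw [← Finset.nonempty_iff_ne_empty.trans (not_congr support_eq_empty)] at hemp
        exact hemp
      have hmN : m + N = S.d * (a + 1) := by
        rw [← hm e₀ he₀]
        exact (h1 e₀ he₀).1
      have hJ : P1 ∈ Jac S.FK := by
        by_cases hms : N * (S.d - 2) < m
        · refine ndb_jac _ _ (fun e he => hP.top e ?_)
          rw [hm e he]
          exact hms
        · push Not at hms
          refine hP.rho_perf m hms P1 hm (fun v hv => ?_)
          have e1 : L (br P1) (br (monomial v 1)) = sg m * rho (P1 * monomial v 1) := by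
            have f1 := ndb_exp ((L.flip (br (monomial v 1))).comp br) P1
            have f2 := ndb_exp (rho.comp (LinearMap.mulRight (RatFunc κ)
              (monomial v (1 : RatFunc κ)))) P1
            simp only [LinearMap.comp_apply, LinearMap.flip_apply,
              LinearMap.mulRight_apply] at f1 f2
            rw [f1, f2, Finset.mul_sum]
            refine Finset.sum_congr rfl (fun e he => ?_)
            have g1 := mid e v (by rw [hm e he, hmN]; exact dvd_mul_right _ _)
              (by rw [hm e he]; omega)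
            rw [g1, hm e he, monomial_mul, one_mul, smul_eq_mul, smul_eq_mul]
            ring
          have e0 : L (br P0) (br (monomial v 1)) = 0 := by
            have f1 := ndb_exp ((L.flip (br (monomial v 1))).comp br) P0
            simp only [LinearMap.comp_apply, LinearMap.flip_apply] at f1
            rw [f1]
            refine Finset.sum_eq_zero (fun e he => ?_)
            have g := (hlow e he).2
            have g2 : S.d * (a + 1) = S.d * a + S.d := by ring
            rw [low e v (by omega), smul_zero]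
          have e2 := hz (br (monomial v 1))
          rw [hPP, map_add, map_add, LinearMap.add_apply, e1, e0, add_zero] at e2
          exact (mul_eq_zero.1 e2).resolve_left (hsg m)
      obtain ⟨P', hP', hP'2⟩ := br_red S hS hG hm hJ
      refine ⟨P', hP', fun e he => ?_⟩
      have g := hP'2 e he
      have g2 : S.d * (a + 1) = S.d * a + S.d := by ring
      have g3 : dg e + N = S.d * a := by omega
      rw [g3]
      exact ⟨dvd_mul_right _ _, le_refl _⟩
    obtain ⟨P', hP', hP'2⟩ := hred
    have hbr : br P = br (P0 + P') := by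
      rw [hPP, map_add, map_add, hP', add_comm]
    rw [hbr]
    refine ih (P0 + P') ?_ ?_
    · classical
      intro e he
      have := support_add he
      rw [Finset.mem_union] at this
      rcases this with h | h
      · exact hlow e h
      · exact hP'2 e h
    · intro y
      rw [← hbr]
      exact hz y

private theorem ndb_rep (hS : S.Ok) (hG : IsHG S nab br) (x : Mo) :
    ∃ (a : ℕ) (P : MvPolynomial (Fin N) (RatFunc κ)), x = br P ∧
      ∀ e ∈ P.support, S.d ∣ dg e + N ∧ dg e + N ≤ S.d * a := by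
  have hd := hS.hd
  obtain ⟨P, hx⟩ := hG.surj x
  obtain ⟨P1, P0, hPP, h1, h0⟩ := ndb_split P (fun e => S.d ∣ dg e + N)
  have h2 : br P0 = 0 := by
    rw [ndb_exp br P0]
    refine Finset.sum_eq_zero (fun e he => ?_)
    rw [hG.out e (h0 e he).1, smul_zero]
  refine ⟨P1.support.sup dg + N, P1, ?_, ?_⟩
  · rw [← hx, hPP, map_add, h2, add_zero]
  · intro e he
    refine ⟨(h1 e he).1, ?_⟩
    have g : dg e ≤ P1.support.sup dg := Finset.le_sup (f := dg) he
    have g2 : 1 * (P1.support.sup dg + N) ≤ S.d * (P1.support.sup dg + N) :=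
      Nat.mul_le_mul_right _ (by omega)
    omega

theorem nd_left (hS : S.Ok) (hG : IsHG S nab br) (hP : IsPP S nab br B rho) (x : Mo)
    (h : ∀ y, B x y = 0) : x = 0 := by
  obtain ⟨a, P, hx, hs⟩ := ndb_rep S hS hG x
  rw [hx]
  refine ndb_core S hS hG hP B (fun m => (-1) ^ ((m + N) / S.d + 1))
    (fun m => pow_ne_zero _ (neg_ne_zero.2 one_ne_zero)) hP.low hP.mid a P hs ?_
  rw [← hx]
  exact h

theorem nd_right (hS : S.Ok) (hG : IsHG S nab br) (hP : IsPP S nab br B rho) (y : Mo)
    (h : ∀ x, B x y = 0) : y = 0 := by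
  have hd := hS.hd
  obtain ⟨a, P, hx, hs⟩ := ndb_rep S hS hG y
  rw [hx]
  refine ndb_core S hS hG hP B.flip (fun m => (-1) ^ ((N * (S.d - 2) - m + N) / S.d + 1))
    (fun m => pow_ne_zero _ (neg_ne_zero.2 one_ne_zero)) ?_ ?_ a P hs ?_
  · intro u v huv
    rw [LinearMap.flip_apply]
    exact hP.low v u (by omega)
  · intro u v hu huv
    rw [LinearMap.flip_apply]
    have e1 : N * (S.d - 2) - dg u = dg v := by omega
    have e2 : N * (S.d - 2) + 2 * N = S.d * N := by
      obtain ⟨c, hc⟩ : ∃ c, S.d = c + 2 := ⟨S.d - 2, by omega⟩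
      rw [hc]
      have : c + 2 - 2 = c := by omega
      rw [this]
      ring
    have hv : S.d ∣ dg v + N := by
      have h1 : S.d ∣ (dg u + N) + (dg v + N) := by
        have : (dg u + N) + (dg v + N) = S.d * N := by omega
        rw [this]
        exact dvd_mul_right _ _
      exact (Nat.dvd_add_right hu).1 h1
    rw [hP.mid v u hv (by omega), e1, add_comm v u]
  · intro x
    rw [LinearMap.flip_apply, ← hx]
    exact h x

theorem low_ne (hS : S.Ok) (hP : IsPP S nab br B rho) (m₀ : ℕ) (hm : m₀ < S.d) :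
    ∃ u v : Fin N →₀ ℕ, dg u = m₀ ∧ dg v + m₀ = N * (S.d - 2) ∧ rho (monomial (u + v) 1) ≠ 0 := by
  classical
  have hN := hS.hN
  have hd := hS.hd
  obtain ⟨w, hw, hr⟩ : ∃ w : Fin N →₀ ℕ, dg w = N * (S.d - 2) ∧ rho (monomial w 1) ≠ 0 := by
    by_contra hcon
    push Not at hcon
    have h1 : (1 : MvPolynomial (Fin N) (RatFunc κ)) ∈ Jac S.FK := by
      refine hP.rho_perf 0 (Nat.zero_le _) 1 ?_ ?_
      · intro e he
        rw [mem_support_iff, coeff_one] at he
        have h0 : e = 0 := by
          by_contra hne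
          exact he (if_neg (fun h => hne h.symm))
        rw [h0]
        simp [dg]
      · intro v hv
        rw [one_mul]
        exact hcon v (by omega)
    have hF := fk_hom S hS
    have hle : Jac S.FK ≤ RingHom.ker (constantCoeff (σ := Fin N) (R := RatFunc κ)) := by
      rw [Jac, Ideal.span_le]
      rintro _ ⟨i, rfl⟩
      rw [SetLike.mem_coe, RingHom.mem_ker, constantCoeff_eq, coeff_pderiv]
      have h2 : coeff (0 + Finsupp.single i 1) S.FK = 0 := by
        by_contra hne
        have h3 := hF _ (mem_support_iff.2 hne)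
        have h4 : dg (0 + Finsupp.single i 1 : Fin N →₀ ℕ) = 1 := by
          rw [zero_add, dg, Finset.sum_eq_single i]
          · simp
          · intro j _ hj
            exact Finsupp.single_eq_of_ne hj
          · intro h
            exact absurd (Finset.mem_univ i) h
        omega
      rw [h2, zero_mul]
    have h5 := hle h1
    rw [RingHom.mem_ker, map_one] at h5
    exact one_ne_zero h5
  have hle : m₀ ≤ dg w := by
    rw [hw]
    obtain ⟨c, hc⟩ : ∃ c, S.d = c + 3 := ⟨S.d - 3, by omega⟩
    have h1 : S.d - 2 = c + 1 := by omega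
    rw [h1]
    have h2 : 3 * (c + 1) ≤ N * (c + 1) := Nat.mul_le_mul_right _ hN
    omega
  obtain ⟨u, v, huv, hu⟩ := exists_le_dg w m₀ hle
  refine ⟨u, v, hu, ?_, ?_⟩
  · have := dg_add u v
    rw [huv, hw] at this
    omega
  · rw [huv]
    exact hr

end MPadcLZ
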