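import Pool.Agent.Lib.MP_adc574_ag_LZ.LatB

/-!
# Part VI, file C: derivations of finite extensions, denominators

* `exists_der_fin`: `L = IntermediateField.adjoin K (Set.range x)` is finite dimensional over `K` (`IntermediateField.finiteDimensional_adjoin`, all elements are integral; `Set.finite_range`); Mathlib `FieldTheory/Differential/Basic.lean`: make `K` a differential field by `letI : Differential K := ⟨D⟩`; `differentialFiniteDimensional K L` and
  `differentialAlgebraFiniteDimensional` (characteristic 0) give a derivation of `L` compatible with `D`.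
* `der_aeval`: induction on `P` (both sides are derivation like): `D' (P(y)) = (D P)(y) + ∑ P_k(y) D' y_k`. For `P = C c`: `cder D (C c) = C (D c)`. Additivity of `cder`: `MPadcHM` has lemmas on `cder` (HM/..., grep `cder_add`, `cder_mul`, `cder_C`, `cder_X`), or use `coeff e (cder D P) = D (coeff e P)`.
* `clear_den`: `P.map φ ∈ span (range (g i).map φ)` with `φ = algebraMap κ[t] κ(t)`: `P.map φ = ∑ a_i (g i).map φ`; a common denominator `Δ ≠ 0` of all coefficients of all `a_i`: `C (φ Δ) a_i = b_i.map φ`; `(C Δ P).map φ = (∑ b_i g_i).map φ`, and `map φ` is injective. (Model: `MPadcHM` / HM has a lemma of this kind, grep `clear` / `denom`; or `IsLocalization.exist_integer_multiples`.)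
-/

set_option autoImplicit false

namespace MPadcLZ

open MvPolynomial MPadcHM

universe u

theorem exists_der_fin {K : Type u} [Field K] [CharZero K] {N : ℕ} (D : Derivation ℤ K K)
    (x : Fin N → AlgebraicClosure K) :
    ∃ (L : IntermediateField K (AlgebraicClosure K)) (D' : Derivation ℤ L L) (y : Fin N → L),
      (∀ i, (y i : AlgebraicClosure K) = x i) ∧
        ∀ c : K, D' (algebraMap K L c) = algebraMap K L (D c) := by
  have hfin : FiniteDimensional K (IntermediateField.adjoin K (Set.range x)) := by
    haveI : Finite (Set.range x) := (Set.finite_range x).to_subtype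
    refine IntermediateField.finiteDimensional_adjoin fun z _ => ?_
    exact (AlgebraicClosure.isAlgebraic K).isAlgebraic z |>.isIntegral
  letI dK : Differential K := ⟨D⟩
  let dL : Differential (IntermediateField.adjoin K (Set.range x)) :=
    Differential.differentialFiniteDimensional K (IntermediateField.adjoin K (Set.range x))
  have hL : @DifferentialAlgebra K (IntermediateField.adjoin K (Set.range x)) _ _ _ dK dL :=
    Differential.differentialAlgebraFiniteDimensional
  refine ⟨IntermediateField.adjoin K (Set.range x), dL.deriv,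
    fun i => ⟨x i, IntermediateField.subset_adjoin K _ (Set.mem_range_self i)⟩,
    fun i => rfl, fun c => ?_⟩
  exact @DifferentialAlgebra.deriv_algebraMap K (IntermediateField.adjoin K (Set.range x)) _ _ _
    dK dL hL c

private theorem geoca_coeff {R : Type*} [CommRing R] {N : ℕ} (D : Derivation ℤ R R)
    (P : MvPolynomial (Fin N) R) (e : Fin N →₀ ℕ) : coeff e (cder D P) = D (coeff e P) := by
  classical
  unfold cder
  rw [coeff_sum]
  simp only [coeff_monomial]
  rw [Finset.sum_ite_eq']
  split_ifs with h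
  · rfl
  · rw [notMem_support_iff.1 h, map_zero]

private theorem geoca_add {R : Type*} [CommRing R] {N : ℕ} (D : Derivation ℤ R R)
    (P Q : MvPolynomial (Fin N) R) : cder D (P + Q) = cder D P + cder D Q := by
  ext m
  rw [geoca_coeff, coeff_add, coeff_add, map_add, geoca_coeff, geoca_coeff]

private theorem geoca_mul {R : Type*} [CommRing R] {N : ℕ} (D : Derivation ℤ R R)
    (P Q : MvPolynomial (Fin N) R) : cder D (P * Q) = P * cder D Q + cder D P * Q := by
  classical
  ext m
  rw [geoca_coeff, coeff_add, coeff_mul, map_sum, coeff_mul, coeff_mul,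
    ← Finset.sum_add_distrib]
  refine Finset.sum_congr rfl fun x _ => ?_
  rw [Derivation.leibniz, geoca_coeff, geoca_coeff, smul_eq_mul, smul_eq_mul,
    mul_comm (coeff x.2 Q)]

private theorem geoca_C {R : Type*} [CommRing R] {N : ℕ} (D : Derivation ℤ R R) (a : R) :
    cder D (C a : MvPolynomial (Fin N) R) = C (D a) := by
  classical
  ext m
  rw [geoca_coeff, coeff_C, coeff_C]
  split_ifs with h
  · rfl
  · exact map_zero D

private theorem geoca_X {R : Type*} [CommRing R] {N : ℕ} (D : Derivation ℤ R R) (i : Fin N) :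
    cder D (X i : MvPolynomial (Fin N) R) = 0 := by
  classical
  ext m
  rw [geoca_coeff, coeff_X, coeff_zero]
  split_ifs with h
  · exact Derivation.map_one_eq_zero D
  · exact map_zero D

theorem der_aeval {K : Type*} [Field K] {L : Type*} [Field L] [Algebra K L] {N : ℕ}
    (D : Derivation ℤ K K) (D' : Derivation ℤ L L)
    (hD : ∀ c : K, D' (algebraMap K L c) = algebraMap K L (D c)) (y : Fin N → L)
    (P : MvPolynomial (Fin N) K) :
    D' (aeval y P) = aeval y (cder D P) + ∑ k, aeval y (pderiv k P) * D' (y k) := by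
  classical
  induction P using MvPolynomial.induction_on with
  | C a =>
    rw [geoca_C, aeval_C, aeval_C, hD]
    simp only [pderiv_C, map_zero, zero_mul, Finset.sum_const_zero, add_zero]
  | add p q hp hq =>
    rw [map_add, map_add, hp, hq, geoca_add, map_add]
    simp only [map_add, add_mul, Finset.sum_add_distrib]
    ring
  | mul_X p i hp =>
    rw [map_mul, aeval_X, Derivation.leibniz, hp, geoca_mul, geoca_X, mul_zero, zero_add, map_mul,
      aeval_X, smul_eq_mul, smul_eq_mul]
    have h1 : ∀ k, aeval y (pderiv k (p * X i)) * D' (y k) =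
        y i * (aeval y (pderiv k p) * D' (y k)) + (if k = i then aeval y p * D' (y k) else 0) := by
      intro k
      rw [pderiv_mul, pderiv_X, map_add, map_mul, map_mul, aeval_X, Pi.single_apply]
      by_cases h : i = k
      · subst h
        rw [if_pos rfl, if_pos rfl, map_one]
        ring
      · rw [if_neg h, if_neg (fun h' => h h'.symm), map_zero]
        ring
    rw [Finset.sum_congr rfl fun k _ => h1 k, Finset.sum_add_distrib, ← Finset.mul_sum,
      Finset.sum_ite_eq' Finset.univ i, if_pos (Finset.mem_univ i)]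
    ring

/-- a common denominator of the coefficients of a polynomial -/
private theorem geoCb_clear {R K : Type*} [CommRing R] [IsDomain R] [Field K] [Algebra R K]
    [IsFractionRing R K] {σ : Type*} (a : MvPolynomial σ K) :
    ∃ Δ : R, Δ ≠ 0 ∧ ∃ b : MvPolynomial σ R,
      b.map (algebraMap R K) = C (algebraMap R K Δ) * a := by
  induction a using MvPolynomial.induction_on with
  | C c =>
    obtain ⟨n, d, hd, rfl⟩ := IsFractionRing.div_surjective (A := R) c
    have hd0 : d ≠ 0 := nonZeroDivisors.ne_zero hd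
    have hd1 : algebraMap R K d ≠ 0 := fun h =>
      hd0 ((IsFractionRing.injective R K) (h.trans (map_zero _).symm))
    refine ⟨d, hd0, C n, ?_⟩
    rw [map_C, ← C_mul, mul_div_cancel₀ _ hd1]
  | add p q hp hq =>
    obtain ⟨d1, h1, b1, e1⟩ := hp
    obtain ⟨d2, h2, b2, e2⟩ := hq
    refine ⟨d1 * d2, mul_ne_zero h1 h2, C d2 * b1 + C d1 * b2, ?_⟩
    rw [map_add, map_mul, map_mul, map_C, map_C, e1, e2, map_mul, C_mul]
    ring
  | mul_X p i hp =>
    obtain ⟨d, h1, b, e⟩ := hp
    refine ⟨d, h1, b * X i, ?_⟩
    rw [map_mul, map_X, e, mul_assoc]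

theorem clear_den {κ : Type u} [Field κ] {N m : ℕ}
    (g : Fin m → MvPolynomial (Fin N) (Polynomial κ)) (P : MvPolynomial (Fin N) (Polynomial κ))
    (h : P.map (algebraMap (Polynomial κ) (RatFunc κ)) ∈
      Ideal.span (Set.range fun i => (g i).map (algebraMap (Polynomial κ) (RatFunc κ)))) :
    ∃ Δ : Polynomial κ, Δ ≠ 0 ∧ C Δ * P ∈ Ideal.span (Set.range g) := by
  set φ := algebraMap (Polynomial κ) (RatFunc κ) with hφ
  have key : ∀ Q : MvPolynomial (Fin N) (RatFunc κ),
      Q ∈ Ideal.span (Set.range fun i => (g i).map φ) →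
      ∃ Δ : Polynomial κ, Δ ≠ 0 ∧ ∃ S ∈ Ideal.span (Set.range g), S.map φ = C (φ Δ) * Q := by
    intro Q hQ
    refine Submodule.span_induction (p := fun Q _ => ∃ Δ : Polynomial κ, Δ ≠ 0 ∧
      ∃ S ∈ Ideal.span (Set.range g), S.map φ = C (φ Δ) * Q) ?_ ?_ ?_ ?_ hQ
    · rintro _ ⟨i, rfl⟩
      refine ⟨1, one_ne_zero, g i, Ideal.subset_span ⟨i, rfl⟩, ?_⟩
      rw [map_one, C_1, one_mul]
    · refine ⟨1, one_ne_zero, 0, Ideal.zero_mem _, ?_⟩
      rw [map_zero, mul_zero]
    · rintro Q1 Q2 _ _ ⟨d1, h1, S1, m1, e1⟩ ⟨d2, h2, S2, m2, e2⟩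
      refine ⟨d1 * d2, mul_ne_zero h1 h2, C d2 * S1 + C d1 * S2,
        Ideal.add_mem _ (Ideal.mul_mem_left _ _ m1) (Ideal.mul_mem_left _ _ m2), ?_⟩
      rw [map_add, map_mul, map_mul, map_C, map_C, e1, e2, map_mul, C_mul]
      ring
    · rintro a Q1 _ ⟨d1, h1, S1, m1, e1⟩
      obtain ⟨d2, h2, b, e2⟩ := geoCb_clear (R := Polynomial κ) a
      refine ⟨d1 * d2, mul_ne_zero h1 h2, b * S1, Ideal.mul_mem_left _ _ m1, ?_⟩
      rw [map_mul, e1, e2, map_mul, C_mul, smul_eq_mul]
      ring
  obtain ⟨Δ, hΔ, S, hS, hSe⟩ := key _ h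
  refine ⟨Δ, hΔ, ?_⟩
  have h2 : S = C Δ * P := by
    apply map_injective φ (IsFractionRing.injective (Polynomial κ) (RatFunc κ))
    rw [hSe, map_mul, map_C]
  rw [← h2]
  exact hS

end MPadcLZ
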