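import Pool.Agent.Lib.MP_adc574_ag_LZ.GeoA
import Pool.Agent.Lib.MP_adc574_ag_LZ.GeoC

/-!
# Part VI, file D: generic smoothness, finitely many critical values

* `pc_pd`, `pc_ev`: clear (`pderiv_map`-like lemmas: the derivative commutes with `map`; `eval_map`, `map_map`; `(Polynomial.evalRingHom τ).comp Polynomial.C = RingHom.id`).
* `euler_z`: Euler's formula for `P` with `Hm d P` (`Hm_iff`, Mathlib `MvPolynomial.IsHomogeneous.sum_X_mul_pderiv`: `∑ X i * pderiv i P = d • P`), evaluated at `y`: `d * P(y) = 0`, characteristic 0.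
* `gh_mem`: `null_t` for `I = Jac (pc G H) ⊔ span {H.map C}`: if all elements of `I` vanish at `(τ, x)` and `x ≠ 0` then `IsSing G H τ x` (`pc_pd`, `pc_ev`) and `eval x H = 0`, against `h.base`.
* `gen_smooth`: `null_K` over `K = κ(t)` for `I = Jac F`, `F = (pc G H).map φ`. Let `x : Fin N → K'` be a common zero of the `F_i`. `exists_der_fin` for `D = DZ κ` (from HM/DK.lean, the derivation d/dt of `RatFunc κ`) gives `L, D', y`. `F_i(y) = 0` (injectivity of `L → K'`), `F(y) = 0` (`euler_z`), so by `der_aeval` `0 = D'(F(y)) = (cder D F)(y)`,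
  and `cder (DZ κ) F = - H.map (algebraMap κ (RatFunc κ))` (`D t = 1`, `D = 0` on constants; see `fk_cder` or the like in HGd.lean / HM), so `H(y) = 0`. By `gh_mem` (mapped to `K`, then evaluated at `y`): `y_i ^ M = 0`, so `y = 0`, `x = 0`.
* `gen_den`: `clear_den` for each `i`, product of the denominators (a common `M`).
* `fin_crit`: evaluate `C Δ * X i ^ M ∈ Jac (pc G H)` at `(τ, x)`: all generators vanish, so `Δ(τ) x_i ^ M = 0`; some `x_i ≠ 0`.
* `exists_jac'`: `null_c` for `Jac H`, `mono_mem`; for `N = 0` take `M = 1` (`dg e = 0`).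
-/

set_option autoImplicit false

namespace MPadcLZ

open MvPolynomial MPadcHM

universe u

/-- `x ≠ 0` is a singular point of `G = τ H`. -/
def IsSing {κ : Type u} [Field κ] {N : ℕ} (G H : MvPolynomial (Fin N) κ) (τ : κ)
    (x : Fin N → κ) : Prop :=
  x ≠ 0 ∧ ∀ i, eval x (pderiv i G) = τ * eval x (pderiv i H)

/-- The members `G = τ H`, `τ ∈ κ`, have at most one singular point, an ordinary double point, not on the base locus. -/
structure IsLef {κ : Type u} [Field κ] {N : ℕ} (G H : MvPolynomial (Fin N) κ) : Prop where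
  base : ∀ τ x, IsSing G H τ x → eval x H ≠ 0
  node : ∀ τ x, IsSing G H τ x → ∀ v : Fin N → κ,
    (∀ a, ∑ b, eval x (pderiv a (pderiv b (G - C τ * H))) * v b = 0) → ∃ c : κ, v = c • x
  uniq : ∀ τ x y, IsSing G H τ x → IsSing G H τ y → ∃ c : κ, y = c • x

/-- The pencil `G - t H`. -/
noncomputable def pc {κ : Type u} [Field κ] {N : ℕ} (G H : MvPolynomial (Fin N) κ) :
    MvPolynomial (Fin N) (Polynomial κ) :=
  G.map Polynomial.C - C Polynomial.X * H.map Polynomial.C

variable {κ : Type u} [Field κ] {N d : ℕ} {G H : MvPolynomial (Fin N) κ}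

theorem pc_pd (G H : MvPolynomial (Fin N) κ) (i : Fin N) :
    pderiv i (pc G H) = pc (pderiv i G) (pderiv i H) := by
  unfold pc
  rw [map_sub, pderiv_map, Derivation.leibniz, pderiv_C, pderiv_map]
  simp

theorem pc_ev (G H : MvPolynomial (Fin N) κ) (τ : κ) (x : Fin N → κ) :
    eval x ((pc G H).map (Polynomial.evalRingHom τ)) = eval x G - τ * eval x H := by
  have hc : (Polynomial.evalRingHom τ).comp Polynomial.C = RingHom.id κ := by
    ext a
    simp
  unfold pc
  rw [map_sub, map_mul, MvPolynomial.map_map, MvPolynomial.map_map, hc, MvPolynomial.map_id,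
    MvPolynomial.map_id, map_C, map_sub, map_mul, eval_C]
  simp

/-- All elements of the Jacobian ideal vanish at a singular point. -/
theorem sing_van {τ : κ} {x : Fin N → κ} (hx : ∀ i, eval x (pderiv i G) = τ * eval x (pderiv i H))
    {P : MvPolynomial (Fin N) (Polynomial κ)} (hP : P ∈ Jac (pc G H)) :
    eval x (P.map (Polynomial.evalRingHom τ)) = 0 := by
  have hle : Jac (pc G H) ≤ RingHom.ker ((eval x).comp
      (MvPolynomial.map (σ := Fin N) (Polynomial.evalRingHom τ))) := by
    unfold Jac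
    rw [Ideal.span_le]
    rintro _ ⟨i, rfl⟩
    rw [SetLike.mem_coe, RingHom.mem_ker, RingHom.comp_apply]
    beta_reduce
    rw [pc_pd, pc_ev, sub_eq_zero]
    exact hx i
  have := hle hP
  rwa [RingHom.mem_ker, RingHom.comp_apply] at this

theorem euler_z {K L : Type*} [Field K] [Field L] [Algebra K L] [CharZero L] {N d : ℕ}
    (hd : 1 ≤ d) (P : MvPolynomial (Fin N) K) (hP : Hm d P) (y : Fin N → L)
    (h : ∀ i, aeval y (pderiv i P) = 0) : aeval y P = 0 := by
  have h1 := (Hm_iff.1 hP).sum_X_mul_pderiv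
  have h2 := congrArg (aeval y) h1
  rw [map_sum, map_nsmul] at h2
  have h3 : ∑ i, aeval y (X i * pderiv i P) = 0 := by
    refine Finset.sum_eq_zero fun i _ => ?_
    rw [map_mul, h i, mul_zero]
  rw [h3, nsmul_eq_mul] at h2
  have hd' : (d : L) ≠ 0 := by
    have : d ≠ 0 := by omega
    exact_mod_cast this
  exact (mul_eq_zero.1 h2.symm).resolve_left hd'

theorem gh_mem [IsAlgClosed κ] (h : IsLef G H) :
    ∃ M : ℕ, ∀ i, (X i : MvPolynomial (Fin N) (Polynomial κ)) ^ M ∈
      Jac (pc G H) ⊔ Ideal.span {H.map Polynomial.C} := by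
  refine null_t _ fun τ x hx => ?_
  by_contra hx0
  have hs : IsSing G H τ x := by
    refine ⟨hx0, fun i => ?_⟩
    have h1 := hx (pderiv i (pc G H))
      (Ideal.mem_sup_left (Ideal.subset_span (Set.mem_range_self i)))
    rw [pc_pd, pc_ev, sub_eq_zero] at h1
    exact h1
  refine h.base τ x hs ?_
  have h2 := hx (H.map Polynomial.C)
    (Ideal.mem_sup_right (Ideal.subset_span (Set.mem_singleton _)))
  have hc : (Polynomial.evalRingHom τ).comp Polynomial.C = RingHom.id κ := by
    ext a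
    simp
  rwa [MvPolynomial.map_map, hc, MvPolynomial.map_id] at h2

private theorem geodb_coeff {R : Type*} [CommRing R] (D : Derivation ℤ R R)
    (P : MvPolynomial (Fin N) R) (e : Fin N →₀ ℕ) : coeff e (cder D P) = D (coeff e P) := by
  classical
  unfold cder
  rw [coeff_sum]
  simp only [coeff_monomial]
  rw [Finset.sum_ite_eq']
  split_ifs with h
  · rfl
  · rw [notMem_support_iff.mp h, map_zero]

private theorem geodb_cder (G H : MvPolynomial (Fin N) κ) :
    cder (DZ κ) ((pc G H).map (algebraMap (Polynomial κ) (RatFunc κ))) =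
      - (H.map Polynomial.C).map (algebraMap (Polynomial κ) (RatFunc κ)) := by
  refine MvPolynomial.ext _ _ fun e => ?_
  have h1 : coeff e (pc G H) = Polynomial.C (coeff e G) - Polynomial.X * Polynomial.C (coeff e H) := by
    rw [pc, coeff_sub, coeff_C_mul, coeff_map, coeff_map]
  rw [geodb_coeff, coeff_map, DZ_apply, DK_poly, h1, coeff_neg, coeff_map, coeff_map, ← map_neg]
  congr 1
  rw [Polynomial.derivative_sub, Polynomial.derivative_C, Polynomial.derivative_mul,
    Polynomial.derivative_X, Polynomial.derivative_C, mul_zero, one_mul, add_zero, zero_sub]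

private theorem geodb_jac (G H : MvPolynomial (Fin N) κ) {L : Type*} [Field L]
    [Algebra (RatFunc κ) L] (y : Fin N → L)
    (hy : ∀ P ∈ Jac ((pc G H).map (algebraMap (Polynomial κ) (RatFunc κ))), aeval y P = 0) :
    Jac (pc G H) ≤ RingHom.ker ((aeval y : MvPolynomial (Fin N) (RatFunc κ) →ₐ[RatFunc κ] L).toRingHom.comp
      (map (algebraMap (Polynomial κ) (RatFunc κ)))) := by
  unfold Jac
  rw [Ideal.span_le]
  rintro _ ⟨j, rfl⟩
  change aeval y ((pderiv j (pc G H)).map (algebraMap (Polynomial κ) (RatFunc κ))) = 0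
  rw [← pderiv_map]
  exact hy _ (Ideal.subset_span ⟨j, rfl⟩)

theorem gen_smooth [IsAlgClosed κ] [CharZero κ] (hd : 1 ≤ d) (hG : Hm d G) (hH : Hm d H)
    (h : IsLef G H) :
    ∃ M : ℕ, ∀ i, (X i : MvPolynomial (Fin N) (RatFunc κ)) ^ M ∈
      Jac ((pc G H).map (algebraMap (Polynomial κ) (RatFunc κ))) := by
  have hcz : CharZero (RatFunc κ) :=
    charZero_of_injective_algebraMap (algebraMap κ (RatFunc κ)).injective
  apply null_K
  intro x hx
  obtain ⟨L, D', y, hy, hD'⟩ := exists_der_fin (DZ κ) x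
  have hev : ∀ P : MvPolynomial (Fin N) (RatFunc κ), ((aeval y P : L) :
      AlgebraicClosure (RatFunc κ)) = aeval x P := by
    intro P
    have h1 := comp_aeval_apply (f := y) L.val P
    have h2 : (fun i => L.val (y i)) = x := funext hy
    rw [h2] at h1
    exact h1.symm ▸ rfl
  have hJ : ∀ P ∈ Jac ((pc G H).map (algebraMap (Polynomial κ) (RatFunc κ))),
      aeval y P = 0 := by
    intro P hP
    apply Subtype.ext
    rw [hev, hx P hP]
    rfl
  have hczL : CharZero L := charZero_of_injective_algebraMap (algebraMap (RatFunc κ) L).injective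
  have hhom : Hm d ((pc G H).map (algebraMap (Polynomial κ) (RatFunc κ))) :=
    Hm_map _ (Hm_sub (Hm_map _ hG) (Hm_C_mul (Hm_map _ hH) _))
  have hF : aeval y ((pc G H).map (algebraMap (Polynomial κ) (RatFunc κ))) = 0 :=
    euler_z hd _ hhom y fun i => hJ _ (Ideal.subset_span ⟨i, rfl⟩)
  have hder := der_aeval (DZ κ) D' hD' y ((pc G H).map (algebraMap (Polynomial κ) (RatFunc κ)))
  rw [hF, map_zero, Finset.sum_eq_zero (fun k _ => by
    rw [hJ _ (Ideal.subset_span ⟨k, rfl⟩), zero_mul]), add_zero, geodb_cder, map_neg,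
    eq_comm, neg_eq_zero] at hder
  obtain ⟨M, hM⟩ := gh_mem h
  have hker : Jac (pc G H) ⊔ Ideal.span {H.map Polynomial.C} ≤
      RingHom.ker ((aeval y : MvPolynomial (Fin N) (RatFunc κ) →ₐ[RatFunc κ] L).toRingHom.comp
        (map (algebraMap (Polynomial κ) (RatFunc κ)))) := by
    refine sup_le (geodb_jac G H y hJ) ?_
    rw [Ideal.span_le]
    rintro _ rfl
    exact hder
  funext i
  have h1 := hker (hM i)
  have h2 : y i ^ M = 0 := by
    have h3 : aeval y (((X i : MvPolynomial (Fin N) (Polynomial κ)) ^ M).map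
      (algebraMap (Polynomial κ) (RatFunc κ))) = 0 := h1
    rwa [map_pow, map_X, map_pow, aeval_X] at h3
  have h3 : y i = 0 := eq_zero_of_pow_eq_zero h2
  rw [← hy i, h3]
  rfl

theorem gen_den [IsAlgClosed κ] [CharZero κ] (hd : 1 ≤ d) (hG : Hm d G) (hH : Hm d H)
    (h : IsLef G H) :
    ∃ (Δ : Polynomial κ) (M : ℕ), Δ ≠ 0 ∧ ∀ i,
      C Δ * (X i : MvPolynomial (Fin N) (Polynomial κ)) ^ M ∈ Jac (pc G H) := by
  obtain ⟨M, hM⟩ := gen_smooth hd hG hH h
  have h1 : ∀ i, ∃ Δ : Polynomial κ, Δ ≠ 0 ∧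
      C Δ * (X i : MvPolynomial (Fin N) (Polynomial κ)) ^ M ∈ Jac (pc G H) := by
    intro i
    apply clear_den (fun j => pderiv j (pc G H))
    have h2 := hM i
    unfold Jac at h2
    have h3 : (fun j => pderiv j ((pc G H).map (algebraMap (Polynomial κ) (RatFunc κ)))) =
        fun j => (pderiv j (pc G H)).map (algebraMap (Polynomial κ) (RatFunc κ)) :=
      funext fun j => pderiv_map
    rw [h3] at h2
    rw [map_pow, map_X]
    exact h2
  choose Δ hΔ hmem using h1
  refine ⟨∏ i, Δ i, M, Finset.prod_ne_zero_iff.2 fun i _ => hΔ i, fun i => ?_⟩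
  rw [← Finset.prod_erase_mul Finset.univ Δ (Finset.mem_univ i), map_mul, mul_assoc]
  exact Ideal.mul_mem_left _ _ (hmem i)

theorem fin_crit [IsAlgClosed κ] [CharZero κ] (hd : 1 ≤ d) (hG : Hm d G) (hH : Hm d H)
    (h : IsLef G H) :
    ∃ Δ : Polynomial κ, Δ ≠ 0 ∧ ∀ τ x, IsSing G H τ x → Δ.eval τ = 0 := by
  obtain ⟨Δ, M, hΔ, hM⟩ := gen_den hd hG hH h
  refine ⟨Δ, hΔ, fun τ x hx => ?_⟩
  obtain ⟨i, hi⟩ : ∃ i, x i ≠ 0 := by
    by_contra hcon
    push Not at hcon
    exact hx.1 (funext hcon)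
  have h1 := sing_van hx.2 (hM i)
  rw [map_mul, map_C, map_pow, map_X, map_mul, eval_C, map_pow, eval_X] at h1
  exact (mul_eq_zero.1 h1).resolve_right (pow_ne_zero _ hi)

theorem exists_jac' [IsAlgClosed κ] (H : MvPolynomial (Fin N) κ)
    (hs : ∀ x, (∀ i, eval x (pderiv i H) = 0) → x = 0) :
    ∃ M : ℕ, ∀ e : Fin N →₀ ℕ, M ≤ dg e → monomial e (1 : κ) ∈ Jac H := by
  obtain ⟨M, hM⟩ := null_c (Jac H) (fun x hx => hs x fun i =>
    hx _ (Ideal.subset_span (Set.mem_range_self i)))
  rcases Nat.eq_zero_or_pos N with h0 | h0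
  · subst h0
    refine ⟨1, fun e he => ?_⟩
    unfold dg at he
    simp at he
  · exact ⟨N * M, fun e he => mono_mem h0 (Jac H) M hM e he⟩

end MPadcLZ
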