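import Pool.Agent.Lib.MP_adc574_ag_LZ.GeoB
import Pool.Agent.Lib.MP_adc574_ag_LZ.GeoD

/-!
# Part VI, file F: the nodes

* `exists_ell`: for finitely many vectors `v_j ≠ 0` (`κ` infinite) there is a linear form `l` with `l(v_j) ≠ 0`: `l = ∑ C (c ^ i) X_i`, `l(v_j) = p_j(c)`, `p_j = ∑ C (v_j i) X ^ i ≠ 0` in `κ[X]`; choose `c` not a root of `∏ p_j` (`Polynomial.exists_eval_ne_zero_of_natDegree_lt_card` or: the root set is finite, `Infinite κ`).
* `exists_nodes`: `T = {τ ∈ Δ.roots.toFinset | ∃ x, IsSing G H τ x}` (`Δ` from `fin_crit`; classical decidability), `J = T.card`, `tau j = (T.equivFin.symm j).1`, `x_j` a singular point, `l = exists_ell`, `sig j = (l(x_j))⁻¹ • x_j`. The partial derivatives of `G, H` are homogeneous of degree `d - 1`, so `sig j` is again a singular point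
  (`eval (c • x) P = c ^ m * eval x P` for `Hm m P`: `aeval_hom` with `A = R = κ`, or directly); `l(sig j) = 1` (`l` linear).
-/

set_option autoImplicit false

namespace MPadcLZ

open MvPolynomial MPadcHM

universe u

variable {κ : Type u} [Field κ] {N d : ℕ} {G H : MvPolynomial (Fin N) κ}

theorem exists_ell [CharZero κ] {J : ℕ} (v : Fin J → Fin N → κ) (hv : ∀ j, v j ≠ 0) :
    ∃ l : MvPolynomial (Fin N) κ, Hm 1 l ∧ ∀ j, eval (v j) l ≠ 0 := by
  classical
  have : Infinite κ := Infinite.of_injective (fun n : ℕ => (n : κ)) Nat.cast_injective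
  let p : Fin J → Polynomial κ := fun j => ∑ i : Fin N, Polynomial.C (v j i) * Polynomial.X ^ (i : ℕ)
  have hp : ∀ j, p j ≠ 0 := by
    intro j h0
    apply hv j
    funext i
    have h1 : (p j).coeff (i : ℕ) = 0 := by
      rw [h0, Polynomial.coeff_zero]
    have h2 : (p j).coeff (i : ℕ) = v j i := by
      show (∑ k : Fin N, Polynomial.C (v j k) * Polynomial.X ^ (k : ℕ)).coeff (i : ℕ) = v j i
      rw [Polynomial.finsetSum_coeff, Finset.sum_eq_single i]
      · rw [Polynomial.coeff_C_mul_X_pow, if_pos rfl]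
      · intro k _ hk
        rw [Polynomial.coeff_C_mul_X_pow, if_neg]
        exact fun h => hk (Fin.ext h.symm)
      · intro h
        exact absurd (Finset.mem_univ i) h
    rw [← h2, h1]
    rfl
  have hprod : (∏ j, p j) ≠ 0 := Finset.prod_ne_zero_iff.2 fun j _ => hp j
  obtain ⟨c, hc⟩ : ∃ c : κ, (∏ j, p j).eval c ≠ 0 := by
    by_contra hcon
    push Not at hcon
    exact hprod (Polynomial.funext fun c => by rw [hcon c, Polynomial.eval_zero])
  refine ⟨∑ i : Fin N, C (c ^ (i : ℕ)) * X i, ?_, ?_⟩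
  · refine Hm_sum _ fun i _ => Hm_C_mul ?_ _
    exact Hm_iff.2 (isHomogeneous_X κ i)
  · intro j h0
    apply hc
    rw [Polynomial.eval_prod]
    refine Finset.prod_eq_zero (Finset.mem_univ j) ?_
    rw [← h0]
    show (∑ k : Fin N, Polynomial.C (v j k) * Polynomial.X ^ (k : ℕ)).eval c = _
    rw [Polynomial.eval_finsetSum, map_sum]
    refine Finset.sum_congr rfl fun k _ => ?_
    rw [map_mul, eval_C, eval_X, Polynomial.eval_mul, Polynomial.eval_C, Polynomial.eval_pow,
      Polynomial.eval_X, mul_comm]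

private theorem geof_eval_smul {m : ℕ} {P : MvPolynomial (Fin N) κ} (hP : Hm m P) (c : κ)
    (x : Fin N → κ) : eval (c • x) P = c ^ m * eval x P := by
  have h := aeval_hom (A := κ) c x P hP
  have h1 : (fun k => c * algebraMap κ κ (x k)) = c • x := by
    funext k
    simp
  rw [h1, Algebra.algebraMap_self, RingHom.id_apply] at h
  rw [← h, MvPolynomial.aeval_eq_eval]

theorem sing_smul (hG : Hm d G) (hH : Hm d H) {τ : κ} {x : Fin N → κ} (hx : IsSing G H τ x)
    {c : κ} (hc : c ≠ 0) : IsSing G H τ (c • x) := by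
  refine ⟨?_, fun i => ?_⟩
  · exact smul_ne_zero hc hx.1
  · rw [geof_eval_smul (Hm_pderiv hG i), geof_eval_smul (Hm_pderiv hH i), hx.2 i]
    ring

theorem exists_nodes [IsAlgClosed κ] [CharZero κ] (hd : 1 ≤ d) (hG : Hm d G) (hH : Hm d H)
    (h : IsLef G H) :
    ∃ (J : ℕ) (l : MvPolynomial (Fin N) κ) (tau : Fin J → κ) (sig : Fin J → Fin N → κ),
      Hm 1 l ∧ Function.Injective tau ∧ (∀ j, IsSing G H (tau j) (sig j)) ∧
        (∀ j, eval (sig j) l = 1) ∧ ∀ τ x, IsSing G H τ x → ∃ j, τ = tau j := by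
  classical
  obtain ⟨Δ, hΔ, hcrit⟩ := fin_crit hd hG hH h
  let T : Finset κ := Δ.roots.toFinset.filter fun τ => ∃ x, IsSing G H τ x
  have hT : ∀ t : κ, t ∈ T ↔ t ∈ Δ.roots.toFinset ∧ ∃ x, IsSing G H t x := fun t =>
    Finset.mem_filter
  let tau : Fin T.card → κ := fun j => (T.equivFin.symm j).1
  have htau : ∀ j, ∃ x, IsSing G H (tau j) x := fun j => ((hT _).1 (T.equivFin.symm j).2).2
  choose x hx using htau
  obtain ⟨l, hl, hlx⟩ := exists_ell x fun j => (hx j).1
  refine ⟨T.card, l, tau, fun j => (eval (x j) l)⁻¹ • x j, hl, ?_, ?_, ?_, ?_⟩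
  · exact Subtype.val_injective.comp T.equivFin.symm.injective
  · intro j
    exact sing_smul hG hH (hx j) (inv_ne_zero (hlx j))
  · intro j
    rw [geof_eval_smul hl, pow_one, inv_mul_cancel₀ (hlx j)]
  · intro τ y hy
    have hmem : τ ∈ T := by
      rw [hT]
      refine ⟨?_, y, hy⟩
      rw [Multiset.mem_toFinset, Polynomial.mem_roots hΔ]
      exact hcrit τ y hy
    refine ⟨T.equivFin ⟨τ, hmem⟩, ?_⟩
    show τ = (T.equivFin.symm (T.equivFin ⟨τ, hmem⟩)).1
    rw [Equiv.symm_apply_apply]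

end MPadcLZ
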