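import Pool.Agent.Lib.MP_adc574_ag_LZ.GeoE
import Pool.Agent.Lib.MP_adc574_ag_LZ.GeoF

/-!
# PART VI: geometry => data, final statements

* `colon_pow`: the ideal `A = {a | ∀ g, (∀ j, g ∈ lineI l (tau j) (sig j)) → a * g ∈ Jac (pc G H)}` (define it with `carrier`, or `Submodule.colon`). `null_t` for `A`: let all elements of `A` vanish at `(τ, x)`, `x ≠ 0`. All `pderiv i (pc G H) ∈ Jac ≤ A`, so `IsSing G H τ x` (`pc_pd`, `pc_ev`); so `τ = tau j` and, by `h.uniq`, `x = c • sig j`, `c ≠ 0`.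
  `b` from `line_det` is in `A`; `b(τ, x) = (l(x) ^ (d-1)) ^ (N+1)` by `line_ev`, and `l(c • sig j) = c ≠ 0`: contradiction. So `X i ^ M₁ ∈ A`, and `mono_mem`, `M = N * M₁`.
* `exists_pdat`: `M' = max M₀ M` (of `colon_pow`), `S.M = M' + M'`. `gen`: `e = e₁ + e₂` with `dg e₁ = dg e₂ = M'` (`exists_le_dg` in Nd.lean, or direct). `ξ_i(τ_j) = eval (sig j) (monomial e_i 1)` (Lagrange interpolation: `Lagrange.interpolate Finset.univ tau`, `Lagrange.eval_interpolate_at_node`); `x^e₂ - ξ₂ L ^ M' ∈ ⋂ lineI` (`line_inter`), times `x^e₁ ∈ A`;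
  `x^e₁ - ξ₁ L ^ M' ∈ ⋂ lineI` times `L ^ M' ∈ A` (`hm_mem` for the ideal `A`, `L ^ M'` is homogeneous of degree `M'`). `xi = ξ₁ ξ₂`. `ann`: `C S.del ∈ lineI` for every `j` (a factor), times `L ^ (M' + M') ∈ A`. `sep`: `tau` injective; `Hu`: `h.base`; `hess`: `h.node` and `hess_inv` (`Matrix.mulVec` unfolds to the sum in `IsLef.node`).
-/

set_option autoImplicit false

namespace MPadcLZ

open MvPolynomial MPadcHM

universe u

theorem colon_pow {κ : Type u} [Field κ] [IsAlgClosed κ] [CharZero κ] {N d : ℕ} (hN : 0 < N)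
    (hd : 2 ≤ d) (G H : MvPolynomial (Fin N) κ) (hG : Hm d G) (hH : Hm d H) (h : IsLef G H)
    (J : ℕ) (l : MvPolynomial (Fin N) κ) (tau : Fin J → κ) (sig : Fin J → Fin N → κ)
    (hl : Hm 1 l) (hs : ∀ j, IsSing G H (tau j) (sig j)) (h1 : ∀ j, eval (sig j) l = 1)
    (hall : ∀ τ x, IsSing G H τ x → ∃ j, τ = tau j) :
    ∃ M : ℕ, ∀ e : Fin N →₀ ℕ, M ≤ dg e → ∀ g, (∀ j, g ∈ lineI l (tau j) (sig j)) →
      monomial e (1 : Polynomial κ) * g ∈ Jac (pc G H) := by
  let A : Ideal (MvPolynomial (Fin N) (Polynomial κ)) :=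
    { carrier := {a | ∀ g, (∀ j, g ∈ lineI l (tau j) (sig j)) → a * g ∈ Jac (pc G H)}
      add_mem' := by
        intro a b ha hb g hg
        rw [add_mul]
        exact Ideal.add_mem _ (ha g hg) (hb g hg)
      zero_mem' := by
        intro g _
        rw [zero_mul]
        exact Ideal.zero_mem _
      smul_mem' := by
        intro c a ha g hg
        rw [smul_eq_mul, mul_assoc]
        exact Ideal.mul_mem_left _ c (ha g hg) }
  have hA : ∀ a, a ∈ A ↔ ∀ g, (∀ j, g ∈ lineI l (tau j) (sig j)) → a * g ∈ Jac (pc G H) :=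
    fun a => Iff.rfl
  obtain ⟨M₁, hM₁⟩ := null_t A (by
    intro τ x hx
    by_contra hx0
    have hsing : IsSing G H τ x := by
      refine ⟨hx0, fun i => ?_⟩
      have h2 : pderiv i (pc G H) ∈ A := by
        rw [hA]
        intro g _
        exact Ideal.mul_mem_right _ _ (Ideal.subset_span ⟨i, rfl⟩)
      have h3 := hx _ h2
      rw [pc_pd, pc_ev] at h3
      exact sub_eq_zero.mp h3
    obtain ⟨j, hj⟩ := hall τ x hsing
    have hsj : IsSing G H τ (sig j) := by
      rw [hj]
      exact hs j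
    obtain ⟨c, hc⟩ := h.uniq τ (sig j) x hsj hsing
    have hc0 : c ≠ 0 := by
      rintro rfl
      rw [zero_smul] at hc
      exact hx0 hc
    obtain ⟨b, hb1, hb2⟩ := line_det (τ := τ) (σ := sig j) (l := l) hd hG hH hl (h1 j) hsj.2
      (h.base τ (sig j) hsj) (hess_inv _ (sig j) (by
        intro v hv
        refine h.node τ (sig j) hsj v fun a => ?_
        exact congrFun hv a))
    have hbA : b ∈ A := by
      rw [hA]
      intro g hg
      exact hb2 g (by rw [hj]; exact hg j)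
    have h4 := hx b hbA
    have h5 := line_ev hl (h1 j) c hb1
    rw [← hc] at h5
    have h6 : (l.map Polynomial.C).map (Polynomial.evalRingHom τ) = l := by
      rw [map_map]
      have h7 : (Polynomial.evalRingHom τ).comp Polynomial.C = RingHom.id κ := by
        ext a
        simp
      rw [h7, map_id]
    have h8 : eval x l = c := by
      have h9 := aeval_hom (R := κ) (A := κ) c (sig j) l hl
      rw [h1 j] at h9
      rw [hc]
      have h10 : eval (c • sig j) l = eval (fun k => c * sig j k) l := rfl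
      rw [h10]
      simpa using h9
    rw [map_sub, map_pow, map_pow, h6, map_sub, h4, map_pow, map_pow, h8, zero_sub,
      neg_eq_zero] at h5
    exact hc0 (eq_zero_of_pow_eq_zero (eq_zero_of_pow_eq_zero h5)))
  refine ⟨N * M₁, fun e he g hg => ?_⟩
  exact (hA _).mp (mono_mem hN A M₁ hM₁ e he) g hg

private theorem geomb_exists_le {N : ℕ} (e : Fin N →₀ ℕ) (m : ℕ) (hm : m ≤ dg e) :
    ∃ e₁ : Fin N →₀ ℕ, e₁ ≤ e ∧ dg e₁ = m := by
  induction m with
  | zero => exact ⟨0, fun i => Nat.zero_le _, by simp [dg]⟩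
  | succ m ih =>
    obtain ⟨e₁, h1, h2⟩ := ih (by omega)
    have h3 : ∃ i, e₁ i < e i := by
      by_contra hcon
      push Not at hcon
      have h4 : dg e ≤ dg e₁ := by
        unfold dg
        exact Finset.sum_le_sum fun i _ => hcon i
      omega
    obtain ⟨i, hi⟩ := h3
    refine ⟨e₁ + Finsupp.single i 1, ?_, ?_⟩
    · intro j
      rw [Finsupp.add_apply]
      by_cases hij : i = j
      · subst hij
        rw [Finsupp.single_eq_same]
        exact hi
      · rw [Finsupp.single_apply, if_neg hij, add_zero]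
        exact h1 j
    · unfold dg at h2 ⊢
      simp only [Finsupp.add_apply]
      rw [Finset.sum_add_distrib, h2]
      simp [Finsupp.single_apply]

private theorem geomb_dg_mono {R : Type*} [CommSemiring R] {N : ℕ} (e : Fin N →₀ ℕ) (c : R) :
    Hm (dg e) (monomial e c) := by
  intro e' he'
  have h := support_monomial_subset he'
  rw [Finset.mem_singleton] at h
  rw [h]

theorem exists_pdat {κ : Type u} [Field κ] [IsAlgClosed κ] [CharZero κ] {N d : ℕ} (hN : 3 ≤ N)
    (hd : 3 ≤ d) (G H : MvPolynomial (Fin N) κ) (hG : Hm d G) (hH : Hm d H) (h : IsLef G H)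
    (M₀ : ℕ) : ∃ S : PDat κ N, S.d = d ∧ S.G = G ∧ S.H = H ∧ M₀ ≤ S.M ∧ S.Ok := by
  obtain ⟨J, l, tau, sig, hl, htau, hs, h1, hall⟩ := exists_nodes (by omega : 1 ≤ d) hG hH h
  obtain ⟨M₁, hM₁⟩ := colon_pow (by omega : 0 < N) (by omega : 2 ≤ d) G H hG hH h J l tau sig
    hl hs h1 hall
  let M' : ℕ := max M₀ M₁
  have hM0 : M₀ ≤ M' := le_max_left _ _
  have hM1 : M₁ ≤ M' := le_max_right _ _
  -- multiplication by a form of degree at least `M₁`
  have hform : ∀ (g : MvPolynomial (Fin N) (Polynomial κ)),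
      (∀ j, g ∈ lineI l (tau j) (sig j)) → ∀ m, M₁ ≤ m →
      ∀ P : MvPolynomial (Fin N) (Polynomial κ), Hm m P → P * g ∈ Jac (pc G H) := by
    intro g hg m hm P hP
    have h2 := hm_mem ((Jac (pc G H)).colon {g}) M₁ m
      (fun e he => by
        rw [Submodule.mem_colon_singleton, smul_eq_mul]
        exact hM₁ e he g hg) hm P hP
    rw [Submodule.mem_colon_singleton, smul_eq_mul] at h2
    exact h2
  have hL : ∀ m : ℕ, Hm m (l.map Polynomial.C ^ m : MvPolynomial (Fin N) (Polynomial κ)) := by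
    intro m
    have h2 := Hm_pow (Hm_map (Polynomial.C : κ →+* Polynomial κ) hl) m
    rw [Nat.mul_one] at h2
    exact h2
  -- interpolation
  have hint : ∀ e : Fin N →₀ ℕ, ∃ ξ : Polynomial κ, ∀ j,
      ξ.eval (tau j) = eval (sig j) (monomial e (1 : κ)) := by
    intro e
    refine ⟨Lagrange.interpolate Finset.univ tau (fun j => eval (sig j) (monomial e (1 : κ))),
      fun j => ?_⟩
    exact Lagrange.eval_interpolate_at_node _ (htau.injOn) (Finset.mem_univ j)
  have hdiff : ∀ (e : Fin N →₀ ℕ) (m : ℕ), dg e = m → ∀ ξ : Polynomial κ,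
      (∀ j, ξ.eval (tau j) = eval (sig j) (monomial e (1 : κ))) →
      ∀ j, (monomial e (1 : Polynomial κ) : MvPolynomial (Fin N) (Polynomial κ)) -
        C ξ * l.map Polynomial.C ^ m ∈ lineI l (tau j) (sig j) := by
    intro e m he ξ hξ j
    have h2 := line_inter (l := l) (τ := tau j) (σ := sig j) (monomial e (1 : κ))
      (he ▸ geomb_dg_mono e (1 : κ)) ξ (hξ j)
    rw [map_monomial, map_one] at h2
    exact h2
  refine ⟨{ d := d, G := G, H := H, ell := l, J := J, tau := tau, sig := sig, M := M' + M' },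
    rfl, rfl, rfl, le_trans hM0 (Nat.le_add_left _ _), ?_⟩
  refine
    { hN := hN
      hd := hd
      homG := hG
      homH := hH
      homl := hl
      sep := ?_
      crit := ?_
      one := h1
      Hu := ?_
      hess := ?_
      gen := ?_
      ann := ?_ }
  · intro i j hij
    rw [isUnit_iff_ne_zero]
    exact sub_ne_zero.mpr (htau.ne hij)
  · intro j i
    exact (hs j).2 i
  · intro j
    rw [isUnit_iff_ne_zero]
    exact h.base _ _ (hs j)
  · intro j
    refine hess_inv _ (sig j) (fun v hv => h.node _ _ (hs j) v (fun a => ?_))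
    exact congrFun hv a
  · intro e he
    change dg e = M' + M' at he
    obtain ⟨e₁, h2, h3⟩ := geomb_exists_le e M' (by omega)
    obtain ⟨e₂, rfl⟩ : ∃ e₂, e = e₁ + e₂ := ⟨e - e₁, (add_tsub_cancel_of_le h2).symm⟩
    have h4 : dg e₂ = M' := by
      have h5 : dg (e₁ + e₂) = dg e₁ + dg e₂ := by
        unfold dg
        simp only [Finsupp.add_apply]
        exact Finset.sum_add_distrib
      omega
    obtain ⟨ξ₁, hξ₁⟩ := hint e₁
    obtain ⟨ξ₂, hξ₂⟩ := hint e₂
    refine ⟨ξ₁ * ξ₂, ?_⟩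
    change monomial (e₁ + e₂) (1 : Polynomial κ) - C (ξ₁ * ξ₂) * l.map Polynomial.C ^ (M' + M') ∈
      Jac (pc G H)
    have h6 := hM₁ e₁ (by omega) _ (hdiff e₂ M' h4 ξ₂ hξ₂)
    have h7 := hform _ (hdiff e₁ M' h3 ξ₁ hξ₁) M' hM1 _ (hL M')
    have h8 := Ideal.add_mem _ h6 (Ideal.mul_mem_left _ (C ξ₂) h7)
    have h9 : (monomial (e₁ + e₂) (1 : Polynomial κ) : MvPolynomial (Fin N) (Polynomial κ)) =
        monomial e₁ 1 * monomial e₂ 1 := by
      rw [monomial_mul, one_mul]
    have h10 : (monomial (e₁ + e₂) (1 : Polynomial κ) : MvPolynomial (Fin N) (Polynomial κ)) -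
        C (ξ₁ * ξ₂) * l.map Polynomial.C ^ (M' + M') =
        monomial e₁ 1 * (monomial e₂ 1 - C ξ₂ * l.map Polynomial.C ^ M') +
          C ξ₂ * (l.map Polynomial.C ^ M' * (monomial e₁ 1 - C ξ₁ * l.map Polynomial.C ^ M')) := by
      rw [h9, C_mul, pow_add]
      ring
    rw [h10]
    exact h8
  · change C (∏ j, (Polynomial.X - Polynomial.C (tau j))) * l.map Polynomial.C ^ (M' + M') ∈
      Jac (pc G H)
    rw [mul_comm]
    refine hform _ (fun j => ?_) (M' + M') (by omega) _ (hL _)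
    have h2 : (C (Polynomial.X - Polynomial.C (tau j)) : MvPolynomial (Fin N) (Polynomial κ)) ∈
        lineI l (tau j) (sig j) := Ideal.subset_span ⟨none, rfl⟩
    rw [map_prod]
    exact Ideal.mem_of_dvd _ (Finset.dvd_prod_of_mem
      (fun j => (C (Polynomial.X - Polynomial.C (tau j)) : MvPolynomial (Fin N) (Polynomial κ)))
      (Finset.mem_univ j)) h2

/-- A smooth hypersurface. -/
theorem exists_jac {κ : Type u} [Field κ] [IsAlgClosed κ] [CharZero κ] {N : ℕ}
    (H : MvPolynomial (Fin N) κ) (hs : ∀ x, (∀ i, eval x (pderiv i H) = 0) → x = 0) :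
    ∃ M : ℕ, ∀ e : Fin N →₀ ℕ, M ≤ dg e → monomial e (1 : κ) ∈ Jac H :=
  exists_jac' H hs

end MPadcLZ
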