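import Pool.Agent.Lib.MP_adc574_ag_LZ.IrrP
import Pool.Agent.Lib.MP_adc574_ag_HM.TheoremC
import Pool.Agent.Lib.MP_adc574_ag_BK.KeyG

/-!
# JOBS KeyZa, KeyZb: local data and the statement KEY for pencils

* `lat_data` (KeyZa). `Mo` over `K = κ(t)`; `E` is f.g. and torsion free over the PID `κ[t]` (torsion free: `q • x = 0`, `q ≠ 0` gives `x = 0` as `q` is invertible in `K`), so free: `Module.Free.of..` / `Module.basisOfFiniteTypeTorsionFree'` gives a basis `b₀ : Basis (Fin r) κ[t] E`, `b j = (b₀ j : Mo)`.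
  It is `K`-independent (clear denominators; or `LinearIndependent.iff_fractionRing`) and spans `Mo` over `K` (`ld.spn`). (Model: `MPadcHM.local_data` in HM/IrrB.lean, and its helper lemmas.)
  `ld.nabE`: `nab (b j) = ∑ i, Em i j • b i + p j • u`; `ld.delu`: `del • u = ∑ i, ε i • b i`; so `del • nab (b j) = ∑ i, (ε i * p j + del * Em i j) • b i`.
  Node: if `StabAt nab E τ` for all `τ` then `nab x ∈ E` for `x ∈ E` (`in_E`), so `E = ⊥` (`nostab`, `E` f.g.), so `Mo` is trivial (`ld.spn`), but `low_ne` (with `m₀` = the residue of `-N` modulo `d`) gives `B [x^u] [x^v] ≠ 0`. So (`pk_tau`) there is `τ` with `del τ = 0`, `¬ NearIn E τ u`, `¬ StabAt`. `δ₁ = X - C τ`.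
  `ε`: if all `δ₁ ∣ ε i` then `del = δ₁ R`, `δ₁ • (R • u - ∑ ε' i • b i) = 0`, `R • u ∈ E`, `R(τ) ≠ 0` (as `del'(τ) ≠ 0`): `NearIn E τ u`, contradiction. `p`: if all `δ₁ ∣ p j` then `R • nab (b j) = R • ∑ Em i j • b i + p' j • (del • u) ∈ E`, so `StabAt` (Leibniz for `x = ∑ c j • b j`), contradiction.
  `α`: `ld.res`: `nab (del • u) = ∑ ε' i • b i + ∑ i, ε i • nab (b i)` so `(∑ ε i p i - α del') • u ∈ E`, so `∑ ε i p i - α del'` vanishes at `τ` (`¬ NearIn`): divisible by `δ₁`.
* `nab_coordZ`, `irr_coordZ` (KeyZb): copy `MPadcHM.nab_coord`, `MPadcHM.irr_coord` (HM/AsmB.lean) with `⊤` in place of `Hprim`: `W ⊂ K^r` stable gives the `K`-subspace `{∑ w i • b i}` stable.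
* `key_pdat` (KeyZb): as the second half of `MPadcHM.theoremC` (HM/TheoremC.lean) with `MPadcBK.key_gen` (BK/KeyG.lean): `exists_hg`, `exists_pp`, `hI`, `pk_exists`, `lat_data`, `S.del.Separable` (product of `X - C τ_j`, `τ_j` distinct: `Polynomial.separable_prod_X_sub_C_iff` or the like), `local_package`,
  `isDomain_tensor`, the coordinates of `f v` in the basis `b` (independent over `K`), `C v j = c v (b j)`; `DL (C v j) = ∑ i, C v i ΓK i j + ∑ v', ν v v' C v' j` from the hypothesis (`brP` is surjective, `IsHG.nab_br`), the `C v` are `L`-independent by the hypothesis. `V` empty: `Matrix.det_isEmpty`. Reindex `V ≃ Fin (card V)`.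
-/

set_option autoImplicit false

namespace MPadcLZ

open MvPolynomial MPadcHM

universe u

section

variable {κ : Type u} [Field κ] [CharZero κ] [IsAlgClosed κ] {N : ℕ} (S : PDat κ N) {Mo : Type u}
  [AddCommGroup Mo] [Module (RatFunc κ) Mo] [Module (Polynomial κ) Mo]
  [IsScalarTower (Polynomial κ) (RatFunc κ) Mo] {nab : Mo →+ Mo}
  {br : MvPolynomial (Fin N) (RatFunc κ) →ₗ[RatFunc κ] Mo}
  {B : Mo →ₗ[RatFunc κ] Mo →ₗ[RatFunc κ] RatFunc κ}
  {rho : MvPolynomial (Fin N) (RatFunc κ) →ₗ[RatFunc κ] RatFunc κ}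
  {s r : ℕ} {g : Fin r → Mo} {w : Fin r → ℤ} {W : (Fin N →₀ ℕ) → ℕ}
  {k : ℕ} {E : Submodule (Polynomial κ) Mo} {u : Mo} {al : κ}

omit [CharZero κ] [IsAlgClosed κ] in
private theorem keyza_nab (hG : IsHG S nab br) (q : Polynomial κ) (h : Mo) :
    nab (q • h) = Polynomial.derivative q • h + q • nab h := by
  have h1 := hG.leib (algebraMap (Polynomial κ) (RatFunc κ) q) h
  rw [DK_poly] at h1
  simp only [algebraMap_smul] at h1
  exact h1

private theorem keyza_node (hS : S.Ok) (hG : IsHG S nab br) (hP : IsPP S nab br B rho)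
    (hI : InfW S nab br s r g w W) (hK : Pk S nab br k E u al)
    (htf : ∀ (q : Polynomial κ) (x : Mo), q • x = 0 → q = 0 ∨ x = 0) :
    ∃ τ : κ, S.del.eval τ = 0 ∧ (Polynomial.derivative S.del).eval τ ≠ 0 ∧
      ¬ NearIn E τ u ∧ ¬ StabAt nab E τ := by
  by_contra hcon
  push Not at hcon
  have hst : ∀ τ, StabAt nab E τ := by
    intro τ
    rcases pk_tau S hS hK τ with h | ⟨h1, h2, h3, h4⟩
    · exact h
    · exact absurd (hcon τ h1 h2 h3) h4
  have hE : E = ⊥ := nostab S hS hG hP hI hK E hK.ld.fg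
    (fun x hx => in_E E _ fun τ => hst τ x hx)
  have hz : ∀ x : Mo, x = 0 := by
    intro x
    obtain ⟨q, hq, hqx⟩ := hK.ld.spn x
    rw [hE, Submodule.mem_bot] at hqx
    rcases htf q x hqx with h | h
    · exact absurd h hq
    · exact h
  have hd : 0 < S.d := by
    have := hS.hd
    omega
  obtain ⟨e, v, he, hv, hne⟩ := low_ne S hS hP ((S.d - N % S.d) % S.d) (Nat.mod_lt _ hd)
  have hdvd : S.d ∣ dg e + N := by
    rw [he]
    have h1 : N % S.d < S.d := Nat.mod_lt _ hd
    have h2 : (S.d - N % S.d) % S.d + N ≡ (S.d - N % S.d) + N % S.d [MOD S.d] :=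
      (Nat.mod_modEq _ _).add (Nat.mod_modEq _ _).symm
    have h3 : (S.d - N % S.d) + N % S.d = S.d := by omega
    rw [h3] at h2
    exact (Nat.modEq_zero_iff_dvd.1 (h2.trans (by simp [Nat.ModEq])))
  have h1 := hP.mid e v hdvd (by omega)
  rw [hz (br (monomial e 1)), map_zero, LinearMap.zero_apply] at h1
  rcases mul_eq_zero.1 h1.symm with h2 | h2
  · exact absurd h2 (pow_ne_zero _ (neg_ne_zero.2 one_ne_zero))
  · exact hne h2

theorem lat_data (hS : S.Ok) (hG : IsHG S nab br) (hP : IsPP S nab br B rho)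
    (hI : InfW S nab br s r g w W) (hK : Pk S nab br k E u al) :
    ∃ (r : ℕ) (b : Fin r → Mo) (G Em : Matrix (Fin r) (Fin r) (Polynomial κ))
      (ε p : Fin r → Polynomial κ), LinearIndependent (RatFunc κ) b ∧
      Submodule.span (RatFunc κ) (Set.range b) = ⊤ ∧
      (∀ j, S.del • nab (b j) = ∑ i, G i j • b i) ∧
      (∀ i j, G i j = ε i * p j + S.del * Em i j) ∧
      ∃ δ₁ : Polynomial κ, Irreducible δ₁ ∧ δ₁ ∣ S.del ∧
      (∃ c : Polynomial κ, ∑ i, ε i * p i =
        Polynomial.C al * Polynomial.derivative S.del + δ₁ * c) ∧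
      (∃ i, ¬ δ₁ ∣ ε i) ∧ ∃ j, ¬ δ₁ ∣ p j := by
  classical
  have htf : ∀ (q : Polynomial κ) (x : Mo), q • x = 0 → q = 0 ∨ x = 0 := by
    intro q x hqx
    rw [← algebraMap_smul (RatFunc κ) q x] at hqx
    rcases smul_eq_zero.1 hqx with h | h
    · left
      exact (map_eq_zero_iff _ (FaithfulSMul.algebraMap_injective (Polynomial κ) (RatFunc κ))).1 h
    · right
      exact h
  have : Module.Finite (Polynomial κ) E := Module.Finite.iff_fg.2 hK.ld.fg
  have : Module.IsTorsionFree (Polynomial κ) E := by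
    rw [Module.isTorsionFree_iff_smul_eq_zero]
    intro q x hqx
    have h1 : q • (x : Mo) = 0 := by
      rw [← Submodule.coe_smul, hqx]
      rfl
    rcases htf q x h1 with h | h
    · left
      exact h
    · right
      exact Subtype.ext h
  obtain ⟨r, Bs⟩ : Σ r : ℕ, Module.Basis (Fin r) (Polynomial κ) E :=
    Module.basisOfFiniteTypeTorsionFree'
  obtain ⟨b, hb⟩ : ∃ b : Fin r → Mo, b = fun i => ((Bs i : E) : Mo) := ⟨_, rfl⟩
  have hbE : ∀ i, b i ∈ E := by
    intro i
    rw [hb]
    exact (Bs i).2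
  have hrepr : ∀ x ∈ E, ∃ a : Fin r → Polynomial κ, x = ∑ i, a i • b i := by
    intro x hx
    refine ⟨fun i => Bs.repr ⟨x, hx⟩ i, ?_⟩
    have h1 := congrArg (fun z : E => (z : Mo)) (Bs.sum_repr ⟨x, hx⟩)
    simp only [AddSubmonoidClass.coe_finsetSum, Submodule.coe_smul] at h1
    rw [hb]
    exact h1.symm
  have hliR : LinearIndependent (Polynomial κ) b := by
    have h1 := Bs.linearIndependent.map' E.subtype (Submodule.ker_subtype E)
    rw [hb]
    exact h1
  have hliK : LinearIndependent (RatFunc κ) b :=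
    (LinearIndependent.iff_fractionRing (Polynomial κ) (RatFunc κ)).1 hliR
  have hspan : Submodule.span (RatFunc κ) (Set.range b) = ⊤ := by
    rw [eq_top_iff]
    intro x _
    obtain ⟨q, hq, hqx⟩ := hK.ld.spn x
    obtain ⟨a, ha⟩ := hrepr (q • x) hqx
    have hq' : algebraMap (Polynomial κ) (RatFunc κ) q ≠ 0 := by
      intro h
      exact hq ((map_eq_zero_iff _
        (FaithfulSMul.algebraMap_injective (Polynomial κ) (RatFunc κ))).1 h)
    have h1 : x = (algebraMap (Polynomial κ) (RatFunc κ) q)⁻¹ • (q • x) := by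
      rw [← algebraMap_smul (RatFunc κ) q x, smul_smul, inv_mul_cancel₀ hq', one_smul]
    rw [h1, ha]
    refine Submodule.smul_mem _ _ (Submodule.sum_mem _ fun i _ => ?_)
    rw [← algebraMap_smul (RatFunc κ) (a i) (b i)]
    exact Submodule.smul_mem _ _ (Submodule.subset_span ⟨i, rfl⟩)
  -- the node
  obtain ⟨τ, hτ, hτ', hnu, hns⟩ := keyza_node S hS hG hP hI hK htf
  obtain ⟨R, hR⟩ := Polynomial.dvd_iff_isRoot.2 hτ
  have hRτ : R.eval τ ≠ 0 := by
    intro h
    apply hτ'
    rw [hR, Polynomial.derivative_mul, Polynomial.eval_add, Polynomial.eval_mul, Polynomial.eval_mul,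
      h, mul_zero, Polynomial.eval_sub, Polynomial.eval_X, Polynomial.eval_C, sub_self, zero_mul,
      add_zero]
  obtain ⟨ε, hε⟩ := hrepr (S.del • u) hK.ld.delu
  have hpE : ∀ j, ∃ pE : Polynomial κ × (Fin r → Polynomial κ),
      nab (b j) - pE.1 • u = ∑ i, pE.2 i • b i := by
    intro j
    obtain ⟨p, hp⟩ := hK.ld.nabE (b j) (hbE j)
    obtain ⟨a, ha⟩ := hrepr (nab (b j) - p • u) hp
    exact ⟨(p, a), ha⟩
  choose pE hpE using hpE
  have hEmem : ∀ j, nab (b j) - (pE j).1 • u ∈ E := by
    intro j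
    rw [hpE j]
    exact Submodule.sum_mem _ fun i _ => Submodule.smul_mem _ _ (hbE i)
  refine ⟨r, b, Matrix.of fun i j => ε i * (pE j).1 + S.del * (pE j).2 i,
    Matrix.of fun i j => (pE j).2 i, ε, fun j => (pE j).1, hliK, hspan, ?_, ?_,
    Polynomial.X - Polynomial.C τ, Polynomial.irreducible_X_sub_C τ,
    Polynomial.dvd_iff_isRoot.2 hτ, ?_, ?_, ?_⟩
  · intro j
    have h1 : nab (b j) = (pE j).1 • u + ∑ i, (pE j).2 i • b i := by
      rw [← hpE j, add_sub_cancel]
    rw [h1, smul_add, smul_comm, hε, Finset.smul_sum, Finset.smul_sum, ← Finset.sum_add_distrib]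
    refine Finset.sum_congr rfl fun i _ => ?_
    rw [Matrix.of_apply, smul_smul, smul_smul, ← add_smul, mul_comm (pE j).1]
  · intro i j
    rfl
  · have h1 := hK.ld.res
    have h2 : nab (S.del • u) - (∑ i, ε i * (pE i).1) • u ∈ E := by
      have h3 : nab (S.del • u) - (∑ i, ε i * (pE i).1) • u =
          ∑ i, (Polynomial.derivative (ε i) • b i + ε i • (nab (b i) - (pE i).1 • u)) := by
        rw [hε, map_sum, Finset.sum_smul, ← Finset.sum_sub_distrib]
        refine Finset.sum_congr rfl fun i _ => ?_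
        rw [keyza_nab S hG, smul_sub, smul_smul, add_sub_assoc]
      rw [h3]
      exact Submodule.sum_mem _ fun i _ => Submodule.add_mem _
        (Submodule.smul_mem _ _ (hbE i)) (Submodule.smul_mem _ _ (hEmem i))
    have h4 := Submodule.sub_mem _ h1 h2
    have h5 : nab (S.del • u) -
        (Polynomial.C al * Polynomial.derivative S.del) • u -
        (nab (S.del • u) - (∑ i, ε i * (pE i).1) • u) =
        ((∑ i, ε i * (pE i).1) - Polynomial.C al * Polynomial.derivative S.del) • u := by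
      rw [sub_smul]
      abel
    rw [h5] at h4
    have h6 : ((∑ i, ε i * (pE i).1) - Polynomial.C al * Polynomial.derivative S.del).eval τ = 0 := by
      by_contra h7
      exact hnu ⟨_, h7, h4⟩
    obtain ⟨c, hc⟩ := Polynomial.dvd_iff_isRoot.2 h6
    refine ⟨c, ?_⟩
    rw [← hc]
    ring
  · by_contra hcon
    push Not at hcon
    choose e he using hcon
    have h1 : (Polynomial.X - Polynomial.C τ) • (R • u - ∑ i, e i • b i) = 0 := by
      rw [smul_sub, smul_smul, ← hR, Finset.smul_sum, hε, sub_eq_zero]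
      refine Finset.sum_congr rfl fun i _ => ?_
      rw [smul_smul, ← he i]
    rcases htf _ _ h1 with h2 | h2
    · exact absurd h2 (Polynomial.X_sub_C_ne_zero τ)
    · rw [sub_eq_zero] at h2
      apply hnu
      refine ⟨R, hRτ, ?_⟩
      rw [h2]
      exact Submodule.sum_mem _ fun i _ => Submodule.smul_mem _ _ (hbE i)
  · by_contra hcon
    push Not at hcon
    choose e he using hcon
    have hnb : ∀ j, R • nab (b j) ∈ E := by
      intro j
      have h1 : R • nab (b j) = e j • (S.del • u) + R • (nab (b j) - (pE j).1 • u) := by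
        rw [he j, hR, smul_sub, smul_smul, smul_smul]
        have h2 : R * ((Polynomial.X - Polynomial.C τ) * e j) =
            e j * ((Polynomial.X - Polynomial.C τ) * R) := by ring
        rw [h2]
        abel
      rw [h1]
      exact Submodule.add_mem _ (Submodule.smul_mem _ _ hK.ld.delu) (Submodule.smul_mem _ _ (hEmem j))
    apply hns
    intro x hx
    refine ⟨R, hRτ, ?_⟩
    obtain ⟨a, ha⟩ := hrepr x hx
    rw [ha, map_sum, Finset.smul_sum]
    refine Submodule.sum_mem _ fun i _ => ?_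
    rw [keyza_nab S hG, smul_add, smul_comm R (a i)]
    exact Submodule.add_mem _ (Submodule.smul_mem _ _ (Submodule.smul_mem _ _ (hbE i)))
      (Submodule.smul_mem _ _ (hnb i))

omit [IsAlgClosed κ] in
theorem nab_coordZ (leib : ∀ (c : RatFunc κ) (x : Mo), nab (c • x) = DK κ c • x + c • nab x)
    {del : Polynomial κ} (hdel : del ≠ 0) {r : ℕ} (b : Fin r → Mo)
    (G : Matrix (Fin r) (Fin r) (Polynomial κ)) (hGb : ∀ j, del • nab (b j) = ∑ i, G i j • b i)
    (ΓK : Matrix (Fin r) (Fin r) (RatFunc κ))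
    (hΓK : ∀ i j, algebraMap (Polynomial κ) (RatFunc κ) del * ΓK i j =
      algebraMap (Polynomial κ) (RatFunc κ) (G i j)) (w : Fin r → RatFunc κ) :
    nab (∑ i, w i • b i) = ∑ i, (DZ κ (w i) + ΓK.mulVec w i) • b i := by
  have hδ : algebraMap (Polynomial κ) (RatFunc κ) del ≠ 0 := by
    intro h
    exact hdel ((map_eq_zero_iff _ (IsFractionRing.injective (Polynomial κ) (RatFunc κ))).mp h)
  have hb : ∀ j, nab (b j) = ∑ i, ΓK i j • b i := by
    intro j
    have h1 : algebraMap (Polynomial κ) (RatFunc κ) del • nab (b j) =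
        algebraMap (Polynomial κ) (RatFunc κ) del • ∑ i, ΓK i j • b i := by
      rw [algebraMap_smul, hGb j, Finset.smul_sum]
      refine Finset.sum_congr rfl fun i _ => ?_
      rw [smul_smul, hΓK i j, algebraMap_smul]
    exact smul_right_injective Mo hδ h1
  rw [map_sum]
  have h2 : ∀ i, nab (w i • b i) = DZ κ (w i) • b i + ∑ j, (w i * ΓK j i) • b j := by
    intro i
    rw [leib, DZ_apply, hb i, Finset.smul_sum]
    congr 1
    refine Finset.sum_congr rfl fun j _ => ?_
    rw [smul_smul]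
  rw [Finset.sum_congr rfl fun i _ => h2 i, Finset.sum_add_distrib, Finset.sum_comm,
    ← Finset.sum_add_distrib]
  refine Finset.sum_congr rfl fun i _ => ?_
  rw [add_smul, Matrix.mulVec, dotProduct, Finset.sum_smul]
  congr 1
  refine Finset.sum_congr rfl fun j _ => ?_
  rw [mul_comm]

omit [IsAlgClosed κ] in
private theorem keyzb_sep (hS : S.Ok) : S.del.Separable := by
  unfold PDat.del
  rw [Polynomial.separable_prod_X_sub_C_iff]
  intro i j hij
  by_contra h
  have h1 := hS.sep i j h
  rw [hij, sub_self] at h1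
  exact not_isUnit_zero h1

theorem irr_coordZ (hS : S.Ok) (hG : IsHG S nab br) (hP : IsPP S nab br B rho)
    (hI : InfW S nab br s r g w W) {r : ℕ} (b : Fin r → Mo) (hb : LinearIndependent (RatFunc κ) b)
    (hspan : Submodule.span (RatFunc κ) (Set.range b) = ⊤)
    (G : Matrix (Fin r) (Fin r) (Polynomial κ)) (hGb : ∀ j, S.del • nab (b j) = ∑ i, G i j • b i)
    (ΓK : Matrix (Fin r) (Fin r) (RatFunc κ))
    (hΓK : ∀ i j, algebraMap (Polynomial κ) (RatFunc κ) S.del * ΓK i j =
      algebraMap (Polynomial κ) (RatFunc κ) (G i j))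
    (W : Submodule (RatFunc κ) (Fin r → RatFunc κ))
    (hW : ∀ w ∈ W, (fun i => DZ κ (w i) + ΓK.mulVec w i) ∈ W) : W = ⊥ ∨ W = ⊤ := by
  have hinj : Function.Injective (Fintype.linearCombination (RatFunc κ) b) :=
    hb.fintypeLinearCombination_injective
  have hrange : LinearMap.range (Fintype.linearCombination (RatFunc κ) b) = ⊤ := by
    rw [Fintype.range_linearCombination, hspan]
  have hdel : S.del ≠ 0 := (keyzb_sep S hS).ne_zero
  have hst : ∀ h ∈ W.map (Fintype.linearCombination (RatFunc κ) b),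
      nab h ∈ W.map (Fintype.linearCombination (RatFunc κ) b) := by
    rintro h ⟨w, hw, rfl⟩
    refine ⟨_, hW w hw, ?_⟩
    rw [Fintype.linearCombination_apply, Fintype.linearCombination_apply,
      nab_coordZ hG.leib hdel b G hGb ΓK hΓK w]
  rcases irr_pdat S hS hG hP hI _ hst with h | h
  · left
    rw [eq_bot_iff]
    intro w hw
    have h1 : Fintype.linearCombination (RatFunc κ) b w ∈
        W.map (Fintype.linearCombination (RatFunc κ) b) := ⟨w, hw, rfl⟩
    rw [h, Submodule.mem_bot] at h1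
    rw [Submodule.mem_bot]
    exact hinj (by rw [h1, map_zero])
  · right
    rw [eq_top_iff]
    intro w _
    have h1 : Fintype.linearCombination (RatFunc κ) b w ∈
        W.map (Fintype.linearCombination (RatFunc κ) b) := by
      rw [h]
      exact Submodule.mem_top
    obtain ⟨w', hw', hww⟩ := h1
    rw [← hinj hww]
    exact hw'

end

section

variable {κ : Type u} [Field κ] [CharZero κ] [IsAlgClosed κ] {N : ℕ} (S : PDat κ N)

theorem key_pdat (hS : S.Ok)
    (hI : ∀ nab : PKm S.d S.FK →+ PKm S.d S.FK, IsHG S nab (brP S.d S.FK) →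
      ∃ s r g w W, InfW S nab (brP S.d S.FK) s r g w W) : KeyHyp S.d S.FK := by
  classical
  unfold KeyHyp
  intro L _ _ DL hD hcl V _ _ c ν hc hind f hf
  rcases isEmpty_or_nonempty V with hV | ⟨⟨v0⟩⟩
  · rw [Matrix.det_isEmpty]
    exact one_ne_zero
  have : CharZero (RatFunc κ) :=
    charZero_of_injective_algebraMap (algebraMap κ (RatFunc κ)).injective
  obtain ⟨nab, hG⟩ := exists_hg S hS
  obtain ⟨B, rho, hP⟩ := exists_pp S hS hG
  obtain ⟨s, r₀, g, w, W, hIW⟩ := hI nab hG
  obtain ⟨k, E0, u, al, hK⟩ := pk_exists S hS hG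
  obtain ⟨r, b, G, Em, ε, p, hb, hspan, hGb, hGe, δ₁, hδ₁, hδ₁d, hα, hε, hp⟩ :=
    lat_data S hS hG hP hIW hK
  have hsep : S.del.Separable := keyzb_sep S hS
  obtain ⟨δt, hδt⟩ : ∃ x, x = algebraMap (Polynomial κ) (RatFunc κ) S.del := ⟨_, rfl⟩
  have hδ0 : δt ≠ 0 := by
    intro h
    rw [hδt] at h
    exact hsep.ne_zero ((map_eq_zero_iff _ (RatFunc.algebraMap_injective κ)).mp h)
  obtain ⟨ΓK, hΓK⟩ : ∃ ΓK : Matrix (Fin r) (Fin r) (RatFunc κ), ∀ i j,
      algebraMap (Polynomial κ) (RatFunc κ) S.del * ΓK i j =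
        algebraMap (Polynomial κ) (RatFunc κ) (G i j) := by
    refine ⟨fun i j => algebraMap (Polynomial κ) (RatFunc κ) (G i j) / δt, fun i j => ?_⟩
    rw [← hδt, mul_div_cancel₀ _ hδ0]
  obtain ⟨E, fE, aE, a, l, ha, hl, hLJ⟩ := local_package S.del δ₁ hsep hδ₁ hδ₁d G Em ε p hGe al hα
    hK.al1 hε hp ΓK hΓK (fun W hW => irr_coordZ S hS hG hP hIW b hb hspan G hGb ΓK hΓK W hW)
  have hco : ∀ v, ∃ x : Fin r → RatFunc κ, ∑ i, x i • b i = f v := by
    intro v
    have h1 : f v ∈ Submodule.span (RatFunc κ) (Set.range b) := by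
      rw [hspan]
      exact Submodule.mem_top
    exact (Submodule.mem_span_range_iff_exists_fun _).mp h1
  choose fc hfc using hco
  have hfi : LinearIndependent (RatFunc κ) fc := by
    rw [Fintype.linearIndependent_iff]
    intro g hg
    rw [Fintype.linearIndependent_iff] at hf
    refine hf g ?_
    have h1 : ∑ v, g v • f v = ∑ i, (∑ v, g v * fc v i) • b i := by
      have h2 : ∀ v, g v • f v = ∑ i, (g v * fc v i) • b i := by
        intro v
        rw [← hfc v, Finset.smul_sum]
        exact Finset.sum_congr rfl fun i _ => by rw [smul_smul]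
      rw [Finset.sum_congr rfl fun v _ => h2 v, Finset.sum_comm]
      exact Finset.sum_congr rfl fun i _ => by rw [Finset.sum_smul]
    rw [h1]
    refine Finset.sum_eq_zero fun i _ => ?_
    have h3 : ∑ v, g v * fc v i = 0 := by
      have := congrFun hg i
      rw [Finset.sum_apply] at this
      exact this
    rw [h3, zero_smul]
  have hnb : ∀ j, nab (b j) = ∑ i, ΓK i j • b i := by
    intro j
    have h1 : δt • nab (b j) = δt • ∑ i, ΓK i j • b i := by
      rw [hδt, algebraMap_smul, hGb j, Finset.smul_sum]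
      refine Finset.sum_congr rfl fun i _ => ?_
      rw [smul_smul, hΓK, algebraMap_smul]
    have h2 := congrArg (fun x => δt⁻¹ • x) h1
    simp only [smul_smul, inv_mul_cancel₀ hδ0, one_smul] at h2
    exact h2
  have hcs : ∀ v (x : RatFunc κ) (h : PKm S.d S.FK),
      c v (x • h) = c v h * algebraMap (RatFunc κ) L x := by
    intro v x h
    rw [map_smul, Algebra.smul_def, mul_comm]
  have hcn : ∀ v x, DL (c v x) = c v (nab x) + ∑ v', ν v v' * c v' x := by
    intro v x
    obtain ⟨P, rfl⟩ := brP_surj S.d S.FK x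
    rw [hc v P, hG.nab_br]
  have hCD : ∀ v j, DL (c v (b j)) = ∑ i, c v (b i) * algebraMap (RatFunc κ) L (ΓK i j) +
      ∑ v', ν v v' * c v' (b j) := by
    intro v j
    rw [hcn, hnb, map_sum]
    congr 1
    exact Finset.sum_congr rfl fun i _ => hcs v _ _
  have hCi : LinearIndependent L (fun v => fun j => c v (b j)) := by
    rw [Fintype.linearIndependent_iff]
    intro lam hlam v
    have h0 : lam = 0 := by
      refine hind lam fun x => ?_
      let Ψ : PKm S.d S.FK →ₗ[RatFunc κ] L :=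
        ∑ v, (LinearMap.mulLeft (RatFunc κ) (lam v)).comp (c v)
      have hΨ : ∀ h, Ψ h = ∑ v, lam v * c v h := by
        intro h
        show (∑ v, (LinearMap.mulLeft (RatFunc κ) (lam v)).comp (c v)) h = _
        rw [LinearMap.sum_apply]
        rfl
      have hle : Submodule.span (RatFunc κ) (Set.range b) ≤ LinearMap.ker Ψ := by
        rw [Submodule.span_le]
        rintro _ ⟨j, rfl⟩
        show Ψ (b j) = 0
        rw [hΨ]
        have := congrFun hlam j
        rw [Finset.sum_apply] at this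
        exact this
      have hm : x ∈ Submodule.span (RatFunc κ) (Set.range b) := by
        rw [hspan]
        exact Submodule.mem_top
      have h1 : Ψ x = 0 := hle hm
      rw [← hΨ, h1]
    rw [h0]
    rfl
  let _ := fE
  let _ := aE
  have := isDomain_tensor (K := RatFunc κ) (L := L) (E := E) hcl
  let eV : V ≃ Fin (Fintype.card V) := Fintype.equivFin V
  have hkey := MPadcBK.key_gen (K := RatFunc κ) (L := L) (E := E) (DZ κ) DL
    (fun x => hD x) ΓK a l ha hl hLJ (Fintype.card V)
    (fun v j => c (eV.symm v) (b j)) (ν.submatrix eV.symm eV.symm)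
    (fun v j => by
      rw [hCD]
      congr 1
      exact (Equiv.sum_comp eV.symm (fun v' => ν (eV.symm v) v' * c v' (b j))).symm)
    (hCi.comp _ eV.symm.injective)
    (fun v => fc (eV.symm v)) (hfi.comp _ eV.symm.injective)
  have hM : (Matrix.of fun v u : V => c v (f u)) =
      Matrix.of fun v w : V => ∑ i, c v (b i) * algebraMap (RatFunc κ) L (fc w i) := by
    ext x y
    show c x (f y) = ∑ i, c x (b i) * algebraMap (RatFunc κ) L (fc y i)
    rw [← hfc y, map_sum]
    exact Finset.sum_congr rfl fun i _ => hcs x _ _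
  rw [hM, ← Matrix.det_submatrix_equiv_self eV.symm]
  exact hkey

/-- KEY for Lefschetz pencils: `H` smooth. -/
theorem key_lef (hS : S.Ok) (hH : S.SmH) : KeyHyp S.d S.FK := by
  refine key_pdat S hS fun nab hG => ?_
  obtain ⟨r, g, w, hO, hV⟩ := inf_lef S hS hH hG
  have hd : 3 ≤ S.d := hS.hd
  have hN : 3 ≤ N := hS.hN
  refine ⟨1, r, g, w, fun e => (dg e + N) / S.d, hO, fun e he => hV e he, fun e he => ?_,
    fun u v hu huv _ => ?_⟩
  · obtain ⟨c, hc⟩ := he
    rw [hc, Nat.mul_div_cancel_left _ (by omega)]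
    rcases Nat.eq_zero_or_pos c with h | h
    · rw [h, mul_zero] at hc
      omega
    · exact h
  · obtain ⟨c, hc⟩ := hu
    have h1 : 1 ≤ c := by
      rcases Nat.eq_zero_or_pos c with h | h
      · rw [h, mul_zero] at hc
        omega
      · exact h
    have h3 : dg u + N + (dg v + N) = S.d * N := by
      obtain ⟨d', hd'⟩ : ∃ d', S.d = d' + 2 := ⟨S.d - 2, by omega⟩
      rw [hd'] at huv ⊢
      rw [Nat.add_sub_cancel] at huv
      have h8 : (d' + 2) * N = N * d' + 2 * N := by ring
      rw [h8]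
      omega
    have h4 : dg v + N = S.d * (N - c) := by
      rw [Nat.mul_sub]
      omega
    have h7 : 1 ≤ N - c := by
      rcases Nat.eq_zero_or_pos (N - c) with h | h
      · rw [h, mul_zero] at h4
        omega
      · exact h
    show 1 < (dg u + N) / S.d + (dg v + N) / S.d
    rw [hc, h4, Nat.mul_div_cancel_left _ (by omega), Nat.mul_div_cancel_left _ (by omega)]
    omega

/-- KEY for Morse pencils: `H = x_0 ^ d`, `G(0, x')` smooth. -/
theorem key_morse (hS : S.Ok) (i₀ : Fin N) (hH : S.H = X i₀ ^ S.d)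
    (hG0 : ∀ e : Fin N →₀ ℕ, S.M ≤ dg e → monomial e (1 : κ) ∈
      Ideal.span ({P | ∃ i, i ≠ i₀ ∧ P = pderiv i S.G} ∪ {X i₀})) : KeyHyp S.d S.FK := by
  classical
  refine key_pdat S hS fun nab hG => ?_
  obtain ⟨r, g, w, hO, hV⟩ := inf_morse S hS i₀ hH hG0 hG
  refine ⟨S.d, r, g, w, fun e => e i₀ + 1, hO, fun e he => hV e he, fun e he => ?_,
    fun u v hu huv h => ?_⟩
  · show 1 ≤ e i₀ + 1
    omega
  · obtain ⟨i, c, hc⟩ := h
    show S.d < u i₀ + 1 + (v i₀ + 1)
    have h1 : S.d ≤ (u + v) i₀ + 1 := by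
      by_contra h2
      push Not at h2
      rw [mem_support_iff] at hc
      apply hc
      rw [hH, pderiv_pow, pderiv_X, Pi.single_apply]
      split_ifs with h3
      · have h4 : (monomial c (1 : κ)) * (((S.d : ℕ) : MvPolynomial (Fin N) κ) * X i₀ ^ (S.d - 1) * 1) =
            C ((S.d : ℕ) : κ) * (monomial c 1 * X i₀ ^ (S.d - 1)) := by
          rw [map_natCast]
          ring
        rw [h4, coeff_C_mul, X_pow_eq_monomial, monomial_mul, coeff_monomial, if_neg, mul_zero]
        intro h5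
        have h6 := congrArg (fun f => f i₀) h5
        simp only [Finsupp.add_apply, Finsupp.single_eq_same] at h6
        rw [Finsupp.add_apply] at h2
        omega
      · rw [mul_zero, mul_zero, coeff_zero]
    rw [Finsupp.add_apply] at h1
    omega

end

end MPadcLZ
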