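import Pool.Agent.Lib.MP_adc574_ag_LZ.LatB

/-!
# Part VI, file B: Taylor formula mod squares, determinant trick, left inverse of the Hessian

* `taylor_sq` (GeoBa): induction on `P` (`MvPolynomial.induction_on`): constants: 0; sums: clear; `P * X j`: with `P(a+b) = P(a) + ∑ P_k(a) b_k + r`, `r ∈ I ^ 2`: `P(a+b) (a_j + b_j) - P(a) a_j - ∑_k (P_k(a) a_j + P(a) δ_jk) b_k
  = (∑ P_k(a) b_k) b_j + r (a_j + b_j)`, in `I ^ 2`. (`pderiv k (P * X j) = pderiv k P * X j + P * δ`, `pderiv_mul`, `pderiv_X`.)
* `aeval_hom` (GeoBa): for `P` with all monomials of degree `m`: `P (L c) = L ^ m P(c)`: `P = ∑_(e ∈ support) monomial e (coeff e P)`, `aeval_monomial`, `∏ (L c_i) ^ e_i = L ^ (dg e) ∏ c_i ^ e_i`.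
* `det_trick` (GeoBb): `I ^ 2 = I * I`; an element of `J ⊔ I ^ 2` with `I = span (range g)` is `j + ∑_k c_k g_k`, `j ∈ J`, `c_k ∈ I`: (`Submodule.mem_sup`, and `Submodule.mem_ideal_smul_span_iff_exists_sum` or `Ideal.mem_span_range_iff_exists_fun`, or induction). So `a g_i = j_i + ∑ c_ik g_k`;
  `Mx = a • 1 - c` (a matrix over `ι`), `Mx.mulVec g = j`; `det Mx • g = adjugate Mx * Mx * g = (adjugate Mx).mulVec j`, all entries in `J`. `b = det Mx`. Modulo `I` the matrix is `a • 1`: `RingHom.map_det` with `Ideal.Quotient.mk I`, `Matrix.det_smul`, `det_one`: `b - a ^ (card ι) ∈ I`.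
* `hess_inv` (GeoBb): linear algebra over a field: `f = A.mulVecLin`, `ker f ≤ span {σ}`. Choose a complement `W` of `ker f` (`Submodule.exists_isCompl`), or: `f.quotKerEquivRange` / `LinearMap.exists_leftInverse_of_injective` for the injective map `(V / ker f) → V`; get `g : V →ₗ V` with `f (g (f v)) = f v` for all `v`
  (for example `g` = a left inverse of the injective map `V / ker → V` followed by a section of `V → V / ker`). Then `v - g (f v) ∈ ker f`, so it is `c • σ`. For each basis vector `e_k` choose `lam k` with `e_k - g (f e_k) = lam k • σ`; `B = LinearMap.toMatrix' g`; then `1 - B * A = vecMulVec σ lam` columnwise.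
-/

set_option autoImplicit false

namespace MPadcLZ

open MvPolynomial MPadcHM

universe u

theorem taylor_sq {R A : Type*} [CommRing R] [CommRing A] [Algebra R A] {N : ℕ} (I : Ideal A)
    (a b : Fin N → A) (hb : ∀ k, b k ∈ I) (P : MvPolynomial (Fin N) R) :
    aeval (fun k => a k + b k) P - aeval a P - ∑ k, aeval a (pderiv k P) * b k ∈ I ^ 2 := by
  classical
  induction P using MvPolynomial.induction_on with
  | C r =>
    simp
  | add P Q hP hQ =>
    have h1 : aeval (fun k => a k + b k) (P + Q) - aeval a (P + Q) -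
        ∑ k, aeval a (pderiv k (P + Q)) * b k =
        (aeval (fun k => a k + b k) P - aeval a P - ∑ k, aeval a (pderiv k P) * b k) +
        (aeval (fun k => a k + b k) Q - aeval a Q - ∑ k, aeval a (pderiv k Q) * b k) := by
      have h2 : ∑ k, aeval a (pderiv k (P + Q)) * b k =
          ∑ k, aeval a (pderiv k P) * b k + ∑ k, aeval a (pderiv k Q) * b k := by
        rw [← Finset.sum_add_distrib]
        refine Finset.sum_congr rfl fun k _ => ?_
        rw [map_add, map_add, add_mul]
      rw [h2, map_add, map_add]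
      ring
    rw [h1]
    exact Ideal.add_mem _ hP hQ
  | mul_X P j hP =>
    have h2 : ∑ k, aeval a (pderiv k (P * X j)) * b k =
        (∑ k, aeval a (pderiv k P) * b k) * a j + aeval a P * b j := by
      have h3 : ∀ k, aeval a (pderiv k (P * X j)) * b k =
          aeval a (pderiv k P) * b k * a j + (if k = j then aeval a P * b k else 0) := by
        intro k
        rw [pderiv_mul, map_add, map_mul, map_mul, aeval_X, pderiv_X]
        by_cases hk : k = j
        · rw [if_pos hk, hk, Pi.single_eq_same, map_one]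
          ring
        · rw [if_neg hk, Pi.single_eq_of_ne (fun h => hk h.symm), map_zero]
          ring
      rw [Finset.sum_congr rfl fun k _ => h3 k, Finset.sum_add_distrib, Finset.sum_mul,
        Finset.sum_ite_eq' Finset.univ j, if_pos (Finset.mem_univ j)]
    have h4 : aeval (fun k => a k + b k) (P * X j) - aeval a (P * X j) -
        ∑ k, aeval a (pderiv k (P * X j)) * b k =
        (∑ k, aeval a (pderiv k P) * b k) * b j +
        (aeval (fun k => a k + b k) P - aeval a P - ∑ k, aeval a (pderiv k P) * b k) *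
          (a j + b j) := by
      rw [h2, map_mul, map_mul, aeval_X, aeval_X]
      ring
    rw [h4]
    refine Ideal.add_mem _ ?_ (Ideal.mul_mem_right _ _ hP)
    rw [pow_two]
    refine Ideal.mul_mem_mul ?_ (hb j)
    exact Ideal.sum_mem _ fun k _ => Ideal.mul_mem_left _ _ (hb k)

theorem aeval_hom {R A : Type*} [CommRing R] [CommRing A] [Algebra R A] {N m : ℕ} (L : A)
    (c : Fin N → R) (P : MvPolynomial (Fin N) R) (hP : Hm m P) :
    aeval (fun k => L * algebraMap R A (c k)) P = L ^ m * algebraMap R A (eval c P) := by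
  rw [aeval_def, eval₂_eq', eval_eq', map_sum, Finset.mul_sum]
  refine Finset.sum_congr rfl fun e he => ?_
  have h1 : dg e = m := hP e he
  have h2 : ∏ i, (L * algebraMap R A (c i)) ^ e i = L ^ m * ∏ i, algebraMap R A (c i) ^ e i := by
    rw [Finset.prod_congr rfl fun i _ => mul_pow L (algebraMap R A (c i)) (e i),
      Finset.prod_mul_distrib, Finset.prod_pow_eq_pow_sum, ← h1]
    rfl
  rw [h2, map_mul, map_prod]
  simp only [map_pow]
  ring

theorem det_trick {A ι : Type*} [CommRing A] [Fintype ι] [DecidableEq ι] (J I : Ideal A)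
    (g : ι → A) (hI : I = Ideal.span (Set.range g)) (a : A) (h : ∀ i, a * g i ∈ J ⊔ I ^ 2) :
    ∃ b : A, b - a ^ Fintype.card ι ∈ I ∧ ∀ x ∈ I, b * x ∈ J := by
  classical
  have h1 : ∀ i, ∃ (j : A) (c : ι → A), j ∈ J ∧ (∀ k, c k ∈ I) ∧ a * g i - ∑ k, c k * g k = j := by
    intro i
    obtain ⟨j, hj, s, hs, hjs⟩ := Submodule.mem_sup.1 (h i)
    have h2 : s ∈ I • Submodule.span A (Set.range g) := by
      rw [pow_two] at hs
      have h3 : Submodule.span A (Set.range g) = I := hI.symm
      rw [h3]
      exact hs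
    obtain ⟨c, hc, hcs⟩ := (Submodule.mem_ideal_smul_span_iff_exists_sum I g s).1 h2
    refine ⟨j, fun k => c k, hj, hc, ?_⟩
    have h4 : ∑ k, c k * g k = s := by
      rw [← hcs, Finsupp.sum_fintype _ _ (fun k => by rw [zero_smul])]
      exact Finset.sum_congr rfl fun k _ => rfl
    rw [h4, ← hjs]
    ring
  choose j c hj hc hjc using h1
  obtain ⟨M, hM⟩ : ∃ M : Matrix ι ι A, M = a • (1 : Matrix ι ι A) - Matrix.of c := ⟨_, rfl⟩
  have hMg : M.mulVec g = j := by
    funext i
    rw [hM, Matrix.sub_mulVec, Matrix.smul_mulVec, Matrix.one_mulVec, ← hjc i]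
    rfl
  refine ⟨M.det, ?_, ?_⟩
  · rw [← Ideal.Quotient.eq_zero_iff_mem, map_sub, sub_eq_zero, RingHom.map_det, map_pow]
    have h2 : (Ideal.Quotient.mk I).mapMatrix M =
        (Ideal.Quotient.mk I a) • (1 : Matrix ι ι (A ⧸ I)) := by
      ext i k
      rw [RingHom.mapMatrix_apply, Matrix.map_apply, hM, Matrix.sub_apply, Matrix.smul_apply,
        Matrix.smul_apply, map_sub, Matrix.of_apply, Ideal.Quotient.eq_zero_iff_mem.2 (hc i k),
        sub_zero, smul_eq_mul, smul_eq_mul, map_mul]
      by_cases hik : i = k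
      · rw [hik, Matrix.one_apply_eq, Matrix.one_apply_eq, map_one]
      · rw [Matrix.one_apply_ne hik, Matrix.one_apply_ne hik, map_zero]
    rw [h2, Matrix.det_smul, Matrix.det_one, mul_one]
  · have hg : ∀ i, M.det * g i ∈ J := by
      intro i
      have h2 : M.det • g = M.adjugate.mulVec j := by
        rw [← hMg, Matrix.mulVec_mulVec, Matrix.adjugate_mul, Matrix.smul_mulVec, Matrix.one_mulVec]
      have h3 : M.det * g i = ∑ k, M.adjugate i k * j k := congrFun h2 i
      rw [h3]
      exact Ideal.sum_mem _ fun k _ => Ideal.mul_mem_left _ _ (hj k)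
    intro x hx
    rw [hI] at hx
    induction hx using Submodule.span_induction with
    | mem x hx =>
      obtain ⟨i, rfl⟩ := hx
      exact hg i
    | zero => rw [mul_zero]; exact J.zero_mem
    | add x y _ _ hx hy => rw [mul_add]; exact J.add_mem hx hy
    | smul r x _ hx =>
      rw [smul_eq_mul, mul_left_comm]
      exact J.mul_mem_left r hx

theorem hess_inv {κ : Type*} [Field κ] {N : ℕ} (A : Matrix (Fin N) (Fin N) κ) (σ : Fin N → κ)
    (h : ∀ v : Fin N → κ, A.mulVec v = 0 → ∃ c : κ, v = c • σ) :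
    ∃ (B : Matrix (Fin N) (Fin N) κ) (lam : Fin N → κ), B * A = 1 - Matrix.vecMulVec σ lam := by
  obtain ⟨f, hf⟩ : ∃ f : (Fin N → κ) →ₗ[κ] (Fin N → κ), f = A.mulVecLin := ⟨_, rfl⟩
  have hfv : ∀ v, f v = A.mulVec v := fun v => by rw [hf]; rfl
  obtain ⟨g₀, hg₀⟩ := f.rangeRestrict.exists_rightInverse_of_surjective f.range_rangeRestrict
  obtain ⟨g, hg⟩ := LinearMap.exists_extend g₀
  have hfgf : ∀ v, f (g (f v)) = f v := by
    intro v
    have h1 : g (f v) = g₀ (f.rangeRestrict v) := by
      rw [← hg]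
      rfl
    have h2 := congrArg Subtype.val (LinearMap.congr_fun hg₀ (f.rangeRestrict v))
    rw [h1]
    exact h2
  have hker : ∀ v, ∃ c : κ, v - g (f v) = c • σ := by
    intro v
    refine h _ ?_
    rw [← hfv, map_sub, hfgf, sub_self]
  choose lam hlam using fun k : Fin N => hker (Pi.single k 1)
  refine ⟨LinearMap.toMatrix' g, lam, ?_⟩
  refine Matrix.ext_of_mulVec_single fun k => ?_
  have h1 : ∀ x, (LinearMap.toMatrix' g).mulVec x = g x := by
    intro x
    rw [← Matrix.toLin'_apply, Matrix.toLin'_toMatrix']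
  rw [← Matrix.mulVec_mulVec, h1, ← hfv, Matrix.sub_mulVec, Matrix.one_mulVec]
  have h2 : (Matrix.vecMulVec σ lam).mulVec (Pi.single k 1) = lam k • σ := by
    funext i
    rw [Matrix.mulVec_single_one, Pi.smul_apply, smul_eq_mul, mul_comm]
    rfl
  rw [h2, ← hlam k]
  abel

end MPadcLZ
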