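import Pool.Agent.Lib.MP_adc574_ag_LZ.SerA

/-!
# JOB SerB: the product of the inverses of commuting operators `f_i - z p_i`

* `Cz.pair`: `tz_comm` and `comm_jz` twice.
* `Gz H` is the product of the commuting operators `Jz (f i) (p i)` (`Finset.noncommProd`), `Gzi H i` the product over `j ≠ i`. `gz_eq`: `Finset.mul_noncommProd_erase`.
  `comm_gz`: `Finset.noncommProd_commute` and `comm_jz`. `gz_tz`, `tz_gz`: `gz_eq`, `tz_jz`, `Tz i` commutes with `Gz H` (`comm_gz`, `tz_comm`). `gz_stable`, `gzi_stable`: `Finset.noncommProd_induction` for the property `X maps R-valued sequences to R-valued sequences`.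
* `gz_zero`: the coefficient `0` of `Gz G` is `(∏ f i)⁻¹ * G 0`: for every finset `s` the coefficient 0 of `noncommProd s` applied to `G` is `(∏ i ∈ s, f i)⁻¹ * G 0`, `Finset.induction_on` with `Finset.noncommProd_insert_of_notMem`.
* `gs m x` is the coefficient `m` of `Gz (x, 0, 0, …)`. `gs_shift`, `gs_shift0`: `Gz` commutes with the shift `shz` (`comm_gz`, `shz_comm`), `shz (single 0 x) = single 1 x`.
  `gs_relL`: `Tz (f i) (p i) (single 0 x) = single 0 (f i * x) - single 1 (p i x)` and `Gz * Tz i = Gzi i`, `gzi_stable`. `gs_relR`: `Tz i * Gz = Gzi i`, coefficient `m + 1` (`0`).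
  `gs_nab`: `Tz phi D` commutes with all `Tz (f i) (p i)` (`tz_comm`), so with `Gz`; `Tz phi D (single 0 x) = single 0 (phi * x) - single 1 (D x)`; compare the coefficients `m + 1` and `0`.
  `gs_mul`: multiplication with a constant `c` (`p i c = 0`) commutes with `Tz (f i) (p i)` (`muz_comm`).
-/

set_option autoImplicit false

namespace MPadcLZ

variable {E : Type*} [Field E]

section family

variable {n : ℕ}

/-- Compatible families. -/
structure Cz (f : Fin n → E) (p : Fin n → E →+ E) : Prop where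
  ne : ∀ i, f i ≠ 0
  lz : ∀ i, Lz (p i)
  sym : ∀ i j, p i (f j) = p j (f i)
  comm : ∀ i j x, p i (p j x) = p j (p i x)

variable {f : Fin n → E} {p : Fin n → E →+ E}

theorem Cz.pair (H : Cz f p) (s : Set (Fin n)) :
    s.Pairwise (Function.onFun Commute fun i => Jz (f i) (p i)) := by
  intro i _ j _ _
  have h1 := tz_comm (H.lz i) (H.lz j) (H.sym i j) (H.comm i j)
  exact (comm_jz (H.ne i) (comm_jz (H.ne j) h1).symm).symm

private theorem serb_tt (H : Cz f p) (i j : Fin n) :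
    Commute (Tz (f i) (p i)) (Tz (f j) (p j)) :=
  tz_comm (H.lz i) (H.lz j) (H.sym i j) (H.comm i j)

private theorem serb_single (x : E) (R : AddSubgroup E) (hx : x ∈ R) (m : ℕ) :
    (Pi.single 0 x : ℕ → E) m ∈ R := by
  cases m with
  | zero => rw [Pi.single_eq_same]; exact hx
  | succ m =>
    rw [Pi.single_eq_of_ne (Nat.succ_ne_zero m)]
    exact R.zero_mem

private theorem serb_shz (x : E) : shz (Pi.single 0 x : ℕ → E) = Pi.single 1 x := by
  funext m
  rcases m with _ | _ | m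
  · change (0 : E) = (Pi.single 1 x : ℕ → E) 0
    rw [Pi.single_eq_of_ne (by omega)]
  · change (Pi.single 0 x : ℕ → E) 0 = (Pi.single 1 x : ℕ → E) (0 + 1)
    rw [Pi.single_eq_same, zero_add, Pi.single_eq_same]
  · change (Pi.single 0 x : ℕ → E) (m + 1) = (Pi.single 1 x : ℕ → E) (m + 1 + 1)
    rw [Pi.single_eq_of_ne (by omega), Pi.single_eq_of_ne (by omega)]

private theorem serb_muz (c x : E) : muz c (Pi.single 0 x : ℕ → E) = Pi.single 0 (c * x) := by
  funext m
  change c * (Pi.single 0 x : ℕ → E) m = _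
  cases m with
  | zero => rw [Pi.single_eq_same, Pi.single_eq_same]
  | succ m => rw [Pi.single_eq_of_ne (by omega), Pi.single_eq_of_ne (by omega), mul_zero]

private theorem serb_tz (g : E) (q : E →+ E) (x : E) :
    Tz g q (Pi.single 0 x : ℕ → E) = Pi.single 0 (g * x) - Pi.single 1 (q x) := by
  funext m
  rw [Pi.sub_apply]
  rcases m with _ | _ | m
  · rw [tz_zero, Pi.single_eq_same, Pi.single_eq_same, Pi.single_eq_of_ne (by omega), sub_zero]
  · rw [tz_succ, Pi.single_eq_same, Pi.single_eq_of_ne (by omega),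
      Pi.single_eq_of_ne (by omega), zero_add, Pi.single_eq_same, mul_zero]
  · rw [tz_succ, Pi.single_eq_of_ne (by omega), Pi.single_eq_of_ne (by omega),
      Pi.single_eq_of_ne (by omega), Pi.single_eq_of_ne (by omega), map_zero, mul_zero]

/-- The product of all inverses. -/
noncomputable def Gz (H : Cz f p) : AddMonoid.End (ℕ → E) :=
  Finset.univ.noncommProd (fun i => Jz (f i) (p i)) (H.pair _)

/-- The product of the inverses for `j ≠ i`. -/
noncomputable def Gzi (H : Cz f p) (i : Fin n) : AddMonoid.End (ℕ → E) :=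
  (Finset.univ.erase i).noncommProd (fun i => Jz (f i) (p i)) (H.pair _)

theorem gz_eq (H : Cz f p) (i : Fin n) : Gz H = Jz (f i) (p i) * Gzi H i :=
  (Finset.mul_noncommProd_erase Finset.univ (Finset.mem_univ i)
    (fun i => Jz (f i) (p i)) (H.pair _) (H.pair _)).symm

theorem comm_gz (H : Cz f p) {X : AddMonoid.End (ℕ → E)} (h : ∀ i, Commute X (Tz (f i) (p i))) :
    Commute X (Gz H) :=
  Finset.noncommProd_commute _ _ _ X fun i _ => comm_jz (H.ne i) (h i)

private theorem serb_apply {X : AddMonoid.End (ℕ → E)} (H : Cz f p)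
    (h : ∀ i, Commute X (Tz (f i) (p i))) (G : ℕ → E) : Gz H (X G) = X (Gz H G) := by
  have h1 := (comm_gz H h).eq
  have h2 : (X * Gz H) G = (Gz H * X) G := by rw [h1]
  exact h2.symm

theorem gz_tz (H : Cz f p) (i : Fin n) : Gz H * Tz (f i) (p i) = Gzi H i := by
  have h1 : Commute (Tz (f i) (p i)) (Gz H) := comm_gz H fun j => serb_tt H i j
  rw [← h1.eq, gz_eq H i, ← mul_assoc, tz_jz (H.ne i), one_mul]

theorem tz_gz (H : Cz f p) (i : Fin n) : Tz (f i) (p i) * Gz H = Gzi H i := by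
  rw [gz_eq H i, ← mul_assoc, tz_jz (H.ne i), one_mul]

theorem gz_stable (H : Cz f p) (R : AddSubgroup E) (h1 : ∀ i, ∀ x ∈ R, (f i)⁻¹ * x ∈ R)
    (h2 : ∀ i, ∀ x ∈ R, p i x ∈ R) (G : ℕ → E) (hG : ∀ m, G m ∈ R) (m : ℕ) : Gz H G m ∈ R := by
  have key : ∀ G : ℕ → E, (∀ m, G m ∈ R) → ∀ m, Gz H G m ∈ R := by
    refine Finset.noncommProd_induction Finset.univ (fun i => Jz (f i) (p i)) (H.pair _)
      (fun X : AddMonoid.End (ℕ → E) => ∀ G : ℕ → E, (∀ m, G m ∈ R) → ∀ m, X G m ∈ R) ?_ ?_ ?_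
    · intro X Y hX hY G hG m
      exact hX (Y G) (hY G hG) m
    · intro G hG m
      exact hG m
    · intro i _ G hG m
      exact jz_stable (f i) (p i) R (h1 i) (h2 i) G hG m
  exact key G hG m

theorem gzi_stable (H : Cz f p) (i : Fin n) (R : AddSubgroup E)
    (h1 : ∀ j, j ≠ i → ∀ x ∈ R, (f j)⁻¹ * x ∈ R) (h2 : ∀ j, j ≠ i → ∀ x ∈ R, p j x ∈ R)
    (G : ℕ → E) (hG : ∀ m, G m ∈ R) (m : ℕ) : Gzi H i G m ∈ R := by
  have key : ∀ G : ℕ → E, (∀ m, G m ∈ R) → ∀ m, Gzi H i G m ∈ R := by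
    refine Finset.noncommProd_induction (Finset.univ.erase i) (fun i => Jz (f i) (p i))
      (H.pair _)
      (fun X : AddMonoid.End (ℕ → E) => ∀ G : ℕ → E, (∀ m, G m ∈ R) → ∀ m, X G m ∈ R) ?_ ?_ ?_
    · intro X Y hX hY G hG m
      exact hX (Y G) (hY G hG) m
    · intro G hG m
      exact hG m
    · intro j hj G hG m
      have hji := Finset.ne_of_mem_erase hj
      exact jz_stable (f j) (p j) R (h1 j hji) (h2 j hji) G hG m
  exact key G hG m

theorem gz_zero (H : Cz f p) (G : ℕ → E) : Gz H G 0 = (∏ i, f i)⁻¹ * G 0 := by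
  have key : ∀ s : Finset (Fin n),
      (s.noncommProd (fun i => Jz (f i) (p i)) (H.pair _)) G 0 = (∏ i ∈ s, f i)⁻¹ * G 0 := by
    intro s
    induction s using Finset.induction_on with
    | empty =>
      rw [Finset.noncommProd_empty, Finset.prod_empty, inv_one, one_mul]
      rfl
    | insert a s ha ih =>
      rw [Finset.noncommProd_insert_of_notMem _ _ _ _ ha, Finset.prod_insert ha]
      change (f a)⁻¹ * (s.noncommProd (fun i => Jz (f i) (p i)) (H.pair _)) G 0 = _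
      rw [ih, mul_inv, mul_assoc]
  exact key Finset.univ

/-- The coefficients of the solution. -/
noncomputable def gs (H : Cz f p) (m : ℕ) : E →+ E where
  toFun x := Gz H (Pi.single 0 x) m
  map_zero' := by simp
  map_add' x y := by
    rw [Pi.single_add, map_add]
    rfl

theorem gs_apply (H : Cz f p) (m : ℕ) (x : E) : gs H m x = Gz H (Pi.single 0 x) m := rfl

theorem gs_shift (H : Cz f p) (m : ℕ) (x : E) : Gz H (Pi.single 1 x) (m + 1) = gs H m x := by
  rw [← serb_shz, serb_apply H (fun i => shz_comm (f i) (p i))]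
  rfl

theorem gs_shift0 (H : Cz f p) (x : E) : Gz H (Pi.single 1 x) 0 = 0 := by
  rw [← serb_shz, serb_apply H (fun i => shz_comm (f i) (p i))]
  rfl

theorem gs_zero (H : Cz f p) (x : E) : gs H 0 x = (∏ i, f i)⁻¹ * x := by
  rw [gs_apply, gz_zero, Pi.single_eq_same]

theorem gs_mem (H : Cz f p) (R : AddSubgroup E) (h1 : ∀ i, ∀ x ∈ R, (f i)⁻¹ * x ∈ R)
    (h2 : ∀ i, ∀ x ∈ R, p i x ∈ R) (x : E) (hx : x ∈ R) (m : ℕ) : gs H m x ∈ R := by
  rw [gs_apply]
  exact gz_stable H R h1 h2 _ (serb_single x R hx) m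

theorem gs_mul (H : Cz f p) (c : E) (hc : ∀ i, p i c = 0) (m : ℕ) (x : E) :
    gs H m (c * x) = c * gs H m x := by
  rw [gs_apply, ← serb_muz, serb_apply H (fun i => muz_comm (f i) (H.lz i) (hc i))]
  rfl

theorem gs_relL (H : Cz f p) (i : Fin n) (R : AddSubgroup E)
    (h1 : ∀ j, j ≠ i → ∀ x ∈ R, (f j)⁻¹ * x ∈ R) (h2 : ∀ j, j ≠ i → ∀ x ∈ R, p j x ∈ R)
    (x : E) (hx : x ∈ R) (m : ℕ) : gs H (m + 1) (f i * x) - gs H m (p i x) ∈ R := by
  have e1 : gs H (m + 1) (f i * x) - gs H m (p i x) = Gzi H i (Pi.single 0 x) (m + 1) := by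
    rw [← gz_tz H i]
    change _ = Gz H (Tz (f i) (p i) (Pi.single 0 x)) (m + 1)
    rw [serb_tz, map_sub, Pi.sub_apply, gs_shift]
    rfl
  rw [e1]
  exact gzi_stable H i R h1 h2 _ (serb_single x R hx) _

theorem gs_relL0 (H : Cz f p) (i : Fin n) (R : AddSubgroup E)
    (h1 : ∀ j, j ≠ i → ∀ x ∈ R, (f j)⁻¹ * x ∈ R) (h2 : ∀ j, j ≠ i → ∀ x ∈ R, p j x ∈ R)
    (x : E) (hx : x ∈ R) : gs H 0 (f i * x) ∈ R := by
  have e1 : gs H 0 (f i * x) = Gzi H i (Pi.single 0 x) 0 := by
    rw [← gz_tz H i]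
    change _ = Gz H (Tz (f i) (p i) (Pi.single 0 x)) 0
    rw [serb_tz, map_sub, Pi.sub_apply, gs_shift0, sub_zero]
    rfl
  rw [e1]
  exact gzi_stable H i R h1 h2 _ (serb_single x R hx) _

theorem gs_relR (H : Cz f p) (i : Fin n) (R : AddSubgroup E)
    (h1 : ∀ j, j ≠ i → ∀ x ∈ R, (f j)⁻¹ * x ∈ R) (h2 : ∀ j, j ≠ i → ∀ x ∈ R, p j x ∈ R)
    (x : E) (hx : x ∈ R) (m : ℕ) : f i * gs H (m + 1) x - p i (gs H m x) ∈ R := by
  have e1 : f i * gs H (m + 1) x - p i (gs H m x) = Gzi H i (Pi.single 0 x) (m + 1) := by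
    rw [← tz_gz H i]
    rfl
  rw [e1]
  exact gzi_stable H i R h1 h2 _ (serb_single x R hx) _

theorem gs_relR0 (H : Cz f p) (i : Fin n) (R : AddSubgroup E)
    (h1 : ∀ j, j ≠ i → ∀ x ∈ R, (f j)⁻¹ * x ∈ R) (h2 : ∀ j, j ≠ i → ∀ x ∈ R, p j x ∈ R)
    (x : E) (hx : x ∈ R) : f i * gs H 0 x ∈ R := by
  have e1 : f i * gs H 0 x = Gzi H i (Pi.single 0 x) 0 := by
    rw [← tz_gz H i]
    rfl
  rw [e1]
  exact gzi_stable H i R h1 h2 _ (serb_single x R hx) _

/-- The connection. -/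
theorem gs_nab (H : Cz f p) (phi : E) (D : E →+ E) (hD : Lz D)
    (h1 : ∀ i, D (f i) = p i phi) (h2 : ∀ i x, D (p i x) = p i (D x)) (m : ℕ) (x : E) :
    D (gs H m x) - phi * gs H (m + 1) x = gs H m (D x) - gs H (m + 1) (phi * x) := by
  have e1 := serb_apply H (fun i => tz_comm hD (H.lz i) (h1 i) (h2 i)) (Pi.single 0 x)
  rw [serb_tz, map_sub] at e1
  have e2 := congrFun e1 (m + 1)
  rw [Pi.sub_apply, gs_shift, tz_succ, ← gs_apply, ← gs_apply, ← gs_apply] at e2
  linear_combination e2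

theorem gs_nab0 (H : Cz f p) (phi : E) (D : E →+ E) (hD : Lz D)
    (h1 : ∀ i, D (f i) = p i phi) (h2 : ∀ i x, D (p i x) = p i (D x)) (x : E) : phi * gs H 0 x = gs H 0 (phi * x) := by
  have e1 := serb_apply H (fun i => tz_comm hD (H.lz i) (h1 i) (h2 i)) (Pi.single 0 x)
  rw [serb_tz, map_sub] at e1
  have e2 := congrFun e1 0
  rw [Pi.sub_apply, gs_shift0, tz_zero, ← gs_apply, ← gs_apply, sub_zero] at e2
  exact e2.symm

end family

end MPadcLZ
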