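import Pool.Agent.Lib.MP_adc574_ag_LZ.LocR
import Pool.Agent.Lib.MP_adc574_ag_LZ.SerB

/-!
# JOB BetA: the higher residue pairings `β_m`

`gr F i = ∂_i F`. `β_m (P, Q) = resF (Q * g_m(P))` for `m ≥ 0`, `g_m = gs` (SerB) for the family `f i = ∂_i F`, `p i = dxa K i` of `K(x)`, and `β_m = 0` for `m < 0` (`m : ℤ`).
* `RegF.ne`: if `h_i = 0` then `h_i * 1 = 0`, `nzd` gives `1 ∈ span (h '' {s | s ≠ i}) ≤ span (range X)` (`mem_X`), apply `constantCoeff`/`coeff 0`.
* `RegF.cz`: `dx_alg`, `pderiv` commute (on monomials, or `MvPolynomial.pderiv`-API), `dx_comm`, `Lz`: `Derivation.leibniz`.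
* `gsR`: `gs_mem` for `RR (gr F)` (`inR_mul`, `inR_inv`, `inR_dx`).
* `bet0_*`: `resF_add`, `resF_mulC`, `gs` additive, `gs_mul` for `c = algebraMap (C c)` (`dx K i` kills it), `inR_mul`, `inR_alg`.
-/

set_option autoImplicit false

namespace MPadcLZ

open MvPolynomial MPadcHM

universe u

variable {K : Type u} [Field K] {N : ℕ}

/-- The gradient. -/
noncomputable def gr (F : MvPolynomial (Fin N) K) : Fin N → MvPolynomial (Fin N) K :=
  fun i => pderiv i F

/-- `F` is smooth of degree `e + 1`. -/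
structure RegF (e : ℕ) (F : MvPolynomial (Fin N) K) : Prop where
  sop : Sop (gr F)
  hom : ∀ j, Hm e (gr F j)
  he : 1 ≤ e

private theorem beta_coeff {e : ℕ} {F : MvPolynomial (Fin N) K} (H : RegF e F) (j : Fin N) :
    constantCoeff (gr F j) = 0 := by
  by_contra hne
  have h1 : (0 : Fin N →₀ ℕ) ∈ (gr F j).support := by
    rw [mem_support_iff]
    exact hne
  have h2 := H.hom j 0 h1
  have h3 : dg (0 : Fin N →₀ ℕ) = 0 := by
    unfold dg
    simp
  have h4 := H.he
  omega

theorem RegF.ne {e : ℕ} {F : MvPolynomial (Fin N) K} (H : RegF e F) (i : Fin N) : gr F i ≠ 0 := by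
  intro h0
  have h1 : (1 : MvPolynomial (Fin N) K) ∈ Ideal.span (gr F '' {s | s ≠ i}) := by
    apply nzd H.sop i 1
    rw [h0, zero_mul]
    exact Ideal.zero_mem _
  have h2 : Ideal.span (gr F '' {s | s ≠ i}) ≤
      RingHom.ker (constantCoeff : MvPolynomial (Fin N) K →+* K) := by
    rw [Ideal.span_le]
    rintro _ ⟨j, -, rfl⟩
    exact beta_coeff H j
  have h3 := h2 h1
  rw [RingHom.mem_ker, map_one] at h3
  exact one_ne_zero h3

private theorem beta_comm (i j : Fin N) (P : MvPolynomial (Fin N) K) :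
    pderiv i (pderiv j P) = pderiv j (pderiv i P) := by
  have h1 : ⁅(pderiv i : Derivation K (MvPolynomial (Fin N) K) (MvPolynomial (Fin N) K)),
      (pderiv j : Derivation K (MvPolynomial (Fin N) K) (MvPolynomial (Fin N) K))⁆ = 0 := by
    apply MvPolynomial.derivation_ext
    intro k
    rw [Derivation.commutator_apply, pderiv_X, pderiv_X, Derivation.zero_apply]
    by_cases hj : j = k
    · subst hj
      by_cases hi : i = j
      · subst hi
        simp
      · simp [Pi.single_apply, hi, Ne.symm hi]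
    · by_cases hi : i = k
      · subst hi
        simp [Pi.single_apply, hj, Ne.symm hj]
      · simp [Pi.single_apply, hi, hj, Ne.symm hi, Ne.symm hj]
  have h2 := congrArg (fun D : Derivation K (MvPolynomial (Fin N) K) (MvPolynomial (Fin N) K) => D P) h1
  have h3 : pderiv i (pderiv j P) - pderiv j (pderiv i P) = 0 := h2
  exact sub_eq_zero.1 h3

/-- `∂ / ∂ x_i` as an additive map. -/
noncomputable def dxa (K : Type u) [Field K] {N : ℕ} (i : Fin N) : FF K N →+ FF K N :=
  (dx K i).toLinearMap.toAddMonoidHom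

theorem dxa_apply (i : Fin N) (x : FF K N) : dxa K i x = dx K i x := rfl

theorem RegF.cz {e : ℕ} {F : MvPolynomial (Fin N) K} (H : RegF e F) :
    Cz (fun i => algebraMap (MvPolynomial (Fin N) K) (FF K N) (gr F i)) (fun i => dxa K i) := by
  refine ⟨?_, ?_, ?_, ?_⟩
  · intro i h
    apply H.ne i
    apply IsFractionRing.injective (MvPolynomial (Fin N) K) (FF K N)
    rw [map_zero]
    exact h
  · intro i a b
    rw [dxa_apply, Derivation.leibniz, smul_eq_mul, smul_eq_mul]
    rfl
  · intro i j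
    change dx K i (algebraMap _ (FF K N) (gr F j)) = dx K j (algebraMap _ (FF K N) (gr F i))
    rw [dx_alg, dx_alg]
    unfold gr
    rw [beta_comm]
  · intro i j x
    exact dx_comm i j x

/-- `K[x][1 / ∏ h_i]`. -/
def RR (h : Fin N → MvPolynomial (Fin N) K) : AddSubgroup (FF K N) where
  carrier := {g | InR h g}
  zero_mem' := by
    simpa using inR_alg (h := h) 0
  add_mem' := inR_add
  neg_mem' := by
    rintro g ⟨m, P, hP⟩
    exact ⟨m, -P, by rw [neg_mul, hP, map_neg]⟩

/-- `K[x][1 / ∏_{i ≠ j} h_i]`. -/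
def RRj (h : Fin N → MvPolynomial (Fin N) K) (j : Fin N) : AddSubgroup (FF K N) where
  carrier := {g | InRj h j g}
  zero_mem' := by
    simpa using inRj_alg (h := h) j 0
  add_mem' := inRj_add
  neg_mem' := by
    rintro g ⟨m, P, hP⟩
    exact ⟨m, -P, by rw [neg_mul, hP, map_neg]⟩

private theorem beta_const (c : K) (i : Fin N) :
    dxa K i (algebraMap (MvPolynomial (Fin N) K) (FF K N) (C c)) = 0 := by
  rw [dxa_apply, dx_alg, pderiv_C, map_zero]

section

variable {e : ℕ} {F : MvPolynomial (Fin N) K} (H : RegF e F)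

theorem gsR (m : ℕ) (g : FF K N) (hg : InR (gr F) g) : InR (gr F) (gs H.cz m g) :=
  gs_mem H.cz (RR (gr F)) (fun i _ hx => inR_mul (inR_inv H.ne i) hx)
    (fun i _ hx => inR_dx hx i) g hg m

/-- The higher residue pairings. -/
noncomputable def bet0 (m : ℤ) (P Q : MvPolynomial (Fin N) K) : K :=
  if 0 ≤ m then
    resF (gr F) (algebraMap _ (FF K N) Q * gs H.cz m.toNat (algebraMap _ (FF K N) P))
  else 0

theorem bet0_addL (m : ℤ) (P P' Q : MvPolynomial (Fin N) K) :
    bet0 H m (P + P') Q = bet0 H m P Q + bet0 H m P' Q := by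
  unfold bet0
  split_ifs with hm
  · rw [map_add, map_add, mul_add]
    exact resF_add H.sop (inR_mul (inR_alg _) (gsR H _ _ (inR_alg _)))
      (inR_mul (inR_alg _) (gsR H _ _ (inR_alg _)))
  · rw [add_zero]

theorem bet0_smulL (m : ℤ) (c : K) (P Q : MvPolynomial (Fin N) K) :
    bet0 H m (c • P) Q = c • bet0 H m P Q := by
  unfold bet0
  split_ifs with hm
  · rw [smul_eq_C_mul, map_mul, gs_mul H.cz _ (beta_const c), mul_left_comm,
      resF_mulC H.sop c (inR_mul (inR_alg _) (gsR H _ _ (inR_alg _))), smul_eq_mul]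
  · rw [smul_zero]

theorem bet0_addR (m : ℤ) (P Q Q' : MvPolynomial (Fin N) K) :
    bet0 H m P (Q + Q') = bet0 H m P Q + bet0 H m P Q' := by
  unfold bet0
  split_ifs with hm
  · rw [map_add, add_mul]
    exact resF_add H.sop (inR_mul (inR_alg _) (gsR H _ _ (inR_alg _)))
      (inR_mul (inR_alg _) (gsR H _ _ (inR_alg _)))
  · rw [add_zero]

theorem bet0_smulR (m : ℤ) (c : K) (P Q : MvPolynomial (Fin N) K) :
    bet0 H m P (c • Q) = c • bet0 H m P Q := by
  unfold bet0
  split_ifs with hm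
  · rw [smul_eq_C_mul, map_mul, mul_assoc,
      resF_mulC H.sop c (inR_mul (inR_alg _) (gsR H _ _ (inR_alg _))), smul_eq_mul]
  · rw [smul_zero]

/-- The higher residue pairings. -/
noncomputable def bet (m : ℤ) :
    MvPolynomial (Fin N) K →ₗ[K] MvPolynomial (Fin N) K →ₗ[K] K :=
  LinearMap.mk₂ K (bet0 H m) (bet0_addL H m) (bet0_smulL H m) (bet0_addR H m) (bet0_smulR H m)

theorem bet_apply (m : ℤ) (P Q : MvPolynomial (Fin N) K) : bet H m P Q = bet0 H m P Q := rfl

end

end MPadcLZ
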