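import Pool.Agent.Lib.MP_adc574_ag_LZ.BetA

/-!
# JOB BetB: properties of the higher residue pairings `β_m`

* `bet_neg`: by definition. `bet_zero`: `gs_zero`, `∏ algebraMap = algebraMap ∏`, `resF_inv`.
* `bet_relL`: for `m + 1 < 0` both are `0`; `m = -1`: `gs_relL0` (`R = RRj (gr F) i`, closed under `(f j)⁻¹ *`, `p j` for `j ≠ i` by `inRj_mul`, `inRj_inv`, `inRj_dx`; `x = algebraMap P`), `resF_inRj` (`Q * g ∈ R_i`: `inRj_mul`, `inRj_alg`);
  `m ≥ 0`: `gs_relL`, so `Q * g_{m+1} (f_i P) - Q * g_m (∂_i P) ∈ R_i`, `resF_sub`.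
* `bet_relR`: `m = -1`: `gs_relR0`. `m ≥ 0`: `f_i g_{m+1}(P) - ∂_i g_m(P) ∈ R_i` (`gs_relR`), so `resF (Q f_i g_{m+1}) = resF (Q ∂_i g_m)`, and `0 = resF (dx i (Q g_m)) = resF (∂_i Q * g_m) + resF (Q * dx i g_m)` (`resF_dx`, Leibniz, `dx_alg`).
* `bet_der`: `m ≥ 0`: `D (resF (Q g_m(P))) = resF (DF D (Q g_m(P)))` (`resF_DF`), Leibniz, `DF_alg`, and `gs_nab` with `phi = algebraMap (cderD D F)`, the additive map of `DF D` (`h1`: `DF_alg`, `dx_alg`, `cderD_pderiv`; `h2`: `DF_dx`):
  `DF g_m(P) = φ g_{m+1}(P) + g_m(DP) - g_{m+1}(φ P)`. `m = -1`: `gs_nab0`. `m < -1`: all terms are `0`.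
-/

set_option autoImplicit false

namespace MPadcLZ

open MvPolynomial MPadcHM

universe u

variable {K : Type u} [Field K] {N : ℕ}

section

variable {e : ℕ} {F : MvPolynomial (Fin N) K} (H : RegF e F)

theorem bet_neg (m : ℤ) (hm : m < 0) (P Q : MvPolynomial (Fin N) K) : bet H m P Q = 0 := by
  rw [bet_apply]
  unfold bet0
  rw [if_neg (by omega)]

private theorem betB_nat (m : ℤ) (P Q : MvPolynomial (Fin N) K) {n : ℕ} (hn : m = n) :
    bet H m P Q = resF (gr F) (algebraMap (MvPolynomial (Fin N) K) (FF K N) Q *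
      gs H.cz n (algebraMap (MvPolynomial (Fin N) K) (FF K N) P)) := by
  subst hn
  rw [bet_apply]
  unfold bet0
  rw [if_pos (by omega), Int.toNat_natCast]

private theorem betB_in (Q : MvPolynomial (Fin N) K) (P : MvPolynomial (Fin N) K) (n : ℕ) :
    InR (gr F) (algebraMap (MvPolynomial (Fin N) K) (FF K N) Q *
      gs H.cz n (algebraMap (MvPolynomial (Fin N) K) (FF K N) P)) :=
  inR_mul (inR_alg Q) (gsR H n _ (inR_alg P))

include H in
private theorem betB_h1 (i : Fin N) : ∀ j, j ≠ i → ∀ x ∈ RRj (gr F) i,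
    (algebraMap (MvPolynomial (Fin N) K) (FF K N) (gr F j))⁻¹ * x ∈ RRj (gr F) i :=
  fun _ hj _ hx => inRj_mul (inRj_inv H.ne hj) hx

private theorem betB_h2 (i : Fin N) : ∀ j, j ≠ i → ∀ x ∈ RRj (gr F) i,
    dxa K j x ∈ RRj (gr F) i :=
  fun j _ _ hx => inRj_dx hx j

theorem bet_zero (P Q : MvPolynomial (Fin N) K) : bet H 0 P Q = resf (gr F) (P * Q) := by
  rw [betB_nat H 0 P Q (by norm_num) (n := 0), gs_zero, ← map_prod]
  have h1 : algebraMap (MvPolynomial (Fin N) K) (FF K N) Q *
      ((algebraMap (MvPolynomial (Fin N) K) (FF K N) (∏ i, gr F i))⁻¹ *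
        algebraMap (MvPolynomial (Fin N) K) (FF K N) P) =
      (algebraMap (MvPolynomial (Fin N) K) (FF K N) (∏ i, gr F i))⁻¹ *
        algebraMap (MvPolynomial (Fin N) K) (FF K N) (P * Q) := by
    rw [map_mul]
    ring
  rw [h1, resF_inv H.sop H.ne]

theorem bet_relL (m : ℤ) (i : Fin N) (P Q : MvPolynomial (Fin N) K) :
    bet H (m + 1) (pderiv i F * P) Q = bet H m (pderiv i P) Q := by
  rcases lt_trichotomy m (-1) with hm | hm | hm
  · rw [bet_neg H _ (by omega), bet_neg H _ (by omega)]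
  · subst hm
    rw [bet_neg H (-1) (by omega), betB_nat H (-1 + 1) _ Q (by norm_num) (n := 0), map_mul]
    have h1 : gs H.cz 0 (algebraMap (MvPolynomial (Fin N) K) (FF K N) (pderiv i F) *
        algebraMap (MvPolynomial (Fin N) K) (FF K N) P) ∈ RRj (gr F) i :=
      gs_relL0 H.cz i (RRj (gr F) i) (betB_h1 H i) (betB_h2 i) _ (inRj_alg i P)
    exact resF_inRj H.sop i (inRj_mul (inRj_alg i Q) h1)
  · obtain ⟨n, rfl⟩ : ∃ n : ℕ, m = n := ⟨m.toNat, by omega⟩
    rw [betB_nat H (n + 1) _ Q (by push_cast; rfl) (n := n + 1), betB_nat H n _ Q rfl]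
    have h1 : gs H.cz (n + 1) (algebraMap (MvPolynomial (Fin N) K) (FF K N) (pderiv i F) *
        algebraMap (MvPolynomial (Fin N) K) (FF K N) P) -
        gs H.cz n (dxa K i (algebraMap (MvPolynomial (Fin N) K) (FF K N) P)) ∈ RRj (gr F) i :=
      gs_relL H.cz i (RRj (gr F) i) (betB_h1 H i) (betB_h2 i) _ (inRj_alg i P) n
    rw [dxa_apply, dx_alg, ← map_mul] at h1
    have h2 := resF_inRj H.sop i (inRj_mul (inRj_alg i Q) h1)
    rw [mul_sub, resF_sub H.sop (betB_in H Q _ _) (betB_in H Q _ _)] at h2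
    exact sub_eq_zero.1 h2

theorem bet_relR (m : ℤ) (i : Fin N) (P Q : MvPolynomial (Fin N) K) :
    bet H (m + 1) P (pderiv i F * Q) = - bet H m P (pderiv i Q) := by
  rcases lt_trichotomy m (-1) with hm | hm | hm
  · rw [bet_neg H _ (by omega), bet_neg H _ (by omega), neg_zero]
  · subst hm
    rw [bet_neg H (-1) (by omega), betB_nat H (-1 + 1) P _ (by norm_num) (n := 0), map_mul,
      neg_zero]
    have h1 : algebraMap (MvPolynomial (Fin N) K) (FF K N) (pderiv i F) *
        gs H.cz 0 (algebraMap (MvPolynomial (Fin N) K) (FF K N) P) ∈ RRj (gr F) i :=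
      gs_relR0 H.cz i (RRj (gr F) i) (betB_h1 H i) (betB_h2 i) _ (inRj_alg i P)
    have h2 := resF_inRj H.sop i (inRj_mul (inRj_alg i Q) h1)
    rw [← h2]
    congr 1
    ring
  · obtain ⟨n, rfl⟩ : ∃ n : ℕ, m = n := ⟨m.toNat, by omega⟩
    rw [betB_nat H (n + 1) P _ (by push_cast; rfl) (n := n + 1), betB_nat H n P _ rfl]
    have h1 : algebraMap (MvPolynomial (Fin N) K) (FF K N) (pderiv i F) *
        gs H.cz (n + 1) (algebraMap (MvPolynomial (Fin N) K) (FF K N) P) -
        dxa K i (gs H.cz n (algebraMap (MvPolynomial (Fin N) K) (FF K N) P)) ∈ RRj (gr F) i :=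
      gs_relR H.cz i (RRj (gr F) i) (betB_h1 H i) (betB_h2 i) _ (inRj_alg i P) n
    rw [dxa_apply] at h1
    have h2 := resF_inRj H.sop i (inRj_mul (inRj_alg i Q) h1)
    have hI1 : InR (gr F) (algebraMap (MvPolynomial (Fin N) K) (FF K N) (pderiv i F * Q) *
        gs H.cz (n + 1) (algebraMap (MvPolynomial (Fin N) K) (FF K N) P)) := betB_in H _ P (n + 1)
    have hI2 : InR (gr F) (algebraMap (MvPolynomial (Fin N) K) (FF K N) Q *
        dx K i (gs H.cz n (algebraMap (MvPolynomial (Fin N) K) (FF K N) P))) :=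
      inR_mul (inR_alg Q) (inR_dx (gsR H n _ (inR_alg P)) i)
    have e1 : algebraMap (MvPolynomial (Fin N) K) (FF K N) Q *
        (algebraMap (MvPolynomial (Fin N) K) (FF K N) (pderiv i F) *
          gs H.cz (n + 1) (algebraMap (MvPolynomial (Fin N) K) (FF K N) P) -
          dx K i (gs H.cz n (algebraMap (MvPolynomial (Fin N) K) (FF K N) P))) =
        algebraMap (MvPolynomial (Fin N) K) (FF K N) (pderiv i F * Q) *
          gs H.cz (n + 1) (algebraMap (MvPolynomial (Fin N) K) (FF K N) P) -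
        algebraMap (MvPolynomial (Fin N) K) (FF K N) Q *
          dx K i (gs H.cz n (algebraMap (MvPolynomial (Fin N) K) (FF K N) P)) := by
      rw [map_mul]
      ring
    rw [e1, resF_sub H.sop hI1 hI2] at h2
    have h3 := resF_dx H.sop H.hom H.he (betB_in H Q P n) i
    have e2 : dx K i (algebraMap (MvPolynomial (Fin N) K) (FF K N) Q *
          gs H.cz n (algebraMap (MvPolynomial (Fin N) K) (FF K N) P)) =
        algebraMap (MvPolynomial (Fin N) K) (FF K N) Q *
          dx K i (gs H.cz n (algebraMap (MvPolynomial (Fin N) K) (FF K N) P)) +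
        algebraMap (MvPolynomial (Fin N) K) (FF K N) (pderiv i Q) *
          gs H.cz n (algebraMap (MvPolynomial (Fin N) K) (FF K N) P) := by
      rw [Derivation.leibniz, dx_alg, smul_eq_mul, smul_eq_mul, mul_comm (gs H.cz n _)]
    rw [e2, resF_add H.sop hI2 (betB_in H _ P n)] at h3
    linear_combination h2 + h3

theorem bet_der (m : ℤ) (D : Derivation ℤ K K) (P Q : MvPolynomial (Fin N) K) :
    D (bet H m P Q) = bet H m (cderD D P) Q + bet H m P (cderD D Q) -
      bet H (m + 1) (cderD D F * P) Q + bet H (m + 1) P (cderD D F * Q) := by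
  have hL : Lz ((DF D : Derivation ℤ (FF K N) (FF K N)).toLinearMap.toAddMonoidHom) := by
    intro a b
    change DF D (a * b) = a * DF D b + b * DF D a
    rw [Derivation.leibniz, smul_eq_mul, smul_eq_mul]
  have h1 : ∀ i, (DF D : Derivation ℤ (FF K N) (FF K N)).toLinearMap.toAddMonoidHom
      (algebraMap (MvPolynomial (Fin N) K) (FF K N) (gr F i)) =
      dxa K i (algebraMap (MvPolynomial (Fin N) K) (FF K N) (cderD D F)) := by
    intro i
    change DF D (algebraMap (MvPolynomial (Fin N) K) (FF K N) (pderiv i F)) = dx K i _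
    rw [DF_alg, dx_alg, cderD_pderiv]
  have h2 : ∀ i x, (DF D : Derivation ℤ (FF K N) (FF K N)).toLinearMap.toAddMonoidHom
      (dxa K i x) = dxa K i ((DF D : Derivation ℤ (FF K N) (FF K N)).toLinearMap.toAddMonoidHom x) :=
    fun i x => DF_dx D i x
  rcases lt_trichotomy m (-1) with hm | hm | hm
  · rw [bet_neg H _ (by omega), bet_neg H _ (by omega), bet_neg H _ (by omega),
      bet_neg H _ (by omega), bet_neg H _ (by omega), map_zero]
    ring
  · subst hm
    rw [bet_neg H (-1) (by omega), bet_neg H (-1) (by omega), bet_neg H (-1) (by omega),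
      betB_nat H (-1 + 1) _ Q (by norm_num) (n := 0),
      betB_nat H (-1 + 1) P _ (by norm_num) (n := 0), map_zero]
    have h3 : algebraMap (MvPolynomial (Fin N) K) (FF K N) (cderD D F) *
        gs H.cz 0 (algebraMap (MvPolynomial (Fin N) K) (FF K N) P) =
        gs H.cz 0 (algebraMap (MvPolynomial (Fin N) K) (FF K N) (cderD D F) *
          algebraMap (MvPolynomial (Fin N) K) (FF K N) P) :=
      gs_nab0 H.cz _ _ hL h1 h2 _
    rw [map_mul, ← h3, map_mul (algebraMap (MvPolynomial (Fin N) K) (FF K N)) (cderD D F) Q]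
    have e1 : algebraMap (MvPolynomial (Fin N) K) (FF K N) Q *
        (algebraMap (MvPolynomial (Fin N) K) (FF K N) (cderD D F) *
        gs H.cz 0 (algebraMap (MvPolynomial (Fin N) K) (FF K N) P)) =
        algebraMap (MvPolynomial (Fin N) K) (FF K N) (cderD D F) *
        algebraMap (MvPolynomial (Fin N) K) (FF K N) Q *
        gs H.cz 0 (algebraMap (MvPolynomial (Fin N) K) (FF K N) P) := by
      ring
    rw [e1]
    ring
  · obtain ⟨n, rfl⟩ : ∃ n : ℕ, m = n := ⟨m.toNat, by omega⟩
    have h3 : DF D (gs H.cz n (algebraMap (MvPolynomial (Fin N) K) (FF K N) P)) -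
        algebraMap (MvPolynomial (Fin N) K) (FF K N) (cderD D F) *
          gs H.cz (n + 1) (algebraMap (MvPolynomial (Fin N) K) (FF K N) P) =
        gs H.cz n (DF D (algebraMap (MvPolynomial (Fin N) K) (FF K N) P)) -
        gs H.cz (n + 1) (algebraMap (MvPolynomial (Fin N) K) (FF K N) (cderD D F) *
          algebraMap (MvPolynomial (Fin N) K) (FF K N) P) :=
      gs_nab H.cz _ _ hL h1 h2 n _
    rw [DF_alg, ← map_mul] at h3
    have e1 : DF D (algebraMap (MvPolynomial (Fin N) K) (FF K N) Q *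
        gs H.cz n (algebraMap (MvPolynomial (Fin N) K) (FF K N) P)) =
        algebraMap (MvPolynomial (Fin N) K) (FF K N) Q *
          gs H.cz n (algebraMap (MvPolynomial (Fin N) K) (FF K N) (cderD D P)) +
        algebraMap (MvPolynomial (Fin N) K) (FF K N) (cderD D Q) *
          gs H.cz n (algebraMap (MvPolynomial (Fin N) K) (FF K N) P) -
        algebraMap (MvPolynomial (Fin N) K) (FF K N) Q *
          gs H.cz (n + 1) (algebraMap (MvPolynomial (Fin N) K) (FF K N) (cderD D F * P)) +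
        algebraMap (MvPolynomial (Fin N) K) (FF K N) (cderD D F * Q) *
          gs H.cz (n + 1) (algebraMap (MvPolynomial (Fin N) K) (FF K N) P) := by
      rw [Derivation.leibniz, DF_alg, smul_eq_mul, smul_eq_mul,
        map_mul (algebraMap (MvPolynomial (Fin N) K) (FF K N)) (cderD D F) Q]
      linear_combination algebraMap (MvPolynomial (Fin N) K) (FF K N) Q * h3
    rw [betB_nat H n P Q rfl, betB_nat H n _ Q rfl, betB_nat H n P _ rfl,
      betB_nat H (n + 1) _ Q (by push_cast; rfl) (n := n + 1),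
      betB_nat H (n + 1) P _ (by push_cast; rfl) (n := n + 1),
      ← resF_DF H.sop H.hom H.he (betB_in H Q P n) D, e1]
    have i1 := betB_in H Q (cderD D P) n
    have i2 := betB_in H (cderD D Q) P n
    have i3 := betB_in H Q (cderD D F * P) (n + 1)
    have i4 := betB_in H (cderD D F * Q) P (n + 1)
    have i12 := inR_add i1 i2
    have i123 : InR (gr F) (algebraMap (MvPolynomial (Fin N) K) (FF K N) Q *
          gs H.cz n (algebraMap (MvPolynomial (Fin N) K) (FF K N) (cderD D P)) +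
        algebraMap (MvPolynomial (Fin N) K) (FF K N) (cderD D Q) *
          gs H.cz n (algebraMap (MvPolynomial (Fin N) K) (FF K N) P) -
        algebraMap (MvPolynomial (Fin N) K) (FF K N) Q *
          gs H.cz (n + 1) (algebraMap (MvPolynomial (Fin N) K) (FF K N) (cderD D F * P))) :=
      (RR (gr F)).sub_mem i12 i3
    rw [resF_add H.sop i123 i4, resF_sub H.sop i12 i3, resF_add H.sop i1 i2]

end

end MPadcLZ
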