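import Pool.Agent.Lib.MP_adc574_ag_LZ.BetA

/-!
# JOB BilA: the pairing on monomials

`Bil H d (x^u, x^v) = (-1)^(A+1) β_{A+B-N} (x^u, x^v)` if `dg u + N = d A`, `dg v + N = d B`, and `0` if `d` does not divide one of `dg u + N`, `dg v + N`; extended bilinearly (`Module.Basis.constr_basis`, `coe_basisMonomials`).
* `hm_exp`: `P` is the sum of its monomials `monomial u (coeff u P) = coeff u P • monomial u 1`, `u ∈ P.support`, `dg u = p` for all of them (`MvPolynomial.support_sum_monomial_coeff`).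
* `bil_lv`, `bil_outL`, `bil_outR`: expand `P` and `Q` by `hm_exp`, `map_sum`, `LinearMap.sum_apply`, `map_smul`; `(dg u + N) / d = A`.
-/

set_option autoImplicit false

namespace MPadcLZ

open MvPolynomial MPadcHM

universe u

variable {K : Type u} [Field K] {N : ℕ} {e : ℕ} {F : MvPolynomial (Fin N) K}

theorem hm_exp {p : ℕ} {P : MvPolynomial (Fin N) K} (hP : Hm p P) :
    ∃ (s : Finset (Fin N →₀ ℕ)) (c : (Fin N →₀ ℕ) → K), (∀ u ∈ s, dg u = p) ∧
      P = ∑ u ∈ s, c u • monomial u (1 : K) := by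
  refine ⟨P.support, fun u => coeff u P, fun u hu => hP u hu, ?_⟩
  have h1 : ∀ u ∈ P.support, coeff u P • (monomial u (1 : K) : MvPolynomial (Fin N) K) =
      monomial u (coeff u P) := by
    intro u _
    rw [MvPolynomial.smul_monomial, smul_eq_mul, mul_one]
  rw [Finset.sum_congr rfl h1]
  exact (support_sum_monomial_coeff P).symm

private theorem bila_exp (P : MvPolynomial (Fin N) K) :
    ∃ (s : Finset (Fin N →₀ ℕ)) (c : (Fin N →₀ ℕ) → K),
      P = ∑ u ∈ s, c u • monomial u (1 : K) := by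
  refine ⟨P.support, fun u => coeff u P, ?_⟩
  have h1 : ∀ u ∈ P.support, coeff u P • (monomial u (1 : K) : MvPolynomial (Fin N) K) =
      monomial u (coeff u P) := by
    intro u _
    rw [MvPolynomial.smul_monomial, smul_eq_mul, mul_one]
  rw [Finset.sum_congr rfl h1]
  exact (support_sum_monomial_coeff P).symm

private theorem bila_two (L1 L2 : MvPolynomial (Fin N) K →ₗ[K] MvPolynomial (Fin N) K →ₗ[K] K)
    (a : K) (s s' : Finset (Fin N →₀ ℕ)) (c c' : (Fin N →₀ ℕ) → K)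
    (h : ∀ u ∈ s, ∀ v ∈ s', L1 (monomial u 1) (monomial v 1) =
      a * L2 (monomial u 1) (monomial v 1)) :
    L1 (∑ u ∈ s, c u • monomial u (1 : K)) (∑ v ∈ s', c' v • monomial v (1 : K)) =
      a * L2 (∑ u ∈ s, c u • monomial u (1 : K)) (∑ v ∈ s', c' v • monomial v (1 : K)) := by
  simp only [map_sum, LinearMap.sum_apply, map_smul, LinearMap.smul_apply, smul_eq_mul,
    Finset.mul_sum]
  refine Finset.sum_congr rfl fun v hv => Finset.sum_congr rfl fun u hu => ?_
  rw [h u hu v hv]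
  ring

/-- The values on monomials. -/
noncomputable def bmon (H : RegF e F) (d : ℕ) (u v : Fin N →₀ ℕ) : K :=
  if d ∣ dg u + N ∧ d ∣ dg v + N then
    (-1) ^ ((dg u + N) / d + 1) *
      bet H ((((dg u + N) / d : ℕ) : ℤ) + (((dg v + N) / d : ℕ) : ℤ) - N) (monomial u 1)
        (monomial v 1)
  else 0

/-- The pairing. -/
noncomputable def Bil (H : RegF e F) (d : ℕ) :
    MvPolynomial (Fin N) K →ₗ[K] MvPolynomial (Fin N) K →ₗ[K] K :=
  (basisMonomials (Fin N) K).constr K fun u =>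
    (basisMonomials (Fin N) K).constr K fun v => bmon H d u v

theorem bil_mon (H : RegF e F) (d : ℕ) (u v : Fin N →₀ ℕ) :
    Bil H d (monomial u 1) (monomial v 1) = bmon H d u v := by
  have hu : ∀ w : Fin N →₀ ℕ, (monomial w (1 : K) : MvPolynomial (Fin N) K) =
      basisMonomials (Fin N) K w := by
    intro w
    rw [coe_basisMonomials]
  rw [Bil, hu u, Module.Basis.constr_basis, hu v, Module.Basis.constr_basis]

theorem bil_lv (H : RegF e F) {d : ℕ} (hd : 1 ≤ d) {p q : ℕ} {P Q : MvPolynomial (Fin N) K}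
    (hP : Hm p P) (hQ : Hm q Q) (A B : ℕ) (hA : p + N = d * A) (hB : q + N = d * B) :
    Bil H d P Q = (-1) ^ (A + 1) * bet H ((A : ℤ) + (B : ℤ) - N) P Q := by
  obtain ⟨s, c, hs, rfl⟩ := hm_exp hP
  obtain ⟨s', c', hs', rfl⟩ := hm_exp hQ
  refine bila_two (Bil H d) (bet H ((A : ℤ) + (B : ℤ) - N)) ((-1) ^ (A + 1)) s s' c c' ?_
  intro u hu v hv
  rw [bil_mon]
  unfold bmon
  rw [hs u hu, hs' v hv, hA, hB, if_pos ⟨Dvd.intro _ rfl, Dvd.intro _ rfl⟩,
    Nat.mul_div_cancel_left A hd, Nat.mul_div_cancel_left B hd]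

theorem bil_outL (H : RegF e F) {d : ℕ} {p : ℕ} {P : MvPolynomial (Fin N) K} (hP : Hm p P)
    (hp : ¬ d ∣ p + N) (Q : MvPolynomial (Fin N) K) : Bil H d P Q = 0 := by
  obtain ⟨s, c, hs, rfl⟩ := hm_exp hP
  obtain ⟨s', c', rfl⟩ := bila_exp Q
  have h1 := bila_two (Bil H d) (Bil H d) 0 s s' c c' (fun u hu v hv => by
    rw [bil_mon, zero_mul]
    unfold bmon
    rw [hs u hu]
    exact if_neg fun h => hp h.1)
  rw [h1, zero_mul]

theorem bil_outR (H : RegF e F) {d : ℕ} {q : ℕ} {Q : MvPolynomial (Fin N) K} (hQ : Hm q Q)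
    (hq : ¬ d ∣ q + N) (P : MvPolynomial (Fin N) K) : Bil H d P Q = 0 := by
  obtain ⟨s, c, rfl⟩ := bila_exp P
  obtain ⟨s', c', hs', rfl⟩ := hm_exp hQ
  have h1 := bila_two (Bil H d) (Bil H d) 0 s s' c c' (fun u hu v hv => by
    rw [bil_mon, zero_mul]
    unfold bmon
    rw [hs' v hv]
    exact if_neg fun h => hq h.2)
  rw [h1, zero_mul]

end MPadcLZ
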