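import Pool.Agent.Lib.MP_adc574_ag_LZ.BilA
import Pool.Agent.Lib.MP_adc574_ag_LZ.BetB

/-!
# JOB BilB: relations and flatness of the pairing

`F` homogeneous of degree `d = e + 1 ≥ 2`, `N ≥ 1`. Everything from `bil_lv`, `bil_outL`, `bil_outR` (BilA) and `bet_relL`, `bet_relR`, `bet_der` (BetB).
* `bil_relL`: both sides additive and `K`-linear in `Q` and in `y`: `Q = monomial w 1`, `y = monomial v 1` (`MvPolynomial.induction_on'''`-type or `Module.Basis.ext` for `basisMonomials`). `pderiv i F * Q` has degree `d - 1 + dg w` (`hm_mul`),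
  `pderiv i Q` is `0` if `dg w = 0` (`w = 0`), otherwise of degree `dg w - 1`. If `d ∤ dg v + N`: `bil_outR`. If `d ∤ dg w + d - 1 + N`: `bil_outL` twice (resp. `pderiv i Q = 0`). Otherwise `dg w + d - 1 + N = d (A + 1)` (it is `≥ d` since `N ≥ 1`),
  `dg v + N = d B`, `dg w - 1 + N = d A` if `dg w ≥ 1`: `Bil (f_i Q) y = (-1)^(A+2) β_{A+1+B-N} (f_i Q, y) = - (-1)^(A+1) β_{A+B-N} (∂_i Q, y)` (`bet_relL`), and `Bil (∂_i Q) y = (-1)^(A+1) β_{A+B-N} (∂_i Q, y)` (for `∂_i Q = 0` both are `0`).
* `bil_relR`: the same with `bet_relR`; the sign `(-1)^(A+1)` is that of the left argument.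
* `bil_flat`: both sides are additive in `x` and in `y`: `x = monomial u c`, `y = monomial v c'`. `nb D F x = cder D x + cder D F * x` (`cderD_apply`, `cderD_monomial`), of degrees `dg u`, `d + dg u` (`hm_cder`, `hm_mul`). If `d` divides `dg u + N = d A` and `dg v + N = d B`:
  `bil_lv` for all terms (levels `A`, `A + 1`, `B`, `B + 1`), the sum of the right hand side is `(-1)^(A+1)` times the right hand side of `bet_der` for `m = A + B - N`; `D ((-1)^k * y) = (-1)^k * D y` (`D (-1) = 0`). Otherwise everything is `0`.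
-/

set_option autoImplicit false

namespace MPadcLZ

open MvPolynomial MPadcHM

universe u

variable {K : Type u} [Field K] {N : ℕ} {e : ℕ} {F : MvPolynomial (Fin N) K}

private theorem bilb_mono (u : Fin N →₀ ℕ) (c : K) : Hm (dg u) (monomial u c) := by
  classical
  intro e he
  rw [mem_support_iff, coeff_monomial] at he
  by_contra hne
  apply he
  rw [if_neg]
  rintro rfl
  exact hne rfl

private theorem bilb_pd (u : Fin N →₀ ℕ) (c : K) (i : Fin N) (h : u i = 0) :
    pderiv i (monomial u c) = 0 := by
  rw [pderiv_monomial, h, Nat.cast_zero, mul_zero, map_zero]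

private theorem bilb_le (u : Fin N →₀ ℕ) (i : Fin N) : u i ≤ dg u := by
  unfold dg
  exact Finset.single_le_sum (f := fun j => u j) (fun j _ => Nat.zero_le _) (Finset.mem_univ i)

private theorem bilb_dl_add (i : Fin N) (P Q : MvPolynomial (Fin N) K) :
    dl F i (P + Q) = dl F i P + dl F i Q := by
  unfold dl
  rw [map_add, mul_add]
  abel

private theorem bilb_nb (D : Derivation ℤ K K) (P : MvPolynomial (Fin N) K) :
    nb D F P = cderD D P + cderD D F * P := by
  unfold nb
  rw [cderD_apply, cderD_apply]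

private theorem bilb_nb_add (D : Derivation ℤ K K) (P Q : MvPolynomial (Fin N) K) :
    nb D F (P + Q) = nb D F P + nb D F Q := by
  rw [bilb_nb, bilb_nb, bilb_nb, map_add, mul_add]
  abel

private theorem bilb_D (D : Derivation ℤ K K) (k : ℕ) (z : K) :
    D ((-1) ^ k * z) = (-1) ^ k * D z := by
  have h : ∀ w : K, (-1 : K) ^ k * w = ((-1 : ℤ) ^ k) • w := by
    intro w
    rw [zsmul_eq_mul]
    push_cast
    rfl
  rw [h z, h (D z), map_zsmul]

theorem bil_relL (H : RegF e F) {d : ℕ} (hd : d = e + 1) (hN : 1 ≤ N) (hF : Hm d F) (i : Fin N)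
    (Q y : MvPolynomial (Fin N) K) : Bil H d (dl F i Q) y = 0 := by
  have hd1 : 1 ≤ d := by omega
  induction Q using MvPolynomial.induction_on' with
  | add P Q hP hQ =>
    rw [bilb_dl_add, map_add, LinearMap.add_apply, hP, hQ, add_zero]
  | monomial w c =>
  induction y using MvPolynomial.induction_on' with
  | add P Q hP hQ =>
    rw [map_add, hP, hQ, add_zero]
  | monomial v c' =>
  have hy := bilb_mono v c'
  by_cases hv : d ∣ dg v + N
  swap
  · exact bil_outR H hy hv _
  obtain ⟨B, hB⟩ := hv
  have hQ := bilb_mono w c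
  have hf : Hm (d - 1 + dg w) (pderiv i F * monomial w c) := hm_mul (hm_pderiv hF i) hQ
  have hpd : Hm (dg w - 1) (pderiv i (monomial w c)) := hm_pderiv hQ i
  have hwi := bilb_le w i
  unfold dl
  rw [map_add, LinearMap.add_apply]
  by_cases hA : d ∣ d - 1 + dg w + N
  · obtain ⟨A', hA'⟩ := hA
    obtain ⟨A, rfl⟩ : ∃ A, A' = A + 1 := by
      cases A' with
      | zero => omega
      | succ A => exact ⟨A, rfl⟩
    have e1 := bil_lv H hd1 hf hy (A + 1) B hA' hB
    have e2 := bet_relL H ((A : ℤ) + (B : ℤ) - N) i (monomial w c) (monomial v c')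
    have e3 : (((A + 1 : ℕ) : ℤ) + (B : ℤ) - N) = (A : ℤ) + (B : ℤ) - N + 1 := by
      push_cast
      ring
    rw [e3, e2] at e1
    rw [e1]
    by_cases h0 : w i = 0
    · rw [bilb_pd w c i h0]
      simp
    · have hA2 : dg w - 1 + N = d * A := by
        have : d * (A + 1) = d * A + d := by ring
        omega
      rw [bil_lv H hd1 hpd hy A B hA2 hB]
      ring
  · rw [bil_outL H hf hA, add_zero]
    by_cases h0 : w i = 0
    · rw [bilb_pd w c i h0]
      simp
    · refine bil_outL H hpd ?_ _
      intro h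
      apply hA
      have : d - 1 + dg w + N = dg w - 1 + N + d := by omega
      rw [this]
      exact dvd_add h (dvd_refl d)

theorem bil_relR (H : RegF e F) {d : ℕ} (hd : d = e + 1) (hN : 1 ≤ N) (hF : Hm d F) (i : Fin N)
    (Q y : MvPolynomial (Fin N) K) : Bil H d y (dl F i Q) = 0 := by
  have hd1 : 1 ≤ d := by omega
  induction Q using MvPolynomial.induction_on' with
  | add P Q hP hQ =>
    rw [bilb_dl_add, map_add, hP, hQ, add_zero]
  | monomial w c =>
  induction y using MvPolynomial.induction_on' with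
  | add P Q hP hQ =>
    rw [map_add, LinearMap.add_apply, hP, hQ, add_zero]
  | monomial v c' =>
  have hy := bilb_mono v c'
  by_cases hv : d ∣ dg v + N
  swap
  · exact bil_outL H hy hv _
  obtain ⟨A, hA⟩ := hv
  have hQ := bilb_mono w c
  have hf : Hm (d - 1 + dg w) (pderiv i F * monomial w c) := hm_mul (hm_pderiv hF i) hQ
  have hpd : Hm (dg w - 1) (pderiv i (monomial w c)) := hm_pderiv hQ i
  have hwi := bilb_le w i
  unfold dl
  rw [map_add]
  by_cases hB : d ∣ d - 1 + dg w + N
  · obtain ⟨B', hB'⟩ := hB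
    obtain ⟨B, rfl⟩ : ∃ B, B' = B + 1 := by
      cases B' with
      | zero => omega
      | succ B => exact ⟨B, rfl⟩
    have e1 := bil_lv H hd1 hy hf A (B + 1) hA hB'
    have e2 := bet_relR H ((A : ℤ) + (B : ℤ) - N) i (monomial v c') (monomial w c)
    have e3 : ((A : ℤ) + ((B + 1 : ℕ) : ℤ) - N) = (A : ℤ) + (B : ℤ) - N + 1 := by
      push_cast
      ring
    rw [e3, e2] at e1
    rw [e1]
    by_cases h0 : w i = 0
    · rw [bilb_pd w c i h0]
      simp
    · have hB2 : dg w - 1 + N = d * B := by
        have : d * (B + 1) = d * B + d := by ring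
        omega
      rw [bil_lv H hd1 hy hpd A B hA hB2]
      ring
  · rw [bil_outR H hf hB, add_zero]
    by_cases h0 : w i = 0
    · rw [bilb_pd w c i h0]
      simp
    · refine bil_outR H hpd ?_ _
      intro h
      apply hB
      have : d - 1 + dg w + N = dg w - 1 + N + d := by omega
      rw [this]
      exact dvd_add h (dvd_refl d)

theorem bil_flat (H : RegF e F) {d : ℕ} (hd : d = e + 1) (hF : Hm d F) (D : Derivation ℤ K K)
    (x y : MvPolynomial (Fin N) K) :
    D (Bil H d x y) = Bil H d (nb D F x) y + Bil H d x (nb D F y) := by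
  have hd1 : 1 ≤ d := by omega
  induction x using MvPolynomial.induction_on' with
  | add P Q hP hQ =>
    rw [map_add, LinearMap.add_apply, map_add, hP, hQ, bilb_nb_add, map_add, LinearMap.add_apply,
      LinearMap.add_apply]
    ring
  | monomial u c =>
  induction y using MvPolynomial.induction_on' with
  | add P Q hP hQ =>
    rw [map_add, map_add, hP, hQ, bilb_nb_add, map_add, map_add]
    ring
  | monomial v c' =>
  have hx := bilb_mono u c
  have hy := bilb_mono v c'
  have hDx : Hm (dg u) (cderD D (monomial u c)) := by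
    rw [cderD_apply]; exact hm_cder hx D
  have hDy : Hm (dg v) (cderD D (monomial v c')) := by
    rw [cderD_apply]; exact hm_cder hy D
  have hDF : Hm d (cderD D F) := by
    rw [cderD_apply]; exact hm_cder hF D
  have hFx : Hm (d + dg u) (cderD D F * monomial u c) := hm_mul hDF hx
  have hFy : Hm (d + dg v) (cderD D F * monomial v c') := hm_mul hDF hy
  rw [bilb_nb, bilb_nb, map_add, map_add, LinearMap.add_apply]
  by_cases hu : d ∣ dg u + N
  · by_cases hv : d ∣ dg v + N
    · obtain ⟨A, hA⟩ := hu
      obtain ⟨B, hB⟩ := hv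
      have hA1 : d + dg u + N = d * (A + 1) := by
        have : d * (A + 1) = d * A + d := by ring
        omega
      have hB1 : d + dg v + N = d * (B + 1) := by
        have : d * (B + 1) = d * B + d := by ring
        omega
      have e3 : (((A + 1 : ℕ) : ℤ) + (B : ℤ) - N) = (A : ℤ) + (B : ℤ) - N + 1 := by
        push_cast
        ring
      have e4 : ((A : ℤ) + ((B + 1 : ℕ) : ℤ) - N) = (A : ℤ) + (B : ℤ) - N + 1 := by
        push_cast
        ring
      rw [bil_lv H hd1 hx hy A B hA hB, bil_lv H hd1 hDx hy A B hA hB,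
        bil_lv H hd1 hFx hy (A + 1) B hA1 hB, bil_lv H hd1 hx hDy A B hA hB,
        bil_lv H hd1 hx hFy A (B + 1) hA hB1, e3, e4, bilb_D, bet_der]
      ring
    · have hv1 : ¬ d ∣ d + dg v + N := by
        intro h
        apply hv
        rw [add_assoc] at h
        exact (Nat.dvd_add_right (dvd_refl d)).1 h
      rw [bil_outR H hy hv, bil_outR H hy hv, bil_outR H hy hv, bil_outR H hDy hv,
        bil_outR H hFy hv1, map_zero]
      ring
  · have hu1 : ¬ d ∣ d + dg u + N := by
      intro h
      apply hu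
      rw [add_assoc] at h
      exact (Nat.dvd_add_right (dvd_refl d)).1 h
    rw [bil_outL H hx hu, bil_outL H hDx hu, bil_outL H hFx hu1, bil_outL H hx hu,
      bil_outL H hx hu, map_zero]
    ring

end MPadcLZ
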