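import Mathlib
import Pool.Agent.Lib.MP_adc574_ag_HM.Defs

/-!
# Lefschetz pencils of hypersurfaces: definitions

`S = K[x_0, …, x_{N-1}]`, `F` homogeneous of degree `d`. The module `M_F = S / ∑ (∂_i + F_i) S` of the paper; a monomial
`x ^ e` with `|e| + N = d (a + 1)` has level `a`.
-/

set_option autoImplicit false

namespace MPadcLZ

open MvPolynomial MPadcHM

universe u

section Basic

variable {N : ℕ}

/-- The degree of an exponent. -/
def dg (e : Fin N →₀ ℕ) : ℕ := ∑ i, e i

/-- All monomials of `P` have degree `m`. -/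
def Hm {R : Type*} [CommSemiring R] (m : ℕ) (P : MvPolynomial (Fin N) R) : Prop :=
  ∀ e ∈ P.support, dg e = m

/-- `(∂_i + F_i) Q`. -/
noncomputable def dl {R : Type*} [CommRing R] (F : MvPolynomial (Fin N) R) (i : Fin N)
    (Q : MvPolynomial (Fin N) R) : MvPolynomial (Fin N) R :=
  pderiv i Q + pderiv i F * Q

/-- The connection `P ↦ D P + (D F) P` for a derivation `D` of the coefficients. -/
noncomputable def nb {R : Type*} [CommRing R] (D : Derivation ℤ R R) (F P : MvPolynomial (Fin N) R) :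
    MvPolynomial (Fin N) R :=
  cder D P + cder D F * P

/-- `∑_{u ∈ U} a_u(h) x ^ u`. -/
noncomputable def asm {K : Type*} [Field K] (h : Fin N → MvPolynomial (Fin N) K)
    (U : Finset (Fin N →₀ ℕ)) :
    (U → MvPolynomial (Fin N) K) →ₗ[K] MvPolynomial (Fin N) K where
  toFun a := ∑ u : U, aeval h (a u) * monomial (u : Fin N →₀ ℕ) 1
  map_add' a b := by
    simp [add_mul, Finset.sum_add_distrib]
  map_smul' c a := by
    simp [Finset.smul_sum]

/-- `h_0, …, h_{N-1}` are homogeneous of degree `e ≥ 1` and `K[x]` is free over `K[h]` with basis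
`x ^ u`, `u ∈ U`. -/
structure CI {K : Type*} [Field K] (h : Fin N → MvPolynomial (Fin N) K) (e : ℕ)
    (U : Finset (Fin N →₀ ℕ)) : Prop where
  he : 1 ≤ e
  hom : ∀ j, Hm e (h j)
  bij : Function.Bijective (asm h U)

/-- The field of rational functions in `x`. -/
abbrev FF (K : Type*) [Field K] (N : ℕ) : Type _ := FractionRing (MvPolynomial (Fin N) K)

variable {K : Type*} [Field K]

/-- `g ∈ K[x][1 / ∏ h_i]`. -/
def InR (h : Fin N → MvPolynomial (Fin N) K) (g : FF K N) : Prop :=
  ∃ (m : ℕ) (P : MvPolynomial (Fin N) K), g * algebraMap _ (FF K N) (∏ i, h i) ^ m =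
    algebraMap _ (FF K N) P

/-- `g ∈ K[x][1 / ∏_{i ≠ j} h_i]`. -/
def InRj (h : Fin N → MvPolynomial (Fin N) K) (j : Fin N) (g : FF K N) : Prop :=
  ∃ (m : ℕ) (P : MvPolynomial (Fin N) K),
    g * algebraMap _ (FF K N) (∏ i ∈ Finset.univ.erase j, h i) ^ m = algebraMap _ (FF K N) P

end Basic

end MPadcLZ
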