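import Pool.Agent.Lib.MP_adc574_ag_LZ.FinZ

/-!
# The statement KEY for Lefschetz and for Morse pencils over a domain

`key_final_all`: `G - t H` Lefschetz over an algebraically closed field `Ω` containing the domain `R`, and either `H` smooth or
`H = x_i ^ d` and `G` smooth on the hyperplane `x_i = 0`.
-/

set_option autoImplicit false

namespace MPadcLZ

open MvPolynomial MPadcHM

universe u

private theorem finm_dg {N : ℕ} (e : Fin N →₀ ℕ) (m : ℕ) (h : N * m < dg e) : ∃ i, m ≤ e i := by
  by_contra hcon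
  push Not at hcon
  have h1 : dg e ≤ ∑ _i : Fin N, m := Finset.sum_le_sum fun i _ => (hcon i).le
  rw [Finset.sum_const, Finset.card_univ, Fintype.card_fin, smul_eq_mul] at h1
  omega

/-- An ideal whose only zero is `0` contains all monomials of large degree. -/
theorem exists_large {κ : Type u} [Field κ] [IsAlgClosed κ] {N : ℕ}
    (I : Ideal (MvPolynomial (Fin N) κ)) (h : ∀ x : Fin N → κ, (∀ P ∈ I, eval x P = 0) → x = 0) :
    ∃ M : ℕ, ∀ e : Fin N →₀ ℕ, M ≤ dg e → monomial e (1 : κ) ∈ I := by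
  have h1 : ∀ i, ∃ m : ℕ, (X i : MvPolynomial (Fin N) κ) ^ m ∈ I := by
    intro i
    have h2 : (X i : MvPolynomial (Fin N) κ) ∈ vanishingIdeal κ (zeroLocus κ I) := by
      rw [mem_vanishingIdeal_iff]
      intro x hx
      have h3 : x = 0 := h x fun P hP => by
        have h6 := (mem_zeroLocus_iff.1 hx) P hP
        rw [aeval_def] at h6
        exact h6
      rw [h3]
      simp
    rw [vanishingIdeal_zeroLocus_eq_radical] at h2
    exact h2
  choose m hm using h1
  refine ⟨N * (∑ i, m i) + 1, fun e he => ?_⟩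
  obtain ⟨i, hi⟩ := finm_dg e (∑ i, m i) (by omega)
  have h4 : m i ≤ e i := (Finset.single_le_sum (fun _ _ => Nat.zero_le _) (Finset.mem_univ i)).trans hi
  have h5 : monomial e (1 : κ) = monomial (e - Finsupp.single i (m i)) 1 * X i ^ m i := by
    rw [X_pow_eq_monomial, monomial_mul, one_mul]
    congr 1
    rw [tsub_add_cancel_of_le]
    rwa [Finsupp.single_le_iff]
  rw [h5]
  exact I.mul_mem_left _ (hm i)

variable {R : Type u} [CommRing R] [IsDomain R] [CharZero R] {N d : ℕ}

omit [IsDomain R] [CharZero R] in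
private theorem finm_hm {R' : Type*} [CommRing R'] (φ : R →+* R') {P : MvPolynomial (Fin N) R}
    (h : Hm d P) : Hm d (P.map φ) := by
  intro e he
  exact h e (support_map_subset _ _ he)

omit [IsDomain R] [CharZero R] in
private theorem finm_ft {Q κ : Type u} [Field Q] [Field κ] (j₀ : R →+* Q) (φ : Q →+* κ)
    (ρ : R →+* κ) (h : φ.comp j₀ = ρ) (G H : MvPolynomial (Fin N) R) :
    ((G.map j₀).map Polynomial.C - C Polynomial.X * (H.map j₀).map Polynomial.C).map (pred φ) =
      (G.map Polynomial.C - C Polynomial.X * H.map Polynomial.C).map (pred ρ) := by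
  have h1 : ((pred φ).comp Polynomial.C).comp j₀ = (pred ρ).comp Polynomial.C := by
    apply RingHom.ext
    intro r
    rw [RingHom.comp_apply, RingHom.comp_apply, RingHom.comp_apply, pred_C, pred_C, ← h,
      RingHom.comp_apply]
  have h2 : ∀ P : MvPolynomial (Fin N) R, ((P.map j₀).map Polynomial.C).map (pred φ) =
      (P.map Polynomial.C).map (pred ρ) := by
    intro P
    rw [map_map, map_map, map_map, ← h1, RingHom.comp_assoc]
  rw [map_sub, map_sub, map_mul, map_mul, map_C, map_C, h2, h2, pred_X, pred_X]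

theorem key_final_morse (hN : 3 ≤ N) (hd : 3 ≤ d) (G : MvPolynomial (Fin N) R) (hG : Hm d G)
    (i₀ : Fin N) {Ω : Type u} [Field Ω] [IsAlgClosed Ω] (j : R →+* Ω)
    (hj : Function.Injective j)
    (hs : ∀ x : Fin N → Ω, x i₀ = 0 → (∀ i, i ≠ i₀ → eval x (pderiv i (G.map j)) = 0) → x = 0)
    (hL : IsLef (G.map j) ((X i₀ ^ d : MvPolynomial (Fin N) R).map j)) {κ : Type u} [Field κ]
    [CharZero κ] [IsAlgClosed κ] (ρ : R →+* κ) (hρ : Function.Injective ρ) :
    KeyHyp d ((G.map Polynomial.C - C Polynomial.X *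
      (X i₀ ^ d : MvPolynomial (Fin N) R).map Polynomial.C).map (pred ρ)) := by
  classical
  let a₁ : FractionRing R →+* Ω := IsFractionRing.lift hj
  let a₂ : FractionRing R →+* κ := IsFractionRing.lift hρ
  let : Algebra (FractionRing R) Ω := a₁.toAlgebra
  let : Algebra (FractionRing R) κ := a₂.toAlgebra
  let Q := algebraicClosure (FractionRing R) Ω
  have hQ : IsAlgClosed Q :=
    (algebraicClosure.isAlgClosure (FractionRing R) Ω).isAlgClosed
  have hQa : Algebra.IsAlgebraic (FractionRing R) Q :=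
    (algebraicClosure.isAlgClosure (FractionRing R) Ω).isAlgebraic
  have hczΩ : CharZero Ω := charZero_of_injective_ringHom hj
  have hczQ : CharZero Q := (algebraMap Q Ω).charZero
  let φ : Q →ₐ[FractionRing R] κ := IsAlgClosed.lift
  let j₀ : R →+* Q := (algebraMap (FractionRing R) Q).comp (algebraMap R (FractionRing R))
  have hij : (algebraMap Q Ω).comp j₀ = j := by
    apply RingHom.ext
    intro r
    have h1 : (algebraMap Q Ω) (j₀ r) = a₁ (algebraMap R (FractionRing R) r) := rfl
    rw [RingHom.comp_apply, h1]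
    exact IsFractionRing.lift_algebraMap hj r
  have hφ : (φ : Q →+* κ).comp j₀ = ρ := by
    apply RingHom.ext
    intro r
    have h1 : (φ : Q →+* κ) (j₀ r) = a₂ (algebraMap R (FractionRing R) r) :=
      φ.commutes (algebraMap R (FractionRing R) r)
    rw [RingHom.comp_apply, h1]
    exact IsFractionRing.lift_algebraMap hρ r
  have hmap : ∀ P : MvPolynomial (Fin N) R, (P.map j₀).map (algebraMap Q Ω) = P.map j := by
    intro P
    rw [map_map, hij]
  have hX : Hm d (X i₀ ^ d : MvPolynomial (Fin N) R) := by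
    intro e he
    rw [X_pow_eq_monomial] at he
    have h1 := support_monomial_subset he
    rw [Finset.mem_singleton] at h1
    rw [h1]
    unfold dg
    rw [Finset.sum_eq_single i₀]
    · rw [Finsupp.single_eq_same]
    · intro i _ hi
      rw [Finsupp.single_eq_of_ne hi]
    · intro h
      exact absurd (Finset.mem_univ _) h
  have hLQ : IsLef (G.map j₀) ((X i₀ ^ d : MvPolynomial (Fin N) R).map j₀) := by
    refine isLef_comap (algebraMap Q Ω) ?_
    rw [hmap, hmap]
    exact hL
  have hsQ : ∀ x : Fin N → Q, x i₀ = 0 →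
      (∀ i, i ≠ i₀ → eval x (pderiv i (G.map j₀)) = 0) → x = 0 := by
    intro x hx0 hx
    have h1 : (fun i => algebraMap Q Ω (x i)) = 0 := by
      refine hs _ ?_ fun i hi => ?_
      · show algebraMap Q Ω (x i₀) = 0
        rw [hx0, map_zero]
      · have h2 := congrArg (algebraMap Q Ω) (hx i hi)
        rw [map_zero] at h2
        rw [← h2, ← hmap, pderiv_map, eval_map]
        exact (eval₂_comp_left (algebraMap Q Ω) (RingHom.id Q) x _).symm
    funext i
    have h3 := congrFun h1 i
    exact (map_eq_zero (algebraMap Q Ω)).1 h3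
  obtain ⟨M₀, hM₀⟩ := exists_large (Ideal.span ({P | ∃ i, i ≠ i₀ ∧ P = pderiv i (G.map j₀)} ∪
    {X i₀})) (fun x hx => by
      refine hsQ x ?_ fun i hi => hx _ (Ideal.subset_span (Or.inl ⟨i, hi, rfl⟩))
      have := hx (X i₀) (Ideal.subset_span (Or.inr rfl))
      rwa [eval_X] at this)
  obtain ⟨S, hSd, hSG, hSH, hSM, hS⟩ := exists_pdat hN hd (G.map j₀)
    ((X i₀ ^ d : MvPolynomial (Fin N) R).map j₀) (finm_hm j₀ hG) (finm_hm j₀ hX) hLQ M₀
  have hSH' : (S.map (φ : Q →+* κ)).H = X i₀ ^ (S.map (φ : Q →+* κ)).d := by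
    show S.H.map (φ : Q →+* κ) = X i₀ ^ S.d
    rw [hSH, hSd, map_pow, map_pow, map_X, map_X]
  have hG0 : ∀ e : Fin N →₀ ℕ, (S.map (φ : Q →+* κ)).M ≤ dg e → monomial e (1 : κ) ∈
      Ideal.span ({P | ∃ i, i ≠ i₀ ∧ P = pderiv i (S.map (φ : Q →+* κ)).G} ∪ {X i₀}) := by
    intro e he
    have h1 := Ideal.mem_map_of_mem (MvPolynomial.map (φ : Q →+* κ))
      (hM₀ e (hSM.trans (show S.M ≤ dg e from he)))
    rw [map_monomial, map_one, Ideal.map_span] at h1
    refine Ideal.span_mono ?_ h1
    rintro _ ⟨P, hP | hP, rfl⟩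
    · obtain ⟨i, hi, rfl⟩ := hP
      refine Or.inl ⟨i, hi, ?_⟩
      show _ = pderiv i (S.G.map (φ : Q →+* κ))
      rw [hSG]
      exact (pderiv_map (f := _)).symm
    · rw [Set.mem_singleton_iff] at hP
      refine Or.inr ?_
      rw [hP, map_X]
      rfl
  have h1 := key_morse (S.map (φ : Q →+* κ)) (ok_map S hS _) i₀ hSH' hG0
  rw [fk_map] at h1
  have h2 : (S.map (φ : Q →+* κ)).d = d := hSd
  rw [h2, PDat.ft, hSG, hSH, finm_ft j₀ (φ : Q →+* κ) ρ hφ] at h1
  exact h1

end MPadcLZ
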