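import Pool.Agent.Lib.MP_adc574_ag_LZ.LatB

/-!
# Part VI, file A: the Nullstellensatz

* `null_c`: `MvPolynomial.vanishingIdeal_zeroLocus_eq_radical` (Mathlib, RingTheory/Nullstellensatz; `I.radical = vanishingIdeal κ (zeroLocus κ I)`, here `k = K = κ`): `X i` vanishes on the zero locus of `I`, so `X i ∈ I.radical`: `X i ^ (m i) ∈ I`; `M = ∑ m i` (or the supremum).
* `null_K`: the same with `k = K`, `K = AlgebraicClosure K` (the Mathlib theorem has two fields).
* `null_t`: `e := MvPolynomial.optionEquivRight κ (Fin N) : MvPolynomial (Option (Fin N)) κ ≃ₐ[κ] MvPolynomial (Fin N) (Polynomial κ)` (`X none ↦ C Polynomial.X`, `X (some i) ↦ X i`). Apply the Nullstellensatz to `I.comap e` (`Option (Fin N)` is finite) and `X (some i)`: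
  a point `y : Option (Fin N) → κ` of the zero locus gives `τ = y none`, `x = y ∘ some`, and `eval y (e.symm P) = eval x (P.map (Polynomial.evalRingHom τ))` for all `P` (ring homs agree on `C (Polynomial.C c)`, `C Polynomial.X`, `X i`).
* `mono_mem`: if all `e i < M` then `dg e ≤ ∑ (M - 1) < N * M` (`M ≥ 1`; for `M = 0` the ideal contains `X 0 ^ 0 = 1`, use `0 < N`); so some `e i ≥ M` and `monomial e 1 = monomial (e - single i M) 1 * X i ^ M`.
* `hm_mem`: `P = ∑ monomial e (coeff e P) = ∑ C (coeff e P) * monomial e 1` over its support.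
-/

set_option autoImplicit false

namespace MPadcLZ

open MvPolynomial MPadcHM

universe u

private theorem geoA_nul {k K : Type*} [Field k] [Field K] [Algebra k K] [IsAlgClosed K]
    {σ : Type*} [Finite σ] (I : Ideal (MvPolynomial σ k)) (p : MvPolynomial σ k)
    (h : ∀ x : σ → K, (∀ P ∈ I, aeval x P = 0) → aeval x p = 0) : ∃ n : ℕ, p ^ n ∈ I := by
  have h1 : p ∈ I.radical := by
    rw [← vanishingIdeal_zeroLocus_eq_radical (K := K)]
    exact fun x hx => h x hx
  exact h1

private theorem geoA_unif {R : Type*} [CommRing R] {N : ℕ} (I : Ideal (MvPolynomial (Fin N) R))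
    (h : ∀ i, ∃ n : ℕ, (X i : MvPolynomial (Fin N) R) ^ n ∈ I) :
    ∃ M : ℕ, ∀ i, (X i : MvPolynomial (Fin N) R) ^ M ∈ I := by
  choose m hm using h
  refine ⟨∑ i, m i, fun i => I.mem_of_dvd (pow_dvd_pow _ ?_) (hm i)⟩
  exact Finset.single_le_sum (f := m) (fun _ _ => Nat.zero_le _) (Finset.mem_univ i)

theorem null_c {κ : Type u} [Field κ] [IsAlgClosed κ] {N : ℕ} (I : Ideal (MvPolynomial (Fin N) κ))
    (h : ∀ x : Fin N → κ, (∀ P ∈ I, eval x P = 0) → x = 0) :
    ∃ M : ℕ, ∀ i, (X i : MvPolynomial (Fin N) κ) ^ M ∈ I := by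
  refine geoA_unif I fun i => geoA_nul (K := κ) I (X i) fun x hx => ?_
  have h1 : x = 0 := h x fun P hP => by
    rw [← coe_aeval_eq_eval]
    exact hx P hP
  rw [aeval_X, h1, Pi.zero_apply]

theorem null_K {K : Type u} [Field K] {N : ℕ} (I : Ideal (MvPolynomial (Fin N) K))
    (h : ∀ x : Fin N → AlgebraicClosure K, (∀ P ∈ I, aeval x P = 0) → x = 0) :
    ∃ M : ℕ, ∀ i, (X i : MvPolynomial (Fin N) K) ^ M ∈ I := by
  refine geoA_unif I fun i => geoA_nul (K := AlgebraicClosure K) I (X i) fun x hx => ?_
  rw [aeval_X, h x hx, Pi.zero_apply]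

theorem null_t {κ : Type u} [Field κ] [IsAlgClosed κ] {N : ℕ}
    (I : Ideal (MvPolynomial (Fin N) (Polynomial κ)))
    (h : ∀ (τ : κ) (x : Fin N → κ),
      (∀ P ∈ I, eval x (P.map (Polynomial.evalRingHom τ)) = 0) → x = 0) :
    ∃ M : ℕ, ∀ i, (X i : MvPolynomial (Fin N) (Polynomial κ)) ^ M ∈ I := by
  refine geoA_unif I fun i => ?_
  obtain ⟨n, hn⟩ := geoA_nul (K := κ)
    (I.comap ((optionEquivRight κ (Fin N)) :
      MvPolynomial (Option (Fin N)) κ →+* MvPolynomial (Fin N) (Polynomial κ)))
    (X (some i)) (fun y hy => by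
      have key : (eval (fun j => y (some j))).comp
          (MvPolynomial.map (Polynomial.evalRingHom (y none))) =
          ((aeval y : MvPolynomial (Option (Fin N)) κ →ₐ[κ] κ) :
            MvPolynomial (Option (Fin N)) κ →+* κ).comp
          (((optionEquivRight κ (Fin N)).symm : MvPolynomial (Fin N) (Polynomial κ) →+*
            MvPolynomial (Option (Fin N)) κ)) := by
        refine MvPolynomial.ringHom_ext (fun p => ?_) (fun j => ?_)
        · have h1 : (optionEquivRight κ (Fin N)).symm (C p) =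
              Polynomial.aeval (X none : MvPolynomial (Option (Fin N)) κ) p := by
            rw [optionEquivRight_symm_apply, aevalTower_C]
          rw [RingHom.comp_apply, RingHom.comp_apply, map_C, eval_C]
          change Polynomial.eval (y none) p = aeval y ((optionEquivRight κ (Fin N)).symm (C p))
          rw [h1, ← Polynomial.aeval_algHom_apply, aeval_X]
          exact (congrFun (Polynomial.coe_aeval_eq_eval (y none)) p).symm
        · have h1 : (optionEquivRight κ (Fin N)).symm (X j) = X (some j) := by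
            rw [optionEquivRight_symm_apply, aevalTower_X]
          rw [RingHom.comp_apply, RingHom.comp_apply, map_X, eval_X]
          change y (some j) = aeval y ((optionEquivRight κ (Fin N)).symm (X j))
          rw [h1, aeval_X]
      have h2 : (fun j => y (some j)) = 0 := by
        refine h (y none) _ fun P hP => ?_
        have h3 := congrArg (fun f => f P) key
        rw [RingHom.comp_apply, RingHom.comp_apply] at h3
        rw [h3]
        refine hy _ ?_
        rw [Ideal.mem_comap]
        change (optionEquivRight κ (Fin N)) ((optionEquivRight κ (Fin N)).symm P) ∈ I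
        rw [AlgEquiv.apply_symm_apply]
        exact hP
      rw [aeval_X]
      exact congrFun h2 i)
  refine ⟨n, ?_⟩
  rw [Ideal.mem_comap, map_pow] at hn
  have h4 : ((optionEquivRight κ (Fin N)) : MvPolynomial (Option (Fin N)) κ →+*
      MvPolynomial (Fin N) (Polynomial κ)) (X (some i)) = X i := optionEquivRight_X_some κ _ i
  rwa [h4] at hn

theorem mono_mem {R : Type*} [CommRing R] {N : ℕ} (hN : 0 < N) (I : Ideal (MvPolynomial (Fin N) R))
    (M : ℕ) (h : ∀ i, (X i : MvPolynomial (Fin N) R) ^ M ∈ I) (e : Fin N →₀ ℕ)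
    (he : N * M ≤ dg e) : monomial e (1 : R) ∈ I := by
  obtain ⟨i, hi⟩ : ∃ i, M ≤ e i := by
    by_contra hcon
    push Not at hcon
    have h1 : ∑ i, e i < ∑ _i : Fin N, M :=
      Finset.sum_lt_sum_of_nonempty ⟨⟨0, hN⟩, Finset.mem_univ _⟩ fun i _ => hcon i
    rw [Finset.sum_const, Finset.card_univ, Fintype.card_fin, smul_eq_mul] at h1
    unfold dg at he
    omega
  have h1 : Finsupp.single i M ≤ e := by
    rw [Finsupp.single_le_iff]
    exact hi
  have h2 : monomial e (1 : R) = monomial (e - Finsupp.single i M) 1 * X i ^ M := by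
    rw [X_pow_eq_monomial, monomial_mul, tsub_add_cancel_of_le h1, one_mul]
  rw [h2]
  exact I.mul_mem_left _ (h i)

theorem hm_mem {R : Type*} [CommRing R] {N : ℕ} (I : Ideal (MvPolynomial (Fin N) R)) (M m : ℕ)
    (h : ∀ e : Fin N →₀ ℕ, M ≤ dg e → monomial e (1 : R) ∈ I) (hm : M ≤ m)
    (P : MvPolynomial (Fin N) R) (hP : Hm m P) : P ∈ I := by
  rw [P.as_sum]
  refine I.sum_mem fun e he => ?_
  have h1 : monomial e (coeff e P) = C (coeff e P) * monomial e (1 : R) := by
    rw [C_mul_monomial, mul_one]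
  rw [h1]
  exact I.mul_mem_left _ (h e (hm.trans (hP e he).ge))

end MPadcLZ
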