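import Pool.Agent.Lib.MP_adc574_ag_LZ.GeoB
import Pool.Agent.Lib.MP_adc574_ag_LZ.GeoD

/-!
# Part VI, file E: the ideal of the line `{(c σ, τ)}`

`L = l.map C` (`l` linear, `l(σ) = 1`), `y_k = X k - L σ_k`, `s = C (t - τ)`; `I = lineI l τ σ`.

* `line_ev`: enough for the generators (`Submodule.span_induction`, or `Ideal.span_le` for the kernel of the ring hom `P ↦ eval (c • σ) (P.map (evalRingHom τ))`): `s ↦ 0`; `y_k ↦ c σ_k - l(c σ) σ_k = 0` (`l` linear: `l(c σ) = c l(σ)`: `aeval_hom` or `Hm`).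
* `line_one`: for `P` over `κ` with `Hm m P`: `P.map C - L ^ m C (C P(σ)) ∈ I`: `P.map C = aeval (fun k => X k) P` (`κ`-algebra `κ[t][x]`), `X k = L σ_k + y_k`; `taylor_sq` with this `I` (`I ^ 2 ≤ I`, and the linear terms are in `I`), and `aeval_hom` for the constant term.
* `line_two`: the same mod `I ^ 2`: `P.map C - L ^ (m + 1) C (C P(σ)) - L ^ m ∑_k C (C (P_k(σ))) y_k ∈ I ^ 2` for `Hm (m + 1) P` (`P_k` is homogeneous of degree `m`: `Hm_pderiv`).
* `line_inter`: `P.map C - C ξ L ^ m = (P.map C - L ^ m C (C P(σ))) - L ^ m C (ξ - C (ξ(τ)))`, and `ξ - C (ξ(τ)) = (t - τ) q`.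
* `line_loc`: `f_i := pc G_i H_i = pderiv i (pc G H) ∈ Jac (pc G H) =: J`. With `E_i = G_i - C τ * H_i`: `f_i = E_i.map C - s H_i.map C`. By `line_two` for `E_i` (degree `d - 1 = (d - 2) + 1`) and `line_one` for `H_i`, using `E_i(σ) = 0`:
  `f_i ≡ L ^ (d-2) ∑_k hes_ik y_k - L ^ (d-1) H_i(σ) s mod I ^ 2`, `hes_ik = eval σ (pderiv k E_i)` (symmetric in `i, k`: `pderiv` commute). Multiply by `σ_i` and sum: `∑_i σ_i hes_ik = (d - 1) E_k(σ) = 0` (Euler for `E_k`) and `∑ σ_i H_i(σ) = d H(σ)`: `L ^ (d-1) s ∈ J ⊔ I ^ 2` (`d H(σ) ≠ 0`).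
  So `L ^ (d-2) ∑_k hes_ik y_k ∈ J ⊔ I ^ 2`; multiply with `B`: `L ^ (d-2) (y_m - σ_m λ) ∈ J ⊔ I ^ 2`, `λ = ∑ lam_k y_k`. Multiply with the coefficient `l_m` of `l` and sum: `∑ l_m y_m = L - L l(σ) = 0`, `∑ l_m σ_m = 1`, so `L ^ (d-2) λ ∈ J ⊔ I ^ 2`, hence `L ^ (d-2) y_m ∈ J ⊔ I ^ 2`. So `L ^ (d-1) g ∈ J ⊔ I ^ 2` for all generators `g`.
* `line_det`: `det_trick` for `g = lineG l τ σ` (`Fintype.card (Option (Fin N)) = N + 1`).
-/

set_option autoImplicit false

namespace MPadcLZ

open MvPolynomial MPadcHM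

universe u

variable {κ : Type u} [Field κ] {N d : ℕ} {G H : MvPolynomial (Fin N) κ}

/-- The generators of the ideal of the line. -/
noncomputable def lineG (l : MvPolynomial (Fin N) κ) (τ : κ) (σ : Fin N → κ) :
    Option (Fin N) → MvPolynomial (Fin N) (Polynomial κ)
  | none => C (Polynomial.X - Polynomial.C τ)
  | some k => X k - l.map Polynomial.C * C (Polynomial.C (σ k))

/-- The ideal of the line. -/
noncomputable def lineI (l : MvPolynomial (Fin N) κ) (τ : κ) (σ : Fin N → κ) :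
    Ideal (MvPolynomial (Fin N) (Polynomial κ)) :=
  Ideal.span (Set.range (lineG l τ σ))

variable {l : MvPolynomial (Fin N) κ} {τ : κ} {σ : Fin N → κ}

private theorem map_eq_aeval {κ : Type u} [Field κ] {N : ℕ} (P : MvPolynomial (Fin N) κ) :
    P.map Polynomial.C = aeval (fun k => (X k : MvPolynomial (Fin N) (Polynomial κ))) P := by
  induction P using MvPolynomial.induction_on with
  | C a =>
    rw [map_C, aeval_C]
    rfl
  | add p q hp hq => rw [map_add, map_add, hp, hq]
  | mul_X p i hp => rw [map_mul, map_mul, hp, map_X, aeval_X]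

private theorem pd_comm {R : Type*} [CommRing R] {N : ℕ} (i j : Fin N) (p : MvPolynomial (Fin N) R) :
    pderiv i (pderiv j p) = pderiv j (pderiv i p) := by
  rcases eq_or_ne i j with h | h
  · rw [h]
  · ext m
    rw [coeff_pderiv, coeff_pderiv, coeff_pderiv, coeff_pderiv, add_right_comm]
    have h1 : (m + Finsupp.single i 1 : Fin N →₀ ℕ) j = m j := by
      rw [Finsupp.add_apply, Finsupp.single_eq_of_ne (Ne.symm h), add_zero]
    have h2 : (m + Finsupp.single j 1 : Fin N →₀ ℕ) i = m i := by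
      rw [Finsupp.add_apply, Finsupp.single_eq_of_ne h, add_zero]
    rw [h1, h2]
    ring

private theorem euler_ev {R : Type*} [CommRing R] {N m : ℕ} {P : MvPolynomial (Fin N) R} (hP : Hm m P)
    (x : Fin N → R) : ∑ i, x i * eval x (pderiv i P) = m * eval x P := by
  have h := congrArg (eval x) (Hm_iff.1 hP).sum_X_mul_pderiv
  rw [map_sum, nsmul_eq_mul, map_mul, map_natCast] at h
  rw [← h]
  exact Finset.sum_congr rfl fun i _ => by rw [map_mul, eval_X]

private theorem line_sq {κ : Type u} [Field κ] {N : ℕ} (l : MvPolynomial (Fin N) κ) (τ : κ)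
    (σ : Fin N → κ) {m : ℕ} (P : MvPolynomial (Fin N) κ) (hP : Hm m P) :
    P.map Polynomial.C - l.map Polynomial.C ^ m * C (Polynomial.C (eval σ P)) -
      ∑ k, l.map Polynomial.C ^ (m - 1) * C (Polynomial.C (eval σ (pderiv k P))) *
        lineG l τ σ (some k) ∈ lineI l τ σ ^ 2 := by
  have hb : ∀ k, lineG l τ σ (some k) ∈ lineI l τ σ := fun k =>
    Ideal.subset_span ⟨some k, rfl⟩
  have h := taylor_sq (R := κ) (lineI l τ σ)
    (fun k => l.map Polynomial.C * algebraMap κ (MvPolynomial (Fin N) (Polynomial κ)) (σ k))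
    (fun k => lineG l τ σ (some k)) hb P
  have hX : (fun k => l.map Polynomial.C * algebraMap κ (MvPolynomial (Fin N) (Polynomial κ)) (σ k) +
      lineG l τ σ (some k)) = fun k => (X k : MvPolynomial (Fin N) (Polynomial κ)) := by
    funext k
    change l.map Polynomial.C * C (Polynomial.C (σ k)) +
      (X k - l.map Polynomial.C * C (Polynomial.C (σ k))) = X k
    ring
  rw [hX, ← map_eq_aeval, aeval_hom (l.map Polynomial.C) σ P hP] at h
  have hs : ∑ k, aeval (fun k => l.map Polynomial.C *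
      algebraMap κ (MvPolynomial (Fin N) (Polynomial κ)) (σ k)) (pderiv k P) * lineG l τ σ (some k) =
      ∑ k, l.map Polynomial.C ^ (m - 1) * C (Polynomial.C (eval σ (pderiv k P))) *
        lineG l τ σ (some k) := by
    refine Finset.sum_congr rfl fun k _ => ?_
    rw [aeval_hom (l.map Polynomial.C) σ (pderiv k P) (Hm_pderiv hP k)]
    rfl
  rw [hs] at h
  exact h

private theorem abs_loc {κ A : Type*} [Field κ] [CommRing A] (K : κ →+* A) {N e : ℕ} (L s : A)
    (y : Fin N → A) (Q : Ideal A) (σ lam : Fin N → κ) (hes : Fin N → Fin N → κ) (hH : Fin N → κ)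
    (l' : Fin N → κ) (B : Fin N → Fin N → κ) (c : κ) (hc : c ≠ 0)
    (hcong : ∀ i, L ^ e * ∑ k, K (hes i k) * y k - L ^ (e + 1) * K (hH i) * s ∈ Q)
    (hes0 : ∀ k, ∑ i, σ i * hes i k = 0) (hHc : ∑ i, σ i * hH i = c)
    (hBe : ∀ m k, ∑ i, B m i * hes i k = (if m = k then 1 else 0) - σ m * lam k)
    (hl : ∑ m, K (l' m) * y m ∈ Q) (hl1 : ∑ m, σ m * l' m = 1) :
    L ^ (e + 1) * s ∈ Q ∧ ∀ m, L ^ (e + 1) * y m ∈ Q := by
  have hs : L ^ (e + 1) * s ∈ Q := by
    have h1 : ∑ i, K (σ i) * (L ^ e * ∑ k, K (hes i k) * y k - L ^ (e + 1) * K (hH i) * s) ∈ Q :=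
      Ideal.sum_mem _ fun i _ => Ideal.mul_mem_left _ _ (hcong i)
    have h5 : ∑ i, K (σ i) * (L ^ e * ∑ k, K (hes i k) * y k - L ^ (e + 1) * K (hH i) * s) =
        L ^ e * (∑ k, K (∑ i, σ i * hes i k) * y k) - L ^ (e + 1) * K (∑ i, σ i * hH i) * s := by
      simp only [map_sum, map_mul, mul_sub, Finset.sum_sub_distrib, Finset.sum_mul, Finset.mul_sum]
      congr 1
      · rw [Finset.sum_comm]
        refine Finset.sum_congr rfl fun k _ => Finset.sum_congr rfl fun i _ => ?_
        ring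
      · refine Finset.sum_congr rfl fun k _ => ?_
        ring
    rw [h5, hHc] at h1
    simp only [hes0, map_zero, zero_mul, Finset.sum_const_zero, mul_zero, zero_sub] at h1
    have h6 := (Ideal.neg_mem_iff _).1 h1
    have h7 := Ideal.mul_mem_left _ (K c⁻¹) h6
    have h8 : K c⁻¹ * (L ^ (e + 1) * K c * s) = K (c⁻¹ * c) * (L ^ (e + 1) * s) := by
      rw [map_mul]
      ring
    rw [h8, inv_mul_cancel₀ hc, map_one, one_mul] at h7
    exact h7
  have hh : ∀ i, L ^ e * ∑ k, K (hes i k) * y k ∈ Q := by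
    intro i
    have h1 := Ideal.add_mem _ (hcong i) (Ideal.mul_mem_left _ (K (hH i)) hs)
    have h2 : L ^ e * ∑ k, K (hes i k) * y k - L ^ (e + 1) * K (hH i) * s +
        K (hH i) * (L ^ (e + 1) * s) = L ^ e * ∑ k, K (hes i k) * y k := by
      ring
    rw [h2] at h1
    exact h1
  have hy : ∀ m, L ^ e * (y m - K (σ m) * ∑ k, K (lam k) * y k) ∈ Q := by
    intro m
    have h1 : ∑ i, K (B m i) * (L ^ e * ∑ k, K (hes i k) * y k) ∈ Q :=
      Ideal.sum_mem _ fun i _ => Ideal.mul_mem_left _ _ (hh i)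
    have h5 : ∑ i, K (B m i) * (L ^ e * ∑ k, K (hes i k) * y k) =
        L ^ e * (∑ k, K (∑ i, B m i * hes i k) * y k) := by
      simp only [map_sum, map_mul, Finset.sum_mul, Finset.mul_sum]
      rw [Finset.sum_comm]
      refine Finset.sum_congr rfl fun k _ => Finset.sum_congr rfl fun i _ => ?_
      ring
    have h6 : ∑ k, K (∑ i, B m i * hes i k) * y k = y m - K (σ m) * ∑ k, K (lam k) * y k := by
      have h7 : ∀ k, K (∑ i, B m i * hes i k) * y k =
          (if m = k then y k else 0) - K (σ m) * (K (lam k) * y k) := by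
        intro k
        rw [hBe m k, map_sub, map_mul, sub_mul, mul_assoc]
        congr 1
        split_ifs
        · rw [map_one, one_mul]
        · rw [map_zero, zero_mul]
      rw [Finset.sum_congr rfl fun k _ => h7 k, Finset.sum_sub_distrib, Finset.sum_ite_eq,
        if_pos (Finset.mem_univ _), Finset.mul_sum]
    rw [h5, h6] at h1
    exact h1
  have hlam : L ^ e * ∑ k, K (lam k) * y k ∈ Q := by
    have h3 : ∑ m, K (l' m) * (L ^ e * (y m - K (σ m) * ∑ k, K (lam k) * y k)) ∈ Q :=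
      Ideal.sum_mem _ fun m _ => Ideal.mul_mem_left _ _ (hy m)
    have h5 : ∑ m, K (l' m) * (L ^ e * (y m - K (σ m) * ∑ k, K (lam k) * y k)) =
        L ^ e * (∑ m, K (l' m) * y m) -
        K (∑ m, σ m * l' m) * (L ^ e * ∑ k, K (lam k) * y k) := by
      rw [map_sum, Finset.sum_mul, Finset.mul_sum (a := L ^ e) (s := Finset.univ)
        (f := fun m => K (l' m) * y m), ← Finset.sum_sub_distrib]
      refine Finset.sum_congr rfl fun m _ => ?_
      rw [map_mul]
      ring
    rw [h5, hl1, map_one, one_mul] at h3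
    have h6 := Ideal.sub_mem _ (Ideal.mul_mem_left _ (L ^ e) hl) h3
    have h7 : L ^ e * (∑ m, K (l' m) * y m) -
        (L ^ e * (∑ m, K (l' m) * y m) - L ^ e * ∑ k, K (lam k) * y k) =
        L ^ e * ∑ k, K (lam k) * y k := by
      ring
    rw [h7] at h6
    exact h6
  refine ⟨hs, fun m => ?_⟩
  have h1 := Ideal.add_mem _ (hy m) (Ideal.mul_mem_left _ (K (σ m)) hlam)
  have h2 : L ^ e * (y m - K (σ m) * ∑ k, K (lam k) * y k) +
      K (σ m) * (L ^ e * ∑ k, K (lam k) * y k) = L ^ e * y m := by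
    ring
  rw [h2] at h1
  have h3 := Ideal.mul_mem_left _ L h1
  rw [← mul_assoc, ← pow_succ'] at h3
  exact h3

private theorem abs_cong {A : Type*} [CommRing A] (Q I : Ideal A) (hI : I ^ 2 ≤ Q) (f E hm Y Z s : A)
    (hf : E - s * hm = f) (h1 : f ∈ Q) (h2 : E - Y ∈ I ^ 2) (h3 : hm - Z ∈ I) (hs : s ∈ I) :
    Y - Z * s ∈ Q := by
  have h4 : s * (hm - Z) ∈ I ^ 2 := by
    rw [pow_two]
    exact Ideal.mul_mem_mul hs h3
  have h5 := Ideal.add_mem _ (Ideal.sub_mem _ h1 (hI h2)) (hI h4)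
  have h6 : Y - Z * s = f - (E - Y) + s * (hm - Z) := by
    rw [← hf]
    ring
  rw [h6]
  exact h5

theorem line_ev (hl : Hm 1 l) (h1 : eval σ l = 1) (c : κ)
    {P : MvPolynomial (Fin N) (Polynomial κ)} (hP : P ∈ lineI l τ σ) :
    eval (c • σ) (P.map (Polynomial.evalRingHom τ)) = 0 := by
  have hle : lineI l τ σ ≤ RingHom.ker ((eval (c • σ)).comp
      (MvPolynomial.map (Polynomial.evalRingHom τ))) := by
    unfold lineI
    rw [Ideal.span_le]
    rintro _ ⟨o, rfl⟩
    rw [SetLike.mem_coe, RingHom.mem_ker, RingHom.comp_apply]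
    cases o with
    | none =>
      change eval (c • σ) (MvPolynomial.map (Polynomial.evalRingHom τ)
        (C (Polynomial.X - Polynomial.C τ))) = 0
      rw [map_C, eval_C, Polynomial.coe_evalRingHom, Polynomial.eval_sub, Polynomial.eval_X,
        Polynomial.eval_C, sub_self]
    | some k =>
      change eval (c • σ) (MvPolynomial.map (Polynomial.evalRingHom τ)
        (X k - l.map Polynomial.C * C (Polynomial.C (σ k)))) = 0
      have hcomp : (Polynomial.evalRingHom τ).comp Polynomial.C = RingHom.id κ := by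
        ext x
        simp
      have hm : MvPolynomial.map (Polynomial.evalRingHom τ) (l.map Polynomial.C) = l := by
        rw [MvPolynomial.map_map, hcomp, MvPolynomial.map_id]
      have h2 : eval (c • σ) l = c := by
        have h3 := aeval_hom (R := κ) (A := κ) c σ l hl
        rw [pow_one, h1, map_one, mul_one] at h3
        exact h3
      rw [map_sub, map_mul, map_X, map_C, hm, map_sub, map_mul, eval_X, eval_C, h2,
        Polynomial.coe_evalRingHom, Polynomial.eval_C]
      change c * σ k - c * σ k = 0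
      ring
  exact RingHom.mem_ker.1 (hle hP)

theorem line_one {m : ℕ} (P : MvPolynomial (Fin N) κ) (hP : Hm m P) :
    P.map Polynomial.C - l.map Polynomial.C ^ m * C (Polynomial.C (eval σ P)) ∈ lineI l τ σ := by
  have h := Ideal.pow_le_self (two_ne_zero) (line_sq l τ σ P hP)
  have h2 : ∑ k, l.map Polynomial.C ^ (m - 1) * C (Polynomial.C (eval σ (pderiv k P))) *
        lineG l τ σ (some k) ∈ lineI l τ σ :=
    Ideal.sum_mem _ fun k _ => Ideal.mul_mem_left _ _ (Ideal.subset_span ⟨some k, rfl⟩)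
  have h3 := Ideal.add_mem _ h h2
  rwa [sub_add_cancel] at h3

theorem line_two {m : ℕ} (P : MvPolynomial (Fin N) κ) (hP : Hm (m + 1) P) :
    P.map Polynomial.C - l.map Polynomial.C ^ (m + 1) * C (Polynomial.C (eval σ P)) -
      l.map Polynomial.C ^ m * ∑ k, C (Polynomial.C (eval σ (pderiv k P))) *
        lineG l τ σ (some k) ∈ lineI l τ σ ^ 2 := by
  have h := line_sq l τ σ P hP
  rw [Finset.mul_sum]
  simp only [Nat.add_sub_cancel, mul_assoc] at h ⊢
  exact h

theorem line_inter {m : ℕ} (P : MvPolynomial (Fin N) κ) (hP : Hm m P) (ξ : Polynomial κ)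
    (hξ : ξ.eval τ = eval σ P) :
    P.map Polynomial.C - C ξ * l.map Polynomial.C ^ m ∈ lineI l τ σ := by
  have h := line_one (l := l) (τ := τ) (σ := σ) P hP
  have h2 : Polynomial.X - Polynomial.C τ ∣ ξ - Polynomial.C (ξ.eval τ) := by
    rw [Polynomial.dvd_iff_isRoot, Polynomial.IsRoot.def, Polynomial.eval_sub, Polynomial.eval_C,
      sub_self]
  obtain ⟨q, hq⟩ := h2
  have h3 : (C (Polynomial.X - Polynomial.C τ) : MvPolynomial (Fin N) (Polynomial κ)) ∈ lineI l τ σ :=
    Ideal.subset_span ⟨none, rfl⟩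
  have h4 := Ideal.sub_mem _ h (Ideal.mul_mem_left _ (C q * l.map Polynomial.C ^ m) h3)
  have h5 : (C ξ : MvPolynomial (Fin N) (Polynomial κ)) =
      C (Polynomial.C (eval σ P)) + C (Polynomial.X - Polynomial.C τ) * C q := by
    rw [← C_mul, ← C_add, ← hq, ← hξ]
    congr 1
    ring
  rw [h5]
  have h6 : P.map Polynomial.C - (C (Polynomial.C (eval σ P)) +
      C (Polynomial.X - Polynomial.C τ) * C q) * l.map Polynomial.C ^ m =
      P.map Polynomial.C - l.map Polynomial.C ^ m * C (Polynomial.C (eval σ P)) -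
        C q * l.map Polynomial.C ^ m * C (Polynomial.X - Polynomial.C τ) := by
    ring
  rw [h6]
  exact h4

private theorem geb_lin {l : MvPolynomial (Fin N) κ} (hl : Hm 1 l) :
    ∃ c : Fin N → κ, l = ∑ m, C (c m) * X m := by
  have h1 := (Hm_iff.1 hl).sum_X_mul_pderiv
  have h2 : ∀ m, ∃ c : κ, pderiv m l = C c := by
    intro m
    have h3 : (pderiv m l).IsHomogeneous 0 := (Hm_iff.1 hl).pderiv
    exact ⟨coeff 0 (pderiv m l), (totalDegree_eq_zero_iff_eq_C.1
      (Nat.le_zero.1 h3.totalDegree_le))⟩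
  choose c hc using h2
  refine ⟨c, ?_⟩
  rw [one_nsmul] at h1
  rw [← h1]
  refine Finset.sum_congr rfl fun m _ => ?_
  rw [hc m]
  exact mul_comm _ _

private theorem geb_pd {R : Type*} [CommRing R] (i j : Fin N) (P : MvPolynomial (Fin N) R) :
    pderiv i (pderiv j P) = pderiv j (pderiv i P) := by
  classical
  ext e
  rw [coeff_pderiv, coeff_pderiv, coeff_pderiv, coeff_pderiv]
  have h1 : e + Finsupp.single i 1 + Finsupp.single j 1 =
      e + Finsupp.single j 1 + Finsupp.single i 1 := by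
    rw [add_assoc, add_comm (Finsupp.single i 1), ← add_assoc]
  rw [h1]
  by_cases hij : i = j
  · subst hij
    rfl
  · have h2 : (e + Finsupp.single i 1 : Fin N →₀ ℕ) j = e j := by
      rw [Finsupp.add_apply, Finsupp.single_eq_of_ne (fun h => hij h.symm), add_zero]
    have h3 : (e + Finsupp.single j 1 : Fin N →₀ ℕ) i = e i := by
      rw [Finsupp.add_apply, Finsupp.single_eq_of_ne hij, add_zero]
    rw [h2, h3]
    ring

private theorem geb_none_mem : lineG l τ σ none ∈ lineI l τ σ :=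
  Ideal.subset_span ⟨none, rfl⟩

private theorem geb_some_mem (k : Fin N) : lineG l τ σ (some k) ∈ lineI l τ σ :=
  Ideal.subset_span ⟨some k, rfl⟩

theorem line_loc [CharZero κ] (hd : 2 ≤ d) (hG : Hm d G) (hH : Hm d H) (hl : Hm 1 l)
    (h1 : eval σ l = 1) (hc : ∀ i, eval σ (pderiv i G) = τ * eval σ (pderiv i H))
    (hu : eval σ H ≠ 0)
    (hB : ∃ (B : Matrix (Fin N) (Fin N) κ) (lam : Fin N → κ),
      B * (Matrix.of fun a b => eval σ (pderiv a (pderiv b (G - C τ * H)))) =
        1 - Matrix.vecMulVec σ lam) (a : Option (Fin N)) :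
    l.map Polynomial.C ^ (d - 1) * lineG l τ σ a ∈ Jac (pc G H) ⊔ lineI l τ σ ^ 2 := by
  classical
  obtain ⟨m, rfl⟩ : ∃ m, d = m + 2 := ⟨d - 2, by omega⟩
  obtain ⟨B, lam, hB⟩ := hB
  have hd1 : m + 2 - 1 = m + 1 := rfl
  rw [hd1]
  set L : MvPolynomial (Fin N) (Polynomial κ) := l.map Polynomial.C with hL
  set s : MvPolynomial (Fin N) (Polynomial κ) := lineG l τ σ none with hs
  let c2 : κ →+* MvPolynomial (Fin N) (Polynomial κ) :=
    (C : Polynomial κ →+* MvPolynomial (Fin N) (Polynomial κ)).comp Polynomial.C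
  have hc2 : ∀ x : κ, (C (Polynomial.C x) : MvPolynomial (Fin N) (Polynomial κ)) = c2 x :=
    fun x => rfl
  set T := Jac (pc G H) ⊔ lineI l τ σ ^ 2 with hT
  let y : Fin N → MvPolynomial (Fin N) (Polynomial κ) := fun k => lineG l τ σ (some k)
  have hsI : s ∈ lineI l τ σ := geb_none_mem
  let E : Fin N → MvPolynomial (Fin N) κ := fun i => pderiv i G - C τ * pderiv i H
  have hE : ∀ i, Hm (m + 1) (E i) := fun i =>
    Hm_sub (Hm_pderiv hG i) (Hm_C_mul (Hm_pderiv hH i) _)
  have hE0 : ∀ i, eval σ (E i) = 0 := by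
    intro i
    simp only [E, map_sub, map_mul, eval_C]
    rw [hc i, sub_self]
  let hes : Matrix (Fin N) (Fin N) κ :=
    Matrix.of fun a b => eval σ (pderiv a (pderiv b (G - C τ * H)))
  have hEF : ∀ i, pderiv i (G - C τ * H) = E i := by
    intro i
    simp only [E, map_sub, Derivation.leibniz, pderiv_C, mul_zero, add_zero, smul_eq_mul]
  have hes1 : ∀ k i, eval σ (pderiv k (E i)) = hes k i := by
    intro k i
    simp only [hes, Matrix.of_apply, hEF]
  have hes2 : ∀ k i, hes k i = hes i k := by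
    intro k i
    simp only [hes, Matrix.of_apply]
    rw [geb_pd]
  have hf : ∀ i, pc (pderiv i G) (pderiv i H) = (E i).map Polynomial.C -
      s * (pderiv i H).map Polynomial.C := by
    intro i
    simp only [pc, E, hs, lineG, map_sub, map_mul, map_C]
    ring
  -- step 1
  have st1 : ∀ i, L ^ m * ∑ k, c2 (hes k i) * y k - L ^ (m + 1) * c2 (eval σ (pderiv i H)) * s ∈ T := by
    intro i
    have e1 : pc (pderiv i G) (pderiv i H) ∈ T := by
      refine (le_sup_left : Jac (pc G H) ≤ T) ?_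
      rw [← pc_pd]
      exact Ideal.subset_span ⟨i, rfl⟩
    have e2 := line_two (l := l) (τ := τ) (σ := σ) (m := m) (E i) (hE i)
    rw [hE0 i, map_zero, map_zero, mul_zero, sub_zero] at e2
    have e3 := line_one (l := l) (τ := τ) (σ := σ) (m := m + 1) (pderiv i H) (Hm_pderiv hH i)
    have e4 : s * ((pderiv i H).map Polynomial.C - l.map Polynomial.C ^ (m + 1) *
        C (Polynomial.C (eval σ (pderiv i H)))) ∈ lineI l τ σ ^ 2 := by
      rw [pow_two]
      exact Ideal.mul_mem_mul hsI e3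
    have e5 : L ^ m * ∑ k, c2 (hes k i) * y k - L ^ (m + 1) * c2 (eval σ (pderiv i H)) * s =
        pc (pderiv i G) (pderiv i H) - ((E i).map Polynomial.C -
          l.map Polynomial.C ^ m * ∑ k, C (Polynomial.C (eval σ (pderiv k (E i)))) *
          lineG l τ σ (some k)) + s * ((pderiv i H).map Polynomial.C -
            l.map Polynomial.C ^ (m + 1) * C (Polynomial.C (eval σ (pderiv i H)))) := by
      rw [hf i]
      have e6 : ∑ k, c2 (hes k i) * y k = ∑ k, C (Polynomial.C (eval σ (pderiv k (E i)))) *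
          lineG l τ σ (some k) := by
        refine Finset.sum_congr rfl fun k _ => ?_
        rw [hes1 k i]
        rfl
      rw [e6, hc2 (eval σ (pderiv i H))]
      ring
    rw [e5]
    exact Ideal.add_mem _ (Ideal.sub_mem _ e1 ((le_sup_right : _ ≤ T) e2))
      ((le_sup_right : _ ≤ T) e4)
  -- step 2
  have eul : ∀ (q : ℕ) (P : MvPolynomial (Fin N) κ), Hm q P →
      ∑ i, σ i * eval σ (pderiv i P) = (q : κ) * eval σ P := by
    intro q P hP
    have h3 := congrArg (eval σ) (Hm_iff.1 hP).sum_X_mul_pderiv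
    rw [map_sum, map_nsmul, nsmul_eq_mul] at h3
    rw [← h3]
    refine Finset.sum_congr rfl fun i _ => ?_
    rw [map_mul, eval_X]
  have st2 : L ^ (m + 1) * s ∈ T := by
    have e1 : ∑ i, c2 (σ i) * (L ^ m * ∑ k, c2 (hes k i) * y k -
        L ^ (m + 1) * c2 (eval σ (pderiv i H)) * s) ∈ T :=
      Ideal.sum_mem _ fun i _ => Ideal.mul_mem_left _ _ (st1 i)
    have e2 : ∑ i, c2 (σ i) * (L ^ m * ∑ k, c2 (hes k i) * y k -
        L ^ (m + 1) * c2 (eval σ (pderiv i H)) * s) =
        L ^ m * ∑ k, c2 (∑ i, σ i * hes k i) * y k -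
          L ^ (m + 1) * c2 (∑ i, σ i * eval σ (pderiv i H)) * s := by
      simp only [map_sum, map_mul, Finset.mul_sum, Finset.sum_mul, mul_sub, Finset.sum_sub_distrib]
      rw [Finset.sum_comm]
      refine congrArg₂ _ ?_ ?_
      · refine Finset.sum_congr rfl fun k _ => Finset.sum_congr rfl fun i _ => ?_
        ring
      · refine Finset.sum_congr rfl fun i _ => ?_
        ring
    have e3 : ∀ k, ∑ i, σ i * hes k i = 0 := by
      intro k
      have e4 : ∑ i, σ i * hes k i = ∑ i, σ i * eval σ (pderiv i (E k)) := by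
        refine Finset.sum_congr rfl fun i _ => ?_
        rw [hes2 k i, hes1 i k]
      rw [e4, eul (m + 1) (E k) (hE k), hE0 k, mul_zero]
    have e5 : ∑ k, c2 (∑ i, σ i * hes k i) * y k = 0 := by
      refine Finset.sum_eq_zero fun k _ => ?_
      rw [e3 k, map_zero, zero_mul]
    rw [e2, e5, mul_zero, zero_sub, eul (m + 2) H hH] at e1
    have e6 : ((m + 2 : ℕ) : κ) * eval σ H ≠ 0 := by
      refine mul_ne_zero ?_ hu
      exact_mod_cast (by omega : m + 2 ≠ 0)
    have e7 := Ideal.mul_mem_left T (- c2 (((m + 2 : ℕ) : κ) * eval σ H)⁻¹) e1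
    have e8 : - c2 (((m + 2 : ℕ) : κ) * eval σ H)⁻¹ *
        -(L ^ (m + 1) * c2 (((m + 2 : ℕ) : κ) * eval σ H) * s) = L ^ (m + 1) * s := by
      have e9 : c2 (((m + 2 : ℕ) : κ) * eval σ H)⁻¹ * c2 (((m + 2 : ℕ) : κ) * eval σ H) = 1 := by
        rw [← map_mul, inv_mul_cancel₀ e6, map_one]
      calc - c2 (((m + 2 : ℕ) : κ) * eval σ H)⁻¹ *
            -(L ^ (m + 1) * c2 (((m + 2 : ℕ) : κ) * eval σ H) * s)
          = (c2 (((m + 2 : ℕ) : κ) * eval σ H)⁻¹ * c2 (((m + 2 : ℕ) : κ) * eval σ H)) *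
            (L ^ (m + 1) * s) := by ring
        _ = L ^ (m + 1) * s := by rw [e9, one_mul]
    rw [e8] at e7
    exact e7
  have st3 : ∀ i, L ^ m * ∑ k, c2 (hes i k) * y k ∈ T := by
    intro i
    have e1 := Ideal.add_mem _ (st1 i) (Ideal.mul_mem_left T (c2 (eval σ (pderiv i H))) st2)
    have e2 : L ^ m * ∑ k, c2 (hes k i) * y k - L ^ (m + 1) * c2 (eval σ (pderiv i H)) * s +
        c2 (eval σ (pderiv i H)) * (L ^ (m + 1) * s) = L ^ m * ∑ k, c2 (hes i k) * y k := by
      have e3 : ∑ k, c2 (hes k i) * y k = ∑ k, c2 (hes i k) * y k :=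
        Finset.sum_congr rfl fun k _ => by rw [hes2 k i]
      rw [e3]
      ring
    rw [e2] at e1
    exact e1
  -- step 4
  have st4 : ∀ j, L ^ m * (y j - c2 (σ j) * ∑ k, c2 (lam k) * y k) ∈ T := by
    intro j
    have e1 : ∑ i, c2 (B j i) * (L ^ m * ∑ k, c2 (hes i k) * y k) ∈ T :=
      Ideal.sum_mem _ fun i _ => Ideal.mul_mem_left _ _ (st3 i)
    have e2 : ∑ i, c2 (B j i) * (L ^ m * ∑ k, c2 (hes i k) * y k) =
        L ^ m * ∑ k, c2 ((B * hes) j k) * y k := by
      simp only [Matrix.mul_apply, map_sum, map_mul, Finset.mul_sum, Finset.sum_mul]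
      rw [Finset.sum_comm]
      refine Finset.sum_congr rfl fun k _ => Finset.sum_congr rfl fun i _ => ?_
      ring
    have e3 : ∑ k, c2 ((B * hes) j k) * y k = y j - c2 (σ j) * ∑ k, c2 (lam k) * y k := by
      have e4 : ∀ k, (B * hes) j k = (if j = k then 1 else 0) - σ j * lam k := by
        intro k
        have e5 := congrFun (congrFun hB j) k
        rw [Matrix.sub_apply, Matrix.one_apply, Matrix.vecMulVec_apply] at e5
        exact e5
      have e6 : ∀ k, c2 ((B * hes) j k) * y k = (if j = k then y k else 0) -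
          c2 (σ j) * (c2 (lam k) * y k) := by
        intro k
        rw [e4 k, map_sub, map_mul]
        split_ifs
        · rw [map_one]
          ring
        · rw [map_zero]
          ring
      rw [Finset.sum_congr rfl fun k _ => e6 k, Finset.sum_sub_distrib, Finset.sum_ite_eq,
        if_pos (Finset.mem_univ j), Finset.mul_sum]
    rw [e2, e3] at e1
    exact e1
  obtain ⟨lc, hlc⟩ := geb_lin hl
  have hLc : L = ∑ k, c2 (lc k) * X k := by
    rw [hL, hlc, map_sum]
    refine Finset.sum_congr rfl fun k _ => ?_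
    rw [map_mul, map_C, map_X]
    rfl
  have hl1 : ∑ k, lc k * σ k = 1 := by
    rw [hlc, map_sum] at h1
    rw [← h1]
    refine Finset.sum_congr rfl fun k _ => ?_
    rw [map_mul, eval_C, eval_X]
  have hly : ∑ k, c2 (lc k) * y k = 0 := by
    have e1 : ∀ k, c2 (lc k) * y k = c2 (lc k) * X k - L * c2 (lc k * σ k) := by
      intro k
      have : y k = X k - L * c2 (σ k) := rfl
      rw [this, map_mul]
      ring
    rw [Finset.sum_congr rfl fun k _ => e1 k, Finset.sum_sub_distrib, ← hLc, ← Finset.mul_sum,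
      ← map_sum, hl1, map_one, mul_one, sub_self]
  have st5 : L ^ m * ∑ k, c2 (lam k) * y k ∈ T := by
    have e1 : ∑ j, c2 (lc j) * (L ^ m * (y j - c2 (σ j) * ∑ k, c2 (lam k) * y k)) ∈ T :=
      Ideal.sum_mem _ fun i _ => Ideal.mul_mem_left _ _ (st4 i)
    have e2 : ∑ j, c2 (lc j) * (L ^ m * (y j - c2 (σ j) * ∑ k, c2 (lam k) * y k)) =
        L ^ m * ∑ j, c2 (lc j) * y j -
          L ^ m * (c2 (∑ j, lc j * σ j) * ∑ k, c2 (lam k) * y k) := by
      rw [map_sum, Finset.sum_mul, Finset.mul_sum, Finset.mul_sum, ← Finset.sum_sub_distrib]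
      refine Finset.sum_congr rfl fun j _ => ?_
      rw [map_mul]
      ring
    rw [e2, hly, hl1, map_one, one_mul, mul_zero, zero_sub] at e1
    have e3 := Ideal.neg_mem_iff T |>.1 e1
    exact e3
  have st6 : ∀ j, L ^ m * y j ∈ T := by
    intro j
    have e1 := Ideal.add_mem _ (st4 j) (Ideal.mul_mem_left T (c2 (σ j)) st5)
    have e2 : L ^ m * (y j - c2 (σ j) * ∑ k, c2 (lam k) * y k) +
        c2 (σ j) * (L ^ m * ∑ k, c2 (lam k) * y k) = L ^ m * y j := by ring
    rw [e2] at e1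
    exact e1
  cases a with
  | none => exact st2
  | some j =>
    have e1 := Ideal.mul_mem_left T L (st6 j)
    have e2 : L * (L ^ m * y j) = L ^ (m + 1) * lineG l τ σ (some j) := by
      change L * (L ^ m * lineG l τ σ (some j)) = _
      ring
    rw [e2] at e1
    exact e1

theorem line_det [CharZero κ] (hd : 2 ≤ d) (hG : Hm d G) (hH : Hm d H) (hl : Hm 1 l)
    (h1 : eval σ l = 1) (hc : ∀ i, eval σ (pderiv i G) = τ * eval σ (pderiv i H))
    (hu : eval σ H ≠ 0)
    (hB : ∃ (B : Matrix (Fin N) (Fin N) κ) (lam : Fin N → κ),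
      B * (Matrix.of fun a b => eval σ (pderiv a (pderiv b (G - C τ * H)))) =
        1 - Matrix.vecMulVec σ lam) :
    ∃ b : MvPolynomial (Fin N) (Polynomial κ),
      b - (l.map Polynomial.C ^ (d - 1)) ^ (N + 1) ∈ lineI l τ σ ∧
        ∀ x ∈ lineI l τ σ, b * x ∈ Jac (pc G H) := by
  have h := det_trick (Jac (pc G H)) (lineI l τ σ) (lineG l τ σ) rfl
    (l.map Polynomial.C ^ (d - 1)) (line_loc hd hG hH hl h1 hc hu hB)
  rw [Fintype.card_option, Fintype.card_fin] at h
  exact h

end MPadcLZ
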