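import Pool.Agent.Lib.MP_adc574_ag_LZ.Intf
import Pool.Agent.Lib.MP_adc574_ag_HM.InfD

/-!
# JOB InfA: degrees of rational functions

`Bd s N c` (`HM/Defs.lean`): `c = 0` or `s * intDegree c ≤ N`. Available in `HM/InfD.lean`: `Bd_add`, `Bd_mono`,
`Bd_smul`, `Bd_X`. Mathlib: `RatFunc.intDegree_mul`, `RatFunc.intDegree_add_le`, `RatFunc.intDegree_polynomial`,
`RatFunc.intDegree_C`, `RatFunc.intDegree_neg`, `RatFunc.intDegree_inv`.

* `bd_neg`, `bd_sub`, `bd_mul` (`intDegree_mul`), `bd_int` (an integer is a constant: `0` or of degree `0`),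
  `bd_exists` (`N := s * intDegree c`), `bd_cancel` (`m ≠ 0` is a nonzero constant in characteristic `0`).
* `bd_ev`: `c = a / b`, `a`, `b` polynomials, `a b ≠ 0`, `α = natDegree a`, `β = natDegree b`, `m = α - β = intDegree c`. For a
  polynomial `p` put `E p := X * derivative p - (natDegree p) * p`: `E p = 0` or `natDegree (E p) < natDegree p` (the coefficient of
  `X ^ k` is `(k - natDegree p) * coeff k p`). `X * DK c - m * c = (E a * b - a * E b) / b ^ 2` (quotient rule, `DK_poly`), and the numerator is `0` or has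
  degree `< α + β`, so `Bd 1 (m - 1) (X * DK c - m * c)`. Finally `s * X * DK c - N * c = s * (X * DK c - m c) + (s m - N) c`:
  `s m ≤ N`; if `s m = N` the second term is `0`; otherwise `s m ≤ N - 1`. The first term: `s * (degree) ≤ s (m - 1) ≤ N - s ≤ N - 1`.
* `bd_low`: `b * c = a` with polynomials `b ≠ 0`, `a`, and `c ≠ 0`: `intDegree c = natDegree a - natDegree b ≥ - natDegree b`.
-/

set_option autoImplicit false

namespace MPadcLZ

open MPadcHM

universe u

variable {κ : Type u} [Field κ] {s : ℕ}

theorem bd_neg {N : ℤ} {c : RatFunc κ} (h : Bd s N c) : Bd s N (-c) := by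
  rcases h with h | h
  · left
    rw [h, neg_zero]
  · right
    rw [RatFunc.intDegree_neg]
    exact h

theorem bd_sub {N : ℤ} {c d : RatFunc κ} (hc : Bd s N c) (hd : Bd s N d) : Bd s N (c - d) := by
  rw [sub_eq_add_neg]
  exact Bd_add hc (bd_neg hd)

theorem bd_mul {M N : ℤ} {c d : RatFunc κ} (hc : Bd s M c) (hd : Bd s N d) :
    Bd s (M + N) (c * d) := by
  rcases hc with hc | hc
  · left
    rw [hc, zero_mul]
  · rcases hd with hd | hd
    · left
      rw [hd, mul_zero]
    · by_cases hc0 : c = 0
      · left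
        rw [hc0, zero_mul]
      · by_cases hd0 : d = 0
        · left
          rw [hd0, mul_zero]
        · right
          rw [RatFunc.intDegree_mul hc0 hd0, mul_add]
          exact add_le_add hc hd

theorem bd_int (m : ℤ) : Bd s 0 ((m : ℤ) : RatFunc κ) := by
  right
  have h : ((m : ℤ) : RatFunc κ) = RatFunc.C (m : κ) := (map_intCast (RatFunc.C (K := κ)) m).symm
  rw [h, RatFunc.intDegree_C, mul_zero]

theorem bd_exists (s : ℕ) (c : RatFunc κ) : ∃ N : ℤ, Bd s N c := by
  exact ⟨s * c.intDegree, Or.inr le_rfl⟩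

private theorem infa_int_smul (m : ℤ) (c : RatFunc κ) : (m : RatFunc κ) * c = (m : κ) • c := by
  rw [Algebra.smul_def, map_intCast]

theorem bd_cancel [CharZero κ] {N m : ℤ} (hm : m ≠ 0) {c : RatFunc κ}
    (h : Bd s N ((m : RatFunc κ) * c)) : Bd s N c := by
  have hm' : (m : κ) ≠ 0 := Int.cast_ne_zero.2 hm
  have h1 : (m : κ)⁻¹ • ((m : RatFunc κ) * c) = c := by
    rw [infa_int_smul, smul_smul, inv_mul_cancel₀ hm', one_smul]
  rw [← h1]
  exact Bd_smul _ h

private noncomputable def infaE (p : Polynomial κ) : Polynomial κ :=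
  Polynomial.X * Polynomial.derivative p - (p.natDegree : Polynomial κ) * p

private theorem infa_E (p : Polynomial κ) :
    infaE p = 0 ∨ (infaE p).natDegree < p.natDegree := by
  by_cases h0 : infaE p = 0
  · exact Or.inl h0
  · right
    by_contra hlt
    have hle : p.natDegree ≤ (infaE p).natDegree := not_lt.1 hlt
    have hc : (infaE p).coeff (infaE p).natDegree = 0 := by
      generalize hk : (infaE p).natDegree = k at hle ⊢
      unfold infaE
      have h1 : (Polynomial.X * Polynomial.derivative p).coeff k = (k : κ) * p.coeff k := by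
        cases k with
        | zero => rw [Polynomial.coeff_X_mul_zero, Nat.cast_zero, zero_mul]
        | succ k =>
          rw [Polynomial.coeff_X_mul, Polynomial.coeff_derivative, Nat.cast_succ, mul_comm]
      have h2 : ((p.natDegree : Polynomial κ) * p).coeff k = (p.natDegree : κ) * p.coeff k := by
        rw [← Polynomial.C_eq_natCast, Polynomial.coeff_C_mul]
      rw [Polynomial.coeff_sub, h1, h2]
      rcases eq_or_lt_of_le hle with h3 | h3
      · rw [h3, sub_self]
      · rw [Polynomial.coeff_eq_zero_of_natDegree_lt h3, mul_zero, mul_zero, sub_zero]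
    exact h0 (Polynomial.leadingCoeff_eq_zero.1 hc)

private theorem infa_quot (s : ℕ) {e b : Polynomial κ} (hb : b ≠ 0) {k : ℤ}
    (h : e = 0 ∨ (e.natDegree : ℤ) ≤ k) :
    Bd s ((s : ℤ) * (k - b.natDegree)) (algebraMap (Polynomial κ) (RatFunc κ) e /
      algebraMap (Polynomial κ) (RatFunc κ) b) := by
  by_cases he : e = 0
  · left
    rw [he, map_zero, zero_div]
  · have h' : (e.natDegree : ℤ) ≤ k := by
      rcases h with h | h
      · exact absurd h he
      · exact h
    right
    rw [div_eq_mul_inv, RatFunc.intDegree_mul (RatFunc.algebraMap_ne_zero he)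
      (inv_ne_zero (RatFunc.algebraMap_ne_zero hb)), RatFunc.intDegree_inv,
      RatFunc.intDegree_polynomial, RatFunc.intDegree_polynomial]
    apply mul_le_mul_of_nonneg_left _ (Int.natCast_nonneg s)
    linarith

theorem bd_ev [CharZero κ] (hs : 1 ≤ s) {N : ℤ} {c : RatFunc κ} (h : Bd s N c) :
    Bd s (N - 1) ((s : RatFunc κ) * RatFunc.X * DK κ c - (N : RatFunc κ) * c) := by
  by_cases hc0 : c = 0
  · left
    rw [hc0, map_zero, mul_zero, mul_zero, sub_zero]
  have hN : (s : ℤ) * c.intDegree ≤ N := by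
    rcases h with h | h
    · exact absurd h hc0
    · exact h
  set m : ℤ := c.intDegree with hm
  have hb : c.denom ≠ 0 := c.denom_ne_zero
  have hB : algebraMap (Polynomial κ) (RatFunc κ) c.denom ≠ 0 :=
    RatFunc.algebraMap_ne_zero hb
  have hcB : c * algebraMap (Polynomial κ) (RatFunc κ) c.denom =
      algebraMap (Polynomial κ) (RatFunc κ) c.num := by
    conv_lhs => rw [← RatFunc.num_div_denom c]
    rw [RatFunc.num_div_denom c]
    exact (eq_div_iff hB).1 (RatFunc.num_div_denom c).symm
  have hD : DK κ c * algebraMap (Polynomial κ) (RatFunc κ) c.denom +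
      c * algebraMap (Polynomial κ) (RatFunc κ) (Polynomial.derivative c.denom) =
      algebraMap (Polynomial κ) (RatFunc κ) (Polynomial.derivative c.num) := by
    have h1 := congrArg (DK κ) hcB
    rw [Derivation.leibniz, DK_poly, DK_poly, smul_eq_mul, smul_eq_mul] at h1
    rw [← h1]
    ring
  have hmeq : m = (c.num.natDegree : ℤ) - c.denom.natDegree := rfl
  have key : RatFunc.X * DK κ c - (m : RatFunc κ) * c =
      algebraMap (Polynomial κ) (RatFunc κ) (infaE c.num) /
        algebraMap (Polynomial κ) (RatFunc κ) c.denom -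
      c * (algebraMap (Polynomial κ) (RatFunc κ) (infaE c.denom) /
        algebraMap (Polynomial κ) (RatFunc κ) c.denom) := by
    have hX : algebraMap (Polynomial κ) (RatFunc κ) Polynomial.X = RatFunc.X :=
      RatFunc.algebraMap_X
    rw [← mul_left_inj' hB, sub_mul, sub_mul, div_mul_cancel₀ _ hB, mul_assoc c,
      div_mul_cancel₀ _ hB]
    unfold infaE
    rw [map_sub, map_sub, map_mul, map_mul, map_mul, map_mul, hX, map_natCast, map_natCast, ← hD,
      ← hcB, hmeq]
    push_cast
    ring
  have hE1 : Bd s ((s : ℤ) * ((c.num.natDegree : ℤ) - 1 - c.denom.natDegree))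
      (algebraMap (Polynomial κ) (RatFunc κ) (infaE c.num) /
        algebraMap (Polynomial κ) (RatFunc κ) c.denom) := by
    apply infa_quot s hb
    rcases infa_E c.num with h1 | h1
    · exact Or.inl h1
    · right
      omega
  have hE2 : Bd s ((s : ℤ) * ((c.denom.natDegree : ℤ) - 1 - c.denom.natDegree))
      (algebraMap (Polynomial κ) (RatFunc κ) (infaE c.denom) /
        algebraMap (Polynomial κ) (RatFunc κ) c.denom) := by
    apply infa_quot s hb
    rcases infa_E c.denom with h1 | h1
    · exact Or.inl h1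
    · right
      omega
  have hc1 : Bd s ((s : ℤ) * m) c := Or.inr le_rfl
  have hE3 := bd_mul hc1 hE2
  have e1 : (s : ℤ) * ((c.num.natDegree : ℤ) - 1 - c.denom.natDegree) = s * m - s := by
    rw [hmeq]
    ring
  have e2 : (s : ℤ) * m + (s : ℤ) * ((c.denom.natDegree : ℤ) - 1 - c.denom.natDegree) =
      s * m - s := by ring
  rw [e1] at hE1
  rw [e2] at hE3
  have hs' : (1 : ℤ) ≤ s := by exact_mod_cast hs
  have h4 : Bd s (N - 1) (RatFunc.X * DK κ c - (m : RatFunc κ) * c) := by
    rw [key]
    exact Bd_mono (bd_sub hE1 hE3) (by linarith)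
  have h5 : Bd s (N - 1) ((s : κ) • (RatFunc.X * DK κ c - (m : RatFunc κ) * c)) := Bd_smul _ h4
  have h6 : Bd s (N - 1) ((((s : ℤ) * m - N : ℤ) : κ) • c) := by
    rcases eq_or_lt_of_le hN with h7 | h7
    · left
      rw [h7, sub_self, Int.cast_zero, zero_smul]
    · apply Bd_smul
      right
      exact Int.le_sub_one_of_lt h7
  have h8 : (s : RatFunc κ) * RatFunc.X * DK κ c - (N : RatFunc κ) * c =
      (s : κ) • (RatFunc.X * DK κ c - (m : RatFunc κ) * c) +
        (((s : ℤ) * m - N : ℤ) : κ) • c := by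
    rw [Algebra.smul_def, map_natCast, ← infa_int_smul]
    push_cast
    ring
  rw [h8]
  exact Bd_add h5 h6

theorem bd_low {N : ℤ} {c : RatFunc κ} (h : Bd s N c) (hc : c ≠ 0) {b a : Polynomial κ}
    (hb : b ≠ 0) (he : algebraMap (Polynomial κ) (RatFunc κ) b * c =
      algebraMap (Polynomial κ) (RatFunc κ) a) : -((s : ℤ) * b.natDegree) ≤ N := by
  have hB : algebraMap (Polynomial κ) (RatFunc κ) b ≠ 0 := RatFunc.algebraMap_ne_zero hb
  have h1 : (algebraMap (Polynomial κ) (RatFunc κ) b * c).intDegree =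
      (algebraMap (Polynomial κ) (RatFunc κ) a).intDegree := by rw [he]
  rw [RatFunc.intDegree_mul hB hc, RatFunc.intDegree_polynomial,
    RatFunc.intDegree_polynomial] at h1
  have h2 : -(b.natDegree : ℤ) ≤ c.intDegree := by
    have h3 : (0 : ℤ) ≤ a.natDegree := Int.natCast_nonneg _
    linarith
  rcases h with h | h
  · exact absurd h hc
  · have h4 := mul_le_mul_of_nonneg_left h2 (Int.natCast_nonneg s)
    have h5 : (s : ℤ) * -(b.natDegree : ℤ) = -((s : ℤ) * b.natDegree) := by ring
    rw [h5] at h4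
    exact h4.trans h

end MPadcLZ
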