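import Pool.Agent.Lib.MP_adc574_ag_LZ.InfA

/-!
# JOB InfB: the filtration `V_q`

`InV κ s g w q x` (`Intf.lean`): `x = ∑ c_i g_i` with `Bd s (q + w_i) (c_i)`.

* `inV_gen`: `c = Pi.single i 1`, `Bd s 0 1` (`bd_int 1`). `inV_mono`, `inV_zero`, `inV_add`, `inV_neg`, `inV_sub`, `inV_sum`: coefficientwise.
* `inV_smul`: `Bd s p c`, `InV q x` ⟹ `InV (p + q) (c • x)` (`bd_mul`).
* `inV_cancel`: `m ≠ 0` an integer, `InV q ((m : RatFunc κ) • x)` ⟹ `InV q x`: multiply by `(m : RatFunc κ)⁻¹`, which satisfies `Bd s 0`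
  (`bd_cancel` applied to `m * m⁻¹ = 1`).
* `inV_nab` (uses `leib`, `hI.ev`, additivity of `nab`): for `x = ∑ c_i g_i`:
  `(s X) • nab (c_i • g_i) - q • c_i • g_i = (s X DK c_i - (q + w_i) c_i) • g_i + c_i • ((s X) • nab g_i + w_i • g_i)`; first term: `bd_ev` with `N = q + w_i` and
  `inV_gen`: in `V_(q + w_i - 1 - w_i) = V_(q-1)`; second: `hI.ev i` and `inV_smul`: in `V_(q + w_i - w_i - 1)`. Sum over `i`.
* `inV_nab'`: `nab x ∈ V_(q - s)`: `(s X) • nab x = ((s X) • nab x - q • x) + q • x ∈ V_q`, divide by `s X`: `Bd s (-s) ((s X)⁻¹)`.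
-/

set_option autoImplicit false

namespace MPadcLZ

open MPadcHM

universe u

variable {κ : Type u} [Field κ] [CharZero κ] {Mo : Type u}
  [AddCommGroup Mo] [Module (RatFunc κ) Mo] {nab : Mo →+ Mo} {s : ℕ} {ι : Type} [Fintype ι]
  {g : ι → Mo} {w : ι → ℤ}

omit [CharZero κ] in
theorem inV_gen (i : ι) : InV κ s g w (-w i) (g i) := by
  classical
  refine ⟨Pi.single i 1, ?_, fun j => ?_⟩
  · rw [Finset.sum_eq_single i]
    · rw [Pi.single_eq_same, one_smul]
    · intro j _ hj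
      rw [Pi.single_eq_of_ne hj, zero_smul]
    · intro h
      exact absurd (Finset.mem_univ i) h
  · by_cases hj : j = i
    · rw [hj, Pi.single_eq_same]
      have h1 : Bd s 0 ((1 : ℤ) : RatFunc κ) := bd_int 1
      rw [Int.cast_one] at h1
      exact Bd_mono h1 (by omega)
    · rw [Pi.single_eq_of_ne hj]
      exact Or.inl rfl

omit [CharZero κ] in
theorem inV_mono {q q' : ℤ} (h : q ≤ q') {x : Mo} (hx : InV κ s g w q x) : InV κ s g w q' x := by
  obtain ⟨c, hc, hb⟩ := hx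
  exact ⟨c, hc, fun i => Bd_mono (hb i) (by omega)⟩

omit [CharZero κ] in
theorem inV_zero (q : ℤ) : InV κ s g w q (0 : Mo) := by
  refine ⟨fun _ => 0, ?_, fun _ => Or.inl rfl⟩
  rw [Finset.sum_eq_zero fun i _ => zero_smul _ _]

omit [CharZero κ] in
theorem inV_add {q : ℤ} {x y : Mo} (hx : InV κ s g w q x) (hy : InV κ s g w q y) :
    InV κ s g w q (x + y) := by
  obtain ⟨c, hc, hb⟩ := hx
  obtain ⟨d, hd, hb'⟩ := hy
  refine ⟨fun i => c i + d i, ?_, fun i => Bd_add (hb i) (hb' i)⟩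
  rw [hc, hd, ← Finset.sum_add_distrib]
  exact Finset.sum_congr rfl fun i _ => (add_smul _ _ _).symm

omit [CharZero κ] in
theorem inV_sub {q : ℤ} {x y : Mo} (hx : InV κ s g w q x) (hy : InV κ s g w q y) :
    InV κ s g w q (x - y) := by
  obtain ⟨c, hc, hb⟩ := hx
  obtain ⟨d, hd, hb'⟩ := hy
  refine ⟨fun i => c i - d i, ?_, fun i => bd_sub (hb i) (hb' i)⟩
  rw [hc, hd, ← Finset.sum_sub_distrib]
  exact Finset.sum_congr rfl fun i _ => (sub_smul _ _ _).symm

omit [CharZero κ] in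
theorem inV_smul {p q : ℤ} {c : RatFunc κ} (hc : Bd s p c) {x : Mo} (hx : InV κ s g w q x) :
    InV κ s g w (p + q) (c • x) := by
  obtain ⟨d, hd, hb⟩ := hx
  refine ⟨fun i => c * d i, ?_, fun i => ?_⟩
  · rw [hd, Finset.smul_sum]
    exact Finset.sum_congr rfl fun i _ => smul_smul _ _ _
  · rw [add_assoc]
    exact bd_mul hc (hb i)

omit [CharZero κ] in
theorem inV_sum {q : ℤ} {α : Type*} (t : Finset α) (f : α → Mo)
    (h : ∀ a ∈ t, InV κ s g w q (f a)) : InV κ s g w q (∑ a ∈ t, f a) := by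
  classical
  revert h
  refine Finset.induction_on t ?_ ?_
  · intro _
    rw [Finset.sum_empty]
    exact inV_zero q
  · intro a u ha ih h
    rw [Finset.sum_insert ha]
    exact inV_add (h a (Finset.mem_insert_self a u))
      (ih fun b hb => h b (Finset.mem_insert_of_mem hb))

private theorem infb_int_ne {m : ℤ} (hm : m ≠ 0) : ((m : ℤ) : RatFunc κ) ≠ 0 := by
  intro h
  have h1 : algebraMap κ (RatFunc κ) ((m : ℤ) : κ) = 0 := by
    rw [map_intCast]
    exact h
  have h2 : ((m : ℤ) : κ) = 0 := (algebraMap κ (RatFunc κ)).injective (by rw [h1, map_zero])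
  exact hm (Int.cast_eq_zero.1 h2)

theorem inV_cancel {q m : ℤ} (hm : m ≠ 0) {x : Mo}
    (h : InV κ s g w q ((m : RatFunc κ) • x)) : InV κ s g w q x := by
  have h0 : ((m : ℤ) : RatFunc κ) ≠ 0 := infb_int_ne hm
  have h1 : Bd s 0 (((m : ℤ) : RatFunc κ)⁻¹) := by
    refine bd_cancel hm ?_
    rw [mul_inv_cancel₀ h0]
    have h2 : Bd s 0 ((1 : ℤ) : RatFunc κ) := bd_int 1
    rw [Int.cast_one] at h2
    exact h2
  have h2 := inV_smul h1 h
  rw [smul_smul, inv_mul_cancel₀ h0, one_smul, zero_add] at h2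
  exact h2

private theorem infb_alg {R M : Type*} [CommRing R] [AddCommGroup M] [Module R M]
    (σ D Q W c : R) (g ng : M) :
    σ • (D • g + c • ng) - Q • (c • g) =
      (σ * D - (Q + W) * c) • g + c • (σ • ng + W • g) := by
  module

theorem inV_nab (leib : ∀ (c : RatFunc κ) (x : Mo), nab (c • x) = DK κ c • x + c • nab x)
    (hI : InfOk κ nab s g w) {q : ℤ} {x : Mo} (hx : InV κ s g w q x) :
    InV κ s g w (q - 1) (((s : RatFunc κ) * RatFunc.X) • nab x - (q : RatFunc κ) • x) := by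
  obtain ⟨c, hc, hb⟩ := hx
  have h1 : ((s : RatFunc κ) * RatFunc.X) • nab x - (q : RatFunc κ) • x =
      ∑ i, (((s : RatFunc κ) * RatFunc.X * DK κ (c i) - ((q + w i : ℤ) : RatFunc κ) * c i) • g i +
        c i • (((s : RatFunc κ) * RatFunc.X) • nab (g i) + ((w i : ℤ) : RatFunc κ) • g i)) := by
    rw [hc, map_sum, Finset.smul_sum, Finset.smul_sum, ← Finset.sum_sub_distrib]
    refine Finset.sum_congr rfl fun i _ => ?_
    rw [leib, Int.cast_add]
    exact infb_alg _ _ _ _ _ _ _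
  rw [h1]
  refine inV_sum _ _ fun i _ => inV_add ?_ ?_
  · exact inV_mono (by omega) (inV_smul (bd_ev hI.hs (hb i)) (inV_gen i))
  · exact inV_mono (by omega) (inV_smul (hb i) (hI.ev i))

theorem inV_nab' (leib : ∀ (c : RatFunc κ) (x : Mo), nab (c • x) = DK κ c • x + c • nab x)
    (hI : InfOk κ nab s g w) {q : ℤ} {x : Mo} (hx : InV κ s g w q x) :
    InV κ s g w (q - s) (nab x) := by
  have hs0 : ((s : ℕ) : RatFunc κ) ≠ 0 := by
    have h1 : ((s : ℤ) : RatFunc κ) ≠ 0 := infb_int_ne (by have := hI.hs; omega)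
    rw [Int.cast_natCast] at h1
    exact h1
  have hX0 : (RatFunc.X : RatFunc κ) ≠ 0 := RatFunc.X_ne_zero
  have hsX : ((s : RatFunc κ) * RatFunc.X) ≠ 0 := mul_ne_zero hs0 hX0
  have hdeg : ((s : RatFunc κ) * RatFunc.X).intDegree = 1 := by
    have h1 : ((s : ℕ) : RatFunc κ) = RatFunc.C ((s : ℕ) : κ) := (map_natCast _ _).symm
    rw [RatFunc.intDegree_mul hs0 hX0, h1, RatFunc.intDegree_C, RatFunc.intDegree_X, zero_add]
  have h1 : InV κ s g w q (((s : RatFunc κ) * RatFunc.X) • nab x) := by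
    have h2 := inV_mono (by omega : q - 1 ≤ q) (inV_nab leib hI hx)
    have h3 := inV_smul (bd_int (κ := κ) (s := s) q) hx
    rw [zero_add] at h3
    have h4 := inV_add h2 h3
    rw [sub_add_cancel] at h4
    exact h4
  have h2 : Bd s (-(s : ℤ)) ((s : RatFunc κ) * RatFunc.X)⁻¹ := by
    right
    rw [RatFunc.intDegree_inv, hdeg]
    omega
  have h3 := inV_smul h2 h1
  rw [smul_smul, inv_mul_cancel₀ hsX, one_smul] at h3
  exact inV_mono (by omega) h3

end MPadcLZ
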