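import Pool.Agent.Lib.MP_adc574_ag_LZ.InfB

/-!
# JOBS InfCa, InfCb: flat endomorphisms, forms and vectors with respect to the filtration

* JOB InfCa `inf_endo`. There is `C : ℕ` with `InV (- w i + C) (e (g i))` for all `i` (`hI.span`, maximum over the finite type `ι`). So
  `P C : ∀ q x, InV q x → InV (q + C) (e x)` (`x = ∑ c_i g_i`, `inV_smul`, `inV_sum`). Step: `P (C + 1) → P C`: let `InV q x`. By `inV_nab` `y := (s X) • nab x - q • x ∈ V_(q-1)`, so `e y ∈ V_(q + C)` and
  `e y = (s X) • nab (e x) - q • e x` (`he`). `e x ∈ V_(q + C + 1)`, `inV_nab`: `(s X) • nab (e x) - (q + C + 1) • e x ∈ V_(q + C)`. Difference: `(C + 1) • e x ∈ V_(q + C)`, `inV_cancel`.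
  Induction on `C` down to `0`.
* JOB InfCa `inf_form`. There is `C : ℕ` with `Bd s (- w i - w j + C) (B (g i) (g j))` (`bd_exists`). `P C : ∀ p q x y, InV p x → InV q y → Bd s (p + q + C) (B x y)` (bilinearity, `bd_mul`, `Bd_add`). Step `P (C + 1) → P C`:
  `b := B x y`, `s X DK b = B ((s X) • nab x) y + B x ((s X) • nab y) = (p + q) b + B x' y + B x y'`, `x' ∈ V_(p-1)`, `y' ∈ V_(q-1)` (`inV_nab`), so `s X DK b - (p + q) b` is `Bd s (p + q + C)`; `bd_ev`: `s X DK b - (p + q + C + 1) b`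
  is `Bd s (p + q + C)`. Difference, `bd_cancel`.
* JOB InfCb `inf_flat`. `hI.span`: `InV q h`. If `q ≤ 0` `inV_mono`. Induction on `q.toNat`: for `q ≥ 1` `inV_nab` gives `- q • h ∈ V_(q-1)`, `inV_cancel`.
* JOB InfCb `inf_stable`. (1) Every `x` is a combination of the `g i` (`hI.span`); so if `x ≠ 0` there is `i` with `B x (g i) ≠ 0` (`ndL`). (2) `E'` is generated by finitely many elements; common denominator `b ≠ 0`, a polynomial, with
  `algebraMap b * B x (g i) ∈ range (algebraMap (Polynomial κ) (RatFunc κ))` for all `i` and `x ∈ E'` (for the generators: product of the denominators; then `Submodule.span_induction`; `B (p • x) = p * B x` for `p : Polynomial κ` because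
  `p • x = (algebraMap p) • x`, `algebraMap_smul`/`IsScalarTower.algebraMap_smul`). (3) If `x ∈ E'`, `x ≠ 0`, `InV q x` then with `i` from (1): `B x (g i)` is `Bd s (q - w i)` (`inf_form`, `inV_gen`), `bd_low`: `- s * natDegree b ≤ q - w i`. So the set of the
  integers `q` for which there is `x ∈ E'`, `x ≠ 0`, `InV q x` is bounded below (minimum of the `w i`); it is not empty (`hne`, `hI.span`); take the least `q` (`Int.exists_least_of_bdd`) with `x`. `nab x ∈ E'` and `inV_nab'`: `InV (q - s) (nab x)`, `q - s < q`,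
  so `nab x = 0`. Take `h = x`.
-/

set_option autoImplicit false

namespace MPadcLZ

open MPadcHM

universe u

variable {κ : Type u} [Field κ] [CharZero κ] {Mo : Type u}
  [AddCommGroup Mo] [Module (RatFunc κ) Mo] {nab : Mo →+ Mo} {s : ℕ} {ι : Type} [Fintype ι]
  {g : ι → Mo} {w : ι → ℤ}

private theorem infc_alg {R M : Type*} [CommRing R] [AddCommGroup M] [Module R M]
    (σ Q T : R) (a x : M) :
    σ • a - Q • x - (σ • a - (Q + T) • x) = T • x := by
  module

omit [CharZero κ] in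
private theorem infc_sum {N : ℤ} {α : Type*} (t : Finset α) (f : α → RatFunc κ)
    (h : ∀ a ∈ t, Bd s N (f a)) : Bd s N (∑ a ∈ t, f a) := by
  classical
  revert h
  refine Finset.induction_on t ?_ ?_
  · intro _
    rw [Finset.sum_empty]
    exact Or.inl rfl
  · intro a u ha ih h
    rw [Finset.sum_insert ha]
    exact Bd_add (h a (Finset.mem_insert_self a u))
      (ih fun b hb => h b (Finset.mem_insert_of_mem hb))

theorem inf_endo (leib : ∀ (c : RatFunc κ) (x : Mo), nab (c • x) = DK κ c • x + c • nab x)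
    (hI : InfOk κ nab s g w) (e : Mo →ₗ[RatFunc κ] Mo) (he : ∀ x, e (nab x) = nab (e x))
    {q : ℤ} {x : Mo} (hx : InV κ s g w q x) : InV κ s g w q (e x) := by
  have hspan : ∀ i, ∃ q, InV κ s g w q (e (g i)) := fun i => hI.span (e (g i))
  choose q0 hq0 using hspan
  obtain ⟨C, hC⟩ : ∃ C : ℕ, ∀ i, InV κ s g w (-w i + C) (e (g i)) := by
    refine ⟨∑ i, (q0 i + w i).toNat, fun i => inV_mono ?_ (hq0 i)⟩
    have h1 : (q0 i + w i).toNat ≤ ∑ i, (q0 i + w i).toNat :=
      Finset.single_le_sum (f := fun i => (q0 i + w i).toNat) (fun _ _ => Nat.zero_le _)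
        (Finset.mem_univ i)
    have h2 : q0 i + w i ≤ ((q0 i + w i).toNat : ℤ) := Int.self_le_toNat _
    have h3 : (((q0 i + w i).toNat : ℕ) : ℤ) ≤ ((∑ i, (q0 i + w i).toNat : ℕ) : ℤ) := by
      exact_mod_cast h1
    omega
  have hbase : ∀ (q : ℤ) (x : Mo), InV κ s g w q x → InV κ s g w (q + C) (e x) := by
    intro q x hx
    obtain ⟨c, hc, hb⟩ := hx
    rw [hc, map_sum]
    refine inV_sum _ _ fun i _ => ?_
    rw [map_smul]
    exact inV_mono (by omega) (inV_smul (hb i) (hC i))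
  have hstep : ∀ C : ℕ, (∀ (q : ℤ) (x : Mo), InV κ s g w q x →
      InV κ s g w (q + ((C + 1 : ℕ) : ℤ)) (e x)) →
      ∀ (q : ℤ) (x : Mo), InV κ s g w q x → InV κ s g w (q + C) (e x) := by
    intro C hP q x hx
    have h1 := inV_nab leib hI hx
    have h2 := hP _ _ h1
    rw [map_sub, map_smul, map_smul, he] at h2
    have h3 := inV_nab leib hI (hP _ _ hx)
    have h4 := inV_sub (inV_mono (by push_cast; omega : (q - 1) + ((C + 1 : ℕ) : ℤ) ≤ q + C) h2)
      (inV_mono (by push_cast; omega : (q + ((C + 1 : ℕ) : ℤ)) - 1 ≤ q + C) h3)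
    have h5 : (((s : RatFunc κ) * RatFunc.X) • nab (e x) - (q : RatFunc κ) • e x -
        (((s : RatFunc κ) * RatFunc.X) • nab (e x) -
          ((q + ((C + 1 : ℕ) : ℤ) : ℤ) : RatFunc κ) • e x)) =
        ((((C + 1 : ℕ) : ℤ)) : RatFunc κ) • e x := by
      rw [Int.cast_add]
      exact infc_alg _ _ _ _ _
    rw [h5] at h4
    exact inV_cancel (by omega) h4
  have hall : ∀ C : ℕ, (∀ (q : ℤ) (x : Mo), InV κ s g w q x → InV κ s g w (q + C) (e x)) →
      ∀ (q : ℤ) (x : Mo), InV κ s g w q x → InV κ s g w q (e x) := by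
    intro C
    induction C with
    | zero =>
      intro hP q x hx
      have h1 := hP q x hx
      rw [Nat.cast_zero, add_zero] at h1
      exact h1
    | succ C ih =>
      intro hP
      exact ih (hstep C hP)
  exact hall C hbase q x hx

theorem inf_form (leib : ∀ (c : RatFunc κ) (x : Mo), nab (c • x) = DK κ c • x + c • nab x)
    (hI : InfOk κ nab s g w) (B : Mo →ₗ[RatFunc κ] Mo →ₗ[RatFunc κ] RatFunc κ)
    (flat : ∀ x y, DK κ (B x y) = B (nab x) y + B x (nab y))
    {p q : ℤ} {x y : Mo} (hx : InV κ s g w p x) (hy : InV κ s g w q y) : Bd s (p + q) (B x y) := by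
  have hex : ∀ i j, ∃ N : ℤ, Bd s N (B (g i) (g j)) := fun i j => bd_exists s (B (g i) (g j))
  choose N0 hN0 using hex
  obtain ⟨C, hC⟩ : ∃ C : ℕ, ∀ i j, Bd s (-w i - w j + C) (B (g i) (g j)) := by
    refine ⟨∑ i, ∑ j, (N0 i j + w i + w j).toNat, fun i j => Bd_mono (hN0 i j) ?_⟩
    have h1 : (N0 i j + w i + w j).toNat ≤ ∑ j, (N0 i j + w i + w j).toNat :=
      Finset.single_le_sum (f := fun j => (N0 i j + w i + w j).toNat) (fun _ _ => Nat.zero_le _)
        (Finset.mem_univ j)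
    have h1' : ∑ j, (N0 i j + w i + w j).toNat ≤ ∑ i, ∑ j, (N0 i j + w i + w j).toNat :=
      Finset.single_le_sum (f := fun i => ∑ j, (N0 i j + w i + w j).toNat)
        (fun _ _ => Nat.zero_le _) (Finset.mem_univ i)
    have h2 : N0 i j + w i + w j ≤ ((N0 i j + w i + w j).toNat : ℤ) := Int.self_le_toNat _
    have h3 : (((N0 i j + w i + w j).toNat : ℕ) : ℤ) ≤
        ((∑ i, ∑ j, (N0 i j + w i + w j).toNat : ℕ) : ℤ) := by
      exact_mod_cast h1.trans h1'
    omega
  have hbase : ∀ (p q : ℤ) (x y : Mo), InV κ s g w p x → InV κ s g w q y →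
      Bd s (p + q + C) (B x y) := by
    intro p q x y hx hy
    obtain ⟨c, hc, hb⟩ := hx
    obtain ⟨d, hd, hb'⟩ := hy
    rw [hc, hd, map_sum]
    refine infc_sum _ _ fun j _ => ?_
    rw [map_sum, LinearMap.sum_apply]
    refine infc_sum _ _ fun i _ => ?_
    rw [map_smul, map_smul, LinearMap.smul_apply, smul_eq_mul, smul_eq_mul]
    exact Bd_mono (bd_mul (hb' j) (bd_mul (hb i) (hC i j))) (by omega)
  have hstep : ∀ C : ℕ, (∀ (p q : ℤ) (x y : Mo), InV κ s g w p x → InV κ s g w q y →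
      Bd s (p + q + ((C + 1 : ℕ) : ℤ)) (B x y)) →
      ∀ (p q : ℤ) (x y : Mo), InV κ s g w p x → InV κ s g w q y → Bd s (p + q + C) (B x y) := by
    intro C hP p q x y hx hy
    have h1 := hP _ _ _ _ (inV_nab leib hI hx) hy
    have h2 := hP _ _ _ _ hx (inV_nab leib hI hy)
    have h3 := bd_ev hI.hs (hP _ _ _ _ hx hy)
    have h4 := bd_sub (Bd_add (Bd_mono h1 (by push_cast; omega : _ ≤ p + q + C))
      (Bd_mono h2 (by push_cast; omega : _ ≤ p + q + C)))
      (Bd_mono h3 (by push_cast; omega : _ ≤ p + q + C))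
    have h5 : B (((s : RatFunc κ) * RatFunc.X) • nab x - (p : RatFunc κ) • x) y +
        B x (((s : RatFunc κ) * RatFunc.X) • nab y - (q : RatFunc κ) • y) -
        ((s : RatFunc κ) * RatFunc.X * DK κ (B x y) -
          ((p + q + ((C + 1 : ℕ) : ℤ) : ℤ) : RatFunc κ) * B x y) =
        ((((C + 1 : ℕ) : ℤ)) : RatFunc κ) * B x y := by
      rw [flat, map_sub, map_sub, map_smul, map_smul, map_smul, map_smul, LinearMap.sub_apply,
        LinearMap.smul_apply, LinearMap.smul_apply, smul_eq_mul, smul_eq_mul, smul_eq_mul,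
        smul_eq_mul, Int.cast_add, Int.cast_add]
      ring
    rw [h5] at h4
    exact bd_cancel (by omega) h4
  have hall : ∀ C : ℕ, (∀ (p q : ℤ) (x y : Mo), InV κ s g w p x → InV κ s g w q y →
      Bd s (p + q + C) (B x y)) →
      ∀ (p q : ℤ) (x y : Mo), InV κ s g w p x → InV κ s g w q y → Bd s (p + q) (B x y) := by
    intro C
    induction C with
    | zero =>
      intro hP p q x y hx hy
      have h1 := hP p q x y hx hy
      rw [Nat.cast_zero, add_zero] at h1
      exact h1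
    | succ C ih =>
      intro hP
      exact ih (hstep C hP)
  exact hall C hbase p q x y hx hy

theorem inf_flat (leib : ∀ (c : RatFunc κ) (x : Mo), nab (c • x) = DK κ c • x + c • nab x)
    (hI : InfOk κ nab s g w) {h : Mo} (hh : nab h = 0) : InV κ s g w 0 h := by
  have key : ∀ k : ℕ, InV κ s g w (k : ℤ) h → InV κ s g w 0 h := by
    intro k
    induction k with
    | zero =>
      intro hk
      simpa using hk
    | succ k ih =>
      intro hk
      have h1 := inV_nab leib hI hk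
      rw [hh, smul_zero, zero_sub, ← neg_smul] at h1
      have h2 : -(((k + 1 : ℕ) : ℤ) : RatFunc κ) = ((-((k + 1 : ℕ) : ℤ) : ℤ) : RatFunc κ) := by
        rw [Int.cast_neg]
      rw [h2] at h1
      have h3 : (((k + 1 : ℕ) : ℤ) - 1) = (k : ℤ) := by
        push_cast
        ring
      rw [h3] at h1
      exact ih (inV_cancel (by omega) h1)
  obtain ⟨q, hq⟩ := hI.span h
  exact key q.toNat (inV_mono (Int.self_le_toNat q) hq)

theorem inf_stable [Module (Polynomial κ) Mo] [IsScalarTower (Polynomial κ) (RatFunc κ) Mo]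
    (leib : ∀ (c : RatFunc κ) (x : Mo), nab (c • x) = DK κ c • x + c • nab x)
    (hI : InfOk κ nab s g w) (B : Mo →ₗ[RatFunc κ] Mo →ₗ[RatFunc κ] RatFunc κ)
    (flat : ∀ x y, DK κ (B x y) = B (nab x) y + B x (nab y))
    (ndL : ∀ x, (∀ y, B x y = 0) → x = 0) (E' : Submodule (Polynomial κ) Mo) (hfg : E'.FG)
    (hst : ∀ x ∈ E', nab x ∈ E') (hne : E' ≠ ⊥) : ∃ h ∈ E', h ≠ 0 ∧ nab h = 0 := by
  classical
  have h1 : ∀ x : Mo, x ≠ 0 → ∃ i, B x (g i) ≠ 0 := by
    intro x hx
    by_contra hcon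
    simp only [not_exists, ne_eq, not_not] at hcon
    apply hx
    apply ndL
    intro y
    obtain ⟨q, c, hc, -⟩ := hI.span y
    rw [hc, map_sum]
    refine Finset.sum_eq_zero fun i _ => ?_
    rw [map_smul, hcon i, smul_zero]
  obtain ⟨b, hb0, hb⟩ : ∃ b : Polynomial κ, b ≠ 0 ∧ ∀ x ∈ E', ∀ i, ∃ a : Polynomial κ,
      algebraMap (Polynomial κ) (RatFunc κ) b * B x (g i) =
        algebraMap (Polynomial κ) (RatFunc κ) a := by
    obtain ⟨S, hS⟩ := hfg
    obtain ⟨b, hb⟩ := IsLocalization.exist_integer_multiples_of_finset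
      (nonZeroDivisors (Polynomial κ))
      ((S ×ˢ (Finset.univ : Finset ι)).image fun z => B z.1 (g z.2))
    refine ⟨b, nonZeroDivisors.ne_zero b.2, ?_⟩
    intro x hx
    rw [← hS] at hx
    refine Submodule.span_induction (p := fun x _ => ∀ i, ∃ a : Polynomial κ,
      algebraMap (Polynomial κ) (RatFunc κ) b * B x (g i) =
        algebraMap (Polynomial κ) (RatFunc κ) a) ?_ ?_ ?_ ?_ hx
    · intro y hy i
      obtain ⟨a, ha⟩ := hb (B y (g i)) (Finset.mem_image.mpr ⟨(y, i),
        Finset.mem_product.mpr ⟨hy, Finset.mem_univ i⟩, rfl⟩)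
      refine ⟨a, ?_⟩
      rw [ha, Algebra.smul_def]
    · intro i
      refine ⟨0, ?_⟩
      rw [map_zero, LinearMap.zero_apply, mul_zero, map_zero]
    · intro y z _ _ hy hz i
      obtain ⟨a, ha⟩ := hy i
      obtain ⟨a', ha'⟩ := hz i
      refine ⟨a + a', ?_⟩
      rw [map_add, LinearMap.add_apply, mul_add, ha, ha', map_add]
    · intro p y _ hy i
      obtain ⟨a, ha⟩ := hy i
      refine ⟨p * a, ?_⟩
      rw [← algebraMap_smul (RatFunc κ) p y, map_smul, LinearMap.smul_apply, smul_eq_mul,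
        mul_left_comm, ha, map_mul]
  let P : ℤ → Prop := fun q => ∃ x ∈ E', x ≠ 0 ∧ InV κ s g w q x
  have hbd : ∃ m : ℤ, ∀ q, P q → m ≤ q := by
    refine ⟨-(∑ j, |w j|) - (s : ℤ) * b.natDegree, ?_⟩
    rintro q ⟨x, hxE, hx0, hxq⟩
    obtain ⟨i, hi⟩ := h1 x hx0
    obtain ⟨a, ha⟩ := hb x hxE i
    have h2 := bd_low (inf_form leib hI B flat hxq (inV_gen i)) hi hb0 ha
    have h3 : |w i| ≤ ∑ j, |w j| :=
      Finset.single_le_sum (f := fun j => |w j|) (fun j _ => abs_nonneg (w j))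
        (Finset.mem_univ i)
    have h4 : -|w i| ≤ w i := neg_abs_le (w i)
    omega
  have hinh : ∃ q, P q := by
    obtain ⟨x, hxE, hx0⟩ := Submodule.exists_mem_ne_zero_of_ne_bot hne
    obtain ⟨q, hq⟩ := hI.span x
    exact ⟨q, x, hxE, hx0, hq⟩
  obtain ⟨q, ⟨x, hxE, hx0, hxq⟩, hmin⟩ := Int.exists_least_of_bdd hbd hinh
  refine ⟨x, hxE, hx0, ?_⟩
  by_contra hnx
  have h5 : q ≤ q - s := hmin _ ⟨nab x, hst x hxE, hnx, inV_nab' leib hI hxq⟩
  have h6 := hI.hs
  omega

end MPadcLZ
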