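import Pool.Agent.Lib.MP_adc574_ag_LZ.InfB
import Pool.Agent.Lib.MP_adc574_ag_LZ.Nd

/-!
# JOBS InfDa, InfDb: the filtration by finitely many monomials

Generators: `g i = br (monomial (v i) 1)`, `v : Fin r → (Fin N →₀ ℕ)` runs through all exponents of degree `< M'`; weights `w i = wt (v i)`.

* JOB InfDa.
  `exists_gens`: `{e | dg e < M'}` is finite (`e i ≤ dg e`; `Set.Finite.subset (Set.finite_Iic ..)`, as `infdb_fin` in `HM/InfD.lean`); enumerate (`Finset.equivFin`).
  `fk_big`: `Jac ft` is mapped into `Jac FK` (`Ideal.mem_map_of_mem`, `Ideal.map_span`, `pderiv_map`; cf. `fk_jac` in `HGd.lean`). `hS.ann` gives `C δ * ell ^ M ∈ Jac FK`, `δ ≠ 0` in `K` (product of monic linear factors), so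
  `ell ^ M ∈ Jac FK`; `hS.gen`: `monomial u 1 ∈ Jac FK` for `dg u = M`; `e = u + v` with `dg u = M` (`exists_le_dg` in `Nd.lean`), `monomial e 1 = monomial u 1 * monomial v 1`.
  `inV_br`: `P = ∑ coeff e P • monomial e 1`; `inV_sum`, `inV_smul`. `inV_brm`: the case of a polynomial with coefficients in `κ` (coefficients `algebraMap κ (RatFunc κ) c` are `Bd s 0`: `RatFunc.intDegree_C`).
* JOB InfDb.
  `inV_exists`: strong induction on `dg e`. `dg e < M'`: a generator (`inV_gen`). Otherwise `monomial e 1 ∈ Jac FK` (`fk_big`), `br_red` (`Nd.lean`): `br (monomial e 1) = br P'`, the monomials `e'` of `P'` have `dg e' + d = dg e`; each `br (monomial e' 1)` is in some `V_q`, each coefficient satisfies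
  `Bd s N` for some `N` (`bd_exists`); take the maxima over the finite support, `inV_br`.
  `inf_low`: strong induction on `m = dg e`. `m < M'`: a generator. `m ≥ M'`: by `inV_exists` and finiteness of `{u | dg u = m}` there is `C : ℕ` with `InV (- wt u + C)` for all `u` of degree `m`; `step` lowers `C` by one; induction on `C` down to `0`.
  `inf_ok`: `span`: `hG.surj` gives `x = br P`; `br P = ∑ coeff e P • br (monomial e 1)`, maximum over the support as in `inV_exists`. `ev` is the hypothesis.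
-/

set_option autoImplicit false

namespace MPadcLZ

open MvPolynomial MPadcHM

universe u

theorem exists_gens (N M' : ℕ) : ∃ (r : ℕ) (v : Fin r → (Fin N →₀ ℕ)),
    ∀ e : Fin N →₀ ℕ, dg e < M' → ∃ i, v i = e := by
  have hfin : {e : Fin N →₀ ℕ | dg e < M'}.Finite := by
    refine Set.Finite.subset (Set.finite_Icc (0 : Fin N →₀ ℕ)
      (Finsupp.equivFunOnFinite.symm fun _ => M')) ?_
    intro e he
    refine ⟨fun i => Nat.zero_le _, fun i => ?_⟩
    have h1 : e i ≤ dg e := by
      unfold dg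
      exact Finset.single_le_sum (f := fun i => e i) (fun j _ => Nat.zero_le _) (Finset.mem_univ i)
    have h3 : dg e < M' := he
    simp only [Finsupp.equivFunOnFinite_symm_apply_apply]
    omega
  refine ⟨hfin.toFinset.card, fun i => (hfin.toFinset.equivFin.symm i : Fin N →₀ ℕ), ?_⟩
  intro e he
  refine ⟨hfin.toFinset.equivFin ⟨e, hfin.mem_toFinset.2 he⟩, ?_⟩
  simp only [Equiv.symm_apply_apply]

private theorem infda_jac {R R' : Type*} [CommRing R] [CommRing R'] {N : ℕ} (φ : R →+* R')
    {f P : MvPolynomial (Fin N) R} (h : P ∈ Jac f) : P.map φ ∈ Jac (f.map φ) := by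
  have h1 : Jac f ≤ (Jac (f.map φ)).comap (MvPolynomial.map φ) := by
    unfold Jac
    rw [Ideal.span_le]
    rintro _ ⟨j, rfl⟩
    change MvPolynomial.map φ (pderiv j f) ∈ Ideal.span (Set.range fun j => pderiv j (f.map φ))
    rw [← MvPolynomial.pderiv_map]
    exact Ideal.subset_span ⟨j, rfl⟩
  exact h1 h

variable {κ : Type u} [Field κ] [CharZero κ] {N : ℕ} (S : PDat κ N) {Mo : Type u}
  [AddCommGroup Mo] [Module (RatFunc κ) Mo] [Module (Polynomial κ) Mo]
  [IsScalarTower (Polynomial κ) (RatFunc κ) Mo] {nab : Mo →+ Mo}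
  {br : MvPolynomial (Fin N) (RatFunc κ) →ₗ[RatFunc κ] Mo}

omit [CharZero κ] in
private theorem infda_del : algebraMap (Polynomial κ) (RatFunc κ) S.del ≠ 0 := by
  refine RatFunc.algebraMap_ne_zero ?_
  exact Finset.prod_ne_zero_iff.2 fun j _ => Polynomial.X_sub_C_ne_zero _

omit [CharZero κ] in
theorem fk_big (hS : S.Ok) (e : Fin N →₀ ℕ) (he : S.M ≤ dg e) :
    (monomial e 1 : MvPolynomial (Fin N) (RatFunc κ)) ∈ Jac S.FK := by
  have h1 := infda_jac (algebraMap (Polynomial κ) (RatFunc κ)) hS.ann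
  rw [map_mul, MvPolynomial.map_C] at h1
  have h2 : MvPolynomial.map (algebraMap (Polynomial κ) (RatFunc κ))
      (S.ell.map Polynomial.C ^ S.M) ∈ Jac S.FK := by
    have h3 := Ideal.mul_mem_left (Jac S.FK)
      (C (algebraMap (Polynomial κ) (RatFunc κ) S.del)⁻¹) h1
    rwa [← mul_assoc, ← C_mul, inv_mul_cancel₀ (infda_del S), C_1, one_mul] at h3
  obtain ⟨u, v, huv, hu⟩ := exists_le_dg e S.M he
  obtain ⟨xi, hxi⟩ := hS.gen u hu
  have h4 := infda_jac (algebraMap (Polynomial κ) (RatFunc κ)) hxi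
  rw [map_sub, map_mul, MvPolynomial.map_monomial, map_one] at h4
  have h5 := (Jac S.FK).add_mem h4 (Ideal.mul_mem_left (Jac S.FK)
    (MvPolynomial.map (algebraMap (Polynomial κ) (RatFunc κ)) (C xi)) h2)
  rw [sub_add_cancel] at h5
  have h6 : (monomial e 1 : MvPolynomial (Fin N) (RatFunc κ)) =
      monomial v 1 * monomial u 1 := by
    rw [monomial_mul, one_mul, ← huv, add_comm]
  rw [h6]
  exact Ideal.mul_mem_left _ _ h5

omit [CharZero κ] [Module (Polynomial κ) Mo] [IsScalarTower (Polynomial κ) (RatFunc κ) Mo] in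
theorem inV_br {s : ℕ} {ι : Type} [Fintype ι] {g : ι → Mo} {w : ι → ℤ} {p q : ℤ}
    (P : MvPolynomial (Fin N) (RatFunc κ)) (hc : ∀ e ∈ P.support, Bd s p (coeff e P))
    (h : ∀ e ∈ P.support, InV κ s g w q (br (monomial e 1))) : InV κ s g w (p + q) (br P) := by
  have h1 : br P = ∑ e ∈ P.support, coeff e P • br (monomial e 1) := by
    have h2 : P = ∑ e ∈ P.support, coeff e P • (monomial e 1 : MvPolynomial (Fin N) (RatFunc κ)) := by
      have h3 := P.as_sum
      refine h3.trans (Finset.sum_congr rfl fun e _ => ?_)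
      rw [smul_monomial, smul_eq_mul, mul_one]
    have h4 := congrArg br h2
    rw [map_sum] at h4
    refine h4.trans (Finset.sum_congr rfl fun e _ => ?_)
    rw [map_smul]
  rw [h1]
  exact inV_sum _ _ fun e he => inV_smul (hc e he) (h e he)

omit [CharZero κ] [Module (Polynomial κ) Mo] [IsScalarTower (Polynomial κ) (RatFunc κ) Mo] in
theorem inV_brm {s : ℕ} {ι : Type} [Fintype ι] {g : ι → Mo} {w : ι → ℤ} {q : ℤ}
    (P : MvPolynomial (Fin N) κ)
    (h : ∀ e ∈ P.support, InV κ s g w q (br (monomial e 1))) :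
    InV κ s g w q (br (P.map (algebraMap κ (RatFunc κ)))) := by
  have h1 := inV_br (s := s) (g := g) (w := w) (p := 0) (q := q) (br := br)
    (P.map (algebraMap κ (RatFunc κ))) ?_ ?_
  · rwa [zero_add] at h1
  · intro e _
    rw [coeff_map]
    by_cases h0 : coeff e P = 0
    · left
      rw [h0, map_zero]
    · right
      rw [RatFunc.algebraMap_eq_C, RatFunc.intDegree_C, mul_zero]
  · intro e he
    exact h e (support_map_subset _ _ he)

omit [CharZero κ] [Module (Polynomial κ) Mo] [IsScalarTower (Polynomial κ) (RatFunc κ) Mo] in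
private theorem infdb_sum {s : ℕ} {ι : Type} [Fintype ι] {g : ι → Mo} {w : ι → ℤ} {α : Type*}
    (t : Finset α) (f : α → Mo) (h : ∀ a ∈ t, ∃ q : ℤ, InV κ s g w q (f a)) :
    ∃ q : ℤ, InV κ s g w q (∑ a ∈ t, f a) := by
  refine Finset.sum_induction f (fun x => ∃ q : ℤ, InV κ s g w q x) ?_ ⟨0, inV_zero 0⟩ h
  rintro x y ⟨q, hx⟩ ⟨q', hy⟩
  exact ⟨max q q', inV_add (inV_mono (le_max_left _ _) hx) (inV_mono (le_max_right _ _) hy)⟩

omit [CharZero κ] [Module (Polynomial κ) Mo] [IsScalarTower (Polynomial κ) (RatFunc κ) Mo] in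
private theorem infdb_exP {s : ℕ} {ι : Type} [Fintype ι] {g : ι → Mo} {w : ι → ℤ}
    (P : MvPolynomial (Fin N) (RatFunc κ))
    (h : ∀ e ∈ P.support, ∃ q : ℤ, InV κ s g w q (br (monomial e 1))) :
    ∃ q : ℤ, InV κ s g w q (br P) := by
  have h1 : br P = ∑ e ∈ P.support, coeff e P • br (monomial e 1) := by
    conv_lhs => rw [P.as_sum, map_sum]
    refine Finset.sum_congr rfl fun e _ => ?_
    rw [← map_smul, smul_monomial, smul_eq_mul, mul_one]
  rw [h1]
  refine infdb_sum _ _ fun e he => ?_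
  obtain ⟨q, hq⟩ := h e he
  obtain ⟨p, hp⟩ := bd_exists s (coeff e P)
  exact ⟨p + q, inV_smul hp hq⟩

theorem inV_exists (hS : S.Ok) (hG : IsHG S nab br) (s : ℕ) {M' r : ℕ} (hM : S.M ≤ M')
    (v : Fin r → (Fin N →₀ ℕ)) (hv : ∀ e : Fin N →₀ ℕ, dg e < M' → ∃ i, v i = e)
    (w : Fin r → ℤ) (e : Fin N →₀ ℕ) :
    ∃ q : ℤ, InV κ s (fun i => br (monomial (v i) 1)) w q (br (monomial e 1)) := by
  induction hn : dg e using Nat.strong_induction_on generalizing e with
  | _ n ih =>
    by_cases hlt : dg e < M'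
    · obtain ⟨i, hi⟩ := hv e hlt
      refine ⟨-w i, ?_⟩
      rw [← hi]
      exact inV_gen (κ := κ) (s := s) (g := fun i => br (monomial (v i) 1)) (w := w) i
    · have hJ := fk_big S hS e (hM.trans (not_lt.1 hlt))
      have hPm : Hm (dg e) (monomial e (1 : RatFunc κ)) := by
        intro x hx
        have h2 := support_monomial_subset hx
        rw [Finset.mem_singleton.1 h2]
      obtain ⟨P', hP', hs'⟩ := br_red S hS hG hPm hJ
      rw [hP']
      refine infdb_exP P' fun e' he' => ?_
      have h3 := hs' e' he'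
      have h4 := hS.hd
      exact ih (dg e') (by omega) e' rfl

theorem inf_low (hS : S.Ok) (hG : IsHG S nab br) (s : ℕ) {M' r : ℕ} (hM : S.M ≤ M')
    (v : Fin r → (Fin N →₀ ℕ)) (hv : ∀ e : Fin N →₀ ℕ, dg e < M' → ∃ i, v i = e)
    (wt : (Fin N →₀ ℕ) → ℤ)
    (step : ∀ m, M' ≤ m →
      (∀ u : Fin N →₀ ℕ, dg u < m →
        InV κ s (fun i => br (monomial (v i) 1)) (fun i => wt (v i)) (-wt u)
          (br (monomial u 1))) →
      ∀ C : ℕ, (∀ u : Fin N →₀ ℕ, dg u = m →
        InV κ s (fun i => br (monomial (v i) 1)) (fun i => wt (v i)) (-wt u + (C + 1))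
          (br (monomial u 1))) →
      ∀ u : Fin N →₀ ℕ, dg u = m →
        InV κ s (fun i => br (monomial (v i) 1)) (fun i => wt (v i)) (-wt u + C)
          (br (monomial u 1)))
    (e : Fin N →₀ ℕ) :
    InV κ s (fun i => br (monomial (v i) 1)) (fun i => wt (v i)) (-wt e) (br (monomial e 1)) := by
  induction hn : dg e using Nat.strong_induction_on generalizing e with
  | _ n ih =>
    by_cases hlt : dg e < M'
    · obtain ⟨i, hi⟩ := hv e hlt
      rw [← hi]
      exact inV_gen (κ := κ) (s := s) (g := fun i => br (monomial (v i) 1))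
        (w := fun i => wt (v i)) i
    · have hlow : ∀ u : Fin N →₀ ℕ, dg u < n →
          InV κ s (fun i => br (monomial (v i) 1)) (fun i => wt (v i)) (-wt u)
            (br (monomial u 1)) := fun u hu => ih (dg u) hu u rfl
      have hMn : M' ≤ n := by omega
      obtain ⟨r', v', hv'⟩ := exists_gens N (n + 1)
      have hq : ∀ i : Fin r', ∃ q : ℤ, InV κ s (fun i => br (monomial (v i) 1))
          (fun i => wt (v i)) q (br (monomial (v' i) 1)) :=
        fun i => inV_exists S hS hG s hM v hv (fun i => wt (v i)) (v' i)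
      choose q hq using hq
      have hC : ∀ u : Fin N →₀ ℕ, dg u = n →
          InV κ s (fun i => br (monomial (v i) 1)) (fun i => wt (v i))
            (-wt u + ((∑ i, (q i + wt (v' i)).toNat : ℕ) : ℤ)) (br (monomial u 1)) := by
        intro u hu
        obtain ⟨i, hi⟩ := hv' u (by omega)
        rw [← hi]
        refine inV_mono ?_ (hq i)
        have h1 : (q i + wt (v' i)).toNat ≤ ∑ i, (q i + wt (v' i)).toNat :=
          Finset.single_le_sum (f := fun i => (q i + wt (v' i)).toNat) (fun _ _ => Nat.zero_le _)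
            (Finset.mem_univ i)
        have h2 : q i + wt (v' i) ≤ ((q i + wt (v' i)).toNat : ℤ) := Int.self_le_toNat _
        have h3 : ((q i + wt (v' i)).toNat : ℤ) ≤ ((∑ i, (q i + wt (v' i)).toNat : ℕ) : ℤ) := by
          exact_mod_cast h1
        linarith
      have hdown : ∀ C : ℕ, (∀ u : Fin N →₀ ℕ, dg u = n →
          InV κ s (fun i => br (monomial (v i) 1)) (fun i => wt (v i)) (-wt u + (C : ℤ))
            (br (monomial u 1))) → ∀ u : Fin N →₀ ℕ, dg u = n →
          InV κ s (fun i => br (monomial (v i) 1)) (fun i => wt (v i)) (-wt u)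
            (br (monomial u 1)) := by
        intro C
        induction C with
        | zero =>
          intro h u hu
          have h1 := h u hu
          rwa [Nat.cast_zero, add_zero] at h1
        | succ C ihC =>
          intro h
          refine ihC (step n hMn hlow C ?_)
          intro u hu
          have h1 := h u hu
          rwa [Nat.cast_succ] at h1
      exact hdown _ hC e hn

theorem inf_ok (hG : IsHG S nab br) {s r : ℕ} (hs : 1 ≤ s) (v : Fin r → (Fin N →₀ ℕ))
    (wt : (Fin N →₀ ℕ) → ℤ)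
    (all : ∀ e : Fin N →₀ ℕ, InV κ s (fun i => br (monomial (v i) 1)) (fun i => wt (v i)) (-wt e)
      (br (monomial e 1)))
    (ev : ∀ e : Fin N →₀ ℕ, InV κ s (fun i => br (monomial (v i) 1)) (fun i => wt (v i)) (-wt e - 1)
      (((s : RatFunc κ) * RatFunc.X) • nab (br (monomial e 1)) +
        ((wt e : ℤ) : RatFunc κ) • br (monomial e 1))) :
    InfOk κ nab s (fun i => br (monomial (v i) 1)) (fun i => wt (v i)) := by
  refine ⟨hs, ?_, fun i => ev (v i)⟩
  intro x
  obtain ⟨P, rfl⟩ := hG.surj x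
  exact infdb_exP P fun e _ => ⟨_, all e⟩

end MPadcLZ
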