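import Pool.Agent.Lib.MP_adc574_ag_LZ.InfD

/-!
# JOBS InfEa, InfEb: Lefschetz pencils, `H` smooth

`[P] := br P`, `G`, `H` mapped to `K = κ(t)` (`gK`, `hK`), `t = RatFunc.X`, `F = FK = G - t H` (`fk_eq` in `HGd.lean`).

* JOB InfEa.
  `nab_mono`: `nab [x^v] = - [H x^v]`: `hG.nab_br`, `nb D F P = cder D P + cder D F * P`; `cder (DZ κ) (monomial v 1) = monomial v (D 1) = 0`; the coefficient `e` of `cder (DZ κ) FK` is `DK κ (coeff e FK) = DK κ (g_e - t h_e) = - h_e` (`g_e`, `h_e` constants: `DK_C`, `DK_X`; `DZ_apply`), so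
  `cder (DZ κ) FK = - hK`. (`coeff e (cder D P) = D (coeff e P)`: sum over the support; `cderD_apply`, `coeff_cderD` in `FrD.lean`, or directly.)
  `br_F`: `[F_i Q] = - [∂_i Q]`: `hG.rel i Q`, `dl`.
  `br_xF`: `[x_i F_i x^v] = - (v_i + 1) [x^v]`: `br_F` with `Q = X i * monomial v 1`, `∂_i (x_i x^v) = (v_i + 1) x^v`.
  `euler_br`: `d [F x^v] = - (dg v + N) [x^v]`: `d F = ∑ x_i F_i` (Euler, `Hm d FK` by `fk_hom`; coefficientwise, `infca_coeff` in `HM/InfC.lean`), and `br_xF`, `∑ (v_i + 1) = dg v + N`.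
  `nab_lef`: `d (t nab [x^v]) = - (dg v + N) [x^v] - d [G x^v]`: `nab_mono`, `t H = G - F`, `euler_br`.
* JOB InfEb. `inf_lef`: `v`, `r` from `exists_gens N S.M`, `wt e := ((dg e + N) / S.d : ℕ)`. If `¬ S.d ∣ dg e + N` then `[x^e] = 0` (`hG.out`) and everything is trivial (`inV_zero`).
  `step` of `inf_low` (`M' = S.M`): `m ≥ S.M`, `C`, `u` with `dg u = m`, `S.d ∣ m + N`. `hH u`: `monomial u 1 ∈ Jac S.H` (over `κ`); `jac_comp` (`Nd.lean`) for `F = S.H`: `x^u = ∑ H_i Q_i`, monomials of `Q_i`: `dg e + d = m + 1`. Map to `K`: `t [x^u] = [∑ t H_i Q_i] = [∑ G_i Q_i] - ∑ [F_i Q_i] = [∑ G_i Q_i] + ∑ [∂_i Q_i]`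
  (`br_F`; `pderiv i FK = ∂_i gK - t ∂_i hK`). All monomials of `∑ G_i Q_i` (over `κ`) have degree `m` (`homG`; a monomial of a product is a sum of monomials; of `∂_i P` one exponent less), so `inV_brm` and the hypothesis for `C + 1`: `[∑ G_i Q_i] ∈ V_(- wt u + C + 1)` (`wt` depends only on the degree).
  The monomials of `∂_i Q_i` have `dg e + d = m`, `wt e = wt u - 1` (`S.d ∣ m + N`), so `[∂_i Q_i] ∈ V_(- wt u + 1) ⊆ V_(- wt u + C + 1)`. So `t [x^u] ∈ V_(- wt u + C + 1)`; multiply by `t⁻¹` (`Bd 1 (-1) t⁻¹`, `inV_smul`).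
  `ev` of `inf_ok`, `s = 1`: if `S.d ∣ dg e + N`, `dg e + N = d * wt e`, so `nab_lef` and cancelling `d ≠ 0`: `t nab [x^e] + wt e • [x^e] = - [G x^e]`; the monomials of `G x^e` have degree `dg e + d`, weight `wt e + 1`: `all`, `inV_brm`.
-/

set_option autoImplicit false

namespace MPadcLZ

open MvPolynomial MPadcHM

universe u

variable {κ : Type u} [Field κ] [CharZero κ] {N : ℕ} (S : PDat κ N) {Mo : Type u}
  [AddCommGroup Mo] [Module (RatFunc κ) Mo] [Module (Polynomial κ) Mo]
  [IsScalarTower (Polynomial κ) (RatFunc κ) Mo] {nab : Mo →+ Mo}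
  {br : MvPolynomial (Fin N) (RatFunc κ) →ₗ[RatFunc κ] Mo}

omit [CharZero κ] in
private theorem InfEa_cder : cder (DZ κ) S.FK = - S.H.map (algebraMap κ (RatFunc κ)) := by
  refine MvPolynomial.ext _ _ fun e => ?_
  rw [← cderD_apply, coeff_cderD, fk_eq, coeff_sub, coeff_C_mul, coeff_map, coeff_map, coeff_neg,
    coeff_map, DZ_apply, map_sub, DK_C, Derivation.leibniz, DK_X, DK_C, smul_zero, smul_eq_mul,
    mul_one, zero_add, zero_sub]

omit [CharZero κ] in
private theorem InfEa_coeff (e : Fin N →₀ ℕ) (i : Fin N) (P : MvPolynomial (Fin N) (RatFunc κ)) :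
    coeff e (X i * pderiv i P) = (e i : RatFunc κ) * coeff e P := by
  induction P using MvPolynomial.induction_on' with
  | monomial u a =>
    rw [X_mul_pderiv_monomial, coeff_smul, coeff_monomial]
    split_ifs with h
    · rw [h, nsmul_eq_mul]
    · rw [smul_zero, mul_zero]
  | add p q hp hq =>
    rw [map_add, mul_add, coeff_add, coeff_add, hp, hq, mul_add]

omit [CharZero κ] in
private theorem InfEa_euler (hS : S.Ok) :
    (S.d : RatFunc κ) • S.FK = ∑ i, X i * pderiv i S.FK := by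
  refine MvPolynomial.ext _ _ fun e => ?_
  rw [coeff_smul, coeff_sum, Finset.sum_congr rfl fun i _ => InfEa_coeff e i S.FK,
    ← Finset.sum_mul, smul_eq_mul]
  by_cases h0 : coeff e S.FK = 0
  · rw [h0, mul_zero, mul_zero]
  · have h1 : dg e = S.d := fk_hom S hS e (mem_support_iff.2 h0)
    rw [← h1, dg, Nat.cast_sum]

theorem nab_mono (hG : IsHG S nab br) (v : Fin N →₀ ℕ) :
    nab (br (monomial v 1)) = - br ((S.H * monomial v 1).map (algebraMap κ (RatFunc κ))) := by
  have h : (S.H * monomial v 1).map (algebraMap κ (RatFunc κ)) =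
      S.H.map (algebraMap κ (RatFunc κ)) * monomial v 1 := by
    rw [map_mul, map_monomial, map_one]
  rw [hG.nab_br, nb, InfEa_cder, ← cderD_apply, cderD_monomial, DZ_apply,
    Derivation.map_one_eq_zero, monomial_zero, zero_add, h, neg_mul, map_neg]

theorem br_F (hG : IsHG S nab br) (i : Fin N) (Q : MvPolynomial (Fin N) (RatFunc κ)) :
    br (pderiv i S.FK * Q) = - br (pderiv i Q) := by
  have h := hG.rel i Q
  rw [dl, map_add] at h
  exact eq_neg_of_add_eq_zero_right h

theorem br_xF (hG : IsHG S nab br) (i : Fin N) (v : Fin N →₀ ℕ) :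
    br (pderiv i S.FK * (X i * monomial v 1)) = - (((v i : ℕ) : RatFunc κ) + 1) • br (monomial v 1) := by
  rw [br_F S hG i, Derivation.leibniz, pderiv_X_self, smul_eq_mul, smul_eq_mul, mul_one,
    X_mul_pderiv_monomial, map_add, map_nsmul, neg_smul, add_smul, one_smul, Nat.cast_smul_eq_nsmul]

theorem euler_br (hS : S.Ok) (hG : IsHG S nab br) (v : Fin N →₀ ℕ) :
    (S.d : RatFunc κ) • br (S.FK * monomial v 1) =
      - ((dg v + N : ℕ) : RatFunc κ) • br (monomial v 1) := by
  have h1 : (S.d : RatFunc κ) • br (S.FK * monomial v 1) =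
      ∑ i, br (pderiv i S.FK * (X i * monomial v 1)) := by
    rw [← map_smul, ← smul_mul_assoc, InfEa_euler S hS, Finset.sum_mul, map_sum]
    refine Finset.sum_congr rfl fun i _ => ?_
    rw [mul_comm (X i) (pderiv i S.FK), mul_assoc]
  rw [h1, Finset.sum_congr rfl fun i _ => br_xF S hG i v, ← Finset.sum_smul]
  congr 1
  rw [Finset.sum_neg_distrib, Finset.sum_add_distrib, dg, Nat.cast_add, Nat.cast_sum,
    Finset.sum_const, Finset.card_univ, Fintype.card_fin, nsmul_eq_mul, mul_one]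

theorem nab_lef (hS : S.Ok) (hG : IsHG S nab br) (v : Fin N →₀ ℕ) :
    (S.d : RatFunc κ) • ((RatFunc.X : RatFunc κ) • nab (br (monomial v 1))) =
      - ((dg v + N : ℕ) : RatFunc κ) • br (monomial v 1) -
        (S.d : RatFunc κ) • br ((S.G * monomial v 1).map (algebraMap κ (RatFunc κ))) := by
  have h1 : (RatFunc.X : RatFunc κ) • br ((S.H * monomial v 1).map (algebraMap κ (RatFunc κ))) =
      br ((S.G * monomial v 1).map (algebraMap κ (RatFunc κ))) - br (S.FK * monomial v 1) := by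
    rw [← map_smul, ← map_sub]
    congr 1
    rw [fk_eq, MvPolynomial.smul_eq_C_mul, map_mul, map_mul, map_monomial, map_one]
    ring
  rw [nab_mono S hG, smul_neg, h1, smul_neg, smul_sub, euler_br S hS hG]
  abel

omit [CharZero κ] in
private theorem infeb_supp_mul {R : Type*} [CommRing R] {P Q : MvPolynomial (Fin N) R}
    {e : Fin N →₀ ℕ} (he : e ∈ (P * Q).support) :
    ∃ f ∈ P.support, ∃ g ∈ Q.support, e = f + g := by
  classical
  have h1 := support_mul P Q he
  rw [Finset.mem_add] at h1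
  obtain ⟨f, hf, g, hg, h⟩ := h1
  exact ⟨f, hf, g, hg, h.symm⟩

private theorem infeb_supp_pd {R : Type*} [CommRing R] {P : MvPolynomial (Fin N) R}
    {i : Fin N} {e : Fin N →₀ ℕ} (he : e ∈ (pderiv i P).support) :
    e + Finsupp.single i 1 ∈ P.support := by
  rw [mem_support_iff, coeff_pderiv] at he
  rw [mem_support_iff]
  exact left_ne_zero_of_mul he

private theorem infeb_dg_single (i : Fin N) (k : ℕ) : dg (Finsupp.single i k) = k := by
  unfold dg
  rw [Finset.sum_eq_single i]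
  · exact Finsupp.single_eq_same
  · intro j _ hj
    exact Finsupp.single_eq_of_ne hj
  · intro h
    exact absurd (Finset.mem_univ i) h

private theorem infeb_step (hS : S.Ok) (hH : S.SmH) (hG : IsHG S nab br) {ι : Type} [Fintype ι]
    {g : ι → Mo} {w : ι → ℤ} {m : ℕ} (hm : S.M ≤ m) {c : ℕ}
    (hlt : ∀ u : Fin N →₀ ℕ, dg u < m →
      InV κ 1 g w (-(((dg u + N) / S.d : ℕ) : ℤ)) (br (monomial u 1)))
    (hC : ∀ u : Fin N →₀ ℕ, dg u = m →
      InV κ 1 g w (-(((dg u + N) / S.d : ℕ) : ℤ) + (c + 1)) (br (monomial u 1)))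
    (u : Fin N →₀ ℕ) (hu : dg u = m) :
    InV κ 1 g w (-(((dg u + N) / S.d : ℕ) : ℤ) + c) (br (monomial u 1)) := by
  have hd := hS.hd
  by_cases hdv : S.d ∣ dg u + N
  swap
  · rw [hG.out u hdv]
    exact inV_zero _
  have hHm : Hm m (monomial u (1 : κ)) := by
    intro e he
    rw [Finset.mem_singleton.1 (support_monomial_subset he), hu]
  obtain ⟨Q, hPQ, hQ⟩ := jac_comp (by omega) hS.homH hHm (hH u (by omega))
  have hu2 : (RatFunc.X : RatFunc κ) • br (monomial u 1) =
      ∑ i, (br ((pderiv i S.G * Q i).map (algebraMap κ (RatFunc κ))) +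
        br ((pderiv i (Q i)).map (algebraMap κ (RatFunc κ)))) := by
    have h1 : (monomial u 1 : MvPolynomial (Fin N) (RatFunc κ)) =
        (monomial u (1 : κ)).map (algebraMap κ (RatFunc κ)) := by
      rw [map_monomial, (algebraMap κ (RatFunc κ)).map_one]
    rw [h1, hPQ, ← map_smul, map_sum, Finset.smul_sum, map_sum]
    refine Finset.sum_congr rfl fun i _ => ?_
    have h2 : (RatFunc.X : RatFunc κ) • (pderiv i S.H * Q i).map (algebraMap κ (RatFunc κ)) =
        (pderiv i S.G * Q i).map (algebraMap κ (RatFunc κ)) -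
          pderiv i S.FK * (Q i).map (algebraMap κ (RatFunc κ)) := by
      rw [fk_eq, map_sub, pderiv_map, pderiv_C_mul, pderiv_map, ← C_mul',
        (map (algebraMap κ (RatFunc κ))).map_mul, (map (algebraMap κ (RatFunc κ))).map_mul]
      ring
    rw [h2, map_sub, br_F S hG, pderiv_map, sub_neg_eq_add]
  have hmem : InV κ 1 g w (-(((dg u + N) / S.d : ℕ) : ℤ) + (c + 1))
      ((RatFunc.X : RatFunc κ) • br (monomial u 1)) := by
    rw [hu2]
    refine inV_sum _ _ fun i _ => inV_add (inV_brm _ fun e he => ?_) (inV_brm _ fun e he => ?_)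
    · obtain ⟨f, hf, f', hf', h⟩ := infeb_supp_mul he
      have h3 := hS.homG _ (infeb_supp_pd hf)
      rw [dg_add, infeb_dg_single] at h3
      have h4 := hQ i f' hf'
      have h5 : dg e = dg u := by
        rw [h, dg_add]
        omega
      have h6 := hC e (by omega)
      rw [h5] at h6
      exact h6
    · have h3 := hQ i _ (infeb_supp_pd he)
      rw [dg_add, infeb_dg_single] at h3
      have h5 : dg u + N = dg e + N + S.d := by omega
      rw [h5, Nat.add_div_right _ (by omega)]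
      refine inV_mono ?_ (hlt e (by omega))
      push_cast
      omega
  have hX : Bd 1 (-1) ((RatFunc.X : RatFunc κ)⁻¹) := by
    right
    rw [RatFunc.intDegree_inv, RatFunc.intDegree_X]
    simp
  have hfin := inV_smul hX hmem
  rw [smul_smul, inv_mul_cancel₀ RatFunc.X_ne_zero, one_smul] at hfin
  refine inV_mono ?_ hfin
  omega

/-- Lefschetz pencils: `H` smooth. -/
theorem inf_lef (hS : S.Ok) (hH : S.SmH) (hG : IsHG S nab br) :
    ∃ (r : ℕ) (g : Fin r → Mo) (w : Fin r → ℤ), InfOk κ nab 1 g w ∧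
      ∀ e : Fin N →₀ ℕ, S.d ∣ dg e + N →
        InV κ 1 g w (-(((dg e + N) / S.d : ℕ) : ℤ)) (br (monomial e 1)) := by
  have hd := hS.hd
  obtain ⟨r, v, hv⟩ := exists_gens N S.M
  have all : ∀ e : Fin N →₀ ℕ, InV κ 1 (fun i => br (monomial (v i) 1))
      (fun i => (((dg (v i) + N) / S.d : ℕ) : ℤ)) (-(((dg e + N) / S.d : ℕ) : ℤ))
      (br (monomial e 1)) := by
    intro e
    refine inf_low S hS hG 1 (le_refl S.M) v hv (fun e => (((dg e + N) / S.d : ℕ) : ℤ)) ?_ e
    intro m hm hlt C hC u hu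
    exact infeb_step S hS hH hG hm hlt hC u hu
  refine ⟨r, fun i => br (monomial (v i) 1), fun i => (((dg (v i) + N) / S.d : ℕ) : ℤ), ?_,
    fun e _ => all e⟩
  refine inf_ok S hG le_rfl v (fun e => (((dg e + N) / S.d : ℕ) : ℤ)) all fun e => ?_
  by_cases hdv : S.d ∣ dg e + N
  swap
  · rw [hG.out e hdv, map_zero, smul_zero, smul_zero, add_zero]
    exact inV_zero _
  have hd0 : (S.d : RatFunc κ) ≠ 0 := Nat.cast_ne_zero.2 (by omega)
  have h1 := nab_lef S hS hG e
  have h2 : (((1 : ℕ) : RatFunc κ) * RatFunc.X) • nab (br (monomial e 1)) +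
      (((((dg e + N) / S.d : ℕ) : ℤ)) : RatFunc κ) • br (monomial e 1) =
      0 - br ((S.G * monomial e 1).map (algebraMap κ (RatFunc κ))) := by
    have h3 : ((dg e + N : ℕ) : RatFunc κ) =
        (S.d : RatFunc κ) * (((((dg e + N) / S.d : ℕ) : ℤ)) : RatFunc κ) := by
      rw [Int.cast_natCast, ← Nat.cast_mul, Nat.mul_div_cancel' hdv]
    rw [h3, neg_smul, mul_smul] at h1
    have h4 : (S.d : RatFunc κ) • ((((1 : ℕ) : RatFunc κ) * RatFunc.X) • nab (br (monomial e 1)) +
        (((((dg e + N) / S.d : ℕ) : ℤ)) : RatFunc κ) • br (monomial e 1)) =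
        (S.d : RatFunc κ) • (0 - br ((S.G * monomial e 1).map (algebraMap κ (RatFunc κ)))) := by
      rw [Nat.cast_one, one_mul, smul_add, h1, smul_sub, smul_zero]
      abel
    have h5 := congrArg (fun x => (S.d : RatFunc κ)⁻¹ • x) h4
    simp only [smul_smul, inv_mul_cancel₀ hd0, one_smul] at h5
    exact h5
  have h4 : InV κ 1 (fun i => br (monomial (v i) 1))
      (fun i => (((dg (v i) + N) / S.d : ℕ) : ℤ)) (-(((dg e + N) / S.d : ℕ) : ℤ) - 1)
      (0 - br ((S.G * monomial e 1).map (algebraMap κ (RatFunc κ)))) := by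
    refine inV_sub (inV_zero _) (inV_brm _ fun e' he' => ?_)
    obtain ⟨f, hf, f', hf', h⟩ := infeb_supp_mul he'
    have h5 := hS.homG f hf
    have h6 := Finset.mem_singleton.1 (support_monomial_subset hf')
    have h7 : dg e' + N = dg e + N + S.d := by
      rw [h, dg_add, h6]
      omega
    have h8 := all e'
    rw [h7, Nat.add_div_right _ (by omega)] at h8
    refine inV_mono ?_ h8
    push_cast
    omega
  rw [← h2] at h4
  exact h4

end MPadcLZ
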