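import Pool.Agent.Lib.MP_adc574_ag_LZ.InfE

/-!
# JOBS InfFa, InfFb: Morse pencils, `H = x_0 ^ d`

`[P] := br P`, `t = RatFunc.X`, `i₀` the special variable `x_0`, `F = FK = G - t x_0 ^ d` (`fk_eq`).

* JOB InfFa.
  `morse_comp`: `P` homogeneous of degree `m` in the ideal generated by the `∂_i G` (`i ≠ i₀`) and `x_0`: `P = ∑_{i ≠ i₀} ∂_i G Q_i + x_0 Q'` (`Submodule.span_induction` or `Ideal.span_union`, `Ideal.mem_span_range_iff_exists_fun`, `Submodule.mem_sup`); keep in `Q_i` only the monomials with `dg e + d = m + 1` and in `Q'` only those with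
  `dg e + 1 = m` (proof as `jac_comp` in `Nd.lean`; see the delivered file).
  `pd_ne`: `∂_i FK = (∂_i G).map` for `i ≠ i₀`. `pd_eq`: `∂_{i₀} FK = (∂_{i₀} G).map - t d x_0 ^ (d-1)` (`fk_eq`, `hH`, `pderiv_map`, `Derivation.leibniz_pow`).
  `nab_morse`: `(d t) nab [x^v] = - (v_0 + 1) [x^v] - [x_0 G_0 x^v]`: `nab_mono`: `nab [x^v] = - [x_0 ^ d x^v]`; `d t x_0 ^ d = x_0 (G_0 - F_0)` (`pd_eq`), so `(d t) nab [x^v] = - [x_0 G_0 x^v] + [F_0 x_0 x^v]`, `br_xF`.
  `mul_morse`: `(d t) [x_0 ^ d x^v] = [x_0 G_0 x^v] + (v_0 + 1) [x^v]`: the same.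
* JOB InfFb. `inf_morse`: `v`, `r` from `exists_gens N (S.M + S.d)`, `wt e := e i₀ + 1`, `s = d`, `inf_low` with `M' = S.M + S.d` and `inf_ok`.
  `step`: `m ≥ M + d`, `dg u = m`, `u_0 := u i₀`, `u' := u.erase i₀`, `dg u' + u_0 = m`, `x^u = x_0 ^ u_0 x^{u'}`.
  (1) `dg u' ≥ M`: `hG0 u'` and `morse_comp` (over `κ`): `x^{u'} = ∑_{i ≠ i₀} G_i Q_i + x_0 Q'`, so `[x^u] = ∑_{i ≠ i₀} [F_i x_0 ^ u_0 Q_i] + [x_0 ^ (u_0 + 1) Q']` (`pd_ne`), `[F_i x_0 ^ u_0 Q_i] = - [∂_i (x_0 ^ u_0 Q_i)]` (`br_F`), whose monomials have degree `m - d` and exponent of `x_0` at least `u_0`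
  (`∂_i`, `i ≠ i₀`, does not change it): in `V_(- wt u)` by the hypothesis for degrees `< m` (`wt e ≥ wt u`, `inV_mono`, `inV_brm`); the monomials of `x_0 ^ (u_0 + 1) Q'` have degree `m` and exponent of `x_0` at least `u_0 + 1`: in `V_(- (u_0 + 2) + C + 1) = V_(- wt u + C)`.
  (2) `dg u' < M`: `u_0 > m - M ≥ d`. `R := u - single i₀ d`, `x^u = x_0 ^ d x^R`, `R i₀ = u_0 - d`, `dg R = m - d`. `mul_morse`: `(d t) [x^u] = [x_0 G_0 x^R] + (R_0 + 1) [x^R]`. Monomials of `x_0 G_0 x^R`: degree `m`, exponent of `x_0` at least `u_0 - d + 1`: in `V_(- (u_0 - d + 2) + C + 1) = V_(- wt u + d + C)`;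
  `[x^R] ∈ V_(- (u_0 - d + 1)) = V_(- wt u + d)`. So `(d t) [x^u] ∈ V_(- wt u + d + C)`; multiply by `(d t)⁻¹` (`Bd d (-d)`: `s = d`).
  `ev`: `nab_morse`: `(d t) nab [x^v] + (v_0 + 1) [x^v] = - [x_0 G_0 x^v]`, monomials with exponent of `x_0` at least `v_0 + 1`: in `V_(- (v_0 + 2)) = V_(- wt v - 1)` by `all`, `inV_brm`.
-/

set_option autoImplicit false

namespace MPadcLZ

open MvPolynomial MPadcHM

universe u

private theorem inffa_hom {K : Type*} [Field K] {N m : ℕ} {P : MvPolynomial (Fin N) K} :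
    Hm m P ↔ P.IsHomogeneous m := by
  have hdeg : ∀ e : Fin N →₀ ℕ, dg e = e.degree := by
    intro e
    rw [Finsupp.degree_eq_sum]
    rfl
  constructor
  · intro h e he
    have h1 := h e (mem_support_iff.2 he)
    rw [hdeg, Finsupp.degree_eq_weight_one] at h1
    exact h1
  · intro h e he
    rw [hdeg]
    by_contra h1
    exact (mem_support_iff.1 he) (h.coeff_eq_zero h1)

private theorem inffa_comp {K : Type*} [Field K] {N M e : ℕ} (a b : MvPolynomial (Fin N) K)
    (hb : b.IsHomogeneous e) : homogeneousComponent M (a * b) =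
      if e ≤ M then homogeneousComponent (M - e) a * b else 0 := by
  classical
  have h1 : a * b = ∑ k ∈ Finset.range (a.totalDegree + 1), homogeneousComponent k a * b := by
    rw [← Finset.sum_mul, sum_homogeneousComponent]
  have h2 : ∀ k, homogeneousComponent M (homogeneousComponent k a * b) =
      if M = k + e then homogeneousComponent k a * b else 0 := by
    intro k
    exact homogeneousComponent_of_mem ((homogeneousComponent_isHomogeneous k a).mul hb)
  rw [h1, map_sum, Finset.sum_congr rfl fun k _ => h2 k]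
  split_ifs with h
  · by_cases h3 : M - e ∈ Finset.range (a.totalDegree + 1)
    · rw [Finset.sum_eq_single (M - e)]
      · rw [if_pos (by omega)]
      · intro k _ hk
        rw [if_neg (by omega)]
      · intro h4
        exact absurd h3 h4
    · rw [Finset.sum_eq_zero, homogeneousComponent_eq_zero _ _ (by
        rw [Finset.mem_range] at h3
        omega), zero_mul]
      intro k hk
      rw [if_neg]
      rintro h4
      apply h3
      have h5 : M - e = k := by omega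
      rw [h5]
      exact hk
  · refine Finset.sum_eq_zero fun k _ => ?_
    rw [if_neg (by omega)]

private theorem inffa_span {K : Type*} [Field K] {N : ℕ} {G P : MvPolynomial (Fin N) K}
    (i₀ : Fin N)
    (h : P ∈ Ideal.span ({P | ∃ i, i ≠ i₀ ∧ P = pderiv i G} ∪ {X i₀})) :
    ∃ (Q : Fin N → MvPolynomial (Fin N) K) (Q' : MvPolynomial (Fin N) K),
      P = ∑ i ∈ Finset.univ.erase i₀, Q i * pderiv i G + Q' * X i₀ := by
  classical
  refine Submodule.span_induction ?_ ?_ ?_ ?_ h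
  · rintro x (⟨i, hi, rfl⟩ | hx)
    · refine ⟨fun j => if j = i then 1 else 0, 0, ?_⟩
      rw [Finset.sum_eq_single i]
      · simp
      · intro b _ hb
        beta_reduce
        rw [if_neg hb, zero_mul]
      · intro hi'
        exact absurd (Finset.mem_erase.mpr ⟨hi, Finset.mem_univ i⟩) hi'
    · rw [Set.mem_singleton_iff] at hx
      refine ⟨fun _ => 0, 1, ?_⟩
      rw [hx]
      simp
  · exact ⟨fun _ => 0, 0, by simp⟩
  · rintro x y _ _ ⟨Q, Q', h1⟩ ⟨R, R', h2⟩
    refine ⟨fun j => Q j + R j, Q' + R', ?_⟩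
    rw [h1, h2]
    simp only [add_mul]
    rw [Finset.sum_add_distrib]
    ring
  · rintro a x _ ⟨Q, Q', h1⟩
    refine ⟨fun j => a * Q j, a * Q', ?_⟩
    rw [h1, smul_eq_mul, mul_add, Finset.mul_sum]
    simp only [mul_assoc]

theorem morse_comp {K : Type*} [Field K] {N : ℕ} {d m : ℕ} (hd : 1 ≤ d)
    {G P : MvPolynomial (Fin N) K} (hG : Hm d G) (i₀ : Fin N) (hP : Hm m P)
    (h : P ∈ Ideal.span ({P | ∃ i, i ≠ i₀ ∧ P = pderiv i G} ∪ {X i₀})) :
    ∃ (Q : Fin N → MvPolynomial (Fin N) K) (Q' : MvPolynomial (Fin N) K),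
      P = ∑ i ∈ Finset.univ.erase i₀, pderiv i G * Q i + X i₀ * Q' ∧
      (∀ i, ∀ e ∈ (Q i).support, dg e + d = m + 1) ∧ ∀ e ∈ Q'.support, dg e + 1 = m := by
  classical
  obtain ⟨c, c', hc⟩ := inffa_span i₀ h
  have hG' := inffa_hom.1 hG
  have hP' := inffa_hom.1 hP
  refine ⟨fun j => if d - 1 ≤ m then homogeneousComponent (m - (d - 1)) (c j) else 0,
    if 1 ≤ m then homogeneousComponent (m - 1) c' else 0, ?_, ?_, ?_⟩
  · have h0 := congrArg (homogeneousComponent m) hc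
    rw [homogeneousComponent_eq_self hP', map_add, map_sum,
      Finset.sum_congr rfl fun j _ => inffa_comp (M := m) (c j) _ (hG'.pderiv (i := j)),
      inffa_comp c' _ (isHomogeneous_X K i₀)] at h0
    rw [h0]
    refine congrArg₂ (· + ·) (Finset.sum_congr rfl fun j _ => ?_) ?_
    · split_ifs
      · rw [mul_comm]
      · rw [mul_zero]
    · split_ifs
      · rw [mul_comm]
      · rw [mul_zero]
  · intro i e he
    beta_reduce at he
    split_ifs at he with h1
    · have h2 := inffa_hom.2 (homogeneousComponent_isHomogeneous (m - (d - 1)) (c i)) e he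
      omega
    · simp at he
  · intro e he
    split_ifs at he with h1
    · have h2 := inffa_hom.2 (homogeneousComponent_isHomogeneous (m - 1) c') e he
      omega
    · simp at he

variable {κ : Type u} [Field κ] [CharZero κ] {N : ℕ} (S : PDat κ N) {Mo : Type u}
  [AddCommGroup Mo] [Module (RatFunc κ) Mo] [Module (Polynomial κ) Mo]
  [IsScalarTower (Polynomial κ) (RatFunc κ) Mo] {nab : Mo →+ Mo}
  {br : MvPolynomial (Fin N) (RatFunc κ) →ₗ[RatFunc κ] Mo}

omit [CharZero κ] in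
private theorem inffa_fk (i₀ : Fin N) (hH : S.H = X i₀ ^ S.d) :
    S.FK = S.G.map (algebraMap κ (RatFunc κ)) - C RatFunc.X * X i₀ ^ S.d := by
  rw [fk_eq, hH, map_pow, map_X]

theorem pd_ne (i₀ : Fin N) (hH : S.H = X i₀ ^ S.d) {i : Fin N} (hi : i ≠ i₀) :
    pderiv i S.FK = (pderiv i S.G).map (algebraMap κ (RatFunc κ)) := by
  rw [inffa_fk S i₀ hH, map_sub, pderiv_map, pderiv_C_mul, pderiv_pow,
    pderiv_X_of_ne (Ne.symm hi), mul_zero, mul_zero, sub_zero]

theorem pd_eq (i₀ : Fin N) (hH : S.H = X i₀ ^ S.d) :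
    pderiv i₀ S.FK = (pderiv i₀ S.G).map (algebraMap κ (RatFunc κ)) -
      C (RatFunc.X * (S.d : RatFunc κ)) * X i₀ ^ (S.d - 1) := by
  rw [inffa_fk S i₀ hH, map_sub, pderiv_map, pderiv_C_mul, pderiv_pow, pderiv_X_self, mul_one,
    C_mul, map_natCast]
  ring

omit [CharZero κ] in
private theorem inffa_smul (c : RatFunc κ) (P : MvPolynomial (Fin N) (RatFunc κ)) :
    c • br P = br (C c * P) := by
  rw [← map_smul, ← C_mul']

private theorem inffa_key (hS : S.Ok) (i₀ : Fin N) (hH : S.H = X i₀ ^ S.d) (v : Fin N →₀ ℕ) :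
    C ((S.d : RatFunc κ) * RatFunc.X) * (X i₀ ^ S.d * monomial v 1) =
      (X i₀ * pderiv i₀ S.G * monomial v 1).map (algebraMap κ (RatFunc κ)) -
        pderiv i₀ S.FK * (X i₀ * monomial v 1) := by
  have hd : S.d = (S.d - 1) + 1 := by
    have := hS.hd
    omega
  have h1 : (X i₀ : MvPolynomial (Fin N) (RatFunc κ)) ^ S.d = X i₀ ^ (S.d - 1) * X i₀ := by
    rw [← pow_succ, ← hd]
  have h2 : (X i₀ * pderiv i₀ S.G * monomial v 1).map (algebraMap κ (RatFunc κ)) =
      X i₀ * (pderiv i₀ S.G).map (algebraMap κ (RatFunc κ)) * monomial v 1 := by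
    rw [(map (algebraMap κ (RatFunc κ))).map_mul, (map (algebraMap κ (RatFunc κ))).map_mul,
      map_X, map_monomial, map_one]
  rw [pd_eq S i₀ hH, h2, h1, mul_comm (S.d : RatFunc κ)]
  ring

theorem nab_morse (hS : S.Ok) (hG : IsHG S nab br) (i₀ : Fin N) (hH : S.H = X i₀ ^ S.d)
    (v : Fin N →₀ ℕ) :
    ((S.d : RatFunc κ) * RatFunc.X) • nab (br (monomial v 1)) =
      - (((v i₀ : ℕ) : RatFunc κ) + 1) • br (monomial v 1) -
        br ((X i₀ * pderiv i₀ S.G * monomial v 1).map (algebraMap κ (RatFunc κ))) := by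
  have h2 : (S.H * monomial v 1).map (algebraMap κ (RatFunc κ)) =
      X i₀ ^ S.d * monomial v 1 := by
    rw [hH, (map (algebraMap κ (RatFunc κ))).map_mul, map_pow, map_X, map_monomial, map_one]
  rw [nab_mono S hG v, smul_neg, inffa_smul, h2, inffa_key S hS i₀ hH v, map_sub,
    br_xF S hG i₀ v]
  abel

theorem mul_morse (hS : S.Ok) (hG : IsHG S nab br) (i₀ : Fin N) (hH : S.H = X i₀ ^ S.d)
    (v : Fin N →₀ ℕ) :
    ((S.d : RatFunc κ) * RatFunc.X) • br (monomial (v + Finsupp.single i₀ S.d) 1) =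
      br ((X i₀ * pderiv i₀ S.G * monomial v 1).map (algebraMap κ (RatFunc κ))) +
        (((v i₀ : ℕ) : RatFunc κ) + 1) • br (monomial v 1) := by
  have h1 : (monomial (v + Finsupp.single i₀ S.d) 1 : MvPolynomial (Fin N) (RatFunc κ)) =
      X i₀ ^ S.d * monomial v 1 := by
    rw [X_pow_eq_monomial, monomial_mul, mul_one, add_comm]
  rw [h1, inffa_smul, inffa_key S hS i₀ hH v, map_sub, br_xF S hG i₀ v, neg_smul, sub_neg_eq_add]

private theorem inffb_supp_mul {R : Type*} [CommRing R] {P Q : MvPolynomial (Fin N) R}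
    {e : Fin N →₀ ℕ} (he : e ∈ (P * Q).support) :
    ∃ f ∈ P.support, ∃ g ∈ Q.support, e = f + g := by
  classical
  obtain ⟨f, hf, g, hg, h⟩ := Finset.mem_add.1 (support_mul P Q he)
  exact ⟨f, hf, g, hg, h.symm⟩

private theorem inffb_supp_X {R : Type*} [CommRing R] {i : Fin N} {k : ℕ}
    {e : Fin N →₀ ℕ} (he : e ∈ (X i ^ k : MvPolynomial (Fin N) R).support) :
    e = Finsupp.single i k := by
  rw [X_pow_eq_monomial] at he
  exact Finset.mem_singleton.1 (support_monomial_subset he)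

private theorem inffb_supp_pd {R : Type*} [CommRing R] {P : MvPolynomial (Fin N) R}
    {i : Fin N} {e : Fin N →₀ ℕ} (he : e ∈ (pderiv i P).support) :
    e + Finsupp.single i 1 ∈ P.support := by
  rw [mem_support_iff, coeff_pderiv] at he
  rw [mem_support_iff]
  exact left_ne_zero_of_mul he

private theorem inffb_dg_single (i : Fin N) (k : ℕ) : dg (Finsupp.single i k) = k := by
  unfold dg
  rw [Finset.sum_eq_single i]
  · exact Finsupp.single_eq_same
  · intro j _ hj
    exact Finsupp.single_eq_of_ne hj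
  · intro h
    exact absurd (Finset.mem_univ i) h

private theorem inffb_bd {d : ℕ} (hd : d ≠ 0) :
    Bd d (-(d : ℤ)) (((d : RatFunc κ) * RatFunc.X)⁻¹) := by
  right
  have h1 : ((d : RatFunc κ)) ≠ 0 := Nat.cast_ne_zero.2 hd
  have h2 : ((d : RatFunc κ)) = RatFunc.C (d : κ) := by rw [map_natCast]
  rw [RatFunc.intDegree_inv, RatFunc.intDegree_mul h1 RatFunc.X_ne_zero, h2, RatFunc.intDegree_C,
    RatFunc.intDegree_X]
  simp

/-- The first case. -/
private theorem inffb_case1 (hS : S.Ok) (i₀ : Fin N) (hH : S.H = X i₀ ^ S.d)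
    (hG : IsHG S nab br) {ι : Type} [Fintype ι] {g : ι → Mo} {w : ι → ℤ} {m : ℕ} {C : ℕ}
    (hlt : ∀ u : Fin N →₀ ℕ, dg u < m → InV κ S.d g w (-((u i₀ : ℤ) + 1)) (br (monomial u 1)))
    (hC : ∀ u : Fin N →₀ ℕ, dg u = m →
      InV κ S.d g w (-((u i₀ : ℤ) + 1) + (C + 1)) (br (monomial u 1)))
    (u : Fin N →₀ ℕ) (hu : dg u = m)
    (hG0 : monomial (u.erase i₀) (1 : κ) ∈
      Ideal.span ({P | ∃ i, i ≠ i₀ ∧ P = pderiv i S.G} ∪ {X i₀})) :
    InV κ S.d g w (-((u i₀ : ℤ) + 1) + C) (br (monomial u 1)) := by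
  have hd := hS.hd
  have hdeg : dg (u.erase i₀) + u i₀ = m := by
    have h1 := congrArg dg (Finsupp.erase_add_single i₀ u)
    rw [dg_add, inffb_dg_single, hu] at h1
    exact h1
  have hHm : Hm (dg (u.erase i₀)) (monomial (u.erase i₀) (1 : κ)) := by
    intro e he
    rw [Finset.mem_singleton.1 (support_monomial_subset he)]
  obtain ⟨Q, Q', hPQ, hQ, hQ'⟩ := morse_comp (by omega) hS.homG i₀ hHm hG0
  have hu1 : (monomial u 1 : MvPolynomial (Fin N) κ) =
      ∑ i ∈ Finset.univ.erase i₀, pderiv i S.G * (X i₀ ^ u i₀ * Q i) +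
        X i₀ ^ (u i₀ + 1) * Q' := by
    have h1 : (monomial u 1 : MvPolynomial (Fin N) κ) =
        X i₀ ^ (u i₀) * monomial (u.erase i₀) 1 := by
      rw [X_pow_eq_monomial, monomial_mul, one_mul, Finsupp.single_add_erase]
    rw [h1, hPQ, mul_add, Finset.mul_sum, pow_succ, mul_assoc]
    congr 1
    exact Finset.sum_congr rfl fun i _ => by ring
  have hu2 : br (monomial u 1) =
      ∑ i ∈ Finset.univ.erase i₀,
        (0 - br ((pderiv i (X i₀ ^ u i₀ * Q i)).map (algebraMap κ (RatFunc κ)))) +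
        br ((X i₀ ^ (u i₀ + 1) * Q').map (algebraMap κ (RatFunc κ))) := by
    have h1 : (monomial u 1 : MvPolynomial (Fin N) (RatFunc κ)) =
        (monomial u (1 : κ)).map (algebraMap κ (RatFunc κ)) := by
      rw [map_monomial, (algebraMap κ (RatFunc κ)).map_one]
    rw [h1, hu1, map_add, map_sum, map_add, map_sum]
    congr 1
    refine Finset.sum_congr rfl fun i hi => ?_
    rw [map_mul, ← pd_ne S i₀ hH (Finset.ne_of_mem_erase hi), br_F S hG, pderiv_map, zero_sub]
  rw [hu2]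
  refine inV_add (inV_sum _ _ fun i hi => inV_sub (inV_zero _) (inV_brm _ fun e he => ?_))
    (inV_brm _ fun e he => ?_)
  · obtain ⟨f, hf, g', hg', h⟩ := inffb_supp_mul (inffb_supp_pd he)
    have h2 := inffb_supp_X hf
    rw [h2] at h
    have h3 := hQ i g' hg'
    have h4 := congrArg dg h
    rw [dg_add, dg_add, inffb_dg_single, inffb_dg_single] at h4
    have h5 := DFunLike.congr_fun h i₀
    have hne : i ≠ i₀ := Finset.ne_of_mem_erase hi
    rw [Finsupp.add_apply, Finsupp.add_apply, Finsupp.single_eq_same,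
      Finsupp.single_eq_of_ne (Ne.symm hne)] at h5
    refine inV_mono ?_ (hlt e (by omega))
    omega
  · obtain ⟨f, hf, g', hg', h⟩ := inffb_supp_mul he
    have h2 := inffb_supp_X hf
    rw [h2] at h
    have h3 := hQ' g' hg'
    have h4 := congrArg dg h
    rw [dg_add, inffb_dg_single] at h4
    have h5 := DFunLike.congr_fun h i₀
    rw [Finsupp.add_apply, Finsupp.single_eq_same] at h5
    refine inV_mono ?_ (hC e (by omega))
    omega

/-- Monomials of `x_0 G_0 x^v`. -/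
private theorem inffb_supp3 (hS : S.Ok) (i₀ : Fin N) (v : Fin N →₀ ℕ) {e : Fin N →₀ ℕ}
    (he : e ∈ (X i₀ * pderiv i₀ S.G * monomial v 1).support) :
    dg e = dg v + S.d ∧ v i₀ + 1 ≤ e i₀ := by
  obtain ⟨f, hf, g, hg, h⟩ := inffb_supp_mul he
  obtain ⟨f1, hf1, f2, hf2, h'⟩ := inffb_supp_mul hf
  have h1 := Finset.mem_singleton.1 (support_monomial_subset hg)
  have h2 : f1 = Finsupp.single i₀ 1 := by
    rw [← pow_one (X i₀ : MvPolynomial (Fin N) κ)] at hf1
    exact inffb_supp_X hf1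
  have h3 := hS.homG _ (inffb_supp_pd hf2)
  rw [dg_add, inffb_dg_single] at h3
  rw [h1, h', h2] at h
  have h4 := congrArg dg h
  rw [dg_add, dg_add, inffb_dg_single] at h4
  have h5 := DFunLike.congr_fun h i₀
  rw [Finsupp.add_apply, Finsupp.add_apply, Finsupp.single_eq_same] at h5
  constructor <;> omega

/-- The second case. -/
private theorem inffb_case2 (hS : S.Ok) (i₀ : Fin N) (hH : S.H = X i₀ ^ S.d)
    (hG : IsHG S nab br) {ι : Type} [Fintype ι] {g : ι → Mo} {w : ι → ℤ} {m : ℕ} {C : ℕ}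
    (hlt : ∀ u : Fin N →₀ ℕ, dg u < m → InV κ S.d g w (-((u i₀ : ℤ) + 1)) (br (monomial u 1)))
    (hC : ∀ u : Fin N →₀ ℕ, dg u = m →
      InV κ S.d g w (-((u i₀ : ℤ) + 1) + (C + 1)) (br (monomial u 1)))
    (u : Fin N →₀ ℕ) (hu : dg u = m) (hud : S.d ≤ u i₀) :
    InV κ S.d g w (-((u i₀ : ℤ) + 1) + C) (br (monomial u 1)) := by
  have hd := hS.hd
  obtain ⟨R, hR⟩ : ∃ R : Fin N →₀ ℕ, u = R + Finsupp.single i₀ S.d :=
    ⟨u - Finsupp.single i₀ S.d, (tsub_add_cancel_of_le (Finsupp.single_le_iff.2 hud)).symm⟩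
  have h1 := congrArg dg hR
  rw [dg_add, inffb_dg_single] at h1
  have h2 := DFunLike.congr_fun hR i₀
  rw [Finsupp.add_apply, Finsupp.single_eq_same] at h2
  have hmul := mul_morse S hS hG i₀ hH R
  rw [← hR] at hmul
  have hA : InV κ S.d g w (-((u i₀ : ℤ) + 1) + (S.d + C))
      (br ((X i₀ * pderiv i₀ S.G * monomial R 1).map (algebraMap κ (RatFunc κ)))) := by
    refine inV_brm _ fun e he => ?_
    obtain ⟨h3, h4⟩ := inffb_supp3 S hS i₀ R he
    refine inV_mono ?_ (hC e (by omega))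
    omega
  have hB : InV κ S.d g w (-((u i₀ : ℤ) + 1) + (S.d + C))
      ((((R i₀ : ℕ) : RatFunc κ) + 1) • br (monomial R 1)) := by
    have h3 : (((R i₀ : ℕ) : RatFunc κ) + 1) = (((R i₀ : ℤ) + 1 : ℤ) : RatFunc κ) := by
      push_cast
      ring
    rw [h3]
    refine inV_mono ?_ (inV_smul (bd_int _) (hlt R (by omega)))
    omega
  have hAB := inV_add hA hB
  rw [← hmul] at hAB
  have hne : ((S.d : RatFunc κ) * RatFunc.X) ≠ 0 :=
    mul_ne_zero (Nat.cast_ne_zero.2 (by omega)) RatFunc.X_ne_zero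
  have hfin := inV_smul (inffb_bd (κ := κ) (d := S.d) (by omega)) hAB
  rw [smul_smul, inv_mul_cancel₀ hne, one_smul] at hfin
  refine inV_mono ?_ hfin
  omega

/-- Morse pencils: `H = x_0 ^ d`, `G(0, x')` smooth. -/
theorem inf_morse (hS : S.Ok) (i₀ : Fin N) (hH : S.H = X i₀ ^ S.d)
    (hG0 : ∀ e : Fin N →₀ ℕ, S.M ≤ dg e → monomial e (1 : κ) ∈
      Ideal.span ({P | ∃ i, i ≠ i₀ ∧ P = pderiv i S.G} ∪ {X i₀})) (hG : IsHG S nab br) :
    ∃ (r : ℕ) (g : Fin r → Mo) (w : Fin r → ℤ), InfOk κ nab S.d g w ∧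
      ∀ e : Fin N →₀ ℕ, S.d ∣ dg e + N →
        InV κ S.d g w (-((e i₀ + 1 : ℕ) : ℤ)) (br (monomial e 1)) := by
  have hd := hS.hd
  obtain ⟨r, v, hv⟩ := exists_gens N (S.M + S.d)
  have all : ∀ e : Fin N →₀ ℕ, InV κ S.d (fun i => br (monomial (v i) 1))
      (fun i => ((v i i₀ : ℤ) + 1)) (-((e i₀ : ℤ) + 1)) (br (monomial e 1)) := by
    intro e
    refine inf_low S hS hG S.d (Nat.le_add_right S.M S.d) v hv (fun e => (e i₀ : ℤ) + 1) ?_ e
    intro m hm hlt C hC u hu
    by_cases h1 : S.M ≤ dg (u.erase i₀)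
    · exact inffb_case1 S hS i₀ hH hG hlt hC u hu (hG0 _ h1)
    · have hdeg : dg (u.erase i₀) + u i₀ = m := by
        have h2 := congrArg dg (Finsupp.erase_add_single i₀ u)
        rw [dg_add, inffb_dg_single, hu] at h2
        exact h2
      exact inffb_case2 S hS i₀ hH hG hlt hC u hu (by omega)
  refine ⟨r, fun i => br (monomial (v i) 1), fun i => ((v i i₀ : ℤ) + 1), ?_, ?_⟩
  · refine inf_ok S hG (by omega) v (fun e => (e i₀ : ℤ) + 1) all fun e => ?_
    have h1 := nab_morse S hS hG i₀ hH e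
    have h2 : ((S.d : RatFunc κ) * RatFunc.X) • nab (br (monomial e 1)) +
        ((((e i₀ : ℤ) + 1 : ℤ)) : RatFunc κ) • br (monomial e 1) =
        0 - br ((X i₀ * pderiv i₀ S.G * monomial e 1).map (algebraMap κ (RatFunc κ))) := by
      have h3 : ((((e i₀ : ℤ) + 1 : ℤ)) : RatFunc κ) = ((e i₀ : ℕ) : RatFunc κ) + 1 := by
        push_cast
        ring
      rw [h1, h3, neg_smul]
      abel
    have h4 : InV κ S.d (fun i => br (monomial (v i) 1)) (fun i => ((v i i₀ : ℤ) + 1))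
        (-((e i₀ : ℤ) + 1) - 1)
        (0 - br ((X i₀ * pderiv i₀ S.G * monomial e 1).map (algebraMap κ (RatFunc κ)))) := by
      refine inV_sub (inV_zero _) (inV_brm _ fun e' he' => ?_)
      obtain ⟨_, h5⟩ := inffb_supp3 S hS i₀ e he'
      refine inV_mono ?_ (all e')
      omega
    rw [← h2] at h4
    exact h4
  · intro e _
    refine inV_mono ?_ (all e)
    push_cast
    exact le_rfl

end MPadcLZ
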