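import Pool.Agent.Lib.MP_adc574_ag_LZ.InfC
import Pool.Agent.Lib.MP_adc574_ag_LZ.InfF

/-!
# PART III: the filtration at infinity

`inf_endo`, `inf_form`, `inf_flat`, `inf_stable` are in `InfC.lean`, `inf_lef` in `InfE.lean`, `inf_morse` in
`InfF.lean`.
-/
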