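import Pool.Agent.Lib.MP_adc574_ag_LZ.Defs
import Pool.Agent.Lib.MP_adc574_ag_HM.LocE

/-!
# Interface of the parts II - V

`N = n + 1` variables; the level of an exponent `e` is `a` if `dg e + N = d (a + 1)`. `K = κ(t)` is `RatFunc κ`, `D = DK κ = DZ κ`.
-/

set_option autoImplicit false

namespace MPadcLZ

open MvPolynomial MPadcHM

universe u

section Data

/-- The data of a pencil `G - t H` with its nodes. -/
structure PDat (R : Type u) [CommRing R] (N : ℕ) where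
  d : ℕ
  G : MvPolynomial (Fin N) R
  H : MvPolynomial (Fin N) R
  ell : MvPolynomial (Fin N) R
  J : ℕ
  tau : Fin J → R
  sig : Fin J → Fin N → R
  M : ℕ

variable {R : Type u} [CommRing R] {N : ℕ}

/-- `f = G - t H` over `R[t]`. -/
noncomputable def PDat.ft (S : PDat R N) : MvPolynomial (Fin N) (Polynomial R) :=
  S.G.map Polynomial.C - C Polynomial.X * S.H.map Polynomial.C

/-- `δ = ∏ (t - τ_j)`. -/
noncomputable def PDat.del (S : PDat R N) : Polynomial R :=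
  ∏ j, (Polynomial.X - Polynomial.C (S.tau j))

/-- The Hessian of `G - τ_j H` at `σ_j`. -/
noncomputable def PDat.hes (S : PDat R N) (j : Fin S.J) : Matrix (Fin N) (Fin N) R :=
  Matrix.of fun a b => eval (S.sig j) (pderiv a (pderiv b (S.G - C (S.tau j) * S.H)))

/-- The conditions on the finite part of the pencil. -/
structure PDat.Ok (S : PDat R N) : Prop where
  hN : 3 ≤ N
  hd : 3 ≤ S.d
  homG : Hm S.d S.G
  homH : Hm S.d S.H
  homl : Hm 1 S.ell
  sep : ∀ i j, i ≠ j → IsUnit (S.tau i - S.tau j)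
  crit : ∀ j i, eval (S.sig j) (pderiv i S.G) = S.tau j * eval (S.sig j) (pderiv i S.H)
  one : ∀ j, eval (S.sig j) S.ell = 1
  Hu : ∀ j, IsUnit (eval (S.sig j) S.H)
  hess : ∀ j, ∃ (B : Matrix (Fin N) (Fin N) R) (lam : Fin N → R),
    B * S.hes j = 1 - Matrix.vecMulVec (S.sig j) lam
  gen : ∀ e : Fin N →₀ ℕ, dg e = S.M → ∃ xi : Polynomial R,
    monomial e 1 - C xi * S.ell.map Polynomial.C ^ S.M ∈ Jac S.ft
  ann : C S.del * S.ell.map Polynomial.C ^ S.M ∈ Jac S.ft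

/-- `H` is smooth. -/
def PDat.SmH (S : PDat R N) : Prop :=
  ∀ e : Fin N →₀ ℕ, S.M ≤ dg e → monomial e (1 : R) ∈ Jac S.H

/-- `F` over `R(t)`, here for a field. -/
noncomputable def PDat.FK {κ : Type u} [Field κ] (S : PDat κ N) : MvPolynomial (Fin N) (RatFunc κ) :=
  S.ft.map (algebraMap (Polynomial κ) (RatFunc κ))

end Data

section Module

variable {κ : Type u} [Field κ] {N : ℕ} (S : PDat κ N) {Mo : Type u} [AddCommGroup Mo]
  [Module (RatFunc κ) Mo] [Module (Polynomial κ) Mo] [IsScalarTower (Polynomial κ) (RatFunc κ) Mo]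

/-- The module `P_K` with its connection: `br P` is the class of `P`. -/
structure IsHG (nab : Mo →+ Mo) (br : MvPolynomial (Fin N) (RatFunc κ) →ₗ[RatFunc κ] Mo) :
    Prop where
  leib : ∀ (c : RatFunc κ) (x : Mo), nab (c • x) = DK κ c • x + c • nab x
  rel : ∀ i Q, br (dl S.FK i Q) = 0
  out : ∀ e : Fin N →₀ ℕ, ¬ S.d ∣ dg e + N → br (monomial e 1) = 0
  nab_br : ∀ P, nab (br P) = br (nb (DZ κ) S.FK P)
  surj : Function.Surjective br

/-- The pairing on `P_K`. -/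
structure IsPP (nab : Mo →+ Mo) (br : MvPolynomial (Fin N) (RatFunc κ) →ₗ[RatFunc κ] Mo)
    (B : Mo →ₗ[RatFunc κ] Mo →ₗ[RatFunc κ] RatFunc κ)
    (rho : MvPolynomial (Fin N) (RatFunc κ) →ₗ[RatFunc κ] RatFunc κ) : Prop where
  flat : ∀ x y, DK κ (B x y) = B (nab x) y + B x (nab y)
  low : ∀ u v : Fin N →₀ ℕ, dg u + dg v < N * (S.d - 2) →
    B (br (monomial u 1)) (br (monomial v 1)) = 0
  mid : ∀ u v : Fin N →₀ ℕ, S.d ∣ dg u + N → dg u + dg v = N * (S.d - 2) →
    B (br (monomial u 1)) (br (monomial v 1)) =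
      (-1) ^ ((dg u + N) / S.d + 1) * rho (monomial (u + v) 1)
  rho_jac : ∀ i Q, rho (pderiv i S.FK * Q) = 0
  rho_perf : ∀ m ≤ N * (S.d - 2), ∀ P, Hm m P →
    (∀ v : Fin N →₀ ℕ, dg v + m = N * (S.d - 2) → rho (P * monomial v 1) = 0) → P ∈ Jac S.FK
  top : ∀ e : Fin N →₀ ℕ, N * (S.d - 2) < dg e → monomial e 1 ∈ Jac S.FK

/-- The lattice `E_k`: the classes of the polynomials over `κ[t]` of level `≤ k`. -/
noncomputable def EL (br : MvPolynomial (Fin N) (RatFunc κ) →ₗ[RatFunc κ] Mo) (k : ℕ) :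
    Submodule (Polynomial κ) Mo :=
  Submodule.span (Polynomial κ)
    {x | ∃ e : Fin N →₀ ℕ, S.d ∣ dg e + N ∧ dg e + N ≤ S.d * (k + 1) ∧ x = br (monomial e 1)}

/-- `u_k`, the class of `ell ^ m`, `m + N = d (k + 2)`. -/
noncomputable def uu (br : MvPolynomial (Fin N) (RatFunc κ) →ₗ[RatFunc κ] Mo) (k : ℕ) : Mo :=
  br ((S.ell.map (algebraMap κ (RatFunc κ))) ^ (S.d * (k + 2) - N))

end Module

section Lattice

variable {κ : Type u} [Field κ] {Mo : Type u} [AddCommGroup Mo]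
  [Module (RatFunc κ) Mo] [Module (Polynomial κ) Mo] [IsScalarTower (Polynomial κ) (RatFunc κ) Mo]

/-- `x` is in `E` near `τ`. -/
def NearIn (E : Submodule (Polynomial κ) Mo) (τ : κ) (x : Mo) : Prop :=
  ∃ q : Polynomial κ, q.eval τ ≠ 0 ∧ q • x ∈ E

/-- `E` is stable under `nab` near `τ`. -/
def StabAt (nab : Mo →+ Mo) (E : Submodule (Polynomial κ) Mo) (τ : κ) : Prop :=
  ∀ x ∈ E, NearIn E τ (nab x)

/-- `T` is stable under `nab` and saturated at `τ`. -/
structure Cl (nab : Mo →+ Mo) (τ : κ) (T : Submodule (Polynomial κ) Mo) : Prop where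
  stab : ∀ x ∈ T, nab x ∈ T
  sat : ∀ (q : Polynomial κ) (x : Mo), q.eval τ ≠ 0 → q • x ∈ T → x ∈ T

/-- `x` is in the module generated by `E` near `τ`, stable under `nab`. -/
def InDD (nab : Mo →+ Mo) (E : Submodule (Polynomial κ) Mo) (τ : κ) (x : Mo) : Prop :=
  ∀ T : Submodule (Polynomial κ) Mo, Cl nab τ T → E ≤ T → x ∈ T

/-- Lattice data. -/
structure LD (nab : Mo →+ Mo) (del : Polynomial κ) (E : Submodule (Polynomial κ) Mo) (u : Mo)
    (al : κ) : Prop where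
  fg : E.FG
  spn : ∀ x : Mo, ∃ q : Polynomial κ, q ≠ 0 ∧ q • x ∈ E
  nabE : ∀ x ∈ E, ∃ p : Polynomial κ, nab x - p • u ∈ E
  delu : del • u ∈ E
  res : nab (del • u) - (Polynomial.C al * Polynomial.derivative del) • u ∈ E

/-- The rational function `g` is regular at `τ`. -/
def RegAt (τ : κ) (g : RatFunc κ) : Prop :=
  ∃ a b : Polynomial κ, b.eval τ ≠ 0 ∧
    algebraMap (Polynomial κ) (RatFunc κ) b * g = algebraMap (Polynomial κ) (RatFunc κ) a

end Lattice

section Infinity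

variable (κ : Type u) [Field κ] {Mo : Type u} [AddCommGroup Mo] [Module (RatFunc κ) Mo]

/-- `x` is a combination of the `g i` with coefficients `c i`, `s deg (c i) ≤ q + w i`. -/
def InV (s : ℕ) {ι : Type} [Fintype ι] (g : ι → Mo) (w : ι → ℤ) (q : ℤ) (x : Mo) : Prop :=
  ∃ c : ι → RatFunc κ, x = ∑ i, c i • g i ∧ ∀ i, Bd s (q + w i) (c i)

/-- The data of a filtration at infinity. -/
structure InfOk (nab : Mo →+ Mo) (s : ℕ) {ι : Type} [Fintype ι] (g : ι → Mo) (w : ι → ℤ) :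
    Prop where
  hs : 1 ≤ s
  span : ∀ x, ∃ q, InV κ s g w q x
  ev : ∀ i, InV κ s g w (-w i - 1)
    (((s : RatFunc κ) * RatFunc.X) • nab (g i) + ((w i : ℤ) : RatFunc κ) • g i)

end Infinity

end MPadcLZ
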