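import Pool.Agent.Lib.MP_adc574_ag_LZ.Intf

/-!
# JOB LatA: classes of polynomials over `κ[t]`, the lattices `E_k`

`brt br P = br (P.map alg)`, `alg : κ[t] → κ(t)`. `dP κ` (HM/LocE) is `d/dt` on `κ[t]`, `DZ κ` on `κ(t)`, `DZ κ (alg p) = alg (derivative p)` (`DK_poly`).
* `brt_C_mul`: `(C c * P).map alg = C (alg c) * P.map alg = alg c • _`, `algebraMap_smul`. `brt_monomial`: `monomial e c = C c * monomial e 1`.
* `brt_mem_EL`: `P = ∑ e ∈ P.support, monomial e (coeff e P)`, the terms with `¬ d ∣ dg e + N` vanish (`IsHG.out`). `exists_brt`: `Submodule.span_induction`.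
* `EL_fg`: finitely many exponents `e` with `dg e + N ≤ d (k + 1)` (`Submodule.FG` of the span of a finite set; `Set.Finite`: exponents bounded by a number).
* `nab_smul`: `IsHG.leib` with `c = alg c`. `nab_brt`: `IsHG.nab_br`, `nb (DZ κ) F P = cder D P + cder D F * P`; `cder (DZ κ) (P.map alg) = (cder (dP κ) P).map alg` (coefficients; the support may shrink: compare coefficients,
  `coeff e (cder D P) = D (coeff e P)`), `cder (DZ κ) S.FK = - (S.H.map C).map alg` (`DZ X = 1`, `DZ` kills constants).
* `nab_EL`: `exists_brt`, `nab_brt`, `brt_mem_EL` (the exponents of `H P` have degree `≤ d + ...`: `support_mul`, `homH`).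
* `brt_jac`: `IsHG.rel`: `br (pderiv i Q + pderiv i F * Q) = 0`, `pderiv i` commutes with `map`.
* `smul_cancel`: `Mo` is a vector space over `κ(t)`, `c • x = alg c • x`.
* `exists_level`: `x = br P` (`surj`), common denominator `q` of the coefficients of `P` (`IsLocalization.exist_integer_multiples_of_finset` or `IsFractionRing.div_surjective` and a product), `q • x = brt P'`, `k` large.
-/

set_option autoImplicit false

namespace MPadcLZ

open MvPolynomial MPadcHM

universe u

variable {κ : Type u} [Field κ] {N : ℕ} {S : PDat κ N} {Mo : Type u}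
  [AddCommGroup Mo] [Module (RatFunc κ) Mo] [Module (Polynomial κ) Mo]
  [IsScalarTower (Polynomial κ) (RatFunc κ) Mo] {nab : Mo →+ Mo}
  {br : MvPolynomial (Fin N) (RatFunc κ) →ₗ[RatFunc κ] Mo}

/-- The class of a polynomial over `κ[t]`. -/
noncomputable def brt (br : MvPolynomial (Fin N) (RatFunc κ) →ₗ[RatFunc κ] Mo)
    (P : MvPolynomial (Fin N) (Polynomial κ)) : Mo :=
  br (P.map (algebraMap (Polynomial κ) (RatFunc κ)))

/-- All monomials have level `≤ k`. -/
def LvLe {R : Type*} [CommSemiring R] (d k : ℕ) (P : MvPolynomial (Fin N) R) : Prop :=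
  ∀ e ∈ P.support, dg e + N ≤ d * (k + 1)

theorem coeff_cder' {R : Type*} [CommRing R] (D : Derivation ℤ R R) (P : MvPolynomial (Fin N) R)
    (e : Fin N →₀ ℕ) : coeff e (cder D P) = D (coeff e P) := by
  classical
  unfold cder
  rw [coeff_sum]
  simp only [coeff_monomial]
  rw [Finset.sum_ite_eq']
  split_ifs with h
  · rfl
  · rw [notMem_support_iff.mp h, map_zero]

theorem brt_add (P Q : MvPolynomial (Fin N) (Polynomial κ)) :
    brt br (P + Q) = brt br P + brt br Q := by
  unfold brt
  rw [map_add, map_add]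

theorem brt_sub (P Q : MvPolynomial (Fin N) (Polynomial κ)) :
    brt br (P - Q) = brt br P - brt br Q := by
  unfold brt
  rw [map_sub, map_sub]

theorem brt_neg (P : MvPolynomial (Fin N) (Polynomial κ)) : brt br (-P) = - brt br P := by
  unfold brt
  rw [map_neg, map_neg]

theorem brt_zero : brt br 0 = 0 := by
  unfold brt
  rw [map_zero, map_zero]

theorem brt_sum {ι : Type*} (s : Finset ι) (P : ι → MvPolynomial (Fin N) (Polynomial κ)) :
    brt br (∑ i ∈ s, P i) = ∑ i ∈ s, brt br (P i) := by
  unfold brt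
  rw [map_sum, map_sum]

theorem brt_C_mul (c : Polynomial κ) (P : MvPolynomial (Fin N) (Polynomial κ)) :
    brt br (C c * P) = c • brt br P := by
  unfold brt
  rw [map_mul, map_C, ← smul_eq_C_mul, map_smul, algebraMap_smul]

theorem brt_monomial (e : Fin N →₀ ℕ) (c : Polynomial κ) :
    brt br (monomial e c) = c • br (monomial e 1) := by
  unfold brt
  rw [map_monomial]
  have h1 : (monomial e (algebraMap (Polynomial κ) (RatFunc κ) c) : MvPolynomial (Fin N) (RatFunc κ)) =
      algebraMap (Polynomial κ) (RatFunc κ) c • monomial e 1 := by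
    rw [smul_monomial, smul_eq_mul, mul_one]
  rw [h1, map_smul, algebraMap_smul]

private theorem lata_comp : (algebraMap (Polynomial κ) (RatFunc κ)).comp Polynomial.C =
    algebraMap κ (RatFunc κ) := by
  refine RingHom.ext fun a => ?_
  rw [RingHom.comp_apply, RatFunc.algebraMap_C, RatFunc.algebraMap_eq_C]

theorem brt_mapC (P : MvPolynomial (Fin N) κ) :
    brt br (P.map Polynomial.C) = br (P.map (algebraMap κ (RatFunc κ))) := by
  unfold brt
  rw [map_map, lata_comp]

theorem uu_eq (k : ℕ) :
    uu S br k = brt br (S.ell.map Polynomial.C ^ (S.d * (k + 2) - N)) := by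
  unfold uu brt
  rw [map_pow (MvPolynomial.map (algebraMap (Polynomial κ) (RatFunc κ))), map_map, lata_comp]

theorem brt_mem_EL (hG : IsHG S nab br) {k : ℕ} {P : MvPolynomial (Fin N) (Polynomial κ)}
    (hP : LvLe S.d k P) : brt br P ∈ EL S br k := by
  rw [MvPolynomial.as_sum P, brt_sum]
  refine Submodule.sum_mem _ fun e he => ?_
  rw [brt_monomial]
  refine Submodule.smul_mem _ _ ?_
  by_cases h : S.d ∣ dg e + N
  · exact Submodule.subset_span ⟨e, h, hP e he, rfl⟩
  · rw [hG.out e h]
    exact Submodule.zero_mem _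

theorem exists_brt {k : ℕ} {x : Mo} (hx : x ∈ EL S br k) :
    ∃ P : MvPolynomial (Fin N) (Polynomial κ),
      (∀ e ∈ P.support, S.d ∣ dg e + N ∧ dg e + N ≤ S.d * (k + 1)) ∧ x = brt br P := by
  unfold EL at hx
  refine Submodule.span_induction (p := fun x _ => ∃ P : MvPolynomial (Fin N) (Polynomial κ),
      (∀ e ∈ P.support, S.d ∣ dg e + N ∧ dg e + N ≤ S.d * (k + 1)) ∧ x = brt br P) ?_ ?_ ?_ ?_ hx
  · rintro x ⟨e, h1, h2, rfl⟩
    refine ⟨monomial e 1, ?_, ?_⟩
    · intro u hu
      have h3 : u = e := Finset.mem_singleton.1 (support_monomial_subset hu)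
      rw [h3]
      exact ⟨h1, h2⟩
    · rw [brt_monomial, one_smul]
  · exact ⟨0, fun e he => by simp at he, by rw [brt_zero]⟩
  · rintro x y _ _ ⟨P, hP, rfl⟩ ⟨Q, hQ, rfl⟩
    refine ⟨P + Q, ?_, by rw [brt_add]⟩
    intro e he
    rcases Finset.mem_union.1 (support_add he) with h | h
    · exact hP e h
    · exact hQ e h
  · rintro c x _ ⟨P, hP, rfl⟩
    refine ⟨C c * P, ?_, by rw [brt_C_mul]⟩
    intro e he
    apply hP e
    rw [mem_support_iff] at he ⊢
    intro h
    apply he
    rw [coeff_C_mul, h, mul_zero]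

theorem EL_mono {k l : ℕ} (h : k ≤ l) : EL S br k ≤ EL S br l := by
  unfold EL
  refine Submodule.span_mono ?_
  rintro x ⟨e, h1, h2, rfl⟩
  exact ⟨e, h1, h2.trans (Nat.mul_le_mul_left _ (by omega)), rfl⟩

private theorem lata_fin (N B : ℕ) : {e : Fin N →₀ ℕ | dg e ≤ B}.Finite := by
  refine (Set.finite_Iic (Finsupp.equivFunOnFinite.symm (fun _ : Fin N => B))).subset ?_
  intro e he
  have he' : dg e ≤ B := he
  rw [Set.mem_Iic, Finsupp.le_def]
  intro i
  change e i ≤ B
  unfold dg at he'
  have h1 : e i ≤ ∑ i, e i := Finset.single_le_sum (f := fun i => e i) (fun _ _ => Nat.zero_le _)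
    (Finset.mem_univ i)
  omega

theorem EL_fg (k : ℕ) : (EL S br k).FG := by
  unfold EL
  refine Submodule.fg_span (((lata_fin N (S.d * (k + 1))).image fun e => br (monomial e 1)).subset ?_)
  rintro x ⟨e, h1, h2, rfl⟩
  exact ⟨e, by rw [Set.mem_ofPred_eq]; omega, rfl⟩

theorem nab_smul (hG : IsHG S nab br) (c : Polynomial κ) (x : Mo) :
    nab (c • x) = Polynomial.derivative c • x + c • nab x := by
  rw [← algebraMap_smul (RatFunc κ) c x, hG.leib, DK_poly, algebraMap_smul, algebraMap_smul]

private theorem lata_cder (P : MvPolynomial (Fin N) (Polynomial κ)) :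
    cder (DZ κ) (P.map (algebraMap (Polynomial κ) (RatFunc κ))) =
      (cder (dP κ) P).map (algebraMap (Polynomial κ) (RatFunc κ)) := by
  ext e
  rw [coeff_cder', coeff_map, coeff_map, coeff_cder', DZ_apply, DK_poly, dP_apply]

private theorem lata_ft (S : PDat κ N) : cder (dP κ) S.ft = - S.H.map Polynomial.C := by
  ext1 e
  rw [coeff_cder', dP_apply]
  unfold PDat.ft
  rw [coeff_sub, coeff_map, coeff_C_mul, coeff_map, coeff_neg, coeff_map, Polynomial.derivative_sub,
    Polynomial.derivative_C, Polynomial.derivative_mul, Polynomial.derivative_X,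
    Polynomial.derivative_C, mul_zero, add_zero, one_mul, zero_sub]

theorem nab_brt (hG : IsHG S nab br) (P : MvPolynomial (Fin N) (Polynomial κ)) :
    nab (brt br P) = brt br (cder (dP κ) P) - brt br (S.H.map Polynomial.C * P) := by
  have h1 : nab (brt br P) = nab (br (P.map (algebraMap (Polynomial κ) (RatFunc κ)))) := rfl
  rw [h1, hG.nab_br]
  unfold nb PDat.FK
  rw [lata_cder, lata_cder, lata_ft, ← map_mul, ← map_add]
  have h2 : cder (dP κ) P + -S.H.map Polynomial.C * P =
      cder (dP κ) P - S.H.map Polynomial.C * P := by ring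
  rw [h2]
  exact brt_sub _ _

theorem nab_EL (hS : S.Ok) (hG : IsHG S nab br) {k : ℕ} {x : Mo} (hx : x ∈ EL S br k) :
    nab x ∈ EL S br (k + 1) := by
  obtain ⟨P, hP, rfl⟩ := exists_brt hx
  rw [nab_brt hG]
  refine Submodule.sub_mem _ (brt_mem_EL hG ?_) (brt_mem_EL hG ?_)
  · intro e he
    have h1 : e ∈ P.support := by
      rw [mem_support_iff] at he ⊢
      intro h
      apply he
      rw [coeff_cder', h, map_zero]
    exact (hP e h1).2.trans (Nat.mul_le_mul_left _ (by omega))
  · intro e he
    obtain ⟨u, hu, v, hv, rfl⟩ := Finset.mem_add.1 (support_mul _ _ he)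
    have h1 : u ∈ S.H.support := by
      rw [mem_support_iff] at hu ⊢
      intro h
      apply hu
      rw [coeff_map, h, map_zero]
    have h2 := hS.homH u h1
    have h3 := (hP v hv).2
    have h4 : dg (u + v) = dg u + dg v := by
      unfold dg
      rw [← Finset.sum_add_distrib]
      exact Finset.sum_congr rfl fun i _ => Finsupp.add_apply u v i
    rw [h4, h2]
    have h5 : S.d * (k + 1 + 1) = S.d * (k + 1) + S.d := by ring
    omega

theorem brt_jac (hG : IsHG S nab br) (Q : Fin N → MvPolynomial (Fin N) (Polynomial κ)) :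
    brt br (∑ i, Q i * pderiv i S.ft) = - brt br (∑ i, pderiv i (Q i)) := by
  rw [brt_sum, brt_sum, ← Finset.sum_neg_distrib]
  refine Finset.sum_congr rfl fun i _ => ?_
  have h1 := hG.rel i ((Q i).map (algebraMap (Polynomial κ) (RatFunc κ)))
  unfold dl PDat.FK at h1
  rw [pderiv_map, pderiv_map, ← map_mul, map_add] at h1
  change brt br (pderiv i (Q i)) + brt br (pderiv i S.ft * Q i) = 0 at h1
  rw [mul_comm (Q i)]
  exact (neg_eq_of_add_eq_zero_right h1).symm

theorem smul_cancel {c : Polynomial κ} (hc : c ≠ 0) {x : Mo} (h : c • x = 0) : x = 0 := by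
  rw [← algebraMap_smul (RatFunc κ) c x] at h
  rcases smul_eq_zero.1 h with h1 | h1
  · exact absurd h1 (RatFunc.algebraMap_ne_zero hc)
  · exact h1

theorem exists_level (hG : IsHG S nab br) (x : Mo) :
    ∃ (q : Polynomial κ) (k : ℕ), q ≠ 0 ∧ q • x ∈ EL S br k := by
  obtain ⟨P, rfl⟩ := hG.surj x
  obtain ⟨b, hb⟩ := IsLocalization.exist_integer_multiples (nonZeroDivisors (Polynomial κ)) P.support
    (fun e => coeff e P)
  refine ⟨(b : Polynomial κ), P.support.sup fun e => (dg e + N) / S.d, nonZeroDivisors.ne_zero b.2, ?_⟩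
  have h1 : (b : Polynomial κ) • br P = ∑ e ∈ P.support,
      br (monomial e ((b : Polynomial κ) • coeff e P)) := by
    conv_lhs => rw [MvPolynomial.as_sum P]
    rw [map_sum, Finset.smul_sum]
    refine Finset.sum_congr rfl fun e _ => ?_
    rw [← algebraMap_smul (RatFunc κ) (b : Polynomial κ) (br _), ← map_smul, smul_monomial,
      algebraMap_smul]
  rw [h1]
  refine Submodule.sum_mem _ fun e he => ?_
  obtain ⟨a, ha⟩ := hb e he
  rw [← ha]
  have h2 : br (monomial e (algebraMap (Polynomial κ) (RatFunc κ) a)) = brt br (monomial e a) := by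
    unfold brt
    rw [map_monomial]
  rw [h2, brt_monomial]
  refine Submodule.smul_mem _ _ ?_
  by_cases h : S.d ∣ dg e + N
  · refine Submodule.subset_span ⟨e, h, ?_, rfl⟩
    have h3 : (dg e + N) / S.d ≤ P.support.sup fun e => (dg e + N) / S.d :=
      Finset.le_sup (f := fun e => (dg e + N) / S.d) he
    calc dg e + N = S.d * ((dg e + N) / S.d) := (Nat.mul_div_cancel' h).symm
      _ ≤ S.d * ((P.support.sup fun e => (dg e + N) / S.d) + 1) := Nat.mul_le_mul_left _ (by omega)
  · rw [hG.out e h]
    exact Submodule.zero_mem _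

end MPadcLZ
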