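import Pool.Agent.Lib.MP_adc574_ag_LZ.Intf

/-!
# JOB LatB: the Jacobian ideal of `f = G - t H` over `κ[t]`

`f_i = pderiv i f` is homogeneous of degree `d - 1`: `Hm (d - 1) (pderiv i S.ft)`.
* `hm_jac`: `P = ∑ Q_i f_i`; take the homogeneous components: if `d - 1 ≤ m` replace `Q_i` by its component of degree `m - (d - 1)` (`homogeneousComponent`; `Hm m P` is `P.IsHomogeneous m`: `Hm_iff`), compare the components of degree `m`;
  if `m < d - 1` then `P = 0`, take `Q = 0`.
* `M_pos`: if `M = 0` then `ann` reads `C δ ∈ Jac ft`; evaluate at `x = 0` (`constantCoeff`): the `f_i` have constant coefficient 0 (degree `d - 1 ≥ 2`), so `δ = 0`, but `δ` is monic.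
* `G1`: induction on `m ≥ M`. `m = M`: linearity of `gen` (`P = ∑ C (coeff e P) * monomial e 1`). Step: a monomial `x ^ e` with `dg e = m + 1 ≥ 1` is `x ^ e' * X i`, `dg e' = m`; `x ^ e' - ξ ell ^ m ∈ Jac`, so `x ^ e - ξ ell ^ m X i ∈ Jac`, and
  `ell ^ m * X i = ell ^ (m - M + 1) * (ell ^ (M - 1) * X i)` (`1 ≤ M ≤ m`), `Hm M (ell ^ (M - 1) * X i)`, so by the case `m = M` `ell ^ (M-1) X i - ξ' ell ^ M ∈ Jac`. Linearity.
* `nodeEv j`: evaluation at `x = σ_j`, `t = τ_j`. `nodeEv_jac`: `nodeEv j f_i = (∂_i G)(σ_j) - τ_j (∂_i H)(σ_j) = 0` (`crit`).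
* `G1'`: `nodeEv` of `P - C ξ * ell ^ m ∈ Jac`; `nodeEv ell = 1`. `del_dvd`: the `τ_j` are different (`sep`), `Finset.prod_dvd_of_coprime` or `Polynomial.prod_multiset_X_sub_C_dvd`-style, `Polynomial.dvd_iff_isRoot`. `G2`: `ξ = δ ξ'`, `ann`.
* `del_sep`: `Polynomial.separable_prod_X_sub_C_iff`-like or `Polynomial.Separable` of a product of different `X - C τ`.
-/

set_option autoImplicit false

namespace MPadcLZ

open MvPolynomial MPadcHM

universe u

section

variable {R : Type*} [CommRing R] {N : ℕ}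

theorem Hm_iff {m : ℕ} {P : MvPolynomial (Fin N) R} : Hm m P ↔ P.IsHomogeneous m := by
  constructor
  · intro h e he
    have h1 := h e (mem_support_iff.2 he)
    have h2 : Finsupp.weight (1 : Fin N → ℕ) e = e.degree := by
      rw [Finsupp.degree_eq_weight_one]
      rfl
    rw [h2, Finsupp.degree_eq_sum]
    exact h1
  · intro h e he
    have h1 : Finsupp.weight (1 : Fin N → ℕ) e = m := h (mem_support_iff.1 he)
    have h2 : Finsupp.weight (1 : Fin N → ℕ) e = e.degree := by
      rw [Finsupp.degree_eq_weight_one]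
      rfl
    rw [h2, Finsupp.degree_eq_sum] at h1
    exact h1

theorem Hm_add {m : ℕ} {P Q : MvPolynomial (Fin N) R} (hP : Hm m P) (hQ : Hm m Q) :
    Hm m (P + Q) := by
  exact Hm_iff.2 ((Hm_iff.1 hP).add (Hm_iff.1 hQ))

theorem Hm_sub {m : ℕ} {P Q : MvPolynomial (Fin N) R} (hP : Hm m P) (hQ : Hm m Q) :
    Hm m (P - Q) := by
  exact Hm_iff.2 ((Hm_iff.1 hP).sub (Hm_iff.1 hQ))

theorem Hm_mul {m l : ℕ} {P Q : MvPolynomial (Fin N) R} (hP : Hm m P) (hQ : Hm l Q) :
    Hm (m + l) (P * Q) := by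
  exact Hm_iff.2 ((Hm_iff.1 hP).mul (Hm_iff.1 hQ))

theorem Hm_C_mul {m : ℕ} {P : MvPolynomial (Fin N) R} (hP : Hm m P) (c : R) :
    Hm m (C c * P) := by
  exact Hm_iff.2 ((Hm_iff.1 hP).C_mul c)

theorem Hm_sum {ι : Type*} (s : Finset ι) {m : ℕ} {P : ι → MvPolynomial (Fin N) R}
    (hP : ∀ i ∈ s, Hm m (P i)) : Hm m (∑ i ∈ s, P i) := by
  exact Hm_iff.2 (IsHomogeneous.sum s P m fun i hi => Hm_iff.1 (hP i hi))

theorem Hm_pow {m : ℕ} {P : MvPolynomial (Fin N) R} (hP : Hm m P) (k : ℕ) :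
    Hm (k * m) (P ^ k) := by
  have h := (Hm_iff.1 hP).pow k
  rw [Nat.mul_comm] at h
  exact Hm_iff.2 h

theorem Hm_pderiv {m : ℕ} {P : MvPolynomial (Fin N) R} (hP : Hm m P) (i : Fin N) :
    Hm (m - 1) (pderiv i P) := by
  exact Hm_iff.2 (Hm_iff.1 hP).pderiv

theorem Hm_map {R' : Type*} [CommRing R'] (φ : R →+* R') {m : ℕ} {P : MvPolynomial (Fin N) R}
    (hP : Hm m P) : Hm m (P.map φ) := by
  exact Hm_iff.2 ((Hm_iff.1 hP).map φ)

end

variable {κ : Type u} [Field κ] {N : ℕ} {S : PDat κ N}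

theorem Hm_ft (hS : S.Ok) : Hm S.d S.ft := by
  exact Hm_sub (Hm_map _ hS.homG) (Hm_C_mul (Hm_map _ hS.homH) _)

private theorem latb_comp {R : Type*} [CommRing R] {N : ℕ} {f : MvPolynomial (Fin N) R} {k : ℕ}
    (hf : f.IsHomogeneous k) (Q : MvPolynomial (Fin N) R) (m : ℕ) :
    homogeneousComponent m (Q * f) =
      if k ≤ m then homogeneousComponent (m - k) Q * f else 0 := by
  classical
  let _ := MvPolynomial.gradedAlgebra (σ := Fin N) (R := R)
  have h := DirectSum.coe_decompose_mul_of_right_mem (homogeneousSubmodule (Fin N) R) m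
    (a := Q) (b := f) (i := k) ((mem_homogeneousSubmodule k f).2 hf)
  have e : ∀ (φ : MvPolynomial (Fin N) R) (i : ℕ),
      ((DirectSum.decompose (homogeneousSubmodule (Fin N) R) φ) i : MvPolynomial (Fin N) R) =
        homogeneousComponent i φ := fun φ i => decomposition.decompose'_apply φ i
  rw [e, e] at h
  exact h

theorem hm_jac (hS : S.Ok) {m : ℕ} {P : MvPolynomial (Fin N) (Polynomial κ)} (hP : Hm m P)
    (h : P ∈ Jac S.ft) : ∃ Q : Fin N → MvPolynomial (Fin N) (Polynomial κ),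
      (∀ i, Hm (m - (S.d - 1)) (Q i)) ∧ P = ∑ i, Q i * pderiv i S.ft ∧ (m < S.d - 1 → P = 0) := by
  classical
  rw [Jac, Ideal.mem_span_range_iff_exists_fun] at h
  obtain ⟨Q, hQ⟩ := h
  have hP' := Hm_iff.1 hP
  have h1 : homogeneousComponent m P = P := homogeneousComponent_eq_self hP'
  have h2 : ∀ i, homogeneousComponent m (Q i * pderiv i S.ft) =
      if S.d - 1 ≤ m then homogeneousComponent (m - (S.d - 1)) (Q i) * pderiv i S.ft else 0 := by
    intro i
    exact latb_comp (Hm_iff.1 (Hm_pderiv (Hm_ft hS) i)) (Q i) m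
  have h3 : P = ∑ i, if S.d - 1 ≤ m then
      homogeneousComponent (m - (S.d - 1)) (Q i) * pderiv i S.ft else 0 := by
    conv_lhs => rw [← h1, ← hQ, map_sum]
    exact Finset.sum_congr rfl fun i _ => h2 i
  by_cases hm : S.d - 1 ≤ m
  · refine ⟨fun i => homogeneousComponent (m - (S.d - 1)) (Q i), fun i =>
      Hm_iff.2 (homogeneousComponent_isHomogeneous _ _), ?_, fun h => absurd h (by omega)⟩
    rw [h3]
    exact Finset.sum_congr rfl fun i _ => if_pos hm
  · have h0 : P = 0 := by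
      rw [h3]
      exact Finset.sum_eq_zero fun i _ => if_neg hm
    refine ⟨fun _ => 0, fun i => ?_, ?_, fun _ => h0⟩
    · intro e he
      simp at he
    · rw [h0]
      simp

theorem M_pos (hS : S.Ok) : 1 ≤ S.M := by
  by_contra hM
  have hM0 : S.M = 0 := by omega
  have h := hS.ann
  rw [hM0, pow_zero, mul_one] at h
  obtain ⟨Q, -, hQ, -⟩ := hm_jac hS (m := 0) (P := C S.del) (Hm_iff.2 (isHomogeneous_C _ _)) h
  have h2 := hS.hd
  have h0 : C S.del = (0 : MvPolynomial (Fin N) (Polynomial κ)) := by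
    obtain ⟨Q, -, -, h3⟩ := hm_jac hS (m := 0) (P := C S.del) (Hm_iff.2 (isHomogeneous_C _ _)) h
    exact h3 (by omega)
  have h4 : S.del = 0 := C_injective (Fin N) (Polynomial κ) (by rw [h0, C_0])
  have h5 : S.del.Monic := Polynomial.monic_prod_of_monic _ _ fun j _ =>
    Polynomial.monic_X_sub_C _
  exact h5.ne_zero h4

private theorem latb_lin (m k : ℕ) {P : MvPolynomial (Fin N) (Polynomial κ)} (hP : Hm m P)
    (h : ∀ e : Fin N →₀ ℕ, dg e = m → ∃ ξ : Polynomial κ,
      monomial e 1 - C ξ * S.ell.map Polynomial.C ^ k ∈ Jac S.ft) :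
    ∃ ξ : Polynomial κ, P - C ξ * S.ell.map Polynomial.C ^ k ∈ Jac S.ft := by
  classical
  choose! ξ hξ using h
  refine ⟨∑ e ∈ P.support, coeff e P * ξ e, ?_⟩
  have h1 : P - C (∑ e ∈ P.support, coeff e P * ξ e) * S.ell.map Polynomial.C ^ k =
      ∑ e ∈ P.support, C (coeff e P) *
        (monomial e 1 - C (ξ e) * S.ell.map Polynomial.C ^ k) := by
    have h2 : ∀ e ∈ P.support, C (coeff e P) *
        (monomial e 1 - C (ξ e) * S.ell.map Polynomial.C ^ k) =
        monomial e (coeff e P) - C (coeff e P * ξ e) * S.ell.map Polynomial.C ^ k := by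
      intro e _
      rw [mul_sub, C_mul_monomial, mul_one, C_mul, mul_assoc]
    rw [Finset.sum_congr rfl h2, Finset.sum_sub_distrib, ← P.as_sum, map_sum, Finset.sum_mul]
  rw [h1]
  exact Ideal.sum_mem _ fun e he => Ideal.mul_mem_left _ _ (hξ e (hP e he))

theorem G1 (hS : S.Ok) {m : ℕ} (hm : S.M ≤ m) {P : MvPolynomial (Fin N) (Polynomial κ)}
    (hP : Hm m P) : ∃ ξ : Polynomial κ, P - C ξ * S.ell.map Polynomial.C ^ m ∈ Jac S.ft := by
  classical
  obtain ⟨l, rfl⟩ : ∃ l, m = S.M + l := ⟨m - S.M, by omega⟩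
  induction l generalizing P with
  | zero =>
    exact latb_lin _ _ hP fun e he => by
      obtain ⟨xi, hxi⟩ := hS.gen e he
      exact ⟨xi, hxi⟩
  | succ l ih =>
    have hM := M_pos hS
    refine latb_lin _ _ hP fun e he => ?_
    -- `e = e' + single i 1`
    have hne : ∃ i, e i ≠ 0 := by
      by_contra hne
      have : dg e = 0 := by
        unfold dg
        exact Finset.sum_eq_zero fun i _ => by
          by_contra h
          exact hne ⟨i, h⟩
      omega
    obtain ⟨i, hi⟩ := hne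
    have hee : e = (e - Finsupp.single i 1) + Finsupp.single i 1 := by
      ext j
      rw [Finsupp.add_apply, Finsupp.tsub_apply]
      by_cases hj : j = i
      · subst hj
        rw [Finsupp.single_eq_same]
        omega
      · rw [Finsupp.single_eq_of_ne hj]
        omega
    set e' := e - Finsupp.single i 1 with he'
    have hdg : dg e' = S.M + l := by
      have h1 : dg e = dg e' + 1 := by
        conv_lhs => rw [hee]
        unfold dg
        simp only [Finsupp.add_apply, Finset.sum_add_distrib]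
        congr 1
        rw [Finset.sum_eq_single i (fun j _ hj => Finsupp.single_eq_of_ne hj)
          (fun h => absurd (Finset.mem_univ i) h), Finsupp.single_eq_same]
      omega
    obtain ⟨ξ, hξ⟩ := ih (by omega) (P := monomial e' 1) (by
      intro u hu
      have hu' := Finset.mem_of_subset support_monomial_subset hu
      rw [Finset.mem_singleton] at hu'
      rw [hu', hdg])
    have hX : Hm 1 (X i : MvPolynomial (Fin N) (Polynomial κ)) :=
      Hm_iff.2 (isHomogeneous_X _ i)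
    have hl : Hm 1 (S.ell.map Polynomial.C) := Hm_map _ hS.homl
    have hlX : Hm S.M (S.ell.map Polynomial.C ^ (S.M - 1) * X i) := by
      have h := Hm_mul (Hm_pow hl (S.M - 1)) hX
      have h2 : (S.M - 1) * 1 + 1 = S.M := by omega
      rwa [h2] at h
    obtain ⟨ξ', hξ'⟩ := latb_lin (S := S) (S.M) (S.M) hlX fun u hu => by
      obtain ⟨xi, hxi⟩ := hS.gen u hu
      exact ⟨xi, hxi⟩
    refine ⟨ξ * ξ', ?_⟩
    have e1 : monomial e (1 : Polynomial κ) = monomial e' 1 * X i := by
      conv_lhs => rw [hee]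
      rw [X, monomial_mul, mul_one]
    have hpw : S.ell.map Polynomial.C ^ (S.M + l) =
        S.ell.map Polynomial.C ^ (l + 1) * S.ell.map Polynomial.C ^ (S.M - 1) := by
      rw [← pow_add]
      congr 1
      omega
    have hpw' : S.ell.map Polynomial.C ^ (S.M + (l + 1)) =
        S.ell.map Polynomial.C ^ (l + 1) * S.ell.map Polynomial.C ^ S.M := by
      rw [← pow_add]
      congr 1
      omega
    have key : monomial e (1 : Polynomial κ) -
        C (ξ * ξ') * S.ell.map Polynomial.C ^ (S.M + (l + 1)) =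
        (monomial e' 1 - C ξ * S.ell.map Polynomial.C ^ (S.M + l)) * X i +
        C ξ * S.ell.map Polynomial.C ^ (l + 1) *
          (S.ell.map Polynomial.C ^ (S.M - 1) * X i - C ξ' * S.ell.map Polynomial.C ^ S.M) := by
      rw [e1, hpw, hpw', C_mul]
      ring
    rw [key]
    exact Ideal.add_mem _ (Ideal.mul_mem_right _ _ hξ) (Ideal.mul_mem_left _ _ hξ')

/-- The evaluation at a node. -/
noncomputable def nodeEv (S : PDat κ N) (j : Fin S.J) :
    MvPolynomial (Fin N) (Polynomial κ) →+* κ :=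
  eval₂Hom (Polynomial.evalRingHom (S.tau j)) (S.sig j)

theorem nodeEv_C (j : Fin S.J) (c : Polynomial κ) : nodeEv S j (C c) = c.eval (S.tau j) := by
  simp [nodeEv]

theorem nodeEv_map (j : Fin S.J) (P : MvPolynomial (Fin N) κ) :
    nodeEv S j (P.map Polynomial.C) = eval (S.sig j) P := by
  have h : (Polynomial.evalRingHom (S.tau j)).comp Polynomial.C = RingHom.id κ := by
    ext x
    simp
  unfold nodeEv
  rw [coe_eval₂Hom, eval₂_map, h]
  rfl

theorem nodeEv_jac (hS : S.Ok) (j : Fin S.J) {P : MvPolynomial (Fin N) (Polynomial κ)}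
    (h : P ∈ Jac S.ft) : nodeEv S j P = 0 := by
  have hle : Jac S.ft ≤ RingHom.ker (nodeEv S j) := by
    unfold Jac
    rw [Ideal.span_le]
    rintro _ ⟨i, rfl⟩
    rw [SetLike.mem_coe, RingHom.mem_ker]
    have h1 : pderiv i S.ft = (pderiv i S.G).map Polynomial.C -
        C Polynomial.X * (pderiv i S.H).map Polynomial.C := by
      unfold PDat.ft
      rw [map_sub, pderiv_C_mul, pderiv_map, pderiv_map]
    have h2 : nodeEv S j (pderiv i S.ft) = 0 := by
      rw [h1, map_sub, map_mul, nodeEv_C, nodeEv_map, nodeEv_map, Polynomial.eval_X,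
        hS.crit j i, sub_self]
    exact h2
  exact hle h

theorem nodeEv_ell (hS : S.Ok) (j : Fin S.J) (m : ℕ) :
    nodeEv S j (S.ell.map Polynomial.C ^ m) = 1 := by
  rw [map_pow, nodeEv_map, hS.one, one_pow]

theorem G1' (hS : S.Ok) {m : ℕ} (hm : S.M ≤ m) {P : MvPolynomial (Fin N) (Polynomial κ)}
    (hP : Hm m P) : ∃ ξ : Polynomial κ, P - C ξ * S.ell.map Polynomial.C ^ m ∈ Jac S.ft ∧
      ∀ j, ξ.eval (S.tau j) = nodeEv S j P := by
  obtain ⟨ξ, hξ⟩ := G1 hS hm hP
  refine ⟨ξ, hξ, fun j => ?_⟩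
  have h := nodeEv_jac hS j hξ
  rw [map_sub, map_mul, nodeEv_C, nodeEv_ell hS, mul_one, sub_eq_zero] at h
  exact h.symm

theorem del_dvd (hS : S.Ok) {ξ : Polynomial κ} (h : ∀ j, ξ.eval (S.tau j) = 0) : S.del ∣ ξ := by
  unfold PDat.del
  refine Finset.prod_dvd_of_coprime (fun a _ b _ hab => ?_) fun j _ => ?_
  · exact Polynomial.isCoprime_X_sub_C_of_isUnit_sub (hS.sep a b hab)
  · exact Polynomial.dvd_iff_isRoot.2 (h j)

theorem del_monic : S.del.Monic := by
  exact Polynomial.monic_prod_of_monic _ _ fun j _ => Polynomial.monic_X_sub_C _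

theorem del_eval (j : Fin S.J) : S.del.eval (S.tau j) = 0 := by
  unfold PDat.del
  rw [Polynomial.eval_prod]
  exact Finset.prod_eq_zero (Finset.mem_univ j) (by simp)

theorem del_root {τ : κ} (h : S.del.eval τ = 0) : ∃ j, τ = S.tau j := by
  unfold PDat.del at h
  rw [Polynomial.eval_prod, Finset.prod_eq_zero_iff] at h
  obtain ⟨j, -, hj⟩ := h
  rw [Polynomial.eval_sub, Polynomial.eval_X, Polynomial.eval_C, sub_eq_zero] at hj
  exact ⟨j, hj⟩

theorem del_sep (hS : S.Ok) : IsCoprime S.del (Polynomial.derivative S.del) := by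
  have hinj : Function.Injective S.tau := by
    intro a b hab
    by_contra hne
    have h := hS.sep a b hne
    rw [hab, sub_self] at h
    exact not_isUnit_zero h
  exact Polynomial.separable_prod_X_sub_C_iff.2 hinj

theorem del_der (hS : S.Ok) (j : Fin S.J) :
    (Polynomial.derivative S.del).eval (S.tau j) ≠ 0 := by
  intro h0
  obtain ⟨a, b, hab⟩ := del_sep hS
  have h := congrArg (Polynomial.eval (S.tau j)) hab
  rw [Polynomial.eval_add, Polynomial.eval_mul, Polynomial.eval_mul, del_eval, h0, mul_zero,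
    mul_zero, add_zero, Polynomial.eval_one] at h
  exact zero_ne_one h

theorem G2 (hS : S.Ok) {m : ℕ} (hm : S.M ≤ m) {P : MvPolynomial (Fin N) (Polynomial κ)}
    (hP : Hm m P) (h : ∀ j, nodeEv S j P = 0) : P ∈ Jac S.ft := by
  obtain ⟨ξ, hξ, hev⟩ := G1' hS hm hP
  obtain ⟨ξ', rfl⟩ := del_dvd hS (ξ := ξ) fun j => by rw [hev j, h j]
  have hpw : S.ell.map Polynomial.C ^ m =
      S.ell.map Polynomial.C ^ (m - S.M) * S.ell.map Polynomial.C ^ S.M := by
    rw [← pow_add]
    congr 1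
    omega
  have h1 : C (S.del * ξ') * S.ell.map Polynomial.C ^ m =
      C ξ' * S.ell.map Polynomial.C ^ (m - S.M) * (C S.del * S.ell.map Polynomial.C ^ S.M) := by
    rw [hpw, C_mul]
    ring
  have h2 : C (S.del * ξ') * S.ell.map Polynomial.C ^ m ∈ Jac S.ft := by
    rw [h1]
    exact Ideal.mul_mem_left _ _ hS.ann
  have h3 := Ideal.add_mem _ hξ h2
  rwa [sub_add_cancel] at h3

end MPadcLZ
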