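import Pool.Agent.Lib.MP_adc574_ag_LZ.Intf

/-!
# JOB LatC: linear algebra at a node

`A s = 0`, `B A = 1 - s lam^T`, `s ≠ 0`: `0 = B A s = s - (lam . s) s`, so `lam . s = 1`. `A q = 0`: `0 = B A q = q - (lam . q) s`. `c := lam . q`.
`A B A = A - (A s) lam^T = A`. Put `B' = B A B^T` (symmetric, as `A` is): `B' A = B (A B^T A) = B (A B A)^T = B A` (`A^T = A`) `= 1 - s lam^T`.
Multiply `h2` by `B'` and take the trace: `tr (B' A Nm) = tr Nm - lam . (Nm s) = tr Nm - qQ (lam . q)`; `tr (B' Nm^T A) = tr (A B' Nm^T) = tr ((B' A)^T Nm^T) = tr (Nm B' A)^T = tr (B' A Nm)`; `tr (B' A) = N - lam . s = N - 1`.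
So `2 (tr Nm - qQ c) = - c0 c (N - 1)`.
(`Matrix.trace_mul_comm`, `Matrix.trace_transpose`, `Matrix.transpose_mul`, `Matrix.vecMulVec`, `Matrix.trace_vecMulVec`-style.)
-/

set_option autoImplicit false

namespace MPadcLZ

open Matrix

private theorem latc_trace_vm {κ : Type*} [Field κ] {N : ℕ} (s lam : Fin N → κ)
    (Nm : Matrix (Fin N) (Fin N) κ) :
    (Matrix.vecMulVec s lam * Nm).trace = lam ⬝ᵥ Nm.mulVec s := by
  rw [Matrix.trace_mul_comm, Matrix.mul_vecMulVec, Matrix.trace_vecMulVec, dotProduct_comm]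

theorem node_trace {κ : Type*} [Field κ] {N : ℕ} (A B Nm : Matrix (Fin N) (Fin N) κ)
    (s lam q : Fin N → κ) (c0 qQ : κ) (hs : s ≠ 0) (hA : A.transpose = A) (hAs : A.mulVec s = 0)
    (hB : B * A = 1 - Matrix.vecMulVec s lam) (h1 : A.mulVec q = 0)
    (h2 : A * Nm + Nm.transpose * A = -((c0 * (lam ⬝ᵥ q)) • A)) (h5 : Nm.mulVec s = qQ • q) :
    q = (lam ⬝ᵥ q) • s ∧
      2 * Nm.trace = 2 * (qQ * (lam ⬝ᵥ q)) - c0 * (lam ⬝ᵥ q) * ((N : κ) - 1) := by
  have hvm : ∀ v : Fin N → κ, (Matrix.vecMulVec s lam).mulVec v = (lam ⬝ᵥ v) • s := by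
    intro v
    funext i
    rw [Matrix.mulVec, Pi.smul_apply, smul_eq_mul, dotProduct, dotProduct, Finset.sum_mul]
    refine Finset.sum_congr rfl fun j _ => ?_
    rw [Matrix.vecMulVec_apply]
    ring
  have hker : ∀ v : Fin N → κ, A.mulVec v = 0 → v = (lam ⬝ᵥ v) • s := by
    intro v hv
    have h3 : (B * A).mulVec v = 0 := by rw [← Matrix.mulVec_mulVec, hv, Matrix.mulVec_zero]
    rw [hB, Matrix.sub_mulVec, Matrix.one_mulVec, hvm] at h3
    exact sub_eq_zero.1 h3
  have hls : lam ⬝ᵥ s = 1 := by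
    have h3 := hker s hAs
    have h4 : (1 - lam ⬝ᵥ s) • s = 0 := by
      rw [sub_smul, one_smul, ← h3, sub_self]
    rcases smul_eq_zero.1 h4 with h | h
    · exact (sub_eq_zero.1 h).symm
    · exact absurd h hs
  refine ⟨hker q h1, ?_⟩
  -- the matrix `B' = B A Bᵀ`
  set B' : Matrix (Fin N) (Fin N) κ := B * A * B.transpose with hB'
  have hABt : A * B.transpose = 1 - Matrix.vecMulVec lam s := by
    have h3 := congrArg Matrix.transpose hB
    rw [Matrix.transpose_mul, hA, Matrix.transpose_sub, Matrix.transpose_one,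
      Matrix.transpose_vecMulVec] at h3
    exact h3
  have hsA : Matrix.vecMul s A = 0 := by
    rw [← hA, Matrix.vecMul_transpose, hAs]
  have hB'A : B' * A = 1 - Matrix.vecMulVec s lam := by
    rw [hB', Matrix.mul_assoc B A, hABt, Matrix.mul_sub, Matrix.mul_one, Matrix.sub_mul,
      Matrix.mul_assoc, Matrix.vecMulVec_mul, hsA, hB]
    have h3 : Matrix.vecMulVec lam (0 : Fin N → κ) = 0 := by
      ext i j
      rw [Matrix.vecMulVec_apply, Pi.zero_apply, mul_zero, Matrix.zero_apply]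
    rw [h3, Matrix.mul_zero, sub_zero]
  have hB't : B'.transpose = B' := by
    rw [hB', Matrix.transpose_mul, Matrix.transpose_mul, Matrix.transpose_transpose, hA,
      ← Matrix.mul_assoc]
  have t1 : (B' * A * Nm).trace = Nm.trace - qQ * (lam ⬝ᵥ q) := by
    rw [hB'A, Matrix.sub_mul, Matrix.one_mul, Matrix.trace_sub, latc_trace_vm, h5,
      dotProduct_smul, smul_eq_mul]
  have t2 : (B' * (Nm.transpose * A)).trace = Nm.trace - qQ * (lam ⬝ᵥ q) := by
    rw [← t1, ← Matrix.trace_transpose, Matrix.transpose_mul, Matrix.transpose_mul,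
      Matrix.transpose_transpose, hA, hB't, Matrix.mul_assoc A Nm B', Matrix.trace_mul_comm A,
      Matrix.mul_assoc Nm, Matrix.trace_mul_comm Nm]
  have t3 : (B' * A).trace = (N : κ) - 1 := by
    rw [hB'A, Matrix.trace_sub, Matrix.trace_one, Matrix.trace_vecMulVec, Fintype.card_fin,
      dotProduct_comm, hls]
  have h3 := congrArg (fun X => (B' * X).trace) h2
  simp only [Matrix.mul_add, Matrix.trace_add, Matrix.mul_neg, Matrix.trace_neg,
    Matrix.mul_smul, Matrix.trace_smul, smul_eq_mul] at h3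
  rw [← Matrix.mul_assoc B' A Nm, t1, t2, t3] at h3
  linear_combination h3

end MPadcLZ
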