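import Pool.Agent.Lib.MP_adc574_ag_LZ.LatA
import Pool.Agent.Lib.MP_adc574_ag_LZ.LatB
import Pool.Agent.Lib.MP_adc574_ag_LZ.LatC

/-!
# JOB LatD: the residue at a node (2.2)

Notation: `f = S.ft`, `ell` = `S.ell.map C`, `m = d (k + 2) - N`, `δ = S.del`. `alk N k = (N - 1)/2 - 1 - k`.
`node_div`: let `j` be a node, `s = σ_j`, `τ = τ_j`, `E = nodeEv S j`, `δ ell ^ m = ∑ Q_i f_i`, `Q_i` homogeneous of degree `qQ = m - (d - 1)` (in `ℕ`; `d - 1 ≤ m`, otherwise the left side would be 0 by `hm_jac`, but it is not: `δ ≠ 0`,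
`ell ≠ 0`; so `(qQ : κ) = d (k + 1) - (N - 1)`). Put `q_i = E Q_i`, `Nm i b = E (∂_b Q_i)`, `A a b = E (∂_a ∂_b f) = S.hes j a b`, `T i a b = E (∂_i ∂_a ∂_b f)`.
 (1) apply `E ∘ ∂_a` : `∑ i, q_i A i a = 0` (`E f_i = 0`: `nodeEv_jac`, `E (C δ) = 0`: `del_eval`).
 (2) apply `E ∘ ∂_b ∘ ∂_a`: `∑ i, (Nm i a A i b + Nm i b A i a + q_i T i a b) = 0`.
 (3) apply `E ∘ cder (dP κ)` (a derivation: `cder D (P Q) = cder D P Q + P cder D Q`; on `C δ`: `C (derivative δ)`, on `ell ^ m`, which is `(ell^m).map C`: `0`; on `f_i = (∂_i G).map C - C X (∂_i H).map C`: `- (∂_i H).map C`): `δ'(τ) = - ∑ i, q_i (∂_i H)(s)` (`nodeEv_ell`).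
 (4) Euler (`MvPolynomial.IsHomogeneous.sum_X_mul_pderiv`, apply `E`): `∑ b, s_b A a b = (d - 1) E f_a = 0`; `∑ i, s_i T i a b = (d - 2) A a b`; `∑ i, s_i (∂_i H)(s) = d H(s)`; (5) `∑ b, s_b Nm i b = qQ q_i`.
 `s ≠ 0`: `ell(s) = 1`, `Hm 1 ell`. `node_trace` with `B`, `lam` from `hess`, `c0 = d - 2`: `q = c s`, `c = lam . q`; (2) becomes `h2`; `2 tr Nm = 2 qQ c - (d - 2) c (N - 1) = 2 c d (k + 1 - (N - 1)/2) = - 2 c d alk`; (3) `δ'(τ) = - c d H(s)`. So
 `H(s) E (∑ ∂_i Q_i) = H(s) tr Nm = alk δ'(τ)`.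
`uu_res`: `δ • u_k = brt (C δ ell ^ m)` (`uu_eq`, `brt_C_mul`), `C δ ell ^ m ∈ Jac` (`ann`, `M ≤ m`), `hm_jac` gives `Q`; `= - brt (div Q)` (`brt_jac`), `div Q = ∑ ∂_i Q_i`. `nab (δ u_k) = - brt (cder (div Q)) + brt (H.map C div Q)` (`nab_brt`).
 `cder (div Q)` has level `≤ k` (its exponents are exponents of `div Q`, of degree `m - (d - 1) - 1`, and `+ N ≤ d (k + 1)`, if `div Q ≠ 0`; note if `m = d - 1` the `Q_i` are constants in `x` and `div Q = 0`). `P = H.map C div Q - C (C alk δ') ell ^ m` is homogeneous of degree `m`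
 and `nodeEv P = 0` at all nodes (`node_div`), so `P ∈ Jac` (`G2`), `P = ∑ R_i f_i` (`hm_jac`), `brt P = - brt (div R) ∈ EL k`. And `nab (δ u_k) - (C alk δ') u_k = - brt (cder ..) + brt P`.
`del_uu`: `δ • u_k = - brt (div Q) ∈ EL k`.
-/

set_option autoImplicit false

namespace MPadcLZ

open MvPolynomial MPadcHM

universe u

/-- `α_k = n/2 - 1 - k`. -/
noncomputable def alk (κ : Type*) [Field κ] (N k : ℕ) : κ := ((N : κ) - 1) / 2 - 1 - k

variable {κ : Type u} [Field κ] [CharZero κ] {N : ℕ} {S : PDat κ N} {Mo : Type u}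
  [AddCommGroup Mo] [Module (RatFunc κ) Mo] [Module (Polynomial κ) Mo]
  [IsScalarTower (Polynomial κ) (RatFunc κ) Mo] {nab : Mo →+ Mo}
  {br : MvPolynomial (Fin N) (RatFunc κ) →ₗ[RatFunc κ] Mo}

private theorem latd_comm {R : Type*} [CommRing R] (a b : Fin N) (P : MvPolynomial (Fin N) R) :
    pderiv a (pderiv b P) = pderiv b (pderiv a P) := by
  have h : ⁅pderiv (R := R) a, pderiv b⁆ = (0 : Derivation R (MvPolynomial (Fin N) R) _) := by
    apply MvPolynomial.derivation_ext
    intro i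
    rw [Derivation.commutator_apply, pderiv_X, pderiv_X, Derivation.coe_zero, Pi.zero_apply]
    rcases eq_or_ne b i with rfl | hb
    · rcases eq_or_ne a b with rfl | ha
      · simp
      · simp [Pi.single_eq_of_ne, ha.symm]
    · rcases eq_or_ne a i with rfl | ha
      · simp [Pi.single_eq_of_ne, hb.symm]
      · simp [Pi.single_eq_of_ne, hb.symm, ha.symm]
  have h2 := congrArg (fun D => D P) h
  simp only [Derivation.commutator_apply, Derivation.coe_zero, Pi.zero_apply] at h2
  exact sub_eq_zero.1 h2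

private theorem latd_supp {R : Type*} [CommRing R] {i : Fin N} {P : MvPolynomial (Fin N) R}
    {e : Fin N →₀ ℕ} (he : e ∈ (pderiv i P).support) : e + Finsupp.single i 1 ∈ P.support := by
  rw [mem_support_iff, coeff_pderiv] at he
  rw [mem_support_iff]
  intro h
  exact he (by rw [h, zero_mul])

private theorem latd_dg_single (e : Fin N →₀ ℕ) (i : Fin N) :
    dg (e + Finsupp.single i 1) = dg e + 1 := by
  unfold dg
  simp only [Finsupp.add_apply, Finset.sum_add_distrib]
  congr 1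
  rw [Finset.sum_eq_single i]
  · simp
  · intro b _ hb
    exact Finsupp.single_eq_of_ne hb
  · intro h
    exact absurd (Finset.mem_univ i) h

private theorem latd_cder_mul {R : Type*} [CommRing R] (D : Derivation ℤ R R)
    (P Q : MvPolynomial (Fin N) R) : cder D (P * Q) = P * cder D Q + Q * cder D P := by
  classical
  ext e
  rw [coeff_cder', coeff_add, mul_comm Q, coeff_mul, map_sum, coeff_mul, coeff_mul,
    ← Finset.sum_add_distrib]
  refine Finset.sum_congr rfl fun x _ => ?_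
  rw [Derivation.leibniz, coeff_cder', coeff_cder', smul_eq_mul, smul_eq_mul,
    mul_comm (coeff x.2 Q)]

private theorem latd_cder_sum {R : Type*} [CommRing R] (D : Derivation ℤ R R) {ι : Type*}
    (s : Finset ι) (P : ι → MvPolynomial (Fin N) R) :
    cder D (∑ i ∈ s, P i) = ∑ i ∈ s, cder D (P i) := by
  ext e
  rw [coeff_cder', coeff_sum, map_sum, coeff_sum]
  exact Finset.sum_congr rfl fun i _ => (coeff_cder' D (P i) e).symm

private theorem latd_cder_C {κ : Type u} [Field κ] (c : Polynomial κ) :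
    cder (dP κ) (C c : MvPolynomial (Fin N) (Polynomial κ)) = C (Polynomial.derivative c) := by
  classical
  refine MvPolynomial.ext _ _ fun e => ?_
  rw [coeff_cder', coeff_C, coeff_C, dP_apply]
  split_ifs
  · rfl
  · exact Polynomial.derivative_zero

section Node

variable {κ : Type u} [Field κ] {N : ℕ} {S : PDat κ N}

private theorem latd_ev_map (j : Fin S.J) (P : MvPolynomial (Fin N) κ) :
    nodeEv S j (P.map Polynomial.C) = eval (S.sig j) P := nodeEv_map j P

private theorem latd_pderiv_ft (i : Fin N) : pderiv i S.ft =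
    (pderiv i S.G).map Polynomial.C - C Polynomial.X * (pderiv i S.H).map Polynomial.C := by
  unfold PDat.ft
  rw [map_sub, pderiv_mul, pderiv_C, zero_mul, zero_add, pderiv_map, pderiv_map]

private theorem latd_pderiv2_ft (a i : Fin N) : pderiv a (pderiv i S.ft) =
    (pderiv a (pderiv i S.G)).map Polynomial.C -
      C Polynomial.X * (pderiv a (pderiv i S.H)).map Polynomial.C := by
  rw [latd_pderiv_ft, map_sub, pderiv_mul, pderiv_C, zero_mul, zero_add, pderiv_map, pderiv_map]

private theorem latd_ev_X (j : Fin S.J) : nodeEv S j (C Polynomial.X) = S.tau j := by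
  rw [nodeEv_C, Polynomial.eval_X]

private theorem latd_ev_Xi (j : Fin S.J) (i : Fin N) : nodeEv S j (X i) = S.sig j i := by
  unfold nodeEv
  rw [coe_eval₂Hom, eval₂_X]

private theorem latd_ev_f (hS : S.Ok) (j : Fin S.J) (i : Fin N) :
    nodeEv S j (pderiv i S.ft) = 0 := by
  rw [latd_pderiv_ft, map_sub, map_mul, latd_ev_X, nodeEv_map, nodeEv_map, hS.crit, sub_self]

private theorem latd_ev_hes (j : Fin S.J) (a i : Fin N) :
    nodeEv S j (pderiv a (pderiv i S.ft)) = S.hes j a i := by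
  rw [latd_pderiv2_ft, map_sub, map_mul, latd_ev_X, nodeEv_map, nodeEv_map, PDat.hes,
    Matrix.of_apply, map_sub, map_sub, pderiv_C_mul, pderiv_C_mul, map_sub, map_mul, eval_C]

private theorem latd_euler (j : Fin S.J) {m : ℕ} {P : MvPolynomial (Fin N) (Polynomial κ)}
    (hP : Hm m P) : ∑ i, S.sig j i * nodeEv S j (pderiv i P) = (m : κ) * nodeEv S j P := by
  have h := (Hm_iff.1 hP).sum_X_mul_pderiv
  have h2 := congrArg (nodeEv S j) h
  rw [map_sum, nsmul_eq_mul, map_mul, map_natCast] at h2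
  rw [← h2]
  refine Finset.sum_congr rfl fun i _ => ?_
  rw [map_mul, latd_ev_Xi]

private theorem latd_euler_H (hS : S.Ok) (j : Fin S.J) :
    ∑ i, S.sig j i * eval (S.sig j) (pderiv i S.H) = (S.d : κ) * eval (S.sig j) S.H := by
  have h := (Hm_iff.1 hS.homH).sum_X_mul_pderiv
  have h2 := congrArg (eval (S.sig j)) h
  rw [map_sum, nsmul_eq_mul, map_mul, map_natCast] at h2
  rw [← h2]
  refine Finset.sum_congr rfl fun i _ => ?_
  rw [map_mul, eval_X]

private theorem latd_sig_ne (hS : S.Ok) (j : Fin S.J) : S.sig j ≠ 0 := by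
  intro h0
  have h := (Hm_iff.1 hS.homl).sum_X_mul_pderiv
  have h2 := congrArg (eval (S.sig j)) h
  rw [map_sum, one_nsmul, hS.one] at h2
  have h3 : ∑ i, eval (S.sig j) (X i * pderiv i S.ell) = 0 := by
    refine Finset.sum_eq_zero fun i _ => ?_
    rw [map_mul, eval_X, h0, Pi.zero_apply, zero_mul]
  rw [h3] at h2
  exact zero_ne_one h2

private theorem latd_d_le (hS : S.Ok) (j : Fin S.J) {k : ℕ}
    {Q : Fin N → MvPolynomial (Fin N) (Polynomial κ)}
    (h : C S.del * S.ell.map Polynomial.C ^ (S.d * (k + 2) - N) = ∑ i, Q i * pderiv i S.ft) :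
    S.d - 1 ≤ S.d * (k + 2) - N := by
  by_contra hcon
  have hHm : Hm (S.d * (k + 2) - N)
      (C S.del * S.ell.map Polynomial.C ^ (S.d * (k + 2) - N)) := by
    refine Hm_C_mul ?_ _
    have := Hm_pow (Hm_map Polynomial.C hS.homl) (S.d * (k + 2) - N)
    rwa [mul_one] at this
  have hJ : C S.del * S.ell.map Polynomial.C ^ (S.d * (k + 2) - N) ∈ Jac S.ft := by
    rw [h]
    refine Ideal.sum_mem _ fun i _ => ?_
    exact Ideal.mul_mem_left _ _ (Ideal.subset_span ⟨i, rfl⟩)
  obtain ⟨Q', -, -, h3⟩ := hm_jac hS hHm hJ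
  have h4 := h3 (not_le.1 hcon)
  rcases mul_eq_zero.1 h4 with h5 | h5
  · have h6 : S.del = 0 := by
      have := C_injective (Fin N) (Polynomial κ) (h5.trans C_0.symm)
      exact this
    have h7 := (del_monic (S := S)).ne_zero
    exact h7 h6
  · have h6 := congrArg (nodeEv S j) h5
    rw [nodeEv_ell hS, map_zero] at h6
    exact one_ne_zero h6

end Node

theorem node_div (hS : S.Ok) (j : Fin S.J) {k : ℕ} (hk : S.M + N ≤ S.d * (k + 2))
    (Q : Fin N → MvPolynomial (Fin N) (Polynomial κ))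
    (hQ : ∀ i, Hm (S.d * (k + 2) - N - (S.d - 1)) (Q i))
    (h : C S.del * S.ell.map Polynomial.C ^ (S.d * (k + 2) - N) = ∑ i, Q i * pderiv i S.ft) :
    eval (S.sig j) S.H * nodeEv S j (∑ i, pderiv i (Q i)) =
      alk κ N k * (Polynomial.derivative S.del).eval (S.tau j) := by
  classical
  obtain ⟨B, lam, hB⟩ := hS.hess j
  have hd1 := latd_d_le hS j h
  have hdel0 : nodeEv S j (C S.del) = 0 := by rw [nodeEv_C, del_eval]
  set q : Fin N → κ := fun i => nodeEv S j (Q i) with hq
  set Nm : Matrix (Fin N) (Fin N) κ := Matrix.of fun i b => nodeEv S j (pderiv b (Q i)) with hNm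
  have hA : (S.hes j).transpose = S.hes j := by
    ext a b
    rw [Matrix.transpose_apply, ← latd_ev_hes, ← latd_ev_hes, latd_comm]
  have hd2 : ((S.d - 1 : ℕ) : κ) = (S.d : κ) - 1 := by
    rw [Nat.cast_sub (by have := hS.hd; omega), Nat.cast_one]
  have hd3 : ((S.d - 1 - 1 : ℕ) : κ) = (S.d : κ) - 2 := by
    rw [Nat.sub_sub, Nat.cast_sub (by have := hS.hd; omega)]
    norm_num
  have hAs : (S.hes j).mulVec (S.sig j) = 0 := by
    funext a
    have h1 := latd_euler j (Hm_pderiv (Hm_ft hS) a)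
    rw [latd_ev_f hS, mul_zero] at h1
    rw [Matrix.mulVec, dotProduct, Pi.zero_apply, ← h1]
    refine Finset.sum_congr rfl fun b _ => ?_
    rw [mul_comm, ← latd_ev_hes, latd_comm]
  have h1 : (S.hes j).mulVec q = 0 := by
    funext a
    have h2 := congrArg (fun P => nodeEv S j (pderiv a P)) h
    simp only [pderiv_mul, pderiv_C, zero_mul, zero_add, map_mul, map_sum, map_add, hdel0,
      latd_ev_f hS, mul_zero, latd_ev_hes] at h2
    rw [Matrix.mulVec, dotProduct, Pi.zero_apply, h2]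
    refine Finset.sum_congr rfl fun i _ => ?_
    rw [mul_comm]
  have h5 : Nm.mulVec (S.sig j) = ((S.d * (k + 2) - N - (S.d - 1) : ℕ) : κ) • q := by
    funext i
    rw [Pi.smul_apply, smul_eq_mul, hq, ← latd_euler j (hQ i), Matrix.mulVec, dotProduct]
    refine Finset.sum_congr rfl fun b _ => ?_
    rw [mul_comm, hNm, Matrix.of_apply]
  have hs := latd_sig_ne hS j
  have hqc : q = (lam ⬝ᵥ q) • S.sig j := by
    have h3 : (B * S.hes j).mulVec q = 0 := by
      rw [← Matrix.mulVec_mulVec, h1, Matrix.mulVec_zero]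
    rw [hB, Matrix.sub_mulVec, Matrix.one_mulVec] at h3
    have h4 : (Matrix.vecMulVec (S.sig j) lam).mulVec q = (lam ⬝ᵥ q) • S.sig j := by
      funext i
      rw [Matrix.mulVec, Pi.smul_apply, smul_eq_mul, dotProduct, dotProduct, Finset.sum_mul]
      refine Finset.sum_congr rfl fun l _ => ?_
      rw [Matrix.vecMulVec_apply]
      ring
    rw [h4] at h3
    exact sub_eq_zero.1 h3
  set c : κ := lam ⬝ᵥ q with hc
  have h2 : S.hes j * Nm + Nm.transpose * S.hes j =
      -((((S.d : κ) - 2) * (lam ⬝ᵥ q)) • S.hes j) := by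
    ext a b
    have h3 := congrArg (fun P => nodeEv S j (pderiv b (pderiv a P))) h
    simp only [pderiv_mul, pderiv_C, zero_mul, zero_add, map_mul, map_sum, map_add, hdel0,
      latd_ev_f hS, mul_zero, latd_ev_hes] at h3
    have h4 : ∑ i, nodeEv S j (Q i) * nodeEv S j (pderiv b (pderiv a (pderiv i S.ft))) =
        c * (((S.d : κ) - 2) * S.hes j a b) := by
      have h6 := latd_euler j (Hm_pderiv (Hm_pderiv (Hm_ft hS) b) a)
      rw [hd3, latd_ev_hes] at h6
      rw [← h6, Finset.mul_sum]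
      refine Finset.sum_congr rfl fun i _ => ?_
      have h7 : nodeEv S j (Q i) = c * S.sig j i := by
        have := congrFun hqc i
        rw [Pi.smul_apply, smul_eq_mul] at this
        exact this
      rw [h7, latd_comm i a, latd_comm i b, latd_comm a b, mul_assoc]
    rw [Matrix.add_apply, Matrix.mul_apply, Matrix.mul_apply, Matrix.neg_apply,
      Matrix.smul_apply, smul_eq_mul, ← hc]
    have h6 : ∑ i, S.hes j a i * Nm i b = ∑ i, nodeEv S j (pderiv b (Q i)) * S.hes j a i := by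
      refine Finset.sum_congr rfl fun i _ => ?_
      rw [hNm, Matrix.of_apply, mul_comm]
    have h7 : ∑ i, Nm.transpose a i * S.hes j i b =
        ∑ i, nodeEv S j (pderiv a (Q i)) * S.hes j b i := by
      refine Finset.sum_congr rfl fun i _ => ?_
      rw [Matrix.transpose_apply, hNm, Matrix.of_apply]
      congr 1
      have := congrFun (congrFun hA b) i
      rw [Matrix.transpose_apply] at this
      exact this
    rw [h6, h7]
    simp only [Finset.sum_add_distrib] at h3
    rw [h4] at h3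
    linear_combination -h3
  obtain ⟨-, htr⟩ := node_trace (S.hes j) B Nm (S.sig j) lam q ((S.d : κ) - 2) _ hs hA hAs hB h1
    h2 h5
  rw [← hc] at htr
  have h3 : (Polynomial.derivative S.del).eval (S.tau j) =
      -(c * ((S.d : κ) * eval (S.sig j) S.H)) := by
    have h4 := congrArg (fun P => nodeEv S j (cder (dP κ) P)) h
    simp only [latd_cder_mul, latd_cder_sum, map_add, map_mul, map_sum, latd_cder_C, hdel0,
      zero_mul, zero_add, latd_ev_f hS, add_zero] at h4
    rw [nodeEv_ell hS, one_mul, nodeEv_C] at h4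
    rw [h4, ← latd_euler_H hS, Finset.mul_sum, ← Finset.sum_neg_distrib]
    refine Finset.sum_congr rfl fun i _ => ?_
    have h7 : nodeEv S j (Q i) = c * S.sig j i := by
      have := congrFun hqc i
      rw [Pi.smul_apply, smul_eq_mul] at this
      exact this
    have h8 : cder (dP κ) (pderiv i S.ft) = - (pderiv i S.H).map Polynomial.C := by
      rw [latd_pderiv_ft]
      refine MvPolynomial.ext _ _ fun e => ?_
      rw [coeff_cder', coeff_sub, coeff_C_mul, coeff_map, coeff_map, coeff_neg, coeff_map,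
        dP_apply, Polynomial.derivative_sub, Polynomial.derivative_C, Polynomial.derivative_mul,
        Polynomial.derivative_C, Polynomial.derivative_X]
      ring
    rw [h8, map_neg, nodeEv_map, h7]
    ring
  have h4 : nodeEv S j (∑ i, pderiv i (Q i)) = Nm.trace := by
    rw [map_sum, Matrix.trace]
    refine Finset.sum_congr rfl fun i _ => ?_
    rw [Matrix.diag_apply, hNm, Matrix.of_apply]
  have h6 : ((S.d * (k + 2) - N - (S.d - 1) : ℕ) : κ) =
      (S.d : κ) * (k + 2) - N - ((S.d : κ) - 1) := by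
    rw [Nat.cast_sub hd1, Nat.cast_sub (by omega), hd2]
    push_cast
    ring
  rw [h6] at htr
  have h2ne : (2 : κ) ≠ 0 := two_ne_zero
  rw [h4, h3, alk]
  have h7 : Nm.trace = (2 * (((S.d : κ) * (k + 2) - N - ((S.d : κ) - 1)) * c) -
      ((S.d : κ) - 2) * c * ((N : κ) - 1)) / 2 := by
    rw [← htr]
    field_simp
  rw [h7]
  field_simp
  ring

/-- The class of an element of the Jacobian ideal of degree `d (k + 2) - N`. -/
private theorem latd_jac_mem (hS : S.Ok) (hG : IsHG S nab br) {k : ℕ}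
    (hk : S.M + N ≤ S.d * (k + 2)) {P : MvPolynomial (Fin N) (Polynomial κ)}
    (hP : Hm (S.d * (k + 2) - N) P) (hJ : P ∈ Jac S.ft) :
    ∃ Q : Fin N → MvPolynomial (Fin N) (Polynomial κ),
      (∀ i, Hm (S.d * (k + 2) - N - (S.d - 1)) (Q i)) ∧ P = ∑ i, Q i * pderiv i S.ft ∧
      brt br P = - brt br (∑ i, pderiv i (Q i)) ∧ LvLe S.d k (∑ i, pderiv i (Q i)) ∧
      Hm (S.d * (k + 2) - N) (S.H.map Polynomial.C * ∑ i, pderiv i (Q i)) := by
  obtain ⟨Q, h1, h2, h3⟩ := hm_jac hS hP hJ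
  have hd := hS.hd
  have hsup : ∀ e ∈ (∑ i, pderiv i (Q i)).support, dg e + N + S.d = S.d * (k + 2) := by
    intro e he
    have h4 : ∃ i, e ∈ (pderiv i (Q i)).support := by
      by_contra hcon
      push Not at hcon
      rw [mem_support_iff, coeff_sum] at he
      apply he
      refine Finset.sum_eq_zero fun i _ => ?_
      exact notMem_support_iff.1 (hcon i)
    obtain ⟨i, hi⟩ := h4
    have h5 := h1 i _ (latd_supp hi)
    rw [latd_dg_single] at h5
    omega
  refine ⟨Q, h1, h2, ?_, ?_, ?_⟩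
  · rw [h2]
    exact brt_jac hG Q
  · intro e he
    have h4 := hsup e he
    have h5 : S.d * (k + 2) = S.d * (k + 1) + S.d := by ring
    omega
  · intro e he
    classical
    have h4 := support_mul _ _ he
    obtain ⟨a, ha, b, hb, rfl⟩ := Finset.mem_add.1 h4
    have h5 := (Hm_map Polynomial.C hS.homH) a ha
    have h6 := hsup b hb
    have h7 : dg (a + b) = dg a + dg b := by
      unfold dg
      simp only [Finsupp.add_apply, Finset.sum_add_distrib]
    rw [h7, h5]
    omega

private theorem latd_Hm_ell (hS : S.Ok) (m : ℕ) : Hm m (S.ell.map Polynomial.C ^ m) := by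
  have := Hm_pow (Hm_map Polynomial.C hS.homl) m
  rwa [mul_one] at this

private theorem latd_ann (hS : S.Ok) {k : ℕ} (hk : S.M + N ≤ S.d * (k + 2)) :
    C S.del * S.ell.map Polynomial.C ^ (S.d * (k + 2) - N) ∈ Jac S.ft := by
  have h1 : S.d * (k + 2) - N = S.M + (S.d * (k + 2) - N - S.M) := by omega
  rw [h1, pow_add, ← mul_assoc]
  exact Ideal.mul_mem_right _ _ hS.ann

theorem del_uu (hS : S.Ok) (hG : IsHG S nab br) {k : ℕ} (hk : S.M + N ≤ S.d * (k + 2)) :
    S.del • uu S br k ∈ EL S br k := by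
  obtain ⟨Q, -, -, h3, h4, -⟩ := latd_jac_mem hS hG hk (Hm_C_mul (latd_Hm_ell hS _) S.del)
    (latd_ann hS hk)
  rw [uu_eq, ← brt_C_mul, h3]
  exact Submodule.neg_mem _ (brt_mem_EL hG h4)

theorem uu_res (hS : S.Ok) (hG : IsHG S nab br) {k : ℕ} (hk : S.M + N ≤ S.d * (k + 2)) :
    nab (S.del • uu S br k) -
      (Polynomial.C (alk κ N k) * Polynomial.derivative S.del) • uu S br k ∈ EL S br k := by
  obtain ⟨Q, h1, h2, h3, h4, h5⟩ := latd_jac_mem hS hG hk (Hm_C_mul (latd_Hm_ell hS _) S.del)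
    (latd_ann hS hk)
  set c : Polynomial κ := Polynomial.C (alk κ N k) * Polynomial.derivative S.del with hc
  have h6 : Hm (S.d * (k + 2) - N) (S.H.map Polynomial.C * ∑ i, pderiv i (Q i) -
      C c * S.ell.map Polynomial.C ^ (S.d * (k + 2) - N)) :=
    Hm_sub h5 (Hm_C_mul (latd_Hm_ell hS _) c)
  have h7 : S.H.map Polynomial.C * ∑ i, pderiv i (Q i) -
      C c * S.ell.map Polynomial.C ^ (S.d * (k + 2) - N) ∈ Jac S.ft := by
    refine G2 hS (by omega) h6 fun j => ?_
    rw [map_sub, map_mul, map_mul, nodeEv_map, nodeEv_C, nodeEv_ell hS, mul_one,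
      node_div hS j hk Q h1 h2, hc, Polynomial.eval_mul, Polynomial.eval_C, sub_self]
  obtain ⟨Q', -, -, h8, h9, -⟩ := latd_jac_mem hS hG hk h6 h7
  have h10 : nab (S.del • uu S br k) - c • uu S br k =
      brt br (S.H.map Polynomial.C * ∑ i, pderiv i (Q i) -
        C c * S.ell.map Polynomial.C ^ (S.d * (k + 2) - N)) -
      brt br (cder (dP κ) (∑ i, pderiv i (Q i))) := by
    rw [uu_eq, ← brt_C_mul, h3, map_neg, nab_brt hG, brt_sub, brt_C_mul]
    abel
  rw [h10, h8]
  refine Submodule.sub_mem _ (Submodule.neg_mem _ (brt_mem_EL hG h9)) (brt_mem_EL hG ?_)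
  intro e he
  refine h4 e ?_
  rw [mem_support_iff] at he ⊢
  intro h0
  exact he (by rw [coeff_cder', h0, map_zero])

/-- A homogeneous polynomial of degree `d (k + 2) - N` over `κ[t]`. -/
theorem brt_red (hS : S.Ok) (hG : IsHG S nab br) {k : ℕ} (hk : S.M + N ≤ S.d * (k + 2))
    {P : MvPolynomial (Fin N) (Polynomial κ)} (hP : Hm (S.d * (k + 2) - N) P) :
    ∃ ξ : Polynomial κ, brt br P - ξ • uu S br k ∈ EL S br k ∧
      ∀ j, ξ.eval (S.tau j) = nodeEv S j P := by
  obtain ⟨ξ, h1, h2⟩ := G1' hS (by omega) hP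
  refine ⟨ξ, ?_, h2⟩
  obtain ⟨Q', -, -, h8, h9, -⟩ := latd_jac_mem hS hG hk
    (Hm_sub hP (Hm_C_mul (latd_Hm_ell hS _) ξ)) h1
  rw [uu_eq, ← brt_C_mul, ← brt_sub, h8]
  exact Submodule.neg_mem _ (brt_mem_EL hG h9)

end MPadcLZ
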