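import Pool.Agent.Lib.MP_adc574_ag_LZ.LatD

/-!
# JOB LatE: the lattice data `(E_k, u_k, α_k)` and the chain

* `EL_succ`: `exists_brt`: `x = brt P`, all exponents `e` of `P` with `d ∣ dg e + N ≤ d (k + 2)`: either `dg e + N ≤ d (k + 1)` or `dg e = d (k + 2) - N`; split `P = P_1 + P_2` (`P_2` the homogeneous component of degree
  `d (k + 2) - N`), `brt P_1 ∈ EL k`, `brt_red` for `P_2`.
* `EL_pow`: `del ^ j • x ∈ EL k` for `x ∈ EL (k + j)`: induction, `EL_succ`, `del_uu`.
* `ld_EL`: `fg`: `EL_fg`; `spn`: `exists_level` and `EL_pow` (`EL_mono`); `nabE`: `nab_EL`, `EL_succ`; `delu`: `del_uu`; `res`: `uu_res`.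
* `ell_chain`: `i = k + 1 - a`. For `P` over `κ`: `cder (dP κ) (P.map C) = 0`, so `nab (brt (P.map C)) = - brt ((H P).map C)` and `nab^[i] (br (ell ^ m_a)) = (-1)^i brt ((H ^ i ell ^ m_a).map C)`, `m_a = d (a + 1) - N` (`brt_mapC`). The polynomial is homogeneous of
  degree `m_a + i d = d (k + 2) - N`; `brt_red`: `= ξ • u_k` modulo `EL k`, `ξ(τ_j) = H(σ_j)^i ≠ 0` (`Hu`, `one`). `q • ((-1)^i brt ..) ∈ EL k` for some `q` with `q(τ_j) ≠ 0`, so `(q ξ) • u_k ∈ EL k`.
-/

set_option autoImplicit false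

namespace MPadcLZ

open MvPolynomial MPadcHM

universe u

variable {κ : Type u} [Field κ] [CharZero κ] {N : ℕ} {S : PDat κ N} {Mo : Type u}
  [AddCommGroup Mo] [Module (RatFunc κ) Mo] [Module (Polynomial κ) Mo]
  [IsScalarTower (Polynomial κ) (RatFunc κ) Mo] {nab : Mo →+ Mo}
  {br : MvPolynomial (Fin N) (RatFunc κ) →ₗ[RatFunc κ] Mo}

omit [CharZero κ] in
private theorem late_split (hG : IsHG S nab br) {k : ℕ} {x : Mo} (hx : x ∈ EL S br (k + 1)) :
    ∃ P : MvPolynomial (Fin N) (Polynomial κ), Hm (S.d * (k + 2) - N) P ∧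
      x - brt br P ∈ EL S br k := by
  classical
  obtain ⟨P, hP, rfl⟩ := exists_brt hx
  set P₂ : MvPolynomial (Fin N) (Polynomial κ) :=
    ∑ e ∈ P.support.filter (fun e => dg e + N = S.d * (k + 2)), monomial e (coeff e P) with h2
  set P₁ : MvPolynomial (Fin N) (Polynomial κ) :=
    ∑ e ∈ P.support.filter (fun e => ¬ dg e + N = S.d * (k + 2)), monomial e (coeff e P) with h1
  have hsum : P = P₂ + P₁ := by
    conv_lhs => rw [P.as_sum]
    rw [h1, h2, Finset.sum_filter_add_sum_filter_not]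
  have hsup : ∀ (s : Finset (Fin N →₀ ℕ)) (e : Fin N →₀ ℕ),
      e ∈ (∑ e ∈ s, monomial e (coeff e P)).support → e ∈ s := by
    intro s e he
    by_contra hcon
    rw [mem_support_iff, coeff_sum] at he
    apply he
    refine Finset.sum_eq_zero fun a ha => ?_
    rw [coeff_monomial, if_neg]
    rintro rfl
    exact hcon ha
  refine ⟨P₂, ?_, ?_⟩
  · intro e he
    have h3 := (Finset.mem_filter.1 (hsup _ e he)).2
    omega
  · have h3 : brt br P - brt br P₂ = brt br P₁ := by
      rw [← brt_sub]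
      congr 1
      exact sub_eq_of_eq_add' hsum
    rw [h3]
    refine brt_mem_EL hG fun e he => ?_
    obtain ⟨h4, h5⟩ := Finset.mem_filter.1 (hsup _ e he)
    obtain ⟨⟨c, hc⟩, h6⟩ := hP e h4
    rw [hc] at h5 h6 ⊢
    have h7 : c ≤ k + 1 + 1 ∨ S.d = 0 := by
      by_cases hd : S.d = 0
      · exact Or.inr hd
      · exact Or.inl (Nat.le_of_mul_le_mul_left h6 (Nat.pos_of_ne_zero hd))
    rcases h7 with h7 | h7
    · have h8 : c ≠ k + 2 := fun h => h5 (by rw [h])
      exact Nat.mul_le_mul_left _ (by omega)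
    · rw [h7, zero_mul, zero_mul]

theorem EL_succ (hS : S.Ok) (hG : IsHG S nab br) {k : ℕ} (hk : S.M + N ≤ S.d * (k + 2)) {x : Mo}
    (hx : x ∈ EL S br (k + 1)) : ∃ p : Polynomial κ, x - p • uu S br k ∈ EL S br k := by
  obtain ⟨P, hP, hxP⟩ := late_split hG hx
  obtain ⟨ξ, h1, -⟩ := brt_red hS hG hk hP
  refine ⟨ξ, ?_⟩
  have h2 := Submodule.add_mem _ hxP h1
  rwa [sub_add_sub_cancel] at h2

theorem EL_pow (hS : S.Ok) (hG : IsHG S nab br) {k : ℕ} (hk : S.M + N ≤ S.d * (k + 2)) (j : ℕ)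
    {x : Mo} (hx : x ∈ EL S br (k + j)) : S.del ^ j • x ∈ EL S br k := by
  induction j generalizing x with
  | zero =>
    rw [pow_zero, one_smul]
    exact hx
  | succ j ih =>
    have hk' : S.M + N ≤ S.d * (k + j + 2) := hk.trans (Nat.mul_le_mul_left _ (by omega))
    obtain ⟨p, hp⟩ := EL_succ hS hG hk' (show x ∈ EL S br (k + j + 1) from hx)
    rw [pow_succ, mul_smul]
    apply ih
    have h1 : S.del • x = S.del • (x - p • uu S br (k + j)) + p • (S.del • uu S br (k + j)) := by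
      rw [smul_sub, smul_smul, smul_smul, mul_comm S.del p, sub_add_cancel]
    rw [h1]
    exact Submodule.add_mem _ (Submodule.smul_mem _ _ hp)
      (Submodule.smul_mem _ _ (del_uu hS hG hk'))

theorem ld_EL (hS : S.Ok) (hG : IsHG S nab br) {k : ℕ} (hk : S.M + N ≤ S.d * (k + 2)) :
    LD nab S.del (EL S br k) (uu S br k) (alk κ N k) := by
  refine ⟨EL_fg k, fun x => ?_, fun x hx => EL_succ hS hG hk (nab_EL hS hG hx),
    del_uu hS hG hk, uu_res hS hG hk⟩
  · obtain ⟨q, k', hq, hx⟩ := exists_level hG x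
    have h1 : q • x ∈ EL S br (k + k') := EL_mono (by omega) hx
    refine ⟨S.del ^ k' * q, mul_ne_zero (pow_ne_zero _ (del_monic (S := S)).ne_zero) hq, ?_⟩
    rw [mul_smul]
    exact EL_pow hS hG hk k' h1

omit [CharZero κ] in
private theorem late_iter (hG : IsHG S nab br) (P : MvPolynomial (Fin N) κ) (i : ℕ) :
    nab^[i] (brt br (P.map Polynomial.C)) =
      (-1 : Polynomial κ) ^ i • brt br ((S.H ^ i * P).map Polynomial.C) := by
  induction i generalizing P with
  | zero => simp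
  | succ i ih =>
    rw [Function.iterate_succ_apply, nab_brt hG]
    have h1 : cder (dP κ) (P.map Polynomial.C) = 0 := by
      refine MvPolynomial.ext _ _ fun e => ?_
      rw [coeff_cder', coeff_map, dP_apply, Polynomial.derivative_C, coeff_zero]
    have h2 : brt br (cder (dP κ) (P.map Polynomial.C)) -
        brt br (S.H.map Polynomial.C * P.map Polynomial.C) =
        brt br ((-(S.H * P)).map Polynomial.C) := by
      rw [h1, brt_zero, zero_sub, ← brt_neg, ← map_mul, ← map_neg]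
    rw [h2, ih, mul_neg, map_neg, brt_neg, pow_succ (-1 : Polynomial κ), pow_succ S.H,
      mul_assoc, smul_neg, mul_neg_one, neg_smul]

theorem ell_chain' (hS : S.Ok) (hG : IsHG S nab br) (k a : ℕ) (hk : S.M + N ≤ S.d * (k + 2))
    (hak : a ≤ k) (ha : N ≤ S.d * (a + 1)) (j : Fin S.J)
    (h : ∀ i, NearIn (EL S br k) (S.tau j)
      (nab^[i] (br (S.ell.map (algebraMap κ (RatFunc κ)) ^ (S.d * (a + 1) - N))))) :
    NearIn (EL S br k) (S.tau j) (uu S br k) := by
  obtain ⟨q, hq, h1⟩ := h (k + 1 - a)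
  have h2 : br (S.ell.map (algebraMap κ (RatFunc κ)) ^ (S.d * (a + 1) - N)) =
      brt br ((S.ell ^ (S.d * (a + 1) - N)).map Polynomial.C) := by
    rw [brt_mapC, map_pow (MvPolynomial.map (algebraMap κ (RatFunc κ)))]
  rw [h2, late_iter hG] at h1
  have hHm : Hm (S.d * (k + 2) - N)
      ((S.H ^ (k + 1 - a) * S.ell ^ (S.d * (a + 1) - N)).map Polynomial.C) := by
    apply Hm_map
    have h3 := Hm_mul (Hm_pow hS.homH (k + 1 - a)) (Hm_pow hS.homl (S.d * (a + 1) - N))
    have h4 : (k + 1 - a) * S.d + (S.d * (a + 1) - N) * 1 = S.d * (k + 2) - N := by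
      have h5 : (k + 1 - a) * S.d + S.d * (a + 1) = S.d * (k + 2) := by
        have h6 : k + 2 = (k + 1 - a) + (a + 1) := by omega
        rw [h6]
        ring
      omega
    rw [h4] at h3
    exact h3
  obtain ⟨ξ, h3, h4⟩ := brt_red hS hG hk hHm
  have h5 : ξ.eval (S.tau j) ≠ 0 := by
    rw [h4 j, nodeEv_map, map_mul, map_pow, map_pow, hS.one, one_pow, mul_one]
    exact pow_ne_zero _ (hS.Hu j).ne_zero
  refine ⟨q * ξ, ?_, ?_⟩
  · rw [Polynomial.eval_mul]
    exact mul_ne_zero hq h5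
  · set y := brt br ((S.H ^ (k + 1 - a) * S.ell ^ (S.d * (a + 1) - N)).map Polynomial.C) with hy
    have h6 : q • y ∈ EL S br k := by
      have h7 := Submodule.smul_mem _ ((-1 : Polynomial κ) ^ (k + 1 - a)) h1
      rw [smul_comm q, smul_smul, ← pow_add, ← two_mul, pow_mul, neg_one_sq, one_pow,
        one_smul] at h7
      exact h7
    have h7 : (q * ξ) • uu S br k = q • y - q • (y - ξ • uu S br k) := by
      rw [mul_smul, smul_sub, sub_sub_cancel]
    rw [h7]
    exact Submodule.sub_mem _ h6 (Submodule.smul_mem _ _ h3)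

end MPadcLZ
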