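import Mathlib

/-!
# JOB LoA: poles

`F` a field of characteristic 0, `O = F⟦X⟧`, `L` its fraction field, `DL` the extension of `d / dX` to `L`.

* `pole`: choose a common denominator (`IsLocalization.exist_integer_multiples_of_finite` or `IsFractionRing.div_surjective` and a product), every nonzero
  power series is `X ^ k` times a unit (`PowerSeries.eq_unit_mul_X_pow`-like, `PowerSeries.Unit_of_divided_by_X_pow_order`, `PowerSeries.X_pow_order_dvd`), so some `X ^ m` clears all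
  denominators; take the least such `m` (`Nat.find`). If `m ≥ 1` and all constant coefficients of `Z` vanish then `Z i = X * Z' i`
  (`PowerSeries.X_dvd_iff`) and `X ^ (m-1)` already clears the denominators.
* `pole_theta`: Leibniz (`DL (j X ^ m) = m * j X ^ (m - 1)`, by induction on `m` or from `IsDL.alg` applied to `X ^ m`).
* `reg_pole` (regular points): `pole`, `pole_theta`: `X Z' = m Z + A Z`, constant coefficients: `m Z(0) = 0`.
-/

set_option autoImplicit false

namespace MPadcLZ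

open PowerSeries

/-- `DL` extends `d / dX` to the fraction field. -/
structure IsDL (F : Type*) [Field F] {L : Type*} [Field L] [Algebra F⟦X⟧ L] (DL : L →+ L) :
    Prop where
  leib : ∀ a b, DL (a * b) = a * DL b + b * DL a
  alg : ∀ s : F⟦X⟧, DL (algebraMap _ L s) = algebraMap _ L (derivative F s)

section Poles

variable {F : Type*} [Field F] {L : Type*} [Field L] [Algebra F⟦X⟧ L] [IsFractionRing F⟦X⟧ L]

theorem pole {σ : Type*} [Finite σ] (Y : σ → L) :
    (∃ Z : σ → F⟦X⟧, ∀ i, Y i = algebraMap F⟦X⟧ L (Z i)) ∨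
    ∃ (m : ℕ) (Z : σ → F⟦X⟧), 1 ≤ m ∧
      (∀ i, algebraMap F⟦X⟧ L X ^ m * Y i = algebraMap F⟦X⟧ L (Z i)) ∧
      ∃ i, constantCoeff (Z i) ≠ 0 := by
  classical
  have hinj : Function.Injective (algebraMap F⟦X⟧ L) := IsFractionRing.injective F⟦X⟧ L
  obtain ⟨b, hb⟩ := IsLocalization.exist_integer_multiples_of_finite (nonZeroDivisors F⟦X⟧) Y
  have hb0 : (b : F⟦X⟧) ≠ 0 := nonZeroDivisors.ne_zero b.2
  obtain ⟨n, u, hn⟩ : ∃ (n : ℕ) (u : F⟦X⟧), IsUnit u ∧ (b : F⟦X⟧) = X ^ n * u :=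
    ⟨(b : F⟦X⟧).order.toNat, divXPowOrder (b : F⟦X⟧), isUnit_divided_by_X_pow_order hb0,
      X_pow_order_mul_divXPowOrder.symm⟩
  obtain ⟨hu, hbn⟩ := hn
  obtain ⟨v, hv⟩ := hu.exists_left_inv
  have hex : ∃ m : ℕ, ∃ Z : σ → F⟦X⟧, ∀ i,
      algebraMap F⟦X⟧ L X ^ m * Y i = algebraMap F⟦X⟧ L (Z i) := by
    choose W hW using hb
    refine ⟨n, fun i => v * W i, fun i => ?_⟩
    have h1 : algebraMap F⟦X⟧ L (W i) = algebraMap F⟦X⟧ L (b : F⟦X⟧) * Y i := by
      rw [hW i, Algebra.smul_def]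
    rw [map_mul, h1, hbn, map_mul, map_pow]
    have h2 : algebraMap F⟦X⟧ L v * algebraMap F⟦X⟧ L u = 1 := by
      rw [← map_mul, hv, map_one]
    linear_combination -(algebraMap F⟦X⟧ L X ^ n * Y i) * h2
  obtain ⟨Z, hZ⟩ := Nat.find_spec hex
  by_cases hm : Nat.find hex = 0
  · left
    refine ⟨Z, fun i => ?_⟩
    have h1 := hZ i
    rwa [hm, pow_zero, one_mul] at h1
  · right
    refine ⟨Nat.find hex, Z, Nat.one_le_iff_ne_zero.mpr hm, hZ, ?_⟩
    by_contra hc
    push Not at hc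
    have hd : ∀ i, ∃ z, Z i = X * z := fun i => X_dvd_iff.mpr (hc i)
    choose Z' hZ' using hd
    have hlt : Nat.find hex - 1 < Nat.find hex := Nat.sub_lt (Nat.pos_of_ne_zero hm) one_pos
    refine Nat.find_min hex hlt ⟨Z', fun i => ?_⟩
    have hX : algebraMap F⟦X⟧ L X ≠ 0 := by
      intro h0
      rw [← map_zero (algebraMap F⟦X⟧ L)] at h0
      exact X_ne_zero (hinj h0)
    apply mul_left_cancel₀ hX
    rw [← map_mul, ← hZ' i, ← hZ i]
    conv_rhs => rw [show Nat.find hex = (Nat.find hex - 1) + 1 from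
      (Nat.sub_add_cancel (Nat.pos_of_ne_zero hm)).symm]
    rw [pow_succ]
    ring

theorem pole_theta {DL : L →+ L} (hDL : IsDL F DL)
    (m : ℕ) (y : L) (z : F⟦X⟧) (h : algebraMap F⟦X⟧ L X ^ m * y = algebraMap F⟦X⟧ L z) :
    algebraMap F⟦X⟧ L (X * derivative F z) = (m : L) * algebraMap F⟦X⟧ L z +
      algebraMap F⟦X⟧ L X ^ m * (algebraMap F⟦X⟧ L X * DL y) := by
  set x : L := algebraMap F⟦X⟧ L X with hx
  have h1 : DL 1 = 0 := by
    have h2 := hDL.leib 1 1
    rw [mul_one, one_mul] at h2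
    linear_combination -h2
  have hDx : DL x = 1 := by
    rw [hx, hDL.alg, derivative_X, map_one]
  have hpow : ∀ n : ℕ, x * DL (x ^ n) = (n : L) * x ^ n := by
    intro n
    induction n with
    | zero => rw [pow_zero, h1, mul_zero, Nat.cast_zero, zero_mul]
    | succ n ih =>
      rw [pow_succ, hDL.leib, hDx]
      push_cast
      linear_combination x * ih
  have h2 : DL (x ^ m * y) = algebraMap F⟦X⟧ L (derivative F z) := by rw [h, hDL.alg]
  rw [map_mul, ← h2, hDL.leib, ← h]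
  linear_combination y * hpow m

theorem reg_pole [CharZero F] {DL : L →+ L} (hDL : IsDL F DL) {σ : Type*} [Fintype σ] (Y : σ → L)
    (A : Matrix σ σ F⟦X⟧) (hA : ∀ i j, constantCoeff (A i j) = 0)
    (hY : ∀ i, algebraMap F⟦X⟧ L X * DL (Y i) = ∑ j, algebraMap F⟦X⟧ L (A i j) * Y j) :
    ∃ Z : σ → F⟦X⟧, ∀ i, Y i = algebraMap F⟦X⟧ L (Z i) := by
  have hinj : Function.Injective (algebraMap F⟦X⟧ L) := IsFractionRing.injective F⟦X⟧ L
  rcases pole (F := F) Y with h | ⟨m, Z, hm, hZ, i, hi⟩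
  · exact h
  · exfalso
    apply hi
    have h1 : X * derivative F (Z i) = (m : F⟦X⟧) * Z i + ∑ j, A i j * Z j := by
      apply hinj
      rw [pole_theta hDL m (Y i) (Z i) (hZ i), hY i, map_add, map_mul, map_natCast, map_sum,
        Finset.mul_sum]
      congr 1
      refine Finset.sum_congr rfl fun j _ => ?_
      rw [map_mul, ← hZ j]
      ring
    have h2 := congrArg (constantCoeff (R := F)) h1
    rw [map_mul, constantCoeff_X, zero_mul, map_add, map_mul, map_natCast, map_sum] at h2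
    have h3 : ∑ j, constantCoeff (A i j * Z j) = 0 := by
      refine Finset.sum_eq_zero fun j _ => ?_
      rw [map_mul, hA, zero_mul]
    rw [h3, add_zero] at h2
    have hm' : (m : F) ≠ 0 := Nat.cast_ne_zero.mpr (by omega)
    exact (mul_eq_zero.mp h2.symm).resolve_left hm'

end Poles

end MPadcLZ
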