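import Pool.Agent.Lib.MP_adc574_ag_LZ.LoC
import Pool.Agent.Lib.MP_adc574_ag_LZ.LoC2

/-!
# JOB LoC3: consequences for flat pairings

`j = algebraMap F⟦X⟧ L`; `B i k = ⟨b_i, b_k⟩`, `X D B = Γᵀ B + B Γ`.

* `kerB`: `α = 0`: `flat_B0`. Otherwise multiply by `j X ^ (2 w + 1)` and use `flat_Bw`: `∑ i, z_i (X^(2w+1) B1 i k + c l_i l_k) = X^(2w+1) ∑ z_i B1 i k`.
* `iso`: `w0 i = a0 i * s`, `s = ∑ l0 i * x0 i` (constant coefficients of `hw`). `α = 0`: constant coefficient of `∑ x_i B1_ik w_k = 0`: `∑_i x0 i * c * l0 i * s = c s²` (constant coefficient of `∑_k B1_ik a_k = c l_i`), so `s = 0`. `2α = -(2w+1)`: multiply `∑ w_i B_ik w_k = 0` by `X^(2w+1)`: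
  `X^(2w+1) ∑ w B1 w + c (∑ l_i w_i)² = 0` in `O`; constant coefficients: `c (α s)² = 0`.
-/

set_option autoImplicit false

namespace MPadcLZ

open PowerSeries

namespace Lc

variable {ι : Type} [Fintype ι] [DecidableEq ι] {F : Type*} [Field F] [CharZero F]
  {L : Type*} [Field L] [Algebra F⟦X⟧ L] [IsFractionRing F⟦X⟧ L]

private theorem loc3_inj {F : Type*} [Field F] {L : Type*} [Field L] [Algebra F⟦X⟧ L]
    [IsFractionRing F⟦X⟧ L] : Function.Injective (algebraMap F⟦X⟧ L) :=
  IsFractionRing.injective _ _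

private theorem loc3_X {F : Type*} [Field F] {L : Type*} [Field L] [Algebra F⟦X⟧ L]
    [IsFractionRing F⟦X⟧ L] (n : ℕ) : algebraMap F⟦X⟧ L X ^ n ≠ 0 := by
  refine pow_ne_zero n ?_
  rw [Ne, map_eq_zero_iff _ (loc3_inj (L := L))]
  exact PowerSeries.X_ne_zero

private theorem loc3_alpha {F : Type*} [Field F] [CharZero F] {α : F} {w : ℕ}
    (h : 2 * α = -(2 * (w : F) + 1)) : α ≠ 0 := by
  rintro rfl
  rw [mul_zero] at h
  have h1 : ((2 * w + 1 : ℕ) : F) = 0 := by
    push_cast
    linear_combination h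
  rw [Nat.cast_eq_zero] at h1
  omega

theorem kerB {S : Lc ι F} (hS : S.Ok) {DL : L →+ L} (hDL : IsDL F DL) (B : Matrix ι ι L)
    (hB : ∀ i k, algebraMap F⟦X⟧ L X * DL (B i k) =
      (∑ m, algebraMap _ L (S.Γ m i) * B m k) + ∑ m, B i m * algebraMap _ L (S.Γ m k))
    (hdet : B.det ≠ 0) (z : ι → F⟦X⟧) (hz : ∑ i, S.l i * z i = 0) :
    ∃ T : ι → F⟦X⟧, ∀ k, ∑ i, algebraMap _ L (z i) * B i k = algebraMap _ L (T k) := by
  rcases hS.al with hα | ⟨w, hα⟩
  · obtain ⟨B1, c, -, hB1, -⟩ := flat_B0 hS hDL hα B hB hdet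
    refine ⟨fun k => ∑ i, z i * B1 i k, fun k => ?_⟩
    rw [map_sum]
    exact Finset.sum_congr rfl fun i _ => by rw [hB1, map_mul]
  · obtain ⟨B1, c, -, hB1⟩ := flat_Bw hS hDL w hα B hB hdet
    refine ⟨fun k => ∑ i, z i * B1 i k, fun k => ?_⟩
    apply mul_left_cancel₀ (loc3_X (F := F) (L := L) (2 * w + 1))
    have h1 : algebraMap F⟦X⟧ L X ^ (2 * w + 1) * ∑ i, algebraMap _ L (z i) * B i k =
        algebraMap _ L (∑ i, z i * (X ^ (2 * w + 1) * B1 i k + C c * (S.l i * S.l k))) := by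
      rw [Finset.mul_sum, map_sum]
      refine Finset.sum_congr rfl fun i _ => ?_
      rw [map_mul, ← hB1]
      ring
    have h2 : ∑ i, z i * (X ^ (2 * w + 1) * B1 i k + C c * (S.l i * S.l k)) =
        X ^ (2 * w + 1) * ∑ i, z i * B1 i k + C c * S.l k * ∑ i, S.l i * z i := by
      rw [Finset.mul_sum, Finset.mul_sum, ← Finset.sum_add_distrib]
      exact Finset.sum_congr rfl fun i _ => by ring
    rw [h1, h2, hz, mul_zero, add_zero, map_mul, map_pow]

theorem iso {S : Lc ι F} (hS : S.Ok) {DL : L →+ L} (hDL : IsDL F DL) (B : Matrix ι ι L)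
    (hB : ∀ i k, algebraMap F⟦X⟧ L X * DL (B i k) =
      (∑ m, algebraMap _ L (S.Γ m i) * B m k) + ∑ m, B i m * algebraMap _ L (S.Γ m k))
    (hdet : B.det ≠ 0) (x w : ι → F⟦X⟧)
    (hw : ∀ i, w i = X * derivative F (x i) + ∑ k, S.Γ i k * x k)
    (hxw : ∑ i, ∑ k, algebraMap _ L (x i) * B i k * algebraMap _ L (w k) = 0)
    (hww : ∑ i, ∑ k, algebraMap _ L (w i) * B i k * algebraMap _ L (w k) = 0) :
    ∑ i, S.l0 i * constantCoeff (x i) = 0 := by
  obtain ⟨s, hs⟩ : ∃ s, s = ∑ i, S.l0 i * constantCoeff (x i) := ⟨_, rfl⟩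
  rw [← hs]
  have hw0 : ∀ i, constantCoeff (w i) = S.a0 i * s := by
    intro i
    rw [hw i, map_add, map_mul, constantCoeff_X, zero_mul, zero_add, map_sum, hs, Finset.mul_sum]
    refine Finset.sum_congr rfl fun k _ => ?_
    rw [map_mul, hS.res]
    ring
  rcases hS.al with hα | ⟨n, hα⟩
  · obtain ⟨B1, c, hc, hB1, hBa⟩ := flat_B0 hS hDL hα B hB hdet
    have h1 : ∑ i, ∑ k, x i * B1 i k * w k = 0 := by
      apply loc3_inj (L := L)
      rw [map_zero, ← hxw, map_sum]
      refine Finset.sum_congr rfl fun i _ => ?_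
      rw [map_sum]
      refine Finset.sum_congr rfl fun k _ => ?_
      rw [map_mul, map_mul, hB1]
    have h2 := congrArg constantCoeff h1
    rw [map_zero, map_sum] at h2
    have h3 : ∀ i, ∑ k, constantCoeff (B1 i k) * S.a0 k = c * S.l0 i := by
      intro i
      have h4 := congrArg constantCoeff (hBa i)
      rw [map_sum, map_mul, constantCoeff_C, hS.hl0] at h4
      rw [← h4]
      refine Finset.sum_congr rfl fun k _ => ?_
      rw [map_mul, hS.ha0]
    have h5 : ∑ i, constantCoeff (∑ k, x i * B1 i k * w k) = c * s * s := by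
      have h6 : ∀ i, constantCoeff (∑ k, x i * B1 i k * w k) =
          c * s * (S.l0 i * constantCoeff (x i)) := by
        intro i
        have h7 : constantCoeff (∑ k, x i * B1 i k * w k) =
            constantCoeff (x i) * s * ∑ k, constantCoeff (B1 i k) * S.a0 k := by
          rw [map_sum, Finset.mul_sum]
          refine Finset.sum_congr rfl fun k _ => ?_
          rw [map_mul, map_mul, hw0]
          ring
        rw [h7, h3]
        ring
      rw [Finset.sum_congr rfl fun i _ => h6 i, ← Finset.mul_sum, ← hs]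
    rw [h5] at h2
    rcases mul_eq_zero.1 h2 with h6 | h6
    · exact (mul_eq_zero.1 h6).resolve_left hc
    · exact h6
  · obtain ⟨B1, c, hc, hB1⟩ := flat_Bw hS hDL n hα B hB hdet
    have h1 : ∑ i, ∑ k, w i * (X ^ (2 * n + 1) * B1 i k + C c * (S.l i * S.l k)) * w k = 0 := by
      apply loc3_inj (L := L)
      have h0 : algebraMap F⟦X⟧ L X ^ (2 * n + 1) *
          ∑ i, ∑ k, algebraMap _ L (w i) * B i k * algebraMap _ L (w k) = 0 := by
        rw [hww, mul_zero]
      rw [map_zero, ← h0, map_sum, Finset.mul_sum]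
      refine Finset.sum_congr rfl fun i _ => ?_
      rw [map_sum, Finset.mul_sum]
      refine Finset.sum_congr rfl fun k _ => ?_
      rw [map_mul, map_mul, ← hB1]
      ring
    have h2 := congrArg constantCoeff h1
    rw [map_zero, map_sum] at h2
    have h3 : ∑ i, constantCoeff (∑ k, w i * (X ^ (2 * n + 1) * B1 i k +
        C c * (S.l i * S.l k)) * w k) = c * (S.α * s) * (S.α * s) := by
      have h4 : ∀ i, constantCoeff (∑ k, w i * (X ^ (2 * n + 1) * B1 i k +
          C c * (S.l i * S.l k)) * w k) = c * (S.α * s) * s * (S.l0 i * S.a0 i) := by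
        intro i
        have h7 : constantCoeff (∑ k, w i * (X ^ (2 * n + 1) * B1 i k +
            C c * (S.l i * S.l k)) * w k) =
            S.a0 i * s * (c * S.l0 i) * s * ∑ k, S.l0 k * S.a0 k := by
          rw [map_sum, Finset.mul_sum]
          refine Finset.sum_congr rfl fun k _ => ?_
          rw [map_mul, map_mul, hw0, hw0, map_add, map_mul, map_pow, constantCoeff_X,
            zero_pow (by omega), zero_mul, zero_add, map_mul, map_mul, constantCoeff_C, hS.hl0,
            hS.hl0]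
          ring
        rw [h7, hS.tr]
        ring
      rw [Finset.sum_congr rfl fun i _ => h4 i, ← Finset.mul_sum, hS.tr]
      ring
    rw [h3] at h2
    have hα0 := loc3_alpha hα
    have h5 : S.α * s = 0 := by
      rcases mul_eq_zero.1 h2 with h6 | h6
      · exact (mul_eq_zero.1 h6).resolve_left hc
      · exact h6
    exact (mul_eq_zero.1 h5).resolve_left hα0

end Lc

end MPadcLZ
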