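import Pool.Agent.Lib.MP_adc574_ag_LZ.Intf
import Pool.Agent.Lib.MP_adc574_ag_LZ.FrD
import Pool.Agent.Lib.MP_adc574_ag_LZ.LoA
import Pool.Agent.Lib.MP_adc574_ag_LP.Place

/-!
# JOB LoD: regular rational functions, expansion at a point

`RegAt τ g` (Intf): `∃ a b : κ[t], b(τ) ≠ 0, b g = a`.

* The arithmetic lemmas: multiply numerators and denominators. `RegAt.DK`: `b g = a`, so `b g' = a' - b' g`, `b² g' = a' b - a b'` (`DK_poly`).
* `exists_jt`: the extension of the injective `κ[t] → κ⟦X⟧ → Frac` (`MPadcLP.pl`, `pl_injective`) to `κ(t)`: `IsFractionRing.lift` or `RatFunc.liftRingHom`.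
* `jt_X`: `jt_poly` for `Polynomial.X - Polynomial.C τ`; `pl κ τ (X - C τ) = X`.
* `regAt_iff`: `→`: `pl b` is a unit of `κ⟦X⟧` (constant coefficient `b(τ)`: `MPadcLP.constantCoeff_pl`, `Polynomial.coe_aeval_eq_eval`). `←`: `g = num / denom` (`RatFunc.num_div_denom`), `s * pl denom = pl num`; if `denom(τ) = 0` then
  `num(τ) = 0`, contradiction to `RatFunc.isCoprime_num_denom`. So `a = num`, `b = denom`.
* `exists_DX`: `exists_exD` (FrD) for `d / dX` as a `Derivation ℤ κ⟦X⟧ κ⟦X⟧` (`Derivation.mk'` of `(PowerSeries.derivative κ).toLinearMap.toAddMonoidHom.toIntLinearMap` if the instances make trouble); take the additive map.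
* `jt_DK`: `b g = a` with `a = num`, `b = denom` gives in `κ(t)`: `a' = b g' + g b'` and in `L`: `jt a' = jt b * DX (jt g) + jt g * jt b'` (`pl_derivative`); cancel `jt b ≠ 0`.
-/

set_option autoImplicit false

namespace MPadcLZ

open MPadcHM

universe u

variable {κ : Type u} [Field κ]

theorem regAt_poly (τ : κ) (p : Polynomial κ) :
    RegAt τ (algebraMap (Polynomial κ) (RatFunc κ) p) := ⟨p, 1, by simp, by simp⟩

theorem regAt_alg (τ a : κ) : RegAt τ (algebraMap κ (RatFunc κ) a) := by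
  rw [IsScalarTower.algebraMap_apply κ (Polynomial κ) (RatFunc κ) a]
  exact regAt_poly τ _

theorem RegAt.add {τ : κ} {c c' : RatFunc κ} (h : RegAt τ c) (h' : RegAt τ c') :
    RegAt τ (c + c') := by
  obtain ⟨a, b, hb, h1⟩ := h
  obtain ⟨a', b', hb', h1'⟩ := h'
  refine ⟨a * b' + a' * b, b * b', ?_, ?_⟩
  · rw [Polynomial.eval_mul]
    exact mul_ne_zero hb hb'
  · rw [map_add, map_mul, map_mul, map_mul, ← h1, ← h1']
    ring

theorem RegAt.mul {τ : κ} {c c' : RatFunc κ} (h : RegAt τ c) (h' : RegAt τ c') :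
    RegAt τ (c * c') := by
  obtain ⟨a, b, hb, h1⟩ := h
  obtain ⟨a', b', hb', h1'⟩ := h'
  refine ⟨a * a', b * b', ?_, ?_⟩
  · rw [Polynomial.eval_mul]
    exact mul_ne_zero hb hb'
  · rw [map_mul, map_mul, ← h1, ← h1']
    ring

theorem RegAt.neg {τ : κ} {c : RatFunc κ} (h : RegAt τ c) : RegAt τ (-c) := by
  obtain ⟨a, b, hb, h1⟩ := h
  refine ⟨-a, b, hb, ?_⟩
  rw [map_neg, ← h1]
  ring

theorem RegAt.sub {τ : κ} {c c' : RatFunc κ} (h : RegAt τ c) (h' : RegAt τ c') :
    RegAt τ (c - c') := by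
  rw [sub_eq_add_neg]
  exact h.add h'.neg

theorem RegAt.sum {τ : κ} {ι : Type*} (s : Finset ι) {c : ι → RatFunc κ}
    (h : ∀ i ∈ s, RegAt τ (c i)) : RegAt τ (∑ i ∈ s, c i) := by
  classical
  induction s using Finset.induction_on with
  | empty =>
    rw [Finset.sum_empty, ← map_zero (algebraMap (Polynomial κ) (RatFunc κ))]
    exact regAt_poly τ 0
  | insert i s hi ih =>
    rw [Finset.sum_insert hi]
    exact (h i (Finset.mem_insert_self i s)).add
      (ih fun j hj => h j (Finset.mem_insert_of_mem hj))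

private theorem lod_DK {a b : Polynomial κ} {c : RatFunc κ}
    (h : algebraMap (Polynomial κ) (RatFunc κ) b * c = algebraMap (Polynomial κ) (RatFunc κ) a) :
    algebraMap (Polynomial κ) (RatFunc κ) b * MPadcHM.DK κ c +
      c * algebraMap (Polynomial κ) (RatFunc κ) (Polynomial.derivative b) =
      algebraMap (Polynomial κ) (RatFunc κ) (Polynomial.derivative a) := by
  have h1 := congrArg (MPadcHM.DK κ) h
  rw [Derivation.leibniz, MPadcHM.DK_poly, MPadcHM.DK_poly, smul_eq_mul, smul_eq_mul] at h1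
  exact h1

theorem RegAt.DK {τ : κ} {c : RatFunc κ} (h : RegAt τ c) : RegAt τ (MPadcHM.DK κ c) := by
  obtain ⟨a, b, hb, h1⟩ := h
  have h2 := lod_DK h1
  refine ⟨Polynomial.derivative a * b - a * Polynomial.derivative b, b * b, ?_, ?_⟩
  · rw [Polynomial.eval_mul]
    exact mul_ne_zero hb hb
  · rw [map_sub, map_mul, map_mul, map_mul, ← h2, ← h1]
    ring

/-- `RegAt` can be checked after multiplication by a unit. -/
theorem RegAt.of_mul {τ : κ} {c : RatFunc κ} {q : Polynomial κ} (hq : q.eval τ ≠ 0)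
    (h : RegAt τ (algebraMap (Polynomial κ) (RatFunc κ) q * c)) : RegAt τ c := by
  obtain ⟨a, b, hb, h1⟩ := h
  refine ⟨a, b * q, ?_, ?_⟩
  · rw [Polynomial.eval_mul]
    exact mul_ne_zero hb hq
  · rw [map_mul, mul_assoc]
    exact h1

theorem exists_jt (τ : κ) : ∃ j : RatFunc κ →+* FractionRing (PowerSeries κ),
    ∀ p : Polynomial κ, j (algebraMap (Polynomial κ) (RatFunc κ) p) =
      algebraMap (PowerSeries κ) (FractionRing (PowerSeries κ)) (MPadcLP.pl κ τ p) := by
  have hg : Function.Injective ((algebraMap (PowerSeries κ) (FractionRing (PowerSeries κ))).comp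
      (MPadcLP.pl κ τ)) := by
    rw [RingHom.coe_comp]
    exact (IsFractionRing.injective (PowerSeries κ) (FractionRing (PowerSeries κ))).comp
      (MPadcLP.pl_injective τ)
  exact ⟨IsFractionRing.lift hg, fun p => IsFractionRing.lift_algebraMap hg p⟩

/-- The expansion at `τ`: `t ↦ τ + X`. -/
noncomputable def jt (τ : κ) : RatFunc κ →+* FractionRing (PowerSeries κ) :=
  Classical.choose (exists_jt τ)

theorem jt_poly (τ : κ) (p : Polynomial κ) : jt τ (algebraMap (Polynomial κ) (RatFunc κ) p) =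
    algebraMap (PowerSeries κ) (FractionRing (PowerSeries κ)) (MPadcLP.pl κ τ p) :=
  Classical.choose_spec (exists_jt τ) p

theorem pl_X_sub (τ : κ) :
    MPadcLP.pl κ τ (Polynomial.X - Polynomial.C τ) = (PowerSeries.X : PowerSeries κ) := by
  simp [MPadcLP.pl]

theorem jt_alg (τ a : κ) : jt τ (algebraMap κ (RatFunc κ) a) =
    algebraMap (PowerSeries κ) (FractionRing (PowerSeries κ)) (PowerSeries.C a) := by
  rw [IsScalarTower.algebraMap_apply κ (Polynomial κ) (RatFunc κ) a, jt_poly]
  simp [MPadcLP.pl]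

private theorem lod_cc (τ : κ) (p : Polynomial κ) :
    PowerSeries.constantCoeff (MPadcLP.pl κ τ p) = p.eval τ := by
  rw [MPadcLP.constantCoeff_pl, Polynomial.coe_aeval_eq_eval]

private theorem lod_num (c : RatFunc κ) :
    algebraMap (Polynomial κ) (RatFunc κ) c.denom * c =
      algebraMap (Polynomial κ) (RatFunc κ) c.num := by
  have h0 : algebraMap (Polynomial κ) (RatFunc κ) c.denom ≠ 0 :=
    RatFunc.algebraMap_ne_zero c.denom_ne_zero
  have h1 := RatFunc.num_div_denom c
  rw [div_eq_iff h0] at h1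
  rw [h1, mul_comm]

theorem regAt_iff (τ : κ) (c : RatFunc κ) : RegAt τ c ↔
    ∃ s : PowerSeries κ, jt τ c =
      algebraMap (PowerSeries κ) (FractionRing (PowerSeries κ)) s := by
  constructor
  · rintro ⟨a, b, hb, h⟩
    have hu : IsUnit (MPadcLP.pl κ τ b) := by
      rw [PowerSeries.isUnit_iff_constantCoeff, lod_cc]
      exact isUnit_iff_ne_zero.2 hb
    obtain ⟨v, hv⟩ := hu.exists_right_inv
    refine ⟨v * MPadcLP.pl κ τ a, ?_⟩
    have h1 := congrArg (jt τ) h
    rw [map_mul, jt_poly, jt_poly] at h1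
    rw [map_mul, ← h1, ← mul_assoc, ← map_mul, mul_comm v, hv, map_one, one_mul]
  · rintro ⟨s, hs⟩
    have h0 := lod_num c
    refine ⟨c.num, c.denom, ?_, h0⟩
    intro h1
    have h2 := congrArg (jt τ) h0
    rw [map_mul, jt_poly, jt_poly, hs, ← map_mul] at h2
    have h3 := IsFractionRing.injective (PowerSeries κ) (FractionRing (PowerSeries κ)) h2
    have h4 := congrArg PowerSeries.constantCoeff h3
    rw [map_mul, lod_cc, lod_cc, h1, zero_mul] at h4
    obtain ⟨u, v, huv⟩ := RatFunc.isCoprime_num_denom c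
    have h5 := congrArg (Polynomial.eval τ) huv
    rw [Polynomial.eval_add, Polynomial.eval_mul, Polynomial.eval_mul, h1, ← h4, mul_zero,
      mul_zero, add_zero, Polynomial.eval_one] at h5
    exact zero_ne_one h5

private theorem lod_ext {S : Type*} [CommRing S] [IsDomain S] (δ : S →+ S)
    (hδ : ∀ a b, δ (a * b) = a * δ b + b * δ a) :
    ∃ DX : FractionRing S →+ FractionRing S,
      (∀ a b, DX (a * b) = a * DX b + b * DX a) ∧
      ∀ s, DX (algebraMap S (FractionRing S) s) = algebraMap S (FractionRing S) (δ s) := by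
  obtain ⟨D', hD'⟩ := exists_exD (Derivation.mk' δ.toIntLinearMap hδ)
  exact ⟨D'.toLinearMap.toAddMonoidHom, fun a b => D'.leibniz a b, hD'⟩

/-- `d / dX` on Laurent series. -/
theorem exists_DX (κ : Type u) [Field κ] :
    ∃ DX : FractionRing (PowerSeries κ) →+ FractionRing (PowerSeries κ), IsDL κ DX := by
  obtain ⟨DX, h1, h2⟩ := lod_ext (PowerSeries.derivative κ).toLinearMap.toAddMonoidHom
    (fun a b => (PowerSeries.derivative κ).leibniz a b)
  exact ⟨DX, h1, h2⟩

theorem jt_DK {DX : FractionRing (PowerSeries κ) →+ FractionRing (PowerSeries κ)}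
    (hDX : IsDL κ DX) (τ : κ) (c : RatFunc κ) : DX (jt τ c) = jt τ (MPadcHM.DK κ c) := by
  have hp : ∀ p : Polynomial κ, DX (jt τ (algebraMap (Polynomial κ) (RatFunc κ) p)) =
      jt τ (algebraMap (Polynomial κ) (RatFunc κ) (Polynomial.derivative p)) := by
    intro p
    rw [jt_poly, jt_poly, hDX.alg, MPadcLP.pl_derivative]
  have h0 := lod_num c
  have h1 := congrArg (jt τ) (lod_DK h0)
  rw [map_add, map_mul, map_mul] at h1
  have h2 := congrArg (fun x => DX (jt τ x)) h0
  simp only [map_mul] at h2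
  rw [hDX.leib, hp, hp, ← h1] at h2
  have h3 := add_right_cancel h2
  refine mul_left_cancel₀ ?_ h3
  rw [Ne, map_eq_zero]
  exact RatFunc.algebraMap_ne_zero c.denom_ne_zero

end MPadcLZ
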