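import Pool.Agent.Lib.MP_adc574_ag_LZ.LoD

/-!
# JOB LoE: a basis of the lattice, coordinates

* `exists_LB`: `E` is finitely generated and torsion free over the PID `κ[t]` (`Mo` is a `κ(t)`-vector space, `IsScalarTower`), so free: `Module.basisOfFiniteTypeTorsionFree'`
  or `Module.free_of_finite_type_torsion_free'` / `Module.Free.chooseBasis`, reindexed by `Fin r`. The basis vectors are linearly independent over `κ(t)` (`LinearIndependent.iff_fractionRing`, after `LinearIndependent.map'` along `E.subtype`) and span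
  (`spn`: `q • x ∈ E`, `x = q⁻¹ • (q • x)`): `Module.Basis.mk`. `x ∈ E ↔` polynomial coordinates: `→` expand in the basis of `E`; `←` `x = ∑ (b.repr x i) • b i`.
* `near_iff`: `→`: `b.repr (q • x) i = q * b.repr x i` is a polynomial. `←`: the product of the denominators.
* `repr_nab`: expand `x = ∑ b.repr x k • b k`, `leib`. `coord_e`: `e (nab (b k)) = nab (e (b k))` in coordinates. `coord_B`: `flat`, expand `nab (b i)`, `nab (b k)`.
* `gram_det`: `Matrix.exists_vecMul_eq_zero_iff` (or `exists_mulVec...`): `det = 0` gives `v ≠ 0` with `∑ i, v i * B (b i) (b k) = 0` for all `k`, so `B (∑ v i • b i) y = 0` for all `y`, `ndL`.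
* `reg_con`: `near_iff` (`b k ∈ E`: its coordinates are `0`, `1`).
-/

set_option autoImplicit false

namespace MPadcLZ

open MPadcHM

universe u

variable {κ : Type u} [Field κ] {Mo : Type u} [AddCommGroup Mo] [Module (RatFunc κ) Mo]
  [Module (Polynomial κ) Mo] [IsScalarTower (Polynomial κ) (RatFunc κ) Mo] {nab : Mo →+ Mo}
  {E : Submodule (Polynomial κ) Mo}

/-- `b` is a basis of the lattice `E`. -/
def LB (E : Submodule (Polynomial κ) Mo) {r : ℕ} (b : Module.Basis (Fin r) (RatFunc κ) Mo) : Prop :=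
  ∀ x, x ∈ E ↔ ∀ i, ∃ p : Polynomial κ, b.repr x i = algebraMap (Polynomial κ) (RatFunc κ) p

private theorem loe_smul {κ : Type u} [Field κ] {Mo : Type u} [AddCommGroup Mo]
    [Module (RatFunc κ) Mo] [Module (Polynomial κ) Mo]
    [IsScalarTower (Polynomial κ) (RatFunc κ) Mo] (q : Polynomial κ) (x : Mo) :
    q • x = algebraMap (Polynomial κ) (RatFunc κ) q • x := (algebraMap_smul (RatFunc κ) q x).symm

theorem exists_LB (fg : E.FG) (spn : ∀ x : Mo, ∃ q : Polynomial κ, q ≠ 0 ∧ q • x ∈ E) :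
    ∃ (r : ℕ) (b : Module.Basis (Fin r) (RatFunc κ) Mo), LB E b := by
  have hfin : Module.Finite (Polynomial κ) E := Module.Finite.iff_fg.2 fg
  have htf : Module.IsTorsionFree (Polynomial κ) Mo :=
    Module.IsTorsionFree.trans_faithfulSMul (Polynomial κ) (RatFunc κ) Mo
  obtain ⟨r, bE⟩ := Module.basisOfFiniteTypeTorsionFree' (R := Polynomial κ) (M := E)
  have hli0 : LinearIndependent (Polynomial κ) (fun i => ((bE i : E) : Mo)) :=
    bE.linearIndependent.map' E.subtype (Submodule.ker_subtype E)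
  have hli : LinearIndependent (RatFunc κ) (fun i => ((bE i : E) : Mo)) :=
    (LinearIndependent.iff_fractionRing (Polynomial κ) (RatFunc κ)).1 hli0
  have hE : ∀ x ∈ E, ∃ c : Fin r → Polynomial κ, x = ∑ i, c i • ((bE i : E) : Mo) := by
    intro x hx
    refine ⟨fun i => bE.repr ⟨x, hx⟩ i, ?_⟩
    have h1 := congrArg (fun y : E => (y : Mo)) (bE.sum_repr ⟨x, hx⟩)
    have h2 : ((∑ i, bE.repr ⟨x, hx⟩ i • bE i : E) : Mo) =
        ∑ i, bE.repr ⟨x, hx⟩ i • ((bE i : E) : Mo) := by
      rw [Submodule.coe_sum]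
      rfl
    rw [← h2]
    exact h1.symm
  have hspan : ⊤ ≤ Submodule.span (RatFunc κ) (Set.range fun i => ((bE i : E) : Mo)) := by
    intro x _
    obtain ⟨q, hq, hqx⟩ := spn x
    obtain ⟨c, hc⟩ := hE _ hqx
    have hq' : algebraMap (Polynomial κ) (RatFunc κ) q ≠ 0 := by
      rw [Ne, map_eq_zero_iff _ (IsFractionRing.injective (Polynomial κ) (RatFunc κ))]
      exact hq
    have h1 : x = (algebraMap (Polynomial κ) (RatFunc κ) q)⁻¹ • (q • x) := by
      rw [loe_smul, smul_smul, inv_mul_cancel₀ hq', one_smul]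
    rw [h1, hc]
    refine Submodule.smul_mem _ _ (Submodule.sum_mem _ fun i _ => ?_)
    rw [loe_smul]
    exact Submodule.smul_mem _ _ (Submodule.subset_span ⟨i, rfl⟩)
  obtain ⟨b, hb⟩ : ∃ b : Module.Basis (Fin r) (RatFunc κ) Mo, ∀ i, b i = ((bE i : E) : Mo) :=
    ⟨Module.Basis.mk hli hspan, fun i => by rw [Module.Basis.mk_apply]⟩
  refine ⟨r, b, fun x => ⟨fun hx i => ?_, fun hx => ?_⟩⟩
  · obtain ⟨c, hc⟩ := hE x hx
    refine ⟨c i, ?_⟩
    have h1 : x = ∑ i, algebraMap (Polynomial κ) (RatFunc κ) (c i) • b i := by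
      rw [hc]
      exact Finset.sum_congr rfl fun i _ => by rw [hb, loe_smul]
    rw [h1, b.repr_sum_self]
  · choose p hp using hx
    rw [← b.sum_repr x]
    refine Submodule.sum_mem _ fun i _ => ?_
    rw [hp, ← loe_smul, hb]
    exact Submodule.smul_mem _ _ (bE i).2

variable {r : ℕ} {b : Module.Basis (Fin r) (RatFunc κ) Mo}

theorem near_iff (hb : LB E b) (τ : κ) (x : Mo) :
    NearIn E τ x ↔ ∀ i, RegAt τ (b.repr x i) := by
  constructor
  · rintro ⟨q, hq, hqx⟩ i
    obtain ⟨p, hp⟩ := (hb _).1 hqx i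
    refine ⟨p, q, hq, ?_⟩
    rw [← hp, loe_smul, map_smul, Finsupp.smul_apply, smul_eq_mul]
  · intro h
    choose a c hc hac using h
    refine ⟨∏ i, c i, ?_, ?_⟩
    · rw [Polynomial.eval_prod]
      exact Finset.prod_ne_zero_iff.2 fun i _ => hc i
    · rw [hb]
      intro i
      refine ⟨(∏ l ∈ Finset.univ.erase i, c l) * a i, ?_⟩
      rw [loe_smul, map_smul, Finsupp.smul_apply, smul_eq_mul, map_mul, ← hac, ← mul_assoc,
        ← map_mul, Finset.prod_erase_mul _ _ (Finset.mem_univ i)]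

theorem repr_nab (leib : ∀ (c : RatFunc κ) (x : Mo), nab (c • x) = DK κ c • x + c • nab x)
    (b : Module.Basis (Fin r) (RatFunc κ) Mo) (x : Mo) (i : Fin r) :
    b.repr (nab x) i = DK κ (b.repr x i) + ∑ k, b.repr (nab (b k)) i * b.repr x k := by
  have h1 : nab x = ∑ k, (DK κ (b.repr x k) • b k + b.repr x k • nab (b k)) := by
    have h2 : nab x = nab (∑ k, b.repr x k • b k) := by rw [b.sum_repr]
    rw [h2, map_sum]
    exact Finset.sum_congr rfl fun k _ => leib _ _
  rw [h1, Finset.sum_add_distrib, map_add, Finsupp.add_apply, b.repr_sum_self]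
  congr 1
  rw [map_sum, Finset.sum_apply']
  refine Finset.sum_congr rfl fun k _ => ?_
  rw [map_smul, Finsupp.smul_apply, smul_eq_mul, mul_comm]

omit [Module (Polynomial κ) Mo] [IsScalarTower (Polynomial κ) (RatFunc κ) Mo] in
private theorem loe_repr_e (b : Module.Basis (Fin r) (RatFunc κ) Mo)
    (e : Mo →ₗ[RatFunc κ] Mo) (x : Mo)
    (i : Fin r) : b.repr (e x) i = ∑ k, b.repr (e (b k)) i * b.repr x k := by
  have h1 : e x = ∑ k, b.repr x k • e (b k) := by
    have h2 : e x = e (∑ k, b.repr x k • b k) := by rw [b.sum_repr]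
    rw [h2, map_sum]
    exact Finset.sum_congr rfl fun k _ => map_smul _ _ _
  rw [h1, map_sum, Finset.sum_apply']
  refine Finset.sum_congr rfl fun k _ => ?_
  rw [map_smul, Finsupp.smul_apply, smul_eq_mul, mul_comm]

theorem coord_e (leib : ∀ (c : RatFunc κ) (x : Mo), nab (c • x) = DK κ c • x + c • nab x)
    (b : Module.Basis (Fin r) (RatFunc κ) Mo) (e : Mo →ₗ[RatFunc κ] Mo)
    (he : ∀ x, e (nab x) = nab (e x)) (i k : Fin r) :
    DK κ (b.repr (e (b k)) i) = (∑ m, b.repr (e (b m)) i * b.repr (nab (b k)) m) -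
      ∑ m, b.repr (nab (b m)) i * b.repr (e (b k)) m := by
  have h1 := repr_nab leib b (e (b k)) i
  rw [← he, loe_repr_e b e (nab (b k)) i] at h1
  linear_combination -h1

theorem repr_e (b : Module.Basis (Fin r) (RatFunc κ) Mo) (e : Mo →ₗ[RatFunc κ] Mo) (x : Mo)
    (i : Fin r) : b.repr (e x) i = ∑ k, b.repr (e (b k)) i * b.repr x k := by
  exact loe_repr_e b e x i

theorem coord_B (b : Module.Basis (Fin r) (RatFunc κ) Mo)
    (B : Mo →ₗ[RatFunc κ] Mo →ₗ[RatFunc κ] RatFunc κ)
    (flat : ∀ x y, DK κ (B x y) = B (nab x) y + B x (nab y)) (i k : Fin r) :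
    DK κ (B (b i) (b k)) = (∑ m, b.repr (nab (b i)) m * B (b m) (b k)) +
      ∑ m, B (b i) (b m) * b.repr (nab (b k)) m := by
  rw [flat]
  have h1 : B (nab (b i)) (b k) = ∑ m, b.repr (nab (b i)) m * B (b m) (b k) := by
    have h2 : B (nab (b i)) (b k) = B (∑ m, b.repr (nab (b i)) m • b m) (b k) := by
      rw [b.sum_repr]
    rw [h2, map_sum, LinearMap.sum_apply]
    exact Finset.sum_congr rfl fun m _ => by rw [map_smul, LinearMap.smul_apply, smul_eq_mul]
  have h3 : B (b i) (nab (b k)) = ∑ m, B (b i) (b m) * b.repr (nab (b k)) m := by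
    have h2 : B (b i) (nab (b k)) = B (b i) (∑ m, b.repr (nab (b k)) m • b m) := by
      rw [b.sum_repr]
    rw [h2, map_sum]
    exact Finset.sum_congr rfl fun m _ => by rw [map_smul, smul_eq_mul, mul_comm]
  rw [h1, h3]

theorem B_coord (b : Module.Basis (Fin r) (RatFunc κ) Mo)
    (B : Mo →ₗ[RatFunc κ] Mo →ₗ[RatFunc κ] RatFunc κ) (x y : Mo) :
    B x y = ∑ i, ∑ k, b.repr x i * B (b i) (b k) * b.repr y k := by
  have h1 : B x y = B (∑ i, b.repr x i • b i) (∑ k, b.repr y k • b k) := by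
    rw [b.sum_repr, b.sum_repr]
  have h2 : B (∑ i, b.repr x i • b i) = ∑ i, b.repr x i • B (b i) := by
    rw [map_sum]
    exact Finset.sum_congr rfl fun i _ => map_smul _ _ _
  rw [h1, h2, LinearMap.sum_apply]
  refine Finset.sum_congr rfl fun i _ => ?_
  rw [map_sum]
  refine Finset.sum_congr rfl fun k _ => ?_
  rw [map_smul, LinearMap.smul_apply, smul_eq_mul, smul_eq_mul]
  ring

theorem gram_det (b : Module.Basis (Fin r) (RatFunc κ) Mo)
    (B : Mo →ₗ[RatFunc κ] Mo →ₗ[RatFunc κ] RatFunc κ) (ndL : ∀ x, (∀ y, B x y = 0) → x = 0) :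
    (Matrix.of fun i k => B (b i) (b k)).det ≠ 0 := by
  intro hdet
  obtain ⟨v, hv, hv0⟩ := Matrix.exists_vecMul_eq_zero_iff.2 hdet
  apply hv
  have h1 : ∀ k, B (∑ i, v i • b i) (b k) = 0 := by
    intro k
    refine Eq.trans ?_ (congrFun hv0 k)
    rw [map_sum, LinearMap.sum_apply]
    refine Finset.sum_congr rfl fun i _ => ?_
    rw [map_smul, LinearMap.smul_apply, smul_eq_mul]
    rfl
  have h3 : ∑ i, v i • b i = 0 := by
    refine ndL _ fun y => ?_
    rw [← b.sum_repr y, map_sum]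
    refine Finset.sum_eq_zero fun k _ => ?_
    rw [map_smul, h1, smul_zero]
  funext i
  have h4 := congrArg (fun x => b.repr x i) h3
  simp only [b.repr_sum_self, map_zero, Finsupp.zero_apply] at h4
  exact h4

theorem reg_con (hb : LB E b) {τ : κ} (hst : StabAt nab E τ) (i k : Fin r) :
    RegAt τ (b.repr (nab (b k)) i) := by
  refine (near_iff hb τ _).1 (hst (b k) ?_) i
  rw [hb]
  intro l
  rw [b.repr_self, Finsupp.single_apply]
  split_ifs
  · exact ⟨1, (map_one _).symm⟩
  · exact ⟨0, (map_zero _).symm⟩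

end MPadcLZ
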