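import Pool.Agent.Lib.MP_adc574_ag_LZ.LoE2
import Pool.Agent.Lib.MP_adc574_ag_LZ.LoC3

/-!
# JOB LoF: assembly at a node

`L = FractionRing κ⟦X⟧`, `j = algebraMap κ⟦X⟧ L`, `DX` from `exists_DX`. Put `T0 = {x | ∃ z : Fin r → κ⟦X⟧, (∀ i, jt τ (b.repr x i) = j (z i)) ∧ ∑ i, S.l i * z i = 0}`, a `κ[t]`-submodule (`jt_poly`).
* `Cl.stab`: `repr_nab`, `jt_DK`, `IsDL.alg`, `Lc.kerl` (multiply by `j X`, cancel). `Cl.sat`: `pl q` is a unit (`constantCoeff_pl`), divide.
* `∀ x ∈ T0, NearIn`: `near_iff`, `regAt_iff`.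
* flat `e`: the matrix `jt τ (b.repr (e (b k)) i)` satisfies the hypothesis of `Lc.flat_e` (`coord_e`, `jt_DK`, `hΓ`): `e1`, `ε`. For `x ∈ E` with polynomial coordinates `p k`: `jt (b.repr (e x) i) = j (∑ k, e1 i k * pl (p k))` (`repr_e`), so
  `z i = ∑ k, e1 i k * pl (p k) - C ε * pl (p i)` works: `∑ l i z i = ∑ k (ε l k) pl (p k) - ε ∑ l i pl (p i) = 0`. (`jt_alg`.)
* flat `h`: `Lc.flat_h` with `h i = jt τ (b.repr h i)` (`repr_nab` with `nab h = 0`).
* `RegAt τ (B z x)`: `Lc.kerB` with the matrix `jt τ (B (b i) (b k))` (`coord_B`; its determinant is the image of `gram_det`, `RingHom.map_det`, `map_ne_zero`), `B_coord`, `regAt_iff`.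
* isotropy: `x ∈ R ∩ E` with polynomial coordinates, `x_i = pl (p i)`, `w_i = X * derivative (x_i) + ∑ Γ i k * x_k`, which are the coordinates of `w = (t - τ) • nab x ∈ R` (`jt τ (X - C τ) = j X`: `jt_poly`, `pl_X_sub`). `B x w = 0`, `B w w = 0`: `Lc.iso`, `near_of_lx`.
-/

set_option autoImplicit false

namespace MPadcLZ

open MPadcHM

universe u

variable {κ : Type u} [Field κ] [CharZero κ] {Mo : Type u} [AddCommGroup Mo]
  [Module (RatFunc κ) Mo]
  [Module (Polynomial κ) Mo] [IsScalarTower (Polynomial κ) (RatFunc κ) Mo] {nab : Mo →+ Mo}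
  {E : Submodule (Polynomial κ) Mo} {r : ℕ} {b : Module.Basis (Fin r) (RatFunc κ) Mo}

theorem loc_node (leib : ∀ (c : RatFunc κ) (x : Mo), nab (c • x) = DK κ c • x + c • nab x)
    (hb : LB E b) (τ : κ) (S : Lc (Fin r) κ) (hS : S.Ok)
    (hΓ : ∀ i k, algebraMap (PowerSeries κ) (FractionRing (PowerSeries κ)) PowerSeries.X *
        jt τ (b.repr (nab (b k)) i) =
          algebraMap (PowerSeries κ) (FractionRing (PowerSeries κ)) (S.Γ i k))
    (B : Mo →ₗ[RatFunc κ] Mo →ₗ[RatFunc κ] RatFunc κ)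
    (flat : ∀ x y, DK κ (B x y) = B (nab x) y + B x (nab y))
    (ndL : ∀ x, (∀ y, B x y = 0) → x = 0) :
    ∃ T0 : Submodule (Polynomial κ) Mo, Cl nab τ T0 ∧ (∀ x ∈ T0, NearIn E τ x) ∧
      (∀ e : Mo →ₗ[RatFunc κ] Mo, (∀ x, e (nab x) = nab (e x)) → ∃ eps : κ,
        ∀ x ∈ E, e x - algebraMap κ (RatFunc κ) eps • x ∈ T0) ∧
      (∀ h, nab h = 0 → h ∈ T0) ∧ (∀ z ∈ T0, ∀ x ∈ E, RegAt τ (B z x)) ∧
      ∀ R : Submodule (RatFunc κ) Mo, (∀ x ∈ R, nab x ∈ R) → (∀ x ∈ R, ∀ y ∈ R, B x y = 0) →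
        ∀ x ∈ R, x ∈ E → NearIn E τ (nab x) := by
  classical
  obtain ⟨DX, hDX⟩ := exists_DX κ
  have hjX : algebraMap (PowerSeries κ) (FractionRing (PowerSeries κ)) PowerSeries.X ≠ 0 := by
    intro h
    exact PowerSeries.X_ne_zero ((map_eq_zero_iff _ (IsFractionRing.injective (PowerSeries κ) (FractionRing (PowerSeries κ)))).1 h)
  have hsm : ∀ (q : Polynomial κ) (x : Mo) (i : Fin r),
      b.repr (q • x) i = algebraMap (Polynomial κ) (RatFunc κ) q * b.repr x i := by
    intro q x i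
    rw [← algebraMap_smul (RatFunc κ) q x, map_smul, Finsupp.smul_apply, smul_eq_mul]
  -- the coordinates of `nab x`
  have F2 : ∀ (x : Mo) (z : Fin r → PowerSeries κ),
      (∀ i, jt τ (b.repr x i) = algebraMap (PowerSeries κ) (FractionRing (PowerSeries κ)) (z i)) →
      ∀ i, algebraMap (PowerSeries κ) (FractionRing (PowerSeries κ)) PowerSeries.X *
        jt τ (b.repr (nab x) i) = algebraMap (PowerSeries κ) (FractionRing (PowerSeries κ))
          (PowerSeries.X * PowerSeries.derivative κ (z i) + ∑ k, S.Γ i k * z k) := by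
    intro x z hz i
    rw [repr_nab leib b x i, map_add, ← jt_DK hDX, hz i, hDX.alg, map_sum, mul_add, Finset.mul_sum,
      map_add, map_mul, map_sum]
    congr 1
    refine Finset.sum_congr rfl fun k _ => ?_
    rw [map_mul, ← mul_assoc, hΓ i k, hz k, map_mul]
  obtain ⟨T0, hT0⟩ : ∃ T0 : Submodule (Polynomial κ) Mo, ∀ x, x ∈ T0 ↔ ∃ z : Fin r → PowerSeries κ,
      (∀ i, jt τ (b.repr x i) = algebraMap (PowerSeries κ) (FractionRing (PowerSeries κ)) (z i)) ∧
        ∑ i, S.l i * z i = 0 := by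
    refine ⟨⟨⟨⟨{x | ∃ z : Fin r → PowerSeries κ,
      (∀ i, jt τ (b.repr x i) = algebraMap (PowerSeries κ) (FractionRing (PowerSeries κ)) (z i)) ∧
        ∑ i, S.l i * z i = 0}, ?_⟩, ?_⟩, ?_⟩, fun x => Iff.rfl⟩
    · rintro x y ⟨z, hz, hz0⟩ ⟨z', hz', hz0'⟩
      refine ⟨fun i => z i + z' i, fun i => ?_, ?_⟩
      · rw [map_add, Finsupp.add_apply, map_add, hz i, hz' i, map_add]
      · simp only [mul_add, Finset.sum_add_distrib]
        rw [hz0, hz0', add_zero]
    · refine ⟨fun _ => 0, fun i => ?_, ?_⟩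
      · rw [map_zero, Finsupp.zero_apply, map_zero, map_zero]
      · simp
    · rintro q x ⟨z, hz, hz0⟩
      refine ⟨fun i => MPadcLP.pl κ τ q * z i, fun i => ?_, ?_⟩
      · rw [hsm, map_mul, jt_poly, hz i, map_mul]
      · have e : ∑ i, S.l i * (MPadcLP.pl κ τ q * z i) = MPadcLP.pl κ τ q * ∑ i, S.l i * z i := by
          rw [Finset.mul_sum]
          refine Finset.sum_congr rfl fun i _ => ?_
          ring
        rw [e, hz0, mul_zero]
  -- the Gram matrix
  obtain ⟨Bm, hBm⟩ : ∃ Bm : Matrix (Fin r) (Fin r) (FractionRing (PowerSeries κ)),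
      ∀ i k, Bm i k = jt τ (B (b i) (b k)) := ⟨Matrix.of fun i k => jt τ (B (b i) (b k)), fun i k => rfl⟩
  have hBeq : ∀ i k, algebraMap (PowerSeries κ) (FractionRing (PowerSeries κ)) PowerSeries.X *
      DX (Bm i k) = (∑ m, algebraMap (PowerSeries κ) (FractionRing (PowerSeries κ)) (S.Γ m i) * Bm m k) +
        ∑ m, Bm i m * algebraMap (PowerSeries κ) (FractionRing (PowerSeries κ)) (S.Γ m k) := by
    intro i k
    rw [hBm i k, jt_DK hDX, coord_B b B flat i k, map_add, mul_add, map_sum, map_sum, Finset.mul_sum,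
      Finset.mul_sum]
    congr 1
    · refine Finset.sum_congr rfl fun m _ => ?_
      rw [map_mul, ← mul_assoc, hΓ m i, hBm m k]
    · refine Finset.sum_congr rfl fun m _ => ?_
      rw [map_mul, mul_left_comm, hΓ m k, hBm i m]
  have hdet : Bm.det ≠ 0 := by
    have e : Bm = (jt τ).mapMatrix (Matrix.of fun i k => B (b i) (b k)) := by
      ext i k
      rw [hBm i k]
      rfl
    rw [e, ← RingHom.map_det]
    exact (map_ne_zero _).2 (gram_det b B ndL)
  have hBjt : ∀ x y : Mo, jt τ (B x y) = ∑ i, ∑ k, jt τ (b.repr x i) * Bm i k * jt τ (b.repr y k) := by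
    intro x y
    rw [B_coord b B x y, map_sum]
    refine Finset.sum_congr rfl fun i _ => ?_
    rw [map_sum]
    refine Finset.sum_congr rfl fun k _ => ?_
    rw [map_mul, map_mul, hBm i k]
  refine ⟨T0, ⟨?_, ?_⟩, ?_, ?_, ?_, ?_, ?_⟩
  · -- stable
    intro x hx
    rw [hT0] at hx ⊢
    obtain ⟨z, hz, hz0⟩ := hx
    obtain ⟨z', hz', hz0'⟩ := Lc.kerl hS z hz0
    refine ⟨z', fun i => ?_, hz0'⟩
    have h1 := F2 x z hz i
    rw [← hz' i, map_mul] at h1
    exact mul_left_cancel₀ hjX h1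
  · -- saturated
    intro q x hq hx
    rw [hT0] at hx ⊢
    obtain ⟨z, hz, hz0⟩ := hx
    have hu : IsUnit (MPadcLP.pl κ τ q) := by
      rw [PowerSeries.isUnit_iff_constantCoeff, MPadcLP.constantCoeff_pl, Polynomial.coe_aeval_eq_eval]
      exact isUnit_iff_ne_zero.2 hq
    obtain ⟨u, hu⟩ := hu.exists_left_inv
    refine ⟨fun i => u * z i, fun i => ?_, ?_⟩
    · have h1 := hz i
      rw [hsm, map_mul, jt_poly] at h1
      rw [map_mul, ← h1, ← mul_assoc, ← map_mul, hu, map_one, one_mul]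
    · have e : ∑ i, S.l i * (u * z i) = u * ∑ i, S.l i * z i := by
        rw [Finset.mul_sum]
        refine Finset.sum_congr rfl fun i _ => ?_
        ring
      rw [e, hz0, mul_zero]
  · -- near `E`
    intro x hx
    rw [hT0] at hx
    obtain ⟨z, hz, -⟩ := hx
    rw [near_iff hb]
    intro i
    rw [regAt_iff]
    exact ⟨z i, hz i⟩
  · -- flat endomorphisms
    intro e he
    obtain ⟨e1, ε, he1, he2⟩ := Lc.flat_e hS hDX (Matrix.of fun i k => jt τ (b.repr (e (b k)) i)) (by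
      intro i k
      show algebraMap (PowerSeries κ) (FractionRing (PowerSeries κ)) PowerSeries.X *
        DX (jt τ (b.repr (e (b k)) i)) =
        (∑ m, jt τ (b.repr (e (b m)) i) * algebraMap _ _ (S.Γ m k)) -
          ∑ m, algebraMap _ _ (S.Γ i m) * jt τ (b.repr (e (b k)) m)
      rw [jt_DK hDX, coord_e leib b e he i k, map_sub, mul_sub, map_sum, map_sum, Finset.mul_sum,
        Finset.mul_sum]
      congr 1
      · refine Finset.sum_congr rfl fun m _ => ?_
        rw [map_mul, mul_left_comm, hΓ m k]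
      · refine Finset.sum_congr rfl fun m _ => ?_
        rw [map_mul, ← mul_assoc, hΓ i m])
    refine ⟨ε, fun x hx => ?_⟩
    choose p hp using (hb x).1 hx
    rw [hT0]
    refine ⟨fun i => (∑ k, e1 i k * MPadcLP.pl κ τ (p k)) - PowerSeries.C ε * MPadcLP.pl κ τ (p i),
      fun i => ?_, ?_⟩
    · have h1 : ∀ k, jt τ (b.repr (e (b k)) i) =
          algebraMap (PowerSeries κ) (FractionRing (PowerSeries κ)) (e1 i k) := fun k => he1 i k
      rw [map_sub, Finsupp.sub_apply, map_smul, Finsupp.smul_apply, smul_eq_mul, map_sub, map_mul,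
        jt_alg, hp i, jt_poly, repr_e b e x i, map_sum, map_sub, map_sum, map_mul]
      congr 1
      refine Finset.sum_congr rfl fun k _ => ?_
      rw [map_mul, map_mul, h1 k, hp k, jt_poly]
    · simp only [mul_sub, Finset.sum_sub_distrib, Finset.mul_sum]
      rw [Finset.sum_comm, sub_eq_zero]
      refine Finset.sum_congr rfl fun k _ => ?_
      have h1 : ∑ i, S.l i * (e1 i k * MPadcLP.pl κ τ (p k)) =
          (∑ i, S.l i * e1 i k) * MPadcLP.pl κ τ (p k) := by
        rw [Finset.sum_mul]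
        refine Finset.sum_congr rfl fun i _ => ?_
        ring
      rw [h1, he2 k]
      ring
  · -- flat vectors
    intro h hh
    obtain ⟨h1, h2, h3⟩ := Lc.flat_h hS hDX (fun i => jt τ (b.repr h i)) (by
      intro i
      have h4 := congrArg (jt τ) (repr_nab leib b h i)
      rw [hh, map_zero, Finsupp.zero_apply, map_zero, map_add, ← jt_DK hDX, map_sum] at h4
      have h5 := congrArg (fun y => algebraMap (PowerSeries κ) (FractionRing (PowerSeries κ))
        PowerSeries.X * y) h4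
      simp only [mul_zero, mul_add, Finset.mul_sum] at h5
      rw [h5]
      congr 1
      refine Finset.sum_congr rfl fun k _ => ?_
      rw [map_mul, ← mul_assoc, hΓ i k])
    rw [hT0]
    exact ⟨h1, h2, h3⟩
  · -- the pairing is regular
    intro z hz x hx
    rw [hT0] at hz
    obtain ⟨z', hz', hz0⟩ := hz
    choose p hp using (hb x).1 hx
    obtain ⟨T, hT⟩ := Lc.kerB hS hDX Bm hBeq hdet z' hz0
    rw [regAt_iff]
    refine ⟨∑ k, T k * MPadcLP.pl κ τ (p k), ?_⟩
    rw [hBjt, Finset.sum_comm, map_sum]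
    refine Finset.sum_congr rfl fun k _ => ?_
    rw [map_mul, ← hT k, Finset.sum_mul]
    refine Finset.sum_congr rfl fun i _ => ?_
    rw [hz' i, hp k, jt_poly]
  · -- isotropic submodules
    intro R hR hiso x hxR hxE
    choose p hp using (hb x).1 hxE
    have hxx : ∀ i, jt τ (b.repr x i) = algebraMap (PowerSeries κ) (FractionRing (PowerSeries κ))
        (MPadcLP.pl κ τ (p i)) := by
      intro i
      rw [hp i, jt_poly]
    obtain ⟨w, hw⟩ : ∃ w : Fin r → PowerSeries κ, ∀ i, w i = PowerSeries.X *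
        PowerSeries.derivative κ (MPadcLP.pl κ τ (p i)) + ∑ k, S.Γ i k * MPadcLP.pl κ τ (p k) :=
      ⟨_, fun i => rfl⟩
    obtain ⟨wv, hwv⟩ : ∃ wv : Mo, wv = (algebraMap (Polynomial κ) (RatFunc κ)
        (Polynomial.X - Polynomial.C τ)) • nab x := ⟨_, rfl⟩
    have hwR : wv ∈ R := by
      rw [hwv]
      exact R.smul_mem _ (hR x hxR)
    have hww : ∀ i, jt τ (b.repr wv i) =
        algebraMap (PowerSeries κ) (FractionRing (PowerSeries κ)) (w i) := by
      intro i
      rw [hwv, map_smul, Finsupp.smul_apply, smul_eq_mul, map_mul, jt_poly, pl_X_sub,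
        F2 x (fun i => MPadcLP.pl κ τ (p i)) hxx i, hw i]
    have h1 := congrArg (jt τ) (hiso x hxR wv hwR)
    have h2 := congrArg (jt τ) (hiso wv hwR wv hwR)
    rw [hBjt, map_zero] at h1 h2
    simp only [hxx, hww] at h1 h2
    have h3 := Lc.iso hS hDX Bm hBeq hdet (fun i => MPadcLP.pl κ τ (p i)) w hw h1 h2
    exact near_of_lx leib hb S.Γ S.a0 S.l0 hΓ hS.res x (fun i => MPadcLP.pl κ τ (p i)) hxx h3

end MPadcLZ
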