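import Pool.Agent.Lib.MP_adc574_ag_LZ.RsE
import Pool.Agent.Lib.MP_adc574_ag_LZ.FrD

/-!
# JOB RsG: residues and derivations of the coefficients

* `rr_one`: for `i ≠ k` `rr h (1 + e_k) (h_i * Q) = 0`: `1 + e_k = a + e_i` with `a i = 0` (`a = 1 + e_k - e_i`), `rr_succ`, `rr_zero`; for `i = k` it is `rr h 1 Q` (`rr_succ`).
* `rr_jac`: `cderD D (h k) = ∑ j, cderD D (C' k j) * X j` (`hC`, `cderD_monomial`/`cderD D (X j) = 0`), `X j * det C' = ∑ i, adjugate C' j i * h i` (`adjugate_mulVec`-type: `C'.adjugate.mulVec (C'.mulVec X) = det C' • X`, `Matrix.adjugate_mul`), so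
  `rr h (1 + e_k) (cderD D (h k) * det C') = ∑ j, rr h 1 (cderD D (C' k j) * adjugate C' j k)` by `rr_one`; sum over `k`: `der_det` for `cderD D`.
* `rr_der`: let `U a P = D (rr h a P) - rr h a (cderD D P) + ∑ k, a_k * rr h (a + e_k) (cderD D (h k) * P)` (additive). It is a `Sys h`:
  `succ`: `cderD D (h_i P) = h_i cderD D P + cderD D h_i * P`, `rr_succ`, `(a + e_i)_k = a_k + δ_ik`, two terms cancel; `zero`: `rr_zero` for the terms with `k ≠ i`, the factor `a_i = 0` for `k = i`.
  For `P` homogeneous of degree `m` (`sum_hm`, additivity): if `m + N ≠ e ∑ a` every term vanishes by `rr_hom` (`hm_cder`, `cderD_apply`; `cderD D (h k) * P` has degree `e + m`, `∑ (a + e_k) = ∑ a + 1`). If `m + N = e ∑ a`: `Sys.eq` with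
  `h1`: `rr h 1 (C c * C'.det) = c` (`rr_C`), `rr h 1 (cderD D (C c * C'.det)) = D c + c * rr h 1 (cderD D C'.det)`, and `∑ k, rr h (1 + e_k) (cderD D (h k) * (C c * C'.det)) = c * rr h 1 (cderD D C'.det)` (`rr_jac`).
  `C'` from `exists_C'`.
-/

set_option autoImplicit false

namespace MPadcLZ

open MvPolynomial MPadcHM

universe u

variable {K : Type u} [Field K] {N : ℕ}

theorem rr_one {h : Fin N → MvPolynomial (Fin N) K} (hs : Sop h) (i k : Fin N)
    (Q : MvPolynomial (Fin N) K) :
    rr h (1 + Pi.single k 1) (h i * Q) = if i = k then rr h 1 Q else 0 := by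
  split_ifs with hik
  · subst hik
    exact rr_succ hs 1 i Q
  · have ha : (1 + Pi.single k 1 : Fin N → ℕ) =
        Function.update (1 + Pi.single k 1 : Fin N → ℕ) i 0 + Pi.single i 1 := by
      funext j
      by_cases hj : j = i
      · subst hj
        rw [Pi.add_apply, Pi.add_apply, Function.update_self, Pi.single_eq_same, Pi.one_apply,
          Pi.single_eq_of_ne hik, add_zero, zero_add]
      · rw [Pi.add_apply, Pi.add_apply, Function.update_of_ne hj, Pi.single_eq_of_ne hj, add_zero,
          Pi.add_apply]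
    rw [ha, rr_succ hs]
    exact rr_zero hs _ i (Function.update_self _ _ _) Q

theorem rr_jac {h : Fin N → MvPolynomial (Fin N) K} (hs : Sop h)
    {C' : Matrix (Fin N) (Fin N) (MvPolynomial (Fin N) K)} (hC : C'.mulVec X = h)
    (D : Derivation ℤ K K) :
    ∑ k, rr h (1 + Pi.single k 1) (cderD D (h k) * C'.det) = rr h 1 (cderD D C'.det) := by
  have hX : ∀ j : Fin N, cderD D (X j : MvPolynomial (Fin N) K) = 0 := by
    intro j
    have h1 : (X j : MvPolynomial (Fin N) K) = monomial (Finsupp.single j 1) 1 := rfl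
    rw [h1, cderD_monomial, Derivation.map_one_eq_zero, map_zero]
  have hk : ∀ k, cderD D (h k) = ∑ j, X j * cderD D (C' k j) := by
    intro k
    have h1 : h k = ∑ j, C' k j * X j := (congrFun hC k).symm
    rw [h1, map_sum]
    refine Finset.sum_congr rfl fun j _ => ?_
    rw [Derivation.leibniz, hX, smul_zero, zero_add, smul_eq_mul]
  have hadj : ∀ j : Fin N, X j * C'.det = ∑ i, C'.adjugate j i * h i := by
    intro j
    have h1 : C'.adjugate.mulVec h = C'.det • (X : Fin N → MvPolynomial (Fin N) K) := by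
      rw [← hC, Matrix.mulVec_mulVec, Matrix.adjugate_mul, Matrix.smul_mulVec, Matrix.one_mulVec]
    have h2 := congrFun h1 j
    rw [Pi.smul_apply, smul_eq_mul] at h2
    rw [mul_comm, ← h2]
    rfl
  have hterm : ∀ k, rr h (1 + Pi.single k 1) (cderD D (h k) * C'.det) =
      ∑ j, rr h 1 (C'.adjugate j k * cderD D (C' k j)) := by
    intro k
    rw [hk, Finset.sum_mul, map_sum]
    refine Finset.sum_congr rfl fun j _ => ?_
    have h1 : X j * cderD D (C' k j) * C'.det =
        ∑ i, h i * (C'.adjugate j i * cderD D (C' k j)) := by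
      have h2 : X j * cderD D (C' k j) * C'.det = (X j * C'.det) * cderD D (C' k j) := by ring
      rw [h2, hadj, Finset.sum_mul]
      refine Finset.sum_congr rfl fun i _ => ?_
      ring
    rw [h1, map_sum, Finset.sum_congr rfl fun i _ => rr_one hs i k _, Finset.sum_ite_eq']
    rw [if_pos (Finset.mem_univ k)]
  have hd : cderD D C'.det = ∑ i, ∑ j, C'.adjugate j i * cderD D (C' i j) := der_det (cderD D) C'
  rw [hd, map_sum]
  refine Finset.sum_congr rfl fun k _ => ?_
  rw [hterm k, map_sum]

private noncomputable def rsg_U (h : Fin N → MvPolynomial (Fin N) K) (D : Derivation ℤ K K)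
    (a : Fin N → ℕ) : MvPolynomial (Fin N) K →+ K :=
  AddMonoidHom.mk' (fun P => D (rr h a P) - rr h a (cderD D P) +
    ∑ k, (a k : K) * rr h (a + Pi.single k 1) (cderD D (h k) * P)) (by
      intro P Q
      have h1 : ∑ k, (a k : K) * rr h (a + Pi.single k 1) (cderD D (h k) * (P + Q)) =
          ∑ k, (a k : K) * rr h (a + Pi.single k 1) (cderD D (h k) * P) +
          ∑ k, (a k : K) * rr h (a + Pi.single k 1) (cderD D (h k) * Q) := by
        rw [← Finset.sum_add_distrib]
        refine Finset.sum_congr rfl fun k _ => ?_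
        rw [mul_add, map_add, mul_add]
      rw [h1, map_add, map_add, map_add, map_add]
      ring)

private theorem rsg_U_apply (h : Fin N → MvPolynomial (Fin N) K) (D : Derivation ℤ K K)
    (a : Fin N → ℕ) (P : MvPolynomial (Fin N) K) :
    rsg_U h D a P = D (rr h a P) - rr h a (cderD D P) +
      ∑ k, (a k : K) * rr h (a + Pi.single k 1) (cderD D (h k) * P) := rfl

private theorem rsg_sys {h : Fin N → MvPolynomial (Fin N) K} (hs : Sop h) (D : Derivation ℤ K K) :
    Sys h (rsg_U h D) where
  succ := by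
    intro a i P
    rw [rsg_U_apply, rsg_U_apply, rr_succ hs, Derivation.leibniz, map_add, smul_eq_mul, smul_eq_mul,
      rr_succ hs]
    have h1 : ∀ k, (((a + Pi.single i 1 : Fin N → ℕ) k : ℕ) : K) *
        rr h (a + Pi.single i 1 + Pi.single k 1) (cderD D (h k) * (h i * P)) =
        (a k : K) * rr h (a + Pi.single k 1) (cderD D (h k) * P) +
          (if k = i then rr h (a + Pi.single k 1) (cderD D (h k) * P) else 0) := by
      intro k
      have h2 : cderD D (h k) * (h i * P) = h i * (cderD D (h k) * P) := by ring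
      rw [h2, add_right_comm a (Pi.single i 1) (Pi.single k 1), rr_succ hs, Pi.add_apply, Nat.cast_add,
        add_mul]
      refine congrArg _ ?_
      split_ifs with hki
      · subst hki
        rw [Pi.single_eq_same, Nat.cast_one, one_mul]
      · rw [Pi.single_eq_of_ne hki, Nat.cast_zero, zero_mul]
    rw [Finset.sum_congr rfl fun k _ => h1 k, Finset.sum_add_distrib, Finset.sum_ite_eq',
      if_pos (Finset.mem_univ i), mul_comm P (cderD D (h i))]
    ring
  zero := by
    intro a i hi P
    rw [rsg_U_apply, rr_zero hs a i hi, rr_zero hs a i hi, map_zero, sub_zero, zero_add]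
    refine Finset.sum_eq_zero fun k _ => ?_
    by_cases hki : k = i
    · subst hki
      rw [hi, Nat.cast_zero, zero_mul]
    · have h1 : (a + Pi.single k 1 : Fin N → ℕ) i = 0 := by
        rw [Pi.add_apply, hi, Pi.single_eq_of_ne (Ne.symm hki), add_zero]
      rw [rr_zero hs _ i h1, mul_zero]

private theorem rsg_one {h : Fin N → MvPolynomial (Fin N) K} (hs : Sop h) {e : ℕ}
    (hh : ∀ j, Hm e (h j)) (he : 1 ≤ e) (D : Derivation ℤ K K)
    {C' : Matrix (Fin N) (Fin N) (MvPolynomial (Fin N) K)} (hC : C'.mulVec X = h) (c : K) :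
    rsg_U h D 1 (C c * C'.det) = 0 := by
  have hCm : ∀ (a : Fin N → ℕ) (Q : MvPolynomial (Fin N) K), rr h a (C c * Q) = c * rr h a Q := by
    intro a Q
    rw [C_mul', map_smul, smul_eq_mul]
  have hDC : cderD D (C c * C'.det) = C c * cderD D C'.det + C (D c) * C'.det := by
    have h1 : cderD D (C c : MvPolynomial (Fin N) K) = C (D c) := cderD_monomial D 0 c
    rw [Derivation.leibniz, h1, smul_eq_mul, smul_eq_mul, mul_comm C'.det]
  have hDc : rr h 1 (C (D c) * C'.det) = D c := by
    rw [C_mul', map_smul, smul_eq_mul, rr_C hs hh he hC, mul_one]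
  have hsum : ∑ k, (((1 : Fin N → ℕ) k : ℕ) : K) *
      rr h (1 + Pi.single k 1) (cderD D (h k) * (C c * C'.det)) = c * rr h 1 (cderD D C'.det) := by
    rw [← rr_jac hs hC D, Finset.mul_sum]
    refine Finset.sum_congr rfl fun k _ => ?_
    have h2 : cderD D (h k) * (C c * C'.det) = C c * (cderD D (h k) * C'.det) := by ring
    rw [h2, hCm, Pi.one_apply, Nat.cast_one, one_mul]
  rw [rsg_U_apply, hsum, hCm, rr_C hs hh he hC, mul_one, hDC, map_add, hCm, hDc]
  ring

private theorem rsg_hom {h : Fin N → MvPolynomial (Fin N) K} (hs : Sop h) {e : ℕ}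
    (hh : ∀ j, Hm e (h j)) (he : 1 ≤ e) (D : Derivation ℤ K K) (a : Fin N → ℕ) (m : ℕ)
    (P : MvPolynomial (Fin N) K) (hP : Hm m P) : rsg_U h D a P = 0 := by
  by_cases hm : m + N = e * ∑ j, a j
  · obtain ⟨C', hC, hC'⟩ := exists_C' hh he
    exact Sys.eq hs hh he (rsg_sys hs D) hC hC' (rsg_one hs hh he D hC) a m P hP hm
  · have h1 : Hm m (cderD D P) := by
      rw [cderD_apply]
      exact hm_cder hP D
    rw [rsg_U_apply, rr_hom hs hh a m P hP hm, rr_hom hs hh a m _ h1 hm, map_zero, sub_zero, zero_add]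
    refine Finset.sum_eq_zero fun k _ => ?_
    have h2 : Hm e (cderD D (h k)) := by
      rw [cderD_apply]
      exact hm_cder (hh k) D
    have h3 : e + m + N ≠ e * ∑ j, (a + Pi.single k 1 : Fin N → ℕ) j := by
      have h4 : ∑ j, (a + Pi.single k 1 : Fin N → ℕ) j = ∑ j, a j + 1 := by
        rw [Finset.sum_congr rfl fun j _ => Pi.add_apply a (Pi.single k 1) j, Finset.sum_add_distrib,
          Finset.sum_pi_single']
        rw [if_pos (Finset.mem_univ k)]
      rw [h4, mul_add, mul_one]
      intro h5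
      exact hm (by omega)
    rw [rr_hom hs hh _ (e + m) _ (hm_mul h2 hP) h3, mul_zero]

theorem rr_der {h : Fin N → MvPolynomial (Fin N) K} (hs : Sop h) {e : ℕ}
    (hh : ∀ j, Hm e (h j)) (he : 1 ≤ e) (D : Derivation ℤ K K) (a : Fin N → ℕ)
    (P : MvPolynomial (Fin N) K) :
    D (rr h a P) = rr h a (cderD D P) -
      ∑ k, (a k : K) * rr h (a + Pi.single k 1) (cderD D (h k) * P) := by
  have h0 : rsg_U h D a P = 0 := by
    obtain ⟨n, Q, hQ, hPQ⟩ := sum_hm P
    rw [hPQ, map_sum]
    exact Finset.sum_eq_zero fun m _ => rsg_hom hs hh he D a m (Q m) (hQ m)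
  rw [rsg_U_apply] at h0
  linear_combination h0

end MPadcLZ
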