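import Pool.Agent.Lib.MP_adc574_ag_LZ.RsF
import Pool.Agent.Lib.MP_adc574_ag_LZ.RsG

/-!
# JOB LocR: the residue on `K[x][1 / ∏ h_i]`

`Y = ∏ h_i`. `resF h g = rr h (m, …, m) P` if `g * Y ^ m = P` (`resF_eq`: if also `g * Y ^ m' = P'` then `Y ^ m' * P = Y ^ m * P'` in `K[x]` (`IsFractionRing.injective`), and `rr_prod` with the constant exponents gives
`rr m P = rr (m + m') (Y ^ m' * P) = rr (m' + m) (Y ^ m * P') = rr m' P'`).
* `resF_add`: `(g + g') * Y ^ (m + m') = Y ^ m' * P + Y ^ m * P'`, `rr_prod`. * `resF_mulC`: `g ↦ algebraMap (C c) * g`.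
* `resF_inRj`: `g * Y_j ^ m = P` gives `g * Y ^ m = h_j ^ m * P ∈ IP h (m, …, m)`: `rr_mem`.
* `resF_dx`: apply `dx K j` to `g * Y ^ m = P` and multiply by `Y`: `dx g * Y ^ (m + 1) = Y * ∂P - m * P * ∂Y` (also for `m = 0`). `rr (m + 1) (Y * ∂P) = rr m (∂P)` (`rr_prod` with `b = 1`), `∂Y = ∑ k, ∂h_k * ∏_{i ≠ k} h_i`,
  `rr (m + 1) (∏_{i ≠ k} h_i * (∂h_k * P)) = rr (m + e_k) (∂h_k * P)` (`rr_prod` with `b = 1 - e_k`), and `rr_pderiv` for the constant exponent `m`.
* `resF_DF`: the same with `DF D`, `cderD D` and `rr_der`.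
* `resF_inv`: `(Y⁻¹ * P) * Y ^ 1 = P` (`h i ≠ 0`).
-/

set_option autoImplicit false

namespace MPadcLZ

open MvPolynomial MPadcHM

universe u

variable {K : Type u} [Field K] {N : ℕ}

open Classical in
/-- The residue of `g ∈ K[x][1 / ∏ h_i]`. -/
noncomputable def resF (h : Fin N → MvPolynomial (Fin N) K) (g : FF K N) : K :=
  if hg : InR h g then rr h (fun _ => hg.choose) hg.choose_spec.choose else 0

variable {h : Fin N → MvPolynomial (Fin N) K} (hs : Sop h)

include hs

omit hs in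
theorem locr_dprod (δ : Derivation ℤ (MvPolynomial (Fin N) K) (MvPolynomial (Fin N) K))
    (s : Finset (Fin N)) :
    δ (∏ i ∈ s, h i) = ∑ k ∈ s, (∏ i ∈ s.erase k, h i) * δ (h k) := by
  induction s using Finset.induction_on with
  | empty => simp
  | insert a s ha ih =>
    rw [Finset.prod_insert ha, Derivation.leibniz, Finset.sum_insert ha, Finset.erase_insert ha, ih,
      smul_eq_mul, smul_eq_mul, Finset.mul_sum, add_comm]
    congr 1
    refine Finset.sum_congr rfl fun k hk => ?_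
    have hka : k ≠ a := fun e => ha (e ▸ hk)
    rw [Finset.erase_insert_of_ne hka.symm, Finset.prod_insert (fun hc => ha (Finset.mem_of_mem_erase hc)),
      mul_assoc]

theorem locr_up (m n : ℕ) (P : MvPolynomial (Fin N) K) :
    rr h (fun _ => m + n) ((∏ i, h i) ^ n * P) = rr h (fun _ => m) P := by
  have h1 := rr_prod hs (fun _ => m) (fun _ => n) P
  rw [Finset.prod_pow] at h1
  exact h1

theorem locr_indep {g : FF K N} {m m' : ℕ} {P P' : MvPolynomial (Fin N) K}
    (h1 : g * algebraMap _ (FF K N) (∏ i, h i) ^ m = algebraMap _ (FF K N) P)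
    (h2 : g * algebraMap _ (FF K N) (∏ i, h i) ^ m' = algebraMap _ (FF K N) P') :
    rr h (fun _ => m) P = rr h (fun _ => m') P' := by
  have h3 : (∏ i, h i) ^ m' * P = (∏ i, h i) ^ m * P' := by
    apply IsFractionRing.injective (MvPolynomial (Fin N) K) (FF K N)
    rw [map_mul, map_mul, map_pow, map_pow, ← h1, ← h2]
    ring
  rw [← locr_up hs m m' P, ← locr_up hs m' m P', h3, add_comm m m']

theorem resF_eq {g : FF K N} (m : ℕ) (P : MvPolynomial (Fin N) K)
    (hg : g * algebraMap _ (FF K N) (∏ i, h i) ^ m = algebraMap _ (FF K N) P) :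
    resF h g = rr h (fun _ => m) P := by
  have hR : InR h g := ⟨m, P, hg⟩
  unfold resF
  rw [dif_pos hR]
  exact locr_indep hs hR.choose_spec.choose_spec hg

theorem resF_add {g g' : FF K N} (hg : InR h g) (hg' : InR h g') :
    resF h (g + g') = resF h g + resF h g' := by
  obtain ⟨m, P, h1⟩ := hg
  obtain ⟨m', P', h2⟩ := hg'
  have h3 : (g + g') * algebraMap _ (FF K N) (∏ i, h i) ^ (m + m') =
      algebraMap _ (FF K N) ((∏ i, h i) ^ m' * P + (∏ i, h i) ^ m * P') := by
    rw [map_add, map_mul, map_mul, map_pow, map_pow, ← h1, ← h2]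
    ring
  rw [resF_eq hs _ _ h3, resF_eq hs _ _ h1, resF_eq hs _ _ h2, map_add, locr_up hs m m' P,
    add_comm m m', locr_up hs m' m P']

theorem resF_zero : resF h (0 : FF K N) = 0 := by
  have h3 : (0 : FF K N) * algebraMap _ (FF K N) (∏ i, h i) ^ 0 =
      algebraMap _ (FF K N) (0 : MvPolynomial (Fin N) K) := by
    rw [map_zero, zero_mul]
  rw [resF_eq hs _ _ h3, map_zero]

theorem resF_sub {g g' : FF K N} (hg : InR h g) (hg' : InR h g') :
    resF h (g - g') = resF h g - resF h g' := by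
  obtain ⟨m, P, h1⟩ := hg
  obtain ⟨m', P', h2⟩ := hg'
  have h3 : (g - g') * algebraMap _ (FF K N) (∏ i, h i) ^ (m + m') =
      algebraMap _ (FF K N) ((∏ i, h i) ^ m' * P - (∏ i, h i) ^ m * P') := by
    rw [map_sub, map_mul, map_mul, map_pow, map_pow, ← h1, ← h2]
    ring
  rw [resF_eq hs _ _ h3, resF_eq hs _ _ h1, resF_eq hs _ _ h2, map_sub, locr_up hs m m' P,
    add_comm m m', locr_up hs m' m P']

theorem resF_mulC {g : FF K N} (c : K) (hg : InR h g) :
    resF h (algebraMap (MvPolynomial (Fin N) K) (FF K N) (C c) * g) = c * resF h g := by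
  obtain ⟨m, P, h1⟩ := hg
  have h3 : (algebraMap (MvPolynomial (Fin N) K) (FF K N) (C c) * g) *
      algebraMap _ (FF K N) (∏ i, h i) ^ m = algebraMap _ (FF K N) (C c * P) := by
    rw [map_mul, ← h1]
    ring
  rw [resF_eq hs _ _ h3, resF_eq hs _ _ h1, ← MvPolynomial.smul_eq_C_mul, map_smul, smul_eq_mul]

theorem resF_inRj {g : FF K N} (j : Fin N) (hg : InRj h j g) : resF h g = 0 := by
  obtain ⟨m, P, h1⟩ := hg
  have h3 : g * algebraMap _ (FF K N) (∏ i, h i) ^ m =
      algebraMap _ (FF K N) (h j ^ m * P) := by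
    rw [map_mul, ← h1, ← Finset.mul_prod_erase Finset.univ h (Finset.mem_univ j), map_mul, map_pow]
    ring
  rw [resF_eq hs _ _ h3]
  exact rr_mem hs _ _ (Ideal.mul_mem_right _ _ (Ideal.subset_span ⟨j, rfl⟩))

theorem resF_inv (hne : ∀ i, h i ≠ 0) (P : MvPolynomial (Fin N) K) :
    resF h ((algebraMap _ (FF K N) (∏ i, h i))⁻¹ * algebraMap _ (FF K N) P) = resf h P := by
  have h0 : algebraMap (MvPolynomial (Fin N) K) (FF K N) (∏ i, h i) ≠ 0 := by
    intro h1
    have h2 : ∏ i, h i = 0 :=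
      IsFractionRing.injective (MvPolynomial (Fin N) K) (FF K N) (by rw [h1, map_zero])
    obtain ⟨i, _, hi⟩ := Finset.prod_eq_zero_iff.1 h2
    exact hne i hi
  have h3 : ((algebraMap _ (FF K N) (∏ i, h i))⁻¹ * algebraMap _ (FF K N) P) *
      algebraMap _ (FF K N) (∏ i, h i) ^ 1 = algebraMap _ (FF K N) P := by
    rw [pow_one, mul_comm, ← mul_assoc, mul_inv_cancel₀ h0, one_mul]
  rw [resF_eq hs _ _ h3]
  show resf (fun j => h j ^ 1) P = resf h P
  simp only [pow_one]

theorem locr_der (δ : Derivation ℤ (MvPolynomial (Fin N) K) (MvPolynomial (Fin N) K))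
    (Δ : Derivation ℤ (FF K N) (FF K N))
    (hΔ : ∀ P, Δ (algebraMap _ (FF K N) P) = algebraMap _ (FF K N) (δ P)) {g : FF K N} {m : ℕ}
    {P : MvPolynomial (Fin N) K}
    (hg : g * algebraMap _ (FF K N) (∏ i, h i) ^ m = algebraMap _ (FF K N) P) :
    resF h (Δ g) = rr h (fun _ => m) (δ P) -
      ∑ k, (m : K) * rr h ((fun _ => m) + Pi.single k 1) (δ (h k) * P) := by
  have h1 := congrArg Δ hg
  rw [Derivation.leibniz, Derivation.leibniz_pow, hΔ, hΔ, smul_eq_mul, smul_eq_mul, nsmul_eq_mul,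
    smul_eq_mul] at h1
  have h2 : (m : FF K N) * algebraMap (MvPolynomial (Fin N) K) (FF K N) (∏ i, h i) ^ (m - 1) *
      algebraMap _ (FF K N) (∏ i, h i) =
      (m : FF K N) * algebraMap (MvPolynomial (Fin N) K) (FF K N) (∏ i, h i) ^ m := by
    rcases Nat.eq_zero_or_pos m with h0 | h0
    · subst h0
      simp
    · rw [mul_assoc, ← pow_succ, Nat.sub_add_cancel h0]
  have h3 : Δ g * algebraMap _ (FF K N) (∏ i, h i) ^ (m + 1) =
      algebraMap _ (FF K N) ((∏ i, h i) ^ 1 * δ P - C (m : K) * (δ (∏ i, h i) * P)) := by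
    rw [map_sub, map_mul, map_mul, map_mul, map_pow, pow_one, ← h1, ← hg, map_natCast, map_natCast]
    linear_combination (-g * algebraMap _ (FF K N) (δ (∏ i, h i))) * h2
  rw [resF_eq hs _ _ h3, map_sub, locr_up hs m 1 (δ P), ← MvPolynomial.smul_eq_C_mul, map_smul,
    smul_eq_mul, locr_dprod δ Finset.univ, Finset.sum_mul, map_sum, Finset.mul_sum]
  congr 1
  refine Finset.sum_congr rfl fun k _ => ?_
  congr 1
  have h4 := rr_prod hs ((fun _ => m) + Pi.single k 1) (fun i => if i = k then 0 else 1)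
    (δ (h k) * P)
  have h5 : ((fun _ => m) + Pi.single k 1 + fun i => if i = k then 0 else 1 : Fin N → ℕ) =
      fun _ => m + 1 := by
    funext i
    simp only [Pi.add_apply]
    by_cases hi : i = k
    · subst hi
      simp
    · rw [if_neg hi, Pi.single_eq_of_ne hi, add_zero]
  have h6 : ∏ j, h j ^ (if j = k then 0 else 1) = ∏ i ∈ Finset.univ.erase k, h i := by
    rw [← Finset.mul_prod_erase Finset.univ _ (Finset.mem_univ k), if_pos rfl, pow_zero, one_mul]
    refine Finset.prod_congr rfl fun i hi => ?_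
    rw [if_neg (Finset.ne_of_mem_erase hi), pow_one]
  rw [h5, h6] at h4
  rw [← h4, mul_assoc]

variable {e : ℕ} (hh : ∀ j, Hm e (h j)) (he : 1 ≤ e)

include hh he

theorem resF_dx {g : FF K N} (hg : InR h g) (j : Fin N) : resF h (dx K j g) = 0 := by
  obtain ⟨m, P, h1⟩ := hg
  rw [locr_der hs ((pderiv j : Derivation K (MvPolynomial (Fin N) K)
    (MvPolynomial (Fin N) K)).restrictScalars ℤ) (dx K j) (fun P => dx_alg j P) h1]
  exact sub_eq_zero.2 (rr_pderiv hs hh he j (fun _ => m) P)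

theorem resF_DF {g : FF K N} (hg : InR h g) (D : Derivation ℤ K K) :
    resF h (DF D g) = D (resF h g) := by
  obtain ⟨m, P, h1⟩ := hg
  rw [locr_der hs (cderD D) (DF D) (fun P => DF_alg D P) h1, resF_eq hs _ _ h1]
  exact (rr_der hs hh he D (fun _ => m) P).symm

end MPadcLZ
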