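import Pool.Agent.Lib.MP_adc574_ag_LZ.Intf
import Pool.Agent.Lib.MP_adc574_ag_HM.WA

/-!
# JOB MidA: rational functions with given polar parts

* `RegAt`: closed under `+`, `*`, `-`, finite sums, contains the polynomials (multiply the denominators `b`).
* `reg_den`: if `P b = a` (`P, a` polynomials, `P ≠ 0`) and `(X - τ)^R ∣ h`, `R = P.rootMultiplicity τ`, then `RegAt τ (h b)`: `P = (X - τ)^R P₁`, `P₁(τ) ≠ 0` (`Polynomial.exists_eq_pow_rootMultiplicity_mul_and_not_dvd`), so `P₁ (h b) = h' a` for `h = (X-τ)^R h'`.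
  In particular `RegAt τ b` if `P(τ) ≠ 0`.
* `reg_common`: a common denominator of a finite family (`RatFunc.num_div_denom`, product of the `denom`).
* `exists_q`: let `P` be a common denominator of the `b i`. For the finite set `T = P.roots.toFinset` choose `q` with `q - C (eps τ) ∈ span {(X - C τ)^(P.rootMultiplicity τ)}` for `τ ∈ T`: `Ideal.exists_forall_sub_mem_ideal` (the ideals are pairwise coprime: `Polynomial.pairwise_coprime_X_sub_C` / `IsCoprime.pow`,
  `Ideal.isCoprime_span_singleton_iff`). Then for every `τ`: `g i - q b i = (g i - eps τ b i) + (eps τ - q) b i`: for `τ ∈ T` the second term is regular by `reg_den`; for `τ ∉ T` `P(τ) ≠ 0`, `b i` is regular and so is `(eps τ - q) b i`.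
* `poly_of_reg`: `g = num / denom` in lowest terms; if `denom` is not constant it has a root `τ` (algebraically closed), `b g = a` with `b(τ) ≠ 0` gives `b num = a denom`, so `denom ∣ b` (coprime to `num`), `b(τ) = 0`, contradiction. `denom` is monic, so 1.
* `bd_zero`: `RatFunc.intDegree_polynomial`: `s * natDegree ≤ -1` is impossible.
-/

set_option autoImplicit false

namespace MPadcLZ

open MvPolynomial MPadcHM

universe u

variable {κ : Type u} [Field κ]

theorem RegAt.add {τ : κ} {g h : RatFunc κ} (hg : RegAt τ g) (hh : RegAt τ h) :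
    RegAt τ (g + h) := by
  obtain ⟨a, b, hb, h1⟩ := hg
  obtain ⟨a', b', hb', h2⟩ := hh
  refine ⟨a * b' + a' * b, b * b', ?_, ?_⟩
  · rw [Polynomial.eval_mul]
    exact mul_ne_zero hb hb'
  · rw [map_mul, map_add, map_mul, map_mul]
    linear_combination algebraMap (Polynomial κ) (RatFunc κ) b' * h1 +
      algebraMap (Polynomial κ) (RatFunc κ) b * h2

theorem RegAt.mul {τ : κ} {g h : RatFunc κ} (hg : RegAt τ g) (hh : RegAt τ h) :
    RegAt τ (g * h) := by
  obtain ⟨a, b, hb, h1⟩ := hg
  obtain ⟨a', b', hb', h2⟩ := hh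
  refine ⟨a * a', b * b', ?_, ?_⟩
  · rw [Polynomial.eval_mul]
    exact mul_ne_zero hb hb'
  · rw [map_mul, map_mul]
    linear_combination algebraMap (Polynomial κ) (RatFunc κ) b' * h * h1 +
      algebraMap (Polynomial κ) (RatFunc κ) a * h2

theorem RegAt.poly (τ : κ) (p : Polynomial κ) :
    RegAt τ (algebraMap (Polynomial κ) (RatFunc κ) p) := ⟨p, 1, by simp, by simp⟩

theorem RegAt.sub {τ : κ} {g h : RatFunc κ} (hg : RegAt τ g) (hh : RegAt τ h) :
    RegAt τ (g - h) := by
  obtain ⟨a, b, hb, h1⟩ := hg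
  obtain ⟨a', b', hb', h2⟩ := hh
  refine ⟨a * b' - a' * b, b * b', ?_, ?_⟩
  · rw [Polynomial.eval_mul]
    exact mul_ne_zero hb hb'
  · rw [map_mul, map_sub, map_mul, map_mul]
    linear_combination algebraMap (Polynomial κ) (RatFunc κ) b' * h1 -
      algebraMap (Polynomial κ) (RatFunc κ) b * h2

theorem RegAt.sum {τ : κ} {ι : Type*} {s : Finset ι} {g : ι → RatFunc κ}
    (hg : ∀ i ∈ s, RegAt τ (g i)) : RegAt τ (∑ i ∈ s, g i) := by
  classical
  induction s using Finset.induction_on with
  | empty =>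
    rw [Finset.sum_empty]
    have h0 := RegAt.poly τ (0 : Polynomial κ)
    rwa [map_zero] at h0
  | insert i s hi ih =>
    rw [Finset.sum_insert hi]
    exact (hg i (Finset.mem_insert_self i s)).add
      (ih fun j hj => hg j (Finset.mem_insert_of_mem hj))

theorem reg_den {τ : κ} {P a h : Polynomial κ} {b : RatFunc κ} (hP : P ≠ 0)
    (hb : algebraMap (Polynomial κ) (RatFunc κ) P * b = algebraMap (Polynomial κ) (RatFunc κ) a)
    (hh : (Polynomial.X - Polynomial.C τ) ^ P.rootMultiplicity τ ∣ h) :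
    RegAt τ (algebraMap (Polynomial κ) (RatFunc κ) h * b) := by
  obtain ⟨P1, hP1, hnd⟩ := P.exists_eq_pow_rootMultiplicity_mul_and_not_dvd hP τ
  obtain ⟨h', rfl⟩ := hh
  refine ⟨h' * a, P1, ?_, ?_⟩
  · intro h0
    exact hnd (Polynomial.dvd_iff_isRoot.2 h0)
  · have e1 := congrArg (algebraMap (Polynomial κ) (RatFunc κ)) hP1
    rw [map_mul] at e1
    rw [map_mul, map_mul]
    linear_combination algebraMap (Polynomial κ) (RatFunc κ) h' * hb -
      (algebraMap (Polynomial κ) (RatFunc κ) h' * b) * e1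

theorem reg_common {ι : Type*} [Finite ι] (b : ι → RatFunc κ) :
    ∃ P : Polynomial κ, P ≠ 0 ∧ ∀ i, ∃ a : Polynomial κ,
      algebraMap (Polynomial κ) (RatFunc κ) P * b i = algebraMap (Polynomial κ) (RatFunc κ) a := by
  classical
  cases nonempty_fintype ι
  refine ⟨∏ i, (b i).denom, Finset.prod_ne_zero_iff.2 fun i _ => RatFunc.denom_ne_zero (b i),
    fun i => ?_⟩
  obtain ⟨c, hc⟩ := Finset.dvd_prod_of_mem (fun i => (b i).denom) (Finset.mem_univ i)
  refine ⟨c * (b i).num, ?_⟩
  have hd : algebraMap (Polynomial κ) (RatFunc κ) (b i).denom ≠ 0 :=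
    RatFunc.algebraMap_ne_zero (RatFunc.denom_ne_zero (b i))
  have h1 : algebraMap (Polynomial κ) (RatFunc κ) (b i).denom * b i =
      algebraMap (Polynomial κ) (RatFunc κ) (b i).num := by
    have h2 := RatFunc.num_div_denom (b i)
    rw [div_eq_iff hd] at h2
    rw [h2, mul_comm]
  rw [hc, map_mul, map_mul, ← h1]
  ring

theorem exists_q {ι : Type*} [Finite ι] (g b : ι → RatFunc κ) (eps : κ → κ)
    (h : ∀ τ i, RegAt τ (g i - algebraMap κ (RatFunc κ) (eps τ) * b i)) :
    ∃ q : Polynomial κ, ∀ i τ, RegAt τ (g i - algebraMap (Polynomial κ) (RatFunc κ) q * b i) := by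
  classical
  obtain ⟨P, hP, hPb⟩ := reg_common b
  have hI : Pairwise (Function.onFun IsCoprime (fun τ : P.roots.toFinset =>
      Ideal.span {(Polynomial.X - Polynomial.C (τ : κ)) ^ P.rootMultiplicity (τ : κ)})) := by
    intro τ τ' hne
    show IsCoprime (Ideal.span _) (Ideal.span _)
    rw [Ideal.isCoprime_span_singleton_iff]
    refine IsCoprime.pow ?_
    exact Polynomial.pairwise_coprime_X_sub_C
      (s := fun τ : P.roots.toFinset => (τ : κ)) Subtype.val_injective hne
  obtain ⟨q, hq⟩ := Ideal.exists_forall_sub_mem_ideal hI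
    (fun τ : P.roots.toFinset => Polynomial.C (eps (τ : κ)))
  refine ⟨q, fun i τ => ?_⟩
  obtain ⟨a, ha⟩ := hPb i
  have hdvd : (Polynomial.X - Polynomial.C τ) ^ P.rootMultiplicity τ ∣
      q - Polynomial.C (eps τ) := by
    by_cases hτ : P.IsRoot τ
    · have hm : τ ∈ P.roots.toFinset := by
        rw [Multiset.mem_toFinset, Polynomial.mem_roots hP]
        exact hτ
      exact Ideal.mem_span_singleton.1 (hq ⟨τ, hm⟩)
    · rw [Polynomial.rootMultiplicity_eq_zero hτ, pow_zero]
      exact one_dvd _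
  have h1 := (h τ i).sub (reg_den hP ha hdvd)
  have h2 : g i - algebraMap κ (RatFunc κ) (eps τ) * b i -
      algebraMap (Polynomial κ) (RatFunc κ) (q - Polynomial.C (eps τ)) * b i =
      g i - algebraMap (Polynomial κ) (RatFunc κ) q * b i := by
    rw [map_sub, IsScalarTower.algebraMap_apply κ (Polynomial κ) (RatFunc κ),
      Polynomial.algebraMap_eq]
    ring
  rwa [h2] at h1

theorem poly_of_reg [IsAlgClosed κ] {g : RatFunc κ} (h : ∀ τ : κ, RegAt τ g) :
    ∃ p : Polynomial κ, g = algebraMap (Polynomial κ) (RatFunc κ) p := by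
  have hd : algebraMap (Polynomial κ) (RatFunc κ) g.denom ≠ 0 :=
    RatFunc.algebraMap_ne_zero (RatFunc.denom_ne_zero g)
  have h1 := RatFunc.num_div_denom g
  have hdeg : g.denom.degree = 0 := by
    by_contra hne
    obtain ⟨τ, hτ⟩ := IsAlgClosed.exists_root g.denom hne
    obtain ⟨a, b, hb, hab⟩ := h τ
    rw [div_eq_iff hd] at h1
    have h2 : algebraMap (Polynomial κ) (RatFunc κ) (b * g.num) =
        algebraMap (Polynomial κ) (RatFunc κ) (g.denom * a) := by
      rw [map_mul, map_mul]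
      linear_combination algebraMap (Polynomial κ) (RatFunc κ) b * h1 +
        algebraMap (Polynomial κ) (RatFunc κ) g.denom * hab
    have h3 : b * g.num = g.denom * a := RatFunc.algebraMap_injective κ h2
    have h4 : g.denom ∣ b * g.num := ⟨a, h3⟩
    have h5 : g.denom ∣ b := (RatFunc.isCoprime_num_denom g).symm.dvd_of_dvd_mul_right h4
    obtain ⟨c, hc⟩ := h5
    apply hb
    rw [hc, Polynomial.eval_mul, hτ.eq_zero, zero_mul]
  have hone : g.denom = 1 :=
    (RatFunc.monic_denom g).natDegree_eq_zero.1 (Polynomial.natDegree_eq_of_degree_eq_some hdeg)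
  refine ⟨g.num, ?_⟩
  rw [hone, map_one, div_one] at h1
  exact h1.symm

theorem bd_zero {s : ℕ} {q : ℤ} (hq : q < 0) {p : Polynomial κ}
    (h : Bd s q (algebraMap (Polynomial κ) (RatFunc κ) p)) :
    algebraMap (Polynomial κ) (RatFunc κ) p = 0 := by
  rcases h with h | h
  · exact h
  · exfalso
    rw [RatFunc.intDegree_polynomial] at h
    have h1 : (0 : ℤ) ≤ (s : ℤ) * (p.natDegree : ℤ) := by positivity
    omega

theorem reg_bd_zero [IsAlgClosed κ] {s : ℕ} {q : ℤ} (hq : q < 0) {g : RatFunc κ}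
    (h : ∀ τ : κ, RegAt τ g) (hb : Bd s q g) : g = 0 := by
  obtain ⟨p, rfl⟩ := poly_of_reg h
  exact bd_zero hq hb

end MPadcLZ
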