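import Pool.Agent.Lib.MP_adc574_ag_LZ.MidA
import Pool.Agent.Lib.MP_adc574_ag_LZ.Nd
import Pool.Agent.Lib.MP_adc574_ag_LZ.InfMain

/-!
# JOBS MidBa, MidBb, MidBc: a flat endomorphism is scalar on the forms of lowest level (section 7)

`σ = N (d - 2)`, `m₀ < d`, `d ∣ m₀ + N` (the lowest degree). `gg u v = B (e [x^u]) [x^v]`, `bb u v = B [x^u] [x^v]`, `sg = (-1)^((m₀ + N)/d + 1)`. Standing hypotheses: section variables (`hS hG hP hI he hm₀ hm₀' hreg`).
Note `σ + 2 N = N d`; `m₀ ≤ σ` (`N, d ≥ 3`).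
* `mid_bd` (MidBa): `[x^u] ∈ V_(-W u)` (`hI.inW`), `inf_endo`, `inf_form`: `Bd s (-(W u) - W v) (gg u v)`.
* `mid_low`: `dg v + m₀ < σ`: `bb = 0` (`hP.low`), so by `hreg` `gg u v` is regular everywhere, and `Bd` with a negative bound (`hI.pos`): 0 by `reg_bd_zero`.
* `mid_q`: `exists_q` for the finite index type `{p : (Fin N →₀ ℕ) × (Fin N →₀ ℕ) // dg p.1 = m₀ ∧ dg p.2 + m₀ = σ}` (finite: exponents of bounded degree, e.g. subset of the product of `Finset.Iic`-like sets, or `Set.Finite` of bounded functions), then `poly_of_reg`.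
* `mid_wd`: `u + v = u' + v'`: `bb u v = sg rho(x^(u+v)) = bb u' v'` (`hP.mid`), so `gg u v - gg u' v'` is a polynomial (`mid_q`), it is `Bd s (-1)` (`mid_bd`, `hI.pos`, `Bd_add`, `Bd_mono`): 0 by `bd_zero`.
* `mid_lam` (MidBb): `Lam` = `(basisMonomials ..).constr` of `w ↦ if h : ∃ u v, u + v = w ∧ dg u = m₀ ∧ dg v + m₀ = σ then gg (choose) (choose) else 0` (`mid_wd`).
* `mid_jac1`: for `dg c + d = σ + 1` and `i`: `Lam (x^c F_i) = 0`. `F_i = G_i - t H_i` over `K` (`fk_eq`, `pderiv_map`). All monomials `w` of `x^c F_i` have `dg w = σ`, `w = u + v` (`exists_le_dg`).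
  `Lam (x^c F_i) = Lam (x^c F_i) - q sg rho (x^c F_i)` (`hP.rho_jac`) `= ∑_w coeff_w (x^c F_i) (Lam x^w - q sg rho x^w)`, `coeff_w (x^c F_i)` is a polynomial in `t` (`FK` is the image of `ft`) and so is `Lam x^w - q sg rho x^w = gg u v - q bb u v` (`mid_q`). So `Lam (x^c F_i) ∈ κ[t]`.
  And `Lam (x^c F_i) = ∑_w coeff_w(x^c G_i) Lam x^w - ∑_w t coeff_w(x^c H_i) Lam x^w`: the first sum is `Bd s (-1)` (`mid_bd`, `hI.pos`), in the second `w ∈ (x^c H_i).support`, so `s < W u + W v` (`hI.big`) and `t Lam x^w` is `Bd s (s - W u - W v)`, so `Bd s (-1)`. `bd_zero`.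
* `mid_jac`: `P ∈ Jac FK` homogeneous of degree `σ`: `jac_comp`: `P = ∑ F_i Q_i`, `Q_i` homogeneous of degree `σ + 1 - d`: combination of `x^c F_i`.
* `scalar_low` (MidBc): `low_ne`: `w⋆ = u + v`, `rho (x^w⋆) ≠ 0`. For `dg w = σ`: `P := rho(x^w⋆) x^w - rho(x^w) x^w⋆`, `rho P = 0`, so `P ∈ Jac` (`hP.rho_perf` with `m = σ`: only `v = 0`), so `Lam P = 0` (`mid_jac`): `Lam x^w = g0 sg rho (x^w)` with `g0 = Lam(x^w⋆) / (sg rho(x^w⋆))`.
  For `dg u = m₀`: `y = e [x^u] - g0 [x^u]`; `B y [x^v] = 0` for `v` in W0, `dg v ≤ σ`: if `dg v + m₀ < σ`: `mid_low`, `hP.low`; `dg v + m₀ = σ`: `gg u v = Lam x^(u+v) = g0 sg rho (x^(u+v)) = g0 bb u v`; `dg v + m₀ > σ` is impossible (`d ∣ dg v + m₀ - σ`, `0 < dg v + m₀ - σ ≤ m₀ < d`).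
  `mo_span`: `B y z = 0` for all `z`, `nd_left`.
-/

set_option autoImplicit false

namespace MPadcLZ

open MvPolynomial MPadcHM

universe u

section Def

variable {κ : Type u} [Field κ] {N : ℕ} (S : PDat κ N) {Mo : Type u}
  [AddCommGroup Mo] [Module (RatFunc κ) Mo]

/-- The filtration at infinity and the weights `W e` of the classes `[x^e] ∈ V_(-W e)`. -/
structure InfW (nab : Mo →+ Mo) (br : MvPolynomial (Fin N) (RatFunc κ) →ₗ[RatFunc κ] Mo)
    (s r : ℕ) (g : Fin r → Mo) (w : Fin r → ℤ) (W : (Fin N →₀ ℕ) → ℕ) : Prop where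
  ok : InfOk κ nab s g w
  inW : ∀ e : Fin N →₀ ℕ, S.d ∣ dg e + N → InV κ s g w (-(W e : ℤ)) (br (monomial e 1))
  pos : ∀ e : Fin N →₀ ℕ, S.d ∣ dg e + N → 1 ≤ W e
  big : ∀ u v : Fin N →₀ ℕ, S.d ∣ dg u + N → dg u + dg v = N * (S.d - 2) →
    (∃ i c, u + v ∈ (monomial c 1 * pderiv i S.H).support) → s < W u + W v

end Def

variable {κ : Type u} [Field κ] [CharZero κ] [IsAlgClosed κ] {N : ℕ} (S : PDat κ N) {Mo : Type u}
  [AddCommGroup Mo] [Module (RatFunc κ) Mo] [Module (Polynomial κ) Mo]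
  [IsScalarTower (Polynomial κ) (RatFunc κ) Mo] {nab : Mo →+ Mo}
  {br : MvPolynomial (Fin N) (RatFunc κ) →ₗ[RatFunc κ] Mo}
  {B : Mo →ₗ[RatFunc κ] Mo →ₗ[RatFunc κ] RatFunc κ}
  {rho : MvPolynomial (Fin N) (RatFunc κ) →ₗ[RatFunc κ] RatFunc κ}
  {s r : ℕ} {g : Fin r → Mo} {w : Fin r → ℤ} {W : (Fin N →₀ ℕ) → ℕ}
  (e : Mo →ₗ[RatFunc κ] Mo) {m₀ : ℕ} {eps : κ → κ}

omit [IsAlgClosed κ] in
theorem mid_bd (hG : IsHG S nab br) (hP : IsPP S nab br B rho) (hI : InfW S nab br s r g w W)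
    (he : ∀ x, e (nab x) = nab (e x)) (u v : Fin N →₀ ℕ) (hu : S.d ∣ dg u + N)
    (hv : S.d ∣ dg v + N) :
    Bd s (-(W u : ℤ) - W v) (B (e (br (monomial u 1))) (br (monomial v 1))) := by
  have h1 := inf_form hG.leib hI.ok B hP.flat (inf_endo hG.leib hI.ok e he (hI.inW u hu))
    (hI.inW v hv)
  rw [sub_eq_add_neg]
  exact h1

theorem mid_low (hS : S.Ok) (hG : IsHG S nab br) (hP : IsPP S nab br B rho)
    (hI : InfW S nab br s r g w W) (he : ∀ x, e (nab x) = nab (e x)) (hm₀' : S.d ∣ m₀ + N)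
    (hreg : ∀ τ, ∀ u v : Fin N →₀ ℕ, dg u = m₀ → S.d ∣ dg v + N → dg v ≤ N * (S.d - 2) →
      RegAt τ (B (e (br (monomial u 1))) (br (monomial v 1)) -
        algebraMap κ (RatFunc κ) (eps τ) * B (br (monomial u 1)) (br (monomial v 1))))
    (u v : Fin N →₀ ℕ) (hu : dg u = m₀) (hv : S.d ∣ dg v + N) (huv : dg v + m₀ < N * (S.d - 2)) :
    B (e (br (monomial u 1))) (br (monomial v 1)) = 0 := by
  have hu' : S.d ∣ dg u + N := by
    rw [hu]
    exact hm₀'
  have hlow : B (br (monomial u 1)) (br (monomial v 1)) = 0 := hP.low u v (by omega)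
  have hb := mid_bd S e hG hP hI he u v hu' hv
  refine reg_bd_zero (s := s) (q := -(W u : ℤ) - W v) ?_ (fun τ => ?_) hb
  · have h1 := hI.pos u hu'
    have h2 := hI.pos v hv
    omega
  · have h3 := hreg τ u v hu hv (by omega)
    rw [hlow, mul_zero, sub_zero] at h3
    exact h3

omit [CharZero κ] [IsAlgClosed κ] in
private theorem midba_dvd (hS : S.Ok) (hm₀' : S.d ∣ m₀ + N) {v : Fin N →₀ ℕ}
    (hv : dg v + m₀ = N * (S.d - 2)) : S.d ∣ dg v + N := by
  have hd := hS.hd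
  have h1 : (dg v + N) + (m₀ + N) = S.d * N := by
    have h2 : N * S.d = N * (S.d - 2) + N * 2 := by
      rw [← mul_add]
      congr 1
      omega
    rw [mul_comm S.d N, h2, ← hv]
    ring
  have h3 : S.d ∣ (dg v + N) + (m₀ + N) := by
    rw [h1]
    exact dvd_mul_right _ _
  exact (Nat.dvd_add_left hm₀').1 h3

private theorem midba_fin {N : ℕ} (M : ℕ) : {e : Fin N →₀ ℕ | dg e ≤ M}.Finite := by
  refine (Set.finite_Iic (Finsupp.equivFunOnFinite.symm (fun _ : Fin N => M))).subset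
    fun e he => ?_
  intro i
  have h1 : e i ≤ dg e :=
    Finset.single_le_sum (f := fun j => e j) (fun j _ => Nat.zero_le _) (Finset.mem_univ i)
  have h2 : dg e ≤ M := he
  exact h1.trans h2

theorem mid_q (hS : S.Ok) (hG : IsHG S nab br) (hP : IsPP S nab br B rho)
    (hm₀' : S.d ∣ m₀ + N)
    (hreg : ∀ τ, ∀ u v : Fin N →₀ ℕ, dg u = m₀ → S.d ∣ dg v + N → dg v ≤ N * (S.d - 2) →
      RegAt τ (B (e (br (monomial u 1))) (br (monomial v 1)) -
        algebraMap κ (RatFunc κ) (eps τ) * B (br (monomial u 1)) (br (monomial v 1)))) :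
    ∃ q : Polynomial κ, ∀ u v : Fin N →₀ ℕ, dg u = m₀ → dg v + m₀ = N * (S.d - 2) →
      ∃ p : Polynomial κ, B (e (br (monomial u 1))) (br (monomial v 1)) -
        algebraMap (Polynomial κ) (RatFunc κ) q * B (br (monomial u 1)) (br (monomial v 1)) =
        algebraMap (Polynomial κ) (RatFunc κ) p := by
  have hfin : {p : (Fin N →₀ ℕ) × (Fin N →₀ ℕ) |
      dg p.1 = m₀ ∧ dg p.2 + m₀ = N * (S.d - 2)}.Finite := by
    refine ((midba_fin (N := N) m₀).prod (midba_fin (N := N) (N * (S.d - 2)))).subset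
      fun p hp => ?_
    exact ⟨hp.1.le, (Nat.le_add_right _ _).trans hp.2.le⟩
  have hfin' : Finite {p : (Fin N →₀ ℕ) × (Fin N →₀ ℕ) //
      dg p.1 = m₀ ∧ dg p.2 + m₀ = N * (S.d - 2)} := hfin
  obtain ⟨q, hq⟩ := exists_q
    (fun p : {p : (Fin N →₀ ℕ) × (Fin N →₀ ℕ) //
      dg p.1 = m₀ ∧ dg p.2 + m₀ = N * (S.d - 2)} =>
      B (e (br (monomial p.1.1 1))) (br (monomial p.1.2 1)))
    (fun p => B (br (monomial p.1.1 1)) (br (monomial p.1.2 1))) eps
    (fun τ p => hreg τ p.1.1 p.1.2 p.2.1 (midba_dvd S hS hm₀' p.2.2)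
      ((Nat.le_add_right _ _).trans p.2.2.le))
  exact ⟨q, fun u v hu hv => poly_of_reg (fun τ => hq ⟨(u, v), hu, hv⟩ τ)⟩

theorem mid_wd (hS : S.Ok) (hG : IsHG S nab br) (hP : IsPP S nab br B rho)
    (hI : InfW S nab br s r g w W) (he : ∀ x, e (nab x) = nab (e x)) (hm₀' : S.d ∣ m₀ + N)
    (hreg : ∀ τ, ∀ u v : Fin N →₀ ℕ, dg u = m₀ → S.d ∣ dg v + N → dg v ≤ N * (S.d - 2) →
      RegAt τ (B (e (br (monomial u 1))) (br (monomial v 1)) -
        algebraMap κ (RatFunc κ) (eps τ) * B (br (monomial u 1)) (br (monomial v 1))))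
    (u v u' v' : Fin N →₀ ℕ) (hu : dg u = m₀) (hv : dg v + m₀ = N * (S.d - 2))
    (hu' : dg u' = m₀) (hv' : dg v' + m₀ = N * (S.d - 2)) (h : u + v = u' + v') :
    B (e (br (monomial u 1))) (br (monomial v 1)) =
      B (e (br (monomial u' 1))) (br (monomial v' 1)) := by
  have hdu : S.d ∣ dg u + N := by
    rw [hu]
    exact hm₀'
  have hdu' : S.d ∣ dg u' + N := by
    rw [hu']
    exact hm₀'
  have hdv := midba_dvd S hS hm₀' hv
  have hdv' := midba_dvd S hS hm₀' hv'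
  have hbb : B (br (monomial u 1)) (br (monomial v 1)) =
      B (br (monomial u' 1)) (br (monomial v' 1)) := by
    rw [hP.mid u v hdu (by omega), hP.mid u' v' hdu' (by omega), hu, hu', h]
  obtain ⟨q, hq⟩ := mid_q S e hS hG hP hm₀' hreg
  obtain ⟨p, hp⟩ := hq u v hu hv
  obtain ⟨p', hp'⟩ := hq u' v' hu' hv'
  have hb1 : Bd s (-1) (B (e (br (monomial u 1))) (br (monomial v 1))) := by
    refine Bd_mono (mid_bd S e hG hP hI he u v hdu hdv) ?_
    have h1 := hI.pos u hdu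
    omega
  have hb2 : Bd s (-1) (B (e (br (monomial u' 1))) (br (monomial v' 1))) := by
    refine Bd_mono (mid_bd S e hG hP hI he u' v' hdu' hdv') ?_
    have h1 := hI.pos u' hdu'
    omega
  have heq : B (e (br (monomial u 1))) (br (monomial v 1)) -
      B (e (br (monomial u' 1))) (br (monomial v' 1)) =
      algebraMap (Polynomial κ) (RatFunc κ) (p - p') := by
    rw [map_sub, ← hp, ← hp', hbb]
    ring
  have hb3 : Bd s (-1) (B (e (br (monomial u 1))) (br (monomial v 1)) -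
      B (e (br (monomial u' 1))) (br (monomial v' 1))) := by
    have h2 := Bd_smul (-1 : κ) hb2
    rw [neg_smul, one_smul] at h2
    rw [sub_eq_add_neg]
    exact Bd_add hb1 h2
  rw [heq] at hb3
  have h0 := bd_zero (by norm_num) hb3
  rw [← heq] at h0
  exact sub_eq_zero.1 h0

theorem mid_lam (hS : S.Ok) (hG : IsHG S nab br) (hP : IsPP S nab br B rho)
    (hI : InfW S nab br s r g w W) (he : ∀ x, e (nab x) = nab (e x)) (hm₀' : S.d ∣ m₀ + N)
    (hreg : ∀ τ, ∀ u v : Fin N →₀ ℕ, dg u = m₀ → S.d ∣ dg v + N → dg v ≤ N * (S.d - 2) →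
      RegAt τ (B (e (br (monomial u 1))) (br (monomial v 1)) -
        algebraMap κ (RatFunc κ) (eps τ) * B (br (monomial u 1)) (br (monomial v 1)))) :
    ∃ Lam : MvPolynomial (Fin N) (RatFunc κ) →ₗ[RatFunc κ] RatFunc κ,
      ∀ u v : Fin N →₀ ℕ, dg u = m₀ → dg v + m₀ = N * (S.d - 2) →
        Lam (monomial (u + v) 1) = B (e (br (monomial u 1))) (br (monomial v 1)) := by
  classical
  refine ⟨(MvPolynomial.basisMonomials (Fin N) (RatFunc κ)).constr (RatFunc κ) (fun w =>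
    if h : ∃ p : (Fin N →₀ ℕ) × (Fin N →₀ ℕ), p.1 + p.2 = w ∧ dg p.1 = m₀ ∧
        dg p.2 + m₀ = N * (S.d - 2) then
      B (e (br (monomial (Classical.choose h).1 1))) (br (monomial (Classical.choose h).2 1))
    else 0), ?_⟩
  intro u v hu hv
  have hb : (monomial (u + v) (1 : RatFunc κ)) =
      (MvPolynomial.basisMonomials (Fin N) (RatFunc κ)) (u + v) := by simp
  rw [hb, Module.Basis.constr_basis]
  have h : ∃ p : (Fin N →₀ ℕ) × (Fin N →₀ ℕ), p.1 + p.2 = u + v ∧ dg p.1 = m₀ ∧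
      dg p.2 + m₀ = N * (S.d - 2) := ⟨(u, v), rfl, hu, hv⟩
  rw [dif_pos h]
  obtain ⟨h1, h2, h3⟩ := Classical.choose_spec h
  exact mid_wd S e hS hG hP hI he hm₀' hreg _ _ _ _ h2 h3 hu hv h1

private theorem midbb_map_sum {κ : Type u} [Field κ] {N : ℕ}
    (L : MvPolynomial (Fin N) (RatFunc κ) →ₗ[RatFunc κ] RatFunc κ)
    (Q : MvPolynomial (Fin N) κ) :
    L (Q.map (algebraMap κ (RatFunc κ))) =
      ∑ x ∈ Q.support, coeff x Q • L (monomial x 1) := by
  have h : Q.map (algebraMap κ (RatFunc κ)) =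
      ∑ x ∈ Q.support, (algebraMap κ (RatFunc κ) (coeff x Q)) • monomial x (1 : RatFunc κ) := by
    conv_lhs => rw [Q.as_sum, map_sum]
    refine Finset.sum_congr rfl fun x _ => ?_
    rw [map_monomial, smul_monomial, smul_eq_mul, mul_one]
  rw [h, map_sum]
  refine Finset.sum_congr rfl fun x _ => ?_
  rw [map_smul, algebraMap_smul]

private theorem midbb_pd {κ : Type u} [Field κ] {N d m : ℕ} {G : MvPolynomial (Fin N) κ}
    (hG : Hm d G) (c : Fin N →₀ ℕ) (hc : dg c + d = m + 1) (i : Fin N) :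
    Hm m (monomial c 1 * pderiv i G) := by
  classical
  have hdg : ∀ x : Fin N →₀ ℕ, x.degree = dg x := by
    intro x
    rw [Finsupp.degree_eq_sum]
    rfl
  have hwt : ∀ x : Fin N →₀ ℕ, Finsupp.weight 1 x = dg x := by
    intro x
    exact (DFunLike.congr_fun Finsupp.degree_eq_weight_one x).symm.trans (hdg x)
  have h1 : G.IsHomogeneous d := by
    intro x hx
    rw [hwt]
    exact hG x (mem_support_iff.2 hx)
  have h2 := h1.pderiv (i := i)
  have h3 : (monomial c (1 : κ)).IsHomogeneous (dg c) := isHomogeneous_monomial _ (hdg c)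
  have h4 := h3.mul h2
  intro x hx
  have hne := mem_support_iff.1 hx
  have h5 := h4 hne
  rw [hwt] at h5
  by_cases hd : d = 0
  · subst hd
    exfalso
    have h6 : G = C (coeff 0 G) := totalDegree_eq_zero_iff_eq_C.1 (Nat.le_zero.1 h1.totalDegree_le)
    rw [h6, pderiv_C, mul_zero] at hne
    exact hne (coeff_zero _)
  · omega

private theorem midbb_sumBd {κ : Type u} [Field κ] {s : ℕ} {q : ℤ} {ι : Type*} (T : Finset ι)
    (f : ι → RatFunc κ) (h : ∀ x ∈ T, Bd s q (f x)) : Bd s q (∑ x ∈ T, f x) :=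
  Finset.sum_induction f (Bd s q) (fun _ _ ha hb => Bd_add ha hb) (Or.inl rfl) h

private theorem midbb_arith {N d m n : ℕ} (hd : 3 ≤ d) (h : n + m = N * (d - 2))
    (hm : d ∣ m + N) : d ∣ n + N := by
  obtain ⟨k, rfl⟩ := Nat.exists_eq_add_of_le' hd
  have h1 : (m + N) + (n + N) = N * (k + 3) := by
    have h2 : N * (k + 3 - 2) = N * k + N := by
      have : k + 3 - 2 = k + 1 := by omega
      rw [this]
      ring
    rw [h2] at h
    have h3 : N * (k + 3) = N * k + 3 * N := by ring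
    rw [h3]
    omega
  exact (Nat.dvd_add_right hm).1 (h1 ▸ Dvd.intro_left N rfl)

private theorem midbb_le {N d m : ℕ} (hN : 3 ≤ N) (hd : 3 ≤ d) (hm : m < d) :
    m ≤ N * (d - 2) := by
  have h1 : 3 * (d - 2) ≤ N * (d - 2) := Nat.mul_le_mul_right _ hN
  omega

theorem mid_jac1 (hS : S.Ok) (hG : IsHG S nab br) (hP : IsPP S nab br B rho)
    (hI : InfW S nab br s r g w W) (he : ∀ x, e (nab x) = nab (e x)) (hm₀ : m₀ < S.d)
    (hm₀' : S.d ∣ m₀ + N)
    (hreg : ∀ τ, ∀ u v : Fin N →₀ ℕ, dg u = m₀ → S.d ∣ dg v + N → dg v ≤ N * (S.d - 2) →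
      RegAt τ (B (e (br (monomial u 1))) (br (monomial v 1)) -
        algebraMap κ (RatFunc κ) (eps τ) * B (br (monomial u 1)) (br (monomial v 1))))
    (Lam : MvPolynomial (Fin N) (RatFunc κ) →ₗ[RatFunc κ] RatFunc κ)
    (hLam : ∀ u v : Fin N →₀ ℕ, dg u = m₀ → dg v + m₀ = N * (S.d - 2) →
      Lam (monomial (u + v) 1) = B (e (br (monomial u 1))) (br (monomial v 1)))
    (c : Fin N →₀ ℕ) (hc : dg c + S.d = N * (S.d - 2) + 1) (i : Fin N) :
    Lam (monomial c 1 * pderiv i S.FK) = 0 := by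
  classical
  have hN := hS.hN
  have hd := hS.hd
  have hPe : monomial c 1 * pderiv i S.FK =
      (monomial c 1 * pderiv i S.G).map (algebraMap κ (RatFunc κ)) -
        (RatFunc.X : RatFunc κ) • (monomial c 1 * pderiv i S.H).map (algebraMap κ (RatFunc κ)) := by
    rw [fk_eq S, map_sub, Derivation.leibniz, pderiv_C, smul_zero, add_zero, pderiv_map, pderiv_map,
      smul_eq_C_mul, smul_eq_mul, map_mul, map_mul, map_monomial,
      map_one (algebraMap κ (RatFunc κ))]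
    ring
  have hGm : Hm (N * (S.d - 2)) (monomial c 1 * pderiv i S.G) := midbb_pd hS.homG c hc i
  have hHm : Hm (N * (S.d - 2)) (monomial c 1 * pderiv i S.H) := midbb_pd hS.homH c hc i
  have hsplit : ∀ x : Fin N →₀ ℕ, dg x = N * (S.d - 2) →
      ∃ u v, u + v = x ∧ dg u = m₀ ∧ dg v + m₀ = N * (S.d - 2) := by
    intro x hx
    obtain ⟨u, v, huv, hu⟩ := exists_le_dg x m₀ (hx ▸ midbb_le hN hd hm₀)
    refine ⟨u, v, huv, hu, ?_⟩
    have h1 : dg u + dg v = dg x := by rw [← dg_add, huv]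
    omega
  -- the value is a polynomial
  obtain ⟨q, hq⟩ := mid_q S e hS hG hP hm₀' hreg
  have hpol : Lam (monomial c 1 * pderiv i S.FK) ∈
      (algebraMap (Polynomial κ) (RatFunc κ)).range := by
    set sg : RatFunc κ := (-1) ^ ((m₀ + N) / S.d + 1) with hsg
    set T : MvPolynomial (Fin N) (RatFunc κ) →ₗ[RatFunc κ] RatFunc κ :=
      Lam - (algebraMap (Polynomial κ) (RatFunc κ) q * sg) • rho with hT
    have hTx : ∀ x : Fin N →₀ ℕ, dg x = N * (S.d - 2) →
        T (monomial x 1) ∈ (algebraMap (Polynomial κ) (RatFunc κ)).range := by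
      intro x hx
      obtain ⟨u, v, huv, hu, hv⟩ := hsplit x hx
      obtain ⟨p, hp⟩ := hq u v hu hv
      refine ⟨p, ?_⟩
      have hdu : S.d ∣ dg u + N := by rw [hu]; exact hm₀'
      have h1 := hP.mid u v hdu (by omega)
      rw [hu] at h1
      rw [← hp, hT, LinearMap.sub_apply, LinearMap.smul_apply, smul_eq_mul, ← huv,
        hLam u v hu hv, h1, mul_assoc]
    have hTm : ∀ Q : MvPolynomial (Fin N) κ, Hm (N * (S.d - 2)) Q →
        T (Q.map (algebraMap κ (RatFunc κ))) ∈ (algebraMap (Polynomial κ) (RatFunc κ)).range := by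
      intro Q hQ
      rw [midbb_map_sum]
      refine sum_mem fun x hx => ?_
      have h1 : coeff x Q • T (monomial x 1) =
          algebraMap (Polynomial κ) (RatFunc κ) (Polynomial.C (coeff x Q)) * T (monomial x 1) := by
        rw [RatFunc.algebraMap_C, Algebra.smul_def, RatFunc.algebraMap_eq_C]
      rw [h1]
      exact mul_mem ⟨_, rfl⟩ (hTx x (hQ x hx))
    have hTP : T (monomial c 1 * pderiv i S.FK) = Lam (monomial c 1 * pderiv i S.FK) := by
      rw [hT, LinearMap.sub_apply, LinearMap.smul_apply, mul_comm (monomial c 1) (pderiv i S.FK),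
        hP.rho_jac, smul_zero, sub_zero]
    rw [← hTP, hPe, map_sub, map_smul, smul_eq_mul]
    exact sub_mem (hTm _ hGm) (mul_mem ⟨Polynomial.X, RatFunc.algebraMap_X⟩ (hTm _ hHm))
  -- the value has negative degree
  have hbd : Bd s (-1) (Lam (monomial c 1 * pderiv i S.FK)) := by
    rw [hPe, map_sub, map_smul, smul_eq_mul, sub_eq_add_neg, midbb_map_sum, midbb_map_sum,
      Finset.mul_sum]
    refine Bd_add (midbb_sumBd _ _ fun x hx => Bd_smul _ ?_) ?_
    · obtain ⟨u, v, huv, hu, hv⟩ := hsplit x (hGm x hx)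
      have hdu : S.d ∣ dg u + N := by rw [hu]; exact hm₀'
      have hdv : S.d ∣ dg v + N := midbb_arith hd hv hm₀'
      rw [← huv, hLam u v hu hv]
      refine Bd_mono (mid_bd S e hG hP hI he u v hdu hdv) ?_
      have h1 := hI.pos u hdu
      omega
    · have hneg : -(∑ x ∈ (monomial c 1 * pderiv i S.H).support,
          RatFunc.X * coeff x (monomial c 1 * pderiv i S.H) • Lam (monomial x 1)) =
          (-1 : κ) • (∑ x ∈ (monomial c 1 * pderiv i S.H).support,
          RatFunc.X * coeff x (monomial c 1 * pderiv i S.H) • Lam (monomial x 1)) := by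
        rw [neg_smul, one_smul]
      rw [hneg]
      refine Bd_smul _ (midbb_sumBd _ _ fun x hx => ?_)
      obtain ⟨u, v, huv, hu, hv⟩ := hsplit x (hHm x hx)
      have hdu : S.d ∣ dg u + N := by rw [hu]; exact hm₀'
      have hdv : S.d ∣ dg v + N := midbb_arith hd hv hm₀'
      have h2 := hI.big u v hdu (by omega) ⟨i, c, by rw [huv]; exact hx⟩
      have h3 := mid_bd S e hG hP hI he u v hdu hdv
      rw [← hLam u v hu hv, huv] at h3
      have h4 := Bd_X.2 (Bd_smul (coeff x (monomial c 1 * pderiv i S.H)) h3)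
      refine Bd_mono h4 ?_
      omega
  obtain ⟨p, hp⟩ := hpol
  rw [← hp] at hbd ⊢
  exact bd_zero (by norm_num) hbd

theorem mid_jac (hS : S.Ok) (hG : IsHG S nab br) (hP : IsPP S nab br B rho)
    (hI : InfW S nab br s r g w W) (he : ∀ x, e (nab x) = nab (e x)) (hm₀ : m₀ < S.d)
    (hm₀' : S.d ∣ m₀ + N)
    (hreg : ∀ τ, ∀ u v : Fin N →₀ ℕ, dg u = m₀ → S.d ∣ dg v + N → dg v ≤ N * (S.d - 2) →
      RegAt τ (B (e (br (monomial u 1))) (br (monomial v 1)) -
        algebraMap κ (RatFunc κ) (eps τ) * B (br (monomial u 1)) (br (monomial v 1))))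
    (Lam : MvPolynomial (Fin N) (RatFunc κ) →ₗ[RatFunc κ] RatFunc κ)
    (hLam : ∀ u v : Fin N →₀ ℕ, dg u = m₀ → dg v + m₀ = N * (S.d - 2) →
      Lam (monomial (u + v) 1) = B (e (br (monomial u 1))) (br (monomial v 1)))
    (P : MvPolynomial (Fin N) (RatFunc κ)) (hPm : Hm (N * (S.d - 2)) P) (hPJ : P ∈ Jac S.FK) :
    Lam P = 0 := by
  obtain ⟨Q, hQ, hQm⟩ := jac_comp (le_trans (by norm_num) hS.hd) (fk_hom S hS) hPm hPJ
  rw [hQ, map_sum]
  refine Finset.sum_eq_zero fun i _ => ?_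
  have h1 : pderiv i S.FK * Q i =
      ∑ c ∈ (Q i).support, coeff c (Q i) • (monomial c 1 * pderiv i S.FK) := by
    conv_lhs => rw [(Q i).as_sum, Finset.mul_sum]
    refine Finset.sum_congr rfl fun c _ => ?_
    rw [← smul_mul_assoc, smul_monomial, smul_eq_mul, mul_one, mul_comm]
  rw [h1, map_sum]
  refine Finset.sum_eq_zero fun c hc => ?_
  rw [map_smul, mid_jac1 S e hS hG hP hI he hm₀ hm₀' hreg Lam hLam c (hQm i c hc) i, smul_zero]

theorem scalar_low (hS : S.Ok) (hG : IsHG S nab br) (hP : IsPP S nab br B rho)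
    (hI : InfW S nab br s r g w W) (he : ∀ x, e (nab x) = nab (e x)) (hm₀ : m₀ < S.d)
    (hm₀' : S.d ∣ m₀ + N)
    (hreg : ∀ τ, ∀ u v : Fin N →₀ ℕ, dg u = m₀ → S.d ∣ dg v + N → dg v ≤ N * (S.d - 2) →
      RegAt τ (B (e (br (monomial u 1))) (br (monomial v 1)) -
        algebraMap κ (RatFunc κ) (eps τ) * B (br (monomial u 1)) (br (monomial v 1)))) :
    ∃ g0 : RatFunc κ, ∀ u : Fin N →₀ ℕ, dg u = m₀ →
      e (br (monomial u 1)) = g0 • br (monomial u 1) := by
  classical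
  obtain ⟨u0, v0, hu0, hv0, hne⟩ := low_ne S hS hP m₀ hm₀
  obtain ⟨Lam, hLam⟩ := mid_lam S e hS hG hP hI he hm₀' hreg
  have hsg : ((-1 : RatFunc κ) ^ ((m₀ + N) / S.d + 1)) ≠ 0 := pow_ne_zero _ (by
    rw [Ne, neg_eq_zero]
    exact one_ne_zero)
  have hbb : ∀ u v : Fin N →₀ ℕ, dg u = m₀ → dg v + m₀ = N * (S.d - 2) →
      B (br (monomial u 1)) (br (monomial v 1)) =
        (-1) ^ ((m₀ + N) / S.d + 1) * rho (monomial (u + v) 1) := by
    intro u v hu hv
    have h1 := hP.mid u v (by rw [hu]; exact hm₀') (by omega)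
    rw [hu] at h1
    exact h1
  have hw0 : dg (u0 + v0) = N * (S.d - 2) := by
    rw [dg_add]
    omega
  have hA : ∀ w : Fin N →₀ ℕ, dg w = N * (S.d - 2) →
      rho (monomial (u0 + v0) 1) * Lam (monomial w 1) =
        rho (monomial w 1) * Lam (monomial (u0 + v0) 1) := by
    intro w hw
    have hPm : Hm (N * (S.d - 2)) (rho (monomial (u0 + v0) 1) • monomial w (1 : RatFunc κ) -
        rho (monomial w 1) • monomial (u0 + v0) (1 : RatFunc κ)) := by
      intro a ha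
      rw [smul_monomial, smul_monomial] at ha
      rcases Finset.mem_union.1 (support_sub _ _ _ ha) with h1 | h1
      · rw [Finset.mem_singleton.1 (support_monomial_subset h1)]
        exact hw
      · rw [Finset.mem_singleton.1 (support_monomial_subset h1)]
        exact hw0
    have hJ : rho (monomial (u0 + v0) 1) • monomial w (1 : RatFunc κ) -
        rho (monomial w 1) • monomial (u0 + v0) (1 : RatFunc κ) ∈ Jac S.FK := by
      refine hP.rho_perf (N * (S.d - 2)) le_rfl _ hPm (fun v hv => ?_)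
      have hv1 : dg v = 0 := by omega
      have hv2 : v = 0 := by
        ext i
        have h3 : ∑ i, v i = 0 := hv1
        exact (Finset.sum_eq_zero_iff.1 h3) i (Finset.mem_univ i)
      have h4 : monomial (0 : Fin N →₀ ℕ) (1 : RatFunc κ) = 1 := rfl
      rw [hv2, h4, mul_one, map_sub, map_smul, map_smul, smul_eq_mul, smul_eq_mul]
      ring
    have h5 := mid_jac S e hS hG hP hI he hm₀ hm₀' hreg Lam hLam _ hPm hJ
    rw [map_sub, map_smul, map_smul, smul_eq_mul, smul_eq_mul, sub_eq_zero] at h5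
    exact h5
  refine ⟨Lam (monomial (u0 + v0) 1) /
    ((-1) ^ ((m₀ + N) / S.d + 1) * rho (monomial (u0 + v0) 1)), fun u hu => ?_⟩
  rw [← sub_eq_zero]
  apply nd_left S hS hG hP
  intro z
  have hz : z ∈ Submodule.span (RatFunc κ) {x | ∃ e : Fin N →₀ ℕ, S.d ∣ dg e + N ∧
      dg e ≤ N * (S.d - 2) ∧ x = br (monomial e 1)} := by
    rw [mo_span S hS hG hP]
    exact Submodule.mem_top
  induction hz using Submodule.span_induction with
  | zero => rw [map_zero]
  | add x y _ _ hx hy => rw [map_add, hx, hy, add_zero]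
  | smul c x _ hx => rw [map_smul, hx, smul_zero]
  | mem x hx =>
    obtain ⟨v, hv1, hv2, rfl⟩ := hx
    rw [map_sub, map_smul, LinearMap.sub_apply, LinearMap.smul_apply, smul_eq_mul]
    rcases lt_trichotomy (dg v + m₀) (N * (S.d - 2)) with h1 | h1 | h1
    · rw [mid_low S e hS hG hP hI he hm₀' hreg u v hu hv1 h1, hP.low u v (by omega), mul_zero,
        sub_zero]
    · have h2 := hA (u + v) (by rw [dg_add]; omega)
      rw [← hLam u v hu h1, hbb u v hu h1]
      rw [div_mul_eq_mul_div, sub_eq_zero, eq_div_iff (mul_ne_zero hsg hne)]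
      linear_combination ((-1) ^ ((m₀ + N) / S.d + 1)) * h2
    · exfalso
      obtain ⟨k1, hk1⟩ := hv1
      obtain ⟨k2, hk2⟩ := hm₀'
      have hd := hS.hd
      have h3 : N * (S.d - 2) + 2 * N = S.d * N := by
        obtain ⟨a, ha⟩ : ∃ a, S.d = a + 2 := ⟨S.d - 2, by omega⟩
        rw [ha, Nat.add_sub_cancel]
        ring
      have h4 : S.d * (k1 + k2) = dg v + m₀ + 2 * N := by
        rw [mul_add, ← hk1, ← hk2]
        ring
      rcases Nat.lt_or_ge N (k1 + k2) with h5 | h5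
      · have h6 : S.d * (N + 1) ≤ S.d * (k1 + k2) := Nat.mul_le_mul_left _ h5
        rw [mul_add, mul_one] at h6
        omega
      · have h6 : S.d * (k1 + k2) ≤ S.d * N := Nat.mul_le_mul_left _ h5
        omega

end MPadcLZ
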