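import Mathlib

/-!
# JOB RsA: determinants (Part I of the Lefschetz pencils paper, proof by the transformation law)

* `cramer_mem`: `adjugate C * (C g) = det C • g` (`Matrix.adjugate_mul`, `Matrix.mulVec_mulVec`, `Matrix.smul_mulVec`), so `det C * g j = ∑ k, adjugate C j k * (C g) k`.
* `det_diff`: for a finset `T` of rows let `E_T i j = if i ∈ T then E' i j else E i j`. Claim (`Finset.induction_on`): `det E - det E_T ∈ span (range g)`.
  Step `insert r T`, `r ∉ T`: the matrices `E_T` and `E_{insert r T}` differ in the row `r` only (`E r`, resp. `E' r`), so by linearity in this row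
  (`Matrix.det_updateRow_add`/`det_updateRow_sub`-type: write `E_T = updateRow E_T r (E r)`, `E_{insert r T} = updateRow E_T r (E' r)`, `Matrix.detRowAlternating.map_update_sub` or `det_updateRow_add` with `E r = (E r - E' r) + E' r`)
  `det E_T - det E_{insert r T} = det G`, `G = updateRow E_T r (E r - E' r)`. `G.mulVec f` is `g s` for `s ≠ r` and `0` for `s = r`. As in `cramer_mem` `det G * f j = ∑ s, adjugate G j s * (G f) s` is in
  `I_r = span (g '' {s | s ≠ r})` for all `j`; `g r = ∑ j, E r j * f j`, so `g r * det G ∈ I_r`, and by `hg` `det G ∈ I_r ≤ span (range g)`. For `T = univ` `E_T = E'`.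
* `der_det` (Jacobi): `D (det M) = ∑ i, det (updateRow M i (D ∘ M i))` (`Matrix.det_apply`, `Derivation.leibniz` for products: `D (∏ i, a i) = ∑ i, (∏ j ∈ univ.erase i, a j) * D (a i)`, `Derivation.leibniz_prod`
  or Finset induction), and `det (updateRow M i v) = ∑ j, v j * adjugate M j i` (`Matrix.det_eq_sum_mul_adjugate_row`, `Matrix.adjugate_apply`; the adjugate entries `j i` do not depend on the row `i`).
-/

set_option autoImplicit false

namespace MPadcLZ

private theorem rsa_sum {R : Type*} [CommRing R] {ι : Type*} [Fintype ι] [DecidableEq ι]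
    (C : Matrix ι ι R) (g : ι → R) (j : ι) :
    C.det * g j = ∑ k, C.adjugate j k * (C.mulVec g) k := by
  have h1 : C.adjugate.mulVec (C.mulVec g) = C.det • g := by
    rw [Matrix.mulVec_mulVec, Matrix.adjugate_mul, Matrix.smul_mulVec, Matrix.one_mulVec]
  have h2 := congrFun h1 j
  rw [Pi.smul_apply, smul_eq_mul] at h2
  rw [← h2]
  rfl

theorem cramer_mem {R : Type*} [CommRing R] {ι : Type*} [Fintype ι] [DecidableEq ι]
    (C : Matrix ι ι R) (g : ι → R) (j : ι) :
    C.det * g j ∈ Ideal.span (Set.range (C.mulVec g)) := by
  rw [rsa_sum]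
  exact Ideal.sum_mem _ fun k _ => Ideal.mul_mem_left _ _ (Ideal.subset_span ⟨k, rfl⟩)

theorem det_diff {R : Type*} [CommRing R] {ι : Type*} [Fintype ι] [DecidableEq ι] (f g : ι → R)
    (E E' : Matrix ι ι R) (hE : E.mulVec f = g) (hE' : E'.mulVec f = g)
    (hg : ∀ r x, g r * x ∈ Ideal.span (g '' {s | s ≠ r}) → x ∈ Ideal.span (g '' {s | s ≠ r})) :
    E.det - E'.det ∈ Ideal.span (Set.range g) := by
  classical
  have key : ∀ T : Finset ι, E.det - (Matrix.of fun i => if i ∈ T then E' i else E i).det ∈
      Ideal.span (Set.range g) := by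
    intro T
    induction T using Finset.induction_on with
    | empty =>
      have h1 : (Matrix.of fun i => if i ∈ (∅ : Finset ι) then E' i else E i) = E := by
        funext i
        change (if i ∈ (∅ : Finset ι) then E' i else E i) = E i
        rw [if_neg (Finset.notMem_empty i)]
      rw [h1, sub_self]
      exact Ideal.zero_mem _
    | insert r T hr ih =>
      obtain ⟨M, hM⟩ : ∃ M : Matrix ι ι R, M = Matrix.of fun i => if i ∈ T then E' i else E i :=
        ⟨_, rfl⟩
      rw [← hM] at ih
      have hMi : ∀ i, M i = if i ∈ T then E' i else E i := by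
        intro i
        rw [hM]
        rfl
      have e1 : M = M.updateRow r ((E r - E' r) + E' r) := by
        rw [sub_add_cancel]
        funext i
        by_cases h1 : i = r
        · subst h1
          rw [Matrix.updateRow_self, hMi, if_neg hr]
        · rw [Matrix.updateRow_ne h1]
      have e2 : (Matrix.of fun i => if i ∈ insert r T then E' i else E i) =
          M.updateRow r (E' r) := by
        funext i
        change (if i ∈ insert r T then E' i else E i) = _
        by_cases h1 : i = r
        · subst h1
          rw [Matrix.updateRow_self, if_pos (Finset.mem_insert_self _ _)]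
        · rw [Matrix.updateRow_ne h1, hMi]
          have h2 : i ∈ insert r T ↔ i ∈ T := by
            rw [Finset.mem_insert]
            exact ⟨fun h => h.resolve_left h1, Or.inr⟩
          by_cases h3 : i ∈ T
          · rw [if_pos h3, if_pos (h2.2 h3)]
          · rw [if_neg h3, if_neg (fun h => h3 (h2.1 h))]
      obtain ⟨G, hG⟩ : ∃ G : Matrix ι ι R, G = M.updateRow r (E r - E' r) := ⟨_, rfl⟩
      have e3 : M.det = G.det + (M.updateRow r (E' r)).det := by
        conv_lhs => rw [e1]
        rw [Matrix.det_updateRow_add, hG]
      have hGf : ∀ s, (G.mulVec f) s = if s = r then 0 else g s := by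
        intro s
        change G s ⬝ᵥ f = _
        have q1 : E s ⬝ᵥ f = g s := congrFun hE s
        have q2 : E' s ⬝ᵥ f = g s := congrFun hE' s
        by_cases h1 : s = r
        · subst h1
          rw [if_pos rfl, hG, Matrix.updateRow_self, sub_dotProduct, q1, q2, sub_self]
        · rw [if_neg h1, hG, Matrix.updateRow_ne h1, hMi]
          split_ifs
          · exact q2
          · exact q1
      have hGj : ∀ j, G.det * f j ∈ Ideal.span (g '' {s | s ≠ r}) := by
        intro j
        rw [rsa_sum]
        refine Ideal.sum_mem _ fun s _ => ?_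
        rw [hGf]
        by_cases h1 : s = r
        · rw [if_pos h1, mul_zero]
          exact Ideal.zero_mem _
        · rw [if_neg h1]
          exact Ideal.mul_mem_left _ _ (Ideal.subset_span ⟨s, h1, rfl⟩)
      have hgr : g r * G.det ∈ Ideal.span (g '' {s | s ≠ r}) := by
        have h1 : g r = ∑ j, E r j * f j := (congrFun hE r).symm
        rw [h1, Finset.sum_mul]
        refine Ideal.sum_mem _ fun j _ => ?_
        rw [mul_assoc, mul_comm (f j)]
        exact Ideal.mul_mem_left _ _ (hGj j)
      have hGm : G.det ∈ Ideal.span (Set.range g) :=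
        Ideal.span_mono (Set.image_subset_range _ _) (hg r _ hgr)
      rw [e2]
      have h5 : E.det - (M.updateRow r (E' r)).det = (E.det - M.det) + G.det := by
        rw [e3]
        ring
      rw [h5]
      exact Ideal.add_mem _ ih hGm
  have h6 := key Finset.univ
  have h7 : (Matrix.of fun i => if i ∈ (Finset.univ : Finset ι) then E' i else E i) = E' := by
    funext i
    change (if i ∈ (Finset.univ : Finset ι) then E' i else E i) = E' i
    rw [if_pos (Finset.mem_univ i)]
  rw [h7] at h6
  exact h6

private theorem rsa_prod {R : Type*} [CommRing R] {ι : Type*} [DecidableEq ι]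
    (D : Derivation ℤ R R) (s : Finset ι) (a : ι → R) :
    D (∏ i ∈ s, a i) = ∑ i ∈ s, (∏ k ∈ s.erase i, a k) * D (a i) := by
  induction s using Finset.induction_on with
  | empty => rw [Finset.prod_empty, Finset.sum_empty, D.map_one_eq_zero]
  | insert r s hr ih =>
    rw [Finset.prod_insert hr, Derivation.leibniz, ih, Finset.sum_insert hr,
      Finset.erase_insert hr, smul_eq_mul, smul_eq_mul, Finset.mul_sum, add_comm]
    congr 1
    refine Finset.sum_congr rfl fun i hi => ?_
    have h1 : i ≠ r := fun h => hr (h ▸ hi)
    rw [Finset.erase_insert_of_ne h1.symm,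
      Finset.prod_insert (fun h => hr (Finset.mem_of_mem_erase h)), mul_assoc]

/-- Jacobi's formula. -/
theorem der_det {R : Type*} [CommRing R] {ι : Type*} [Fintype ι] [DecidableEq ι]
    (D : Derivation ℤ R R) (M : Matrix ι ι R) :
    D M.det = ∑ i, ∑ j, M.adjugate j i * D (M i j) := by
  have h1 : ∀ i : ι, ∑ j, M.adjugate i j * D (M j i) =
      ∑ σ : Equiv.Perm ι, Equiv.Perm.sign σ •
        ((∏ k ∈ Finset.univ.erase i, M (σ k) k) * D (M (σ i) i)) := by
    intro i
    have h2 : ∑ j, M.adjugate i j * D (M j i) = (M.updateCol i fun j => D (M j i)).det := by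
      rw [← Matrix.cramer_apply, Matrix.cramer_eq_adjugate_mulVec]
      rfl
    rw [h2, Matrix.det_apply]
    refine Finset.sum_congr rfl fun σ _ => ?_
    congr 1
    rw [← Finset.prod_erase_mul Finset.univ _ (Finset.mem_univ i), Matrix.updateCol_self]
    congr 1
    refine Finset.prod_congr rfl fun k hk => ?_
    rw [Matrix.updateCol_ne (Finset.ne_of_mem_erase hk)]
  rw [Finset.sum_comm]
  rw [Finset.sum_congr rfl fun i _ => h1 i, Finset.sum_comm, Matrix.det_apply, map_sum]
  refine Finset.sum_congr rfl fun σ _ => ?_
  rw [← Finset.smul_sum, Units.smul_def, Units.smul_def, map_zsmul, rsa_prod]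

end MPadcLZ
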