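import Pool.Agent.Lib.MP_adc574_ag_LZ.Defs
import Pool.Agent.Lib.MP_adc574_ag_LZ.RsA
import Pool.Agent.Lib.MP_adc574_ag_HM.KosC

/-!
# JOB RsB: systems of parameters of the polynomial ring

`Sop h`: some power of every variable is in `(h)`. `IP h a = (h_j ^ (a j))`.
* `sop_pow`: `h j` is in the radical of `IP h a` (`(h j) ^ (a j) ∈ IP h a`; for `a j = 0` the ideal is everything), so `span (range h) ≤ radical (IP h a)`, and radicals are idempotent.
* `sop_M`: a common exponent (`Ideal.mem_radical_iff`, maximum over `i`, multiply).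
* `nzd`: `h r * x = ∑ s ≠ r, q s * h s` (elements of `span (h '' {s | s ≠ r})`: `Submodule.span_induction` or extend `q` by 0: e.g. the set of `y` such that there is `q` with `q r = 0`, `y = ∑ q s * h s`), so `∑ Q_j h_j = 0` with
  `Q r = x`, `Q s = - q s`; `MPadcHM.koszul_mv` (KosC; `M` from `sop_M`) gives `Q = A h`, `A` antisymmetric (`Asym`, diagonal 0), `x = ∑ s ≠ r, A r s * h s`.
* `cancel_one`: `h r * P = q r * h r ^ (a r + 1) + ∑ j ≠ r, q j * h j ^ a j` (elements of `span (range _)`: `Ideal.mem_span_range_iff_exists_fun`), so `h r * (P - q r * h r ^ a r) ∈ span (h_j ^ a j, j ≠ r)`; `nzd` for the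
  sequence `Function.update (fun j => h j ^ a j) r (h r)` (it is `Sop` by `sop_pow` with `update a r 1`) gives `P - q r * h r ^ a r ∈ span (h_j ^ a j, j ≠ r) ≤ IP h a`.
* `cancel_all`: induction on `∑ b`: if `b ≠ 0`, `b = b' + Pi.single r 1`, `∏ h^b = h r * ∏ h^b'`, `a + b = (a + b') + Pi.single r 1`; `cancel_one`.
* `wiebe`: `h j ∈ span (range X) ≤ radical (span (X_i^(k+1)))`, so there is `b` with `h j ^ (b+1) ∈ span (range X^(k+1))` for all `j`; choose `C` with `C.mulVec (X^(k+1)) = fun j => h j ^ (b+1)`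
  (`Ideal.mem_span_range_iff_exists_fun`). Then `(C * E).mulVec h = h^(b+1) = (diagonal (h^b)).mulVec h`. `det_diff` with `g = h^(b+1)` (`hg` by `nzd` for `sop_pow hs`) gives
  `det C * det E - ∏ h j ^ b ∈ IP h (b+1)`. `det C * (det E * P) ∈ IP h (b+1)` by `cramer_mem` (`det E * P = ∑ q_i X_i^(k+1)`, `det C * X_i^(k+1) ∈ span (range (C X^(k+1)))`). So `(∏ h j ^ b) * P ∈ IP h (1 + b)`,
  `cancel_all` (`a = 1`).
-/

set_option autoImplicit false

namespace MPadcLZ

open MvPolynomial MPadcHM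

universe u

variable {K : Type u} [Field K] {N : ℕ}

/-- `(h)` contains powers of all variables. -/
def Sop (h : Fin N → MvPolynomial (Fin N) K) : Prop :=
  ∀ i, (X i : MvPolynomial (Fin N) K) ∈ (Ideal.span (Set.range h)).radical

/-- The ideal of the powers `h_j ^ (a j)`. -/
noncomputable def IP (h : Fin N → MvPolynomial (Fin N) K) (a : Fin N → ℕ) : Ideal (MvPolynomial (Fin N) K) :=
  Ideal.span (Set.range fun j => h j ^ a j)

theorem sop_pow {h : Fin N → MvPolynomial (Fin N) K} (hs : Sop h) (a : Fin N → ℕ) :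
    Sop fun j => h j ^ a j := by
  have hle : Ideal.span (Set.range h) ≤ (Ideal.span (Set.range fun j => h j ^ a j)).radical := by
    rw [Ideal.span_le]
    rintro _ ⟨j, rfl⟩
    exact ⟨a j, Ideal.subset_span ⟨j, rfl⟩⟩
  intro i
  obtain ⟨n, hn⟩ := hs i
  rw [← Ideal.radical_idem]
  exact ⟨n, hle hn⟩

theorem sop_X (k : ℕ) : Sop fun i => (X i : MvPolynomial (Fin N) K) ^ k := by
  intro i
  exact ⟨k, Ideal.subset_span ⟨i, rfl⟩⟩

theorem sop_M {h : Fin N → MvPolynomial (Fin N) K} (hs : Sop h) :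
    ∃ M : ℕ, ∀ i, (X i : MvPolynomial (Fin N) K) ^ (M + 1) ∈ Ideal.span (Set.range h) := by
  choose n hn using fun i => (Ideal.mem_radical_iff.mp (hs i))
  refine ⟨∑ i, n i, fun i => ?_⟩
  refine Ideal.pow_mem_of_pow_mem _ (hn i) ?_
  have h1 : n i ≤ ∑ i, n i := Finset.single_le_sum (fun _ _ => Nat.zero_le _) (Finset.mem_univ i)
  omega

private theorem rsb_rep (h : Fin N → MvPolynomial (Fin N) K) (r : Fin N)
    (y : MvPolynomial (Fin N) K) (hy : y ∈ Ideal.span (h '' {s | s ≠ r})) :
    ∃ q : Fin N → MvPolynomial (Fin N) K, q r = 0 ∧ y = ∑ s, q s * h s := by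
  classical
  induction hy using Submodule.span_induction with
  | mem y hy =>
    obtain ⟨s, hs, rfl⟩ := hy
    refine ⟨Pi.single s 1, Pi.single_eq_of_ne (Ne.symm hs) _, ?_⟩
    rw [Finset.sum_eq_single s]
    · rw [Pi.single_eq_same, one_mul]
    · intro t _ ht
      rw [Pi.single_eq_of_ne ht, zero_mul]
    · intro h2
      exact absurd (Finset.mem_univ s) h2
  | zero =>
    refine ⟨0, rfl, ?_⟩
    simp
  | add y z _ _ hy hz =>
    obtain ⟨q, hq0, hq⟩ := hy
    obtain ⟨q', hq0', hq'⟩ := hz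
    refine ⟨q + q', by rw [Pi.add_apply, hq0, hq0', add_zero], ?_⟩
    rw [hq, hq', ← Finset.sum_add_distrib]
    exact Finset.sum_congr rfl fun s _ => by rw [Pi.add_apply, add_mul]
  | smul a y _ hy =>
    obtain ⟨q, hq0, hq⟩ := hy
    refine ⟨fun s => a * q s, (congrArg (fun z => a * z) hq0).trans (mul_zero a), ?_⟩
    rw [hq, smul_eq_mul, Finset.mul_sum]
    exact Finset.sum_congr rfl fun s _ => by rw [mul_assoc]

theorem nzd {h : Fin N → MvPolynomial (Fin N) K} (hs : Sop h) (r : Fin N)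
    (x : MvPolynomial (Fin N) K) (hx : h r * x ∈ Ideal.span (h '' {s | s ≠ r})) :
    x ∈ Ideal.span (h '' {s | s ≠ r}) := by
  classical
  obtain ⟨q, hq0, hq⟩ := rsb_rep h r _ hx
  obtain ⟨M, hM⟩ := sop_M hs
  have hQ : ∑ j, ((if j = r then x else 0) - q j) * h j = 0 := by
    have h1 : ∀ j, ((if j = r then x else 0) - q j) * h j =
        (if j = r then x * h j else 0) - q j * h j := by
      intro j
      split_ifs
      · ring
      · ring
    rw [Finset.sum_congr rfl fun j _ => h1 j, Finset.sum_sub_distrib, ← hq,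
      Finset.sum_ite_eq' Finset.univ r, if_pos (Finset.mem_univ r)]
    ring
  obtain ⟨A, hA, hAQ⟩ := koszul_mv h (M + 1) hM _ hQ
  have h1 := hAQ r
  rw [if_pos rfl, hq0, sub_zero] at h1
  rw [h1]
  refine Ideal.sum_mem _ fun j _ => ?_
  by_cases hj : j = r
  · rw [hj, hA.1 r, zero_mul]
    exact Ideal.zero_mem _
  · exact Ideal.mul_mem_left _ _ (Ideal.subset_span ⟨j, hj, rfl⟩)

theorem cancel_one {h : Fin N → MvPolynomial (Fin N) K} (hs : Sop h) (a : Fin N → ℕ) (r : Fin N)
    (P : MvPolynomial (Fin N) K) (hP : h r * P ∈ IP h (a + Pi.single r 1)) : P ∈ IP h a := by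
  classical
  obtain ⟨q, hq⟩ := Ideal.mem_span_range_iff_exists_fun.mp hP
  have hup : (Function.update (fun j => h j ^ a j) r (h r)) =
      fun j => h j ^ (Function.update a r 1) j := by
    funext j
    by_cases hj : j = r
    · subst hj
      rw [Function.update_self, Function.update_self, pow_one]
    · rw [Function.update_of_ne hj, Function.update_of_ne hj]
  have hs' : Sop (Function.update (fun j => h j ^ a j) r (h r)) := by
    rw [hup]
    exact sop_pow hs _
  have h1 : Function.update (fun j => h j ^ a j) r (h r) r * (P - q r * h r ^ a r) ∈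
      Ideal.span (Function.update (fun j => h j ^ a j) r (h r) '' {s | s ≠ r}) := by
    have h2 : h r * (P - q r * h r ^ a r) = ∑ j ∈ Finset.univ.erase r, q j * h j ^ a j := by
      rw [← Finset.add_sum_erase _ _ (Finset.mem_univ r)] at hq
      have h3 : ∑ j ∈ Finset.univ.erase r, q j * h j ^ ((a + Pi.single r 1 : Fin N → ℕ) j) =
          ∑ j ∈ Finset.univ.erase r, q j * h j ^ a j := by
        refine Finset.sum_congr rfl fun j hj => ?_
        rw [Pi.add_apply, Pi.single_eq_of_ne (Finset.ne_of_mem_erase hj), add_zero]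
      rw [h3, Pi.add_apply, Pi.single_eq_same, pow_succ] at hq
      rw [mul_sub, ← hq]
      ring
    rw [Function.update_self, h2]
    refine Ideal.sum_mem _ fun j hj => Ideal.mul_mem_left _ _ (Ideal.subset_span ⟨j, ?_, ?_⟩)
    · exact Finset.ne_of_mem_erase hj
    · rw [Function.update_of_ne (Finset.ne_of_mem_erase hj)]
  have h2 := nzd hs' r _ h1
  have h3 : Ideal.span (Function.update (fun j => h j ^ a j) r (h r) '' {s | s ≠ r}) ≤ IP h a := by
    rw [Ideal.span_le]
    rintro _ ⟨j, hj, rfl⟩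
    rw [Function.update_of_ne hj]
    exact Ideal.subset_span ⟨j, rfl⟩
  have h4 : q r * h r ^ a r ∈ IP h a := Ideal.mul_mem_left _ _ (Ideal.subset_span ⟨r, rfl⟩)
  have h5 := Ideal.add_mem _ (h3 h2) h4
  rwa [sub_add_cancel] at h5

theorem cancel_all {h : Fin N → MvPolynomial (Fin N) K} (hs : Sop h) (a b : Fin N → ℕ)
    (P : MvPolynomial (Fin N) K) (hP : (∏ j, h j ^ b j) * P ∈ IP h (a + b)) : P ∈ IP h a := by
  classical
  obtain ⟨n, hn⟩ : ∃ n, n = ∑ j, b j := ⟨_, rfl⟩
  induction n generalizing b P with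
  | zero =>
    have h1 : b = 0 := by
      funext j
      exact Finset.sum_eq_zero_iff.mp hn.symm j (Finset.mem_univ j)
    rw [h1, add_zero] at hP
    have h2 : ∏ j, h j ^ (0 : Fin N → ℕ) j = 1 := Finset.prod_eq_one fun j _ => pow_zero _
    rwa [h2, one_mul] at hP
  | succ n ih =>
    obtain ⟨r, hr⟩ : ∃ r, b r ≠ 0 := by
      by_contra hcon
      push Not at hcon
      rw [Finset.sum_eq_zero fun j _ => hcon j] at hn
      exact absurd hn (Nat.succ_ne_zero n)
    obtain ⟨b', hb'⟩ : ∃ b' : Fin N → ℕ, b' + Pi.single r 1 = b := by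
      refine ⟨Function.update b r (b r - 1), ?_⟩
      funext j
      rw [Pi.add_apply]
      by_cases hj : j = r
      · subst hj
        rw [Function.update_self, Pi.single_eq_same]
        omega
      · rw [Function.update_of_ne hj, Pi.single_eq_of_ne hj, add_zero]
    have h1 : ∏ j, h j ^ b j = h r * ∏ j, h j ^ b' j := by
      rw [← hb']
      simp only [Pi.add_apply, pow_add, Finset.prod_mul_distrib]
      have h2 : ∏ j, h j ^ (Pi.single r 1 : Fin N → ℕ) j = h r := by
        rw [Finset.prod_eq_single r]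
        · rw [Pi.single_eq_same, pow_one]
        · intro j _ hj
          rw [Pi.single_eq_of_ne hj, pow_zero]
        · intro h2
          exact absurd (Finset.mem_univ r) h2
      rw [h2, mul_comm]
    have h3 : ∑ j, b j = ∑ j, b' j + 1 := by
      rw [← hb']
      simp only [Pi.add_apply, Finset.sum_add_distrib]
      rw [Finset.sum_pi_single' r 1 Finset.univ, if_pos (Finset.mem_univ r)]
    refine ih b' P ?_ (by omega)
    refine cancel_one hs (a + b') r _ ?_
    rw [add_assoc, hb', ← mul_assoc, ← h1]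
    exact hP

theorem wiebe {h : Fin N → MvPolynomial (Fin N) K} (hs : Sop h)
    (h0 : ∀ j, h j ∈ Ideal.span (Set.range (X : Fin N → MvPolynomial (Fin N) K))) (k : ℕ)
    (E : Matrix (Fin N) (Fin N) (MvPolynomial (Fin N) K))
    (hE : E.mulVec h = fun i => X i ^ (k + 1)) (P : MvPolynomial (Fin N) K)
    (hP : E.det * P ∈ Ideal.span (Set.range fun i => (X i : MvPolynomial (Fin N) K) ^ (k + 1))) :
    P ∈ Ideal.span (Set.range h) := by
  classical
  have hb : ∃ b : ℕ, ∀ j, h j ^ (b + 1) ∈
      Ideal.span (Set.range fun i => (X i : MvPolynomial (Fin N) K) ^ (k + 1)) := by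
    have hle : Ideal.span (Set.range (X : Fin N → MvPolynomial (Fin N) K)) ≤
        (Ideal.span (Set.range fun i => (X i : MvPolynomial (Fin N) K) ^ (k + 1))).radical := by
      rw [Ideal.span_le]
      rintro _ ⟨j, rfl⟩
      exact ⟨k + 1, Ideal.subset_span ⟨j, rfl⟩⟩
    choose n hn using fun j => (Ideal.mem_radical_iff.mp (hle (h0 j)))
    refine ⟨∑ j, n j, fun j => Ideal.pow_mem_of_pow_mem _ (hn j) ?_⟩
    have h1 : n j ≤ ∑ j, n j := Finset.single_le_sum (fun _ _ => Nat.zero_le _) (Finset.mem_univ j)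
    omega
  obtain ⟨b, hb⟩ := hb
  choose c hc using fun j => (Ideal.mem_span_range_iff_exists_fun.mp (hb j))
  obtain ⟨C', hC'⟩ : ∃ C' : Matrix (Fin N) (Fin N) (MvPolynomial (Fin N) K),
      C'.mulVec (fun i => X i ^ (k + 1)) = fun j => h j ^ (b + 1) :=
    ⟨Matrix.of c, funext fun j => hc j⟩
  have h1 : (C' * E).mulVec h = fun j => h j ^ (b + 1) := by
    rw [← Matrix.mulVec_mulVec, hE, hC']
  have h2 : (Matrix.diagonal fun j => h j ^ b).mulVec h = fun j => h j ^ (b + 1) := by
    funext j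
    rw [Matrix.mulVec_diagonal, pow_succ]
  have h3 := det_diff h (fun j => h j ^ (b + 1)) (C' * E) (Matrix.diagonal fun j => h j ^ b) h1 h2
    (nzd (sop_pow hs fun _ => b + 1))
  rw [Matrix.det_mul, Matrix.det_diagonal] at h3
  have h4 : C'.det * (E.det * P) ∈ Ideal.span (Set.range fun j => h j ^ (b + 1)) := by
    obtain ⟨q, hq⟩ := Ideal.mem_span_range_iff_exists_fun.mp hP
    rw [← hq, Finset.mul_sum]
    refine Ideal.sum_mem _ fun i _ => ?_
    have h5 := cramer_mem C' (fun i => X i ^ (k + 1)) i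
    rw [hC'] at h5
    have h6 : C'.det * (q i * X i ^ (k + 1)) = q i * (C'.det * X i ^ (k + 1)) := by ring
    rw [h6]
    exact Ideal.mul_mem_left _ _ h5
  have h5 : (∏ j, h j ^ b) * P ∈ Ideal.span (Set.range fun j => h j ^ (b + 1)) := by
    have h6 : (∏ j, h j ^ b) * P = C'.det * (E.det * P) -
        P * (C'.det * E.det - ∏ j, h j ^ b) := by ring
    rw [h6]
    exact Ideal.sub_mem _ h4 (Ideal.mul_mem_left _ _ h3)
  have h6 := cancel_all hs 1 (fun _ => b) P (by
    unfold IP
    have h7 : (fun j => h j ^ ((1 + fun _ => b : Fin N → ℕ) j)) = fun j => h j ^ (b + 1) := by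
      funext j
      rw [Pi.add_apply, Pi.one_apply, add_comm]
    rw [h7]
    exact h5)
  unfold IP at h6
  have h7 : (fun j => h j ^ (1 : Fin N → ℕ) j) = h := by
    funext j
    rw [Pi.one_apply, pow_one]
  rwa [h7] at h6

end MPadcLZ
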