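import Pool.Agent.Lib.MP_adc574_ag_LZ.RsB

/-!
# JOB RsC: the residue of a system of parameters

`IsE f k E`: `X_i ^ (k+1) = ∑ j, E i j * f j`. `resf f P` = coefficient of `(X_0 … X_{N-1}) ^ k` in `det E * P`.
* `coeff_cst_ideal`: a monomial of `q * X_i ^ (k+1)` has exponent `≥ k + 1` at `i` (`MvPolynomial.coeff_mul_X_pow'`-type, `X_pow_eq_monomial`, `coeff_mul_monomial'`); linear over sums.
* `ideal_of_coeff`: for `u ≤ cst N k` the coefficient of `x^u` in `Z` is `coeff (cst N k) (Z * monomial (cst N k - u) 1) = 0`, so every `u ∈ Z.support` has `u i ≥ k + 1` for some `i` (`MvPolynomial.mem_ideal_span_monomial_image`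
  as in HM/KosC.lean, or write `Z` as the sum of its monomials).
* `coeff_cst_shift`: `∏ i, X i ^ l = monomial (cst N l) 1` (`MvPolynomial.monomial_eq`/`prod_X_pow_eq_monomial`), `coeff_monomial_mul`.
* `exists_E`: `sop_M`, `Ideal.mem_span_range_iff_exists_fun`.
* `resf_eq`: let `(k', E')` be the chosen data, `L = k + k'`. `diagonal (X_i^(L-k)) * E` is `IsE f L` (and its determinant is `∏ X_i^(L-k) * det E`), the same for `E'`; by `det_diff` (`hg`: `nzd (sop_X _)`) the difference of the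
  determinants is in `(X_i^(L+1))`; `coeff_cst_ideal`, `coeff_cst_shift`.
* `resf_mem`: `det E * f j ∈ (X^(k+1))` by `cramer_mem`. * `resf_trans`: `X^(k+1) = E g = (E * C) f`: `IsE f k (E * C)`. * `resf_X`: `E = 1`, `k = 0`.
* `resf_nondeg`: `ideal_of_coeff`, `wiebe`.
-/

set_option autoImplicit false

namespace MPadcLZ

open MvPolynomial MPadcHM

universe u

variable {K : Type u} [Field K] {N : ℕ}

/-- The constant exponent. -/
noncomputable def cst (N k : ℕ) : Fin N →₀ ℕ := Finsupp.equivFunOnFinite.symm fun _ => k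

private theorem rsc_cst_apply (k : ℕ) (i : Fin N) : cst N k i = k := rfl

private theorem rsc_image (k : ℕ) :
    (Set.range fun i : Fin N => (X i : MvPolynomial (Fin N) K) ^ (k + 1)) =
      (fun s => monomial s (1 : K)) '' (Set.range fun i : Fin N => Finsupp.single i (k + 1)) := by
  rw [← Set.range_comp]
  congr 1
  funext i
  exact X_pow_eq_monomial

theorem coeff_cst_ideal (k : ℕ) (Z : MvPolynomial (Fin N) K)
    (hZ : Z ∈ Ideal.span (Set.range fun i => (X i : MvPolynomial (Fin N) K) ^ (k + 1))) :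
    coeff (cst N k) Z = 0 := by
  obtain ⟨c, hc⟩ := Ideal.mem_span_range_iff_exists_fun.mp hZ
  rw [← hc, coeff_sum]
  refine Finset.sum_eq_zero fun i _ => ?_
  rw [X_pow_eq_monomial, coeff_mul_monomial', if_neg]
  intro h
  have h1 := h i
  rw [Finsupp.single_eq_same, rsc_cst_apply] at h1
  omega

theorem ideal_of_coeff (k : ℕ) (Z : MvPolynomial (Fin N) K)
    (h : ∀ v : Fin N →₀ ℕ, coeff (cst N k) (Z * monomial v 1) = 0) :
    Z ∈ Ideal.span (Set.range fun i => (X i : MvPolynomial (Fin N) K) ^ (k + 1)) := by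
  rw [rsc_image, mem_ideal_span_monomial_image]
  intro e he
  by_contra hcon
  push Not at hcon
  have h1 : ∀ i, e i ≤ k := by
    intro i
    by_contra hi
    exact hcon (Finsupp.single i (k + 1)) ⟨i, rfl⟩ (Finsupp.single_le_iff.2 (by omega))
  have h2 : e + (cst N k - e) = cst N k := by
    ext i
    rw [Finsupp.add_apply, Finsupp.tsub_apply, rsc_cst_apply]
    have := h1 i
    omega
  have h3 := h (cst N k - e)
  have h4 : coeff (e + (cst N k - e)) (Z * monomial (cst N k - e) 1) = coeff e Z * 1 :=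
    coeff_mul_monomial _ _ _ _
  rw [h2, h3, mul_one] at h4
  exact mem_support_iff.1 he h4.symm

theorem coeff_cst_shift (k l : ℕ) (Z : MvPolynomial (Fin N) K) :
    coeff (cst N (k + l)) ((∏ i, X i ^ l) * Z) = coeff (cst N k) Z := by
  have h1 : (∏ i : Fin N, (X i : MvPolynomial (Fin N) K) ^ l) = monomial (cst N l) 1 := by
    rw [monomial_eq, C_1, one_mul, Finsupp.prod_fintype _ _ (fun i => pow_zero _)]
    rfl
  have h2 : cst N (k + l) = cst N l + cst N k := by
    ext i
    rw [Finsupp.add_apply, rsc_cst_apply, rsc_cst_apply, rsc_cst_apply, add_comm]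
  rw [h1, h2, coeff_monomial_mul, one_mul]

/-- The variables to the power `k + 1` in terms of `f`. -/
def IsE (f : Fin N → MvPolynomial (Fin N) K) (k : ℕ)
    (E : Matrix (Fin N) (Fin N) (MvPolynomial (Fin N) K)) : Prop :=
  E.mulVec f = fun i => X i ^ (k + 1)

theorem exists_E {f : Fin N → MvPolynomial (Fin N) K} (hf : Sop f) : ∃ k E, IsE f k E := by
  obtain ⟨M, hM⟩ := sop_M hf
  have h1 : ∀ i, ∃ c : Fin N → MvPolynomial (Fin N) K,
      ∑ j, c j * f j = (X i : MvPolynomial (Fin N) K) ^ (M + 1) :=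
    fun i => Ideal.mem_span_range_iff_exists_fun.mp (hM i)
  choose c hc using h1
  exact ⟨M, Matrix.of c, funext fun i => hc i⟩

open Classical in
/-- The residue `P ↦ Res (P / ∏ f_j)`. -/
noncomputable def resf (f : Fin N → MvPolynomial (Fin N) K) : MvPolynomial (Fin N) K →ₗ[K] K :=
  if h : ∃ p : ℕ × Matrix (Fin N) (Fin N) (MvPolynomial (Fin N) K), IsE f p.1 p.2 then
    (lcoeff K (cst N h.choose.1)).comp (LinearMap.mulLeft K h.choose.2.det)
  else 0

private theorem rsc_det (k : ℕ) (E : Matrix (Fin N) (Fin N) (MvPolynomial (Fin N) K)) :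
    (Matrix.diagonal (fun i => (X i : MvPolynomial (Fin N) K) ^ k) * E).det =
      (∏ i, (X i : MvPolynomial (Fin N) K) ^ k) * E.det := by
  rw [Matrix.det_mul, Matrix.det_diagonal]

private theorem rsc_isE {f : Fin N → MvPolynomial (Fin N) K} {k : ℕ}
    {E : Matrix (Fin N) (Fin N) (MvPolynomial (Fin N) K)} (hE : IsE f k E) (l : ℕ) :
    (Matrix.diagonal (fun i => (X i : MvPolynomial (Fin N) K) ^ l) * E).mulVec f =
      fun i => X i ^ (k + l + 1) := by
  unfold IsE at hE
  rw [← Matrix.mulVec_mulVec, hE]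
  funext i
  rw [Matrix.mulVec_diagonal, ← pow_add]
  congr 1
  omega

private theorem rsc_indep {f : Fin N → MvPolynomial (Fin N) K} {k k' : ℕ}
    {E E' : Matrix (Fin N) (Fin N) (MvPolynomial (Fin N) K)} (hE : IsE f k E) (hE' : IsE f k' E')
    (P : MvPolynomial (Fin N) K) :
    coeff (cst N k) (E.det * P) = coeff (cst N k') (E'.det * P) := by
  have h1 := rsc_isE hE k'
  have h2 := rsc_isE hE' k
  have hkk : k' + k = k + k' := add_comm _ _
  rw [hkk] at h2
  have h3 := det_diff f (fun i => (X i : MvPolynomial (Fin N) K) ^ (k + k' + 1)) _ _ h1 h2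
    (fun r x hx => nzd (sop_X (k + k' + 1)) r x hx)
  have h4 := coeff_cst_ideal (k + k') _ (Ideal.mul_mem_right P _ h3)
  rw [sub_mul, coeff_sub, sub_eq_zero, rsc_det, rsc_det, mul_assoc, mul_assoc, coeff_cst_shift] at h4
  rw [h4, ← hkk, coeff_cst_shift]

theorem resf_eq {f : Fin N → MvPolynomial (Fin N) K} {k : ℕ}
    {E : Matrix (Fin N) (Fin N) (MvPolynomial (Fin N) K)} (hE : IsE f k E)
    (P : MvPolynomial (Fin N) K) : resf f P = coeff (cst N k) (E.det * P) := by
  classical
  have h : ∃ p : ℕ × Matrix (Fin N) (Fin N) (MvPolynomial (Fin N) K), IsE f p.1 p.2 := ⟨(k, E), hE⟩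
  unfold resf
  rw [dif_pos h]
  exact rsc_indep h.choose_spec hE P

theorem resf_mem {f : Fin N → MvPolynomial (Fin N) K} (hf : Sop f) (P : MvPolynomial (Fin N) K)
    (hP : P ∈ Ideal.span (Set.range f)) : resf f P = 0 := by
  obtain ⟨k, E, hE⟩ := exists_E hf
  rw [resf_eq hE]
  apply coeff_cst_ideal
  obtain ⟨c, hc⟩ := Ideal.mem_span_range_iff_exists_fun.mp hP
  rw [← hc, Finset.mul_sum]
  refine Ideal.sum_mem _ fun j _ => ?_
  have h1 := cramer_mem E f j
  have h2 : E.mulVec f = fun i => X i ^ (k + 1) := hE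
  rw [h2] at h1
  have h3 : E.det * (c j * f j) = c j * (E.det * f j) := by ring
  rw [h3]
  exact Ideal.mul_mem_left _ _ h1

/-- The transformation law. -/
theorem resf_trans {f g : Fin N → MvPolynomial (Fin N) K}
    (C' : Matrix (Fin N) (Fin N) (MvPolynomial (Fin N) K)) (hC : C'.mulVec f = g) (hg : Sop g)
    (P : MvPolynomial (Fin N) K) : resf f P = resf g (C'.det * P) := by
  obtain ⟨k, E, hE⟩ := exists_E hg
  have h1 : IsE f k (E * C') := by
    unfold IsE at hE ⊢
    rw [← Matrix.mulVec_mulVec, hC, hE]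
  rw [resf_eq h1, resf_eq hE, Matrix.det_mul, mul_assoc]

theorem resf_X (P : MvPolynomial (Fin N) K) : resf (fun i => X i) P = coeff 0 P := by
  have h1 : IsE (fun i => (X i : MvPolynomial (Fin N) K)) 0 1 := by
    unfold IsE
    rw [Matrix.one_mulVec]
    funext i
    rw [zero_add, pow_one]
  have h2 : cst N 0 = 0 := by
    ext i
    rfl
  rw [resf_eq h1, Matrix.det_one, one_mul, h2]

theorem resf_nondeg {f : Fin N → MvPolynomial (Fin N) K} (hf : Sop f)
    (h0 : ∀ j, f j ∈ Ideal.span (Set.range (X : Fin N → MvPolynomial (Fin N) K)))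
    (P : MvPolynomial (Fin N) K) (h : ∀ v : Fin N →₀ ℕ, resf f (P * monomial v 1) = 0) :
    P ∈ Ideal.span (Set.range f) := by
  obtain ⟨k, E, hE⟩ := exists_E hf
  refine wiebe hf h0 k E hE P (ideal_of_coeff k _ fun v => ?_)
  have h1 := h v
  rw [resf_eq hE] at h1
  rw [mul_assoc]
  exact h1

end MPadcLZ
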