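import Pool.Agent.Lib.MP_adc574_ag_LZ.RsC

/-!
# JOB RsD: homogeneous polynomials

`Hm m P` (Defs): all monomials of `P` have degree `m`, `dg e = ∑ i, e i`. Mathlib: `MvPolynomial.IsHomogeneous` (`hm_iff`: `Hm m P ↔ P.IsHomogeneous m`;
`dg e = e.degree`, `Finsupp.degree`, `isHomogeneous` is `coeff ≠ 0 → weight 1 e = m`), then use the Mathlib API (`IsHomogeneous.mul`, `homogeneousComponent`).
* `hm_det`: if the entries `M i j` have degree `r i j` with `r i j + c j = b i` then the determinant has degree `∑ b - ∑ c`: every term of `Matrix.det_apply` is a product `∏ M (σ i) i` of degree `∑ r (σ i) i`, `∑ r (σ i) i + ∑ c = ∑ b`.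
* `mem_X`: a homogeneous polynomial of degree `≥ 1` is in `(X_0, …)` (`MvPolynomial.mem_ideal_span_X_image` or monomials).
* `exists_dec`: `P ∈ (h)`, `P` of degree `m`, `h j` of degree `c j`: `P = ∑ h j * q j`, replace `q j` by its component of degree `m - c j` if `c j ≤ m` and by `0` otherwise (`homogeneousComponent m (h j * q j) = h j * homogeneousComponent (m - c j) (q j)`,
  resp. `0`).
* `resf_hom`: `IsE f k E` with `k + 1 ≥ c j` for all `j` and `E i j` homogeneous of degree `k + 1 - c j` (`exists_dec` for `X_i^(k+1)`, after enlarging `k`: `X_i^(M+1) ∈ (f)` implies `X_i^(k+1) ∈ (f)` for `k ≥ M`), so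
  `det E` has degree `N (k+1) - ∑ c`, `det E * P` has degree `N (k+1) - ∑ c + m`, and the coefficient at `cst N k` (degree `N k`) is 0 unless `m + N = ∑ c` (as integers).
* `sum_hm`: every polynomial is the sum of its homogeneous components.
-/

set_option autoImplicit false

namespace MPadcLZ

open MvPolynomial MPadcHM

universe u

variable {K : Type u} [Field K] {N : ℕ}

theorem hm_iff (m : ℕ) (P : MvPolynomial (Fin N) K) : Hm m P ↔ P.IsHomogeneous m := by
  have h1 : ∀ e : Fin N →₀ ℕ, Finsupp.weight (1 : Fin N → ℕ) e = dg e := by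
    intro e
    rw [Finsupp.weight_apply, Finsupp.sum_fintype e (fun i c => c • (1 : Fin N → ℕ) i)
      (fun i => zero_smul ℕ _)]
    unfold dg
    refine Finset.sum_congr rfl fun i _ => ?_
    rw [Pi.one_apply, smul_eq_mul, mul_one]
  constructor
  · intro h e he
    rw [h1]
    exact h e (mem_support_iff.2 he)
  · intro h e he
    rw [← h1]
    exact h (mem_support_iff.1 he)

theorem hm_mul {m m' : ℕ} {P Q : MvPolynomial (Fin N) K} (hP : Hm m P) (hQ : Hm m' Q) :
    Hm (m + m') (P * Q) := by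
  rw [hm_iff] at hP hQ ⊢
  exact hP.mul hQ

theorem hm_add {m : ℕ} {P Q : MvPolynomial (Fin N) K} (hP : Hm m P) (hQ : Hm m Q) :
    Hm m (P + Q) := by
  rw [hm_iff] at hP hQ ⊢
  exact hP.add hQ

theorem hm_sum {m : ℕ} {ι : Type*} (s : Finset ι) (P : ι → MvPolynomial (Fin N) K)
    (h : ∀ i ∈ s, Hm m (P i)) : Hm m (∑ i ∈ s, P i) := by
  rw [hm_iff]
  exact IsHomogeneous.sum s P m fun i hi => (hm_iff m (P i)).1 (h i hi)

theorem hm_smul {m : ℕ} (c : K) {P : MvPolynomial (Fin N) K} (hP : Hm m P) : Hm m (c • P) := by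
  rw [hm_iff] at hP ⊢
  rw [smul_eq_C_mul]
  exact hP.C_mul c

theorem hm_pderiv {m : ℕ} {P : MvPolynomial (Fin N) K} (hP : Hm m P) (j : Fin N) :
    Hm (m - 1) (pderiv j P) := by
  rw [hm_iff] at hP ⊢
  exact hP.pderiv

theorem hm_cder {m : ℕ} {P : MvPolynomial (Fin N) K} (hP : Hm m P) (D : Derivation ℤ K K) :
    Hm m (cder D P) := by
  unfold cder
  refine hm_sum _ _ fun e he => ?_
  intro e' he'
  have h1 := support_monomial_subset he'
  rw [Finset.mem_singleton] at h1
  rw [h1]
  exact hP e he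

theorem hm_det {r : Fin N → Fin N → ℕ} {b c : Fin N → ℕ} (hr : ∀ i j, r i j + c j = b i)
    (M : Matrix (Fin N) (Fin N) (MvPolynomial (Fin N) K)) (hM : ∀ i j, Hm (r i j) (M i j)) :
    Hm (∑ i, b i - ∑ i, c i) M.det := by
  rw [Matrix.det_apply]
  refine hm_sum _ _ fun σ _ => ?_
  rw [hm_iff]
  have h1 : (∏ i, M (σ i) i).IsHomogeneous (∑ i, r (σ i) i) :=
    IsHomogeneous.prod _ _ _ fun i _ => (hm_iff _ _).1 (hM (σ i) i)
  have h2 : ∑ i, r (σ i) i + ∑ i, c i = ∑ i, b i := by
    rw [← Finset.sum_add_distrib, ← Equiv.sum_comp σ b]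
    exact Finset.sum_congr rfl fun i _ => hr (σ i) i
  have h3 : ∑ i, r (σ i) i = ∑ i, b i - ∑ i, c i := by omega
  rw [h3] at h1
  rcases Int.units_eq_one_or (Equiv.Perm.sign σ) with h | h
  · rw [h, one_smul]
    exact h1
  · rw [h, Units.neg_smul, one_smul]
    exact h1.neg

theorem mem_X {m : ℕ} (hm : 1 ≤ m) {P : MvPolynomial (Fin N) K} (hP : Hm m P) :
    P ∈ Ideal.span (Set.range (X : Fin N → MvPolynomial (Fin N) K)) := by
  have h1 : (Set.range (X : Fin N → MvPolynomial (Fin N) K)) =
      (fun s => monomial s (1 : K)) '' (Set.range fun i : Fin N => Finsupp.single i 1) := by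
    rw [← Set.range_comp]
    rfl
  rw [h1, mem_ideal_span_monomial_image]
  intro e he
  have h2 := hP e he
  have h3 : ∃ i, e i ≠ 0 := by
    by_contra hcon
    push Not at hcon
    have h4 : dg e = 0 := Finset.sum_eq_zero fun i _ => hcon i
    omega
  obtain ⟨i, hi⟩ := h3
  exact ⟨Finsupp.single i 1, ⟨i, rfl⟩, Finsupp.single_le_iff.2 (by omega)⟩

private theorem rsd_comp {c m : ℕ} {h q : MvPolynomial (Fin N) K} (hh : h.IsHomogeneous c) :
    homogeneousComponent m (h * q) = if c ≤ m then h * homogeneousComponent (m - c) q else 0 := by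
  classical
  have h1 : h * q = ∑ i ∈ Finset.range (q.totalDegree + 1), h * homogeneousComponent i q := by
    rw [← Finset.mul_sum, sum_homogeneousComponent]
  have h2 : ∀ i, homogeneousComponent m (h * homogeneousComponent i q) =
      if m = c + i then h * homogeneousComponent i q else 0 := fun i =>
    homogeneousComponent_of_mem (hh.mul (homogeneousComponent_isHomogeneous i q))
  rw [h1, map_sum, Finset.sum_congr rfl fun i _ => h2 i]
  by_cases hc : c ≤ m
  · rw [if_pos hc]
    by_cases hd : m - c ≤ q.totalDegree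
    · rw [Finset.sum_eq_single (m - c)]
      · rw [if_pos (by omega)]
      · intro b _ hb
        rw [if_neg (by omega)]
      · intro hb
        exact absurd (Finset.mem_range.2 (by omega)) hb
    · rw [homogeneousComponent_eq_zero (m - c) q (by omega), mul_zero]
      refine Finset.sum_eq_zero fun i hi => ?_
      rw [Finset.mem_range] at hi
      rw [if_neg (by omega)]
  · rw [if_neg hc]
    refine Finset.sum_eq_zero fun i _ => ?_
    rw [if_neg (by omega)]

theorem exists_dec {h : Fin N → MvPolynomial (Fin N) K} {c : Fin N → ℕ}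
    (hh : ∀ j, Hm (c j) (h j)) (m : ℕ) (P : MvPolynomial (Fin N) K) (hP : Hm m P)
    (hP' : P ∈ Ideal.span (Set.range h)) :
    ∃ Q : Fin N → MvPolynomial (Fin N) K, (∀ j, Hm (m - c j) (Q j)) ∧ (∀ j, m < c j → Q j = 0) ∧
      P = ∑ j, h j * Q j := by
  classical
  obtain ⟨q, hq⟩ := Ideal.mem_span_range_iff_exists_fun.mp hP'
  refine ⟨fun j => if c j ≤ m then homogeneousComponent (m - c j) (q j) else 0, ?_, ?_, ?_⟩
  · intro j
    rw [hm_iff]
    beta_reduce
    by_cases hj : c j ≤ m
    · rw [if_pos hj]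
      exact homogeneousComponent_isHomogeneous _ _
    · rw [if_neg hj]
      exact isHomogeneous_zero _ _ _
  · intro j hj
    exact if_neg (by omega)
  · have h1 : homogeneousComponent m P = P := homogeneousComponent_eq_self ((hm_iff m P).1 hP)
    rw [← h1, ← hq, map_sum]
    refine Finset.sum_congr rfl fun j _ => ?_
    rw [mul_comm (q j) (h j), rsd_comp ((hm_iff _ _).1 (hh j))]
    beta_reduce
    by_cases hj : c j ≤ m
    · rw [if_pos hj, if_pos hj]
    · rw [if_neg hj, if_neg hj, mul_zero]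

theorem resf_hom {f : Fin N → MvPolynomial (Fin N) K} (hf : Sop f) (c : Fin N → ℕ)
    (hc : ∀ j, Hm (c j) (f j)) (m : ℕ) (P : MvPolynomial (Fin N) K) (hP : Hm m P)
    (hne : m + N ≠ ∑ j, c j) : resf f P = 0 := by
  classical
  obtain ⟨M, hM⟩ := sop_M hf
  set k := M + ∑ j, c j with hk
  have hck : ∀ j, c j ≤ k + 1 := by
    intro j
    have h1 : c j ≤ ∑ j, c j := Finset.single_le_sum (fun _ _ => Nat.zero_le _) (Finset.mem_univ j)
    omega
  have hX : ∀ i, (X i : MvPolynomial (Fin N) K) ^ (k + 1) ∈ Ideal.span (Set.range f) := by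
    intro i
    have h1 : k + 1 = (M + 1) + ∑ j, c j := by omega
    rw [h1, pow_add]
    exact Ideal.mul_mem_right _ _ (hM i)
  have hXm : ∀ i, Hm (k + 1) ((X i : MvPolynomial (Fin N) K) ^ (k + 1)) := by
    intro i
    rw [hm_iff]
    have h1 := (isHomogeneous_X K i).pow (k + 1)
    rw [one_mul] at h1
    exact h1
  have hdec := fun i => exists_dec hc (k + 1) _ (hXm i) (hX i)
  choose Q hQ1 hQ2 hQ3 using hdec
  have hE : IsE f k (Matrix.of Q) := by
    unfold IsE
    funext i
    rw [hQ3 i]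
    show ∑ j, Q i j * f j = ∑ j, f j * Q i j
    exact Finset.sum_congr rfl fun j _ => mul_comm _ _
  rw [resf_eq hE]
  have hdet : Hm (∑ _i : Fin N, (k + 1) - ∑ i, c i) (Matrix.of Q).det :=
    hm_det (r := fun _ j => k + 1 - c j) (b := fun _ => k + 1) (c := c)
      (fun i j => by have := hck j; omega) _ (fun i j => hQ1 i j)
  have hprod := hm_mul hdet hP
  have hsum : ∑ i, c i ≤ ∑ _i : Fin N, (k + 1) := Finset.sum_le_sum fun i _ => hck i
  have hs : ∑ _i : Fin N, (k + 1) = N * (k + 1) := by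
    rw [Finset.sum_const, Finset.card_univ, Fintype.card_fin, smul_eq_mul]
  by_contra hcon
  have h1 := hprod (cst N k) (mem_support_iff.2 hcon)
  have h2 : dg (cst N k) = N * k := by
    show ∑ _i : Fin N, k = N * k
    rw [Finset.sum_const, Finset.card_univ, Fintype.card_fin, smul_eq_mul]
  rw [h2, hs] at h1
  rw [hs] at hsum
  rw [Nat.mul_succ] at h1 hsum
  omega

theorem sum_hm (P : MvPolynomial (Fin N) K) :
    ∃ (n : ℕ) (Q : ℕ → MvPolynomial (Fin N) K), (∀ m, Hm m (Q m)) ∧
      P = ∑ m ∈ Finset.range n, Q m := by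
  refine ⟨P.totalDegree + 1, fun m => homogeneousComponent m P, fun m => ?_, ?_⟩
  · rw [hm_iff]
    exact homogeneousComponent_isHomogeneous _ _
  · exact (sum_homogeneousComponent P).symm

end MPadcLZ
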