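import Pool.Agent.Lib.MP_adc574_ag_LZ.RsD

/-!
# JOB RsE: the residues `rr h a P = Res (P / ∏ h_j ^ (a j))` and their uniqueness

`h` is a system of parameters, `h j` homogeneous of degree `e ≥ 1`.
* `rr_mem`: `resf_mem` (`sop_pow`). `rr_zero`: `h i ^ 0 = 1` generates everything. `rr_succ`: `resf_trans` with `C = diagonal (update 1 i (h i))` from `h^a` to `h^(a + e_i)`. `rr_prod`: induction on `∑ b` with `rr_succ` (or `resf_trans` with `diagonal (h^b)`).
  `rr_hom`: `resf_hom`, `h j ^ a j` has degree `e * a j`.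
* `mem_of_deg`: `P` homogeneous of degree `> N (e - 1)`: `resf_nondeg` (`mem_X`): `P * x^v` has degree `m + dg v`, `m + dg v + N ≠ N e`, `resf_hom`.
* `exists_C'`: `mem_X` and `exists_dec` for `h j` and the sequence `X` (degree 1). `C'.det` has degree `N (e - 1)` (`hm_det` with `r = e - 1`, `b = e - 1`, `c = 0`), and `rr h 1 C'.det = resf X 1 = 1` (`resf_trans`, `resf_X`).
* `top_dec`: `P` of degree `N (e - 1)`: `Z = P - C (rr h 1 P) * C'.det` has `resf h (Z * x^v) = 0` for all `v` (`v = 0`: `rr_C`; `v ≠ 0`: degree), `resf_nondeg`. (`rr h 1 = resf h` since `h j ^ 1 = h j`.)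
* `Sys.high`: strong induction on `∑ a`. If some `a i = 0`: `hT.zero`. Otherwise `∑ a ≥ N`, so `m + N > e N`, `P ∈ (h)` (`mem_of_deg`), `P = ∑ h j * Q j` (`exists_dec`), `T a (h j * Q j) = T (a - e_j) (Q j)` (`hT.succ`), `Q j = 0` or `m - e + N > e (∑ a - 1)`.
* `Sys.eq`: the same induction for `m + N = e ∑ a`: if `∑ a > N` as before; if `∑ a = N` then `a = 1` and `m = N (e - 1)`: `top_dec`: `P = C c * C'.det + ∑ h j * Q j`, `T 1 (h j * Q j) = T (1 - e_j) (Q j) = 0` (`hT.zero`).
  (`T` is additive. `N = 0` is allowed: then `a` is unique and `1 = a`.)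
-/

set_option autoImplicit false

namespace MPadcLZ

open MvPolynomial MPadcHM

universe u

variable {K : Type u} [Field K] {N : ℕ}

/-- `Res (P / ∏ h_j ^ (a j))`. -/
noncomputable def rr (h : Fin N → MvPolynomial (Fin N) K) (a : Fin N → ℕ) :
    MvPolynomial (Fin N) K →ₗ[K] K := resf fun j => h j ^ a j

private theorem rse_mon (v : Fin N →₀ ℕ) :
    Hm (dg v) (monomial v (1 : K) : MvPolynomial (Fin N) K) := by
  intro w hw
  have h1 := support_monomial_subset hw
  rw [Finset.mem_singleton] at h1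
  rw [h1]

private theorem rse_one (h : Fin N → MvPolynomial (Fin N) K) : rr h 1 = resf h := by
  unfold rr
  congr 1
  funext j
  rw [Pi.one_apply, pow_one]

section basic

variable {h : Fin N → MvPolynomial (Fin N) K} (hs : Sop h)

include hs

theorem rr_mem (a : Fin N → ℕ) (P : MvPolynomial (Fin N) K) (hP : P ∈ IP h a) : rr h a P = 0 := by
  exact resf_mem (sop_pow hs a) P hP

theorem rr_zero (a : Fin N → ℕ) (i : Fin N) (hi : a i = 0) (P : MvPolynomial (Fin N) K) :
    rr h a P = 0 := by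
  refine rr_mem hs a P ?_
  have h1 : (1 : MvPolynomial (Fin N) K) ∈ IP h a := Ideal.subset_span ⟨i, by
    show h i ^ a i = 1
    rw [hi, pow_zero]⟩
  have h2 := Ideal.mul_mem_left _ P h1
  rwa [mul_one] at h2

theorem rr_succ (a : Fin N → ℕ) (i : Fin N) (P : MvPolynomial (Fin N) K) :
    rr h (a + Pi.single i 1) (h i * P) = rr h a P := by
  classical
  have hC : (Matrix.diagonal (Function.update (1 : Fin N → MvPolynomial (Fin N) K) i
      (h i))).mulVec (fun j => h j ^ a j) =
      fun j => h j ^ ((a + Pi.single i 1 : Fin N → ℕ) j) := by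
    funext j
    rw [Matrix.mulVec_diagonal, Pi.add_apply]
    by_cases hj : j = i
    · subst hj
      rw [Function.update_self, Pi.single_eq_same, pow_succ, mul_comm]
    · rw [Function.update_of_ne hj, Pi.single_eq_of_ne hj, add_zero, Pi.one_apply, one_mul]
  have h1 := resf_trans _ hC (sop_pow hs _) P
  rw [Matrix.det_diagonal] at h1
  have h2 : ∏ j, Function.update (1 : Fin N → MvPolynomial (Fin N) K) i (h i) j = h i := by
    rw [Finset.prod_eq_single i]
    · rw [Function.update_self]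
    · intro j _ hj
      rw [Function.update_of_ne hj, Pi.one_apply]
    · intro h2
      exact absurd (Finset.mem_univ i) h2
  rw [h2] at h1
  exact h1.symm

theorem rr_prod (a b : Fin N → ℕ) (P : MvPolynomial (Fin N) K) :
    rr h (a + b) ((∏ j, h j ^ b j) * P) = rr h a P := by
  classical
  have hC : (Matrix.diagonal fun j => h j ^ b j).mulVec (fun j => h j ^ a j) =
      fun j => h j ^ ((a + b : Fin N → ℕ) j) := by
    funext j
    rw [Matrix.mulVec_diagonal, Pi.add_apply, pow_add, mul_comm]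
  have h1 := resf_trans _ hC (sop_pow hs _) P
  rw [Matrix.det_diagonal] at h1
  exact h1.symm

variable {e : ℕ} (hh : ∀ j, Hm e (h j))

include hh

theorem rr_hom (a : Fin N → ℕ) (m : ℕ) (P : MvPolynomial (Fin N) K) (hP : Hm m P)
    (hne : m + N ≠ e * ∑ j, a j) : rr h a P = 0 := by
  refine resf_hom (sop_pow hs a) (fun j => e * a j) (fun j => ?_) m P hP ?_
  · rw [hm_iff]
    exact ((hm_iff e (h j)).mp (hh j)).pow (a j)
  · rw [← Finset.mul_sum]
    exact hne

variable (he : 1 ≤ e)

include he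

theorem mem_of_deg (m : ℕ) (P : MvPolynomial (Fin N) K) (hP : Hm m P) (hm : N * (e - 1) < m) :
    P ∈ Ideal.span (Set.range h) := by
  refine resf_nondeg hs (fun j => mem_X he (hh j)) P fun v => ?_
  refine resf_hom hs (fun _ => e) hh (m + dg v) _ (hm_mul hP (rse_mon v)) ?_
  rw [Finset.sum_const, Finset.card_univ, Fintype.card_fin, smul_eq_mul]
  obtain ⟨e', rfl⟩ : ∃ e', e = e' + 1 := ⟨e - 1, by omega⟩
  rw [Nat.add_sub_cancel] at hm
  rw [Nat.mul_add, Nat.mul_one]
  omega

omit hs in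
theorem exists_C' : ∃ C' : Matrix (Fin N) (Fin N) (MvPolynomial (Fin N) K),
    C'.mulVec X = h ∧ ∀ i j, Hm (e - 1) (C' i j) := by
  have h1 : ∀ i, ∃ Q : Fin N → MvPolynomial (Fin N) K, (∀ j, Hm (e - 1) (Q j)) ∧
      h i = ∑ j, X j * Q j := by
    intro i
    obtain ⟨Q, hQ, -, hQ2⟩ := exists_dec (h := fun j => (X j : MvPolynomial (Fin N) K))
      (c := fun _ => 1) (fun j => (hm_iff 1 _).mpr (isHomogeneous_X K j)) e (h i) (hh i)
      (mem_X he (hh i))
    exact ⟨Q, hQ, hQ2⟩
  choose Q hQ hQ2 using h1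
  refine ⟨Matrix.of Q, ?_, fun i j => hQ i j⟩
  funext i
  show ∑ j, Q i j * X j = h i
  rw [hQ2 i]
  exact Finset.sum_congr rfl fun j _ => mul_comm _ _

theorem rr_C {C' : Matrix (Fin N) (Fin N) (MvPolynomial (Fin N) K)} (hC : C'.mulVec X = h) :
    rr h 1 C'.det = 1 := by
  have _ := hh
  have _ := he
  have h1 := resf_trans C' hC hs 1
  rw [mul_one] at h1
  have h2 := resf_X (K := K) (N := N) 1
  have h3 : resf (X : Fin N → MvPolynomial (Fin N) K) 1 = coeff 0 (1 : MvPolynomial (Fin N) K) := h2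
  rw [h3, coeff_zero_one] at h1
  rw [rse_one]
  exact h1.symm

theorem top_dec {C' : Matrix (Fin N) (Fin N) (MvPolynomial (Fin N) K)} (hC : C'.mulVec X = h)
    (hC' : ∀ i j, Hm (e - 1) (C' i j)) (P : MvPolynomial (Fin N) K) (hP : Hm (N * (e - 1)) P) :
    P - C (rr h 1 P) * C'.det ∈ Ideal.span (Set.range h) := by
  classical
  have hdet : Hm (N * (e - 1)) C'.det := by
    have h1 := hm_det (r := fun _ _ => e - 1) (b := fun _ => e - 1) (c := fun _ => 0)
      (fun _ _ => rfl) C' hC'
    rwa [Finset.sum_const, Finset.sum_const_zero, Nat.sub_zero, Finset.card_univ,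
      Fintype.card_fin, smul_eq_mul] at h1
  have hZ : Hm (N * (e - 1)) (P - C (rr h 1 P) * C'.det) := by
    have h1 : P - C (rr h 1 P) * C'.det = P + (-(rr h 1 P)) • C'.det := by
      rw [smul_eq_C_mul, map_neg]
      ring
    rw [h1]
    exact hm_add hP (hm_smul _ hdet)
  refine resf_nondeg hs (fun j => mem_X he (hh j)) _ fun v => ?_
  by_cases hv : dg v = 0
  · have hv0 : v = 0 := by
      ext i
      exact Finset.sum_eq_zero_iff.mp hv i (Finset.mem_univ i)
    have h1 : (monomial v (1 : K) : MvPolynomial (Fin N) K) = 1 := by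
      rw [hv0]
      rfl
    rw [h1, mul_one, map_sub, ← smul_eq_C_mul, map_smul]
    have h2 := rr_C hs hh he hC
    rw [rse_one] at h2
    rw [h2, rse_one, smul_eq_mul, mul_one, sub_self]
  · refine resf_hom hs (fun _ => e) hh (N * (e - 1) + dg v) _ (hm_mul hZ (rse_mon v)) ?_
    rw [Finset.sum_const, Finset.card_univ, Fintype.card_fin, smul_eq_mul]
    obtain ⟨e', rfl⟩ : ∃ e', e = e' + 1 := ⟨e - 1, by omega⟩
    rw [Nat.add_sub_cancel, Nat.mul_add, Nat.mul_one]
    omega

end basic

/-- A system of functionals of `P / ∏ h_j ^ (a j)`. -/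
structure Sys (h : Fin N → MvPolynomial (Fin N) K)
    (T : (Fin N → ℕ) → MvPolynomial (Fin N) K →+ K) : Prop where
  succ : ∀ a i P, T (a + Pi.single i 1) (h i * P) = T a P
  zero : ∀ a i, a i = 0 → ∀ P, T a P = 0

private theorem rse_step {h : Fin N → MvPolynomial (Fin N) K} {e : ℕ}
    (hh : ∀ j, Hm e (h j)) {T : (Fin N → ℕ) → MvPolynomial (Fin N) K →+ K}
    (hT : Sys h T) (a : Fin N → ℕ) (ha : ∀ i, a i ≠ 0) (m : ℕ) (P : MvPolynomial (Fin N) K)
    (hP : Hm m P) (hP' : P ∈ Ideal.span (Set.range h))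
    (ih : ∀ (j : Fin N) (a' : Fin N → ℕ), a' + Pi.single j 1 = a →
      ∀ Q : MvPolynomial (Fin N) K, Hm (m - e) Q → e ≤ m → T a' Q = 0) : T a P = 0 := by
  classical
  obtain ⟨Q, hQ, hQ0, hPQ⟩ := exists_dec (c := fun _ => e) hh m P hP hP'
  rw [hPQ, map_sum]
  refine Finset.sum_eq_zero fun j _ => ?_
  obtain ⟨a', ha'⟩ : ∃ a' : Fin N → ℕ, a' + Pi.single j 1 = a := by
    refine ⟨Function.update a j (a j - 1), ?_⟩
    funext i
    rw [Pi.add_apply]
    by_cases hi : i = j
    · subst hi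
      rw [Function.update_self, Pi.single_eq_same]
      have := ha i
      omega
    · rw [Function.update_of_ne hi, Pi.single_eq_of_ne hi, add_zero]
  rw [← ha', hT.succ]
  rcases Nat.lt_or_ge m e with hlt | hge
  · rw [hQ0 j hlt, map_zero]
  · exact ih j a' ha' (Q j) (hQ j) hge

private theorem rse_sum {a : Fin N → ℕ} (ha : ∀ i, a i ≠ 0) : N ≤ ∑ j, a j := by
  have h1 : ∑ _j : Fin N, 1 ≤ ∑ j, a j :=
    Finset.sum_le_sum fun i _ => Nat.one_le_iff_ne_zero.mpr (ha i)
  rwa [Finset.sum_const, Finset.card_univ, Fintype.card_fin, smul_eq_mul, mul_one] at h1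

private theorem rse_sum1 {a a' : Fin N → ℕ} {j : Fin N} (h : a' + Pi.single j 1 = a) :
    ∑ j, a j = ∑ j, a' j + 1 := by
  classical
  rw [← h]
  simp only [Pi.add_apply, Finset.sum_add_distrib]
  rw [Finset.sum_pi_single' j 1 Finset.univ, if_pos (Finset.mem_univ j)]

private theorem rse_all1 {a : Fin N → ℕ} (ha : ∀ i, a i ≠ 0) (hs : ∑ j, a j = N) : a = 1 := by
  have h1 : ∑ _j : Fin N, 1 = ∑ j, a j := by
    rw [hs, Finset.sum_const, Finset.card_univ, Fintype.card_fin, smul_eq_mul, mul_one]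
  have h2 := (Finset.sum_eq_sum_iff_of_le (fun i _ => Nat.one_le_iff_ne_zero.mpr (ha i))).mp h1
  funext i
  exact (h2 i (Finset.mem_univ i)).symm

private theorem rse_arith {e N s m : ℕ} (he : 1 ≤ e) (hN : N ≤ s) (hm : e * s < m + N) :
    N * (e - 1) < m := by
  obtain ⟨e', rfl⟩ : ∃ e', e = e' + 1 := ⟨e - 1, by omega⟩
  rw [Nat.add_sub_cancel]
  have h2 : (e' + 1) * N ≤ (e' + 1) * s := Nat.mul_le_mul_left _ hN
  have h3 : (e' + 1) * N = N * e' + N := by ring
  omega

theorem Sys.high {h : Fin N → MvPolynomial (Fin N) K} (hs : Sop h) {e : ℕ}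
    (hh : ∀ j, Hm e (h j)) (he : 1 ≤ e) {T : (Fin N → ℕ) → MvPolynomial (Fin N) K →+ K}
    (hT : Sys h T) (a : Fin N → ℕ) (m : ℕ) (P : MvPolynomial (Fin N) K) (hP : Hm m P)
    (hm : e * ∑ j, a j < m + N) : T a P = 0 := by
  obtain ⟨n, hn⟩ : ∃ n, n = ∑ j, a j := ⟨_, rfl⟩
  induction n using Nat.strong_induction_on generalizing a m P with
  | _ n ih =>
    by_cases ha : ∃ i, a i = 0
    · obtain ⟨i, hi⟩ := ha
      exact hT.zero a i hi P
    · push Not at ha
      have hN : N ≤ ∑ j, a j := rse_sum ha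
      have hm' : N * (e - 1) < m := rse_arith he hN hm
      refine rse_step hh hT a ha m P hP (mem_of_deg hs hh he m P hP hm') ?_
      intro j a' ha' Q hQ hem
      have hs' : ∑ j, a j = ∑ j, a' j + 1 := rse_sum1 ha'
      refine ih (∑ j, a' j) (by omega) a' (m - e) Q hQ ?_ rfl
      rw [hs', Nat.mul_add, Nat.mul_one] at hm
      omega

theorem Sys.eq {h : Fin N → MvPolynomial (Fin N) K} (hs : Sop h) {e : ℕ}
    (hh : ∀ j, Hm e (h j)) (he : 1 ≤ e) {T : (Fin N → ℕ) → MvPolynomial (Fin N) K →+ K}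
    (hT : Sys h T) {C' : Matrix (Fin N) (Fin N) (MvPolynomial (Fin N) K)} (hC : C'.mulVec X = h)
    (hC' : ∀ i j, Hm (e - 1) (C' i j)) (h1 : ∀ c : K, T 1 (C c * C'.det) = 0) (a : Fin N → ℕ)
    (m : ℕ) (P : MvPolynomial (Fin N) K) (hP : Hm m P) (hm : m + N = e * ∑ j, a j) :
    T a P = 0 := by
  obtain ⟨n, hn⟩ : ∃ n, n = ∑ j, a j := ⟨_, rfl⟩
  induction n using Nat.strong_induction_on generalizing a m P with
  | _ n ih =>
    by_cases ha : ∃ i, a i = 0
    · obtain ⟨i, hi⟩ := ha
      exact hT.zero a i hi P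
    · push Not at ha
      have hN : N ≤ ∑ j, a j := rse_sum ha
      rcases Nat.lt_or_ge N (∑ j, a j) with hlt | hge
      · have hm' : N * (e - 1) < m := by
          obtain ⟨e', rfl⟩ : ∃ e', e = e' + 1 := ⟨e - 1, by omega⟩
          rw [Nat.add_sub_cancel]
          have h2 : (e' + 1) * (N + 1) ≤ (e' + 1) * ∑ j, a j := Nat.mul_le_mul_left _ hlt
          have h3 : (e' + 1) * (N + 1) = N * e' + N + e' + 1 := by ring
          omega
        refine rse_step hh hT a ha m P hP (mem_of_deg hs hh he m P hP hm') ?_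
        intro j a' ha' Q hQ hem
        have hs' : ∑ j, a j = ∑ j, a' j + 1 := rse_sum1 ha'
        refine ih (∑ j, a' j) (by omega) a' (m - e) Q hQ ?_ rfl
        rw [hs', Nat.mul_add, Nat.mul_one] at hm
        omega
      · have hsum : ∑ j, a j = N := le_antisymm hge hN
        have ha1 : a = 1 := rse_all1 ha hsum
        have hmN : m = N * (e - 1) := by
          rw [hsum] at hm
          obtain ⟨e', rfl⟩ : ∃ e', e = e' + 1 := ⟨e - 1, by omega⟩
          rw [Nat.add_sub_cancel]
          have h3 : (e' + 1) * N = N * e' + N := by ring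
          omega
        have hP2 : Hm (N * (e - 1)) P := by
          rw [← hmN]
          exact hP
        have h2 := top_dec hs hh he hC hC' P hP2
        have hdet : Hm (N * (e - 1)) C'.det := by
          have h1 := hm_det (r := fun _ _ => e - 1) (b := fun _ => e - 1) (c := fun _ => 0)
            (fun _ _ => rfl) C' hC'
          rwa [Finset.sum_const, Finset.sum_const_zero, Nat.sub_zero, Finset.card_univ,
            Fintype.card_fin, smul_eq_mul] at h1
        have hZ : Hm m (P - C (rr h 1 P) * C'.det) := by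
          have h1 : P - C (rr h 1 P) * C'.det = P + (-(rr h 1 P)) • C'.det := by
            rw [smul_eq_C_mul, map_neg]
            ring
          rw [h1, hmN]
          exact hm_add hP2 (hm_smul _ hdet)
        have h3 : T a (P - C (rr h 1 P) * C'.det) = 0 := by
          refine rse_step hh hT a ha m _ hZ h2 ?_
          intro j a' ha' Q _ _
          refine hT.zero a' j ?_ Q
          have h4 := congrFun ha' j
          rw [Pi.add_apply, Pi.single_eq_same, ha1, Pi.one_apply] at h4
          omega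
        rw [map_sub, sub_eq_zero] at h3
        rw [h3, ha1]
        exact h1 _

end MPadcLZ
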