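import Pool.Agent.Lib.MP_adc574_ag_LZ.RsE
import Pool.Agent.Lib.MP_adc574_ag_LZ.FrD

/-!
# JOB RsF: residues of exact forms vanish

`rr_pderiv`: `Res (∂_j (P / h^a)) = 0`. Proof: let `T a P = rr h a (∂_j P) - ∑ k, a_k * rr h (a + e_k) (∂_j h_k * P)` (additive in `P`). It is a `Sys h`:
* `succ`: `∂_j (h_i P) = h_i ∂_j P + ∂_j h_i P`, `rr (a + e_i) (h_i ∂_j P) = rr a (∂_j P)`, `rr (a + e_i + e_k) (∂_j h_k * (h_i * P)) = rr (a + e_k) (∂_j h_k * P)` (`rr_succ`; `a + e_i + e_k = (a + e_k) + e_i`), `(a + e_i)_k = a_k + δ_ik`;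
  the two terms `rr (a + e_i) (∂_j h_i * P)` cancel;
* `zero`: `a i = 0`: `rr_zero` for all terms with `k ≠ i`, for `k = i` the factor `a_i` is `0`.
For `P` homogeneous of degree `m` (`sum_hm`, additivity): if `e ∑ a < m + N`, `Sys.high`. Otherwise all terms vanish by `rr_hom`: `∂_j P` is `0` if `m = 0` and has degree `m - 1` (`hm_pderiv`), `(m - 1) + N ≠ e ∑ a`,
`∂_j h_k * P` has degree `e - 1 + m`, `∑ (a + e_k) = ∑ a + 1`, `e - 1 + m + N < e (∑ a + 1)`.
-/

set_option autoImplicit false

namespace MPadcLZ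

open MvPolynomial MPadcHM

universe u

variable {K : Type u} [Field K] {N : ℕ}

/-- The difference of the two sides. -/
private noncomputable def rsfT (h : Fin N → MvPolynomial (Fin N) K) (j : Fin N) (a : Fin N → ℕ) :
    MvPolynomial (Fin N) K →+ K :=
  AddMonoidHom.mk' (fun P => rr h a (pderiv j P) -
    ∑ k, (a k : K) * rr h (a + Pi.single k 1) (pderiv j (h k) * P)) (by
      intro P Q
      simp only [map_add, mul_add, Finset.sum_add_distrib]
      ring)

private theorem rsfT_apply (h : Fin N → MvPolynomial (Fin N) K) (j : Fin N) (a : Fin N → ℕ)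
    (P : MvPolynomial (Fin N) K) : rsfT h j a P = rr h a (pderiv j P) -
      ∑ k, (a k : K) * rr h (a + Pi.single k 1) (pderiv j (h k) * P) := rfl

private theorem rsf_sys {h : Fin N → MvPolynomial (Fin N) K} (hs : Sop h) (j : Fin N) :
    Sys h (rsfT h j) := by
  constructor
  · intro a i P
    rw [rsfT_apply, rsfT_apply]
    have h1 : rr h (a + Pi.single i 1) (pderiv j (h i * P)) =
        rr h a (pderiv j P) + rr h (a + Pi.single i 1) (pderiv j (h i) * P) := by
      rw [Derivation.leibniz, smul_eq_mul, smul_eq_mul, map_add, rr_succ hs, mul_comm P]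
    have h2 : ∀ k, rr h (a + Pi.single i 1 + Pi.single k 1) (pderiv j (h k) * (h i * P)) =
        rr h (a + Pi.single k 1) (pderiv j (h k) * P) := by
      intro k
      rw [add_right_comm, mul_left_comm, rr_succ hs]
    have h3 : ∑ k, ((a + Pi.single i 1 : Fin N → ℕ) k : K) *
        rr h (a + Pi.single i 1 + Pi.single k 1) (pderiv j (h k) * (h i * P)) =
        ∑ k, (a k : K) * rr h (a + Pi.single k 1) (pderiv j (h k) * P) +
          rr h (a + Pi.single i 1) (pderiv j (h i) * P) := by
      have h4 : ∀ k, ((a + Pi.single i 1 : Fin N → ℕ) k : K) *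
          rr h (a + Pi.single i 1 + Pi.single k 1) (pderiv j (h k) * (h i * P)) =
          (a k : K) * rr h (a + Pi.single k 1) (pderiv j (h k) * P) +
            (if k = i then rr h (a + Pi.single k 1) (pderiv j (h k) * P) else 0) := by
        intro k
        rw [h2 k, Pi.add_apply, Pi.single_apply]
        split_ifs with h5
        · push_cast
          ring
        · push_cast
          ring
      rw [Finset.sum_congr rfl fun k _ => h4 k, Finset.sum_add_distrib, Finset.sum_ite_eq',
        if_pos (Finset.mem_univ i)]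
    rw [h1, h3]
    ring
  · intro a i hi P
    rw [rsfT_apply, rr_zero hs a i hi, zero_sub, neg_eq_zero]
    refine Finset.sum_eq_zero fun k _ => ?_
    by_cases hk : k = i
    · rw [hk, hi, Nat.cast_zero, zero_mul]
    · rw [rr_zero hs (a + Pi.single k 1) i (by
        rw [Pi.add_apply, Pi.single_apply, if_neg (Ne.symm hk), hi, add_zero]), mul_zero]

private theorem rsf_zero {P : MvPolynomial (Fin N) K} (hP : Hm 0 P) (j : Fin N) :
    pderiv j P = 0 := by
  rw [P.as_sum, map_sum]
  refine Finset.sum_eq_zero fun e he => ?_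
  have h1 : e j = 0 := by
    have h2 := hP e he
    unfold dg at h2
    exact Finset.sum_eq_zero_iff.1 h2 j (Finset.mem_univ j)
  rw [pderiv_monomial, h1, Nat.cast_zero, mul_zero, monomial_zero]

theorem rr_pderiv {h : Fin N → MvPolynomial (Fin N) K} (hs : Sop h) {e : ℕ}
    (hh : ∀ j, Hm e (h j)) (he : 1 ≤ e) (j : Fin N) (a : Fin N → ℕ)
    (P : MvPolynomial (Fin N) K) :
    rr h a (pderiv j P) =
      ∑ k, (a k : K) * rr h (a + Pi.single k 1) (pderiv j (h k) * P) := by
  have hT := rsf_sys hs j
  have key : rsfT h j a P = 0 := by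
    obtain ⟨n, Q, hQ, hPQ⟩ := sum_hm P
    rw [hPQ, map_sum]
    refine Finset.sum_eq_zero fun m _ => ?_
    by_cases hm : e * ∑ j, a j < m + N
    · exact hT.high hs hh he a m (Q m) (hQ m) hm
    · push Not at hm
      rw [rsfT_apply]
      have h1 : rr h a (pderiv j (Q m)) = 0 := by
        rcases Nat.eq_zero_or_pos m with h0 | h0
        · have h2 := hQ m
          rw [h0] at h2
          rw [h0, rsf_zero h2 j, map_zero]
        · refine rr_hom hs hh a (m - 1) _ (hm_pderiv (hQ m) j) ?_
          omega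
      rw [h1, zero_sub, neg_eq_zero]
      refine Finset.sum_eq_zero fun k _ => ?_
      have h2 : ∑ l, (a + Pi.single k 1 : Fin N → ℕ) l = ∑ l, a l + 1 := by
        simp only [Pi.add_apply]
        rw [Finset.sum_add_distrib, Finset.sum_pi_single', if_pos (Finset.mem_univ k)]
      rw [rr_hom hs hh (a + Pi.single k 1) (e - 1 + m) _ (hm_mul (hm_pderiv (hh k) j) (hQ m)) (by
        rw [h2, mul_add, mul_one]
        omega), mul_zero]
  rw [rsfT_apply, sub_eq_zero] at key
  exact key

end MPadcLZ
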