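import Mathlib

/-!
# JOB SerA: inverses of the operators `f - z p` on `E[[z]]`

`E` is a field, a series is a sequence `G : ℕ → E`. `Tz f p G = (f G_0, f G_1 - p G_0, f G_2 - p G_1, …)` for `f : E` and an additive map `p` (a derivation: `Lz p`). `Jz f p` is the inverse (`f ≠ 0`), given by the recursion
`(J G)_0 = f⁻¹ G_0`, `(J G)_{m+1} = f⁻¹ (G_{m+1} + p ((J G)_m))`.
* `jz_add`, `jz_zero`: induction on `m`. `tz_jz`, `jz_tz`: `AddMonoidHom.ext`, `funext m`, cases / induction on `m`.
* `tz_comm`: cases `m = 0, 1, m + 2`, Leibniz, `p f' = p' f`, `p p' = p' p`. `shz` is the shift.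
* `comm_jz`: if `X` commutes with `T = Tz f p` then `X` commutes with `J = Jz f p`: `J X = J X T J = J T X J = X J`.
* `jz_stable`: induction on `m`.
-/

set_option autoImplicit false

namespace MPadcLZ

variable {E : Type*} [Field E]

/-- The operator `f - z p`. -/
def Tz (f : E) (p : E →+ E) : AddMonoid.End (ℕ → E) where
  toFun G m := Nat.casesOn m (f * G 0) (fun m => f * G (m + 1) - p (G m))
  map_zero' := by
    funext m
    cases m <;> simp
  map_add' G G' := by
    funext m
    cases m
    · simp [mul_add]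
    · simp [mul_add]
      ring

theorem tz_zero (f : E) (p : E →+ E) (G : ℕ → E) : Tz f p G 0 = f * G 0 := rfl

theorem tz_succ (f : E) (p : E →+ E) (G : ℕ → E) (m : ℕ) :
    Tz f p G (m + 1) = f * G (m + 1) - p (G m) := rfl

/-- The recursion of the inverse. -/
def jseq (f : E) (p : E →+ E) (G : ℕ → E) : ℕ → E
  | 0 => f⁻¹ * G 0
  | m + 1 => f⁻¹ * (G (m + 1) + p (jseq f p G m))

theorem jz_add (f : E) (p : E →+ E) (G G' : ℕ → E) (m : ℕ) :
    jseq f p (G + G') m = jseq f p G m + jseq f p G' m := by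
  induction m with
  | zero => simp [jseq, mul_add]
  | succ m ih =>
    simp only [jseq, Pi.add_apply, ih, map_add]
    ring

theorem jz_zero (f : E) (p : E →+ E) (m : ℕ) :
    jseq f p 0 m = 0 := by
  induction m with
  | zero => simp [jseq]
  | succ m ih => simp [jseq, ih]

/-- The inverse of `f - z p`. -/
def Jz (f : E) (p : E →+ E) : AddMonoid.End (ℕ → E) where
  toFun := jseq f p
  map_zero' := funext fun m => jz_zero f p m
  map_add' G G' := funext fun m => jz_add f p G G' m

theorem tz_jz {f : E} (hf : f ≠ 0) (p : E →+ E) : Tz f p * Jz f p = 1 := by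
  refine AddMonoidHom.ext fun G => funext fun m => ?_
  cases m with
  | zero =>
    show f * (f⁻¹ * G 0) = G 0
    rw [← mul_assoc, mul_inv_cancel₀ hf, one_mul]
  | succ m =>
    show f * (f⁻¹ * (G (m + 1) + p (jseq f p G m))) - p (jseq f p G m) = G (m + 1)
    rw [← mul_assoc, mul_inv_cancel₀ hf, one_mul, add_sub_cancel_right]

theorem jz_tz {f : E} (hf : f ≠ 0) (p : E →+ E) : Jz f p * Tz f p = 1 := by
  refine AddMonoidHom.ext fun G => funext fun m => ?_
  show jseq f p (Tz f p G) m = G m
  induction m with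
  | zero =>
    show f⁻¹ * (f * G 0) = G 0
    rw [← mul_assoc, inv_mul_cancel₀ hf, one_mul]
  | succ m ih =>
    show f⁻¹ * ((f * G (m + 1) - p (G m)) + p (jseq f p (Tz f p G) m)) = G (m + 1)
    rw [ih, sub_add_cancel, ← mul_assoc, inv_mul_cancel₀ hf, one_mul]

/-- The shift. -/
def shz : AddMonoid.End (ℕ → E) where
  toFun G m := Nat.casesOn m 0 (fun m => G m)
  map_zero' := by
    funext m
    cases m <;> simp
  map_add' G G' := by
    funext m
    cases m <;> simp

/-- The Leibniz rule. -/
def Lz (p : E →+ E) : Prop := ∀ a b, p (a * b) = a * p b + b * p a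

theorem tz_comm {f f' : E} {p p' : E →+ E} (hp : Lz p) (hp' : Lz p') (h1 : p f' = p' f)
    (h2 : ∀ x, p (p' x) = p' (p x)) : Commute (Tz f p) (Tz f' p') := by
  refine AddMonoidHom.ext fun G => funext fun m => ?_
  match m with
  | 0 =>
    show f * (f' * G 0) = f' * (f * G 0)
    ring
  | 1 =>
    show f * (f' * G 1 - p' (G 0)) - p (f' * G 0) = f' * (f * G 1 - p (G 0)) - p' (f * G 0)
    rw [hp, hp', h1]
    ring
  | m + 2 =>
    show f * (f' * G (m + 2) - p' (G (m + 1))) - p (f' * G (m + 1) - p' (G m))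
      = f' * (f * G (m + 2) - p (G (m + 1))) - p' (f * G (m + 1) - p (G m))
    rw [map_sub, map_sub, hp, hp', h1, h2]
    ring

theorem shz_comm (f : E) (p : E →+ E) : Commute shz (Tz f p) := by
  refine AddMonoidHom.ext fun G => funext fun m => ?_
  match m with
  | 0 =>
    show (0 : E) = f * 0
    ring
  | 1 =>
    show f * G 0 = f * G 0 - p 0
    rw [map_zero, sub_zero]
  | m + 2 => rfl

/-- Multiplication by a constant. -/
def muz (c : E) : AddMonoid.End (ℕ → E) where
  toFun G m := c * G m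
  map_zero' := by
    funext m
    simp
  map_add' G G' := by
    funext m
    simp [mul_add]

theorem muz_comm (f : E) {p : E →+ E} (hp : Lz p) {c : E} (hc : p c = 0) :
    Commute (muz c) (Tz f p) := by
  refine AddMonoidHom.ext fun G => funext fun m => ?_
  cases m with
  | zero =>
    show c * (f * G 0) = f * (c * G 0)
    ring
  | succ m =>
    show c * (f * G (m + 1) - p (G m)) = f * (c * G (m + 1)) - p (c * G m)
    rw [hp, hc]
    ring

theorem comm_jz {f : E} (hf : f ≠ 0) {p : E →+ E} {X : AddMonoid.End (ℕ → E)}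
    (h : Commute X (Tz f p)) : Commute X (Jz f p) := by
  show X * Jz f p = Jz f p * X
  calc X * Jz f p = (Jz f p * Tz f p) * (X * Jz f p) := by rw [jz_tz hf p, one_mul]
    _ = Jz f p * (Tz f p * X) * Jz f p := by simp only [mul_assoc]
    _ = Jz f p * (X * Tz f p) * Jz f p := by rw [h.eq]
    _ = Jz f p * X * (Tz f p * Jz f p) := by simp only [mul_assoc]
    _ = Jz f p * X := by rw [tz_jz hf p, mul_one]

theorem jz_stable (f : E) (p : E →+ E) (R : AddSubgroup E)
    (h1 : ∀ x ∈ R, f⁻¹ * x ∈ R) (h2 : ∀ x ∈ R, p x ∈ R) (G : ℕ → E) (hG : ∀ m, G m ∈ R) (m : ℕ) :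
    Jz f p G m ∈ R := by
  show jseq f p G m ∈ R
  induction m with
  | zero => exact h1 _ (hG 0)
  | succ m ih => exact h1 _ (R.add_mem (hG (m + 1)) (h2 _ ih))

end MPadcLZ
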